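import Pool.Agent.SInt.TriB

open Finset Complex
open scoped ArithmeticFunction.Moebius ArithmeticFunction.vonMangoldt

namespace Pool.Agent.SInt

open Pool.Agent.ANT

private noncomputable def kp1 (t x : ℝ) : ℂ :=
  if 0 < x then cexp ((1 + t * I) * (Real.log x : ℂ)) else 0

private noncomputable def kp0 (t x : ℝ) : ℂ :=
  if 0 < x then cexp (I * ((t * Real.log x : ℝ) : ℂ)) else 0

private lemma kp_norm0 (t x : ℝ) : ‖kp0 t x‖ ≤ 1 := by
  unfold kp0
  split_ifs with h
  · rw [mul_comm, Complex.norm_exp_ofReal_mul_I]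
  · simp

private lemma kp_norm1 (t x : ℝ) : ‖kp1 t x‖ ≤ |x| := by
  unfold kp1
  split_ifs with h
  · rw [Complex.norm_exp]
    have : ((1 + (t : ℂ) * I) * (Real.log x : ℂ)).re = Real.log x := by
      simp
    rw [this, Real.exp_log h, abs_of_pos h]
  · simp

private lemma kp_norm2 (t x : ℝ) : ‖pw x t‖ ≤ x ^ 2 := by
  unfold pw
  split_ifs with h
  · simpa using sq_nonneg x
  · have hx : 0 < x := not_le.mp h
    rw [Complex.norm_exp]
    have : ((2 + (t : ℂ) * I) * (Real.log x : ℂ)).re = Real.log x + Real.log x := by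
      simp; ring
    rw [this, Real.exp_add, Real.exp_log hx]
    nlinarith

private lemma kp_exp (t x : ℝ) (hx : 0 < x) :
    cexp ((1 + t * I) * (Real.log x : ℂ)) = x * cexp (I * ((t * Real.log x : ℝ) : ℂ)) := by
  have : (x : ℂ) = cexp (Real.log x : ℂ) := by
    rw [← Complex.ofReal_exp, Real.exp_log hx]
  rw [this, ← Complex.exp_add]
  congr 1
  push_cast
  ring

private lemma kp_exp2 (t x : ℝ) (hx : 0 < x) :
    cexp ((2 + t * I) * (Real.log x : ℂ)) = x * cexp ((1 + t * I) * (Real.log x : ℂ)) := by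
  have : (x : ℂ) = cexp (Real.log x : ℂ) := by
    rw [← Complex.ofReal_exp, Real.exp_log hx]
  rw [this, ← Complex.exp_add]
  congr 1
  ring

private lemma kp_deriv1 (t : ℝ) {x : ℝ} (hx : x ≠ 0) :
    HasDerivAt (kp1 t) ((1 + t * I) * kp0 t x) x := by
  rcases lt_or_gt_of_ne hx with h | h
  · have h0 : kp0 t x = 0 := by simp [kp0, not_lt.mpr h.le]
    rw [h0, mul_zero]
    refine (hasDerivAt_const x (0 : ℂ)).congr_of_eventuallyEq ?_
    filter_upwards [Iio_mem_nhds h] with y hy
    simp [kp1, not_lt.mpr (le_of_lt (show y < 0 from hy))]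
  · have hd : HasDerivAt (fun y : ℝ => cexp ((1 + t * I) * (Real.log y : ℂ)))
        (cexp ((1 + t * I) * (Real.log x : ℂ)) * ((1 + t * I) * ((x⁻¹ : ℝ) : ℂ))) x := by
      refine HasDerivAt.cexp ?_
      exact ((Real.hasDerivAt_log hx).ofReal_comp).const_mul _
    have he : cexp ((1 + t * I) * (Real.log x : ℂ)) * ((1 + t * I) * ((x⁻¹ : ℝ) : ℂ)) =
        (1 + t * I) * kp0 t x := by
      rw [kp_exp t x h]
      have h1 : (x : ℂ) ≠ 0 := by exact_mod_cast hx
      simp only [kp0, h, if_true]
      push_cast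
      field_simp
    rw [← he]
    refine hd.congr_of_eventuallyEq ?_
    filter_upwards [Ioi_mem_nhds h] with y hy
    simp [kp1, show (0 : ℝ) < y from hy]

private lemma kp_cont1 (t : ℝ) : Continuous (kp1 t) := by
  rw [continuous_iff_continuousAt]
  intro x
  by_cases hx : x = 0
  · subst hx
    have h0 : kp1 t 0 = 0 := by simp [kp1]
    unfold ContinuousAt
    rw [h0]
    refine squeeze_zero_norm (kp_norm1 t) ?_
    have : Filter.Tendsto (fun y : ℝ => |y|) (nhds 0) (nhds |(0 : ℝ)|) :=
      (continuous_abs.tendsto 0)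
    simpa using this
  · exact (kp_deriv1 t hx).continuousAt

private lemma kp_deriv2 (t x : ℝ) :
    HasDerivAt (fun y => pw y t) ((2 + t * I) * kp1 t x) x := by
  rcases lt_trichotomy x 0 with h | h | h
  · have h0 : kp1 t x = 0 := by simp [kp1, not_lt.mpr h.le]
    rw [h0, mul_zero]
    refine (hasDerivAt_const x (0 : ℂ)).congr_of_eventuallyEq ?_
    filter_upwards [Iio_mem_nhds h] with y hy
    simp [pw, le_of_lt (show y < 0 from hy)]
  · subst h
    have h0 : kp1 t 0 = 0 := by simp [kp1]
    have h00 : pw 0 t = 0 := by simp [pw]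
    rw [h0, mul_zero, hasDerivAt_iff_isLittleO_nhds_zero]
    simp only [h00, smul_zero, sub_zero, zero_add]
    rw [Asymptotics.isLittleO_iff]
    intro c hc
    filter_upwards [Metric.ball_mem_nhds (0 : ℝ) hc] with y hy
    have hy' : |y| < c := by simpa using hy
    calc ‖pw y t‖ ≤ y ^ 2 := kp_norm2 t y
      _ = |y| * |y| := by rw [← sq, sq_abs]
      _ ≤ c * |y| := mul_le_mul_of_nonneg_right hy'.le (abs_nonneg y)
      _ = c * ‖y‖ := by rw [Real.norm_eq_abs]
  · have hx : x ≠ 0 := h.ne'
    have hd : HasDerivAt (fun y : ℝ => cexp ((2 + t * I) * (Real.log y : ℂ)))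
        (cexp ((2 + t * I) * (Real.log x : ℂ)) * ((2 + t * I) * ((x⁻¹ : ℝ) : ℂ))) x := by
      refine HasDerivAt.cexp ?_
      exact ((Real.hasDerivAt_log hx).ofReal_comp).const_mul _
    have he : cexp ((2 + t * I) * (Real.log x : ℂ)) * ((2 + t * I) * ((x⁻¹ : ℝ) : ℂ)) =
        (2 + t * I) * kp1 t x := by
      rw [kp_exp2 t x h]
      have h1 : (x : ℂ) ≠ 0 := by exact_mod_cast hx
      simp only [kp1, h, if_true]
      push_cast
      field_simp
    rw [← he]
    refine hd.congr_of_eventuallyEq ?_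
    filter_upwards [Ioi_mem_nhds h] with y hy
    simp [pw, not_le.mpr (show (0 : ℝ) < y from hy)]

private lemma kp_meas0 (t : ℝ) : Measurable (kp0 t) := by
  unfold kp0
  refine Measurable.ite measurableSet_Ioi ?_ measurable_const
  fun_prop

private lemma kp_ne1 (t : ℝ) : (1 + (t : ℂ) * I) ≠ 0 := by
  intro h
  have := congrArg Complex.re h
  simp at this

private lemma kp_ne2 (t : ℝ) : (2 + (t : ℂ) * I) ≠ 0 := by
  intro h
  have := congrArg Complex.re h
  simp at this

open MeasureTheory in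
private lemma kp_int2 (t a b : ℝ) :
    ∫ x in a..b, kp1 t x = (pw b t - pw a t) / (2 + t * I) := by
  have h := intervalIntegral.integral_eq_sub_of_hasDerivAt
    (f := fun y => pw y t) (f' := fun x => (2 + t * I) * kp1 t x) (a := a) (b := b)
    (fun x _ => kp_deriv2 t x)
    ((continuous_const.mul (kp_cont1 t)).intervalIntegrable a b)
  rw [intervalIntegral.integral_const_mul] at h
  rw [← h, mul_div_cancel_left₀ _ (kp_ne2 t)]

open MeasureTheory in
theorem kap_rep {D : ℕ} (hD : 1 ≤ D) (v : ℤ) (t : ℝ) :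
    kap D v t = ∫ w in Set.Ioo (-(D : ℝ)) D, ((GD D w : ℝ) : ℂ) *
      (if w < v then cexp (I * ((t * Real.log (v - w) : ℝ) : ℂ)) else 0) := by
  have hD0 : (0 : ℝ) < D := by exact_mod_cast hD
  have hDc : (D : ℂ) ≠ 0 := by exact_mod_cast hD0.ne'
  have h1 := kp_ne1 t
  have h2 := kp_ne2 t
  -- the integrand
  have hint : ∀ w : ℝ, ((GD D w : ℝ) : ℂ) *
      (if w < v then cexp (I * ((t * Real.log (v - w) : ℝ) : ℂ)) else 0) =
      ((GD D w : ℝ) : ℂ) * kp0 t (v - w) := by
    intro w
    simp only [kp0, sub_pos]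
  simp_rw [hint]
  have hbd : ∀ a b : ℝ, IntervalIntegrable (fun w : ℝ => ((GD D w : ℝ) : ℂ) * kp0 t (v - w))
      volume a b := by
    intro a b
    rw [intervalIntegrable_iff]
    refine Measure.integrableOn_of_bounded (M := 1 / D) (by simp) ?_ ?_
    · refine Measurable.aestronglyMeasurable ?_
      have := (continuous_GD D).measurable
      have h0 := kp_meas0 t
      fun_prop
    · refine Filter.Eventually.of_forall fun w => ?_
      rw [norm_mul, Complex.norm_real, Real.norm_of_nonneg (GD_nonneg D w)]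
      calc GD D w * ‖kp0 t (v - w)‖ ≤ 1 / D * 1 :=
            mul_le_mul (GD_le D w) (kp_norm0 t _) (norm_nonneg _) (by positivity)
        _ = 1 / D := mul_one _
  rw [← MeasureTheory.integral_Ioc_eq_integral_Ioo,
    ← intervalIntegral.integral_of_le (by linarith : -(D : ℝ) ≤ D),
    ← intervalIntegral.integral_add_adjacent_intervals (hbd (-(D : ℝ)) 0) (hbd 0 D)]
  -- derivative facts along `w ↦ v - w`
  have hd1 : ∀ w : ℝ, w ≠ v → HasDerivAt (fun w : ℝ => kp1 t (v - w))
      (-((1 + t * I) * kp0 t (v - w))) w := by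
    intro w hw
    have h := (kp_deriv1 t (x := v - w) (sub_ne_zero.mpr (Ne.symm hw))).scomp w
      ((hasDerivAt_id w).const_sub (v : ℝ))
    simpa [Function.comp_def] using h
  have hd2 : ∀ w : ℝ, HasDerivAt (fun w : ℝ => pw (v - w) t)
      (-((2 + t * I) * kp1 t (v - w))) w := by
    intro w
    have h := (kp_deriv2 t (v - w)).scomp w ((hasDerivAt_id w).const_sub (v : ℝ))
    simpa [Function.comp_def] using h
  have hc1 : Continuous fun w : ℝ => kp1 t (v - w) :=
    (kp_cont1 t).comp (continuous_const.sub continuous_id)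
  have hc2 : Continuous fun w : ℝ => pw (v - w) t :=
    continuous_iff_continuousAt.mpr fun w => (hd2 w).continuousAt
  -- left half
  have hleft : ∫ w in (-(D : ℝ))..0, ((GD D w : ℝ) : ℂ) * kp0 t (v - w) =
      (pw (v + D) t - pw v t) / ((D : ℂ) ^ 2 * ((1 + t * I) * (2 + t * I))) -
        kp1 t v / ((D : ℂ) * (1 + t * I)) := by
    have h := MeasureTheory.integral_eq_of_hasDerivAt_off_countable
      (f := fun w : ℝ => (((D : ℂ) + w) * (-(kp1 t (v - w)) / (1 + t * I)) -
        pw (v - w) t / ((1 + t * I) * (2 + t * I))) / (D : ℂ) ^ 2)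
      (f' := fun w : ℝ => ((GD D w : ℝ) : ℂ) * kp0 t (v - w)) (a := -(D : ℝ)) (b := 0)
      (s := {w | w = (v : ℝ) ∨ w = 0}) ?_ ?_ ?_ (hbd _ _)
    · rw [h]
      have e1 : (v : ℝ) - -(D : ℝ) = v + D := by ring
      simp only [sub_zero, e1]
      push_cast
      field_simp
      ring
    · exact ((Set.countable_singleton (v : ℝ)).union (Set.countable_singleton (0 : ℝ)))
    · refine Continuous.continuousOn ?_
      have := Complex.continuous_ofReal
      fun_prop
    · intro w hw
      have hw1 : w ≠ v := fun h => hw.2 (Or.inl h)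
      have hw0 : w < 0 := by
        have := hw.1.2
        rw [max_eq_right (by linarith : -(D : ℝ) ≤ 0)] at this
        exact this
      have hwD : -(D : ℝ) < w := by
        have := hw.1.1
        rw [min_eq_left (by linarith : -(D : ℝ) ≤ 0)] at this
        exact this
      have hG : GD D w = (D + w) / D ^ 2 := by
        unfold GD tri
        rw [abs_of_neg hw0, max_eq_right]
        · field_simp
          ring
        · rw [sub_nonneg, div_le_one hD0]; linarith
      have hA : HasDerivAt (fun w : ℝ => (D : ℂ) + w) 1 w := by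
        simpa using ((hasDerivAt_id w).ofReal_comp).const_add (D : ℂ)
      have hB := ((hd1 w hw1).neg).div_const (1 + (t : ℂ) * I)
      have hC := (hd2 w).div_const ((1 + (t : ℂ) * I) * (2 + t * I))
      have hE := ((hA.mul hB).sub hC).div_const ((D : ℂ) ^ 2)
      refine HasDerivAt.congr_deriv hE ?_
      rw [hG]
      simp only [Pi.neg_apply]
      push_cast
      field_simp
      ring
  have hright : ∫ w in (0 : ℝ)..D, ((GD D w : ℝ) : ℂ) * kp0 t (v - w) =
      (pw (v - D) t - pw v t) / ((D : ℂ) ^ 2 * ((1 + t * I) * (2 + t * I))) +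
        kp1 t v / ((D : ℂ) * (1 + t * I)) := by
    have h := MeasureTheory.integral_eq_of_hasDerivAt_off_countable
      (f := fun w : ℝ => (((D : ℂ) - w) * (-(kp1 t (v - w)) / (1 + t * I)) +
        pw (v - w) t / ((1 + t * I) * (2 + t * I))) / (D : ℂ) ^ 2)
      (f' := fun w : ℝ => ((GD D w : ℝ) : ℂ) * kp0 t (v - w)) (a := 0) (b := (D : ℝ))
      (s := {w | w = (v : ℝ) ∨ w = 0}) ?_ ?_ ?_ (hbd _ _)
    · rw [h]
      simp only [sub_zero]
      push_cast
      field_simp
      ring
    · exact ((Set.countable_singleton (v : ℝ)).union (Set.countable_singleton (0 : ℝ)))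
    · refine Continuous.continuousOn ?_
      have := Complex.continuous_ofReal
      fun_prop
    · intro w hw
      have hw1 : w ≠ v := fun h => hw.2 (Or.inl h)
      have hw0 : 0 < w := by
        have := hw.1.1
        rw [min_eq_left hD0.le] at this
        exact this
      have hwD : w < D := by
        have := hw.1.2
        rw [max_eq_right hD0.le] at this
        exact this
      have hG : GD D w = (D - w) / D ^ 2 := by
        unfold GD tri
        rw [abs_of_pos hw0, max_eq_right]
        · field_simp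
        · rw [sub_nonneg, div_le_one hD0]; linarith
      have hA : HasDerivAt (fun w : ℝ => (D : ℂ) - w) (-1) w := by
        simpa using ((hasDerivAt_id w).ofReal_comp).const_sub (D : ℂ)
      have hB := ((hd1 w hw1).neg).div_const (1 + (t : ℂ) * I)
      have hC := (hd2 w).div_const ((1 + (t : ℂ) * I) * (2 + t * I))
      have hE := ((hA.mul hB).add hC).div_const ((D : ℂ) ^ 2)
      refine HasDerivAt.congr_deriv hE ?_
      rw [hG]
      simp only [Pi.neg_apply]
      push_cast
      field_simp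
      ring
  rw [hleft, hright]
  unfold kap
  ring

theorem norm_kap_le {D : ℕ} (hD : 1 ≤ D) (v : ℤ) (t : ℝ) : ‖kap D v t‖ ≤ 1 := by
  have hcs : HasCompactSupport (GD D) := by
    refine HasCompactSupport.intro (isCompact_Icc (a := -(D : ℝ)) (b := D)) fun x hx => ?_
    refine GD_eq_zero hD ?_
    by_contra hlt
    rw [not_le, abs_lt] at hlt
    exact hx ⟨hlt.1.le, hlt.2.le⟩
  have hG : MeasureTheory.Integrable (GD D) :=
    (continuous_GD D).integrable_of_hasCompactSupport hcs
  rw [kap_rep hD]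
  calc _ ≤ ∫ w in Set.Ioo (-(D : ℝ)) D, GD D w := by
        refine MeasureTheory.norm_integral_le_of_norm_le hG.integrableOn ?_
        refine Filter.Eventually.of_forall fun w => ?_
        have h0 := kp_norm0 t (v - w)
        simp only [kp0, sub_pos] at h0
        rw [norm_mul, Complex.norm_real, Real.norm_of_nonneg (GD_nonneg D w)]
        exact mul_le_of_le_one_right (GD_nonneg D w) h0
    _ ≤ ∫ w, GD D w :=
        MeasureTheory.setIntegral_le_integral hG
          (Filter.Eventually.of_forall fun w => GD_nonneg D w)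
    _ = 1 := integral_GD hD

theorem norm_kap_le' {D : ℕ} (hD : 1 ≤ D) {v : ℤ} (hv : 0 ≤ v + D) {t : ℝ} (ht : t ≠ 0) :
    ‖kap D v t‖ ≤ 4 * ((v : ℝ) + D) ^ 2 / (D ^ 2 * t ^ 2) := by
  have hD0 : (0 : ℝ) < D := by exact_mod_cast hD
  have hv' : (0 : ℝ) ≤ (v : ℝ) + D := by exact_mod_cast hv
  have hpos : ∀ x : ℝ, x ≤ v + D → ‖pw x t‖ ≤ ((v : ℝ) + D) ^ 2 := by
    intro x hx
    by_cases h : x ≤ 0
    · simp only [pw, h, if_true, norm_zero]; positivity
    · exact (kp_norm2 t x).trans (by
        have : 0 < x := not_le.mp h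
        nlinarith)
  have hnum : ‖pw ((v : ℝ) + D) t - 2 * pw (v : ℝ) t + pw ((v : ℝ) - D) t‖ ≤
      4 * ((v : ℝ) + D) ^ 2 := by
    have e1 := hpos ((v : ℝ) + D) le_rfl
    have e2 := hpos (v : ℝ) (by linarith)
    have e3 := hpos ((v : ℝ) - D) (by linarith)
    calc _ ≤ ‖pw ((v : ℝ) + D) t‖ + ‖2 * pw (v : ℝ) t‖ + ‖pw ((v : ℝ) - D) t‖ :=
          (norm_add_le _ _).trans (add_le_add (norm_sub_le _ _) le_rfl)
      _ ≤ 4 * ((v : ℝ) + D) ^ 2 := by
          rw [norm_mul, Complex.norm_ofNat]
          linarith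
  have hn1 : |t| ≤ ‖1 + (t : ℂ) * I‖ := by
    have := Complex.abs_im_le_norm (1 + (t : ℂ) * I)
    simpa using this
  have hn2 : |t| ≤ ‖2 + (t : ℂ) * I‖ := by
    have := Complex.abs_im_le_norm (2 + (t : ℂ) * I)
    simpa using this
  have ht0 : 0 < |t| := abs_pos.mpr ht
  have hden : (D : ℝ) ^ 2 * t ^ 2 ≤ ‖(D : ℂ) ^ 2 * ((1 + t * I) * (2 + t * I))‖ := by
    rw [norm_mul, norm_pow, Complex.norm_natCast, norm_mul, ← sq_abs t, sq |t|]
    exact mul_le_mul_of_nonneg_left (mul_le_mul hn1 hn2 ht0.le (norm_nonneg _)) (by positivity)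
  unfold kap
  rw [norm_div]
  exact div_le_div₀ (by positivity) hnum (by positivity) hden

theorem kap_zero {D : ℕ} {v : ℤ} (hv : v ≤ -(D : ℤ)) (t : ℝ) : kap D v t = 0 := by
  have h1 : (v : ℝ) ≤ -(D : ℝ) := by exact_mod_cast hv
  have hD : (0 : ℝ) ≤ D := Nat.cast_nonneg D
  have e1 : pw ((v : ℝ) + D) t = 0 := by
    rw [pw, if_pos]; linarith
  have e2 : pw (v : ℝ) t = 0 := by
    rw [pw, if_pos]; linarith
  have e3 : pw ((v : ℝ) - D) t = 0 := by
    rw [pw, if_pos]; linarith
  simp [kap, e1, e2, e3]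

theorem continuous_kap (D : ℕ) (v : ℤ) : Continuous (fun t => kap D v t) := by
  have hp : ∀ x : ℝ, Continuous fun t => pw x t := by
    intro x
    unfold pw
    by_cases h : x ≤ 0
    · simp only [h, if_true]; exact continuous_const
    · simp only [h, if_false]
      have := Complex.continuous_ofReal
      fun_prop
  by_cases hD : D = 0
  · subst hD
    have : (fun t => kap 0 v t) = fun _ => 0 := by
      funext t
      simp [kap]
    rw [this]
    exact continuous_const
  · have hDc : (D : ℂ) ≠ 0 := by exact_mod_cast hD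
    unfold kap
    have h1 := hp ((v : ℝ) + D)
    have h2 := hp (v : ℝ)
    have h3 := hp ((v : ℝ) - D)
    have hof := Complex.continuous_ofReal
    refine Continuous.div (by fun_prop) (by fun_prop) fun t => ?_
    exact mul_ne_zero (pow_ne_zero _ hDc) (mul_ne_zero (kp_ne1 t) (kp_ne2 t))

/-- first-order form -/
theorem kap_rep1 {D : ℕ} (hD : 1 ≤ D) (v : ℤ) (t : ℝ) :
    kap D v t = 1 / ((D : ℂ) ^ 2 * (1 + t * I)) *
      ((∫ x in (v : ℝ)..(v + D), if 0 < x then cexp ((1 + t * I) * (Real.log x : ℂ)) else 0) -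
        ∫ x in ((v : ℝ) - D)..v, if 0 < x then cexp ((1 + t * I) * (Real.log x : ℂ)) else 0) := by
  have hDc : (D : ℂ) ≠ 0 := by exact_mod_cast (by omega : D ≠ 0)
  have h1 := kp_ne1 t
  have h2 := kp_ne2 t
  have e1 := kp_int2 t v (v + D)
  have e2 := kp_int2 t (v - D) v
  simp only [kp1] at e1 e2
  rw [e1, e2]
  unfold kap
  field_simp
  ring

end Pool.Agent.SInt
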