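import Pool.Agent.SInt.KapRep
import Pool.Agent.Lib.ANT.Perron

open Finset Complex
open scoped ArithmeticFunction.Moebius ArithmeticFunction.vonMangoldt

namespace Pool.Agent.SInt

open Pool.Agent.ANT

private lemma MelInv_riesz (t : ℝ) :
    rieszM (((1 : ℝ) : ℂ) + t * I) = 1 / ((1 + t * I) * (2 + t * I)) := by
  have h := vert_ne (le_refl (1 : ℝ)) t
  unfold rieszM
  rw [ofReal_one] at h ⊢
  have h1 : (1 : ℂ) + t * I ≠ 0 := h.1
  have h2 : (2 : ℂ) + t * I ≠ 0 := by
    have := h.2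
    intro h3
    apply this
    linear_combination h3
  have h3 : (1 : ℂ) + t * I + 1 = 2 + t * I := by ring
  rw [h3]
  field_simp
  ring

/-- the kernel `x_+^{2+it} / ((1+it)(2+it))` -/
private noncomputable def MelInv_q (x t : ℝ) : ℂ := pw x t * rieszM (((1 : ℝ) : ℂ) + t * I)

private lemma MelInv_pw_cont (x : ℝ) : Continuous (fun t : ℝ => pw x t) := by
  unfold pw
  by_cases hx : x ≤ 0
  · simp only [hx, if_true]
    exact continuous_const
  · simp only [hx, if_false]
    fun_prop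

private lemma MelInv_pw_norm {x : ℝ} (t : ℝ) : ‖pw x t‖ ≤ x ^ 2 := by
  unfold pw
  split_ifs with hx
  · rw [norm_zero]; positivity
  · rw [Complex.norm_exp]
    have hx' : 0 < x := not_le.mp hx
    have : ((2 + t * I) * (Real.log x : ℂ)).re = 2 * Real.log x := by
      simp
    rw [this, two_mul, Real.exp_add, Real.exp_log hx']
    exact le_of_eq (by ring)

open MeasureTheory in
private lemma MelInv_q_int (x : ℝ) : Integrable (fun t : ℝ => MelInv_q x t) := by
  unfold MelInv_q
  apply Integrable.bdd_mul (c := x ^ 2) (integrable_rieszM (le_refl (1 : ℝ)))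
  · exact (MelInv_pw_cont x).aestronglyMeasurable
  · exact Filter.Eventually.of_forall fun t => MelInv_pw_norm t

private lemma MelInv_kap (D : ℕ) (v : ℤ) (t : ℝ) :
    kap D v t = ((D : ℂ) ^ 2)⁻¹ * (MelInv_q ((v : ℝ) + D) t - 2 * MelInv_q (v : ℝ) t +
      MelInv_q ((v : ℝ) - D) t) := by
  unfold kap MelInv_q
  rw [MelInv_riesz, div_eq_mul_inv, mul_inv, one_div]
  ring

open MeasureTheory in
theorem kap_integrable {D : ℕ} (hD : 1 ≤ D) (v : ℤ) : Integrable (fun t : ℝ => kap D v t) := by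
  have h : (fun t : ℝ => kap D v t) = fun t : ℝ => ((D : ℂ) ^ 2)⁻¹ *
      (MelInv_q ((v : ℝ) + D) t - 2 * MelInv_q (v : ℝ) t + MelInv_q ((v : ℝ) - D) t) := by
    funext t
    exact MelInv_kap D v t
  rw [h]
  exact (((MelInv_q_int _).sub ((MelInv_q_int _).const_mul 2)).add (MelInv_q_int _)).const_mul _

theorem continuous_Fh (h : ℕ → ℂ) (Z : ℕ) : Continuous (Fh h Z) := by
  unfold Fh
  fun_prop

private lemma MelInv_exp_norm {n : ℕ} (hn : 1 ≤ n) (t : ℝ) :
    ‖cexp (-((1 + t * I) * (Real.log n : ℂ)))‖ = 1 / n := by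
  have hn' : (0 : ℝ) < n := by exact_mod_cast hn
  rw [Complex.norm_exp]
  have : (-((1 + t * I) * (Real.log n : ℂ))).re = -Real.log n := by
    rw [Complex.neg_re, Complex.re_mul_ofReal]
    simp
  rw [this, Real.exp_neg, Real.exp_log hn', one_div]

theorem norm_Fh_le (h : ℕ → ℂ) (Z : ℕ) (t : ℝ) : ‖Fh h Z t‖ ≤ ∑ n ∈ Icc 1 Z, ‖h n‖ / n := by
  unfold Fh
  refine (norm_sum_le _ _).trans (Finset.sum_le_sum fun n hn => ?_)
  rw [norm_mul, MelInv_exp_norm (Finset.mem_Icc.mp hn).1, mul_one_div]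

/-- the basic inversion -/
private lemma MelInv_basic {n : ℕ} (hn : 1 ≤ n) (x : ℝ) :
    (1 / (2 * Real.pi) : ℂ) * ∫ t : ℝ, cexp (-((1 + t * I) * (Real.log n : ℂ))) * MelInv_q x t =
      ((max (x - n) 0 : ℝ) : ℂ) := by
  have hn' : (0 : ℝ) < n := by exact_mod_cast hn
  by_cases hx : x ≤ 0
  · have h1 : ∀ t : ℝ, MelInv_q x t = 0 := by
      intro t
      unfold MelInv_q pw
      rw [if_pos hx, zero_mul]
    simp only [h1, mul_zero, MeasureTheory.integral_zero]
    rw [max_eq_right (by linarith)]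
    simp
  · have hx' : 0 < x := not_le.mp hx
    have hy : 0 < (n : ℝ) / x := div_pos hn' hx'
    have h := riesz_inversion (le_refl (1 : ℝ)) hy
    have e1 : ∀ t : ℝ, cexp (-((1 + t * I) * (Real.log n : ℂ))) * MelInv_q x t =
        (x : ℂ) * ((((n : ℝ) / x : ℝ) : ℂ) ^ (-(((1 : ℝ) : ℂ) + t * I)) *
          rieszM (((1 : ℝ) : ℂ) + t * I)) := by
      intro t
      unfold MelInv_q pw
      rw [if_neg hx, cpow_def_of_ne_zero (by exact_mod_cast hy.ne'), ← Complex.ofReal_log hy.le,
        Real.log_div hn'.ne' hx'.ne']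
      have e2 : (x : ℂ) = cexp (Real.log x : ℂ) := by
        rw [← Complex.ofReal_exp, Real.exp_log hx']
      rw [← mul_assoc, ← mul_assoc, ← Complex.exp_add]
      congr 1
      conv_rhs => rw [e2]
      rw [← Complex.exp_add]
      congr 1
      push_cast
      ring
    simp only [e1]
    rw [MeasureTheory.integral_const_mul]
    rw [Complex.real_smul] at h
    have h2 : ((max (x - n) 0 : ℝ) : ℂ) = (x : ℂ) * ((max (1 - (n : ℝ) / x) 0 : ℝ) : ℂ) := by
      rw [← Complex.ofReal_mul]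
      congr 1
      rw [mul_max_of_nonneg _ _ hx'.le, mul_zero]
      congr 1
      field_simp
    rw [h2, ← h]
    push_cast
    ring

private lemma MelInv_GD {D : ℕ} (hD : 1 ≤ D) (x : ℝ) :
    GD D x = ((D : ℝ) ^ 2)⁻¹ * (max (x + D) 0 - 2 * max x 0 + max (x - D) 0) := by
  have hD' : (0 : ℝ) < D := by exact_mod_cast hD
  unfold GD tri
  have key : max 0 (1 - |x| / D) * D = max (x + D) 0 - 2 * max x 0 + max (x - D) 0 := by
    rw [max_mul_of_nonneg _ _ hD'.le, zero_mul, sub_mul, one_mul, div_mul_cancel₀ _ hD'.ne']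
    rcases le_total x 0 with h | h
    · rw [abs_of_nonpos h, max_eq_right h, max_eq_right (show x - D ≤ 0 by linarith), max_comm]
      rw [show (D : ℝ) - -x = x + D by ring]
      ring
    · rw [abs_of_nonneg h, max_eq_left h, max_eq_left (show 0 ≤ x + D by linarith)]
      rcases le_total x D with h2 | h2
      · rw [max_eq_right (show 0 ≤ (D : ℝ) - x by linarith), max_eq_right (show x - D ≤ 0 by linarith)]
        ring
      · rw [max_eq_left (show (D : ℝ) - x ≤ 0 by linarith), max_eq_left (show 0 ≤ x - D by linarith)]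
        ring
  rw [← key]
  field_simp

/-- Mellin inversion for local averages. -/
theorem mel_inv {D : ℕ} (hD : 1 ≤ D) (h : ℕ → ℂ) (Z : ℕ) (v : ℤ) :
    LAh h Z D v = (1 / (2 * Real.pi) : ℂ) * ∫ t : ℝ, Fh h Z t * kap D v t := by
  -- one term
  have hint : ∀ n ∈ Icc 1 Z, ∀ x : ℝ, MeasureTheory.Integrable
      (fun t : ℝ => cexp (-((1 + t * I) * (Real.log n : ℂ))) * MelInv_q x t) := by
    intro n hn x
    apply MeasureTheory.Integrable.bdd_mul (c := 1 / n) (MelInv_q_int x)
    · apply Continuous.aestronglyMeasurable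
      fun_prop
    · exact Filter.Eventually.of_forall fun t => (MelInv_exp_norm (Finset.mem_Icc.mp hn).1 t).le
  have hterm : ∀ n ∈ Icc 1 Z, MeasureTheory.Integrable (fun t : ℝ =>
      h n * cexp (-((1 + t * I) * (Real.log n : ℂ))) * kap D v t) := by
    intro n hn
    have e : (fun t : ℝ => h n * cexp (-((1 + t * I) * (Real.log n : ℂ))) * kap D v t) =
        fun t : ℝ => (h n * ((D : ℂ) ^ 2)⁻¹) *
          ((cexp (-((1 + t * I) * (Real.log n : ℂ))) * MelInv_q ((v : ℝ) + D) t) -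
            2 * (cexp (-((1 + t * I) * (Real.log n : ℂ))) * MelInv_q (v : ℝ) t) +
            (cexp (-((1 + t * I) * (Real.log n : ℂ))) * MelInv_q ((v : ℝ) - D) t)) := by
      funext t
      rw [MelInv_kap]
      ring
    rw [e]
    exact (((hint n hn _).sub ((hint n hn _).const_mul 2)).add (hint n hn _)).const_mul _
  have hval : ∀ n ∈ Icc 1 Z, (1 / (2 * Real.pi) : ℂ) *
      ∫ t : ℝ, h n * cexp (-((1 + t * I) * (Real.log n : ℂ))) * kap D v t =
      h n * ((GD D ((v : ℝ) - n) : ℝ) : ℂ) := by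
    intro n hn
    have hn1 := (Finset.mem_Icc.mp hn).1
    have e : (fun t : ℝ => h n * cexp (-((1 + t * I) * (Real.log n : ℂ))) * kap D v t) =
        fun t : ℝ => (h n * ((D : ℂ) ^ 2)⁻¹) *
          ((cexp (-((1 + t * I) * (Real.log n : ℂ))) * MelInv_q ((v : ℝ) + D) t) -
            2 * (cexp (-((1 + t * I) * (Real.log n : ℂ))) * MelInv_q (v : ℝ) t) +
            (cexp (-((1 + t * I) * (Real.log n : ℂ))) * MelInv_q ((v : ℝ) - D) t)) := by
      funext t
      rw [MelInv_kap]
      ring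
    have i1 := hint n hn ((v : ℝ) + D)
    have i2 := (hint n hn (v : ℝ)).const_mul 2
    have i3 := hint n hn ((v : ℝ) - D)
    have e3 : (∫ t : ℝ, ((cexp (-((1 + t * I) * (Real.log n : ℂ))) * MelInv_q ((v : ℝ) + D) t) -
            2 * (cexp (-((1 + t * I) * (Real.log n : ℂ))) * MelInv_q (v : ℝ) t) +
            (cexp (-((1 + t * I) * (Real.log n : ℂ))) * MelInv_q ((v : ℝ) - D) t))) =
        (∫ t : ℝ, cexp (-((1 + t * I) * (Real.log n : ℂ))) * MelInv_q ((v : ℝ) + D) t) -
          2 * (∫ t : ℝ, cexp (-((1 + t * I) * (Real.log n : ℂ))) * MelInv_q (v : ℝ) t) +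
          ∫ t : ℝ, cexp (-((1 + t * I) * (Real.log n : ℂ))) * MelInv_q ((v : ℝ) - D) t := by
      rw [← MeasureTheory.integral_const_mul, ← MeasureTheory.integral_sub i1 i2]
      exact MeasureTheory.integral_add (i1.sub i2) i3
    rw [e, MeasureTheory.integral_const_mul, e3, MelInv_GD hD]
    have b1 := MelInv_basic hn1 ((v : ℝ) + D)
    have b2 := MelInv_basic hn1 (v : ℝ)
    have b3 := MelInv_basic hn1 ((v : ℝ) - D)
    have c1 : (v : ℝ) - n + D = (v : ℝ) + D - n := by ring
    have c3 : (v : ℝ) - n - D = (v : ℝ) - D - n := by ring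
    rw [c1, c3]
    rw [Complex.ofReal_mul, Complex.ofReal_add, Complex.ofReal_sub, Complex.ofReal_mul,
      ← b1, ← b2, ← b3]
    push_cast
    ring
  unfold LAh
  rw [Finset.sum_congr rfl fun n hn => (hval n hn).symm, ← Finset.mul_sum,
    ← MeasureTheory.integral_finsetSum _ hterm]
  congr 1
  apply MeasureTheory.integral_congr_ae
  refine Filter.Eventually.of_forall fun t => ?_
  simp only
  rw [← Finset.sum_mul]
  rfl

end Pool.Agent.SInt
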