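import Pool.Agent.SInt.Defs

open Finset Complex
open scoped ArithmeticFunction.Moebius ArithmeticFunction.vonMangoldt

namespace Pool.Agent.SInt

open Pool.Agent.ANT

private theorem TauP_Icc (N : ℕ) : Icc 1 N = Ioc 0 N := by
  ext n
  simp only [mem_Icc, mem_Ioc]
  omega

private theorem TauP_sum (k : ℕ) : ∀ N : ℕ, ∑ n ∈ Ioc 0 N, tauR n ^ k / n ≤ Hs N ^ (2 ^ k) := by
  induction k with
  | zero =>
    intro N
    simp [Hs]
  | succ k ih =>
    intro N
    have h1 := sum_tau_mul (fun n => tauR n ^ k / (n : ℝ)) N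
    have h2 : ∑ n ∈ Ioc 0 N, tauR n ^ (k + 1) / n =
        ∑ n ∈ Ioc 0 N, tauR n * (tauR n ^ k / (n : ℝ)) :=
      Finset.sum_congr rfl fun n _ => by ring
    rw [h2, h1]
    calc ∑ m ∈ Ioc 0 N, ∑ n ∈ Ioc 0 (N / m), tauR (m * n) ^ k / ((m * n : ℕ) : ℝ)
        ≤ ∑ m ∈ Ioc 0 N, (tauR m ^ k / m) * Hs N ^ (2 ^ k) := by
          refine Finset.sum_le_sum fun m _ => ?_
          calc ∑ n ∈ Ioc 0 (N / m), tauR (m * n) ^ k / ((m * n : ℕ) : ℝ)
              ≤ ∑ n ∈ Ioc 0 (N / m), (tauR m ^ k / m) * (tauR n ^ k / n) := by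
                refine Finset.sum_le_sum fun n _ => ?_
                rw [div_mul_div_comm, ← mul_pow]
                push_cast
                exact div_le_div_of_nonneg_right
                  (pow_le_pow_left₀ (tauR_nonneg _) (tauR_mul_le m n) k) (by positivity)
            _ = (tauR m ^ k / m) * ∑ n ∈ Ioc 0 (N / m), tauR n ^ k / n := by rw [Finset.mul_sum]
            _ ≤ (tauR m ^ k / m) * Hs N ^ (2 ^ k) := by
                refine mul_le_mul_of_nonneg_left ((ih _).trans ?_)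
                  (div_nonneg (pow_nonneg (tauR_nonneg _) _) (Nat.cast_nonneg _))
                exact pow_le_pow_left₀ (Hs_nonneg _) (Hs_mono (Nat.div_le_self _ _)) _
      _ = (∑ m ∈ Ioc 0 N, (tauR m ^ k / m)) * Hs N ^ (2 ^ k) := by rw [Finset.sum_mul]
      _ ≤ Hs N ^ (2 ^ k) * Hs N ^ (2 ^ k) :=
          mul_le_mul_of_nonneg_right (ih N) (pow_nonneg (Hs_nonneg _) _)
      _ = Hs N ^ (2 ^ (k + 1)) := by rw [← pow_add]; congr 1; ring

theorem sum_tau_pow_div_le (k N : ℕ) : ∑ n ∈ Icc 1 N, tauR n ^ k / n ≤ Hs N ^ (2 ^ k) := by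
  rw [TauP_Icc]
  exact TauP_sum k N

/-- Powers of a sequence supported on `[ℓ, 2ℓ)`, as an arithmetic function. -/
noncomputable def afun (a : ℕ → ℂ) : ArithmeticFunction ℂ := ⟨fun n => if n = 0 then 0 else a n, by simp⟩

private theorem TauP_apply (a : ℕ → ℂ) {n : ℕ} (hn : n ≠ 0) : afun a n = a n := by
  unfold afun
  simp [hn]

private theorem TauP_mono {x n : ℕ} (hn : n ≠ 0) (h : x ∣ n) : tauR x ≤ tauR n := by
  unfold tauR
  exact_mod_cast Finset.card_le_card (Nat.divisors_subset_of_dvd hn h)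

theorem norm_afun_pow_le {a : ℕ → ℂ} {B : ℝ} (hB : 0 ≤ B) (ha : ∀ n, ‖a n‖ ≤ B) (k n : ℕ) (hk : 1 ≤ k) :
    ‖(afun a ^ k) n‖ ≤ B ^ k * tauR n ^ k := by
  induction k, hk using Nat.le_induction generalizing n with
  | base =>
    rw [pow_one, pow_one, pow_one]
    rcases eq_or_ne n 0 with rfl | hn
    · simp only [ArithmeticFunction.map_zero, norm_zero]
      exact mul_nonneg hB (tauR_nonneg _)
    · rw [TauP_apply a hn]
      calc ‖a n‖ ≤ B * 1 := by rw [mul_one]; exact ha n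
        _ ≤ B * tauR n := mul_le_mul_of_nonneg_left (one_le_tauR hn) hB
  | succ k hk ih =>
    rcases eq_or_ne n 0 with rfl | hn
    · simp only [ArithmeticFunction.map_zero, norm_zero]
      exact mul_nonneg (pow_nonneg hB _) (pow_nonneg (tauR_nonneg _) _)
    rw [pow_succ, ArithmeticFunction.mul_apply]
    calc ‖∑ p ∈ n.divisorsAntidiagonal, (afun a ^ k) p.1 * afun a p.2‖
        ≤ ∑ p ∈ n.divisorsAntidiagonal, ‖(afun a ^ k) p.1 * afun a p.2‖ := norm_sum_le _ _
      _ ≤ ∑ _p ∈ n.divisorsAntidiagonal, (B ^ (k + 1) * tauR n ^ k) * 1 := by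
          refine Finset.sum_le_sum fun p hp => ?_
          obtain ⟨h1, -⟩ := Nat.mem_divisorsAntidiagonal.1 hp
          have hx : p.1 ∣ n := ⟨p.2, h1.symm⟩
          have hy0 : p.2 ≠ 0 := by
            rintro h0
            rw [h0, mul_zero] at h1
            exact hn h1.symm
          rw [norm_mul, mul_one, TauP_apply a hy0]
          calc ‖(afun a ^ k) p.1‖ * ‖a p.2‖ ≤ (B ^ k * tauR p.1 ^ k) * B :=
                mul_le_mul (ih p.1) (ha _) (norm_nonneg _)
                  (mul_nonneg (pow_nonneg hB _) (pow_nonneg (tauR_nonneg _) _))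
            _ ≤ (B ^ k * tauR n ^ k) * B := by
                refine mul_le_mul_of_nonneg_right (mul_le_mul_of_nonneg_left ?_ (pow_nonneg hB _)) hB
                exact pow_le_pow_left₀ (tauR_nonneg _) (TauP_mono hn hx) _
            _ = B ^ (k + 1) * tauR n ^ k := by ring
      _ = B ^ (k + 1) * tauR n ^ (k + 1) := by
          rw [← Finset.mul_sum, ← tauR_eq_sum]
          ring

theorem afun_pow_zero {a : ℕ → ℂ} {ℓ : ℕ} (ha : ∀ n, n ∉ Ico ℓ (2 * ℓ) → a n = 0) (k n : ℕ)
    (hn : n < ℓ ^ k ∨ (2 * ℓ) ^ k < n) : (afun a ^ k) n = 0 := by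
  induction k generalizing n with
  | zero =>
    rw [pow_zero, ArithmeticFunction.one_apply, if_neg]
    rintro rfl
    simp at hn
  | succ k ih =>
    rw [pow_succ, ArithmeticFunction.mul_apply]
    refine Finset.sum_eq_zero fun p hp => ?_
    obtain ⟨h1, h2⟩ := Nat.mem_divisorsAntidiagonal.1 hp
    by_contra hc
    have hx : ¬ (p.1 < ℓ ^ k ∨ (2 * ℓ) ^ k < p.1) := fun h => hc (by rw [ih _ h, zero_mul])
    have hy0 : p.2 ≠ 0 := by
      rintro h0
      rw [h0, mul_zero] at h1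
      exact h2 h1.symm
    have hy : p.2 ∈ Ico ℓ (2 * ℓ) := by
      by_contra h
      exact hc (by rw [TauP_apply a hy0, ha _ h, mul_zero])
    rw [not_or, not_lt, not_lt] at hx
    rw [mem_Ico] at hy
    have h3 : ℓ ^ (k + 1) ≤ n := by
      rw [← h1, pow_succ]
      exact Nat.mul_le_mul hx.1 hy.1
    have h4 : n ≤ (2 * ℓ) ^ (k + 1) := by
      rw [← h1, pow_succ]
      exact Nat.mul_le_mul hx.2 hy.2.le
    rcases hn with h | h <;> omega

theorem Fh_pow {a : ℕ → ℂ} {ℓ : ℕ} (ha : ∀ n, n ∉ Ico ℓ (2 * ℓ) → a n = 0) (k : ℕ) (t : ℝ) :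
    Fh a (2 * ℓ) t ^ k = Fh (fun n => (afun a ^ k) n) ((2 * ℓ) ^ k) t := by
  induction k with
  | zero =>
    unfold Fh
    simp [ArithmeticFunction.one_apply]
  | succ k ih =>
    rcases Nat.eq_zero_or_pos ℓ with rfl | hl
    · unfold Fh
      simp
    rw [pow_succ, ih]
    unfold Fh
    simp only [TauP_Icc]
    have hR : ∑ n ∈ Ioc 0 ((2 * ℓ) ^ (k + 1)),
        (afun a ^ (k + 1)) n * cexp (-((1 + t * I) * (Real.log n : ℂ))) =
        ∑ n ∈ Ioc 0 ((2 * ℓ) ^ (k + 1)), ∑ p ∈ n.divisorsAntidiagonal,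
          ((afun a ^ k) p.1 * cexp (-((1 + t * I) * (Real.log p.1 : ℂ)))) *
            (a p.2 * cexp (-((1 + t * I) * (Real.log p.2 : ℂ)))) := by
      refine Finset.sum_congr rfl fun n hn => ?_
      rw [pow_succ, ArithmeticFunction.mul_apply, Finset.sum_mul]
      refine Finset.sum_congr rfl fun p hp => ?_
      obtain ⟨h1, h2⟩ := Nat.mem_divisorsAntidiagonal.1 hp
      have hx0 : p.1 ≠ 0 := by
        rintro h0
        rw [h0, zero_mul] at h1
        exact h2 h1.symm
      have hy0 : p.2 ≠ 0 := by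
        rintro h0
        rw [h0, mul_zero] at h1
        exact h2 h1.symm
      have hlog : (Real.log n : ℂ) = (Real.log p.1 : ℂ) + (Real.log p.2 : ℂ) := by
        rw [← h1, Nat.cast_mul, Real.log_mul (by exact_mod_cast hx0) (by exact_mod_cast hy0)]
        push_cast
        ring
      rw [hlog, TauP_apply a hy0]
      have hexp : cexp (-((1 + t * I) * ((Real.log p.1 : ℂ) + (Real.log p.2 : ℂ)))) =
          cexp (-((1 + t * I) * (Real.log p.1 : ℂ))) * cexp (-((1 + t * I) * (Real.log p.2 : ℂ))) := by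
        rw [← Complex.exp_add]
        congr 1
        ring
      rw [hexp]
      ring
    rw [hR, sum_conv (fun n => (afun a ^ k) n * cexp (-((1 + t * I) * (Real.log n : ℂ))))
      (fun n => a n * cexp (-((1 + t * I) * (Real.log n : ℂ)))), Finset.sum_mul]
    have hsub : Ioc 0 ((2 * ℓ) ^ k) ⊆ Ioc 0 ((2 * ℓ) ^ (k + 1)) := by
      intro m hm
      rw [mem_Ioc] at hm ⊢
      refine ⟨hm.1, ?_⟩
      calc m ≤ (2 * ℓ) ^ k * 1 := by rw [mul_one]; exact hm.2
        _ ≤ (2 * ℓ) ^ k * (2 * ℓ) := Nat.mul_le_mul_left _ (by omega)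
        _ = (2 * ℓ) ^ (k + 1) := (pow_succ _ _).symm
    rw [← Finset.sum_subset hsub]
    · refine Finset.sum_congr rfl fun m hm => ?_
      rw [mem_Ioc] at hm
      congr 1
      have hle : 2 * ℓ ≤ (2 * ℓ) ^ (k + 1) / m := by
        rw [Nat.le_div_iff_mul_le hm.1, pow_succ, mul_comm]
        exact Nat.mul_le_mul_right _ hm.2
      refine Finset.sum_subset (Finset.Ioc_subset_Ioc_right hle) fun n _ hn' => ?_
      rw [ha n, zero_mul]
      rw [mem_Ico]
      intro h
      apply hn'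
      rw [mem_Ioc]
      omega
    · intro m hm hm'
      rw [mem_Ioc] at hm hm'
      have h1 : (2 * ℓ) ^ k < m := by
        by_contra h
        exact hm' ⟨hm.1, by omega⟩
      change (afun a ^ k) m * _ * _ = 0
      rw [afun_pow_zero ha k m (Or.inr h1), zero_mul, zero_mul]

end Pool.Agent.SInt
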