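import Pool.Agent.SInt.MVT
import Pool.Agent.SInt.TauP

open Finset Complex
open scoped ArithmeticFunction.Moebius ArithmeticFunction.vonMangoldt

namespace Pool.Agent.SInt

open Pool.Agent.ANT

private lemma FhSq_Icc (Z : ℕ) : Icc 1 Z = Ioc 0 Z := by
  ext n
  simp only [mem_Icc, mem_Ioc]
  omega

private lemma FhSq_exp_mul (t : ℝ) {m n : ℕ} (hm : m ≠ 0) (hn : n ≠ 0) :
    cexp (-((1 + t * I) * (Real.log ((m * n : ℕ) : ℝ) : ℂ))) =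
      cexp (-((1 + t * I) * (Real.log m : ℂ))) * cexp (-((1 + t * I) * (Real.log n : ℂ))) := by
  rw [← Complex.exp_add]
  congr 1
  rw [Nat.cast_mul, Real.log_mul (by exact_mod_cast hm) (by exact_mod_cast hn)]
  push_cast
  ring

private lemma FhSq_B_nonneg {a : ℕ → ℂ} {B : ℝ} (hB : ∀ m, ‖a m‖ ≤ B) : 0 ≤ B :=
  (norm_nonneg _).trans (hB 0)

/-- the support of a product sequence -/
private lemma FhSq_supp {M₁ N₁ : ℕ} {a b : ℕ → ℂ} (ha : ∀ m, m ∉ Ico M₁ (2 * M₁) → a m = 0)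
    (hb : ∀ n, n ∉ Ico N₁ (2 * N₁) → b n = 0) {k : ℕ} (hk : cv a b k ≠ 0) :
    M₁ * N₁ ≤ k ∧ k ≤ 4 * M₁ * N₁ := by
  unfold cv at hk
  obtain ⟨p, hp, hp0⟩ := exists_ne_zero_of_sum_ne_zero hk
  have h1 : a p.1 ≠ 0 := left_ne_zero_of_mul hp0
  have h2 : b p.2 ≠ 0 := right_ne_zero_of_mul hp0
  have h3 : p.1 ∈ Ico M₁ (2 * M₁) := by
    by_contra hc
    exact h1 (ha _ hc)
  have h4 : p.2 ∈ Ico N₁ (2 * N₁) := by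
    by_contra hc
    exact h2 (hb _ hc)
  rw [mem_Ico] at h3 h4
  rw [← (Nat.mem_divisorsAntidiagonal.mp hp).1]
  refine ⟨Nat.mul_le_mul h3.1 h4.1, ?_⟩
  calc p.1 * p.2 ≤ (2 * M₁) * (2 * N₁) := Nat.mul_le_mul h3.2.le h4.2.le
    _ = 4 * M₁ * N₁ := by ring

private lemma FhSq_norm_cv {a b : ℕ → ℂ} {B₁ B₂ : ℝ} (hB1 : ∀ m, ‖a m‖ ≤ B₁) (hB2 : ∀ n, ‖b n‖ ≤ B₂) (k : ℕ) :
    ‖cv a b k‖ ≤ B₁ * B₂ * tauR k := by
  unfold cv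
  rw [tauR_eq_sum, mul_sum]
  refine (norm_sum_le _ _).trans (sum_le_sum fun p _ => ?_)
  rw [norm_mul, mul_one]
  exact mul_le_mul (hB1 _) (hB2 _) (norm_nonneg _) (FhSq_B_nonneg hB1)

private lemma FhSq_sq {a b : ℕ → ℂ} {B₁ B₂ : ℝ} (hB1 : ∀ m, ‖a m‖ ≤ B₁) (hB2 : ∀ n, ‖b n‖ ≤ B₂) (k : ℕ) :
    ‖cv a b k‖ ^ 2 ≤ (B₁ * B₂) ^ 2 * tauR k ^ 2 := by
  rw [← mul_pow]
  exact pow_le_pow_left₀ (norm_nonneg _) (FhSq_norm_cv hB1 hB2 k) 2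

/-- a sum over a dyadic range -/
private lemma FhSq_dyadic {M₁ : ℕ} (hM : 1 ≤ M₁) (f : ℕ → ℝ) (K : ℝ)
    (h0 : ∀ m, m ∉ Ico M₁ (2 * M₁) → f m = 0) (h1 : ∀ m ∈ Ico M₁ (2 * M₁), f m ≤ K) :
    ∑ n ∈ Icc 1 (2 * M₁), f n ≤ M₁ * K := by
  have h2 : ∑ n ∈ Icc 1 (2 * M₁), f n = ∑ n ∈ Ico M₁ (2 * M₁), f n := by
    symm
    refine sum_subset (fun n hn => ?_) (fun n _ hn => h0 n hn)
    rw [mem_Ico] at hn
    rw [mem_Icc]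
    omega
  rw [h2]
  refine (sum_le_sum h1).trans ?_
  rw [sum_const, Nat.card_Ico, nsmul_eq_mul]
  apply le_of_eq
  congr 1
  have : 2 * M₁ - M₁ = M₁ := by omega
  rw [this]

/-- Multiplicativity of `Fh`. -/
theorem Fh_cv {M₁ N₁ Z : ℕ} {a b : ℕ → ℂ} (ha : ∀ m, m ∉ Ico M₁ (2 * M₁) → a m = 0)
    (hb : ∀ n, n ∉ Ico N₁ (2 * N₁) → b n = 0) (hM : 1 ≤ M₁) (hN : 1 ≤ N₁) (hZ : 4 * M₁ * N₁ ≤ Z) (t : ℝ) :
    Fh (cv a b) Z t = Fh a (2 * M₁) t * Fh b (2 * N₁) t := by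
  unfold Fh cv
  rw [FhSq_Icc, FhSq_Icc, FhSq_Icc]
  have h1 : ∑ n ∈ Ioc 0 Z, (∑ p ∈ n.divisorsAntidiagonal, a p.1 * b p.2) *
      cexp (-((1 + t * I) * (Real.log n : ℂ))) =
      ∑ n ∈ Ioc 0 Z, ∑ p ∈ n.divisorsAntidiagonal,
        (a p.1 * cexp (-((1 + t * I) * (Real.log p.1 : ℂ)))) *
        (b p.2 * cexp (-((1 + t * I) * (Real.log p.2 : ℂ)))) := by
    refine sum_congr rfl fun n _ => ?_
    rw [sum_mul]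
    refine sum_congr rfl fun p hp => ?_
    have hp0 := Nat.ne_zero_of_mem_divisorsAntidiagonal hp
    rw [← (Nat.mem_divisorsAntidiagonal.mp hp).1, FhSq_exp_mul t hp0.1 hp0.2]
    ring
  rw [h1, sum_conv (fun m => a m * cexp (-((1 + t * I) * (Real.log m : ℂ))))
    (fun n => b n * cexp (-((1 + t * I) * (Real.log n : ℂ)))), sum_mul]
  have hZ1 : 2 * M₁ ≤ Z := by nlinarith
  symm
  rw [← sum_subset (Ioc_subset_Ioc_right hZ1)]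
  · refine sum_congr rfl fun m hm => ?_
    by_cases hmM : m ∈ Ico M₁ (2 * M₁)
    · congr 1
      rw [mem_Ico] at hmM
      have hm0 : 0 < m := by omega
      have h2 : 2 * N₁ ≤ Z / m := by
        rw [Nat.le_div_iff_mul_le hm0]
        calc 2 * N₁ * m ≤ 2 * N₁ * (2 * M₁) := Nat.mul_le_mul_left _ hmM.2.le
          _ = 4 * M₁ * N₁ := by ring
          _ ≤ Z := hZ
      refine sum_subset (Ioc_subset_Ioc_right h2) fun n _ hn => ?_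
      rw [hb n, zero_mul]
      intro hc
      rw [mem_Ico] at hc
      apply hn
      rw [mem_Ioc]
      omega
    · rw [ha m hmM]
      simp
  · intro m _ hm
    rw [ha m, zero_mul, zero_mul]
    intro hc
    rw [mem_Ico] at hc
    apply hm
    rw [mem_Ioc]
    omega

theorem norm_Fh_dyadic {M₁ : ℕ} {a : ℕ → ℂ} {B : ℝ} (hM : 1 ≤ M₁) (ha : ∀ m, m ∉ Ico M₁ (2 * M₁) → a m = 0)
    (hB : ∀ m, ‖a m‖ ≤ B) (t : ℝ) : ‖Fh a (2 * M₁) t‖ ≤ B := by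
  have hM0 : (0 : ℝ) < M₁ := by exact_mod_cast hM
  refine (norm_Fh_le a (2 * M₁) t).trans ?_
  refine (FhSq_dyadic hM (fun n => ‖a n‖ / n) (B / M₁) (fun m hm => ?_) (fun m hm => ?_)).trans ?_
  · simp only [ha m hm, norm_zero, zero_div]
  · rw [mem_Ico] at hm
    have h1 : (M₁ : ℝ) ≤ m := by exact_mod_cast hm.1
    exact div_le_div₀ (FhSq_B_nonneg hB) (hB m) hM0 h1
  · rw [mul_div_cancel₀ _ hM0.ne']

/-- Mean square of a dyadic polynomial. -/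
theorem Fh_sq_dyadic : ∃ C : ℝ, 0 < C ∧ ∀ (M₁ : ℕ) (a : ℕ → ℂ) (B T : ℝ), 1 ≤ M₁ → 0 < T → T ≤ 2 * M₁ →
    (∀ m, m ∉ Ico M₁ (2 * M₁) → a m = 0) → (∀ m, ‖a m‖ ≤ B) →
    ∫ t in Set.Icc (-T) T, ‖Fh a (2 * M₁) t‖ ^ 2 ≤ C * B ^ 2 := by
  obtain ⟨C, hC, h⟩ := mvt
  refine ⟨2 * C, by positivity, fun M₁ a B T hM hT hTM ha hB => ?_⟩
  have hM0 : (0 : ℝ) < M₁ := by exact_mod_cast hM
  have h1 := h (2 * M₁) T a hT
  have h2 : max T ((2 * M₁ : ℕ) : ℝ) = 2 * M₁ := by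
    push_cast
    exact max_eq_right hTM
  rw [h2] at h1
  refine h1.trans ?_
  have h3 : ∑ n ∈ Icc 1 (2 * M₁), ‖a n‖ ^ 2 / (n : ℝ) ^ 2 ≤ M₁ * (B ^ 2 / (M₁ : ℝ) ^ 2) := by
    refine FhSq_dyadic hM (fun n => ‖a n‖ ^ 2 / (n : ℝ) ^ 2) _ (fun m hm => ?_) (fun m hm => ?_)
    · simp only [ha m hm, norm_zero]
      simp
    · rw [mem_Ico] at hm
      have h4 : (M₁ : ℝ) ≤ m := by exact_mod_cast hm.1
      exact div_le_div₀ (sq_nonneg _) (pow_le_pow_left₀ (norm_nonneg _) (hB m) 2) (by positivity)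
        (pow_le_pow_left₀ hM0.le h4 2)
  calc C * (2 * M₁) * ∑ n ∈ Icc 1 (2 * M₁), ‖a n‖ ^ 2 / (n : ℝ) ^ 2
      ≤ C * (2 * M₁) * (M₁ * (B ^ 2 / (M₁ : ℝ) ^ 2)) := mul_le_mul_of_nonneg_left h3 (by positivity)
    _ = 2 * C * B ^ 2 := by field_simp

/-- Mean square of a product, long range. -/
theorem Fh_sq_cv : ∃ C : ℝ, 0 < C ∧ ∀ (M₁ N₁ : ℕ) (a b : ℕ → ℂ) (B₁ B₂ T : ℝ), 1 ≤ M₁ → 1 ≤ N₁ → 0 < T →
    (4 * M₁ * N₁ : ℝ) ≤ T → (∀ m, m ∉ Ico M₁ (2 * M₁) → a m = 0) → (∀ n, n ∉ Ico N₁ (2 * N₁) → b n = 0) →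
    (∀ m, ‖a m‖ ≤ B₁) → (∀ n, ‖b n‖ ≤ B₂) →
    ∫ t in Set.Icc (-T) T, ‖Fh a (2 * M₁) t * Fh b (2 * N₁) t‖ ^ 2 ≤
      C * T / (M₁ * N₁) * (B₁ * B₂) ^ 2 * (1 + Real.log (4 * M₁ * N₁)) ^ 4 := by
  obtain ⟨C, hC, h⟩ := mvt
  refine ⟨C, hC, fun M₁ N₁ a b B₁ B₂ T hM hN hT hMNT ha hb hB1 hB2 => ?_⟩
  have hM0 : (0 : ℝ) < M₁ := by exact_mod_cast hM
  have hN0 : (0 : ℝ) < N₁ := by exact_mod_cast hN
  have h1 := h (4 * M₁ * N₁) T (cv a b) hT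
  have h2 : max T ((4 * M₁ * N₁ : ℕ) : ℝ) = T := by
    push_cast
    exact max_eq_left hMNT
  rw [h2] at h1
  have h3 : ∀ t : ℝ, Fh (cv a b) (4 * M₁ * N₁) t = Fh a (2 * M₁) t * Fh b (2 * N₁) t := fun t =>
    Fh_cv ha hb hM hN le_rfl t
  simp only [h3] at h1
  refine h1.trans ?_
  have h4 : ∑ n ∈ Icc 1 (4 * M₁ * N₁), ‖cv a b n‖ ^ 2 / (n : ℝ) ^ 2 ≤
      (B₁ * B₂) ^ 2 / (M₁ * N₁) * (1 + Real.log (4 * M₁ * N₁)) ^ 4 := by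
    have h5 : ∀ n ∈ Icc 1 (4 * M₁ * N₁), ‖cv a b n‖ ^ 2 / (n : ℝ) ^ 2 ≤
        (B₁ * B₂) ^ 2 / (M₁ * N₁) * (tauR n ^ 2 / n) := by
      intro n hn
      have hn0 : (0 : ℝ) < n := by exact_mod_cast (mem_Icc.mp hn).1
      by_cases hc : cv a b n = 0
      · rw [hc, norm_zero]
        have : (0 : ℝ) ≤ (B₁ * B₂) ^ 2 / (M₁ * N₁) * (tauR n ^ 2 / n) := by positivity
        simpa using this
      · have h6 : ((M₁ * N₁ : ℕ) : ℝ) ≤ n := by exact_mod_cast (FhSq_supp ha hb hc).1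
        push_cast at h6
        calc ‖cv a b n‖ ^ 2 / (n : ℝ) ^ 2 ≤ ((B₁ * B₂) ^ 2 * tauR n ^ 2) / ((M₁ * N₁) * n) := by
              refine div_le_div₀ (by positivity) (FhSq_sq hB1 hB2 n) (by positivity) ?_
              rw [pow_two]
              exact mul_le_mul_of_nonneg_right h6 hn0.le
          _ = (B₁ * B₂) ^ 2 / (M₁ * N₁) * (tauR n ^ 2 / n) := by
              rw [mul_div_mul_comm]
    refine (sum_le_sum h5).trans ?_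
    rw [← mul_sum, FhSq_Icc]
    refine mul_le_mul_of_nonneg_left ?_ (by positivity)
    refine (sum_tau_sq_div_le _).trans ?_
    have h7 := Hs_le (4 * M₁ * N₁)
    push_cast at h7
    exact pow_le_pow_left₀ (Hs_nonneg _) h7 4
  calc C * T * ∑ n ∈ Icc 1 (4 * M₁ * N₁), ‖cv a b n‖ ^ 2 / (n : ℝ) ^ 2
      ≤ C * T * ((B₁ * B₂) ^ 2 / (M₁ * N₁) * (1 + Real.log (4 * M₁ * N₁)) ^ 4) :=
        mul_le_mul_of_nonneg_left h4 (by positivity)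
    _ = C * T / (M₁ * N₁) * (B₁ * B₂) ^ 2 * (1 + Real.log (4 * M₁ * N₁)) ^ 4 := by ring

/-- `ℓ²` norm of a product sequence. -/
theorem cv_sq {M₁ N₁ : ℕ} {a b : ℕ → ℂ} {B₁ B₂ : ℝ} (ha : ∀ m, m ∉ Ico M₁ (2 * M₁) → a m = 0)
    (hb : ∀ n, n ∉ Ico N₁ (2 * N₁) → b n = 0) (hM : 1 ≤ M₁) (hN : 1 ≤ N₁) (hB1 : ∀ m, ‖a m‖ ≤ B₁)
    (hB2 : ∀ n, ‖b n‖ ≤ B₂) (Z : ℕ) :
    ∑ n ∈ Icc 1 Z, ‖cv a b n‖ ^ 2 ≤ (B₁ * B₂) ^ 2 * (4 * M₁ * N₁) * (1 + Real.log (4 * M₁ * N₁)) ^ 3 := by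
  have hM0 : (0 : ℝ) < M₁ := by exact_mod_cast hM
  have hN0 : (0 : ℝ) < N₁ := by exact_mod_cast hN
  have h1 : ∑ n ∈ Icc 1 Z, ‖cv a b n‖ ^ 2 ≤ ∑ n ∈ Ioc 0 (4 * M₁ * N₁), ‖cv a b n‖ ^ 2 := by
    rw [FhSq_Icc]
    rcases le_total Z (4 * M₁ * N₁) with h2 | h2
    · exact sum_le_sum_of_subset_of_nonneg (Ioc_subset_Ioc_right h2) fun _ _ _ => by positivity
    · refine le_of_eq (sum_subset (Ioc_subset_Ioc_right h2) fun n hn hn' => ?_).symm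
      by_contra hc
      have hc' : cv a b n ≠ 0 := by
        intro h0
        apply hc
        rw [h0, norm_zero]
        norm_num
      apply hn'
      rw [mem_Ioc] at hn ⊢
      exact ⟨hn.1, (FhSq_supp ha hb hc').2⟩
  refine h1.trans ((sum_le_sum fun n _ => FhSq_sq hB1 hB2 n).trans ?_)
  rw [← mul_sum]
  have h3 := sum_tau_sq_le (4 * M₁ * N₁)
  have h4 := Hs_le (4 * M₁ * N₁)
  push_cast at h3 h4
  calc (B₁ * B₂) ^ 2 * ∑ n ∈ Ioc 0 (4 * M₁ * N₁), tauR n ^ 2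
      ≤ (B₁ * B₂) ^ 2 * (4 * M₁ * N₁ * Hs (4 * M₁ * N₁) ^ 3) := mul_le_mul_of_nonneg_left h3 (sq_nonneg _)
    _ ≤ (B₁ * B₂) ^ 2 * (4 * M₁ * N₁ * (1 + Real.log (4 * M₁ * N₁)) ^ 3) := by
        refine mul_le_mul_of_nonneg_left ?_ (sq_nonneg _)
        exact mul_le_mul_of_nonneg_left (pow_le_pow_left₀ (Hs_nonneg _) h4 3) (by positivity)
    _ = (B₁ * B₂) ^ 2 * (4 * M₁ * N₁) * (1 + Real.log (4 * M₁ * N₁)) ^ 3 := by ring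

end Pool.Agent.SInt
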