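import Pool.Agent.SInt.Defs

open Finset Complex
open scoped ArithmeticFunction.Moebius ArithmeticFunction.vonMangoldt

namespace Pool.Agent.SInt

open Pool.Agent.ANT

lemma tri_nonneg (W : ℕ) (x : ℝ) : 0 ≤ tri W x := le_max_left _ _

lemma tri_le_one (W : ℕ) (x : ℝ) : tri W x ≤ 1 := by
  unfold tri
  have h : 0 ≤ |x| / (W : ℝ) := div_nonneg (abs_nonneg _) (Nat.cast_nonneg _)
  exact max_le zero_le_one (by linarith)

lemma tri_neg (W : ℕ) (x : ℝ) : tri W (-x) = tri W x := by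
  unfold tri
  rw [abs_neg]

lemma tri_eq_zero {W : ℕ} (hW : 1 ≤ W) {x : ℝ} (hx : (W : ℝ) ≤ |x|) : tri W x = 0 := by
  unfold tri
  have h0 : (0 : ℝ) < W := by exact_mod_cast hW
  have h1 : 1 ≤ |x| / (W : ℝ) := (one_le_div h0).2 hx
  exact max_eq_left (by linarith)

lemma tri_half {W : ℕ} {x : ℝ} (hx : 2 * |x| ≤ W) : 1 / 2 ≤ tri W x := by
  unfold tri
  refine le_max_of_le_right ?_
  rcases Nat.eq_zero_or_pos W with h | h
  · subst h
    simp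
    norm_num
  · have h0 : (0 : ℝ) < W := by exact_mod_cast h
    have h1 : |x| / (W : ℝ) ≤ 1 / 2 := by
      rw [div_le_iff₀ h0]
      linarith
    linarith

/-- `tri` is decreasing in `|x|`. -/
lemma tri_anti {W : ℕ} {x y : ℝ} (h : |x| ≤ |y|) : tri W y ≤ tri W x := by
  unfold tri
  have h1 : |x| / (W : ℝ) ≤ |y| / (W : ℝ) := div_le_div_of_nonneg_right h (Nat.cast_nonneg _)
  exact max_le_max_left _ (by linarith)

lemma GD_nonneg (D : ℕ) (x : ℝ) : 0 ≤ GD D x := div_nonneg (tri_nonneg D x) (Nat.cast_nonneg _)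

lemma GD_le (D : ℕ) (x : ℝ) : GD D x ≤ 1 / D :=
  div_le_div_of_nonneg_right (tri_le_one D x) (Nat.cast_nonneg _)

lemma GD_eq_zero {D : ℕ} (hD : 1 ≤ D) {x : ℝ} (hx : (D : ℝ) ≤ |x|) : GD D x = 0 := by
  unfold GD
  rw [tri_eq_zero hD hx, zero_div]

lemma continuous_GD (D : ℕ) : Continuous (GD D) := by
  unfold GD tri
  fun_prop

private lemma TriB_neg (D : ℕ) (x : ℝ) : GD D (-x) = GD D x := by
  unfold GD
  rw [tri_neg]

private lemma TriB_pos {D : ℕ} (hD : 1 ≤ D) {x : ℝ} (h0 : 0 ≤ x) (h1 : x ≤ D) :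
    GD D x = (1 - x / D) / D := by
  unfold GD tri
  have hD0 : (0 : ℝ) < D := by exact_mod_cast hD
  rw [abs_of_nonneg h0, max_eq_right]
  have : x / D ≤ 1 := (div_le_one hD0).2 h1
  linarith

private lemma TriB_half {D : ℕ} (hD : 1 ≤ D) : ∫ x in (0 : ℝ)..D, GD D x = 1 / 2 := by
  have hD0 : (0 : ℝ) < D := by exact_mod_cast hD
  have h1 : ∫ x in (0 : ℝ)..D, GD D x = ∫ x in (0 : ℝ)..D, (1 - x / D) / D := by
    refine intervalIntegral.integral_congr fun x hx => ?_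
    rw [Set.uIcc_of_le hD0.le] at hx
    exact TriB_pos hD hx.1 hx.2
  rw [h1]
  have h2 : ∀ x ∈ Set.uIcc (0 : ℝ) D,
      HasDerivAt (fun x : ℝ => (x - x ^ 2 / (2 * D)) / D) ((1 - x / D) / D) x := by
    intro x _
    have h3 : HasDerivAt (fun x : ℝ => x ^ 2) (2 * x) x := by
      simpa using hasDerivAt_pow 2 x
    have h4 := ((hasDerivAt_id x).sub (h3.div_const (2 * D))).div_const (D : ℝ)
    rw [mul_div_mul_left x (D : ℝ) two_ne_zero] at h4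
    exact h4
  rw [intervalIntegral.integral_eq_sub_of_hasDerivAt h2]
  · field_simp
    ring
  · exact (by fun_prop : Continuous fun x : ℝ => (1 - x / D) / (D : ℝ)).intervalIntegrable _ _

/-- `∫ GD = 1`. -/
lemma integral_GD {D : ℕ} (hD : 1 ≤ D) : ∫ x : ℝ, GD D x = 1 := by
  have hD0 : (0 : ℝ) < D := by exact_mod_cast hD
  have h1 : ∫ x : ℝ, GD D x = ∫ x in Set.Ioc (-(D : ℝ)) D, GD D x := by
    refine (MeasureTheory.setIntegral_eq_integral_of_forall_compl_eq_zero fun x hx => ?_).symm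
    apply GD_eq_zero hD
    rw [Set.mem_Ioc, not_and_or, not_lt, not_le] at hx
    rcases hx with hx | hx
    · exact le_abs.2 (Or.inr (by linarith))
    · exact le_abs.2 (Or.inl hx.le)
  rw [h1, ← intervalIntegral.integral_of_le (by linarith)]
  rw [← intervalIntegral.integral_add_adjacent_intervals (b := 0)
    ((continuous_GD D).intervalIntegrable _ _) ((continuous_GD D).intervalIntegrable _ _)]
  have h2 : ∫ x in (-(D : ℝ))..0, GD D x = ∫ x in (0 : ℝ)..D, GD D x := by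
    have h3 := intervalIntegral.integral_comp_neg (f := GD D) (a := 0) (b := (D : ℝ))
    rw [neg_zero] at h3
    rw [← h3]
    exact intervalIntegral.integral_congr fun x _ => TriB_neg D x
  rw [h2, TriB_half hD]
  norm_num

/-- Partition of unity: the sum over all integers `v` near the real number `x`. -/
lemma sum_GD {D : ℕ} (hD : 1 ≤ D) (x : ℝ) (A B : ℤ) (hA : (A : ℝ) ≤ x - D) (hB : x + D ≤ B) :
    ∑ v ∈ Icc A B, GD D ((v : ℝ) - x) = 1 := by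
  have hD0 : (0 : ℝ) < D := by exact_mod_cast hD
  have hf1 : (⌊x⌋ : ℝ) ≤ x := Int.floor_le x
  have hf2 : x < ⌊x⌋ + 1 := Int.lt_floor_add_one x
  set n := ⌊x⌋ with hn
  have h1 : ∑ v ∈ Icc A B, GD D ((v : ℝ) - x) = ∑ v ∈ Icc (n - D + 1) (n + D), GD D ((v : ℝ) - x) := by
    symm
    refine Finset.sum_subset (Finset.Icc_subset_Icc ?_ ?_) fun v _ hv => GD_eq_zero hD ?_
    · have : (A : ℝ) < ((n - D + 1 : ℤ) : ℝ) := by
        push_cast
        linarith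
      exact (by exact_mod_cast this : A < n - D + 1).le
    · have : ((n + D : ℤ) : ℝ) ≤ (B : ℝ) := by
        push_cast
        linarith
      exact_mod_cast this
    · rw [Finset.mem_Icc, not_and_or, not_le, not_le] at hv
      rcases hv with hv | hv
      · have h2 : v ≤ n - D := by omega
        have h3 : (v : ℝ) ≤ n - D := by exact_mod_cast h2
        exact le_abs.2 (Or.inr (by linarith))
      · have h2 : n + D + 1 ≤ v := by omega
        have h3 : (n : ℝ) + D + 1 ≤ v := by exact_mod_cast h2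
        exact le_abs.2 (Or.inl (by linarith))
  have h2 : Icc (n - D + 1) (n + D) = Icc (n - D + 1) n ∪ Icc (n + 1) (n + D) := by
    ext v
    simp only [Finset.mem_union, Finset.mem_Icc]
    omega
  have h3 : Disjoint (Icc (n - D + 1) n) (Icc (n + 1) (n + (D : ℤ))) := by
    rw [Finset.disjoint_left]
    intro v hv hv'
    rw [Finset.mem_Icc] at hv hv'
    omega
  have h4 : ∑ v ∈ Icc (n + 1) (n + (D : ℤ)), GD D ((v : ℝ) - x) =
      ∑ v ∈ Icc (n - D + 1) n, GD D (((v + D : ℤ) : ℝ) - x) := by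
    symm
    refine Finset.sum_nbij' (fun v => v + D) (fun v => v - D) ?_ ?_ ?_ ?_ ?_
    · intro v hv
      rw [Finset.mem_Icc] at hv ⊢
      omega
    · intro v hv
      rw [Finset.mem_Icc] at hv ⊢
      omega
    · intro v _
      simp
    · intro v _
      simp
    · intro v _
      rfl
  rw [h1, h2, Finset.sum_union h3, h4, ← Finset.sum_add_distrib]
  have h5 : ∀ v ∈ Icc (n - (D : ℤ) + 1) n,
      GD D ((v : ℝ) - x) + GD D (((v + D : ℤ) : ℝ) - x) = 1 / D := by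
    intro v hv
    rw [Finset.mem_Icc] at hv
    have h6 : (n : ℝ) - D + 1 ≤ v := by exact_mod_cast hv.1
    have h7 : (v : ℝ) ≤ n := by exact_mod_cast hv.2
    rw [← TriB_neg D ((v : ℝ) - x), TriB_pos hD (x := -((v : ℝ) - x)) (by linarith) (by linarith)]
    push_cast
    rw [TriB_pos hD (x := (v : ℝ) + D - x) (by linarith) (by linarith)]
    field_simp
    ring
  rw [Finset.sum_congr rfl h5, Finset.sum_const, Int.card_Icc]
  have h6 : (n + 1 - (n - (D : ℤ) + 1)).toNat = D := by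
    have : n + 1 - (n - (D : ℤ) + 1) = D := by ring
    rw [this]
    exact Int.toNat_natCast D
  rw [h6, nsmul_eq_mul]
  field_simp

lemma sum_GD_le {D : ℕ} (hD : 1 ≤ D) (x : ℝ) (s : Finset ℤ) :
    ∑ v ∈ s, GD D ((v : ℝ) - x) ≤ 1 := by
  have hf1 : (⌊x⌋ : ℝ) ≤ x := Int.floor_le x
  have hf2 : x < ⌊x⌋ + 1 := Int.lt_floor_add_one x
  set T : ℤ := ∑ v ∈ s, |v| + |⌊x⌋| + D + 1 with hT
  have h0 : 0 ≤ ∑ v ∈ s, |v| := Finset.sum_nonneg fun v _ => abs_nonneg v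
  have h1 : s ⊆ Icc (-T) T := by
    intro v hv
    have h2 : |v| ≤ ∑ v ∈ s, |v| := Finset.single_le_sum (f := fun v : ℤ => |v|) (fun v _ => abs_nonneg v) hv
    have h3 : 0 ≤ |⌊x⌋| := abs_nonneg _
    have h4 : |v| ≤ T := by omega
    rw [Finset.mem_Icc]
    exact abs_le.1 h4
  have h5 : (|⌊x⌋| : ℤ) + D + 1 ≤ T := by omega
  have h6 : ((|⌊x⌋| : ℤ) : ℝ) + D + 1 ≤ (T : ℝ) := by exact_mod_cast h5
  have h7 : |(⌊x⌋ : ℝ)| = ((|⌊x⌋| : ℤ) : ℝ) := by push_cast; rfl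
  have h8 := neg_abs_le (⌊x⌋ : ℝ)
  have h9 := le_abs_self (⌊x⌋ : ℝ)
  rw [← sum_GD hD x (-T) T (by push_cast; linarith) (by linarith)]
  exact Finset.sum_le_sum_of_subset_of_nonneg h1 fun v _ _ => GD_nonneg D _

private lemma TriB_sum_nat {D : ℕ} (hD : 1 ≤ D) (v : ℤ) (Z : ℕ) :
    ∑ n ∈ Icc 1 Z, GD D ((v : ℝ) - n) ≤ 1 := by
  have h1 : ∑ n ∈ Icc 1 Z, GD D ((v : ℝ) - n) =
      ∑ m ∈ (Icc 1 Z).image (fun n : ℕ => (n : ℤ)), GD D ((m : ℝ) - v) := by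
    rw [Finset.sum_image (fun a _ b _ h => by exact_mod_cast h)]
    refine Finset.sum_congr rfl fun n _ => ?_
    rw [← TriB_neg, neg_sub]
    push_cast
    rfl
  rw [h1]
  exact sum_GD_le hD v _

/-- The local average does not increase the `ℓ²` norm. -/
theorem LAh_l2 {D : ℕ} (hD : 1 ≤ D) (h : ℕ → ℂ) (Z : ℕ) (s : Finset ℤ) :
    ∑ v ∈ s, ‖LAh h Z D v‖ ^ 2 ≤ ∑ n ∈ Icc 1 Z, ‖h n‖ ^ 2 := by
  have key : ∀ v : ℤ, ‖LAh h Z D v‖ ^ 2 ≤ ∑ n ∈ Icc 1 Z, ‖h n‖ ^ 2 * GD D ((v : ℝ) - n) := by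
    intro v
    have h1 : ‖LAh h Z D v‖ ≤ ∑ n ∈ Icc 1 Z, (‖h n‖ * √(GD D ((v : ℝ) - n))) * √(GD D ((v : ℝ) - n)) := by
      unfold LAh
      refine (norm_sum_le _ _).trans (le_of_eq (Finset.sum_congr rfl fun n _ => ?_))
      rw [norm_mul, Complex.norm_real, Real.norm_eq_abs, abs_of_nonneg (GD_nonneg D _), mul_assoc,
        Real.mul_self_sqrt (GD_nonneg D _)]
    have h2 := Finset.sum_mul_sq_le_sq_mul_sq (Icc 1 Z)
      (fun n => ‖h n‖ * √(GD D ((v : ℝ) - n))) (fun n => √(GD D ((v : ℝ) - n)))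
    have h3 : ∑ n ∈ Icc 1 Z, (‖h n‖ * √(GD D ((v : ℝ) - n))) ^ 2 =
        ∑ n ∈ Icc 1 Z, ‖h n‖ ^ 2 * GD D ((v : ℝ) - n) := by
      refine Finset.sum_congr rfl fun n _ => ?_
      rw [mul_pow, Real.sq_sqrt (GD_nonneg D _)]
    have h4 : ∑ n ∈ Icc 1 Z, √(GD D ((v : ℝ) - n)) ^ 2 = ∑ n ∈ Icc 1 Z, GD D ((v : ℝ) - n) :=
      Finset.sum_congr rfl fun n _ => Real.sq_sqrt (GD_nonneg D _)
    have h5 : 0 ≤ ∑ n ∈ Icc 1 Z, ‖h n‖ ^ 2 * GD D ((v : ℝ) - n) :=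
      Finset.sum_nonneg fun n _ => mul_nonneg (sq_nonneg _) (GD_nonneg D _)
    rw [h3, h4] at h2
    calc ‖LAh h Z D v‖ ^ 2 ≤ (∑ n ∈ Icc 1 Z, (‖h n‖ * √(GD D ((v : ℝ) - n))) * √(GD D ((v : ℝ) - n))) ^ 2 :=
          pow_le_pow_left₀ (norm_nonneg _) h1 2
      _ ≤ (∑ n ∈ Icc 1 Z, ‖h n‖ ^ 2 * GD D ((v : ℝ) - n)) * ∑ n ∈ Icc 1 Z, GD D ((v : ℝ) - n) := h2
      _ ≤ (∑ n ∈ Icc 1 Z, ‖h n‖ ^ 2 * GD D ((v : ℝ) - n)) * 1 :=
          mul_le_mul_of_nonneg_left (TriB_sum_nat hD v Z) h5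
      _ = _ := mul_one _
  calc ∑ v ∈ s, ‖LAh h Z D v‖ ^ 2 ≤ ∑ v ∈ s, ∑ n ∈ Icc 1 Z, ‖h n‖ ^ 2 * GD D ((v : ℝ) - n) :=
        Finset.sum_le_sum fun v _ => key v
    _ = ∑ n ∈ Icc 1 Z, ‖h n‖ ^ 2 * ∑ v ∈ s, GD D ((v : ℝ) - n) := by
        rw [Finset.sum_comm]
        exact Finset.sum_congr rfl fun n _ => (Finset.mul_sum _ _ _).symm
    _ ≤ ∑ n ∈ Icc 1 Z, ‖h n‖ ^ 2 * 1 :=
        Finset.sum_le_sum fun n _ => mul_le_mul_of_nonneg_left (sum_GD_le hD n s) (sq_nonneg _)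
    _ = _ := by simp

/-- Support of the local average. -/
theorem LAh_zero {D : ℕ} (hD : 1 ≤ D) (h : ℕ → ℂ) (Z : ℕ) {v : ℤ} (hv : v ≤ -(D : ℤ) ∨ (Z : ℤ) + D ≤ v) :
    LAh h Z D v = 0 := by
  unfold LAh
  refine Finset.sum_eq_zero fun n hn => ?_
  rw [Finset.mem_Icc] at hn
  have h1 : (1 : ℝ) ≤ n := by exact_mod_cast hn.1
  have h2 : (n : ℝ) ≤ Z := by exact_mod_cast hn.2
  rw [GD_eq_zero hD, Complex.ofReal_zero, mul_zero]
  rcases hv with hv | hv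
  · have h3 : (v : ℝ) ≤ -D := by exact_mod_cast hv
    exact le_abs.2 (Or.inr (by linarith))
  · have h3 : (Z : ℝ) + D ≤ v := by exact_mod_cast hv
    exact le_abs.2 (Or.inl (by linarith))

private lemma TriB_cut {D : ℕ} (hD : 1 ≤ D) (h : ℕ → ℂ) {Z Z' : ℕ} {v : ℤ} (h1 : v + D ≤ Z) (h2 : Z ≤ Z') :
    LAh h Z D v = LAh h Z' D v := by
  unfold LAh
  refine Finset.sum_subset (Finset.Icc_subset_Icc_right h2) fun n hn hn' => ?_
  rw [Finset.mem_Icc] at hn hn'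
  have h3 : Z < n := by
    by_contra hc
    exact hn' ⟨hn.1, not_lt.1 hc⟩
  have h4 : v + D ≤ (n : ℤ) := by
    have : (Z : ℤ) < n := by exact_mod_cast h3
    omega
  have h5 : (v : ℝ) + D ≤ n := by exact_mod_cast h4
  rw [GD_eq_zero hD, Complex.ofReal_zero, mul_zero]
  exact le_abs.2 (Or.inr (by linarith))

/-- Cutoffs beyond `v + D` do not matter. -/
theorem LAh_cut {D : ℕ} (hD : 1 ≤ D) (h : ℕ → ℂ) {Z Z' : ℕ} {v : ℤ} (h1 : v + D ≤ Z) (h2 : v + D ≤ Z') :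
    LAh h Z D v = LAh h Z' D v := by
  rcases le_total Z Z' with h3 | h3
  · exact TriB_cut hD h h1 h3
  · exact (TriB_cut hD h h2 h3).symm

end Pool.Agent.SInt
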