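import Pool.Agent.SInt.SecD

open Finset Complex
open scoped ArithmeticFunction.Moebius ArithmeticFunction.vonMangoldt

namespace Pool.Agent.SInt

open Pool.Agent.ANT

/-- The logarithm at the points `A - r x`, `A`, `A + r x`. -/
private lemma Pair_log {A u B₁ B₂ : ℝ} (hA : 0 < A) (hu : u < 1) (hu0 : 0 ≤ u) (h1 : B₁ = A * (1 - u))
    (h2 : B₂ = A * (1 + u)) :
    Real.log B₁ - 2 * Real.log A + Real.log B₂ = Real.log (1 - u ^ 2) := by
  have e1 : (1 : ℝ) - u ≠ 0 := by linarith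
  have e2 : (1 : ℝ) + u ≠ 0 := by linarith
  rw [h1, h2, Real.log_mul hA.ne' e1, Real.log_mul hA.ne' e2, show (1 : ℝ) - u ^ 2 = (1 - u) * (1 + u) by ring,
    Real.log_mul e1 e2]
  ring

/-- Bounds for the second difference of `log (y - x₁ m) - log (y - x₂ m)`. -/
private lemma Pair_diff {x₁ x₂ y η r m : ℝ} (hη : 0 < η) (hη1 : η ≤ 1 / 2) (hy : 0 < y) (hx1 : 0 ≤ x₁)
    (hx : x₁ < x₂) (hr : 0 < r) (hm : r ≤ m) (hm1 : (m + r) * x₂ ≤ (1 - η) * y) :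
    r ^ 2 * (x₂ - x₁) * x₂ / y ^ 2 ≤
        (Real.log (y - x₁ * (m + r)) - Real.log (y - x₂ * (m + r))) -
          2 * (Real.log (y - x₁ * m) - Real.log (y - x₂ * m)) +
          (Real.log (y - x₁ * (m - r)) - Real.log (y - x₂ * (m - r))) ∧
      (Real.log (y - x₁ * (m + r)) - Real.log (y - x₂ * (m + r))) -
          2 * (Real.log (y - x₁ * m) - Real.log (y - x₂ * m)) +
          (Real.log (y - x₁ * (m - r)) - Real.log (y - x₂ * (m - r))) ≤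
        2 / η ^ 4 * (r ^ 2 * (x₂ - x₁) * x₂ / y ^ 2) := by
  have hx2 : 0 < x₂ := lt_of_le_of_lt hx1 hx
  have hm0 : 0 < m := lt_of_lt_of_le hr hm
  obtain ⟨A₁, hA₁⟩ : ∃ A₁, A₁ = y - x₁ * m := ⟨_, rfl⟩
  obtain ⟨A₂, hA₂⟩ : ∃ A₂, A₂ = y - x₂ * m := ⟨_, rfl⟩
  have hηy : 0 < η * y := mul_pos hη hy
  have h2a : η * y ≤ A₂ - r * x₂ := by rw [hA₂]; nlinarith
  have h1a : η * y ≤ A₁ - r * x₁ := by
    have h3 : x₁ * (m + r) ≤ x₂ * (m + r) := mul_le_mul_of_nonneg_right hx.le (by linarith)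
    rw [hA₁]
    nlinarith
  have hrx1 : 0 ≤ r * x₁ := mul_nonneg hr.le hx1
  have hrx2 : 0 < r * x₂ := mul_pos hr hx2
  have hA₁0 : 0 < A₁ := by linarith
  have hA₂0 : 0 < A₂ := by linarith
  have hA₁y : A₁ ≤ y := by
    have := mul_nonneg hx1 hm0.le
    rw [hA₁]; linarith
  have hA₂y : A₂ ≤ y := by
    have := mul_pos hx2 hm0
    rw [hA₂]; linarith
  obtain ⟨u₁, hu₁⟩ : ∃ u₁, u₁ = r * x₁ / A₁ := ⟨_, rfl⟩
  obtain ⟨u₂, hu₂⟩ : ∃ u₂, u₂ = r * x₂ / A₂ := ⟨_, rfl⟩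
  have hu₁A : u₁ * A₁ = r * x₁ := by rw [hu₁]; field_simp
  have hu₂A : u₂ * A₂ = r * x₂ := by rw [hu₂]; field_simp
  have hu₁0 : 0 ≤ u₁ := by rw [hu₁]; positivity
  have hu₂0 : 0 < u₂ := by rw [hu₂]; positivity
  have hu₂1 : η ≤ 1 - u₂ := by
    have h3 : η * A₂ ≤ (1 - u₂) * A₂ := by nlinarith
    exact le_of_mul_le_mul_right h3 hA₂0
  -- the difference
  have hdiff : (u₂ - u₁) * (A₁ * A₂) = r * (x₂ - x₁) * y := by
    have h3 : (u₂ - u₁) * (A₁ * A₂) = (u₂ * A₂) * A₁ - (u₁ * A₁) * A₂ := by ring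
    rw [h3, hu₁A, hu₂A, hA₁, hA₂]
    ring
  have hAA : 0 < A₁ * A₂ := mul_pos hA₁0 hA₂0
  have hnum : 0 < r * (x₂ - x₁) := mul_pos hr (by linarith)
  have hlt : u₁ < u₂ := by
    have h3 : 0 < (u₂ - u₁) * (A₁ * A₂) := by rw [hdiff]; exact mul_pos hnum hy
    have h4 := (mul_pos_iff_of_pos_right hAA).1 h3
    linarith
  have hd1 : r * (x₂ - x₁) / y ≤ u₂ - u₁ := by
    rw [div_le_iff₀ hy]
    have h3 : A₁ * A₂ ≤ y * y := mul_le_mul hA₁y hA₂y hA₂0.le hy.le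
    have h4 : r * (x₂ - x₁) * y ≤ (u₂ - u₁) * (y * y) := by
      rw [← hdiff]
      exact mul_le_mul_of_nonneg_left h3 (by linarith)
    have h5 : r * (x₂ - x₁) * y ≤ ((u₂ - u₁) * y) * y := by linarith
    exact le_of_mul_le_mul_right h5 hy
  have hd2 : u₂ - u₁ ≤ r * (x₂ - x₁) / (η ^ 2 * y) := by
    rw [le_div_iff₀ (by positivity)]
    have h3 : (η * y) * (η * y) ≤ A₁ * A₂ :=
      mul_le_mul (by linarith) (by linarith) hηy.le hA₁0.le
    have h4 : (u₂ - u₁) * ((η * y) * (η * y)) ≤ r * (x₂ - x₁) * y := by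
      rw [← hdiff]
      exact mul_le_mul_of_nonneg_left h3 (by linarith)
    have h5 : ((u₂ - u₁) * (η ^ 2 * y)) * y ≤ (r * (x₂ - x₁)) * y := by
      calc ((u₂ - u₁) * (η ^ 2 * y)) * y = (u₂ - u₁) * ((η * y) * (η * y)) := by ring
        _ ≤ _ := h4
    exact le_of_mul_le_mul_right h5 hy
  have hs1 : r * x₂ / y ≤ u₂ + u₁ := by
    have h3 : r * x₂ / y ≤ u₂ := by
      rw [hu₂]
      exact div_le_div_of_nonneg_left hrx2.le hA₂0 hA₂y
    linarith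
  have hs2 : u₂ + u₁ ≤ 2 * (r * x₂) / (η * y) := by
    have h3 : u₂ ≤ r * x₂ / (η * y) := by
      rw [hu₂]
      exact div_le_div_of_nonneg_left hrx2.le hηy (by linarith)
    have h4 : 2 * (r * x₂) / (η * y) = 2 * (r * x₂ / (η * y)) := by ring
    rw [h4]
    linarith
  have hsub : (u₂ - u₁) * (u₂ + u₁) = (1 - u₁ ^ 2) - (1 - u₂ ^ 2) := by ring
  -- P = 1 - u₁², Q = 1 - u₂²
  have hQ : η ≤ 1 - u₂ ^ 2 := by nlinarith
  have hQ0 : 0 < 1 - u₂ ^ 2 := lt_of_lt_of_le hη hQ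
  have hPQ : 0 ≤ (1 - u₁ ^ 2) - (1 - u₂ ^ 2) := by
    rw [← hsub]
    exact mul_nonneg (by linarith) (by linarith)
  have hP0 : 0 < 1 - u₁ ^ 2 := by linarith
  have hP1 : 1 - u₁ ^ 2 ≤ 1 := by nlinarith
  have hD : (Real.log (y - x₁ * (m + r)) - Real.log (y - x₂ * (m + r))) -
        2 * (Real.log (y - x₁ * m) - Real.log (y - x₂ * m)) +
        (Real.log (y - x₁ * (m - r)) - Real.log (y - x₂ * (m - r))) =
      Real.log ((1 - u₁ ^ 2) / (1 - u₂ ^ 2)) := by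
    rw [Real.log_div hP0.ne' hQ0.ne', ← hA₁, ← hA₂]
    rw [← Pair_log (B₁ := y - x₁ * (m + r)) (B₂ := y - x₁ * (m - r)) hA₁0 (by linarith) hu₁0
      (by rw [mul_sub, mul_comm A₁ u₁, hu₁A, hA₁]; ring) (by rw [mul_add, mul_comm A₁ u₁, hu₁A, hA₁]; ring)]
    rw [← Pair_log (B₁ := y - x₂ * (m + r)) (B₂ := y - x₂ * (m - r)) hA₂0 (by linarith) hu₂0.le
      (by rw [mul_sub, mul_comm A₂ u₂, hu₂A, hA₂]; ring) (by rw [mul_add, mul_comm A₂ u₂, hu₂A, hA₂]; ring)]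
    ring
  have hrat : 0 < (1 - u₁ ^ 2) / (1 - u₂ ^ 2) := div_pos hP0 hQ0
  rw [hD]
  constructor
  · have h3 : r ^ 2 * (x₂ - x₁) * x₂ / y ^ 2 = (r * (x₂ - x₁) / y) * (r * x₂ / y) := by
      field_simp
    have h4 : (r * (x₂ - x₁) / y) * (r * x₂ / y) ≤ (u₂ - u₁) * (u₂ + u₁) :=
      mul_le_mul hd1 hs1 (by positivity) (by linarith)
    have h5 := Real.one_sub_inv_le_log_of_pos hrat
    have h6 : (1 - u₁ ^ 2) - (1 - u₂ ^ 2) ≤ 1 - ((1 - u₁ ^ 2) / (1 - u₂ ^ 2))⁻¹ := by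
      rw [inv_div]
      have h7 : 1 - (1 - u₂ ^ 2) / (1 - u₁ ^ 2) = ((1 - u₁ ^ 2) - (1 - u₂ ^ 2)) / (1 - u₁ ^ 2) := by
        field_simp
      rw [h7, le_div_iff₀ hP0]
      have := mul_le_mul_of_nonneg_left hP1 hPQ
      linarith
    rw [h3]
    calc _ ≤ (u₂ - u₁) * (u₂ + u₁) := h4
      _ = _ := hsub
      _ ≤ _ := h6
      _ ≤ _ := h5
  · have h3 := Real.log_le_sub_one_of_pos hrat
    have h4 : (1 - u₁ ^ 2) / (1 - u₂ ^ 2) - 1 = ((1 - u₁ ^ 2) - (1 - u₂ ^ 2)) / (1 - u₂ ^ 2) := by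
      field_simp
    have h5 : ((1 - u₁ ^ 2) - (1 - u₂ ^ 2)) / (1 - u₂ ^ 2) ≤ ((u₂ - u₁) * (u₂ + u₁)) / η := by
      rw [hsub]
      exact div_le_div_of_nonneg_left hPQ hη hQ
    have h6 : (u₂ - u₁) * (u₂ + u₁) ≤ (r * (x₂ - x₁) / (η ^ 2 * y)) * (2 * (r * x₂) / (η * y)) := by
      refine mul_le_mul hd2 hs2 (by linarith) ?_
      exact div_nonneg hnum.le (by positivity)
    have h7 : (r * (x₂ - x₁) / (η ^ 2 * y)) * (2 * (r * x₂) / (η * y)) / η =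
        2 / η ^ 4 * (r ^ 2 * (x₂ - x₁) * x₂ / y ^ 2) := by
      field_simp
    rw [← h7]
    calc _ ≤ _ := h3
      _ = _ := h4
      _ ≤ _ := h5
      _ ≤ _ := div_le_div_of_nonneg_right h6 hη.le

/-- One residue class. -/
private lemma Pair_class {y t x₁ x₂ η : ℝ} (r a J : ℕ) (hy : 0 < y) (ht : 1 ≤ |t|) (hx1 : 0 ≤ x₁) (hx : x₁ < x₂)
    (hη : 0 < η) (hη1 : η ≤ 1 / 2) (hr : 1 ≤ r) (h : ((a + r * J : ℕ) : ℝ) * x₂ ≤ (1 - η) * y) :
    ‖∑ j ∈ range (J + 1), cexp (I * ((t * (Real.log (y - x₁ * ((a + r * j : ℕ) : ℝ)) -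
        Real.log (y - x₂ * ((a + r * j : ℕ) : ℝ))) : ℝ) : ℂ))‖ ≤
      20 * (2 / η ^ 4 * J * (|t| / (2 * Real.pi) * ((r : ℝ) ^ 2 * (x₂ - x₁) * x₂ / y ^ 2)) + 1) *
        (1 / √(|t| / (2 * Real.pi) * ((r : ℝ) ^ 2 * (x₂ - x₁) * x₂ / y ^ 2)) + 1) := by
  have hx2 : 0 < x₂ := lt_of_le_of_lt hx1 hx
  have hπ := Real.pi_pos
  have hr0 : (0 : ℝ) < r := by exact_mod_cast hr
  obtain ⟨g, hg⟩ : ∃ g : ℕ → ℝ, g = fun j => Real.log (y - x₁ * ((a + r * j : ℕ) : ℝ)) -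
        Real.log (y - x₂ * ((a + r * j : ℕ) : ℝ)) := ⟨_, rfl⟩
  obtain ⟨f, hf⟩ : ∃ f : ℕ → ℝ, f = fun j => t / (2 * Real.pi) * g j := ⟨_, rfl⟩
  have hsum : ∑ j ∈ range (J + 1), cexp (I * ((t * (Real.log (y - x₁ * ((a + r * j : ℕ) : ℝ)) -
        Real.log (y - x₂ * ((a + r * j : ℕ) : ℝ))) : ℝ) : ℂ)) = ∑ j ∈ range (J + 1), ee (f j) := by
    refine Finset.sum_congr rfl fun j _ => ?_
    unfold ee
    have h1 : 2 * Real.pi * f j = t * (Real.log (y - x₁ * ((a + r * j : ℕ) : ℝ)) -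
        Real.log (y - x₂ * ((a + r * j : ℕ) : ℝ))) := by
      rw [hf, hg]
      field_simp
    rw [h1]
  rw [hsum]
  obtain ⟨L, hL⟩ : ∃ L, L = (r : ℝ) ^ 2 * (x₂ - x₁) * x₂ / y ^ 2 := ⟨_, rfl⟩
  have hL0 : 0 < L := by
    rw [hL]
    have : 0 < x₂ - x₁ := by linarith
    positivity
  rw [← hL]
  have hlam : 0 < |t| / (2 * Real.pi) * L := by positivity
  have hα : (1 : ℝ) ≤ 2 / η ^ 4 := by
    rw [le_div_iff₀ (by positivity)]
    have h1 : η ^ 4 ≤ 1 := pow_le_one₀ hη.le (by linarith)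
    linarith
  have key : ∀ j, j + 2 ≤ J → L ≤ g (j + 2) - 2 * g (j + 1) + g j ∧
      g (j + 2) - 2 * g (j + 1) + g j ≤ 2 / η ^ 4 * L := by
    intro j hj
    have h1 := Pair_diff (x₁ := x₁) (x₂ := x₂) (y := y) (η := η) (r := (r : ℝ)) (m := ((a + r * (j + 1) : ℕ) : ℝ))
      hη hη1 hy hx1 hx hr0 (by push_cast; nlinarith [(Nat.cast_nonneg a : (0 : ℝ) ≤ a),
        (Nat.cast_nonneg j : (0 : ℝ) ≤ j), mul_nonneg hr0.le (Nat.cast_nonneg j : (0 : ℝ) ≤ j)]) (by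
        refine le_trans (mul_le_mul_of_nonneg_right ?_ hx2.le) h
        have h2 : ((j + 2 : ℕ) : ℝ) ≤ J := by exact_mod_cast hj
        push_cast at h2 ⊢
        have h3 := mul_le_mul_of_nonneg_left h2 hr0.le
        nlinarith)
    have e1 : ((a + r * (j + 1) : ℕ) : ℝ) + r = ((a + r * (j + 2) : ℕ) : ℝ) := by push_cast; ring
    have e2 : ((a + r * (j + 1) : ℕ) : ℝ) - r = ((a + r * j : ℕ) : ℝ) := by push_cast; ring
    rw [e1, e2, ← hL] at h1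
    rw [hg]
    exact h1
  have hfd : ∀ j, f (j + 2) - 2 * f (j + 1) + f j = t / (2 * Real.pi) * (g (j + 2) - 2 * g (j + 1) + g j) := by
    intro j
    rw [hf]
    ring
  have hq : 0 ≤ |t| / (2 * Real.pi) := by positivity
  rcases le_or_gt 0 t with ht0 | ht0
  · rw [abs_of_nonneg ht0] at hlam hq ⊢
    refine second_diff f J hlam hα (fun j hj => ?_) (fun j hj => ?_)
    · rw [hfd]
      exact mul_le_mul_of_nonneg_left (key j hj).1 hq
    · rw [hfd]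
      have h1 := mul_le_mul_of_nonneg_left (key j hj).2 hq
      linarith
  · rw [abs_of_neg ht0] at hlam hq ⊢
    refine second_diff' f J hlam hα (fun j hj => ?_) (fun j hj => ?_)
    · rw [hfd]
      have h1 := mul_le_mul_of_nonneg_left (key j hj).1 hq
      have h2 : -t / (2 * Real.pi) * (g (j + 2) - 2 * g (j + 1) + g j) =
        -(t / (2 * Real.pi) * (g (j + 2) - 2 * g (j + 1) + g j)) := by ring
      linarith
    · rw [hfd]
      have h1 := mul_le_mul_of_nonneg_left (key j hj).2 hq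
      have h2 : -t / (2 * Real.pi) * (g (j + 2) - 2 * g (j + 1) + g j) =
        -(t / (2 * Real.pi) * (g (j + 2) - 2 * g (j + 1) + g j)) := by ring
      linarith

/-- The numerical estimate. -/
private lemma Pair_num {T ρ z η κ J : ℝ} (hT : 1 ≤ T) (hρ : 1 ≤ ρ) (hz : 0 < z) (hη : 0 < η) (hη1 : η ≤ 1 / 2)
    (hκ : η ≤ κ) (hκ1 : κ ≤ 1) (hJ : J ≤ z / ρ) (hTz : T * ρ ≤ z) :
    ρ * (20 * (2 / η ^ 4 * J * (T ^ 2 / (2 * Real.pi) * (ρ ^ 2 * κ / z ^ 2)) + 1) *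
        (1 / √(T ^ 2 / (2 * Real.pi) * (ρ ^ 2 * κ / z ^ 2)) + 1)) ≤ 100 / η ^ 5 * (ρ * T + z / T) := by
  have hπ := Real.pi_pos
  have hπ3 := Real.pi_gt_three
  have hπ4 := Real.pi_le_four
  have hT0 : 0 < T := by linarith
  have hρ0 : 0 < ρ := by linarith
  have hκ0 : 0 < κ := by linarith
  have hη5 : 0 < η ^ 5 := by positivity
  obtain ⟨lam, hlam⟩ : ∃ lam, lam = T ^ 2 / (2 * Real.pi) * (ρ ^ 2 * κ / z ^ 2) := ⟨_, rfl⟩
  rw [← hlam]
  have hlam0 : 0 < lam := by rw [hlam]; positivity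
  -- first factor
  have ha : 2 / η ^ 4 * J * lam ≤ T ^ 2 * ρ / (η ^ 4 * z) := by
    have h1 : 2 / η ^ 4 * J * lam ≤ 2 / η ^ 4 * (z / ρ) * lam := by
      refine mul_le_mul_of_nonneg_right (mul_le_mul_of_nonneg_left hJ (by positivity)) hlam0.le
    have h2 : 2 / η ^ 4 * (z / ρ) * lam = (κ / Real.pi) * (T ^ 2 * ρ / (η ^ 4 * z)) := by
      rw [hlam]
      field_simp
    have h3 : κ / Real.pi ≤ 1 := by rw [div_le_one hπ]; linarith
    have h4 : (κ / Real.pi) * (T ^ 2 * ρ / (η ^ 4 * z)) ≤ 1 * (T ^ 2 * ρ / (η ^ 4 * z)) :=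
      mul_le_mul_of_nonneg_right h3 (by positivity)
    linarith
  have hb : 1 / √lam ≤ 3 * z / (T * ρ * η) := by
    have h1 : T * ρ * η / (3 * z) ≤ √lam := by
      refine Real.le_sqrt_of_sq_le ?_
      rw [hlam, div_pow, show T ^ 2 / (2 * Real.pi) * (ρ ^ 2 * κ / z ^ 2) =
        (T ^ 2 * ρ ^ 2 * κ) / (2 * Real.pi * z ^ 2) by field_simp]
      rw [div_le_div_iff₀ (by positivity) (by positivity)]
      have h2 : η ^ 2 * (2 * Real.pi) ≤ 9 * κ := by nlinarith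
      have h3 : 0 ≤ T ^ 2 * ρ ^ 2 * z ^ 2 := by positivity
      nlinarith [mul_le_mul_of_nonneg_left h2 h3]
    have h4 : 1 / √lam ≤ 1 / (T * ρ * η / (3 * z)) := one_div_le_one_div_of_le (by positivity) h1
    rw [one_div_div] at h4
    exact h4
  have hη4 : 1 / η ^ 4 ≤ 1 / η ^ 5 := by
    refine one_div_le_one_div_of_le hη5 ?_
    calc η ^ 5 = η ^ 4 * η := by ring
      _ ≤ η ^ 4 * 1 := mul_le_mul_of_nonneg_left (by linarith) (by positivity)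
      _ = η ^ 4 := mul_one _
  have hη1' : 1 / η ≤ 1 / η ^ 5 := by
    refine one_div_le_one_div_of_le hη5 ?_
    calc η ^ 5 = η * η ^ 4 := by ring
      _ ≤ η * 1 := mul_le_mul_of_nonneg_left (pow_le_one₀ hη.le (by linarith)) hη.le
      _ = η := mul_one _
  have hη0 : 1 ≤ 1 / η ^ 5 := by
    rw [le_div_iff₀ hη5, one_mul]
    exact pow_le_one₀ hη.le (by linarith)
  -- a ≤ T / η^5
  have ha2 : T ^ 2 * ρ / (η ^ 4 * z) ≤ T * (1 / η ^ 5) := by
    have h1 : T ^ 2 * ρ / (η ^ 4 * z) = (T * (1 / η ^ 4)) * (T * ρ / z) := by field_simp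
    have h2 : T * ρ / z ≤ 1 := by rw [div_le_one hz]; exact hTz
    rw [h1]
    calc (T * (1 / η ^ 4)) * (T * ρ / z) ≤ (T * (1 / η ^ 4)) * 1 :=
          mul_le_mul_of_nonneg_left h2 (by positivity)
      _ ≤ T * (1 / η ^ 5) := by
          rw [mul_one]
          exact mul_le_mul_of_nonneg_left hη4 hT0.le
  have hb2 : 3 * z / (T * ρ * η) ≤ 3 * (z / (T * ρ)) * (1 / η ^ 5) := by
    have h1 : 3 * z / (T * ρ * η) = 3 * (z / (T * ρ)) * (1 / η) := by field_simp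
    rw [h1]
    exact mul_le_mul_of_nonneg_left hη1' (by positivity)
  have hab : T ^ 2 * ρ / (η ^ 4 * z) * (3 * z / (T * ρ * η)) = 3 * T * (1 / η ^ 5) := by
    field_simp
  have hprod : (2 / η ^ 4 * J * lam + 1) * (1 / √lam + 1) ≤
      (5 * T + 3 * (z / (T * ρ))) * (1 / η ^ 5) := by
    have h1 : (2 / η ^ 4 * J * lam + 1) * (1 / √lam + 1) ≤
        (T ^ 2 * ρ / (η ^ 4 * z) + 1) * (3 * z / (T * ρ * η) + 1) := by
      have hp : (0 : ℝ) ≤ 1 / √lam := by positivity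
      refine mul_le_mul (by linarith) (by linarith) (by linarith) ?_
      have : (0 : ℝ) ≤ T ^ 2 * ρ / (η ^ 4 * z) := by positivity
      linarith
    have h2 : (T ^ 2 * ρ / (η ^ 4 * z) + 1) * (3 * z / (T * ρ * η) + 1) =
        T ^ 2 * ρ / (η ^ 4 * z) * (3 * z / (T * ρ * η)) + T ^ 2 * ρ / (η ^ 4 * z) + 3 * z / (T * ρ * η) + 1 := by
      ring
    rw [h2, hab] at h1
    have h3 : (1 : ℝ) ≤ T * (1 / η ^ 5) := by
      calc (1 : ℝ) = 1 * 1 := by ring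
        _ ≤ T * (1 / η ^ 5) := mul_le_mul hT hη0 (by norm_num) hT0.le
    calc _ ≤ _ := h1
      _ ≤ 3 * T * (1 / η ^ 5) + T * (1 / η ^ 5) + 3 * (z / (T * ρ)) * (1 / η ^ 5) + T * (1 / η ^ 5) := by
          linarith
      _ = _ := by ring
  calc ρ * (20 * (2 / η ^ 4 * J * lam + 1) * (1 / √lam + 1))
      = (20 * ρ) * ((2 / η ^ 4 * J * lam + 1) * (1 / √lam + 1)) := by ring
    _ ≤ (20 * ρ) * ((5 * T + 3 * (z / (T * ρ))) * (1 / η ^ 5)) :=
        mul_le_mul_of_nonneg_left hprod (by positivity)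
    _ = (100 * (ρ * T) + 60 * (z / T)) * (1 / η ^ 5) := by
        field_simp
        ring
    _ ≤ (100 * (ρ * T) + 100 * (z / T)) * (1 / η ^ 5) := by
        refine mul_le_mul_of_nonneg_right ?_ (by positivity)
        have : 0 ≤ z / T := by positivity
        linarith
    _ = 100 / η ^ 5 * (ρ * T + z / T) := by ring

/-- A sum over `range N` split into residue classes. -/
private lemma Pair_split (G : ℕ → ℂ) (N r : ℕ) (hr : 1 ≤ r) {B : ℝ} (hB : 0 ≤ B)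
    (h : ∀ s, s < r → ∀ J, s + r * J < N → ‖∑ j ∈ range (J + 1), G (s + r * j)‖ ≤ B) :
    ‖∑ i ∈ range N, G i‖ ≤ r * B := by
  have hr0 : 0 < r := hr
  have h1 : ∑ i ∈ range N, G i = ∑ s ∈ range r, ∑ i ∈ (range N).filter (fun i => i % r = s), G i :=
    (Finset.sum_fiberwise_of_maps_to (fun i _ => mem_range.2 (Nat.mod_lt i hr0)) _).symm
  rw [h1]
  have h2 : ∀ s ∈ range r, ‖∑ i ∈ (range N).filter (fun i => i % r = s), G i‖ ≤ B := by
    intro s hs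
    have hs' := mem_range.1 hs
    by_cases hsN : s < N
    · have h3 : (range N).filter (fun i => i % r = s) =
          (range ((N - 1 - s) / r + 1)).image (fun j => s + r * j) := by
        ext i
        rw [mem_filter, mem_range, mem_image]
        constructor
        · rintro ⟨hi, hi2⟩
          refine ⟨i / r, mem_range.2 (Nat.lt_succ_of_le ?_), ?_⟩
          · rw [Nat.le_div_iff_mul_le hr0]
            have h4 := Nat.div_add_mod i r
            rw [hi2] at h4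
            rw [mul_comm]
            omega
          · have h4 := Nat.div_add_mod i r
            rw [hi2] at h4
            omega
        · rintro ⟨j, hj, rfl⟩
          have hj' := Nat.le_of_lt_succ (mem_range.1 hj)
          rw [Nat.le_div_iff_mul_le hr0, mul_comm] at hj'
          refine ⟨by omega, ?_⟩
          rw [Nat.add_mul_mod_self_left, Nat.mod_eq_of_lt hs']
      rw [h3, Finset.sum_image (fun a _ b _ hab => by
        have h4 : r * a = r * b := Nat.add_left_cancel hab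
        exact Nat.eq_of_mul_eq_mul_left hr0 h4)]
      refine h s hs' _ ?_
      have h4 : r * ((N - 1 - s) / r) ≤ N - 1 - s := Nat.mul_div_le _ _
      omega
    · have h3 : (range N).filter (fun i => i % r = s) = ∅ := by
        rw [Finset.filter_eq_empty_iff]
        intro i hi h4
        have h5 := mem_range.1 hi
        have h6 := Nat.mod_le i r
        omega
      rw [h3, Finset.sum_empty, norm_zero]
      exact hB
  calc _ ≤ ∑ s ∈ range r, ‖∑ i ∈ (range N).filter (fun i => i % r = s), G i‖ := norm_sum_le _ _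
    _ ≤ ∑ _s ∈ range r, B := Finset.sum_le_sum h2
    _ = r * B := by rw [Finset.sum_const, card_range, nsmul_eq_mul]

/-- Exponential sums with the phase `t log((y - x₁n)/(y - x₂n))`, `0 ≤ x₁ < x₂`, twisted by a fraction with
denominator `r`. -/
theorem pair_sum : ∃ C : ℝ, 0 < C ∧ ∀ (y t x₁ x₂ η θ : ℝ) (b : ℤ) (r n₀ n₁ : ℕ), 0 < y → 1 ≤ |t| → 0 ≤ x₁ → x₁ < x₂ →
    0 < η → η ≤ 1 / 2 → η * x₂ ≤ x₂ - x₁ → 1 ≤ r → θ = b / r → n₁ * x₂ ≤ (1 - η) * y →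
    ‖∑ n ∈ Ioc n₀ n₁, ee (n * θ) *
        cexp (I * ((t * (Real.log (y - x₁ * n) - Real.log (y - x₂ * n)) : ℝ) : ℂ))‖ ≤
      C / η ^ 5 * (r * √|t| + y / x₂ / √|t|) := by
  refine ⟨100, by norm_num, ?_⟩
  intro y t x₁ x₂ η θ b r n₀ n₁ hy ht hx1 hx hη hη1 hκ hr hθ hn
  have hx2 : 0 < x₂ := lt_of_le_of_lt hx1 hx
  have hr0 : (0 : ℝ) < r := by exact_mod_cast hr
  have hr1 : (1 : ℝ) ≤ r := by exact_mod_cast hr
  have hT1 : 1 ≤ √|t| := by rw [Real.one_le_sqrt]; exact ht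
  have hT0 : 0 < √|t| := by linarith
  have hTT : √|t| ^ 2 = |t| := Real.sq_sqrt (abs_nonneg t)
  have hz : 0 < y / x₂ := div_pos hy hx2
  have hη5 : (1 : ℝ) ≤ 1 / η ^ 5 := by
    rw [le_div_iff₀ (by positivity), one_mul]
    exact pow_le_one₀ hη.le (by linarith)
  have hC : (1 : ℝ) ≤ 100 / η ^ 5 := by
    have : 100 / η ^ 5 = 100 * (1 / η ^ 5) := by ring
    rw [this]
    linarith
  have hn1 : (n₁ : ℝ) ≤ y / x₂ := by
    rw [le_div_iff₀ hx2]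
    nlinarith
  have hterm : ∀ n : ℕ, ‖ee (n * θ) *
        cexp (I * ((t * (Real.log (y - x₁ * n) - Real.log (y - x₂ * n)) : ℝ) : ℂ))‖ = 1 := by
    intro n
    rw [norm_mul, norm_ee, one_mul, mul_comm, Complex.norm_exp_ofReal_mul_I]
  have hzT : 0 < y / x₂ / √|t| := div_pos hz hT0
  have hrT : 0 < (r : ℝ) * √|t| := mul_pos hr0 hT0
  rcases le_or_gt (y / x₂) (√|t| * r) with hcase | hcase
  · -- trivial bound
    have h1 : ‖∑ n ∈ Ioc n₀ n₁, ee (n * θ) *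
        cexp (I * ((t * (Real.log (y - x₁ * n) - Real.log (y - x₂ * n)) : ℝ) : ℂ))‖ ≤ n₁ := by
      refine (norm_sum_le _ _).trans ?_
      rw [Finset.sum_congr rfl fun n _ => hterm n, Finset.sum_const, Nat.card_Ioc, nsmul_eq_mul, mul_one]
      exact_mod_cast Nat.sub_le _ _
    have h2 : (n₁ : ℝ) ≤ r * √|t| + y / x₂ / √|t| := by
      have : √|t| * r = r * √|t| := mul_comm _ _
      linarith
    have h3 : (r : ℝ) * √|t| + y / x₂ / √|t| ≤ 100 / η ^ 5 * (r * √|t| + y / x₂ / √|t|) := by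
      have h4 : 0 ≤ (r : ℝ) * √|t| + y / x₂ / √|t| := by linarith
      have h5 := mul_le_mul_of_nonneg_right hC h4
      linarith
    linarith
  · rcases le_or_gt n₁ n₀ with hnn | hnn
    · rw [Finset.Ioc_eq_empty (by omega), Finset.sum_empty, norm_zero]
      have : 0 < 100 / η ^ 5 := by positivity
      exact (mul_pos this (by linarith)).le
    obtain ⟨G, hG⟩ : ∃ G : ℕ → ℂ, G = fun i => ee (((n₀ + 1 + i : ℕ) : ℝ) * θ) *
        cexp (I * ((t * (Real.log (y - x₁ * ((n₀ + 1 + i : ℕ) : ℝ)) -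
          Real.log (y - x₂ * ((n₀ + 1 + i : ℕ) : ℝ))) : ℝ) : ℂ)) := ⟨_, rfl⟩
    have hsum : ∑ n ∈ Ioc n₀ n₁, ee (n * θ) *
        cexp (I * ((t * (Real.log (y - x₁ * n) - Real.log (y - x₂ * n)) : ℝ) : ℂ)) =
        ∑ i ∈ range (n₁ - n₀), G i := by
      have h1 : Ioc n₀ n₁ = Ico (n₀ + 1) (n₁ + 1) := by
        ext i
        simp only [mem_Ioc, mem_Ico]
        omega
      rw [h1, Finset.sum_Ico_eq_sum_range, hG, show n₁ + 1 - (n₀ + 1) = n₁ - n₀ by omega]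
    rw [hsum]
    obtain ⟨κ, hκd⟩ : ∃ κ, κ = (x₂ - x₁) / x₂ := ⟨_, rfl⟩
    have hκ0 : η ≤ κ := by rw [hκd, le_div_iff₀ hx2]; exact hκ
    have hκ1 : κ ≤ 1 := by rw [hκd, div_le_one hx2]; linarith
    have hL : (r : ℝ) ^ 2 * (x₂ - x₁) * x₂ / y ^ 2 = (r : ℝ) ^ 2 * κ / (y / x₂) ^ 2 := by
      rw [hκd]
      field_simp
    obtain ⟨B, hB⟩ : ∃ B : ℝ, B = 20 * (2 / η ^ 4 * (y / x₂ / r) *
        (√|t| ^ 2 / (2 * Real.pi) * ((r : ℝ) ^ 2 * κ / (y / x₂) ^ 2)) + 1) *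
        (1 / √(√|t| ^ 2 / (2 * Real.pi) * ((r : ℝ) ^ 2 * κ / (y / x₂) ^ 2)) + 1) := ⟨_, rfl⟩
    have hκp : 0 < κ := by linarith
    have hB0 : 0 ≤ B := by rw [hB]; positivity
    have hnum := Pair_num (T := √|t|) (ρ := r) (z := y / x₂) (η := η) (κ := κ) (J := y / x₂ / r) hT1 hr1 hz hη hη1
      hκ0 hκ1 le_rfl hcase.le
    rw [← hB] at hnum
    refine le_trans (Pair_split G (n₁ - n₀) r hr hB0 ?_) hnum
    intro s hs J hJ
    have h1 : ∑ j ∈ range (J + 1), G (s + r * j) = ee (((n₀ + 1 + s : ℕ) : ℝ) * θ) *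
        ∑ j ∈ range (J + 1), cexp (I * ((t * (Real.log (y - x₁ * ((n₀ + 1 + s + r * j : ℕ) : ℝ)) -
          Real.log (y - x₂ * ((n₀ + 1 + s + r * j : ℕ) : ℝ))) : ℝ) : ℂ)) := by
      rw [Finset.mul_sum]
      refine Finset.sum_congr rfl fun j _ => ?_
      rw [hG]
      have h2 : n₀ + 1 + (s + r * j) = n₀ + 1 + s + r * j := by ring
      have h3 : ((n₀ + 1 + s + r * j : ℕ) : ℝ) * θ = ((n₀ + 1 + s : ℕ) : ℝ) * θ + (((j : ℤ) * b : ℤ) : ℝ) := by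
        rw [hθ]
        push_cast
        field_simp
      simp only [h2]
      rw [h3, ee_add_int]
    rw [h1, norm_mul, norm_ee, one_mul]
    have hle : (n₀ + 1 + s + r * J : ℕ) ≤ n₁ := by omega
    have hle' : ((n₀ + 1 + s + r * J : ℕ) : ℝ) ≤ n₁ := by exact_mod_cast hle
    have h2 := Pair_class (y := y) (t := t) (x₁ := x₁) (x₂ := x₂) (η := η) r (n₀ + 1 + s) J hy ht hx1 hx hη hη1 hr
      (le_trans (mul_le_mul_of_nonneg_right hle' hx2.le) hn)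
    refine h2.trans ?_
    rw [hL, hB, hTT]
    have hJz : (J : ℝ) ≤ y / x₂ / r := by
      rw [le_div_iff₀ hr0]
      have h3 : ((J : ℝ)) * r ≤ n₁ := by
        have h4 : J * r ≤ n₁ := by
          have := mul_comm r J
          omega
        exact_mod_cast h4
      linarith
    have hlam0 : 0 ≤ |t| / (2 * Real.pi) * ((r : ℝ) ^ 2 * κ / (y / x₂) ^ 2) := by positivity
    refine mul_le_mul_of_nonneg_right ?_ (by positivity)
    refine mul_le_mul_of_nonneg_left ?_ (by norm_num)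
    have h5 : 2 / η ^ 4 * (J : ℝ) ≤ 2 / η ^ 4 * (y / x₂ / r) := mul_le_mul_of_nonneg_left hJz (by positivity)
    have h6 := mul_le_mul_of_nonneg_right h5 hlam0
    linarith

end Pool.Agent.SInt
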