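import Pool.Agent.SInt.Defs

open Finset Complex
open scoped ArithmeticFunction.Moebius ArithmeticFunction.vonMangoldt

namespace Pool.Agent.SInt

open Pool.Agent.ANT

/-- Indicator of being prime to `d`. -/
noncomputable def zd (d : ℕ) : ArithmeticFunction ℂ :=
  ⟨fun n => if n = 0 then 0 else if n.Coprime d then 1 else 0, by simp⟩

/-- `μ` on `[1,U]`, prime to `d`. -/
noncomputable def Mdd (d U : ℕ) : ArithmeticFunction ℂ :=
  ⟨fun n => if n ≤ U ∧ n.Coprime d then muC n else 0, by simp [muC]⟩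

/-- `μ` beyond `U`, prime to `d`. -/
noncomputable def Hdd (d U : ℕ) : ArithmeticFunction ℂ :=
  ⟨fun n => if U < n ∧ n.Coprime d then muC n else 0, by simp⟩

/-- type I coefficient -/
noncomputable def aI (d U : ℕ) : ℕ → ℂ := fun m => (Mdd d U * Mdd d U) m
/-- type II coefficients -/
noncomputable def aII (d U : ℕ) : ℕ → ℂ := fun m => (Hdd d U * zd d) m
noncomputable def bII (d U : ℕ) : ℕ → ℂ := fun m => Hdd d U m

private lemma VauD_cop (d : ℕ) (f g : ArithmeticFunction ℂ) (F G : ArithmeticFunction ℂ)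
    (hF : ∀ n, F n = if n.Coprime d then f n else 0)
    (hG : ∀ n, G n = if n.Coprime d then g n else 0) (n : ℕ) :
    (F * G) n = if n.Coprime d then (f * g) n else 0 := by
  rw [ArithmeticFunction.mul_apply, ArithmeticFunction.mul_apply]
  split_ifs with h
  · refine Finset.sum_congr rfl fun p hp => ?_
    have h1 := (Nat.mem_divisorsAntidiagonal.mp hp).1
    have h2 : p.1.Coprime d := Nat.Coprime.coprime_dvd_left ⟨p.2, h1.symm⟩ h
    have h3 : p.2.Coprime d := Nat.Coprime.coprime_dvd_left ⟨p.1, by rw [mul_comm]; exact h1.symm⟩ h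
    rw [hF, hG, if_pos h2, if_pos h3]
  · refine Finset.sum_eq_zero fun p hp => ?_
    have h1 := (Nat.mem_divisorsAntidiagonal.mp hp).1
    rw [hF, hG]
    by_cases h2 : p.1.Coprime d
    · by_cases h3 : p.2.Coprime d
      · exact absurd (by rw [← h1]; exact Nat.Coprime.mul_left h2 h3) h
      · rw [if_neg h3, mul_zero]
    · rw [if_neg h2, zero_mul]

private lemma VauD_zd (d n : ℕ) : zd d n = if n.Coprime d then (ArithmeticFunction.zeta : ArithmeticFunction ℂ) n else 0 := by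
  have h0 : zd d n = if n = 0 then 0 else if n.Coprime d then 1 else 0 := rfl
  rw [h0]
  by_cases hn : n = 0
  · subst hn
    rw [if_pos rfl, ArithmeticFunction.map_zero]
    split_ifs <;> rfl
  · rw [if_neg hn]
    split_ifs
    · simp [hn]
    · rfl

private lemma VauD_M (d U n : ℕ) : Mdd d U n = if n ≤ U ∧ n.Coprime d then muC n else 0 := rfl
private lemma VauD_H (d U n : ℕ) : Hdd d U n = if U < n ∧ n.Coprime d then muC n else 0 := rfl

private lemma VauD_MH (d U n : ℕ) : (Mdd d U + Hdd d U) n =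
    if n.Coprime d then ((μ : ArithmeticFunction ℤ) : ArithmeticFunction ℂ) n else 0 := by
  rw [ArithmeticFunction.add_apply, VauD_M, VauD_H, ArithmeticFunction.intCoe_apply]
  unfold muC
  rcases le_or_gt n U with h | h
  · have h' : ¬ U < n := by omega
    simp [h, h']
  · have h' : ¬ n ≤ U := by omega
    simp [h, h']

private lemma VauD_inv (d U : ℕ) (hd : 1 ≤ d) : (Mdd d U + Hdd d U) * zd d = 1 := by
  ext n
  rw [VauD_cop d ((μ : ArithmeticFunction ℤ) : ArithmeticFunction ℂ) (ArithmeticFunction.zeta : ArithmeticFunction ℂ) _ _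
    (VauD_MH d U) (VauD_zd d) n, ArithmeticFunction.coe_moebius_mul_coe_zeta, ArithmeticFunction.one_apply]
  by_cases hn : n = 1
  · subst hn
    simp
  · simp [hn]

private lemma VauD_id (d U : ℕ) (hd : 1 ≤ d) : Mdd d U + Hdd d U =
    Mdd d U + Mdd d U - (Mdd d U * Mdd d U) * zd d + (Hdd d U * zd d) * Hdd d U := by
  have h2 := VauD_inv d U hd
  linear_combination (Mdd d U - Hdd d U) * h2

theorem vaughan_d (d U k : ℕ) (hd : 1 ≤ d) (hk : 1 ≤ k) :
    muC (d * k) = muC d * (2 * Mdd d U k - cv (aI d U) (zd d) k + cv (aII d U) (bII d U) k) := by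
  have h := congrArg (fun f : ArithmeticFunction ℂ => f k) (VauD_id d U hd)
  have h1 : (Mdd d U + Mdd d U - (Mdd d U * Mdd d U) * zd d + (Hdd d U * zd d) * Hdd d U) k =
      2 * Mdd d U k - cv (aI d U) (zd d) k + cv (aII d U) (bII d U) k := by
    have h3 : cv (aI d U) (zd d) k = ((Mdd d U * Mdd d U) * zd d) k := by
      rw [ArithmeticFunction.mul_apply]
      rfl
    have h4 : cv (aII d U) (bII d U) k = ((Hdd d U * zd d) * Hdd d U) k := by
      rw [ArithmeticFunction.mul_apply]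
      rfl
    rw [h3, h4, two_mul]
    rfl
  rw [← h1, ← VauD_id d U hd, VauD_MH, Pool.Agent.DEH.muC_mul']
  split_ifs
  · rw [ArithmeticFunction.intCoe_apply]
    rfl
  · simp

theorem norm_Mdd_le (d U n : ℕ) : ‖Mdd d U n‖ ≤ 1 := by
  rw [VauD_M]
  split_ifs
  · exact norm_muC_le n
  · simp

private lemma VauD_Hle (d U n : ℕ) : ‖Hdd d U n‖ ≤ 1 := by
  rw [VauD_H]
  split_ifs
  · exact norm_muC_le n
  · simp

private lemma VauD_zle (d n : ℕ) : ‖zd d n‖ ≤ 1 := by
  have h0 : zd d n = if n = 0 then 0 else if n.Coprime d then 1 else 0 := rfl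
  rw [h0]
  split_ifs <;> simp

theorem norm_aI_le (d U n : ℕ) : ‖aI d U n‖ ≤ tauR n := by
  unfold aI
  rw [ArithmeticFunction.mul_apply, tauR_eq_sum]
  refine (norm_sum_le _ _).trans (Finset.sum_le_sum fun p _ => ?_)
  rw [norm_mul]
  exact mul_le_one₀ (norm_Mdd_le _ _ _) (norm_nonneg _) (norm_Mdd_le _ _ _)

theorem aI_zero {d U n : ℕ} (h : U * U < n) : aI d U n = 0 := by
  unfold aI
  rw [ArithmeticFunction.mul_apply]
  refine Finset.sum_eq_zero fun p hp => ?_
  have h1 := (Nat.mem_divisorsAntidiagonal.mp hp).1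
  rw [VauD_M, VauD_M]
  by_cases h2 : p.1 ≤ U
  · by_cases h3 : p.2 ≤ U
    · exfalso
      have := Nat.mul_le_mul h2 h3
      omega
    · simp [h3]
  · simp [h2]

theorem norm_aII_le (d U n : ℕ) : ‖aII d U n‖ ≤ tauR n := by
  unfold aII
  rw [ArithmeticFunction.mul_apply, tauR_eq_sum]
  refine (norm_sum_le _ _).trans (Finset.sum_le_sum fun p _ => ?_)
  rw [norm_mul]
  exact mul_le_one₀ (VauD_Hle _ _ _) (norm_nonneg _) (VauD_zle _ _)

theorem aII_zero {d U n : ℕ} (h : n ≤ U) : aII d U n = 0 := by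
  unfold aII
  rw [ArithmeticFunction.mul_apply]
  refine Finset.sum_eq_zero fun p hp => ?_
  have h1 := (Nat.mem_divisorsAntidiagonal.mp hp)
  have : p.1 ≤ n := Nat.le_of_dvd (Nat.pos_of_ne_zero h1.2) ⟨p.2, h1.1.symm⟩
  have h2 : ¬ U < p.1 := by omega
  rw [VauD_H]
  simp [h2]

theorem norm_bII_le (d U n : ℕ) : ‖bII d U n‖ ≤ 1 := VauD_Hle d U n

theorem bII_zero {d U n : ℕ} (h : n ≤ U) : bII d U n = 0 := by
  unfold bII
  have h2 : ¬ U < n := by omega
  rw [VauD_H]
  simp [h2]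

theorem zd_eq {d n : ℕ} (hd : 1 ≤ d) (hn : 1 ≤ n) :
    zd d n = ∑ e ∈ d.divisors, if e ∣ n then muC e else 0 := by
  rw [← Finset.sum_filter]
  have h1 : d.divisors.filter (fun e => e ∣ n) = (Nat.gcd n d).divisors := by
    ext e
    rw [Finset.mem_filter, Nat.mem_divisors, Nat.mem_divisors, Nat.dvd_gcd_iff]
    have h2 : Nat.gcd n d ≠ 0 := by
      intro h
      rw [Nat.gcd_eq_zero_iff] at h
      omega
    constructor
    · rintro ⟨⟨h3, h4⟩, h5⟩
      exact ⟨⟨h5, h3⟩, h2⟩
    · rintro ⟨⟨h3, h4⟩, h5⟩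
      exact ⟨⟨h4, by omega⟩, h3⟩
  rw [h1]
  have h3 : ∑ e ∈ (Nat.gcd n d).divisors, muC e = ((∑ e ∈ (Nat.gcd n d).divisors, μ e : ℤ) : ℂ) := by
    push_cast
    rfl
  rw [h3, ← ArithmeticFunction.coe_mul_zeta_apply, ArithmeticFunction.moebius_mul_coe_zeta,
    ArithmeticFunction.one_apply]
  have h0 : zd d n = if n = 0 then 0 else if n.Coprime d then 1 else 0 := rfl
  rw [h0, if_neg (by omega)]
  unfold Nat.Coprime
  split_ifs <;> simp

/-- Type I part: `cv (aI) (zd)` as a sum over the divisors `me`. -/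
theorem typeI_expand (d U k : ℕ) (hd : 1 ≤ d) (hk : 1 ≤ k) :
    cv (aI d U) (zd d) k =
      ∑ m ∈ Icc 1 (U * U), ∑ e ∈ d.divisors, if m * e ∣ k then aI d U m * muC e else 0 := by
  unfold cv
  rw [Nat.sum_divisorsAntidiagonal (fun a b => aI d U a * zd d b)]
  have h1 : ∀ m ∈ k.divisors, aI d U m * zd d (k / m) =
      ∑ e ∈ d.divisors, if m * e ∣ k then aI d U m * muC e else 0 := by
    intro m hm
    have hm1 := Nat.dvd_of_mem_divisors hm
    have hm2 : 0 < m := Nat.pos_of_mem_divisors hm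
    have hm3 : 1 ≤ k / m := (Nat.one_le_div_iff hm2).mpr (Nat.le_of_dvd (by omega) hm1)
    rw [zd_eq hd hm3, Finset.mul_sum]
    refine Finset.sum_congr rfl fun e _ => ?_
    have h2 : e ∣ k / m ↔ m * e ∣ k := by
      rw [Nat.dvd_div_iff_mul_dvd hm1]
    by_cases h3 : m * e ∣ k
    · rw [if_pos h3, if_pos (h2.mpr h3)]
    · rw [if_neg h3, if_neg (fun h => h3 (h2.mp h)), mul_zero]
  rw [Finset.sum_congr rfl h1]
  have h4 : ∀ m, m ∉ k.divisors →
      (∑ e ∈ d.divisors, if m * e ∣ k then aI d U m * muC e else 0) = 0 := by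
    intro m hm
    refine Finset.sum_eq_zero fun e _ => ?_
    rw [if_neg]
    intro h
    exact hm (Nat.mem_divisors.mpr ⟨dvd_trans (dvd_mul_right m e) h, by omega⟩)
  have h5 : ∀ m, m ∉ Icc 1 (U * U) → m ≠ 0 →
      (∑ e ∈ d.divisors, if m * e ∣ k then aI d U m * muC e else 0) = 0 := by
    intro m hm hm0
    refine Finset.sum_eq_zero fun e _ => ?_
    have : U * U < m := by
      by_contra hcon
      exact hm (Finset.mem_Icc.mpr ⟨by omega, by omega⟩)
    rw [aI_zero this]
    simp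
  rw [Finset.sum_subset (Finset.subset_union_left (s₁ := k.divisors) (s₂ := Icc 1 (U * U)))
    (fun m _ hm => h4 m hm)]
  symm
  refine Finset.sum_subset (Finset.subset_union_right) ?_
  intro m hm hm'
  refine h5 m hm' ?_
  rintro rfl
  rcases Finset.mem_union.mp hm with h | h
  · exact absurd (Nat.pos_of_mem_divisors h) (lt_irrefl _)
  · exact hm' h

end Pool.Agent.SInt
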