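import Pool.Agent.SInt.Defs

open Finset Complex
open scoped ArithmeticFunction.Moebius ArithmeticFunction.vonMangoldt

namespace Pool.Agent.SInt

open Pool.Agent.ANT

/-- `Λ` on `[1,U]` -/
noncomputable def LoL (U : ℕ) : ArithmeticFunction ℂ :=
  ⟨fun n => if n ≤ U then ((Λ n : ℝ) : ℂ) else 0, by simp⟩

/-- `Λ` beyond `U` -/
noncomputable def HiL (U : ℕ) : ArithmeticFunction ℂ :=
  ⟨fun n => if U < n then ((Λ n : ℝ) : ℂ) else 0, by simp⟩

/-- type I coefficient (second kind) -/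
noncomputable def aL (U : ℕ) : ℕ → ℂ := fun m => (Mf U * LoL U) m
/-- type II coefficient -/
noncomputable def bL (U : ℕ) : ℕ → ℂ := fun n => (HiL U * (ArithmeticFunction.zeta : ArithmeticFunction ℂ)) n

/-- the von Mangoldt function as a complex arithmetic function -/
private noncomputable def vauLL : ArithmeticFunction ℂ :=
  ⟨fun n => ((Λ n : ℝ) : ℂ), by simp⟩

private noncomputable def vauLg : ArithmeticFunction ℂ :=
  ⟨fun n => ((Real.log n : ℝ) : ℂ), by simp⟩

private lemma vauL_Lo (U n : ℕ) : LoL U n = if n ≤ U then ((Λ n : ℝ) : ℂ) else 0 := rfl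
private lemma vauL_Hi (U n : ℕ) : HiL U n = if U < n then ((Λ n : ℝ) : ℂ) else 0 := rfl

private lemma vauL_add (U : ℕ) : LoL U + HiL U = vauLL := by
  ext n
  rw [ArithmeticFunction.add_apply, vauL_Lo, vauL_Hi]
  show _ = ((Λ n : ℝ) : ℂ)
  rcases le_or_gt n U with h | h
  · rw [if_pos h, if_neg (by omega), add_zero]
  · rw [if_neg (by omega), if_pos h, zero_add]

private lemma vauL_zeta : vauLL * (ArithmeticFunction.zeta : ArithmeticFunction ℂ) = vauLg := by
  ext n
  rw [ArithmeticFunction.coe_mul_zeta_apply]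
  show ∑ i ∈ n.divisors, ((Λ i : ℝ) : ℂ) = ((Real.log n : ℝ) : ℂ)
  rw [← ArithmeticFunction.vonMangoldt_sum, Complex.ofReal_sum]

private lemma vauL_id (U : ℕ) : vauLL = LoL U + Mf U * vauLg
    - (Mf U * LoL U) * (ArithmeticFunction.zeta : ArithmeticFunction ℂ)
    + Hf U * (HiL U * (ArithmeticFunction.zeta : ArithmeticFunction ℂ)) := by
  have h1 := Mf_add_Hf U
  have h2 : ((μ : ArithmeticFunction ℤ) : ArithmeticFunction ℂ) *
      (ArithmeticFunction.zeta : ArithmeticFunction ℂ) = 1 :=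
    ArithmeticFunction.coe_moebius_mul_coe_zeta
  have h3 := vauL_add U
  have h4 := vauL_zeta
  rw [← h4, ← h3]
  rw [← h1] at h2
  linear_combination (-(HiL U)) * h2

/-- Vaughan's identity for `Λ`. -/
theorem vaughan_L (U n : ℕ) (hn : 1 ≤ n) :
    ((Λ n : ℝ) : ℂ) = LoL U n + cv (fun m => Mf U m) (fun l => ((Real.log l ^ 1 : ℝ) : ℂ)) n
      - cv (aL U) (fun l => ((Real.log l ^ 0 : ℝ) : ℂ)) n + cv (fun m => Hf U m) (bL U) n := by
  have h := congrArg (fun f : ArithmeticFunction ℂ => f n) (vauL_id U)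
  have h0 : vauLL n = ((Λ n : ℝ) : ℂ) := rfl
  have h' : vauLL n = LoL U n + (Mf U * vauLg) n
    - ((Mf U * LoL U) * (ArithmeticFunction.zeta : ArithmeticFunction ℂ)) n
    + (Hf U * (HiL U * (ArithmeticFunction.zeta : ArithmeticFunction ℂ))) n := h
  rw [← h0, h']
  have e1 : (Mf U * vauLg) n = cv (fun m => Mf U m) (fun l => ((Real.log l ^ 1 : ℝ) : ℂ)) n := by
    rw [ArithmeticFunction.mul_apply]
    unfold cv
    refine Finset.sum_congr rfl fun p _ => ?_
    show Mf U p.1 * ((Real.log p.2 : ℝ) : ℂ) = _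
    simp
  have e2 : ((Mf U * LoL U) * (ArithmeticFunction.zeta : ArithmeticFunction ℂ)) n =
      cv (aL U) (fun l => ((Real.log l ^ 0 : ℝ) : ℂ)) n := by
    rw [ArithmeticFunction.mul_apply]
    unfold cv
    refine Finset.sum_congr rfl fun p hp => ?_
    have h4 := Nat.ne_zero_of_mem_divisorsAntidiagonal hp
    simp [aL, h4.2]
  have e3 : (Hf U * (HiL U * (ArithmeticFunction.zeta : ArithmeticFunction ℂ))) n =
      cv (fun m => Hf U m) (bL U) n := by
    rw [ArithmeticFunction.mul_apply]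
    rfl
  rw [e1, e2, e3]

theorem norm_aL_le (U m : ℕ) : ‖aL U m‖ ≤ Real.log m := by
  unfold aL
  have h0 : ∑ p ∈ m.divisorsAntidiagonal, Λ p.2 = ∑ i ∈ m.divisors, Λ i :=
    Nat.sum_divisorsAntidiagonal' (fun _ j => Λ j)
  rw [ArithmeticFunction.mul_apply, ← ArithmeticFunction.vonMangoldt_sum, ← h0]
  refine (norm_sum_le _ _).trans (Finset.sum_le_sum fun p _ => ?_)
  rw [norm_mul]
  have h1 := norm_Mf_le U p.1
  have h2 : ‖LoL U p.2‖ ≤ Λ p.2 := by
    rw [vauL_Lo]
    split_ifs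
    · rw [Complex.norm_real, Real.norm_of_nonneg ArithmeticFunction.vonMangoldt_nonneg]
    · simpa using ArithmeticFunction.vonMangoldt_nonneg
  calc ‖Mf U p.1‖ * ‖LoL U p.2‖ ≤ 1 * Λ p.2 := by gcongr
    _ = Λ p.2 := one_mul _

theorem aL_zero {U m : ℕ} (h : U * U < m) : aL U m = 0 := by
  unfold aL
  rw [ArithmeticFunction.mul_apply]
  refine Finset.sum_eq_zero fun p hp => ?_
  have h1 := (Nat.mem_divisorsAntidiagonal.mp hp).1
  rw [Mf_apply, vauL_Lo]
  split_ifs with h2 h3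
  · exfalso
    have := Nat.mul_le_mul h2 h3
    omega
  all_goals simp

theorem norm_bL_le (U n : ℕ) : ‖bL U n‖ ≤ Real.log n := by
  unfold bL
  rw [ArithmeticFunction.coe_mul_zeta_apply, ← ArithmeticFunction.vonMangoldt_sum]
  refine (norm_sum_le _ _).trans (Finset.sum_le_sum fun p _ => ?_)
  rw [vauL_Hi]
  split_ifs
  · rw [Complex.norm_real, Real.norm_of_nonneg ArithmeticFunction.vonMangoldt_nonneg]
  · simp [ArithmeticFunction.vonMangoldt_nonneg]

theorem bL_zero {U n : ℕ} (h : n ≤ U) : bL U n = 0 := by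
  unfold bL
  rw [ArithmeticFunction.coe_mul_zeta_apply]
  refine Finset.sum_eq_zero fun p hp => ?_
  have h1 := Nat.mem_divisors.mp hp
  have : p ≤ n := Nat.le_of_dvd (Nat.pos_of_ne_zero h1.2) h1.1
  rw [vauL_Hi, if_neg (by omega)]

end Pool.Agent.SInt
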