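import Pool.Agent.SInt.Defs
import Pool.Agent.DEH.Count

open Finset Complex
open scoped ArithmeticFunction.Moebius ArithmeticFunction.vonMangoldt

namespace Pool.Agent.SInt

open Pool.Agent.ANT

theorem log_pow_le_exp (a : ℕ) {ε : ℝ} (hε : 0 < ε) : ∃ X₀ : ℕ, ∀ X : ℕ, X₀ ≤ X →
    Real.log X ^ a ≤ Real.exp ((Real.log X) ^ ε) := by
  have h1 : Filter.Tendsto (fun X : ℕ => Real.log X) Filter.atTop Filter.atTop :=
    Real.tendsto_log_atTop.comp tendsto_natCast_atTop_atTop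
  have h2 : ∀ᶠ L : ℝ in Filter.atTop, Real.log L * (a + 1) ≤ L ^ ε := by
    have h3 := (isLittleO_log_rpow_atTop hε).bound (show (0:ℝ) < 1 / (a + 1) by positivity)
    filter_upwards [h3, Filter.eventually_ge_atTop 1] with L hL hL1
    rw [Real.norm_eq_abs, Real.norm_eq_abs, abs_of_nonneg (Real.log_nonneg hL1),
      abs_of_nonneg (Real.rpow_nonneg (by linarith) _)] at hL
    have h4 : (0:ℝ) < a + 1 := by positivity
    calc Real.log L * (a + 1) ≤ 1 / (a + 1) * L ^ ε * (a + 1) := by gcongr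
      _ = L ^ ε := by field_simp
  have h5 := (h1.eventually (h2.and (Filter.eventually_ge_atTop 1)))
  obtain ⟨X₀, hX₀⟩ := Filter.eventually_atTop.1 h5
  refine ⟨X₀, fun X hX => ?_⟩
  obtain ⟨h6, h7⟩ := hX₀ X hX
  have h8 : 0 < Real.log X := by linarith
  have h9 : 0 ≤ Real.log (Real.log X) := Real.log_nonneg h7
  calc Real.log X ^ a = Real.exp (Real.log (Real.log X) * a) := by
        rw [mul_comm, Real.exp_nat_mul, Real.exp_log h8]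
    _ ≤ Real.exp (Real.log X ^ ε) := by
        apply Real.exp_le_exp.2
        nlinarith

theorem const_log_pow_le (C : ℝ) (a : ℕ) {δ : ℝ} (hδ : 0 < δ) : ∃ X₀ : ℕ, ∀ X : ℕ, X₀ ≤ X →
    C * Real.log X ^ a ≤ (X : ℝ) ^ δ := by
  have h1 := Pool.Agent.DEH.eventually_log_pow_le a (show (0:ℝ) < δ / 2 by positivity)
  have h2 : Filter.Tendsto (fun n : ℕ => (n:ℝ) ^ (δ/2)) Filter.atTop Filter.atTop :=
    (tendsto_rpow_atTop (by positivity)).comp tendsto_natCast_atTop_atTop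
  obtain ⟨X₀, hX₀⟩ := Filter.eventually_atTop.1
    (h1.and ((h2.eventually_ge_atTop |C|).and (Filter.eventually_ge_atTop 1)))
  refine ⟨X₀, fun X hX => ?_⟩
  obtain ⟨h3, h4, h5⟩ := hX₀ X hX
  have hX0 : (0:ℝ) < X := by exact_mod_cast h5
  have hl : 0 ≤ Real.log X ^ a := pow_nonneg (Real.log_natCast_nonneg X) a
  calc C * Real.log X ^ a ≤ |C| * Real.log X ^ a := by gcongr; exact le_abs_self C
    _ ≤ (X:ℝ) ^ (δ/2) * (X:ℝ) ^ (δ/2) := by gcongr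
    _ = (X:ℝ) ^ δ := by rw [← Real.rpow_add hX0]; congr 1; ring

/-- Basic size facts, valid for all large `X`. -/
theorem win_facts (ε : ℝ) (hε : 0 < ε) (B : ℕ) : ∃ X₀ : ℕ, ∀ X : ℕ, X₀ ≤ X → ∀ W : ℕ, Win ε X W →
    1 ≤ W ∧ 4 * W ≤ X ∧ X ≤ W ^ 2 ∧ 1 ≤ RR B X ∧ Real.log X ^ B ≤ RR B X ∧
      (RR B X : ℝ) ≤ 2 * Real.log X ^ B ∧ (RR B X) ^ 4 ≤ DD B X W ∧ DD B X W * (RR B X) ^ 2 ≤ W ∧
      1 ≤ DD B X W ∧ DD B X W ≤ W ∧ (X : ℝ) ^ (1 / 2 + ε / 2) ≤ DD B X W ∧ 2 * X + DD B X W ≤ 32 * X := by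
  obtain ⟨X1, hX1⟩ := const_log_pow_le 4 0 (show (0:ℝ) < 1 / 4 by norm_num)
  obtain ⟨X2, hX2⟩ := const_log_pow_le 64 (6 * B) (show (0:ℝ) < 1 / 2 by norm_num)
  obtain ⟨X3, hX3⟩ := const_log_pow_le 8 (2 * B) (show (0:ℝ) < ε / 2 by positivity)
  refine ⟨max (max X1 X2) (max X3 3), fun X hX W hW => ?_⟩
  obtain ⟨hW1, hW2⟩ := hW
  have hXa : X1 ≤ X := le_trans (le_trans (le_max_left _ _) (le_max_left _ _)) hX
  have hXb : X2 ≤ X := le_trans (le_trans (le_max_right _ _) (le_max_left _ _)) hX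
  have hXc : X3 ≤ X := le_trans (le_trans (le_max_left _ _) (le_max_right _ _)) hX
  have hXd : 3 ≤ X := le_trans (le_trans (le_max_right _ _) (le_max_right _ _)) hX
  have h1 := hX1 X hXa
  have h2 := hX2 X hXb
  have h3 := hX3 X hXc
  have hX3' : (3:ℝ) ≤ X := by exact_mod_cast hXd
  have hX1' : (1:ℝ) ≤ X := by linarith
  have hX0 : (0:ℝ) < X := by linarith
  have hL1 : 1 ≤ Real.log X := one_le_log hX3'
  have hLB : 1 ≤ Real.log X ^ B := one_le_pow₀ hL1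
  rw [pow_zero, mul_one] at h1
  have hWlow : (X:ℝ) ^ (1 / 2 : ℝ) ≤ W :=
    le_trans (Real.rpow_le_rpow_of_exponent_le hX1' (by linarith)) hW1
  have hW1r : (1:ℝ) ≤ W := le_trans (Real.one_le_rpow hX1' (by norm_num)) hWlow
  have hWn : 1 ≤ W := by exact_mod_cast hW1r
  have h4W : (4:ℝ) * W ≤ X := by
    calc (4:ℝ) * W ≤ (X:ℝ) ^ (1 / 4 : ℝ) * (X:ℝ) ^ (3 / 4 : ℝ) := by gcongr
      _ = X := by
        rw [← Real.rpow_add hX0]
        norm_num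
  have h4Wn : 4 * W ≤ X := by exact_mod_cast h4W
  have hWW : (X:ℝ) ≤ (W:ℝ) ^ 2 := by
    calc (X:ℝ) = (X:ℝ) ^ (1 / 2 : ℝ) * (X:ℝ) ^ (1 / 2 : ℝ) := by
          rw [← Real.rpow_add hX0]
          norm_num
      _ ≤ W * W := by gcongr
      _ = (W:ℝ) ^ 2 := by ring
  have hWWn : X ≤ W ^ 2 := by exact_mod_cast hWW
  have hR1 : Real.log X ^ B ≤ RR B X := Nat.le_ceil _
  have hR2 : (RR B X : ℝ) ≤ 2 * Real.log X ^ B := by
    have := (Nat.ceil_lt_add_one (show 0 ≤ Real.log X ^ B by linarith)).le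
    unfold RR
    linarith
  have hR3 : 1 ≤ RR B X := by
    have : (1:ℝ) ≤ RR B X := le_trans hLB hR1
    exact_mod_cast this
  have hR0 : (1:ℝ) ≤ RR B X := by exact_mod_cast hR3
  have hR6 : (RR B X : ℝ) ^ 6 ≤ W := by
    calc (RR B X : ℝ) ^ 6 ≤ (2 * Real.log X ^ B) ^ 6 := by gcongr
      _ = 64 * Real.log X ^ (6 * B) := by
        rw [mul_pow, ← pow_mul, mul_comm B 6]
        norm_num
      _ ≤ (X:ℝ) ^ (1 / 2 : ℝ) := h2
      _ ≤ W := hWlow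
  have hR6n : RR B X ^ 4 * RR B X ^ 2 ≤ W := by
    have : RR B X ^ 6 ≤ W := by exact_mod_cast hR6
    calc RR B X ^ 4 * RR B X ^ 2 = RR B X ^ 6 := by ring
      _ ≤ W := this
  have hR2pos : 0 < RR B X ^ 2 := by positivity
  have hD4 : RR B X ^ 4 ≤ DD B X W := (Nat.le_div_iff_mul_le hR2pos).2 hR6n
  have hD1 : 1 ≤ DD B X W := le_trans (Nat.one_le_pow _ _ hR3) hD4
  have hDW : DD B X W ≤ W := Nat.div_le_self _ _
  refine ⟨hWn, h4Wn, hWWn, hR3, hR1, hR2, hD4, Nat.div_mul_le_self _ _, hD1, hDW, ?_, by omega⟩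
  have hDr : (W:ℝ) ≤ 2 * ((RR B X : ℝ) ^ 2 * DD B X W) := by
    have h5 : W < RR B X ^ 2 * (DD B X W + 1) := by
      have := Nat.lt_mul_div_succ W hR2pos
      exact this
    have h6 : (W:ℝ) < (RR B X : ℝ) ^ 2 * (DD B X W + 1) := by exact_mod_cast h5
    have h7 : (1:ℝ) ≤ DD B X W := by exact_mod_cast hD1
    have h8 : (0:ℝ) < (RR B X : ℝ) ^ 2 := by positivity
    nlinarith
  have hR2sq : (RR B X : ℝ) ^ 2 ≤ 4 * Real.log X ^ (2 * B) := by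
    calc (RR B X : ℝ) ^ 2 ≤ (2 * Real.log X ^ B) ^ 2 := by gcongr
      _ = 4 * Real.log X ^ (2 * B) := by
        rw [mul_pow, ← pow_mul, mul_comm B 2]
        norm_num
  have h9 : (X:ℝ) ^ (1 / 2 + ε) = (X:ℝ) ^ (1 / 2 + ε / 2) * (X:ℝ) ^ (ε / 2) := by
    rw [← Real.rpow_add hX0]
    congr 1
    ring
  have h10 : (X:ℝ) ^ (1 / 2 + ε / 2) * (X:ℝ) ^ (ε / 2) ≤ (X:ℝ) ^ (ε / 2) * DD B X W := by
    calc (X:ℝ) ^ (1 / 2 + ε / 2) * (X:ℝ) ^ (ε / 2) = (X:ℝ) ^ (1 / 2 + ε) := h9.symm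
      _ ≤ W := hW1
      _ ≤ 2 * ((RR B X : ℝ) ^ 2 * DD B X W) := hDr
      _ ≤ 2 * (4 * Real.log X ^ (2 * B) * DD B X W) := by gcongr
      _ = 8 * Real.log X ^ (2 * B) * DD B X W := by ring
      _ ≤ (X:ℝ) ^ (ε / 2) * DD B X W := by gcongr
  have h11 : 0 < (X:ℝ) ^ (ε / 2) := Real.rpow_pos_of_pos hX0 _
  rw [mul_comm] at h10
  exact le_of_mul_le_mul_left h10 h11

theorem md_facts (ε : ℝ) (hε : 0 < ε) (a : ℕ) : ∃ X₀ : ℕ, ∀ X : ℕ, X₀ ≤ X → ∀ Q : ℕ, Md ε X Q →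
    Q ≤ X ∧ Real.log X ^ a ≤ (X : ℝ) / Q ∧ (4 * (X : ℝ) / Q ≤ KK X Q) ∧ ((KK X Q : ℝ) ≤ 5 * X / Q) ∧
      (∀ q ∈ Ico Q (2 * Q), q * KK X Q ≤ 10 * X) ∧ Real.log (KK X Q) ≤ 2 * Real.log X := by
  obtain ⟨X1, hX1⟩ := log_pow_le_exp a hε
  refine ⟨max X1 5, fun X hX Q hQ => ?_⟩
  obtain ⟨hQ1, hQ2⟩ := hQ
  have h1 := hX1 X (le_trans (le_max_left _ _) hX)
  have hX5 : 5 ≤ X := le_trans (le_max_right _ _) hX
  have hX5' : (5:ℝ) ≤ X := by exact_mod_cast hX5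
  have hX0 : (0:ℝ) < X := by linarith
  have hQ0 : (0:ℝ) < Q := by exact_mod_cast hQ1
  have hQ1' : (1:ℝ) ≤ Q := by exact_mod_cast hQ1
  have hl : 0 ≤ Real.log X := Real.log_natCast_nonneg X
  have hexp : Real.exp (-(Real.log X) ^ ε) ≤ 1 := by
    rw [Real.exp_le_one_iff]
    have := Real.rpow_nonneg hl ε
    linarith
  have hQX : (Q:ℝ) ≤ X := le_trans hQ2 (mul_le_of_le_one_right hX0.le hexp)
  have hQXn : Q ≤ X := by exact_mod_cast hQX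
  have hXQ1 : (1:ℝ) ≤ X / Q := by rwa [le_div_iff₀ hQ0, one_mul]
  have hK1 : 4 * (X : ℝ) / Q ≤ KK X Q := by
    rw [div_le_iff₀ hQ0]
    have h2 : 4 * X < Q * (4 * X / Q + 1) := Nat.lt_mul_div_succ _ hQ1
    have h3 : 4 * X ≤ KK X Q * Q := by
      unfold KK
      exact h2.le.trans (Nat.mul_comm _ _).le
    exact_mod_cast h3
  have hK2 : (KK X Q : ℝ) ≤ 5 * X / Q := by
    have h2 : ((4 * X / Q : ℕ) : ℝ) ≤ (4 * X : ℕ) / (Q : ℝ) := Nat.cast_div_le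
    unfold KK
    push_cast at h2 ⊢
    have h3 : 5 * (X:ℝ) / Q = 4 * X / Q + X / Q := by ring
    rw [h3]
    linarith
  refine ⟨hQXn, ?_, hK1, hK2, ?_, ?_⟩
  · refine h1.trans ?_
    rw [le_div_iff₀ hQ0]
    calc Real.exp (Real.log X ^ ε) * Q
        ≤ Real.exp (Real.log X ^ ε) * (X * Real.exp (-(Real.log X) ^ ε)) := by gcongr
      _ = X * (Real.exp (Real.log X ^ ε) * Real.exp (-(Real.log X) ^ ε)) := by ring
      _ = X := by rw [← Real.exp_add, add_neg_cancel, Real.exp_zero, mul_one]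
  · intro q hq
    have hq2 : q < 2 * Q := (mem_Ico.1 hq).2
    have h2 : Q * (4 * X / Q) ≤ 4 * X := Nat.mul_div_le _ _
    unfold KK
    calc q * (4 * X / Q + 1) ≤ 2 * Q * (4 * X / Q + 1) := Nat.mul_le_mul_right _ hq2.le
      _ = 2 * (Q * (4 * X / Q)) + 2 * Q := by ring
      _ ≤ 2 * (4 * X) + 2 * X := by omega
      _ = 10 * X := by ring
  · have hKpos : (0:ℝ) < KK X Q := by unfold KK; positivity
    have h2 : (KK X Q : ℝ) ≤ (X:ℝ) ^ 2 := by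
      calc (KK X Q : ℝ) ≤ 5 * X / Q := hK2
        _ ≤ 5 * X := div_le_self (by positivity) hQ1'
        _ ≤ (X:ℝ) ^ 2 := by nlinarith
    calc Real.log (KK X Q) ≤ Real.log ((X:ℝ) ^ 2) := Real.log_le_log hKpos h2
      _ = 2 * Real.log X := by rw [Real.log_pow]; norm_num

theorem norm_cc_le {d i k : ℕ} (hi : i ≤ 1) : ‖cc d i k‖ ≤ 1 + Real.log k := by
  have hk : 0 ≤ Real.log k := Real.log_natCast_nonneg k
  unfold cc
  rw [norm_mul, Complex.norm_real, Real.norm_eq_abs, abs_of_nonneg (pow_nonneg hk i)]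
  have h1 : Real.log k ^ i ≤ 1 + Real.log k := by
    interval_cases i
    · rw [pow_zero]; linarith
    · rw [pow_one]; linarith
  calc ‖muC (d * k)‖ * Real.log k ^ i ≤ 1 * (1 + Real.log k) :=
        mul_le_mul (norm_muC_le _) h1 (pow_nonneg hk i) zero_le_one
    _ = 1 + Real.log k := one_mul _

end Pool.Agent.SInt
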