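import Pool.Agent.SInt.Fou

open Finset Complex
open scoped ArithmeticFunction.Moebius ArithmeticFunction.vonMangoldt

namespace Pool.Agent.SInt

open Pool.Agent.ANT

theorem MJ_zero {X R D : ℕ} (hD : 1 ≤ D) {v : ℤ} (hv : v ≤ -(D : ℤ) ∨ 2 * (X : ℤ) + D ≤ v) :
    MJ X R D v = 0 := by
  unfold MJ
  refine sum_eq_zero fun r _ => sum_eq_zero fun a _ => sum_eq_zero fun n hn => ?_
  rw [mem_Icc] at hn
  have h1 : (1 : ℝ) ≤ n := by exact_mod_cast hn.1
  have h2 : (n : ℝ) ≤ 2 * X := by exact_mod_cast hn.2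
  have h3 : GD D ((v : ℝ) - n) = 0 := by
    apply GD_eq_zero hD
    rcases hv with hv | hv
    · have h4 : (v : ℝ) ≤ -(D : ℝ) := by exact_mod_cast hv
      rw [abs_of_nonpos (by
        have : (0 : ℝ) ≤ D := by positivity
        linarith)]
      linarith
    · have h4 : 2 * (X : ℝ) + D ≤ (v : ℝ) := by exact_mod_cast hv
      refine le_trans ?_ (le_abs_self _)
      linarith
  rw [h3]
  simp

/-- The Fourier transform of the normalised triangle function. -/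
private lemma MJhat_kernel {D : ℕ} (hD : 1 ≤ D) (θ : ℝ) :
    ∑ v ∈ Ioo (-(D : ℤ)) D, ((GD D v : ℝ) : ℂ) * ee (v * θ) =
      ((‖∑ i ∈ range D, ee (i * θ)‖ ^ 2 / (D : ℝ) ^ 2 : ℝ) : ℂ) := by
  have h := tri_hat hD θ
  have hD0 : (D : ℝ) ≠ 0 := by positivity
  have h2 : ∑ v ∈ Ioo (-(D : ℤ)) D, ((GD D v : ℝ) : ℂ) * ee (v * θ) =
      (1 / (D : ℂ)) * ∑ v ∈ Ioo (-(D : ℤ)) D, ((tri D v : ℝ) : ℂ) * ee (v * θ) := by
    rw [mul_sum]
    refine sum_congr rfl fun v _ => ?_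
    unfold GD
    push_cast
    ring
  rw [h2, h]
  generalize ‖∑ i ∈ range D, ee (i * θ)‖ = x
  push_cast
  have hDc : (D : ℂ) ≠ 0 := by exact_mod_cast hD0
  field_simp

/-- The transform of the translate. -/
private lemma MJhat_shift {X D Y n : ℕ} (hD : 1 ≤ D) (hY : 2 * X + D ≤ Y) (hn : n ∈ Icc 1 (2 * X))
    (θ : ℝ) :
    ∑ v ∈ Icc (-(Y : ℤ)) Y, ((GD D ((v : ℝ) - n) : ℝ) : ℂ) * ee (((v : ℝ) - n) * θ) =
      ((‖∑ i ∈ range D, ee (i * θ)‖ ^ 2 / (D : ℝ) ^ 2 : ℝ) : ℂ) := by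
  rw [mem_Icc] at hn
  rw [← MJhat_kernel hD θ]
  symm
  have h1 : ∑ v ∈ Ioo (-(D : ℤ)) D, ((GD D v : ℝ) : ℂ) * ee (v * θ) =
      ∑ v ∈ (Ioo (-(D : ℤ)) D).image (fun m => m + (n : ℤ)),
        ((GD D ((v : ℝ) - n) : ℝ) : ℂ) * ee (((v : ℝ) - n) * θ) := by
    rw [sum_image (fun a _ b _ h => by simpa using h)]
    refine sum_congr rfl fun v _ => ?_
    have : (((v + (n : ℤ) : ℤ) : ℝ) - n) = v := by push_cast; ring
    rw [this]
  rw [h1]
  apply sum_subset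
  · intro v hv
    rw [mem_image] at hv
    obtain ⟨m, hm, rfl⟩ := hv
    rw [mem_Ioo] at hm
    rw [mem_Icc]
    constructor <;> omega
  · intro v _ hv
    have h2 : (D : ℤ) ≤ |v - n| := by
      by_contra h3
      rw [not_le, abs_lt] at h3
      apply hv
      rw [mem_image]
      exact ⟨v - n, mem_Ioo.2 h3, by ring⟩
    have h3 : (D : ℝ) ≤ |(v : ℝ) - n| := by exact_mod_cast h2
    rw [GD_eq_zero hD h3]
    simp

/-- The transform of `Lam`. -/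
private lemma MJhat_Lam {Z Y : ℕ} (hY : Z ≤ Y) (θ : ℝ) :
    gh Y (Lam Z) θ = ∑ n ∈ Icc 1 Z, ((Λ n : ℝ) : ℂ) * ee (n * θ) := by
  unfold gh
  have h1 : ∑ n ∈ Icc 1 Z, ((Λ n : ℝ) : ℂ) * ee (n * θ) =
      ∑ v ∈ (Icc 1 Z).image (fun n : ℕ => (n : ℤ)), Lam Z v * ee (v * θ) := by
    rw [sum_image (fun a _ b _ h => by simpa using h)]
    refine sum_congr rfl fun n hn => ?_
    rw [mem_Icc] at hn
    unfold Lam
    rw [if_pos (by omega)]
    simp
  rw [h1]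
  symm
  apply sum_subset
  · intro v hv
    rw [mem_image] at hv
    obtain ⟨n, hn, rfl⟩ := hv
    rw [mem_Icc] at hn
    rw [mem_Icc]
    constructor <;> omega
  · intro v _ hv
    unfold Lam
    rw [if_neg, zero_mul]
    intro h
    apply hv
    rw [mem_image]
    exact ⟨v.toNat, by rw [mem_Icc]; omega, by omega⟩

/-- `MJ` is a Fourier multiplier of `Λ`. -/
theorem gh_MJ {X R D Y : ℕ} (hD : 1 ≤ D) (hY : 2 * X + D ≤ Y) (θ : ℝ) :
    gh Y (MJ X R D) θ = ((Psi R D θ : ℝ) : ℂ) * gh Y (Lam (2 * X)) θ := by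
  rw [MJhat_Lam (by omega) θ]
  unfold gh MJ Psi
  rw [Complex.ofReal_sum, sum_mul]
  calc ∑ v ∈ Icc (-(Y : ℤ)) Y, (∑ r ∈ Icc 1 R, ∑ a ∈ red r, ∑ n ∈ Icc 1 (2 * X),
        ((Λ n : ℝ) : ℂ) * ee (a * ((v : ℝ) - n) / r) * ((GD D ((v : ℝ) - n) : ℝ) : ℂ)) *
          ee (v * θ)
      = ∑ v ∈ Icc (-(Y : ℤ)) Y, ∑ r ∈ Icc 1 R, ∑ a ∈ red r, ∑ n ∈ Icc 1 (2 * X),
        ((Λ n : ℝ) : ℂ) * ee (n * θ) * (((GD D ((v : ℝ) - n) : ℝ) : ℂ) *
          ee (((v : ℝ) - n) * (θ + a / r))) := by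
        refine sum_congr rfl fun v _ => ?_
        rw [sum_mul]
        refine sum_congr rfl fun r _ => ?_
        rw [sum_mul]
        refine sum_congr rfl fun a _ => ?_
        rw [sum_mul]
        refine sum_congr rfl fun n _ => ?_
        have h1 : ee (v * θ) = ee (n * θ) * ee (((v : ℝ) - n) * θ) := by
          rw [← ee_add]
          congr 1
          ring
        have h2 : ee (((v : ℝ) - n) * (θ + a / r)) =
            ee (((v : ℝ) - n) * θ) * ee (a * ((v : ℝ) - n) / r) := by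
          rw [← ee_add]
          congr 1
          ring
        rw [h1, h2]
        ring
    _ = ∑ r ∈ Icc 1 R, ∑ a ∈ red r, ∑ n ∈ Icc 1 (2 * X), ∑ v ∈ Icc (-(Y : ℤ)) Y,
        ((Λ n : ℝ) : ℂ) * ee (n * θ) * (((GD D ((v : ℝ) - n) : ℝ) : ℂ) *
          ee (((v : ℝ) - n) * (θ + a / r))) := by
        rw [sum_comm]
        refine sum_congr rfl fun r _ => ?_
        rw [sum_comm]
        refine sum_congr rfl fun a _ => ?_
        rw [sum_comm]
    _ = ∑ r ∈ Icc 1 R, (((∑ a ∈ red r, ‖∑ i ∈ range D, ee (i * (θ + a / r))‖ ^ 2 / (D : ℝ) ^ 2 :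
          ℝ)) : ℂ) * ∑ n ∈ Icc 1 (2 * X), ((Λ n : ℝ) : ℂ) * ee (n * θ) := by
        refine sum_congr rfl fun r _ => ?_
        rw [Complex.ofReal_sum, sum_mul]
        refine sum_congr rfl fun a _ => ?_
        rw [mul_sum]
        refine sum_congr rfl fun n hn => ?_
        rw [← mul_sum, MJhat_shift hD hY hn]
        ring

end Pool.Agent.SInt
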