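import Pool.Agent.SInt.MelInv
import Pool.Agent.Lib.Hadamard.Fejer

open Finset Complex
open scoped ArithmeticFunction.Moebius ArithmeticFunction.vonMangoldt

namespace Pool.Agent.SInt

open Pool.Agent.ANT

/-- The polynomial `Fh` as an exponential polynomial. -/
private lemma mvt_Fh_eq (a : ℕ → ℂ) (N : ℕ) (t : ℝ) :
    Fh a N t = ∑ n ∈ Icc 1 N, (a n * cexp (-((Real.log n : ℝ) : ℂ))) *
      cexp (-((Real.log n * t : ℝ) : ℂ) * I) := by
  unfold Fh
  refine Finset.sum_congr rfl fun n _ => ?_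
  rw [mul_assoc, ← Complex.exp_add]
  congr 2
  push_cast
  ring

private lemma mvt_norm_coeff {n : ℕ} (hn : 1 ≤ n) (a : ℂ) :
    ‖a * cexp (-((Real.log n : ℝ) : ℂ))‖ ^ 2 = ‖a‖ ^ 2 / (n : ℝ) ^ 2 := by
  have hn0 : (0 : ℝ) < n := by exact_mod_cast hn
  rw [norm_mul, ← Complex.ofReal_neg, ← Complex.ofReal_exp, Complex.norm_real, Real.exp_neg,
    Real.exp_log hn0, Real.norm_of_nonneg (by positivity), mul_pow, inv_pow, div_eq_mul_inv]

open MeasureTheory in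
/-- Mean value theorem for Dirichlet polynomials. -/
theorem mvt : ∃ C : ℝ, 0 < C ∧ ∀ (N : ℕ) (T : ℝ) (a : ℕ → ℂ), 0 < T →
    ∫ t in Set.Icc (-T) T, ‖Fh a N t‖ ^ 2 ≤ C * max T N * ∑ n ∈ Icc 1 N, ‖a n‖ ^ 2 / (n : ℝ) ^ 2 := by
  refine ⟨5 / 2 * Real.pi, by positivity, fun N T a hT => ?_⟩
  set T' : ℝ := max T N with hT'
  have hT'0 : 0 < T' := lt_of_lt_of_le hT (le_max_left _ _)
  have hTT : T ≤ T' := le_max_left _ _
  have hNT : (N : ℝ) ≤ T' := le_max_right _ _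
  set b : ℕ → ℂ := fun n => a n * cexp (-((Real.log n : ℝ) : ℂ)) with hb
  have hFh : ∀ t : ℝ, Fh a N t = ∑ n ∈ Icc 1 N, b n *
      cexp (-((Real.log n * t : ℝ) : ℂ) * I) := mvt_Fh_eq a N
  have hint := Hadamard.fejer_integrable (Icc 1 N) (fun n : ℕ => Real.log n) b hT'0
  have hmv := Hadamard.fejer_mean_value (Icc 1 N) (fun n : ℕ => Real.log n) b hT'0
    (fun j hj k hk hjk => Hadamard.one_le_mul_log_sub hNT hj hk hjk)
  have hs : ∑ n ∈ Icc 1 N, ‖b n‖ ^ 2 = ∑ n ∈ Icc 1 N, ‖a n‖ ^ 2 / (n : ℝ) ^ 2 :=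
    Finset.sum_congr rfl fun n hn => mvt_norm_coeff (mem_Icc.mp hn).1 (a n)
  rw [hs] at hmv
  rw [← hmv]
  have hcont : Continuous fun t : ℝ => ‖Fh a N t‖ ^ 2 := by
    have : (fun t : ℝ => ‖Fh a N t‖ ^ 2) = fun t : ℝ => ‖∑ n ∈ Icc 1 N, b n *
      cexp (-((Real.log n * t : ℝ) : ℂ) * I)‖ ^ 2 := by
      funext t; rw [hFh]
    rw [this]
    fun_prop
  calc ∫ t in Set.Icc (-T) T, ‖Fh a N t‖ ^ 2
      ≤ ∫ t in Set.Icc (-T) T, ‖∑ n ∈ Icc 1 N, b n *
          cexp (-((Real.log n * t : ℝ) : ℂ) * I)‖ ^ 2 * Hadamard.fejerW (t / T') := by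
        refine setIntegral_mono_on (hcont.integrableOn_Icc) hint.integrableOn
          measurableSet_Icc fun t ht => ?_
        have h7 : 1 ≤ Hadamard.fejerW (t / T') := by
          apply Hadamard.fejerW_ge_one
          rw [abs_div, abs_of_pos hT'0]
          exact (div_le_one hT'0).mpr ((abs_le.mpr ht).trans hTT)
        rw [hFh]
        exact le_mul_of_one_le_right (by positivity) h7
    _ ≤ _ := by
        refine setIntegral_le_integral hint (Filter.Eventually.of_forall fun t => ?_)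
        exact mul_nonneg (by positivity) (Hadamard.fejerW_nonneg _)

end Pool.Agent.SInt
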