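import Pool.Agent.SInt.TTb

open Finset Complex
open scoped ArithmeticFunction.Moebius ArithmeticFunction.vonMangoldt

namespace Pool.Agent.SInt

open Pool.Agent.ANT

theorem MJ_eq (X R D : ℕ) (v : ℤ) :
    MJ X R D v = ∑ r ∈ Icc 1 R, ∑ a ∈ red r,
      ee (a * v / r) * LAh (fun n => ((Λ n : ℝ) : ℂ) * ee (-(a * n / r))) (2 * X) D v := by
  unfold MJ LAh
  refine Finset.sum_congr rfl fun r _ => Finset.sum_congr rfl fun a _ => ?_
  rw [Finset.mul_sum]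
  refine Finset.sum_congr rfl fun n _ => ?_
  have e : (a : ℝ) * ((v : ℝ) - n) / r = a * v / r + -(a * n / r) := by ring
  rw [e, ee_add]
  ring

theorem card_red_sum_le (R : ℕ) : ∑ r ∈ Icc 1 R, ((red r).card : ℝ) ≤ (R : ℝ) ^ 2 := by
  calc ∑ r ∈ Icc 1 R, ((red r).card : ℝ) ≤ ∑ r ∈ Icc 1 R, (R : ℝ) := by
        refine Finset.sum_le_sum fun r hr => ?_
        rw [Finset.mem_Icc] at hr
        have h1 : (red r).card ≤ r := (Finset.card_filter_le _ _).trans_eq (Finset.card_range r)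
        exact_mod_cast h1.trans hr.2
    _ = (R : ℝ) ^ 2 := by
        rw [Finset.sum_const, Nat.card_Icc, nsmul_eq_mul, Nat.add_sub_cancel, sq]

/-- Reduction to one fraction `a/r`. -/
theorem MJ_TT (W X R D K : ℕ) (S : Finset ℕ) (c : ℕ → ℂ) :
    TT W X S (fun _ => c) K (MJ X R D) ≤
      (R : ℝ) ^ 2 * ∑ r ∈ Icc 1 R, ∑ a ∈ red r,
        TT W X S (ct c ((a : ℝ) / r)) K
          (LAh (fun n => ((Λ n : ℝ) : ℂ) * ee (-(a * n / r))) (2 * X) D) := by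
  set P : Finset (Σ _ : ℕ, ℕ) := (Icc 1 R).sigma red with hP
  set L : (Σ _ : ℕ, ℕ) → ℤ → ℂ := fun p =>
    LAh (fun n => ((Λ n : ℝ) : ℂ) * ee (-(p.2 * n / p.1))) (2 * X) D with hL
  have hcard : ((P.card : ℕ) : ℝ) ≤ (R : ℝ) ^ 2 := by
    rw [hP, Finset.card_sigma]
    push_cast
    exact card_red_sum_le R
  have hEG : ∀ N q : ℕ, EG (fun _ => c) K (MJ X R D) N q =
      ∑ p ∈ P, ee (p.2 * N / p.1) * EG (ct c ((p.2 : ℝ) / p.1)) K (L p) N q := by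
    intro N q
    unfold EG
    simp_rw [Finset.mul_sum]
    rw [Finset.sum_comm]
    refine Finset.sum_congr rfl fun k _ => ?_
    rw [MJ_eq, ← Finset.sum_sigma' (Icc 1 R) red (fun r a => ee (a * ((((N : ℤ) - q * k : ℤ)) : ℝ) / r) *
      LAh (fun n => ((Λ n : ℝ) : ℂ) * ee (-(a * n / r))) (2 * X) D ((N : ℤ) - q * k)) |>.symm]
    rw [Finset.mul_sum]
    refine Finset.sum_congr rfl fun p _ => ?_
    unfold ct
    have e : (p.2 : ℝ) * (((N : ℤ) - q * k : ℤ) : ℝ) / p.1 =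
        p.2 * N / p.1 + -(p.2 / p.1 * (q * k)) := by
      push_cast
      ring
    rw [e, ee_add]
    ring
  have hsq : ∀ N q : ℕ, ‖EG (fun _ => c) K (MJ X R D) N q‖ ^ 2 ≤
      (R : ℝ) ^ 2 * ∑ p ∈ P, ‖EG (ct c ((p.2 : ℝ) / p.1)) K (L p) N q‖ ^ 2 := by
    intro N q
    rw [hEG N q]
    have h1 : ‖∑ p ∈ P, ee (p.2 * N / p.1) * EG (ct c ((p.2 : ℝ) / p.1)) K (L p) N q‖ ≤
        ∑ p ∈ P, ‖EG (ct c ((p.2 : ℝ) / p.1)) K (L p) N q‖ := by
      refine (norm_sum_le _ _).trans_eq (Finset.sum_congr rfl fun p _ => ?_)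
      rw [norm_mul, norm_ee, one_mul]
    calc ‖∑ p ∈ P, ee (p.2 * N / p.1) * EG (ct c ((p.2 : ℝ) / p.1)) K (L p) N q‖ ^ 2
        ≤ (∑ p ∈ P, ‖EG (ct c ((p.2 : ℝ) / p.1)) K (L p) N q‖) ^ 2 :=
          pow_le_pow_left₀ (norm_nonneg _) h1 2
      _ ≤ P.card * ∑ p ∈ P, ‖EG (ct c ((p.2 : ℝ) / p.1)) K (L p) N q‖ ^ 2 :=
          sq_sum_le_card_mul_sum_sq
      _ ≤ _ := mul_le_mul_of_nonneg_right hcard (Finset.sum_nonneg fun _ _ => sq_nonneg _)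
  rw [Finset.sum_sigma' (Icc 1 R) red (fun r a => TT W X S (ct c ((a : ℝ) / r)) K
          (LAh (fun n => ((Λ n : ℝ) : ℂ) * ee (-(a * n / r))) (2 * X) D))]
  change _ ≤ (R : ℝ) ^ 2 * ∑ p ∈ P, TT W X S (ct c ((p.2 : ℝ) / p.1)) K (L p)
  unfold TT
  calc ∑ q ∈ S, ∑ N ∈ Ioo (X - W) (X + W), tri W ((N : ℝ) - X) *
        ‖EG (fun _ => c) K (MJ X R D) N q‖ ^ 2
      ≤ ∑ q ∈ S, ∑ N ∈ Ioo (X - W) (X + W), tri W ((N : ℝ) - X) *
          ((R : ℝ) ^ 2 * ∑ p ∈ P, ‖EG (ct c ((p.2 : ℝ) / p.1)) K (L p) N q‖ ^ 2) :=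
        Finset.sum_le_sum fun q _ => Finset.sum_le_sum fun N _ =>
          mul_le_mul_of_nonneg_left (hsq N q) (tri_nonneg _ _)
    _ = ∑ q ∈ S, ∑ p ∈ P, ∑ N ∈ Ioo (X - W) (X + W),
          (R : ℝ) ^ 2 * (tri W ((N : ℝ) - X) * ‖EG (ct c ((p.2 : ℝ) / p.1)) K (L p) N q‖ ^ 2) := by
        refine Finset.sum_congr rfl fun q _ => ?_
        rw [Finset.sum_comm]
        refine Finset.sum_congr rfl fun N _ => ?_
        rw [Finset.mul_sum, Finset.mul_sum]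
        exact Finset.sum_congr rfl fun p _ => by ring
    _ = _ := by
        rw [Finset.sum_comm, Finset.mul_sum]
        refine Finset.sum_congr rfl fun p _ => ?_
        rw [Finset.mul_sum]
        exact Finset.sum_congr rfl fun q _ => by rw [Finset.mul_sum]

end Pool.Agent.SInt
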