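import Pool.Agent.SInt.Fou

open Finset Complex
open scoped ArithmeticFunction.Moebius ArithmeticFunction.vonMangoldt

namespace Pool.Agent.SInt

open Pool.Agent.ANT

/-- One normalised Fejer kernel. -/
private noncomputable def psiT (D : ℕ) (x : ℝ) : ℝ :=
  ‖∑ i ∈ range D, ee (i * x)‖ ^ 2 / (D : ℝ) ^ 2

private lemma psiT_nonneg (D : ℕ) (x : ℝ) : 0 ≤ psiT D x := by unfold psiT; positivity

private lemma psiT_norm_le (D : ℕ) (x : ℝ) : ‖∑ i ∈ range D, ee (i * x)‖ ≤ D := by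
  refine (norm_sum_le _ _).trans ?_
  simp [norm_ee]

private lemma psiT_le_one (D : ℕ) (x : ℝ) : psiT D x ≤ 1 := by
  unfold psiT
  refine div_le_one_of_le₀ ?_ (by positivity)
  exact pow_le_pow_left₀ (norm_nonneg _) (psiT_norm_le D x) 2

private lemma psiT_le {D : ℕ} (hD : 1 ≤ D) {x δ : ℝ} (hδ : 0 < δ) (h : δ ≤ nn x) :
    psiT D x ≤ 1 / (4 * (D : ℝ) ^ 2 * δ ^ 2) := by
  have hD0 : (0 : ℝ) < D := by exact_mod_cast hD
  set S := ∑ i ∈ range D, ee (i * x) with hS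
  have h1 : S * (ee x - 1) = ee (D * x) - 1 := by
    rw [hS, ee_nat_mul]
    simp_rw [ee_nat_mul]
    exact geom_sum_mul _ _
  have h2 : ‖S‖ * ‖ee x - 1‖ ≤ 2 := by
    rw [← norm_mul, h1]
    refine (norm_sub_le _ _).trans ?_
    rw [norm_ee]
    norm_num
  have h3 := four_nn_le x
  have h4 := norm_nonneg S
  have h5 : ‖S‖ * (4 * δ) ≤ 2 := by
    have : ‖S‖ * (4 * δ) ≤ ‖S‖ * ‖ee x - 1‖ := by
      apply mul_le_mul_of_nonneg_left _ h4
      linarith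
    linarith
  have h6 : ‖S‖ * (2 * δ) ≤ 1 := by linarith
  have h7 : (‖S‖ * (2 * δ)) ^ 2 ≤ 1 := by
    have : 0 ≤ ‖S‖ * (2 * δ) := by positivity
    nlinarith
  unfold psiT
  rw [← hS, div_le_div_iff₀ (by positivity) (by positivity)]
  nlinarith [sq_nonneg (D : ℝ), h7, mul_le_mul_of_nonneg_left h7 (sq_nonneg (D : ℝ))]

private lemma psiT_add_int (D : ℕ) (x : ℝ) (k : ℤ) : psiT D (x + k) = psiT D x := by
  unfold psiT
  have : ∀ i : ℕ, ee (i * (x + k)) = ee (i * x) := by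
    intro i
    rw [show (i : ℝ) * (x + k) = i * x + ((i * k : ℤ) : ℝ) by push_cast; ring, ee_add_int]
  simp_rw [this]

/-- Near zero. -/
private lemma psiT_near {D : ℕ} (hD : 1 ≤ D) {x η : ℝ} (h : (D : ℝ) * |x| ≤ η) :
    |1 - psiT D x| ≤ 4 * Real.pi * η := by
  have hD0 : (0 : ℝ) < D := by exact_mod_cast hD
  set S := ∑ i ∈ range D, ee (i * x) with hS
  have h1 : ‖(D : ℂ) - S‖ ≤ D * (2 * Real.pi * η) := by
    have e1 : (D : ℂ) - S = ∑ i ∈ range D, (1 - ee (i * x)) := by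
      rw [hS, Finset.sum_sub_distrib]
      simp
    rw [e1]
    refine (norm_sum_le _ _).trans ?_
    have : ∀ i ∈ range D, ‖1 - ee (i * x)‖ ≤ 2 * Real.pi * η := by
      intro i hi
      rw [Finset.mem_range] at hi
      rw [norm_sub_rev]
      unfold ee
      refine (Real.norm_exp_I_mul_ofReal_sub_one_le).trans ?_
      rw [Real.norm_eq_abs, abs_mul, abs_mul, abs_of_pos Real.pi_pos, abs_two, abs_mul,
        Nat.abs_cast]
      have hi' : (i : ℝ) * |x| ≤ D * |x| :=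
        mul_le_mul_of_nonneg_right (by exact_mod_cast hi.le) (abs_nonneg _)
      have : (i : ℝ) * |x| ≤ η := hi'.trans h
      nlinarith [Real.pi_pos]
    refine (Finset.sum_le_sum this).trans ?_
    simp
  have h2 : |(D : ℝ) - ‖S‖| ≤ D * (2 * Real.pi * η) := by
    have := abs_norm_sub_norm_le (D : ℂ) S
    rw [Complex.norm_natCast] at this
    exact this.trans h1
  have h3 := psiT_norm_le D x
  rw [← hS] at h3
  have h4 := norm_nonneg S
  have h5 : 1 - psiT D x = ((D : ℝ) - ‖S‖) * (D + ‖S‖) / (D : ℝ) ^ 2 := by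
    unfold psiT
    rw [← hS]
    field_simp
    ring
  rw [h5, abs_div, abs_mul, abs_of_pos (show (0 : ℝ) < D + ‖S‖ by positivity),
    abs_of_pos (show (0 : ℝ) < (D : ℝ) ^ 2 by positivity), div_le_iff₀ (by positivity)]
  have h6 : |(D : ℝ) - ‖S‖| * (D + ‖S‖) ≤ (D * (2 * Real.pi * η)) * (D + D) :=
    mul_le_mul h2 (by linarith) (by positivity) ((abs_nonneg _).trans h2)
  nlinarith [h6]

/-- The points. -/
private def pts (R : ℕ) : Finset (Σ _ : ℕ, ℕ) := (Icc 1 R).sigma (fun r => red r)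

private lemma mem_pts {R : ℕ} {p : Σ _ : ℕ, ℕ} :
    p ∈ pts R ↔ (1 ≤ p.1 ∧ p.1 ≤ R) ∧ (p.2 < p.1 ∧ p.2.Coprime p.1) := by
  unfold pts red
  simp [Finset.mem_sigma]

private lemma card_pts (R : ℕ) : (pts R).card ≤ R ^ 2 := by
  unfold pts
  rw [Finset.card_sigma]
  calc ∑ r ∈ Icc 1 R, (red r).card ≤ ∑ r ∈ Icc 1 R, R := by
        refine Finset.sum_le_sum fun r hr => ?_
        unfold red
        refine (Finset.card_filter_le _ _).trans ?_
        rw [Finset.card_range]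
        exact (Finset.mem_Icc.mp hr).2
    _ = R ^ 2 := by simp [sq]

private lemma Psi_eq (R D : ℕ) (θ : ℝ) :
    Psi R D θ = ∑ p ∈ pts R, psiT D (θ + (p.2 : ℝ) / (p.1 : ℝ)) := by
  unfold Psi pts psiT
  rw [Finset.sum_sigma]

private lemma frac_eq {r s : ℕ} (hr : 1 ≤ r) (hs : 1 ≤ s) {a c k : ℤ} (ha : IsCoprime a (r : ℤ))
    (hc : IsCoprime c (s : ℤ)) (h : a * s + c * r = k * r * s) : r = s ∧ (r : ℤ) ∣ a + c := by
  have h1 : (r : ℤ) ∣ s := by
    have : (r : ℤ) ∣ a * s := ⟨k * s - c, by linear_combination h⟩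
    exact ha.symm.dvd_of_dvd_mul_left this
  have h2 : (s : ℤ) ∣ r := by
    have : (s : ℤ) ∣ c * r := ⟨k * r - a, by linear_combination h⟩
    exact hc.symm.dvd_of_dvd_mul_left this
  have h3 : r = s := Nat.dvd_antisymm (by exact_mod_cast h1) (by exact_mod_cast h2)
  refine ⟨h3, k, ?_⟩
  subst h3
  have hr0 : (r : ℤ) ≠ 0 := by positivity
  have : (a + c) * (r : ℤ) = ((r : ℤ) * k) * r := by linear_combination h
  exact mul_right_cancel₀ hr0 this

private lemma frac_sep {R r s : ℕ} (hr : 1 ≤ r) (hs : 1 ≤ s) (hrR : r ≤ R) (hsR : s ≤ R)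
    {a c k : ℤ} (h : a * s + c * r ≠ k * r * s) :
    1 / (R : ℝ) ^ 2 ≤ |(a : ℝ) / r + c / s - k| := by
  have hr0 : (0 : ℝ) < r := by exact_mod_cast hr
  have hs0 : (0 : ℝ) < s := by exact_mod_cast hs
  have e1 : (a : ℝ) / r + c / s - k = ((a * s + c * r - k * r * s : ℤ) : ℝ) / (r * s) := by
    push_cast
    field_simp
  rw [e1, abs_div, abs_of_pos (mul_pos hr0 hs0)]
  have h1 : (1 : ℝ) ≤ |((a * s + c * r - k * r * s : ℤ) : ℝ)| := by
    rw [← Int.cast_abs]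
    exact_mod_cast Int.one_le_abs (sub_ne_zero.mpr h)
  have h2 : (r : ℝ) * s ≤ (R : ℝ) ^ 2 := by
    rw [sq]
    exact mul_le_mul (by exact_mod_cast hrR) (by exact_mod_cast hsR) hs0.le (by positivity)
  exact div_le_div₀ (by positivity) h1 (by positivity) h2

/-- Contribution of the points away from `p₀`. -/
private lemma Psi_rest {R D : ℕ} (hR : 1 ≤ R) (hD : R ^ 4 ≤ D) (θ : ℝ) {s : Finset (Σ _ : ℕ, ℕ)}
    (hs : s ⊆ pts R) (h : ∀ p ∈ s, 1 / (2 * (R : ℝ) ^ 2) ≤ nn (θ + (p.2 : ℝ) / (p.1 : ℝ))) :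
    ∑ p ∈ s, psiT D (θ + (p.2 : ℝ) / (p.1 : ℝ)) ≤ 1 / (R : ℝ) := by
  have hR0 : (1 : ℝ) ≤ R := by exact_mod_cast hR
  have hD1 : 1 ≤ D := le_trans (Nat.one_le_pow _ _ hR) hD
  have hD2 : (R : ℝ) ^ 4 ≤ D := by exact_mod_cast hD
  have h1 : ∀ p ∈ s, psiT D (θ + (p.2 : ℝ) / (p.1 : ℝ)) ≤ 1 / (R : ℝ) ^ 4 := by
    intro p hp
    refine (psiT_le hD1 (by positivity) (h p hp)).trans ?_
    have e : 4 * (D : ℝ) ^ 2 * (1 / (2 * (R : ℝ) ^ 2)) ^ 2 = (D : ℝ) ^ 2 / (R : ℝ) ^ 4 := by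
      field_simp
      norm_num
    rw [e]
    apply one_div_le_one_div_of_le (by positivity)
    rw [le_div_iff₀ (by positivity)]
    nlinarith [pow_pos (show (0 : ℝ) < R by linarith) 4]
  refine (Finset.sum_le_sum h1).trans ?_
  rw [Finset.sum_const, nsmul_eq_mul]
  have h2 : (s.card : ℝ) ≤ (R : ℝ) ^ 2 := by
    exact_mod_cast (Finset.card_le_card hs).trans (card_pts R)
  calc (s.card : ℝ) * (1 / (R : ℝ) ^ 4) ≤ (R : ℝ) ^ 2 * (1 / (R : ℝ) ^ 4) := by gcongr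
    _ = 1 / (R : ℝ) ^ 2 := by field_simp
    _ ≤ 1 / (R : ℝ) := by
      apply one_div_le_one_div_of_le (by linarith)
      nlinarith

theorem Psi_nonneg (R D : ℕ) (θ : ℝ) : 0 ≤ Psi R D θ := by
  rw [Psi_eq]
  exact Finset.sum_nonneg fun p _ => psiT_nonneg _ _

theorem Psi_le_two {R D : ℕ} (hR : 1 ≤ R) (hD : R ^ 4 ≤ D) (θ : ℝ) : Psi R D θ ≤ 2 := by
  have hR0 : (1 : ℝ) ≤ R := by exact_mod_cast hR
  have hR1 : 1 / (R : ℝ) ≤ 1 := by
    rw [div_le_one (by linarith)]; exact hR0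
  rw [Psi_eq]
  by_cases hex : ∃ p₀ ∈ pts R, nn (θ + (p₀.2 : ℝ) / (p₀.1 : ℝ)) < 1 / (2 * (R : ℝ) ^ 2)
  · obtain ⟨p₀, hp₀, hlt⟩ := hex
    rw [← Finset.add_sum_erase _ _ hp₀]
    have h1 : ∑ p ∈ (pts R).erase p₀, psiT D (θ + (p.2 : ℝ) / (p.1 : ℝ)) ≤ 1 / (R : ℝ) := by
      refine Psi_rest hR hD θ (Finset.erase_subset _ _) ?_
      intro p hp
      rw [Finset.mem_erase] at hp
      obtain ⟨hne, hp⟩ := hp
      by_contra hcon
      push Not at hcon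
      apply hne
      obtain ⟨⟨a1, a2⟩, a3, a4⟩ := mem_pts.mp hp
      obtain ⟨⟨b1, b2⟩, b3, b4⟩ := mem_pts.mp hp₀
      set k : ℤ := round (θ + (p.2 : ℝ) / (p.1 : ℝ)) with hk
      set k₀ : ℤ := round (θ + (p₀.2 : ℝ) / (p₀.1 : ℝ)) with hk₀
      have hc1 : |θ + (p.2 : ℝ) / (p.1 : ℝ) - k| < 1 / (2 * (R : ℝ) ^ 2) := hcon
      have hc2 : |θ + (p₀.2 : ℝ) / (p₀.1 : ℝ) - k₀| < 1 / (2 * (R : ℝ) ^ 2) := hlt
      have hR2 : 1 / (2 * (R : ℝ) ^ 2) + 1 / (2 * (R : ℝ) ^ 2) = 1 / (R : ℝ) ^ 2 := by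
        field_simp; norm_num
      have hlt' : |((p.2 : ℤ) : ℝ) / (p.1 : ℝ) + ((-(p₀.2 : ℤ) : ℤ) : ℝ) / (p₀.1 : ℝ) -
          ((k - k₀ : ℤ) : ℝ)| < 1 / (R : ℝ) ^ 2 := by
        rw [← hR2]
        have e : ((p.2 : ℤ) : ℝ) / (p.1 : ℝ) + ((-(p₀.2 : ℤ) : ℤ) : ℝ) / (p₀.1 : ℝ) -
          ((k - k₀ : ℤ) : ℝ) = (θ + (p.2 : ℝ) / (p.1 : ℝ) - k) -
            (θ + (p₀.2 : ℝ) / (p₀.1 : ℝ) - k₀) := by
          push_cast; ring
        rw [e]
        refine (abs_sub _ _).trans_lt ?_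
        linarith
      have heq : (p.2 : ℤ) * (p₀.1 : ℤ) + (-(p₀.2 : ℤ)) * (p.1 : ℤ) =
          (k - k₀) * (p.1 : ℤ) * (p₀.1 : ℤ) := by
        by_contra hn
        exact absurd hlt' (not_lt.mpr (frac_sep a1 b1 a2 b2 hn))
      have := frac_eq a1 b1 (Nat.isCoprime_iff_coprime.mpr a4)
        ((Nat.isCoprime_iff_coprime.mpr b4).neg_left) heq
      obtain ⟨hrs, hdvd⟩ := this
      have h22 : p.2 = p₀.2 := by
        have h1 : ((p.2 : ℤ) + (-(p₀.2 : ℤ))) = 0 := by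
          apply Int.eq_zero_of_abs_lt_dvd hdvd
          rw [abs_lt]
          constructor <;> omega
        omega
      obtain ⟨x, y⟩ := p
      obtain ⟨x', y'⟩ := p₀
      simp only at hrs h22
      rw [hrs, h22]
    have h2 := psiT_le_one D (θ + (p₀.2 : ℝ) / (p₀.1 : ℝ))
    linarith
  · push Not at hex
    have := Psi_rest hR hD θ (Finset.Subset.refl _) hex
    linarith

/-- On the major arcs the multiplier is close to one. -/
theorem Psi_near {R D W r : ℕ} (hR : 1 ≤ R) (hD : R ^ 4 ≤ D) (hDW : D * R ^ 2 ≤ W) (hr : 1 ≤ r)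
    (hrR : r ≤ R) {a : ℤ} (ha : IsCoprime a (r : ℤ)) {α : ℝ} (hα : |α - a / r| ≤ (R : ℝ) / W) :
    |1 - Psi R D α| ≤ 20 / R := by
  have hR0 : (1 : ℝ) ≤ R := by exact_mod_cast hR
  have hD1 : 1 ≤ D := le_trans (Nat.one_le_pow _ _ hR) hD
  have hD0 : (0 : ℝ) < D := by exact_mod_cast hD1
  have hD2 : (R : ℝ) ^ 4 ≤ D := by exact_mod_cast hD
  have hDW' : (D : ℝ) * (R : ℝ) ^ 2 ≤ W := by exact_mod_cast hDW
  have hr0 : (r : ℤ) ≠ 0 := by positivity
  have hrpos : (0 : ℤ) < r := by exact_mod_cast hr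
  have hb : |α - a / r| ≤ 1 / (D * R) := by
    refine hα.trans ?_
    rw [div_le_div_iff₀ (lt_of_lt_of_le (by positivity) hDW') (by positivity)]
    nlinarith
  set a' : ℕ := ((-a) % (r : ℤ)).toNat with ha'
  have ha'1 : ((a' : ℕ) : ℤ) = (-a) % (r : ℤ) := Int.toNat_of_nonneg (Int.emod_nonneg _ hr0)
  have ha'2 : a' < r := by
    have := Int.emod_lt_of_pos (-a) hrpos
    omega
  obtain ⟨t, ht⟩ : ∃ t : ℤ, (a' : ℤ) = -a + t * r := by
    refine ⟨-((-a) / (r : ℤ)), ?_⟩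
    rw [ha'1]
    have := Int.emod_add_mul_ediv (-a) (r : ℤ)
    linear_combination this
  have ha'3 : a'.Coprime r := by
    rw [← Nat.isCoprime_iff_coprime, ht]
    exact (IsCoprime.add_mul_right_left_iff).mpr ha.neg_left
  set p₀ : Σ _ : ℕ, ℕ := ⟨r, a'⟩ with hp₀
  have hmem : p₀ ∈ pts R := mem_pts.mpr ⟨⟨hr, hrR⟩, ha'2, ha'3⟩
  have hmain : psiT D (α + (p₀.2 : ℝ) / (p₀.1 : ℝ)) = psiT D (α - a / r) := by
    have e : α + (p₀.2 : ℝ) / (p₀.1 : ℝ) = (α - a / r) + t := by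
      have h1 : (p₀.2 : ℝ) = -(a : ℝ) + t * r := by exact_mod_cast ht
      have h2 : (p₀.1 : ℝ) = r := rfl
      have h3 : (r : ℝ) ≠ 0 := by positivity
      rw [h1, h2]
      field_simp
      ring
    rw [e, psiT_add_int]
  have hnear : |1 - psiT D (α - a / r)| ≤ 4 * Real.pi * (1 / R) := by
    apply psiT_near hD1
    calc (D : ℝ) * |α - a / r| ≤ D * (1 / (D * R)) := by gcongr
      _ = 1 / R := by field_simp
  have hrest : ∑ p ∈ (pts R).erase p₀, psiT D (α + (p.2 : ℝ) / (p.1 : ℝ)) ≤ 1 / (R : ℝ) := by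
    refine Psi_rest hR hD α (Finset.erase_subset _ _) ?_
    intro p hp
    rw [Finset.mem_erase] at hp
    obtain ⟨hne, hp⟩ := hp
    obtain ⟨⟨a1, a2⟩, a3, a4⟩ := mem_pts.mp hp
    set k : ℤ := round (α + (p.2 : ℝ) / (p.1 : ℝ)) with hk
    show 1 / (2 * (R : ℝ) ^ 2) ≤ |α + (p.2 : ℝ) / (p.1 : ℝ) - k|
    have hne' : a * (p.1 : ℤ) + (p.2 : ℤ) * (r : ℤ) ≠ k * (r : ℤ) * (p.1 : ℤ) := by
      intro heq
      obtain ⟨hrs, hdvd⟩ := frac_eq hr a1 ha (Nat.isCoprime_iff_coprime.mpr a4) heq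
      apply hne
      have h22 : p.2 = a' := by
        have h1 : ((p.2 : ℤ) - (a' : ℤ)) = 0 := by
          apply Int.eq_zero_of_abs_lt_dvd (m := (r : ℤ))
          · rw [ht]
            have : (p.2 : ℤ) - (-a + t * r) = (a + p.2) - t * r := by ring
            rw [this]
            exact dvd_sub hdvd (Dvd.intro_left t rfl)
          · rw [abs_lt]
            constructor <;> omega
        omega
      obtain ⟨x, y⟩ := p
      simp only at hrs h22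
      rw [hp₀, hrs, h22]
    have hsep := frac_sep hr a1 hrR a2 hne'
    -- R = 1 is impossible
    have hR2 : 2 ≤ R := by
      by_contra hcon
      have hR1 : R = 1 := by omega
      apply hne
      have e1 : p.1 = 1 := by omega
      have e2 : p.2 = 0 := by omega
      have e3 : r = 1 := by omega
      have e4 : a' = 0 := by omega
      obtain ⟨x, y⟩ := p
      simp only at e1 e2
      rw [hp₀, e1, e2, e3, e4]
    have hR3 : (2 : ℝ) ≤ R := by exact_mod_cast hR2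
    have hb2 : |α - a / r| ≤ 1 / (2 * (R : ℝ) ^ 2) := by
      refine hb.trans ?_
      apply one_div_le_one_div_of_le (by positivity)
      have : (R : ℝ) ^ 4 * R ≤ D * R := by gcongr
      nlinarith [mul_le_mul_of_nonneg_left hR3 (show (0:ℝ) ≤ (R : ℝ) ^ 2 by positivity),
        pow_le_pow_right₀ hR0 (show 2 ≤ 4 by norm_num)]
    have e : (a : ℝ) / r + ((p.2 : ℤ) : ℝ) / (p.1 : ℝ) - k =
        (α + (p.2 : ℝ) / (p.1 : ℝ) - k) - (α - a / r) := by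
      push_cast; ring
    rw [e] at hsep
    have h3 := abs_sub (α + (p.2 : ℝ) / (p.1 : ℝ) - k) (α - a / r)
    have hR2' : 1 / (2 * (R : ℝ) ^ 2) + 1 / (2 * (R : ℝ) ^ 2) = 1 / (R : ℝ) ^ 2 := by
      field_simp; norm_num
    linarith
  have hrest0 : 0 ≤ ∑ p ∈ (pts R).erase p₀, psiT D (α + (p.2 : ℝ) / (p.1 : ℝ)) :=
    Finset.sum_nonneg fun p _ => psiT_nonneg _ _
  rw [Psi_eq, ← Finset.add_sum_erase _ _ hmem, hmain]
  have hpi : Real.pi ≤ 4 := Real.pi_le_four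
  have h20 : 4 * Real.pi * (1 / R) + 1 / R ≤ 20 / R := by
    have : 0 < 1 / (R : ℝ) := by positivity
    have e : 20 / (R : ℝ) = 20 * (1 / R) := by ring
    rw [e]
    nlinarith
  rw [abs_le] at hnear ⊢
  constructor <;> linarith [hnear.1, hnear.2]

end Pool.Agent.SInt
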