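import Pool.Agent.SInt.MJhat
import Pool.Agent.SInt.PsiB

open Finset Complex
open scoped ArithmeticFunction.Moebius ArithmeticFunction.vonMangoldt

namespace Pool.Agent.SInt

open Pool.Agent.ANT

private lemma MinGen_gh_fmin {X R D Y : ℕ} (hD : 1 ≤ D) (hY : 2 * X + D ≤ Y) (θ : ℝ) :
    gh Y (fmin X R D) θ = ((1 - Psi R D θ : ℝ) : ℂ) * gh Y (Lam (2 * X)) θ := by
  have h := gh_MJ (R := R) hD hY θ
  have e : gh Y (fmin X R D) θ = gh Y (Lam (2 * X)) θ - gh Y (MJ X R D) θ := by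
    unfold gh fmin
    rw [← Finset.sum_sub_distrib]
    refine Finset.sum_congr rfl fun n _ => ?_
    ring
  rw [e, h]
  push_cast
  ring

private lemma MinGen_norm_sq {X R D Y : ℕ} (hD : 1 ≤ D) (hY : 2 * X + D ≤ Y) (θ : ℝ) :
    ‖gh Y (fmin X R D) θ‖ ^ 2 = |1 - Psi R D θ| ^ 2 * ‖gh Y (Lam (2 * X)) θ‖ ^ 2 := by
  rw [MinGen_gh_fmin hD hY, norm_mul, mul_pow, Complex.norm_real, Real.norm_eq_abs]

private lemma MinGen_norm_sq_le {X R D Y : ℕ} (hR : 1 ≤ R) (hD : R ^ 4 ≤ D) (hD1 : 1 ≤ D)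
    (hY : 2 * X + D ≤ Y) (θ : ℝ) :
    ‖gh Y (fmin X R D) θ‖ ^ 2 ≤ ‖gh Y (Lam (2 * X)) θ‖ ^ 2 := by
  rw [MinGen_norm_sq hD1 hY]
  have h0 := Psi_nonneg R D θ
  have h2 := Psi_le_two hR hD θ
  have h3 : |1 - Psi R D θ| ≤ 1 := by
    rw [abs_le]; constructor <;> linarith
  have h4 : |1 - Psi R D θ| ^ 2 ≤ 1 := pow_le_one₀ (abs_nonneg _) h3
  have h5 : 0 ≤ ‖gh Y (Lam (2 * X)) θ‖ ^ 2 := by positivity
  calc _ ≤ 1 * ‖gh Y (Lam (2 * X)) θ‖ ^ 2 := by gcongr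
    _ = _ := one_mul _

theorem gh_Lam_sq {X Y M : ℕ} (hX : 1 ≤ X) (hY : 2 * X ≤ Y) (hM : 2 * Y < M) :
    1 / (M : ℝ) * ∑ j ∈ range M, ‖gh Y (Lam (2 * X)) ((j : ℝ) / M)‖ ^ 2 ≤
      12 * X * (1 + Real.log (2 * X)) := by
  rw [gh_parseval hM]
  have h1 := Pool.Agent.DEH.sum_Lambda_sq_le (2 * X)
  have e1 : ∑ n ∈ Icc (-(Y : ℤ)) Y, ‖Lam (2 * X) n‖ ^ 2 =
      ∑ n ∈ Finset.Ioc 0 (2 * X), ‖((ArithmeticFunction.vonMangoldt n : ℝ) : ℂ)‖ ^ 2 := by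
    symm
    refine Finset.sum_of_injOn (fun n : ℕ => (n : ℤ)) ?_ ?_ ?_ ?_
    · intro a _ b _ h
      exact Int.natCast_inj.mp h
    · intro n hn
      have hn' := Finset.mem_coe.mp hn
      obtain ⟨hn1, hn2⟩ := Finset.mem_Ioc.mp hn'
      refine Finset.mem_coe.mpr (Finset.mem_Icc.mpr ⟨?_, ?_⟩)
      · show -(Y : ℤ) ≤ (n : ℤ)
        omega
      · show (n : ℤ) ≤ Y
        omega
    · intro n hn hnot
      have hL : Lam (2 * X) n = 0 := by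
        unfold Lam
        rw [if_neg]
        rintro ⟨h1, h2⟩
        apply hnot
        refine ⟨n.toNat, ?_, ?_⟩
        · refine Finset.mem_coe.mpr (Finset.mem_Ioc.mpr ⟨?_, ?_⟩) <;> omega
        · show ((n.toNat : ℕ) : ℤ) = n
          omega
      rw [hL]; simp
    · intro n hn
      obtain ⟨hn1, hn2⟩ := Finset.mem_Ioc.mp hn
      show _ = ‖Lam (2 * X) (n : ℤ)‖ ^ 2
      unfold Lam
      rw [if_pos ⟨by omega, by exact_mod_cast hn2⟩]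
      simp
  rw [e1]
  refine h1.trans (le_of_eq ?_)
  push_cast
  ring

theorem fmin_norm {X R D Y : ℕ} (hX : 1 ≤ X) (hR : 1 ≤ R) (hD : R ^ 4 ≤ D) (hY : 2 * X + D ≤ Y) :
    ∑ n ∈ Icc (-(Y : ℤ)) Y, ‖fmin X R D n‖ ^ 2 ≤ 12 * X * (1 + Real.log (2 * X)) := by
  have hD1 : 1 ≤ D := le_trans (Nat.one_le_pow _ _ hR) hD
  have hM : 2 * Y < 2 * Y + 1 := by omega
  rw [← gh_parseval hM (fmin X R D)]
  refine le_trans ?_ (gh_Lam_sq hX (by omega : 2 * X ≤ Y) hM)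
  have h0 : (0 : ℝ) ≤ 1 / ((2 * Y + 1 : ℕ) : ℝ) := by positivity
  refine mul_le_mul_of_nonneg_left ?_ h0
  exact Finset.sum_le_sum fun j _ => MinGen_norm_sq_le hR hD hD1 hY _

theorem fmin_zero {X R D : ℕ} (hD : 1 ≤ D) {v : ℤ} (hv : v ≤ -(D : ℤ) ∨ 2 * (X : ℤ) + D ≤ v) :
    fmin X R D v = 0 := by
  unfold fmin
  rw [MJ_zero hD hv, sub_zero]
  unfold Lam
  rw [if_neg]
  rintro ⟨h1, h2⟩
  push_cast at h2
  rcases hv with hv | hv <;> omega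

/-- General minor arc estimate: the weight is small except on the major arcs. -/
theorem min_gen {X R D Y M W : ℕ} (hX : 1 ≤ X) (hR : 1 ≤ R) (hD : R ^ 4 ≤ D) (hDW : D * R ^ 2 ≤ W)
    (hY : 2 * X + D ≤ Y) (hM : 2 * Y < M) (Wt : ℝ → ℝ) {T δ : ℝ} (hT : 0 ≤ T) (hδ : 0 ≤ δ)
    (hW0 : ∀ α, 0 ≤ Wt α) (hWT : ∀ α, Wt α ≤ T)
    (hW : ∀ α, Wt α ≤ δ * T ∨ ∃ (r : ℕ) (a : ℤ), 1 ≤ r ∧ r ≤ R ∧ IsCoprime a (r : ℤ) ∧
      |α - a / r| ≤ (R : ℝ) / W) :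
    1 / (M : ℝ) * ∑ j ∈ range M, ‖gh Y (fmin X R D) ((j : ℝ) / M)‖ ^ 2 * Wt ((j : ℝ) / M) ≤
      (δ + 400 / (R : ℝ) ^ 2) * T * (12 * X * (1 + Real.log (2 * X))) := by
  have hD1 : 1 ≤ D := le_trans (Nat.one_le_pow _ _ hR) hD
  have hR0 : (0 : ℝ) < R := by exact_mod_cast hR
  have hkey : ∀ α : ℝ, ‖gh Y (fmin X R D) α‖ ^ 2 * Wt α ≤
      (δ + 400 / (R : ℝ) ^ 2) * T * ‖gh Y (Lam (2 * X)) α‖ ^ 2 := by
    intro α
    set G := ‖gh Y (Lam (2 * X)) α‖ ^ 2 with hG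
    have hG0 : 0 ≤ G := by positivity
    rcases hW α with h | ⟨r, a, hr, hrR, ha, hα⟩
    · calc ‖gh Y (fmin X R D) α‖ ^ 2 * Wt α ≤ G * (δ * T) := by
            have h1 := MinGen_norm_sq_le hR hD hD1 hY α
            have h2 := hW0 α
            exact mul_le_mul h1 h h2 hG0
        _ = (δ + 0) * T * G := by ring
        _ ≤ _ := by
            gcongr
            positivity
    · have h1 := Psi_near hR hD hDW hr hrR ha hα
      have h2 : |1 - Psi R D α| ^ 2 ≤ 400 / (R : ℝ) ^ 2 := by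
        calc |1 - Psi R D α| ^ 2 ≤ (20 / R) ^ 2 := by gcongr
          _ = 400 / (R : ℝ) ^ 2 := by rw [div_pow]; norm_num
      calc ‖gh Y (fmin X R D) α‖ ^ 2 * Wt α ≤ (400 / (R : ℝ) ^ 2 * G) * T := by
            rw [MinGen_norm_sq hD1 hY]
            have h3 := hW0 α
            have h4 := hWT α
            refine mul_le_mul ?_ h4 h3 (by positivity)
            gcongr
        _ = (0 + 400 / (R : ℝ) ^ 2) * T * G := by ring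
        _ ≤ _ := by gcongr
  have h0 : (0 : ℝ) ≤ 1 / (M : ℝ) := by positivity
  calc 1 / (M : ℝ) * ∑ j ∈ range M, ‖gh Y (fmin X R D) ((j : ℝ) / M)‖ ^ 2 * Wt ((j : ℝ) / M)
      ≤ 1 / (M : ℝ) * ∑ j ∈ range M, (δ + 400 / (R : ℝ) ^ 2) * T *
          ‖gh Y (Lam (2 * X)) ((j : ℝ) / M)‖ ^ 2 := by
        refine mul_le_mul_of_nonneg_left ?_ h0
        exact Finset.sum_le_sum fun j _ => hkey _
    _ = (δ + 400 / (R : ℝ) ^ 2) * T *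
          (1 / (M : ℝ) * ∑ j ∈ range M, ‖gh Y (Lam (2 * X)) ((j : ℝ) / M)‖ ^ 2) := by
        rw [← Finset.mul_sum]; ring
    _ ≤ _ := by
        have := gh_Lam_sq hX (by omega : 2 * X ≤ Y) hM
        gcongr

end Pool.Agent.SInt
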