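import Pool.Agent.SInt.Defs
import Pool.Agent.Lib.ANT.TypeSums

open Finset Complex
open scoped ArithmeticFunction.Moebius ArithmeticFunction.vonMangoldt

namespace Pool.Agent.SInt

open Pool.Agent.ANT

theorem Fy_nonneg' {V : ℝ} (hV : 0 < V) (α : ℝ) (Z : ℕ) : 0 ≤ LS Z V α := by
  unfold LS
  exact Finset.sum_nonneg fun w _ => (Fy_pos hV _).le

theorem LS_triv (Z : ℕ) {V : ℝ} (hV : 0 < V) (α : ℝ) : LS Z V α ≤ (2 * Z + 1) * V := by
  unfold LS
  calc ∑ w ∈ Icc (-(Z : ℤ)) Z, Fy V (w * α) ≤ ∑ w ∈ Icc (-(Z : ℤ)) Z, V :=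
        Finset.sum_le_sum fun w _ => Fy_le hV _
    _ = (2 * Z + 1) * V := by
        rw [Finset.sum_const, nsmul_eq_mul]
        congr 1
        rw [Int.card_Icc]
        have h : ((Z : ℤ) + 1 - -(Z : ℤ)).toNat = 2 * Z + 1 := by omega
        rw [h]; push_cast; ring

private theorem LSb_split (Z : ℕ) {V : ℝ} (hV : 0 < V) (α : ℝ) :
    LS Z V α ≤ ∑ d ∈ Finset.range (Z + 1), Fy V (((1 * (d : ℤ) + 0 : ℤ) : ℝ) * α) +
      ∑ d ∈ Finset.range (Z + 1), Fy V ((((-1) * (d : ℤ) + 0 : ℤ) : ℝ) * α) := by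
  unfold LS
  have hsub : Icc (-(Z : ℤ)) Z ⊆
      (Finset.range (Z + 1)).image (fun d : ℕ => (1 * (d : ℤ) + 0)) ∪
        (Finset.range (Z + 1)).image (fun d : ℕ => ((-1) * (d : ℤ) + 0)) := by
    intro w hw
    rw [Finset.mem_Icc] at hw
    rw [Finset.mem_union, Finset.mem_image, Finset.mem_image]
    rcases le_total 0 w with h | h
    · left
      exact ⟨w.toNat, Finset.mem_range.mpr (by omega), by omega⟩
    · right
      exact ⟨(-w).toNat, Finset.mem_range.mpr (by omega), by omega⟩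
  have hnn : ∀ w : ℤ, 0 ≤ Fy V (w * α) := fun w => (Fy_pos hV _).le
  calc ∑ w ∈ Icc (-(Z : ℤ)) Z, Fy V (w * α)
      ≤ ∑ w ∈ (Finset.range (Z + 1)).image (fun d : ℕ => (1 * (d : ℤ) + 0)) ∪
          (Finset.range (Z + 1)).image (fun d : ℕ => ((-1) * (d : ℤ) + 0)), Fy V (w * α) :=
        Finset.sum_le_sum_of_subset_of_nonneg hsub fun w _ _ => hnn w
    _ ≤ ∑ w ∈ (Finset.range (Z + 1)).image (fun d : ℕ => (1 * (d : ℤ) + 0)), Fy V (w * α) +
          ∑ w ∈ (Finset.range (Z + 1)).image (fun d : ℕ => ((-1) * (d : ℤ) + 0)),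
            Fy V (w * α) := by
        have := Finset.sum_union_inter
          (s₁ := (Finset.range (Z + 1)).image (fun d : ℕ => (1 * (d : ℤ) + 0)))
          (s₂ := (Finset.range (Z + 1)).image (fun d : ℕ => ((-1) * (d : ℤ) + 0)))
          (f := fun w : ℤ => Fy V (w * α))
        have h0 : 0 ≤ ∑ w ∈ (Finset.range (Z + 1)).image (fun d : ℕ => (1 * (d : ℤ) + 0)) ∩
            (Finset.range (Z + 1)).image (fun d : ℕ => ((-1) * (d : ℤ) + 0)), Fy V (w * α) :=
          Finset.sum_nonneg fun w _ => hnn w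
        linarith
    _ ≤ _ := by
        refine add_le_add ?_ ?_
        · rw [Finset.sum_image]
          intro a _ b _ h
          simp only at h
          omega
        · rw [Finset.sum_image]
          intro a _ b _ h
          simp only at h
          omega

theorem LS_le {α : ℝ} {r : ℕ} (h : Approx α r) (Z : ℕ) {V : ℝ} (hV : 0 < V) :
    LS Z V α ≤ 2 * ((2 * ((Z : ℝ) + 1) / r + 1) * BB r V) := by
  have h1 := interval_sum_le h hV 0 1 (Or.inl rfl) (Z + 1)
  have h2 := interval_sum_le h hV 0 (-1) (Or.inr rfl) (Z + 1)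
  have h3 := LSb_split Z hV α
  push_cast at h1 h2 h3 ⊢
  linarith

/-- Dirichlet's theorem in alternative form. -/
theorem dir_alt (α : ℝ) {P T : ℕ} (hP : 1 ≤ P) (hPT : P ≤ T) :
    (∃ r : ℕ, P ≤ r ∧ r * P ≤ T ∧ Approx α r) ∨
      ∃ (r : ℕ) (a : ℤ), 1 ≤ r ∧ r < P ∧ IsCoprime a (r : ℤ) ∧ |α - a / r| ≤ P / (r * T) := by
  have hn : 0 < T / P := Nat.div_pos hPT hP
  obtain ⟨j, k, hk0, hkn, hjk⟩ := Real.exists_int_int_abs_mul_sub_le α hn
  set n := T / P with hndef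
  have hg : 0 < Int.gcd j k := Int.gcd_pos_of_ne_zero_right _ hk0.ne'
  obtain ⟨a, ha⟩ : ((Int.gcd j k : ℕ) : ℤ) ∣ j := Int.gcd_dvd_left ..
  obtain ⟨r', hr'⟩ : ((Int.gcd j k : ℕ) : ℤ) ∣ k := Int.gcd_dvd_right ..
  set g := Int.gcd j k with hgdef
  have hg0 : (0 : ℤ) < g := by exact_mod_cast hg
  have hr'0 : 0 < r' := by
    by_contra hle
    push Not at hle
    have : (g : ℤ) * r' ≤ 0 := mul_nonpos_of_nonneg_of_nonpos hg0.le hle
    omega
  obtain ⟨r, rfl⟩ : ∃ r : ℕ, (r : ℤ) = r' := ⟨r'.toNat, by omega⟩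
  have hr0 : 0 < r := by exact_mod_cast hr'0
  have hcop : IsCoprime a (r : ℤ) := by
    rw [Int.isCoprime_iff_gcd_eq_one]
    have h1 : Int.gcd j k = g * Int.gcd a r := by
      conv_lhs => rw [ha, hr']
      rw [Int.gcd_mul_left]
      simp
    rw [← hgdef] at h1
    have : g * 1 = g * Int.gcd a r := by omega
    exact (Nat.eq_of_mul_eq_mul_left hg this).symm
  have hrR : (0 : ℝ) < r := by exact_mod_cast hr0
  have hgR : (1 : ℝ) ≤ g := by exact_mod_cast hg
  have hTR : (0 : ℝ) < T := by exact_mod_cast (by omega : 0 < T)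
  have hPR : (1 : ℝ) ≤ P := by exact_mod_cast hP
  have hrn : r ≤ n := by
    have h1 : (r : ℤ) ≤ g * r := by nlinarith
    have h2 : (r : ℤ) ≤ n := by omega
    exact_mod_cast h2
  have hbd : |(r : ℝ) * α - a| ≤ 1 / ((n : ℝ) + 1) := by
    have e1 : (k : ℝ) * α - j = g * ((r : ℝ) * α - a) := by
      have e2 : (k : ℝ) = (g : ℝ) * r := by exact_mod_cast hr'
      have e3 : (j : ℝ) = (g : ℝ) * a := by exact_mod_cast ha
      rw [e2, e3]; ring
    rw [e1, abs_mul, abs_of_nonneg (by positivity : (0 : ℝ) ≤ g)] at hjk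
    have h4 : |(r : ℝ) * α - a| ≤ (g : ℝ) * |(r : ℝ) * α - a| := by
      nlinarith [abs_nonneg ((r : ℝ) * α - a)]
    exact h4.trans hjk
  have hdiv : α - a / r = ((r : ℝ) * α - a) / r := by field_simp
  have hPn : r * P ≤ T := by
    calc r * P ≤ n * P := Nat.mul_le_mul_right _ hrn
      _ ≤ T := Nat.div_mul_le_self T P
  have hnT : (T : ℝ) ≤ P * (n + 1) := by
    have h1 := Nat.lt_mul_div_succ T hP
    have h2 : T ≤ P * (n + 1) := by
      have : P * (T / P + 1) = P * (n + 1) := by rw [hndef]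
      omega
    exact_mod_cast h2
  have hn1 : (0 : ℝ) < (n : ℝ) + 1 := by positivity
  rcases le_or_gt P r with hPr | hPr
  · left
    refine ⟨r, hPr, hPn, hr0, a, hcop, ?_⟩
    rw [hdiv, abs_div, abs_of_pos hrR, div_le_div_iff₀ hrR (by positivity)]
    have h1 : (r : ℝ) ≤ n + 1 := by
      have : (r : ℝ) ≤ n := by exact_mod_cast hrn
      linarith
    have h2 : |(r : ℝ) * α - a| * (n + 1) ≤ 1 := by
      rw [le_div_iff₀ hn1] at hbd
      exact hbd
    have h3 : |(r : ℝ) * α - a| * r ≤ 1 :=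
      le_trans (mul_le_mul_of_nonneg_left h1 (abs_nonneg _)) h2
    calc |(r : ℝ) * α - a| * (r : ℝ) ^ 2 = (|(r : ℝ) * α - a| * r) * r := by ring
      _ ≤ 1 * r := mul_le_mul_of_nonneg_right h3 hrR.le
  · right
    refine ⟨r, a, hr0, hPr, hcop, ?_⟩
    rw [hdiv, abs_div, abs_of_pos hrR]
    have h1 : 1 / ((n : ℝ) + 1) ≤ P / T := by
      rw [div_le_div_iff₀ hn1 hTR]
      linarith
    calc |(r : ℝ) * α - a| / r ≤ (P / T) / r := by
          gcongr
          exact hbd.trans h1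
      _ = P / (r * T) := by field_simp

/-- The alternative for the weights. -/
theorem LS_alt (α : ℝ) {P V Z T : ℕ} (hP : 1 ≤ P) (hPV : P ≤ V) (hPVT : P * V ≤ T) (hZ : Z * V ≤ T) :
    LS Z V α ≤ 100 * (1 + Real.log T) * T / P ∨
      ∃ (r : ℕ) (a : ℤ), 1 ≤ r ∧ r < P ∧ IsCoprime a (r : ℤ) ∧ |α - a / r| ≤ P / (r * T) := by
  have hV1 : 1 ≤ V := hP.trans hPV
  have hPT : P ≤ T := by nlinarith
  rcases dir_alt α hP hPT with ⟨r, hPr, hrP, hA⟩ | h
  swap
  · exact Or.inr h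
  left
  have hV0 : (0 : ℝ) < V := by exact_mod_cast (by omega : 0 < V)
  have hPR : (1 : ℝ) ≤ P := by exact_mod_cast hP
  have hP0 : (0 : ℝ) < P := by linarith
  have hVR : (1 : ℝ) ≤ V := by exact_mod_cast hV1
  have hPVR : (P : ℝ) ≤ V := by exact_mod_cast hPV
  have hT1 : (1 : ℝ) ≤ T := by exact_mod_cast (by omega : 1 ≤ T)
  have hPrR : (P : ℝ) ≤ r := by exact_mod_cast hPr
  have hr0 : (0 : ℝ) < r := by linarith
  have hrPR : (r : ℝ) * P ≤ T := by exact_mod_cast hrP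
  have hPVT' : (P : ℝ) * V ≤ T := by exact_mod_cast hPVT
  have hZ' : (Z : ℝ) * V ≤ T := by exact_mod_cast hZ
  have hrT : (r : ℝ) ≤ T := by nlinarith
  have h := LS_le hA Z hV0
  set L := 1 + Real.log T with hL
  have hL1 : 1 ≤ L := by
    have := Real.log_nonneg hT1
    linarith
  have hlr : 1 + Real.log r ≤ L := by
    have := Real.log_le_log hr0 hrT
    linarith
  set q : ℝ := T / P with hq
  have hqP : q * P = T := by rw [hq]; field_simp
  have hVq : (V : ℝ) ≤ q := by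
    rw [hq, le_div_iff₀ hP0]; linarith
  have hrq : (r : ℝ) ≤ q := by
    rw [hq, le_div_iff₀ hP0]; linarith
  have hq1 : 1 ≤ q := hVR.trans hVq
  have hZq : (Z : ℝ) ≤ q := by
    rw [hq, le_div_iff₀ hP0]
    calc (Z : ℝ) * P ≤ Z * V := by gcongr
      _ ≤ T := hZ'
  have hZVr : ((Z : ℝ) + 1) * V / r ≤ 2 * q := by
    rw [div_le_iff₀ hr0]
    have h1 : ((Z : ℝ) + 1) * V ≤ 2 * T := by
      have : (V : ℝ) ≤ P * V := by nlinarith
      linarith
    have h2 : (T : ℝ) ≤ q * r := by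
      calc (T : ℝ) = q * P := hqP.symm
        _ ≤ q * r := by gcongr
    linarith
  have e0 : 2 * ((2 * ((Z : ℝ) + 1) / r + 1) * BB r V) =
      8 * (((Z : ℝ) + 1) * V / r) + 16 * ((Z : ℝ) + 1) * (1 + Real.log r) + 4 * V +
        8 * r * (1 + Real.log r) := by
    unfold BB
    field_simp
    ring
  have hlog0 : 0 ≤ 1 + Real.log r := by
    have := Real.log_nonneg (hPR.trans hPrR)
    linarith
  have h5 : 16 * ((Z : ℝ) + 1) * (1 + Real.log r) ≤ 16 * (2 * q) * L := by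
    have : (Z : ℝ) + 1 ≤ 2 * q := by linarith
    gcongr
  have h6 : 8 * r * (1 + Real.log r) ≤ 8 * q * L := by gcongr
  have h7 : q ≤ q * L := by nlinarith
  have e1 : 100 * L * T / P = 100 * (q * L) := by rw [hq]; ring
  rw [e1]
  rw [e0] at h
  nlinarith

end Pool.Agent.SInt
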