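import Pool.Agent.SInt.TriB
import Pool.Agent.SInt.LSb

open Finset Complex
open scoped ArithmeticFunction.Moebius ArithmeticFunction.vonMangoldt

namespace Pool.Agent.SInt

open Pool.Agent.ANT

/-- Schur test for a kernel depending on the difference. -/
private lemma W1b_schur {G : ℤ → ℝ} (hG0 : ∀ w, 0 ≤ G w) (Z : ℕ)
    (hG : ∀ w, (Z : ℤ) < |w| → G w = 0) (c : ℕ → ℂ) (K : ℕ) :
    ∑ k₁ ∈ Icc 1 K, ∑ k₂ ∈ Icc 1 K, ‖c k₁‖ * ‖c k₂‖ * G ((k₁ : ℤ) - k₂) ≤
      (∑ k ∈ Icc 1 K, ‖c k‖ ^ 2) * ∑ w ∈ Icc (-(Z : ℤ)) Z, G w := by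
  classical
  set L := ∑ w ∈ Icc (-(Z : ℤ)) Z, G w with hL
  have hrow : ∀ (e : ℕ → ℤ), Function.Injective e → ∑ k ∈ Icc 1 K, G (e k) ≤ L := by
    intro e he
    have h1 : ∑ k ∈ Icc 1 K, G (e k) = ∑ w ∈ (Icc 1 K).image e, G w :=
      (Finset.sum_image fun a _ b _ h => he h).symm
    rw [h1, ← Finset.sum_filter_add_sum_filter_not ((Icc 1 K).image e)
      (fun w => w ∈ Icc (-(Z : ℤ)) Z)]
    have h2 : ∑ w ∈ ((Icc 1 K).image e).filter (fun w => ¬ w ∈ Icc (-(Z : ℤ)) Z), G w = 0 := by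
      refine Finset.sum_eq_zero fun w hw => hG w ?_
      have h3 := (Finset.mem_filter.1 hw).2
      rw [Finset.mem_Icc, not_and_or, not_le, not_le] at h3
      rcases h3 with h3 | h3
      · have := neg_le_abs w
        linarith
      · have := le_abs_self w
        linarith
    rw [h2, add_zero]
    refine Finset.sum_le_sum_of_subset_of_nonneg ?_ fun w _ _ => hG0 w
    intro w hw
    exact (Finset.mem_filter.1 hw).2
  have h1 : ∀ k₁ : ℕ, ∑ k₂ ∈ Icc 1 K, G ((k₁ : ℤ) - k₂) ≤ L := by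
    intro k₁
    refine hrow (fun k => (k₁ : ℤ) - k) ?_
    intro a b h
    simpa using h
  have h2 : ∀ k₂ : ℕ, ∑ k₁ ∈ Icc 1 K, G ((k₁ : ℤ) - k₂) ≤ L := by
    intro k₂
    refine hrow (fun k => (k : ℤ) - k₂) ?_
    intro a b h
    simpa using h
  calc ∑ k₁ ∈ Icc 1 K, ∑ k₂ ∈ Icc 1 K, ‖c k₁‖ * ‖c k₂‖ * G ((k₁ : ℤ) - k₂)
      ≤ ∑ k₁ ∈ Icc 1 K, ∑ k₂ ∈ Icc 1 K,
          (‖c k₁‖ ^ 2 / 2 * G ((k₁ : ℤ) - k₂) + ‖c k₂‖ ^ 2 / 2 * G ((k₁ : ℤ) - k₂)) := by
        refine Finset.sum_le_sum fun k₁ _ => Finset.sum_le_sum fun k₂ _ => ?_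
        have h3 := hG0 ((k₁ : ℤ) - k₂)
        nlinarith [sq_nonneg (‖c k₁‖ - ‖c k₂‖)]
    _ = ∑ k₁ ∈ Icc 1 K, ‖c k₁‖ ^ 2 / 2 * ∑ k₂ ∈ Icc 1 K, G ((k₁ : ℤ) - k₂) +
          ∑ k₂ ∈ Icc 1 K, ‖c k₂‖ ^ 2 / 2 * ∑ k₁ ∈ Icc 1 K, G ((k₁ : ℤ) - k₂) := by
        simp_rw [Finset.sum_add_distrib, Finset.mul_sum]
        congr 1
        exact Finset.sum_comm
    _ ≤ ∑ k₁ ∈ Icc 1 K, ‖c k₁‖ ^ 2 / 2 * L + ∑ k₂ ∈ Icc 1 K, ‖c k₂‖ ^ 2 / 2 * L := by
        refine add_le_add (Finset.sum_le_sum fun k _ => ?_) (Finset.sum_le_sum fun k _ => ?_)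
        · exact mul_le_mul_of_nonneg_left (h1 k) (by positivity)
        · exact mul_le_mul_of_nonneg_left (h2 k) (by positivity)
    _ = (∑ k ∈ Icc 1 K, ‖c k‖ ^ 2) * L := by
        rw [← Finset.sum_mul, ← Finset.sum_div]
        ring

/-- The sum over the moduli `q m`, `m ∈ [U, 2U)`. -/
private lemma W1b_T {W U q : ℕ} (hW : 1 ≤ W) (hU : 1 ≤ U) (hq : 1 ≤ q) (α : ℝ) (w : ℤ) :
    ‖∑ m ∈ Ico U (2 * U), ((tri W (((q * m : ℕ) : ℝ) * w) : ℝ) : ℂ) *
      ee (((q * m : ℕ) : ℝ) * w * α)‖ ≤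
      if |w| ≤ ((W / (q * U) : ℕ) : ℤ) then Fy U (w * (q * α)) else 0 := by
  have hU0 : (0 : ℝ) < U := by exact_mod_cast hU
  split_ifs with hw
  · have hI : Ico U (2 * U) = Ioc (U - 1) (2 * U - 1) := by
      ext m
      rw [Finset.mem_Ico, Finset.mem_Ioc]
      omega
    have h1 : ∑ m ∈ Ico U (2 * U), ((tri W (((q * m : ℕ) : ℝ) * w) : ℝ) : ℂ) *
        ee (((q * m : ℕ) : ℝ) * w * α) =
        ∑ m ∈ Ioc (U - 1) (2 * U - 1), ee (m * (w * (q * α))) *
          ((tri W (((q * m : ℕ) : ℝ) * w) : ℝ) : ℂ) := by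
      rw [hI]
      refine Finset.sum_congr rfl fun m _ => ?_
      rw [mul_comm]
      congr 2
      push_cast
      ring
    rw [h1]
    have h2 : ‖∑ m ∈ Ioc (U - 1) (2 * U - 1), ee (m * (w * (q * α))) *
        (((fun m : ℕ => tri W (((q * m : ℕ) : ℝ) * w)) m : ℝ) : ℂ)‖ ≤
        Fy U (w * (q * α)) * (fun m : ℕ => tri W (((q * m : ℕ) : ℝ) * w)) (U - 1 + 1) := by
      refine abel_ineq (by omega) (fun n _ => tri_nonneg _ _) (fun n _ => ?_) (fun u _ hu => ?_)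
      · refine tri_anti ?_
        rw [abs_mul, abs_mul]
        refine mul_le_mul_of_nonneg_right ?_ (abs_nonneg _)
        rw [abs_of_nonneg (by positivity), abs_of_nonneg (by positivity)]
        exact_mod_cast Nat.mul_le_mul_left q (Nat.le_succ n)
      · refine norm_geom_le hU0 ?_
        exact_mod_cast (by omega : u - (U - 1) ≤ U)
    refine h2.trans ?_
    calc _ ≤ Fy U (w * (q * α)) * 1 :=
          mul_le_mul_of_nonneg_left (tri_le_one _ _) (Fy_pos hU0 _).le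
      _ = _ := mul_one _
  · rw [Finset.sum_eq_zero, norm_zero]
    intro m hm
    have hm1 := (Finset.mem_Ico.1 hm).1
    rw [tri_eq_zero hW, Complex.ofReal_zero, zero_mul]
    rw [not_le] at hw
    have hqU : 0 < q * U := Nat.mul_pos hq hU
    have h1 : W < (W / (q * U) + 1) * (q * U) := by
      simpa [mul_comm] using Nat.lt_mul_of_div_lt (Nat.lt_succ_self (W / (q * U))) hqU
    have h2 : ((W / (q * U) : ℕ) : ℤ) + 1 ≤ |w| := by omega
    have h3 : ((W / (q * U) : ℕ) : ℝ) + 1 ≤ |(w : ℝ)| := by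
      have h4 := (Int.cast_le (R := ℝ)).2 h2
      rw [Int.cast_add, Int.cast_natCast, Int.cast_one, Int.cast_abs] at h4
      exact h4
    have h5 : (W : ℝ) < (((W / (q * U) : ℕ) : ℝ) + 1) * ((q : ℝ) * U) := by exact_mod_cast h1
    rw [abs_mul, abs_of_nonneg (by positivity : (0 : ℝ) ≤ ((q * m : ℕ) : ℝ))]
    have h6 : (q : ℝ) * U ≤ ((q * m : ℕ) : ℝ) := by exact_mod_cast Nat.mul_le_mul_left q hm1
    have h7 : (0 : ℝ) ≤ (q : ℝ) * U := by positivity
    nlinarith [abs_nonneg (w : ℝ)]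

/-- Weight for coefficients independent of the modulus, moduli `q m`, `m ∈ [U, 2U)`. -/
theorem W1_le {W U q : ℕ} (hW : 1 ≤ W) (hU : 1 ≤ U) (hq : 1 ≤ q) (c : ℕ → ℂ) (K : ℕ) (α : ℝ) :
    W1 W ((Ico U (2 * U)).image (fun m => q * m)) (fun _ => c) K α ≤
      (∑ k ∈ Icc 1 K, ‖c k‖ ^ 2) * LS (W / (q * U)) U (q * α) := by
  classical
  have hU0 : (0 : ℝ) < U := by exact_mod_cast hU
  set G : ℤ → ℝ := fun w => if |w| ≤ ((W / (q * U) : ℕ) : ℤ) then Fy U (w * (q * α)) else 0 with hG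
  have hG0 : ∀ w, 0 ≤ G w := by
    intro w
    simp only [hG]
    split_ifs
    · exact (Fy_pos hU0 _).le
    · exact le_rfl
  have hGZ : ∀ w, ((W / (q * U) : ℕ) : ℤ) < |w| → G w = 0 := by
    intro w hw
    simp only [hG]
    rw [if_neg (not_le.2 hw)]
  have hGL : ∑ w ∈ Icc (-((W / (q * U) : ℕ) : ℤ)) ((W / (q * U) : ℕ) : ℤ), G w =
      LS (W / (q * U)) U (q * α) := by
    unfold LS
    refine Finset.sum_congr rfl fun w hw => ?_
    simp only [hG]
    rw [if_pos (abs_le.2 (Finset.mem_Icc.1 hw))]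
  rw [← hGL]
  refine le_trans ?_ (W1b_schur hG0 _ hGZ c K)
  unfold W1
  rw [Finset.sum_image (fun a _ b _ h => Nat.eq_of_mul_eq_mul_left hq h)]
  have h1 : ∑ m ∈ Ico U (2 * U), ∑ k₁ ∈ Icc 1 K, ∑ k₂ ∈ Icc 1 K,
      c k₁ * (starRingEnd ℂ) (c k₂) *
        ((tri W (((q * m : ℕ) : ℝ) * ((k₁ : ℝ) - k₂)) : ℝ) : ℂ) *
        ee (((q * m : ℕ) : ℝ) * ((k₁ : ℝ) - k₂) * α) =
      ∑ k₁ ∈ Icc 1 K, ∑ k₂ ∈ Icc 1 K, c k₁ * (starRingEnd ℂ) (c k₂) *
        ∑ m ∈ Ico U (2 * U),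
          ((tri W (((q * m : ℕ) : ℝ) * (((k₁ : ℤ) - k₂ : ℤ) : ℝ)) : ℝ) : ℂ) *
          ee (((q * m : ℕ) : ℝ) * (((k₁ : ℤ) - k₂ : ℤ) : ℝ) * α) := by
    rw [Finset.sum_comm]
    refine Finset.sum_congr rfl fun k₁ _ => ?_
    rw [Finset.sum_comm]
    refine Finset.sum_congr rfl fun k₂ _ => ?_
    rw [Finset.mul_sum]
    refine Finset.sum_congr rfl fun m _ => ?_
    rw [Int.cast_sub, Int.cast_natCast, Int.cast_natCast]
    ring
  rw [h1]
  refine (norm_sum_le _ _).trans (Finset.sum_le_sum fun k₁ _ => ?_)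
  refine (norm_sum_le _ _).trans (Finset.sum_le_sum fun k₂ _ => ?_)
  rw [norm_mul, norm_mul, RCLike.norm_conj]
  exact mul_le_mul_of_nonneg_left (W1b_T hW hU hq α _) (by positivity)

theorem W1_nonneg (W : ℕ) (S : Finset ℕ) (c : ℕ → ℕ → ℂ) (K : ℕ) (α : ℝ) : 0 ≤ W1 W S c K α := by
  unfold W1
  exact norm_nonneg _

/-- Trivial bound for one modulus. -/
theorem W1_triv {W s K : ℕ} (hW : 1 ≤ W) (hs : 1 ≤ s) (c : ℕ → ℂ) (α : ℝ) :
    W1 W {s} (fun _ => c) K α ≤ (∑ k ∈ Icc 1 K, ‖c k‖ ^ 2) * (2 * W / s + 1) := by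
  have hs0 : (0 : ℝ) < s := by exact_mod_cast hs
  set G : ℤ → ℝ := fun w => tri W (s * w) with hG
  have hGZ : ∀ w, ((W / s : ℕ) : ℤ) < |w| → G w = 0 := by
    intro w hw
    simp only [hG]
    refine tri_eq_zero hW ?_
    have h1 : W < (W / s + 1) * s := by
      simpa [mul_comm] using Nat.lt_mul_of_div_lt (Nat.lt_succ_self (W / s)) hs
    have h2 : ((W / s : ℕ) : ℤ) + 1 ≤ |w| := by omega
    have h3 : ((W / s : ℕ) : ℝ) + 1 ≤ |(w : ℝ)| := by
      have h4 := (Int.cast_le (R := ℝ)).2 h2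
      rw [Int.cast_add, Int.cast_natCast, Int.cast_one, Int.cast_abs] at h4
      exact h4
    have h5 : (W : ℝ) < (((W / s : ℕ) : ℝ) + 1) * (s : ℝ) := by exact_mod_cast h1
    rw [abs_mul, abs_of_nonneg hs0.le]
    nlinarith
  have h1 := W1b_schur (G := G) (fun w => tri_nonneg _ _) _ hGZ c K
  have h2 : ∑ w ∈ Icc (-((W / s : ℕ) : ℤ)) ((W / s : ℕ) : ℤ), G w ≤ 2 * W / s + 1 := by
    calc ∑ w ∈ Icc (-((W / s : ℕ) : ℤ)) ((W / s : ℕ) : ℤ), G w
        ≤ ∑ w ∈ Icc (-((W / s : ℕ) : ℤ)) ((W / s : ℕ) : ℤ), (1 : ℝ) :=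
          Finset.sum_le_sum fun w _ => tri_le_one _ _
      _ = 2 * ((W / s : ℕ) : ℝ) + 1 := by
          rw [Finset.sum_const, Int.card_Icc, nsmul_eq_mul, mul_one]
          have h3 : (((W / s : ℕ) : ℤ) + 1 - -((W / s : ℕ) : ℤ)).toNat = 2 * (W / s) + 1 := by omega
          rw [h3]
          push_cast
          ring
      _ ≤ 2 * W / s + 1 := by
          have h4 : ((W / s : ℕ) : ℝ) ≤ W / s := Nat.cast_div_le
          have h5 : 2 * (W : ℝ) / s = 2 * (W / s) := by ring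
          rw [h5]
          linarith
  refine le_trans ?_ (h1.trans (mul_le_mul_of_nonneg_left h2 (by positivity)))
  unfold W1
  rw [Finset.sum_singleton]
  refine (norm_sum_le _ _).trans (Finset.sum_le_sum fun k₁ _ => ?_)
  refine (norm_sum_le _ _).trans (Finset.sum_le_sum fun k₂ _ => ?_)
  rw [norm_mul, norm_mul, norm_mul, RCLike.norm_conj, norm_ee, mul_one, Complex.norm_real,
    Real.norm_of_nonneg (tri_nonneg _ _)]
  simp only [hG]
  rw [Int.cast_sub, Int.cast_natCast, Int.cast_natCast]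

/-- The number of representations of a difference. -/
private lemma W1b_count (φ : ℤ → ℂ) (M : ℕ) (u : ℕ) (hu : u ≤ M) :
    ∑ k₁ ∈ Icc 1 u, ∑ k₂ ∈ Icc 1 u, φ ((k₁ : ℤ) - k₂) =
      ∑ w ∈ Icc (-(M : ℤ)) M, ((max 0 ((u : ℝ) - |(w : ℝ)|) : ℝ) : ℂ) * φ w := by
  classical
  induction u with
  | zero =>
    rw [Finset.Icc_eq_empty (by omega), Finset.sum_empty]
    symm
    refine Finset.sum_eq_zero fun w _ => ?_
    have h1 : max 0 (((0 : ℕ) : ℝ) - |(w : ℝ)|) = 0 := by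
      refine max_eq_left ?_
      have := abs_nonneg (w : ℝ)
      push_cast
      linarith
    rw [h1, Complex.ofReal_zero, zero_mul]
  | succ u ih =>
    have ih' := ih (by omega)
    have h1 : ∑ k₁ ∈ Icc 1 (u + 1), ∑ k₂ ∈ Icc 1 (u + 1), φ ((k₁ : ℤ) - k₂) =
        ∑ k₁ ∈ Icc 1 u, ∑ k₂ ∈ Icc 1 u, φ ((k₁ : ℤ) - k₂) +
          (∑ k₁ ∈ Icc 1 u, φ ((k₁ : ℤ) - (u + 1 : ℕ)) +
            ∑ k₂ ∈ Icc 1 (u + 1), φ (((u + 1 : ℕ) : ℤ) - k₂)) := by
      rw [Finset.sum_Icc_succ_top (by omega)]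
      have h2 : ∀ k₁ ∈ Icc 1 u, ∑ k₂ ∈ Icc 1 (u + 1), φ ((k₁ : ℤ) - k₂) =
          ∑ k₂ ∈ Icc 1 u, φ ((k₁ : ℤ) - k₂) + φ ((k₁ : ℤ) - (u + 1 : ℕ)) := by
        intro k₁ _
        rw [Finset.sum_Icc_succ_top (by omega)]
      rw [Finset.sum_congr rfl h2, Finset.sum_add_distrib]
      ring
    have h3 : ∑ k₁ ∈ Icc 1 u, φ ((k₁ : ℤ) - (u + 1 : ℕ)) +
        ∑ k₂ ∈ Icc 1 (u + 1), φ (((u + 1 : ℕ) : ℤ) - k₂) =
        ∑ w ∈ Icc (-(u : ℤ)) u, φ w := by
      have e1 : ∑ k₁ ∈ Icc 1 u, φ ((k₁ : ℤ) - (u + 1 : ℕ)) =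
          ∑ w ∈ (Icc 1 u).image (fun k : ℕ => (k : ℤ) - (u + 1 : ℕ)), φ w := by
        rw [Finset.sum_image]
        intro a _ b _ h
        simpa using h
      have e2 : ∑ k₂ ∈ Icc 1 (u + 1), φ (((u + 1 : ℕ) : ℤ) - k₂) =
          ∑ w ∈ (Icc 1 (u + 1)).image (fun k : ℕ => ((u + 1 : ℕ) : ℤ) - k), φ w := by
        rw [Finset.sum_image]
        intro a _ b _ h
        simpa using h
      rw [e1, e2, ← Finset.sum_union]
      · refine Finset.sum_congr ?_ fun _ _ => rfl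
        ext w
        simp only [Finset.mem_union, Finset.mem_image, Finset.mem_Icc]
        constructor
        · rintro (⟨k, hk, rfl⟩ | ⟨k, hk, rfl⟩)
          · push_cast
            omega
          · push_cast
            omega
        · intro hw
          rcases lt_or_ge w 0 with h | h
          · left
            refine ⟨(w + (u + 1)).toNat, ?_, ?_⟩
            · omega
            · push_cast
              omega
          · right
            refine ⟨((u + 1 : ℤ) - w).toNat, ?_, ?_⟩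
            · omega
            · push_cast
              omega
      · rw [Finset.disjoint_left]
        intro w h4 h5
        obtain ⟨k, hk, rfl⟩ := Finset.mem_image.1 h4
        obtain ⟨l, hl, h6⟩ := Finset.mem_image.1 h5
        rw [Finset.mem_Icc] at hk hl
        push_cast at h6
        omega
    have h7 : ∑ w ∈ Icc (-(u : ℤ)) u, φ w =
        ∑ w ∈ Icc (-(M : ℤ)) M, (if |w| ≤ (u : ℤ) then φ w else 0) := by
      rw [← Finset.sum_filter]
      refine Finset.sum_congr ?_ fun _ _ => rfl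
      ext w
      rw [Finset.mem_filter, Finset.mem_Icc, Finset.mem_Icc, abs_le]
      omega
    rw [h1, h3, h7, ih', ← Finset.sum_add_distrib]
    refine Finset.sum_congr rfl fun w _ => ?_
    have h8 : ((|w| : ℤ) : ℝ) = |(w : ℝ)| := by push_cast; rfl
    split_ifs with hw
    · have h9 : |(w : ℝ)| ≤ u := by
        rw [← h8]
        exact_mod_cast hw
      rw [max_eq_right (by linarith), max_eq_right (by push_cast; linarith)]
      push_cast
      ring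
    · have h9 : (u : ℝ) + 1 ≤ |(w : ℝ)| := by
        rw [← h8]
        have : (u : ℤ) + 1 ≤ |w| := by omega
        exact_mod_cast this
      rw [max_eq_left (by linarith), max_eq_left (by push_cast; linarith)]
      push_cast
      ring

/-- Second summation by parts for even sequences that are convex on the positive integers. -/
private lemma W1b_D2 {A : ℤ → ℝ} {M : ℕ} (hA : ∀ w, (M : ℤ) ≤ |w| → A w = 0)
    (hev : ∀ w, A (-w) = A w) (hcv : ∀ w, 1 ≤ w → 0 ≤ A (w - 1) - 2 * A w + A (w + 1))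
    (h01 : A 1 ≤ A 0) (x : ℝ) :
    ‖∑ w ∈ Icc (-(M : ℤ)) M, (A w : ℂ) * ee (w * x)‖ * (16 * nn x ^ 2) ≤ 4 * (A 0 - A 1) := by
  classical
  have hsum : ∀ B : ℤ → ℂ, (∀ w, (M : ℤ) < |w| → B w = 0) →
      ∑' w, B w = ∑ w ∈ Icc (-(M : ℤ)) M, B w := by
    intro B hB
    refine tsum_eq_sum fun w hw => hB w ?_
    rw [Finset.mem_Icc, not_and_or, not_le, not_le] at hw
    rcases hw with h | h
    · have := neg_le_abs w
      linarith
    · have := le_abs_self w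
      linarith
  have hup : ∀ z : ℤ → ℂ, ∑ w ∈ Icc (-(M : ℤ)) M, (A (w - 1) : ℂ) * z w =
      ∑ w ∈ Icc (-(M : ℤ)) M, (A w : ℂ) * z (w + 1) := by
    intro z
    rw [← hsum (fun w => (A (w - 1) : ℂ) * z w), ← hsum (fun w => (A w : ℂ) * z (w + 1)),
      ← (Equiv.addRight (1 : ℤ)).tsum_eq]
    · refine tsum_congr fun w => ?_
      simp
    · intro w hw
      rw [hA w hw.le, Complex.ofReal_zero, zero_mul]
    · intro w hw
      rw [hA (w - 1), Complex.ofReal_zero, zero_mul]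
      have h1 := abs_sub_abs_le_abs_sub w 1
      rw [abs_one] at h1
      omega
  have hdn : ∀ z : ℤ → ℂ, ∑ w ∈ Icc (-(M : ℤ)) M, (A (w + 1) : ℂ) * z w =
      ∑ w ∈ Icc (-(M : ℤ)) M, (A w : ℂ) * z (w - 1) := by
    intro z
    rw [← hsum (fun w => (A (w + 1) : ℂ) * z w), ← hsum (fun w => (A w : ℂ) * z (w - 1)),
      ← (Equiv.subRight (1 : ℤ)).tsum_eq]
    · refine tsum_congr fun w => ?_
      simp
    · intro w hw
      rw [hA w hw.le, Complex.ofReal_zero, zero_mul]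
    · intro w hw
      rw [hA (w + 1), Complex.ofReal_zero, zero_mul]
      have h1 := abs_sub_abs_le_abs_sub w (-1)
      rw [abs_neg, abs_one, sub_neg_eq_add] at h1
      omega
  have hmain : ∀ y : ℝ, (ee y - 2 + ee (-y)) * ∑ w ∈ Icc (-(M : ℤ)) M, (A w : ℂ) * ee (w * y) =
      ∑ w ∈ Icc (-(M : ℤ)) M, ((A (w - 1) - 2 * A w + A (w + 1) : ℝ) : ℂ) * ee (w * y) := by
    intro y
    have h1 : ∑ w ∈ Icc (-(M : ℤ)) M, ((A (w - 1) - 2 * A w + A (w + 1) : ℝ) : ℂ) * ee (w * y) =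
        ∑ w ∈ Icc (-(M : ℤ)) M, (A (w - 1) : ℂ) * ee (w * y) -
          2 * ∑ w ∈ Icc (-(M : ℤ)) M, (A w : ℂ) * ee (w * y) +
          ∑ w ∈ Icc (-(M : ℤ)) M, (A (w + 1) : ℂ) * ee (w * y) := by
      rw [Finset.mul_sum, ← Finset.sum_sub_distrib, ← Finset.sum_add_distrib]
      refine Finset.sum_congr rfl fun w _ => ?_
      push_cast
      ring
    rw [h1, hup (fun w => ee (w * y)), hdn (fun w => ee (w * y))]
    have h2 : ∑ w ∈ Icc (-(M : ℤ)) M, (A w : ℂ) * ee (((w + 1 : ℤ) : ℝ) * y) =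
        ee y * ∑ w ∈ Icc (-(M : ℤ)) M, (A w : ℂ) * ee (w * y) := by
      rw [Finset.mul_sum]
      refine Finset.sum_congr rfl fun w _ => ?_
      rw [Int.cast_add, Int.cast_one, add_mul, one_mul, ee_add]
      ring
    have h3 : ∑ w ∈ Icc (-(M : ℤ)) M, (A w : ℂ) * ee (((w - 1 : ℤ) : ℝ) * y) =
        ee (-y) * ∑ w ∈ Icc (-(M : ℤ)) M, (A w : ℂ) * ee (w * y) := by
      rw [Finset.mul_sum]
      refine Finset.sum_congr rfl fun w _ => ?_
      rw [Int.cast_sub, Int.cast_one, sub_mul, one_mul, sub_eq_add_neg, ee_add]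
      ring
    rw [h2, h3]
    ring
  have hzero : ∑ w ∈ Icc (-(M : ℤ)) M, (A (w - 1) - 2 * A w + A (w + 1)) = 0 := by
    have h1 := hmain 0
    rw [neg_zero, ee_zero] at h1
    have h2 : ∑ w ∈ Icc (-(M : ℤ)) M, ((A (w - 1) - 2 * A w + A (w + 1) : ℝ) : ℂ) *
        ee ((w : ℝ) * 0) = ((∑ w ∈ Icc (-(M : ℤ)) M, (A (w - 1) - 2 * A w + A (w + 1)) : ℝ) : ℂ) := by
      rw [Complex.ofReal_sum]
      refine Finset.sum_congr rfl fun w _ => ?_
      rw [mul_zero, ee_zero, mul_one]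
    rw [h2] at h1
    have h3 : ((∑ w ∈ Icc (-(M : ℤ)) M, (A (w - 1) - 2 * A w + A (w + 1)) : ℝ) : ℂ) = 0 := by
      rw [← h1]
      ring
    exact_mod_cast h3
  have hpos : ∀ w : ℤ, w ≠ 0 → 0 ≤ A (w - 1) - 2 * A w + A (w + 1) := by
    intro w hw
    rcases lt_or_gt_of_ne hw with h | h
    · have h1 := hcv (-w) (by omega)
      have e1 : A (-w - 1) = A (w + 1) := by
        rw [← hev (w + 1)]
        congr 1
        ring
      have e2 : A (-w + 1) = A (w - 1) := by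
        rw [← hev (w - 1)]
        congr 1
        ring
      rw [e1, e2, hev] at h1
      linarith
    · exact hcv w (by omega)
  have hbound : ∑ w ∈ Icc (-(M : ℤ)) M, |A (w - 1) - 2 * A w + A (w + 1)| ≤ 4 * (A 0 - A 1) := by
    have h1 : ∀ w ∈ Icc (-(M : ℤ)) M, |A (w - 1) - 2 * A w + A (w + 1)| ≤
        (A (w - 1) - 2 * A w + A (w + 1)) + (if w = 0 then 4 * (A 0 - A 1) else 0) := by
      intro w _
      by_cases hw : w = 0
      · subst hw
        rw [if_pos rfl, zero_sub, zero_add, hev 1, abs_le]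
        constructor <;> linarith
      · rw [if_neg hw, add_zero, abs_of_nonneg (hpos w hw)]
    refine (Finset.sum_le_sum h1).trans ?_
    rw [Finset.sum_add_distrib, hzero, zero_add, Finset.sum_ite_eq']
    split_ifs
    · exact le_rfl
    · linarith
  have hn : 16 * nn x ^ 2 ≤ ‖ee x - 2 + ee (-x)‖ := by
    have h1 : ee x - 2 + ee (-x) = -((ee x - 1) * (ee (-x) - 1)) := by
      have h2 : ee x * ee (-x) = 1 := by
        rw [← ee_add, add_neg_cancel, ee_zero]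
      have h3 : (ee x - 1) * (ee (-x) - 1) = ee x * ee (-x) - ee x - ee (-x) + 1 := by ring
      rw [h3, h2]
      ring
    have h4 : ‖ee (-x) - 1‖ = ‖ee x - 1‖ := by
      rw [← conj_ee, ← RCLike.norm_conj (ee x - 1), map_sub, map_one]
    rw [h1, norm_neg, norm_mul, h4]
    have h5 := four_nn_le x
    have h6 := nn_nonneg x
    nlinarith
  calc ‖∑ w ∈ Icc (-(M : ℤ)) M, (A w : ℂ) * ee (w * x)‖ * (16 * nn x ^ 2)
      ≤ ‖∑ w ∈ Icc (-(M : ℤ)) M, (A w : ℂ) * ee (w * x)‖ * ‖ee x - 2 + ee (-x)‖ :=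
        mul_le_mul_of_nonneg_left hn (norm_nonneg _)
    _ = ‖(ee x - 2 + ee (-x)) * ∑ w ∈ Icc (-(M : ℤ)) M, (A w : ℂ) * ee (w * x)‖ := by
        rw [norm_mul, mul_comm]
    _ ≤ ∑ w ∈ Icc (-(M : ℤ)) M, |A (w - 1) - 2 * A w + A (w + 1)| := by
        rw [hmain x]
        refine (norm_sum_le _ _).trans (Finset.sum_le_sum fun w _ => ?_)
        rw [norm_mul, norm_ee, mul_one, Complex.norm_real, Real.norm_eq_abs]
    _ ≤ 4 * (A 0 - A 1) := hbound

/-- The positive part of a linear function is convex and decreasing. -/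
private lemma W1b_conv {a b : ℝ} (hb : 0 ≤ b) (x : ℝ) :
    0 ≤ max 0 (a - b * (x + 1)) ∧ max 0 (a - b * (x + 1)) ≤ max 0 (a - b * x) ∧
      2 * max 0 (a - b * x) ≤ max 0 (a - b * (x - 1)) + max 0 (a - b * (x + 1)) := by
  refine ⟨le_max_left _ _, max_le_max le_rfl (by nlinarith), ?_⟩
  rcases le_total (a - b * x) 0 with h | h
  · rw [max_eq_left h]
    have h1 := le_max_left 0 (a - b * (x - 1))
    have h2 := le_max_left 0 (a - b * (x + 1))
    linarith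
  · rw [max_eq_right h]
    have h1 := le_max_right 0 (a - b * (x - 1))
    have h2 := le_max_right 0 (a - b * (x + 1))
    linarith

/-- One modulus, smooth coefficient: decay away from the fractions with denominator `s`. -/
theorem W1_one {W s u : ℕ} (hW : 1 ≤ W) (hs : 1 ≤ s) (hsW : s ≤ W) {α : ℝ} (hα : 0 < nn (s * α)) :
    W1 W {s} (fun _ _ => 1) u α ≤ (2 + u * s / W) / nn (s * α) ^ 2 := by
  have hW0 : (0 : ℝ) < W := by exact_mod_cast hW
  have hs0 : (0 : ℝ) < s := by exact_mod_cast hs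
  have hsW' : (s : ℝ) ≤ W := by exact_mod_cast hsW
  set b : ℝ := s / W with hb
  have hb0 : 0 ≤ b := by positivity
  have hb1 : b ≤ 1 := (div_le_one hW0).2 hsW'
  set A : ℤ → ℝ := fun w => max 0 ((u : ℝ) - |(w : ℝ)|) * tri W (s * w) with hA
  have htri : ∀ w : ℤ, tri W (s * w) = max 0 (1 - b * |(w : ℝ)|) := by
    intro w
    unfold tri
    rw [abs_mul, abs_of_nonneg hs0.le, hb]
    congr 2
    ring
  have hAe : ∀ w : ℤ, 0 ≤ w → A w = max 0 ((u : ℝ) - 1 * w) * max 0 (1 - b * w) := by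
    intro w hw
    simp only [hA]
    rw [htri, abs_of_nonneg (by exact_mod_cast hw), one_mul]
  have h1 := W1b_D2 (A := A) (M := u + 1) ?_ ?_ ?_ ?_ (s * α)
  · have h2 : A 0 - A 1 ≤ 1 + u * b := by
      rw [hAe 0 le_rfl, hAe 1 (by norm_num)]
      push_cast
      rw [mul_zero, mul_zero, sub_zero, sub_zero, mul_one, mul_one, max_eq_right (Nat.cast_nonneg u),
        max_eq_right (zero_le_one), max_eq_right (by linarith : (0 : ℝ) ≤ 1 - b)]
      have h3 := le_max_right 0 ((u : ℝ) - 1)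
      have h4 : 0 ≤ 1 - b := by linarith
      nlinarith
    have h5 : W1 W {s} (fun _ _ => 1) u α =
        ‖∑ w ∈ Icc (-((u + 1 : ℕ) : ℤ)) ((u + 1 : ℕ) : ℤ), (A w : ℂ) * ee (w * (s * α))‖ := by
      unfold W1
      rw [Finset.sum_singleton]
      congr 1
      have h6 : ∀ k₁ ∈ Icc 1 u, ∀ k₂ ∈ Icc 1 u,
          (1 : ℂ) * (starRingEnd ℂ) 1 * ((tri W (s * ((k₁ : ℝ) - k₂)) : ℝ) : ℂ) *
            ee (s * ((k₁ : ℝ) - k₂) * α) =
          (fun w : ℤ => ((tri W (s * w) : ℝ) : ℂ) * ee (w * (s * α))) ((k₁ : ℤ) - k₂) := by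
        intro k₁ _ k₂ _
        simp only
        rw [map_one, mul_one, one_mul, Int.cast_sub, Int.cast_natCast, Int.cast_natCast]
        congr 2
        ring
      rw [Finset.sum_congr rfl fun k₁ hk₁ => Finset.sum_congr rfl fun k₂ hk₂ => h6 k₁ hk₁ k₂ hk₂,
        W1b_count (fun w : ℤ => ((tri W (s * w) : ℝ) : ℂ) * ee (w * (s * α))) (u + 1) u
          (Nat.le_succ u)]
      refine Finset.sum_congr rfl fun w _ => ?_
      simp only [hA]
      push_cast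
      ring
    rw [h5]
    have h7 : (0 : ℝ) < nn (s * α) ^ 2 := by positivity
    have h8 : (u : ℝ) * s / W = u * b := by
      rw [hb]
      ring
    rw [le_div_iff₀ h7, h8]
    have h9 : (0 : ℝ) ≤ u * b := by positivity
    nlinarith
  · intro w hw
    simp only [hA]
    have h2 : ((|w| : ℤ) : ℝ) = |(w : ℝ)| := by push_cast; rfl
    have h3 : ((u + 1 : ℕ) : ℝ) ≤ |(w : ℝ)| := by
      rw [← h2]
      exact_mod_cast hw
    rw [max_eq_left (by push_cast at h3; linarith), zero_mul]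
  · intro w
    simp only [hA]
    rw [Int.cast_neg, abs_neg, mul_neg, tri_neg]
  · intro w hw
    rw [hAe (w - 1) (by omega), hAe w (by omega), hAe (w + 1) (by omega)]
    push_cast
    obtain ⟨p1, p2, p3⟩ := W1b_conv (a := (u : ℝ)) (b := 1) zero_le_one (w : ℝ)
    obtain ⟨q1, q2, q3⟩ := W1b_conv (a := 1) (b := b) hb0 (w : ℝ)
    set a2 := max 0 ((u : ℝ) - 1 * ((w : ℝ) + 1))
    set a0 := max 0 ((u : ℝ) - 1 * (w : ℝ))
    set a1 := max 0 ((u : ℝ) - 1 * ((w : ℝ) - 1))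
    set c2 := max 0 (1 - b * ((w : ℝ) + 1))
    set c0 := max 0 (1 - b * (w : ℝ))
    set c1 := max 0 (1 - b * ((w : ℝ) - 1))
    have e1 : a1 * c1 - 2 * (a0 * c0) + a2 * c2 =
        a0 * ((c1 - c0) - (c0 - c2)) + c0 * ((a1 - a0) - (a0 - a2)) + (a1 - a0) * (c1 - c0) +
          (a0 - a2) * (c0 - c2) := by ring
    rw [e1]
    have g1 : 0 ≤ a0 := p1.trans p2
    have g2 : 0 ≤ c0 := q1.trans q2
    have g3 : 0 ≤ a0 - a2 := by linarith
    have g4 : 0 ≤ c0 - c2 := by linarith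
    have g5 : 0 ≤ (a1 - a0) - (a0 - a2) := by linarith
    have g6 : 0 ≤ (c1 - c0) - (c0 - c2) := by linarith
    have g7 : 0 ≤ a1 - a0 := by linarith
    have g8 : 0 ≤ c1 - c0 := by linarith
    positivity
  · rw [hAe 0 le_rfl, hAe 1 (by norm_num)]
    push_cast
    have k1 : max 0 ((u : ℝ) - 1 * 1) ≤ max 0 ((u : ℝ) - 1 * 0) := max_le_max le_rfl (by linarith)
    have k2 : max 0 (1 - b * 1) ≤ max 0 (1 - b * 0) := max_le_max le_rfl (by nlinarith)
    exact mul_le_mul k1 k2 (le_max_left _ _) (le_max_left _ _)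

end Pool.Agent.SInt
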