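import Pool.Agent.SInt.TTb

open Finset Complex
open scoped ArithmeticFunction.Moebius ArithmeticFunction.vonMangoldt

namespace Pool.Agent.SInt

open Pool.Agent.ANT

/-- Integers of a residue class in the window. -/
private lemma Norm_count (a b : ℕ) (d : ℕ) (hd : 1 ≤ d) (n : ℤ) :
    (((Ioo a b).filter (fun N : ℕ => (d : ℤ) ∣ (N : ℤ) - n)).card : ℝ) ≤ ((b - a : ℕ) : ℝ) / d + 1 := by
  have hd0 : (0 : ℤ) < d := by exact_mod_cast hd
  have hd1 : (0 : ℝ) < d := by exact_mod_cast hd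
  -- injection into an interval of integers
  rcases Nat.lt_or_ge a b with hab | hab
  swap
  · have h1 : Ioo a b = ∅ := Ioo_eq_empty (by omega)
    rw [h1, filter_empty, card_empty]
    push_cast
    positivity
  have h1 : ((Ioo a b).filter (fun N : ℕ => (d : ℤ) ∣ (N : ℤ) - n)).card ≤
      ((Ico (a : ℤ) b).filter (fun x => x ≡ n [ZMOD (d : ℤ)])).card := by
    refine card_le_card_of_injOn (fun N : ℕ => (N : ℤ)) ?_ ?_
    · intro N hN
      simp only [coe_filter, mem_Ioo, Set.mem_ofPred_eq] at hN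
      simp only [coe_filter, mem_Ico, Set.mem_ofPred_eq]
      refine ⟨⟨by omega, by omega⟩, ?_⟩
      exact (Int.modEq_iff_dvd.2 hN.2).symm
    · intro N _ M _ h
      have h' : (N : ℤ) = (M : ℤ) := h
      exact_mod_cast h'
  have h2 := Int.Ico_filter_modEq_card (a := (a : ℤ)) (b := (b : ℤ)) hd0 n
  have h3 : ((((Ico (a : ℤ) b).filter (fun x => x ≡ n [ZMOD (d : ℤ)])).card : ℤ) : ℚ) ≤
      ((b : ℚ) - a) / d + 1 := by
    rw [h2]
    push_cast
    apply max_le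
    · have c1 := Int.ceil_lt_add_one ((((b : ℤ) : ℚ) - n) / ((d : ℤ) : ℚ))
      have c2 := Int.le_ceil ((((a : ℤ) : ℚ) - n) / ((d : ℤ) : ℚ))
      push_cast at c1 c2
      have e : ((b : ℚ) - a) / d = ((b : ℚ) - n) / d - ((a : ℚ) - n) / d := by ring
      rw [e]
      linarith
    · have : (0 : ℚ) ≤ (b : ℚ) - a := by
        have : (a : ℚ) ≤ b := by exact_mod_cast hab.le
        linarith
      positivity
  have h4 : ((((Ico (a : ℤ) b).filter (fun x => x ≡ n [ZMOD (d : ℤ)])).card : ℕ) : ℝ) ≤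
      ((b : ℝ) - a) / d + 1 := by
    have h5 : (((((Ico (a : ℤ) b).filter (fun x => x ≡ n [ZMOD (d : ℤ)])).card : ℤ) : ℚ) : ℝ) ≤
        (((((b : ℚ) - a) / d + 1 : ℚ)) : ℝ) := by exact_mod_cast h3
    push_cast at h5
    exact h5
  rw [Nat.cast_sub hab.le]
  exact le_trans (by exact_mod_cast h1) h4

/-- Number of representations of a fixed integer. -/
private lemma Norm_rep (W X K Y : ℕ) (S : Finset ℕ) (hW1 : 1 ≤ W) (hWX : W ≤ X) (hXW : X ≤ W ^ 2)
    (hY : Y ≤ 32 * X) (hS : ∀ q ∈ S, 1 ≤ q) (n : ℤ) (hn : -(Y : ℤ) ≤ n) :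
    ∑ q ∈ S, ∑ N ∈ Ioo (X - W) (X + W), ∑ k ∈ Icc 1 K,
      (if (N : ℤ) - q * k = n then (1 : ℝ) else 0) ≤
    2 * ∑ d ∈ Icc 1 (6 * W), (((2 * W : ℕ) : ℝ) / d + 1) := by
  have hbig : ∀ q ∈ S, ∀ N ∈ Ioo (X - W) (X + W), ∀ k ∈ Icc 1 K, (N : ℤ) - q * k = n →
      q ≤ 6 * W ∨ k ≤ 6 * W := by
    intro q _ N hN k _ h
    by_contra hc
    have h1 : 6 * W < q := by omega
    have h2 : 6 * W < k := by omega
    rw [mem_Ioo] at hN
    have h3 : (6 * W) * (6 * W) ≤ q * k := Nat.mul_le_mul h1.le h2.le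
    have h4 : (q * k : ℤ) = N - n := by linarith
    have h5 : ((6 * W) * (6 * W) : ℤ) ≤ N - n := by
      rw [← h4]
      exact_mod_cast h3
    have h6 : ((6 * W) * (6 * W) : ℤ) = 36 * ((W ^ 2 : ℕ) : ℤ) := by push_cast; ring
    have h7 : (X : ℤ) ≤ ((W ^ 2 : ℕ) : ℤ) := by exact_mod_cast hXW
    rw [h6] at h5
    omega
  have hsplit : ∀ q ∈ S, ∀ N ∈ Ioo (X - W) (X + W), ∀ k ∈ Icc 1 K,
      (if (N : ℤ) - q * k = n then (1 : ℝ) else 0) ≤
        (if q ≤ 6 * W then (if (N : ℤ) - q * k = n then (1 : ℝ) else 0) else 0) +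
        (if k ≤ 6 * W then (if (N : ℤ) - q * k = n then (1 : ℝ) else 0) else 0) := by
    intro q hq N hN k hk
    by_cases h : (N : ℤ) - q * k = n
    · rcases hbig q hq N hN k hk h with h1 | h1
      · simp only [h, if_true, h1]
        split_ifs <;> norm_num
      · simp only [h, if_true, h1]
        split_ifs <;> norm_num
    · simp [h]
  have hA : ∀ d ∈ Icc 1 (6 * W), ∑ N ∈ Ioo (X - W) (X + W),
      (if (d : ℤ) ∣ (N : ℤ) - n then (1 : ℝ) else 0) ≤ ((2 * W : ℕ) : ℝ) / d + 1 := by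
    intro d hd
    rw [mem_Icc] at hd
    have h1 := Norm_count (X - W) (X + W) d hd.1 n
    have h2 : X + W - (X - W) = 2 * W := by omega
    rw [h2] at h1
    rw [← sum_filter, sum_const, nsmul_eq_mul, mul_one]
    exact h1
  have hfirst : ∑ q ∈ S, ∑ N ∈ Ioo (X - W) (X + W), ∑ k ∈ Icc 1 K,
      (if q ≤ 6 * W then (if (N : ℤ) - q * k = n then (1 : ℝ) else 0) else 0) ≤
      ∑ d ∈ Icc 1 (6 * W), (((2 * W : ℕ) : ℝ) / d + 1) := by
    have h1 : ∀ q ∈ S, ∑ N ∈ Ioo (X - W) (X + W), ∑ k ∈ Icc 1 K,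
        (if q ≤ 6 * W then (if (N : ℤ) - q * k = n then (1 : ℝ) else 0) else 0) ≤
        if q ≤ 6 * W then (((2 * W : ℕ) : ℝ) / q + 1) else 0 := by
      intro q hq
      have hq1 := hS q hq
      split_ifs with hqW
      · refine le_trans (sum_le_sum fun N hN => ?_) (hA q (mem_Icc.2 ⟨hq1, hqW⟩))
        by_cases hdv : (q : ℤ) ∣ (N : ℤ) - n
        · rw [if_pos hdv]
          rw [← sum_filter, sum_const, nsmul_eq_mul, mul_one]
          have h2 : ((Icc 1 K).filter (fun k : ℕ => (N : ℤ) - q * k = n)).card ≤ 1 := by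
            rw [card_le_one]
            intro x hx y hy
            rw [mem_filter] at hx hy
            have h3 : (q : ℤ) * x = q * y := by linarith [hx.2, hy.2]
            have h4 : (q : ℤ) ≠ 0 := by
              have : (0 : ℤ) < q := by exact_mod_cast hq1
              exact this.ne'
            have h5 := mul_left_cancel₀ h4 h3
            exact_mod_cast h5
          exact_mod_cast h2
        · rw [if_neg hdv]
          apply le_of_eq
          refine sum_eq_zero fun k _ => ?_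
          rw [if_neg]
          intro h2
          exact hdv ⟨k, by linarith⟩
      · simp
    refine (sum_le_sum h1).trans ?_
    rw [← sum_filter]
    refine sum_le_sum_of_subset_of_nonneg ?_ ?_
    · intro q hq
      rw [mem_filter] at hq
      exact mem_Icc.2 ⟨hS q hq.1, hq.2⟩
    · intro q _ _
      positivity
  have hsecond : ∑ q ∈ S, ∑ N ∈ Ioo (X - W) (X + W), ∑ k ∈ Icc 1 K,
      (if k ≤ 6 * W then (if (N : ℤ) - q * k = n then (1 : ℝ) else 0) else 0) ≤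
      ∑ d ∈ Icc 1 (6 * W), (((2 * W : ℕ) : ℝ) / d + 1) := by
    have h0 : ∑ q ∈ S, ∑ N ∈ Ioo (X - W) (X + W), ∑ k ∈ Icc 1 K,
        (if k ≤ 6 * W then (if (N : ℤ) - q * k = n then (1 : ℝ) else 0) else 0) =
        ∑ k ∈ Icc 1 K, ∑ N ∈ Ioo (X - W) (X + W), ∑ q ∈ S,
        (if k ≤ 6 * W then (if (N : ℤ) - q * k = n then (1 : ℝ) else 0) else 0) := by
      rw [sum_comm, sum_congr rfl (fun N _ => sum_comm), sum_comm]
    rw [h0]
    have h1 : ∀ k ∈ Icc 1 K, ∑ N ∈ Ioo (X - W) (X + W), ∑ q ∈ S,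
        (if k ≤ 6 * W then (if (N : ℤ) - q * k = n then (1 : ℝ) else 0) else 0) ≤
        if k ≤ 6 * W then (((2 * W : ℕ) : ℝ) / k + 1) else 0 := by
      intro k hk
      rw [mem_Icc] at hk
      split_ifs with hqW
      · refine le_trans (sum_le_sum fun N hN => ?_) (hA k (mem_Icc.2 ⟨hk.1, hqW⟩))
        by_cases hdv : (k : ℤ) ∣ (N : ℤ) - n
        · rw [if_pos hdv]
          rw [← sum_filter, sum_const, nsmul_eq_mul, mul_one]
          have h2 : (S.filter (fun q : ℕ => (N : ℤ) - q * k = n)).card ≤ 1 := by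
            rw [card_le_one]
            intro x hx y hy
            rw [mem_filter] at hx hy
            have h3 : (x : ℤ) * k = y * k := by linarith [hx.2, hy.2]
            have h4 : (k : ℤ) ≠ 0 := by
              have : (0 : ℤ) < k := by exact_mod_cast hk.1
              exact this.ne'
            have h5 := mul_right_cancel₀ h4 h3
            exact_mod_cast h5
          exact_mod_cast h2
        · rw [if_neg hdv]
          apply le_of_eq
          refine sum_eq_zero fun q _ => ?_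
          rw [if_neg]
          intro h2
          exact hdv ⟨q, by linarith⟩
      · simp
    refine (sum_le_sum h1).trans ?_
    rw [← sum_filter]
    refine sum_le_sum_of_subset_of_nonneg ?_ ?_
    · intro k hk
      rw [mem_filter, mem_Icc] at hk
      exact mem_Icc.2 ⟨hk.1.1, hk.2⟩
    · intro q _ _
      positivity
  have htot : ∑ q ∈ S, ∑ N ∈ Ioo (X - W) (X + W), ∑ k ∈ Icc 1 K,
      (if (N : ℤ) - q * k = n then (1 : ℝ) else 0) ≤
      ∑ q ∈ S, ∑ N ∈ Ioo (X - W) (X + W), ∑ k ∈ Icc 1 K,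
      (if q ≤ 6 * W then (if (N : ℤ) - q * k = n then (1 : ℝ) else 0) else 0) +
      ∑ q ∈ S, ∑ N ∈ Ioo (X - W) (X + W), ∑ k ∈ Icc 1 K,
      (if k ≤ 6 * W then (if (N : ℤ) - q * k = n then (1 : ℝ) else 0) else 0) := by
    rw [← sum_add_distrib]
    refine sum_le_sum fun q hq => ?_
    rw [← sum_add_distrib]
    refine sum_le_sum fun N hN => ?_
    rw [← sum_add_distrib]
    exact sum_le_sum fun k hk => hsplit q hq N hN k hk
  linarith

private lemma Norm_harm (W X : ℕ) (hX : 3 ≤ X) (hW1 : 1 ≤ W) (hWX : W ≤ X) :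
    2 * ∑ d ∈ Icc 1 (6 * W), (((2 * W : ℕ) : ℝ) / d + 1) ≤ 40 * W * Real.log X := by
  have hW0 : (1 : ℝ) ≤ W := by exact_mod_cast hW1
  have hlog1 : 1 ≤ Real.log X := by
    rw [Real.le_log_iff_exp_le (by positivity)]
    have h1 := Real.exp_one_lt_d9
    have h2 : (3 : ℝ) ≤ X := by exact_mod_cast hX
    linarith
  have h1 : ∑ d ∈ Icc 1 (6 * W), (((2 * W : ℕ) : ℝ) / d + 1) =
      2 * W * ((harmonic (6 * W) : ℚ) : ℝ) + 6 * W := by
    rw [sum_add_distrib, sum_const, nsmul_eq_mul, mul_one, Nat.card_Icc, harmonic_eq_sum_Icc]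
    push_cast
    rw [mul_sum]
    congr 1
  have h2 := harmonic_le_one_add_log (6 * W)
  have h3 : Real.log ((6 * W : ℕ) : ℝ) ≤ 2 + Real.log X := by
    push_cast
    rw [Real.log_mul (by norm_num) (by positivity)]
    have h4 : Real.log 6 ≤ 2 := by
      have h5 : Real.log 6 ≤ Real.log (Real.exp 2) := by
        apply Real.log_le_log (by norm_num)
        have h6 := Real.exp_one_gt_d9
        have h7 : Real.exp 2 = Real.exp 1 * Real.exp 1 := by rw [← Real.exp_add]; norm_num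
        rw [h7]
        nlinarith
      rwa [Real.log_exp] at h5
    have h5 : Real.log W ≤ Real.log X :=
      Real.log_le_log (by positivity) (by exact_mod_cast hWX)
    linarith
  rw [h1]
  have h6 : ((harmonic (6 * W) : ℚ) : ℝ) ≤ 4 * Real.log X := by linarith
  have h7 : 2 * (W : ℝ) * ((harmonic (6 * W) : ℚ) : ℝ) ≤ 2 * W * (4 * Real.log X) :=
    mul_le_mul_of_nonneg_left h6 (by positivity)
  have h8 : 6 * (W : ℝ) ≤ 6 * W * Real.log X := by
    have : 0 ≤ 6 * (W : ℝ) := by positivity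
    nlinarith
  have h9 : 0 ≤ (W : ℝ) * Real.log X := by positivity
  linarith

/-- The trivial bound. -/
theorem TT_norm : ∃ C : ℝ, 0 < C ∧ ∀ (W X K Y : ℕ) (S : Finset ℕ) (c : ℕ → ℕ → ℂ) (B : ℝ) (g : ℤ → ℂ),
    3 ≤ X → 1 ≤ W → W ≤ X → X ≤ W ^ 2 → Y ≤ 32 * X → 0 ≤ B → (∀ q ∈ S, 1 ≤ q) →
    (∀ q ∈ S, ∀ k ∈ Icc 1 K, ‖c q k‖ ≤ B) → (∀ n : ℤ, (Y : ℤ) < |n| → g n = 0) →
    TT W X S c K g ≤ C * B ^ 2 * K * W * Real.log X * ∑ n ∈ Icc (-(Y : ℤ)) Y, ‖g n‖ ^ 2 := by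
  refine ⟨40, by norm_num, ?_⟩
  intro W X K Y S c B g hX hW1 hWX hXW hY hB hS hc hg
  have h1 : ∀ q ∈ S, ∀ N : ℕ, tri W ((N : ℝ) - X) * ‖EG c K g N q‖ ^ 2 ≤
      B ^ 2 * K * ∑ k ∈ Icc 1 K, ‖g ((N : ℤ) - q * k)‖ ^ 2 := by
    intro q hq N
    have h2 : ‖EG c K g N q‖ ≤ ∑ k ∈ Icc 1 K, B * ‖g ((N : ℤ) - q * k)‖ := by
      unfold EG
      refine (norm_sum_le _ _).trans (sum_le_sum fun k hk => ?_)
      rw [norm_mul]
      exact mul_le_mul_of_nonneg_right (hc q hq k hk) (norm_nonneg _)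
    have h3 : ‖EG c K g N q‖ ^ 2 ≤ B ^ 2 * K * ∑ k ∈ Icc 1 K, ‖g ((N : ℤ) - q * k)‖ ^ 2 := by
      calc ‖EG c K g N q‖ ^ 2 ≤ (∑ k ∈ Icc 1 K, B * ‖g ((N : ℤ) - q * k)‖) ^ 2 :=
            pow_le_pow_left₀ (norm_nonneg _) h2 2
        _ ≤ ((Icc 1 K).card : ℝ) * ∑ k ∈ Icc 1 K, (B * ‖g ((N : ℤ) - q * k)‖) ^ 2 :=
            sq_sum_le_card_mul_sum_sq
        _ = B ^ 2 * K * ∑ k ∈ Icc 1 K, ‖g ((N : ℤ) - q * k)‖ ^ 2 := by
            rw [Nat.card_Icc, Nat.add_sub_cancel]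
            simp only [mul_pow]
            rw [← mul_sum]
            ring
    calc tri W ((N : ℝ) - X) * ‖EG c K g N q‖ ^ 2 ≤ 1 * ‖EG c K g N q‖ ^ 2 :=
          mul_le_mul_of_nonneg_right (tri_le_one _ _) (sq_nonneg _)
      _ = ‖EG c K g N q‖ ^ 2 := one_mul _
      _ ≤ _ := h3
  have h4 : ∀ m : ℤ, ‖g m‖ ^ 2 = ∑ n ∈ Icc (-(Y : ℤ)) Y, ‖g n‖ ^ 2 * (if m = n then (1 : ℝ) else 0) := by
    intro m
    by_cases hm : m ∈ Icc (-(Y : ℤ)) Y
    · rw [sum_eq_single m]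
      · rw [if_pos rfl, mul_one]
      · intro b _ hb
        rw [if_neg (Ne.symm hb), mul_zero]
      · intro h
        exact absurd hm h
    · rw [mem_Icc] at hm
      have h5 : (Y : ℤ) < |m| := by
        rw [lt_abs]
        omega
      rw [hg m h5, norm_zero]
      symm
      rw [sum_eq_zero]
      · norm_num
      · intro b hb
        rw [mem_Icc] at hb
        rw [if_neg, mul_zero]
        rintro rfl
        exact hm hb
  have h5 : TT W X S c K g ≤ B ^ 2 * K * ∑ q ∈ S, ∑ N ∈ Ioo (X - W) (X + W), ∑ k ∈ Icc 1 K,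
      ‖g ((N : ℤ) - q * k)‖ ^ 2 := by
    unfold TT
    rw [mul_sum]
    refine sum_le_sum fun q hq => ?_
    rw [mul_sum]
    exact sum_le_sum fun N _ => h1 q hq N
  have h6 : ∑ q ∈ S, ∑ N ∈ Ioo (X - W) (X + W), ∑ k ∈ Icc 1 K, ‖g ((N : ℤ) - q * k)‖ ^ 2 =
      ∑ n ∈ Icc (-(Y : ℤ)) Y, ‖g n‖ ^ 2 * ∑ q ∈ S, ∑ N ∈ Ioo (X - W) (X + W), ∑ k ∈ Icc 1 K,
        (if (N : ℤ) - q * k = n then (1 : ℝ) else 0) := by
    have h7 : ∀ q ∈ S, ∑ N ∈ Ioo (X - W) (X + W), ∑ k ∈ Icc 1 K, ‖g ((N : ℤ) - q * k)‖ ^ 2 =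
        ∑ n ∈ Icc (-(Y : ℤ)) Y, ‖g n‖ ^ 2 * ∑ N ∈ Ioo (X - W) (X + W), ∑ k ∈ Icc 1 K,
        (if (N : ℤ) - q * k = n then (1 : ℝ) else 0) := by
      intro q _
      have h8 : ∀ N ∈ Ioo (X - W) (X + W), ∑ k ∈ Icc 1 K, ‖g ((N : ℤ) - q * k)‖ ^ 2 =
          ∑ n ∈ Icc (-(Y : ℤ)) Y, ‖g n‖ ^ 2 * ∑ k ∈ Icc 1 K,
          (if (N : ℤ) - q * k = n then (1 : ℝ) else 0) := by
        intro N _
        rw [sum_congr rfl (fun k _ => h4 _), sum_comm]
        exact sum_congr rfl (fun n _ => (mul_sum _ _ _).symm)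
      rw [sum_congr rfl h8, sum_comm]
      exact sum_congr rfl (fun n _ => (mul_sum _ _ _).symm)
    rw [sum_congr rfl h7, sum_comm]
    exact sum_congr rfl (fun n _ => (mul_sum _ _ _).symm)
  rw [h6] at h5
  have h7 : ∑ n ∈ Icc (-(Y : ℤ)) Y, ‖g n‖ ^ 2 * ∑ q ∈ S, ∑ N ∈ Ioo (X - W) (X + W),
      ∑ k ∈ Icc 1 K, (if (N : ℤ) - q * k = n then (1 : ℝ) else 0) ≤
      ∑ n ∈ Icc (-(Y : ℤ)) Y, ‖g n‖ ^ 2 * (40 * W * Real.log X) := by
    refine sum_le_sum fun n hn => ?_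
    rw [mem_Icc] at hn
    refine mul_le_mul_of_nonneg_left ?_ (sq_nonneg _)
    exact (Norm_rep W X K Y S hW1 hWX hXW hY hS n hn.1).trans (Norm_harm W X hX hW1 hWX)
  calc TT W X S c K g ≤ _ := h5
    _ ≤ B ^ 2 * K * ∑ n ∈ Icc (-(Y : ℤ)) Y, ‖g n‖ ^ 2 * (40 * W * Real.log X) :=
        mul_le_mul_of_nonneg_left h7 (by positivity)
    _ = 40 * B ^ 2 * K * W * Real.log X * ∑ n ∈ Icc (-(Y : ℤ)) Y, ‖g n‖ ^ 2 := by
        rw [← sum_mul]
        ring

end Pool.Agent.SInt
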