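import Pool.Agent.SInt.TriB

open Finset Complex
open scoped ArithmeticFunction.Moebius ArithmeticFunction.vonMangoldt

namespace Pool.Agent.SInt

open Pool.Agent.ANT

variable {W X K : ℕ} {S : Finset ℕ} {c c' : ℕ → ℕ → ℂ} {g g' : ℤ → ℂ}

/-- termwise comparison -/
private theorem TTb_le {W X K K' : ℕ} {S : Finset ℕ} {c c' : ℕ → ℕ → ℂ} {g g' : ℤ → ℂ} {C : ℝ}
    (h : ∀ q ∈ S, ∀ N ∈ Ioo (X - W) (X + W), ‖EG c K g N q‖ ^ 2 ≤ C * ‖EG c' K' g' N q‖ ^ 2) :
    TT W X S c K g ≤ C * TT W X S c' K' g' := by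
  unfold TT
  rw [Finset.mul_sum]
  refine Finset.sum_le_sum fun q hq => ?_
  rw [Finset.mul_sum]
  refine Finset.sum_le_sum fun N hN => ?_
  calc tri W ((N : ℝ) - X) * ‖EG c K g N q‖ ^ 2
      ≤ tri W ((N : ℝ) - X) * (C * ‖EG c' K' g' N q‖ ^ 2) :=
        mul_le_mul_of_nonneg_left (h q hq N hN) (tri_nonneg _ _)
    _ = C * (tri W ((N : ℝ) - X) * ‖EG c' K' g' N q‖ ^ 2) := by ring

private theorem TTb_congr {W X K K' : ℕ} {S : Finset ℕ} {c c' : ℕ → ℕ → ℂ} {g g' : ℤ → ℂ}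
    (h : ∀ q ∈ S, ∀ N ∈ Ioo (X - W) (X + W), EG c K g N q = EG c' K' g' N q) :
    TT W X S c K g = TT W X S c' K' g' := by
  unfold TT
  refine Finset.sum_congr rfl fun q hq => Finset.sum_congr rfl fun N hN => ?_
  rw [h q hq N hN]

theorem TT_nonneg : 0 ≤ TT W X S c K g :=
  Finset.sum_nonneg fun _ _ => Finset.sum_nonneg fun _ _ => mul_nonneg (tri_nonneg _ _) (sq_nonneg _)

theorem TT_mono_set {S' : Finset ℕ} (h : S ⊆ S') : TT W X S c K g ≤ TT W X S' c K g :=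
  Finset.sum_le_sum_of_subset_of_nonneg h fun _ _ _ =>
    Finset.sum_nonneg fun _ _ => mul_nonneg (tri_nonneg _ _) (sq_nonneg _)

/-- Sum over the moduli. -/
theorem TT_eq_sum : TT W X S c K g = ∑ q ∈ S, TT W X {q} c K g := by
  unfold TT
  simp only [Finset.sum_singleton]

/-- `TT` only sees the values `g v` with `v < X + W`. -/
theorem TT_congr_g (hg : ∀ v : ℤ, v < X + W → g v = g' v) : TT W X S c K g = TT W X S c K g' := by
  refine TTb_congr fun q _ N hN => ?_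
  unfold EG
  refine Finset.sum_congr rfl fun k _ => ?_
  rw [hg]
  rw [Finset.mem_Ioo] at hN
  have h1 : (0 : ℤ) ≤ q * k := by positivity
  have h2 : (N : ℤ) < X + W := by exact_mod_cast hN.2
  linarith

theorem TT_congr_c (hc : ∀ q ∈ S, ∀ k ∈ Icc 1 K, c q k = c' q k) : TT W X S c K g = TT W X S c' K g := by
  refine TTb_congr fun q hq N hN => ?_
  unfold EG
  refine Finset.sum_congr rfl fun k hk => ?_
  rw [hc q hq k hk]

/-- coefficients vanishing beyond `K'` -/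
theorem TT_shrink {K' : ℕ} (hK : K' ≤ K) (hc : ∀ q ∈ S, ∀ k, K' < k → c q k = 0) :
    TT W X S c K g = TT W X S c K' g := by
  refine TTb_congr fun q hq N hN => ?_
  unfold EG
  symm
  refine Finset.sum_subset (Finset.Icc_subset_Icc_right hK) fun k hk hk' => ?_
  rw [Finset.mem_Icc] at hk hk'
  rw [hc q hq k (by omega), zero_mul]

private theorem TTb_two (x y : ℂ) : ‖x + y‖ ^ 2 ≤ 2 * ‖x‖ ^ 2 + 2 * ‖y‖ ^ 2 := by
  have h1 := norm_add_le x y
  have h2 : ‖x + y‖ ^ 2 ≤ (‖x‖ + ‖y‖) ^ 2 := pow_le_pow_left₀ (norm_nonneg _) h1 2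
  nlinarith [sq_nonneg (‖x‖ - ‖y‖)]

private theorem TTb_sum {ι : Type*} (J : Finset ι) (x : ι → ℂ) :
    ‖∑ j ∈ J, x j‖ ^ 2 ≤ J.card * ∑ j ∈ J, ‖x j‖ ^ 2 :=
  (pow_le_pow_left₀ (norm_nonneg _) (norm_sum_le J x) 2).trans (sq_sum_le_card_mul_sum_sq)

/-- sum of several -/
private theorem TTb_le_sum {ι : Type*} {W X K : ℕ} {S : Finset ℕ} {c : ℕ → ℕ → ℂ} {g : ℤ → ℂ}
    (J : Finset ι) (a : ι → ℝ) (C : ι → ℕ → ℕ → ℂ) (G : ι → ℤ → ℂ)
    (h : ∀ q ∈ S, ∀ N ∈ Ioo (X - W) (X + W),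
      ‖EG c K g N q‖ ^ 2 ≤ ∑ j ∈ J, a j * ‖EG (C j) K (G j) N q‖ ^ 2) :
    TT W X S c K g ≤ ∑ j ∈ J, a j * TT W X S (C j) K (G j) := by
  unfold TT
  calc ∑ q ∈ S, ∑ N ∈ Ioo (X - W) (X + W), tri W ((N : ℝ) - X) * ‖EG c K g N q‖ ^ 2
      ≤ ∑ q ∈ S, ∑ N ∈ Ioo (X - W) (X + W), tri W ((N : ℝ) - X) *
          ∑ j ∈ J, a j * ‖EG (C j) K (G j) N q‖ ^ 2 :=
        Finset.sum_le_sum fun q hq => Finset.sum_le_sum fun N hN =>
          mul_le_mul_of_nonneg_left (h q hq N hN) (tri_nonneg _ _)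
    _ = ∑ q ∈ S, ∑ j ∈ J, ∑ N ∈ Ioo (X - W) (X + W),
          a j * (tri W ((N : ℝ) - X) * ‖EG (C j) K (G j) N q‖ ^ 2) := by
        refine Finset.sum_congr rfl fun q _ => ?_
        rw [Finset.sum_comm]
        refine Finset.sum_congr rfl fun N _ => ?_
        rw [Finset.mul_sum]
        exact Finset.sum_congr rfl fun j _ => by ring
    _ = ∑ j ∈ J, a j * ∑ q ∈ S, ∑ N ∈ Ioo (X - W) (X + W),
          tri W ((N : ℝ) - X) * ‖EG (C j) K (G j) N q‖ ^ 2 := by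
        rw [Finset.sum_comm]
        refine Finset.sum_congr rfl fun j _ => ?_
        rw [Finset.mul_sum]
        exact Finset.sum_congr rfl fun q _ => by rw [Finset.mul_sum]

theorem TT_add_g : TT W X S c K (fun v => g v + g' v) ≤ 2 * TT W X S c K g + 2 * TT W X S c K g' := by
  have h := TTb_le_sum (W := W) (X := X) (K := K) (S := S) (c := c) (g := fun v => g v + g' v)
    (Finset.univ : Finset (Fin 2)) (fun _ => 2) (fun _ => c) (fun j => if j = 0 then g else g') (by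
      intro q _ N _
      rw [Fin.sum_univ_two]
      have e : EG c K (fun v => g v + g' v) N q = EG c K g N q + EG c K g' N q := by
        unfold EG
        rw [← Finset.sum_add_distrib]
        exact Finset.sum_congr rfl fun k _ => by ring
      rw [e]
      exact TTb_two _ _)
  rw [Fin.sum_univ_two] at h
  exact h

theorem TT_add_c : TT W X S (fun q k => c q k + c' q k) K g ≤ 2 * TT W X S c K g + 2 * TT W X S c' K g := by
  have h := TTb_le_sum (W := W) (X := X) (K := K) (S := S) (c := fun q k => c q k + c' q k) (g := g)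
    (Finset.univ : Finset (Fin 2)) (fun _ => 2) (fun j => if j = 0 then c else c') (fun _ => g) (by
      intro q _ N _
      rw [Fin.sum_univ_two]
      have e : EG (fun q k => c q k + c' q k) K g N q = EG c K g N q + EG c' K g N q := by
        unfold EG
        rw [← Finset.sum_add_distrib]
        exact Finset.sum_congr rfl fun k _ => by ring
      rw [e]
      exact TTb_two _ _)
  rw [Fin.sum_univ_two] at h
  exact h

theorem TT_sum_g {ι : Type*} (J : Finset ι) (G : ι → ℤ → ℂ) :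
    TT W X S c K (fun v => ∑ j ∈ J, G j v) ≤ J.card * ∑ j ∈ J, TT W X S c K (G j) := by
  rw [Finset.mul_sum]
  refine TTb_le_sum J (fun _ => (J.card : ℝ)) (fun _ => c) G ?_
  intro q _ N _
  have e : EG c K (fun v => ∑ j ∈ J, G j v) N q = ∑ j ∈ J, EG c K (G j) N q := by
    unfold EG
    rw [Finset.sum_comm]
    exact Finset.sum_congr rfl fun k _ => by rw [Finset.mul_sum]
  rw [e, ← Finset.mul_sum]
  exact TTb_sum J _

theorem TT_sum_c {ι : Type*} (J : Finset ι) (C : ι → ℕ → ℕ → ℂ) :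
    TT W X S (fun q k => ∑ j ∈ J, C j q k) K g ≤ J.card * ∑ j ∈ J, TT W X S (C j) K g := by
  rw [Finset.mul_sum]
  refine TTb_le_sum J (fun _ => (J.card : ℝ)) C (fun _ => g) ?_
  intro q _ N _
  have e : EG (fun q k => ∑ j ∈ J, C j q k) K g N q = ∑ j ∈ J, EG (C j) K g N q := by
    unfold EG
    rw [Finset.sum_comm]
    exact Finset.sum_congr rfl fun k _ => by rw [Finset.sum_mul]
  rw [e, ← Finset.mul_sum]
  exact TTb_sum J _

private theorem TTb_scale {W X K : ℕ} {S : Finset ℕ} {c c' : ℕ → ℕ → ℂ} {g g' : ℤ → ℂ} {z : ℂ}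
    (h : ∀ N q, EG c K g N q = z * EG c' K g' N q) :
    TT W X S c K g = ‖z‖ ^ 2 * TT W X S c' K g' := by
  unfold TT
  rw [Finset.mul_sum]
  refine Finset.sum_congr rfl fun q _ => ?_
  rw [Finset.mul_sum]
  refine Finset.sum_congr rfl fun N _ => ?_
  rw [h N q, norm_mul]
  ring

theorem TT_smul_c (z : ℂ) : TT W X S (fun q k => z * c q k) K g = ‖z‖ ^ 2 * TT W X S c K g := by
  refine TTb_scale fun N q => ?_
  unfold EG
  rw [Finset.mul_sum]
  exact Finset.sum_congr rfl fun k _ => by ring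

theorem TT_smul_g (z : ℂ) : TT W X S c K (fun v => z * g v) = ‖z‖ ^ 2 * TT W X S c K g := by
  refine TTb_scale fun N q => ?_
  unfold EG
  rw [Finset.mul_sum]
  exact Finset.sum_congr rfl fun k _ => by ring

/-- Minkowski's inequality. -/
theorem TT_mink {ι : Type*} (J : Finset ι) (w : ι → ℂ) (C : ι → ℕ → ℕ → ℂ) {T : ℝ}
    (hT : ∀ j ∈ J, TT W X S (C j) K g ≤ T) :
    TT W X S (fun q k => ∑ j ∈ J, w j * C j q k) K g ≤ (∑ j ∈ J, ‖w j‖) ^ 2 * T := by
  have h := TTb_le_sum (W := W) (X := X) (K := K) (S := S) (c := fun q k => ∑ j ∈ J, w j * C j q k)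
    (g := g) J (fun j => (∑ j ∈ J, ‖w j‖) * ‖w j‖) C (fun _ => g) (by
      intro q _ N _
      have e : EG (fun q k => ∑ j ∈ J, w j * C j q k) K g N q =
          ∑ j ∈ J, w j * EG (C j) K g N q := by
        unfold EG
        simp_rw [Finset.mul_sum]
        rw [Finset.sum_comm]
        refine Finset.sum_congr rfl fun k _ => ?_
        rw [Finset.sum_mul]
        exact Finset.sum_congr rfl fun j _ => by ring
      rw [e]
      have h1 : ‖∑ j ∈ J, w j * EG (C j) K g N q‖ ≤ ∑ j ∈ J, ‖w j‖ * ‖EG (C j) K g N q‖ :=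
        (norm_sum_le _ _).trans_eq (Finset.sum_congr rfl fun j _ => norm_mul _ _)
      have h2 : (∑ j ∈ J, ‖w j‖ * ‖EG (C j) K g N q‖) ^ 2 ≤
          (∑ j ∈ J, ‖w j‖) * ∑ j ∈ J, ‖w j‖ * ‖EG (C j) K g N q‖ ^ 2 := by
        refine Finset.sum_sq_le_sum_mul_sum_of_sq_le_mul J (fun j _ => norm_nonneg _)
          (fun j _ => by positivity) (fun j _ => le_of_eq (by ring))
      calc ‖∑ j ∈ J, w j * EG (C j) K g N q‖ ^ 2
          ≤ (∑ j ∈ J, ‖w j‖ * ‖EG (C j) K g N q‖) ^ 2 := pow_le_pow_left₀ (norm_nonneg _) h1 2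
        _ ≤ (∑ j ∈ J, ‖w j‖) * ∑ j ∈ J, ‖w j‖ * ‖EG (C j) K g N q‖ ^ 2 := h2
        _ = ∑ j ∈ J, (∑ j ∈ J, ‖w j‖) * ‖w j‖ * ‖EG (C j) K g N q‖ ^ 2 := by
            rw [Finset.mul_sum]
            exact Finset.sum_congr rfl fun j _ => by ring)
  refine h.trans ?_
  calc ∑ j ∈ J, (∑ j ∈ J, ‖w j‖) * ‖w j‖ * TT W X S (C j) K g
      ≤ ∑ j ∈ J, (∑ j ∈ J, ‖w j‖) * ‖w j‖ * T :=
        Finset.sum_le_sum fun j hj => mul_le_mul_of_nonneg_left (hT j hj)
          (mul_nonneg (Finset.sum_nonneg fun _ _ => norm_nonneg _) (norm_nonneg _))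
    _ = (∑ j ∈ J, ‖w j‖) ^ 2 * T := by
        rw [← Finset.sum_mul, ← Finset.mul_sum, sq]

theorem TT_le_pointwise {B : ℝ} (hB : ∀ q ∈ S, ∀ N ∈ Ioo (X - W) (X + W), ‖EG c K g N q‖ ≤ B) :
    TT W X S c K g ≤ S.card * (2 * W) * B ^ 2 := by
  have hcard : (((Ioo (X - W) (X + W)).card : ℕ) : ℝ) ≤ 2 * W := by
    rw [Nat.card_Ioo]
    have : X + W - (X - W) - 1 ≤ 2 * W := by omega
    exact_mod_cast this
  unfold TT
  calc ∑ q ∈ S, ∑ N ∈ Ioo (X - W) (X + W), tri W ((N : ℝ) - X) * ‖EG c K g N q‖ ^ 2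
      ≤ ∑ q ∈ S, ∑ N ∈ Ioo (X - W) (X + W), B ^ 2 := by
        refine Finset.sum_le_sum fun q hq => Finset.sum_le_sum fun N hN => ?_
        have h1 := pow_le_pow_left₀ (norm_nonneg _) (hB q hq N hN) 2
        calc tri W ((N : ℝ) - X) * ‖EG c K g N q‖ ^ 2 ≤ 1 * B ^ 2 :=
              mul_le_mul (tri_le_one _ _) h1 (sq_nonneg _) zero_le_one
          _ = B ^ 2 := one_mul _
    _ = S.card * (((Ioo (X - W) (X + W)).card : ℕ) : ℝ) * B ^ 2 := by
        rw [Finset.sum_const, Finset.sum_const, nsmul_eq_mul, nsmul_eq_mul, mul_assoc]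
    _ ≤ S.card * (2 * W) * B ^ 2 := by
        gcongr

private theorem TTb_EG_KK {Q K N q : ℕ} (hN : N ≤ 2 * X) (hQ : 1 ≤ Q) (hq : Q ≤ q)
    (hK : KK X Q ≤ K) (hg : ∀ v : ℤ, v < -(X : ℤ) → g v = 0) :
    EG c (KK X Q) g N q = EG c K g N q := by
  unfold EG
  refine Finset.sum_subset (Finset.Icc_subset_Icc_right hK) fun k hk hk' => ?_
  rw [Finset.mem_Icc] at hk hk'
  have h1 : 4 * X / Q + 1 < k := by
    by_contra hcon
    exact hk' ⟨hk.1, not_lt.1 hcon⟩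
  have h2 : 4 * X < Q * (4 * X / Q + 1) := Nat.lt_mul_div_succ _ (by omega)
  have h3 : Q * (4 * X / Q + 1) ≤ q * k := Nat.mul_le_mul hq h1.le
  rw [hg, mul_zero]
  have h4 : ((4 * X : ℕ) : ℤ) < ((q * k : ℕ) : ℤ) := by exact_mod_cast h2.trans_le h3
  have h5 : (N : ℤ) ≤ ((2 * X : ℕ) : ℤ) := by exact_mod_cast hN
  push_cast at h4 h5
  linarith [Int.natCast_nonneg X]

/-- The length of the `k`-sum does not matter if `g` is supported on `[-X, ∞)`. -/
theorem EG_len {Q K' N q : ℕ} (hN : N ≤ 2 * X) (hQ : 1 ≤ Q) (hq : Q ≤ q) (hK : KK X Q ≤ K) (hK' : KK X Q ≤ K')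
    (hg : ∀ v : ℤ, v < -(X : ℤ) → g v = 0) : EG c K g N q = EG c K' g N q :=
  (TTb_EG_KK hN hQ hq hK hg).symm.trans (TTb_EG_KK hN hQ hq hK' hg)

theorem TT_len {Q K' : ℕ} (hW : W ≤ X) (hQ : 1 ≤ Q) (hS : ∀ q ∈ S, Q ≤ q) (hK : KK X Q ≤ K)
    (hK' : KK X Q ≤ K') (hg : ∀ v : ℤ, v < -(X : ℤ) → g v = 0) :
    TT W X S c K g = TT W X S c K' g := by
  refine TTb_congr fun q hq N hN => ?_
  rw [Finset.mem_Ioo] at hN
  exact EG_len (by omega) hQ (hS q hq) hK hK' hg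

/-- A coefficient supported on multiples of `t` (one modulus `q`). -/
theorem TT_mult {q t : ℕ} (ht : 1 ≤ t) (C : ℕ → ℂ) :
    TT W X {q} (fun _ k => if t ∣ k then C k else 0) K g =
      TT W X {q * t} (fun _ n => C (t * n)) (K / t) g := by
  unfold TT
  rw [Finset.sum_singleton, Finset.sum_singleton]
  refine Finset.sum_congr rfl fun N _ => ?_
  congr 3
  unfold EG
  have himg : (Icc 1 K).filter (fun k => t ∣ k) = (Icc 1 (K / t)).image (fun n => t * n) := by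
    ext k
    rw [Finset.mem_filter, Finset.mem_image, Finset.mem_Icc]
    constructor
    · rintro ⟨⟨h1, h2⟩, n, rfl⟩
      refine ⟨n, ?_, rfl⟩
      rw [Finset.mem_Icc]
      constructor
      · by_contra h0
        have : n = 0 := by omega
        rw [this] at h1
        simp at h1
      · rw [Nat.le_div_iff_mul_le (by omega), mul_comm]
        exact h2
    · rintro ⟨n, hn, rfl⟩
      rw [Finset.mem_Icc] at hn
      refine ⟨⟨?_, ?_⟩, dvd_mul_right _ _⟩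
      · exact Nat.mul_pos (by omega) (by omega)
      · rw [mul_comm]
        exact (Nat.le_div_iff_mul_le (by omega)).1 hn.2
  calc ∑ k ∈ Icc 1 K, (if t ∣ k then C k else 0) * g ((N : ℤ) - q * k)
      = ∑ k ∈ (Icc 1 K).filter (fun k => t ∣ k), C k * g ((N : ℤ) - q * k) := by
        rw [Finset.sum_filter]
        refine Finset.sum_congr rfl fun k _ => ?_
        split_ifs
        · rfl
        · rw [zero_mul]
    _ = ∑ n ∈ Icc 1 (K / t), C (t * n) * g ((N : ℤ) - q * ((t * n : ℕ) : ℤ)) := by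
        rw [himg, Finset.sum_image]
        intro m _ n _ hmn
        exact Nat.eq_of_mul_eq_mul_left (by omega) hmn
    _ = ∑ n ∈ Icc 1 (K / t), C (t * n) * g ((N : ℤ) - ((q * t : ℕ) : ℤ) * n) := by
        refine Finset.sum_congr rfl fun n _ => ?_
        congr 2
        push_cast
        ring

private theorem TTb_cv {q U N₁ N : ℕ} (a b : ℕ → ℂ)
    (ha : ∀ m, m ∉ Ico U (2 * U) → a m = 0)
    (hb : ∀ n, n ∉ Icc 1 N₁ → b n = 0) (hK : 2 * U * N₁ ≤ K) :
    EG (fun _ => cv a b) K g N q = ∑ m ∈ Ico U (2 * U), a m * EG (fun _ => b) N₁ g N (q * m) := by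
  classical
  have e1 : ∀ k ∈ Icc 1 K, cv a b k * g ((N : ℤ) - q * k) =
      ∑ p ∈ (Ico U (2 * U) ×ˢ Icc 1 N₁).filter (fun p => p.1 * p.2 = k),
        a p.1 * b p.2 * g ((N : ℤ) - q * ((p.1 * p.2 : ℕ) : ℤ)) := by
    intro k hk
    rw [Finset.mem_Icc] at hk
    unfold cv
    rw [Finset.sum_mul]
    symm
    have hsub : (Ico U (2 * U) ×ˢ Icc 1 N₁).filter (fun p => p.1 * p.2 = k) ⊆
        k.divisorsAntidiagonal := by
      intro p hp
      rw [Nat.mem_divisorsAntidiagonal]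
      exact ⟨(Finset.mem_filter.1 hp).2, by omega⟩
    rw [← Finset.sum_subset hsub]
    · refine Finset.sum_congr rfl fun p hp => ?_
      rw [(Finset.mem_filter.1 hp).2]
    · intro p hp hp'
      rw [Nat.mem_divisorsAntidiagonal] at hp
      by_cases h1 : p.1 ∈ Ico U (2 * U)
      · by_cases h2 : p.2 ∈ Icc 1 N₁
        · exact absurd (Finset.mem_filter.2 ⟨Finset.mem_product.2 ⟨h1, h2⟩, hp.1⟩) hp'
        · rw [hb _ h2, mul_zero, zero_mul]
      · rw [ha _ h1, zero_mul, zero_mul]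
  unfold EG
  rw [Finset.sum_congr rfl e1]
  rw [Finset.sum_fiberwise_of_maps_to]
  · rw [Finset.sum_product]
    refine Finset.sum_congr rfl fun m _ => ?_
    rw [Finset.mul_sum]
    refine Finset.sum_congr rfl fun n _ => ?_
    push_cast
    rw [mul_assoc, mul_assoc]
  · intro p hp
    rw [Finset.mem_product, Finset.mem_Ico, Finset.mem_Icc] at hp
    rw [Finset.mem_Icc]
    constructor
    · exact Nat.mul_pos (by omega) (by omega)
    · exact (Nat.mul_le_mul (by omega) hp.2.2).trans hK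

/-- Cauchy-Schwarz over the first factor of a convolution. -/
theorem TT_cauchy {q U N₁ : ℕ} (hU : 1 ≤ U) (hq : 1 ≤ q) (a b : ℕ → ℂ) (ha : ∀ m, m ∉ Ico U (2 * U) → a m = 0)
    (hb : ∀ n, n ∉ Icc 1 N₁ → b n = 0) (hK : 2 * U * N₁ ≤ K) :
    TT W X {q} (fun _ => cv a b) K g ≤
      (∑ m ∈ Ico U (2 * U), ‖a m‖ ^ 2) *
        TT W X ((Ico U (2 * U)).image (fun m => q * m)) (fun _ => b) N₁ g := by
  unfold TT
  rw [Finset.sum_singleton, Finset.sum_image (fun m _ n _ h => Nat.eq_of_mul_eq_mul_left hq h),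
    Finset.sum_comm, Finset.mul_sum]
  refine Finset.sum_le_sum fun N _ => ?_
  rw [TTb_cv a b ha hb hK, ← Finset.mul_sum]
  have h1 : ‖∑ m ∈ Ico U (2 * U), a m * EG (fun _ => b) N₁ g N (q * m)‖ ≤
      ∑ m ∈ Ico U (2 * U), ‖a m‖ * ‖EG (fun _ => b) N₁ g N (q * m)‖ :=
    (norm_sum_le _ _).trans_eq (Finset.sum_congr rfl fun m _ => norm_mul _ _)
  have h2 := Finset.sum_mul_sq_le_sq_mul_sq (Ico U (2 * U)) (fun m => ‖a m‖)
    (fun m => ‖EG (fun _ => b) N₁ g N (q * m)‖)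
  have h3 := (pow_le_pow_left₀ (norm_nonneg _) h1 2).trans h2
  calc tri W ((N : ℝ) - X) * ‖∑ m ∈ Ico U (2 * U), a m * EG (fun _ => b) N₁ g N (q * m)‖ ^ 2
      ≤ tri W ((N : ℝ) - X) * ((∑ m ∈ Ico U (2 * U), ‖a m‖ ^ 2) *
          ∑ m ∈ Ico U (2 * U), ‖EG (fun _ => b) N₁ g N (q * m)‖ ^ 2) :=
        mul_le_mul_of_nonneg_left h3 (tri_nonneg _ _)
    _ = _ := by ring

end Pool.Agent.SInt
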