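import Pool.Agent.SInt.Ineq1
import Pool.Agent.SInt.W1b
import Pool.Agent.SInt.MinGen
import Pool.Agent.SInt.TTb

open Finset Complex
open scoped ArithmeticFunction.Moebius ArithmeticFunction.vonMangoldt

namespace Pool.Agent.SInt

open Pool.Agent.ANT

/-- reduction of a fraction close to `α` to lowest terms -/
private theorem tiimin_reduce {α : ℝ} {q r P T W R : ℕ} {a : ℤ} (hW : 1 ≤ W) (hq : 1 ≤ q) (hr : 1 ≤ r)
    (hrP : r < P) (hPR : 2 * P * q ≤ R) (hT : T = W / q) (hT1 : 1 ≤ T)
    (h : |(q : ℝ) * α - a / r| ≤ (P : ℝ) / (r * T)) :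
    ∃ (r' : ℕ) (a' : ℤ), 1 ≤ r' ∧ r' ≤ R ∧ IsCoprime a' (r' : ℤ) ∧ |α - a' / r'| ≤ (R : ℝ) / W := by
  have hqR : (1 : ℝ) ≤ q := by exact_mod_cast hq
  have hrR : (1 : ℝ) ≤ r := by exact_mod_cast hr
  have hTR : (1 : ℝ) ≤ T := by exact_mod_cast hT1
  have hWR : (1 : ℝ) ≤ W := by exact_mod_cast hW
  have hqr : 1 ≤ q * r := Nat.mul_pos hq hr
  set x : ℚ := (a : ℚ) / ((q * r : ℕ) : ℚ) with hx
  have hxR : ((x : ℚ) : ℝ) = (a : ℝ) / ((q : ℝ) * r) := by
    rw [hx]; push_cast; rfl
  have hden : x.den ∣ q * r := by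
    have h1 : ((x.den : ℤ)) ∣ ((q * r : ℕ) : ℤ) := by
      have := Rat.den_dvd a ((q * r : ℕ) : ℤ)
      have h2 : Rat.divInt a ((q * r : ℕ) : ℤ) = x := by
        rw [Rat.divInt_eq_div, hx]; push_cast; rfl
      rwa [h2] at this
    exact_mod_cast h1
  have hdle : x.den ≤ q * r := Nat.le_of_dvd hqr hden
  refine ⟨x.den, x.num, x.den_pos, ?_, ?_, ?_⟩
  · calc x.den ≤ q * r := hdle
      _ ≤ q * P := Nat.mul_le_mul_left _ hrP.le
      _ ≤ 2 * P * q := by nlinarith
      _ ≤ R := hPR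
  · rw [Int.isCoprime_iff_gcd_eq_one, Int.gcd_eq_natAbs]
    simpa using x.reduced
  · have hnd : ((x.num : ℝ)) / ((x.den : ℕ) : ℝ) = (x : ℝ) := by
      rw [← Rat.cast_def]
    rw [hnd, hxR]
    have h1 : α - (a : ℝ) / ((q : ℝ) * r) = ((q : ℝ) * α - a / r) / q := by
      field_simp
    rw [h1, abs_div, abs_of_pos (by linarith : (0 : ℝ) < q)]
    have h2 : |(q : ℝ) * α - a / r| / q ≤ (P : ℝ) / (r * T) / q := by gcongr
    refine h2.trans ?_
    -- T ≥ W/(2q)
    have h3 : W < q * (T + 1) := by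
      rw [hT]
      have := Nat.lt_mul_div_succ W (show 0 < q by omega)
      simpa using this
    have h4 : (W : ℝ) ≤ 2 * q * T := by
      have h5 : (W : ℝ) < q * (T + 1) := by exact_mod_cast h3
      nlinarith
    have h6 : (2 : ℝ) * P ≤ R := by
      have h7 : 2 * P ≤ R := by nlinarith
      exact_mod_cast h7
    have hP0 : (0 : ℝ) ≤ P := by positivity
    have e1 : (P : ℝ) / (r * T) / q = 2 * P / (r * (2 * q * T)) := by
      field_simp
    rw [e1]
    have h8 : (W : ℝ) ≤ r * (2 * q * T) := by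
      have : (0 : ℝ) ≤ 2 * q * T := by positivity
      nlinarith
    calc 2 * (P : ℝ) / (r * (2 * q * T)) ≤ 2 * P / W := by
          apply div_le_div_of_nonneg_left (by positivity) (by linarith) h8
      _ ≤ R / W := by gcongr

/-- Minor arcs: bilinear coefficients, one modulus. -/
theorem typeII_min : ∃ C : ℝ, 0 < C ∧ ∀ (X W R D q U N₁ P K : ℕ) (a b : ℕ → ℂ),
    3 ≤ X → 1 ≤ W → 4 * W ≤ X → 1 ≤ R → R ^ 4 ≤ D → D * R ^ 2 ≤ W → 1 ≤ q → 1 ≤ P → 2 * P * q ≤ R → P ≤ U →
    2 * P * q * U ≤ W → q * (2 * U * N₁) ≤ 32 * X → 2 * U * N₁ ≤ K →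
    (∀ m, m ∉ Ico U (2 * U) → a m = 0) → (∀ n, n ∉ Icc 1 N₁ → b n = 0) →
    TT W X {q} (fun _ => cv a b) K (fmin X R D) ≤
      C * (∑ m ∈ Ico U (2 * U), ‖a m‖ ^ 2) * (∑ n ∈ Icc 1 N₁, ‖b n‖ ^ 2) * (W / q) * X *
        Real.log X ^ 2 / P := by
  refine ⟨86400, by norm_num, ?_⟩
  intro X W R D q U N₁ P K a b hX hW hWX hR hRD hDR hq hP hPR hPU hPW hqN hK ha hb
  have hU : 1 ≤ U := hP.trans hPU
  have hD1 : 1 ≤ D := (Nat.one_le_pow _ _ hR).trans hRD
  have hR2 : 1 ≤ R ^ 2 := Nat.one_le_pow _ _ hR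
  have hDW' : D ≤ W := le_trans (by nlinarith) hDR
  have hX0 : (0 : ℝ) < X := by
    have : 0 < X := by omega
    exact_mod_cast this
  -- logs
  have hlogX : 1 ≤ Real.log X := by
    have h3 : Real.exp 1 ≤ 3 := by
      have := Real.exp_one_lt_d9
      linarith
    have h4 : (3 : ℝ) ≤ X := by exact_mod_cast hX
    rw [Real.le_log_iff_exp_le hX0]
    linarith
  have hlogW : Real.log W ≤ Real.log X := by
    apply Real.log_le_log
    · exact_mod_cast hW
    · have : W ≤ X := by omega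
      exact_mod_cast this
  have hlog2X : Real.log (2 * X) ≤ 1 + Real.log X := by
    rw [Real.log_mul (by norm_num) hX0.ne']
    have := Real.log_two_lt_d9
    linarith
  set S := (Ico U (2 * U)).image (fun m => q * m) with hS
  set Bb : ℝ := ∑ n ∈ Icc 1 N₁, ‖b n‖ ^ 2 with hBb
  set Aa : ℝ := ∑ m ∈ Ico U (2 * U), ‖a m‖ ^ 2 with hAa
  have hBb0 : 0 ≤ Bb := Finset.sum_nonneg (fun _ _ => by positivity)
  have hAa0 : 0 ≤ Aa := Finset.sum_nonneg (fun _ _ => by positivity)
  have step1 := TT_cauchy (W := W) (X := X) (K := K) (g := fmin X R D) hU hq a b ha hb hK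
  have step2 := ineq1 (W := W) (X := X) (K := N₁) (Y := 32 * X) (M := 4 * (32 * X) + 1) hW (by omega)
    (by omega) (by omega) S (by
      intro s hs
      rw [hS, Finset.mem_image] at hs
      obtain ⟨m, hm, rfl⟩ := hs
      rw [Finset.mem_Ico] at hm
      calc q * m * N₁ = q * (m * N₁) := by ring
        _ ≤ q * (2 * U * N₁) := by
            apply Nat.mul_le_mul_left
            exact Nat.mul_le_mul_right _ hm.2.le
        _ ≤ 32 * X := hqN) (fun _ => b) (fmin X R D) (by
      intro n hn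
      apply fmin_zero hD1
      rcases abs_cases n with ⟨h1, _⟩ | ⟨h1, _⟩
      · right
        rw [h1] at hn
        push_cast at hn ⊢
        omega
      · left
        rw [h1] at hn
        push_cast at hn ⊢
        omega)
  -- weights
  set T : ℕ := W / q with hTdef
  have hqP : q * (P * U) ≤ W := by nlinarith
  have hPUT : P * U ≤ T := by
    rw [hTdef, Nat.le_div_iff_mul_le (by omega)]
    calc P * U * q = q * (P * U) := by ring
      _ ≤ W := hqP
  have hT1 : 1 ≤ T := le_trans (Nat.mul_pos hP hU) hPUT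
  have hZU : W / (q * U) * U ≤ T := by
    rw [hTdef, Nat.le_div_iff_mul_le (by omega)]
    calc W / (q * U) * U * q = W / (q * U) * (q * U) := by ring
      _ ≤ W := Nat.div_mul_le_self _ _
  have hqR : (1 : ℝ) ≤ q := by exact_mod_cast hq
  have hPR' : (1 : ℝ) ≤ P := by exact_mod_cast hP
  have hUR : (1 : ℝ) ≤ U := by exact_mod_cast hU
  have hWR : (1 : ℝ) ≤ W := by exact_mod_cast hW
  have hTW : (T : ℝ) ≤ W / q := by
    rw [le_div_iff₀ (by linarith)]
    have : T * q ≤ W := Nat.div_mul_le_self _ _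
    exact_mod_cast this
  have hlogT : Real.log T ≤ Real.log W := by
    apply Real.log_le_log
    · exact_mod_cast hT1
    · have : T ≤ W := Nat.div_le_self _ _
      exact_mod_cast this
  have hlogT0 : 0 ≤ Real.log T := Real.log_nonneg (by exact_mod_cast hT1)
  have hlogW0 : 0 ≤ Real.log W := hlogT0.trans hlogT
  have hWq0 : (0 : ℝ) ≤ (W : ℝ) / q := by positivity
  have step3 := min_gen (X := X) (R := R) (D := D) (Y := 32 * X) (M := 4 * (32 * X) + 1) (W := W)
    (by omega) hR hRD hDR (by omega) (by omega) (fun α => W1 W S (fun _ => b) N₁ α)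
    (T := Bb * (4 * (W / q))) (δ := 100 * (1 + Real.log W) / P) (by positivity) (by positivity)
    (fun α => W1_nonneg W S (fun _ => b) N₁ α)
    (by
      intro α
      refine (W1_le hW hU hq b N₁ α).trans ?_
      apply mul_le_mul_of_nonneg_left _ hBb0
      refine (LS_triv _ (by linarith : (0 : ℝ) < U) _).trans ?_
      have h1 : ((W / (q * U) : ℕ) : ℝ) * U ≤ T := by exact_mod_cast hZU
      have h2 : (U : ℝ) ≤ T := by
        have : U ≤ T := le_trans (by nlinarith) hPUT
        exact_mod_cast this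
      nlinarith)
    (by
      intro α
      rcases LS_alt ((q : ℝ) * α) (P := P) (V := U) (Z := W / (q * U)) (T := T) hP hPU hPUT hZU with h | h
      · left
        refine (W1_le hW hU hq b N₁ α).trans ?_
        calc Bb * LS (W / (q * U)) U (q * α) ≤ Bb * (100 * (1 + Real.log T) * T / P) :=
              mul_le_mul_of_nonneg_left h hBb0
          _ ≤ Bb * (100 * (1 + Real.log W) * (W / q) / P) := by gcongr
          _ ≤ Bb * (100 * (1 + Real.log W) * (4 * (W / q)) / P) := by
              gcongr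
              linarith
          _ = 100 * (1 + Real.log W) / P * (Bb * (4 * (W / q))) := by ring
      · right
        obtain ⟨r, a', hr, hrP, -, h4⟩ := h
        exact tiimin_reduce hW hq hr hrP hPR hTdef hT1 h4)
  have hRP : (P : ℝ) ≤ (R : ℝ) ^ 2 := by
    have h1 : P ≤ R := by nlinarith
    have h2 : P ≤ R ^ 2 := by nlinarith
    exact_mod_cast h2
  have hδ : 100 * (1 + Real.log W) / P + 400 / (R : ℝ) ^ 2 ≤ 600 * Real.log X / P := by
    have h1 : 400 / (R : ℝ) ^ 2 ≤ 400 / P := by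
      apply div_le_div_of_nonneg_left (by norm_num) (by linarith) hRP
    have h2 : 100 * (1 + Real.log W) / P + 400 / P = (100 * (1 + Real.log W) + 400) / P := by ring
    calc 100 * (1 + Real.log W) / P + 400 / (R : ℝ) ^ 2 ≤ 100 * (1 + Real.log W) / P + 400 / P := by
          linarith
      _ = (100 * (1 + Real.log W) + 400) / P := h2
      _ ≤ 600 * Real.log X / P := by
          gcongr
          linarith
  have h12 : 12 * (X : ℝ) * (1 + Real.log (2 * X)) ≤ 36 * X * Real.log X := by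
    have : 1 + Real.log (2 * X) ≤ 3 * Real.log X := by linarith
    nlinarith
  have h120 : 0 ≤ 12 * (X : ℝ) * (1 + Real.log (2 * X)) := by
    have : 0 ≤ Real.log (2 * X) := by
      apply Real.log_nonneg
      have h4 : (3 : ℝ) ≤ X := by exact_mod_cast hX
      linarith
    positivity
  have step4 : TT W X S (fun _ => b) N₁ (fmin X R D) ≤
      600 * Real.log X / P * (Bb * (4 * (W / q))) * (36 * X * Real.log X) := by
    refine (step2.trans step3).trans ?_
    gcongr
  calc TT W X {q} (fun _ => cv a b) K (fmin X R D)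
      ≤ Aa * TT W X S (fun _ => b) N₁ (fmin X R D) := step1
    _ ≤ Aa * (600 * Real.log X / P * (Bb * (4 * (W / q))) * (36 * X * Real.log X)) :=
        mul_le_mul_of_nonneg_left step4 hAa0
    _ = 86400 * Aa * Bb * (W / q) * X * Real.log X ^ 2 / P := by ring

end Pool.Agent.SInt
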