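import Pool.Agent.SInt.TypeIMin
import Pool.Agent.SInt.TTb

open Finset Complex
open scoped ArithmeticFunction.Moebius ArithmeticFunction.vonMangoldt

namespace Pool.Agent.SInt

open Pool.Agent.ANT

private theorem TypeIMinLog_tele (n : ℕ) (hn : 1 ≤ n) (L : ℕ) (hL : n ≤ L + 1) :
    ∑ u ∈ Icc 1 L, (if n ≤ u then (Real.log ((u : ℝ) + 1) - Real.log (u : ℝ)) else 0) =
      Real.log ((L : ℝ) + 1) - Real.log (n : ℝ) := by
  induction L with
  | zero =>
    have : n = 1 := by omega
    subst this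
    simp
  | succ L ih =>
    rw [Finset.sum_Icc_succ_top (by omega)]
    by_cases h : n ≤ L + 1
    · rw [ih h, if_pos h]
      push_cast
      ring
    · have hn' : n = L + 2 := by omega
      rw [if_neg h, add_zero]
      rw [Finset.sum_eq_zero]
      · subst hn'
        push_cast
        ring_nf
      · intro u hu
        rw [Finset.mem_Icc] at hu
        rw [if_neg (by omega)]

/-- The same with logarithmic weights. -/
theorem typeI_min_log : ∃ C : ℝ, 0 < C ∧ ∀ (X W R D s t i K' : ℕ),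
    3 ≤ X → 1 ≤ W → 4 * W ≤ X → 1 ≤ R → R ^ 4 ≤ D → D * R ^ 2 ≤ W → 1 ≤ s → s ≤ R → W ≤ s * K' →
    s * K' ≤ 32 * X → 1 ≤ t → t ≤ X → i ≤ 1 →
    TT W X {s} (fun _ n => ((Real.log ((t * n : ℕ) : ℝ) ^ i : ℝ) : ℂ)) K' (fmin X R D) ≤
      C * (K' * W / s) * X * Real.log X ^ 3 / (R : ℝ) ^ 2 := by
  obtain ⟨C₀, hC₀, h⟩ := typeI_min
  refine ⟨144 * C₀, by positivity, ?_⟩
  intro X W R D s t i K' hX hW hWX hR hRD hDR hs hsR hWs hsX ht htX hi
  have hXr : (3 : ℝ) ≤ X := by exact_mod_cast hX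
  have hXpos : (0 : ℝ) < X := by linarith
  have hlog1 : (1 : ℝ) ≤ Real.log X := by
    rw [Real.le_log_iff_exp_le hXpos]
    have := Real.exp_one_lt_d9
    linarith
  have hsr : (0 : ℝ) < s := by exact_mod_cast hs
  have hRr : (0 : ℝ) < R := by exact_mod_cast hR
  have hK1 : 1 ≤ K' := by
    rcases Nat.eq_zero_or_pos K' with h0 | h0
    · subst h0
      simp at hWs
      omega
    · exact h0
  have hKX : K' ≤ 32 * X := by
    calc K' = 1 * K' := (one_mul _).symm
      _ ≤ s * K' := Nat.mul_le_mul_right _ hs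
      _ ≤ 32 * X := hsX
  obtain ⟨L, rfl⟩ : ∃ L, K' = L + 1 := ⟨K' - 1, by omega⟩
  set T : ℝ := C₀ * (((L + 1 : ℕ) : ℝ) * W / s) * X * Real.log X / (R : ℝ) ^ 2 with hT
  have hT0 : 0 ≤ T := by
    rw [hT]; positivity
  have hbase : ∀ u, u ≤ L + 1 →
      TT W X {s} (fun _ n => if n ≤ u then 1 else 0) (L + 1) (fmin X R D) ≤ T := by
    intro u hu
    exact h X W R D s u (L + 1) hX hW hWX hR hRD hDR hs hsR hWs hsX hu
  have hlog32 : Real.log 32 ≤ 4 := by
    have h1 : Real.log 32 = 5 * Real.log 2 := by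
      rw [show (32 : ℝ) = 2 ^ 5 by norm_num, Real.log_pow]
      norm_num
    have := Real.log_two_lt_d9
    rw [h1]; linarith
  have hlX0 : (0 : ℝ) < Real.log X := by linarith
  rcases Nat.le_one_iff_eq_zero_or_eq_one.1 hi with rfl | rfl
  · have e1 : TT W X {s} (fun _ n => ((Real.log ((t * n : ℕ) : ℝ) ^ 0 : ℝ) : ℂ)) (L + 1) (fmin X R D) =
        TT W X {s} (fun _ n => if n ≤ L + 1 then 1 else 0) (L + 1) (fmin X R D) := by
      apply TT_congr_c
      intro q _ k hk
      rw [Finset.mem_Icc] at hk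
      simp [hk.2]
    rw [e1]
    refine (hbase (L + 1) le_rfl).trans ?_
    have e2 : 144 * C₀ * (((L + 1 : ℕ) : ℝ) * W / s) * X * Real.log X ^ 3 / (R : ℝ) ^ 2 =
        T * (144 * Real.log X ^ 2) := by
      rw [hT]; ring
    rw [e2]
    have : (1 : ℝ) ≤ 144 * Real.log X ^ 2 := by nlinarith
    nlinarith
  · -- weights
    set w : ℕ → ℂ := fun u => if u = L + 1 then ((Real.log (((t * (L + 1) : ℕ)) : ℝ) : ℝ) : ℂ) else
      ((-(Real.log ((u : ℝ) + 1) - Real.log (u : ℝ)) : ℝ) : ℂ) with hw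
    have e1 : TT W X {s} (fun _ n => ((Real.log ((t * n : ℕ) : ℝ) ^ 1 : ℝ) : ℂ)) (L + 1) (fmin X R D) =
        TT W X {s} (fun q n => ∑ u ∈ Icc 1 (L + 1), w u * (fun (u : ℕ) (_ : ℕ) (n : ℕ) =>
          if n ≤ u then (1 : ℂ) else 0) u q n) (L + 1) (fmin X R D) := by
      apply TT_congr_c
      intro q _ n hn
      rw [Finset.mem_Icc] at hn
      rw [Finset.sum_Icc_succ_top (by omega)]
      have e3 : ∑ u ∈ Icc 1 L, w u * (fun (u : ℕ) (_ : ℕ) (n : ℕ) =>
          if n ≤ u then (1 : ℂ) else 0) u q n =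
          -((∑ u ∈ Icc 1 L, (if n ≤ u then (Real.log ((u : ℝ) + 1) - Real.log (u : ℝ)) else 0) : ℝ) : ℂ) := by
        rw [Complex.ofReal_sum, ← Finset.sum_neg_distrib]
        apply Finset.sum_congr rfl
        intro u hu
        rw [Finset.mem_Icc] at hu
        simp only [hw]
        rw [if_neg (by omega)]
        split_ifs <;> simp
      rw [e3, TypeIMinLog_tele n hn.1 L hn.2]
      simp only [hw, if_true, hn.2, mul_one, pow_one]
      have hnpos : (0 : ℝ) < n := by exact_mod_cast hn.1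
      have htpos : (0 : ℝ) < t := by exact_mod_cast ht
      rw [← Complex.ofReal_neg, ← Complex.ofReal_add]
      congr 1
      push_cast
      rw [Real.log_mul htpos.ne' hnpos.ne', Real.log_mul htpos.ne' (by positivity)]
      ring
    rw [e1]
    have hmink := TT_mink (W := W) (X := X) (S := {s}) (K := L + 1) (g := fmin X R D) (Icc 1 (L + 1)) w
      (fun (u : ℕ) (_ : ℕ) (n : ℕ) => if n ≤ u then (1 : ℂ) else 0) (T := T)
      (by
        intro u hu
        rw [Finset.mem_Icc] at hu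
        exact hbase u hu.2)
    refine hmink.trans ?_
    have htpos : (0 : ℝ) < t := by exact_mod_cast ht
    have hsum : ∑ u ∈ Icc 1 (L + 1), ‖w u‖ ≤ 12 * Real.log X := by
      rw [Finset.sum_Icc_succ_top (by omega)]
      have e4 : ∑ u ∈ Icc 1 L, ‖w u‖ = Real.log ((L : ℝ) + 1) := by
        have := TypeIMinLog_tele 1 le_rfl L (by omega)
        rw [Nat.cast_one, Real.log_one, sub_zero] at this
        rw [← this]
        apply Finset.sum_congr rfl
        intro u hu
        rw [Finset.mem_Icc] at hu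
        simp only [hw]
        rw [if_neg (by omega), if_pos hu.1, Complex.norm_real, Real.norm_eq_abs, abs_neg, abs_of_nonneg]
        have hu0 : (0 : ℝ) < u := by exact_mod_cast hu.1
        have := Real.log_le_log hu0 (by linarith : (u : ℝ) ≤ u + 1)
        linarith
      rw [e4]
      have hK2 : ((L : ℝ) + 1) ≤ 32 * X := by exact_mod_cast hKX
      have hL0 : (0 : ℝ) < (L : ℝ) + 1 := by positivity
      have h5 : Real.log ((L : ℝ) + 1) ≤ 4 + Real.log X := by
        have := Real.log_le_log hL0 hK2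
        rw [Real.log_mul (by norm_num) hXpos.ne'] at this
        linarith
      have h6 : Real.log (t : ℝ) ≤ Real.log X := by
        apply Real.log_le_log htpos
        exact_mod_cast htX
      have h7 : ‖w (L + 1)‖ = Real.log (t : ℝ) + Real.log ((L : ℝ) + 1) := by
        simp only [hw, if_true]
        rw [Complex.norm_real, Real.norm_eq_abs, abs_of_nonneg]
        · push_cast
          rw [Real.log_mul htpos.ne' hL0.ne']
        · apply Real.log_nonneg
          have : 1 ≤ t * (L + 1) := Nat.mul_pos ht (by omega)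
          exact_mod_cast this
      rw [h7]
      linarith
    have hsum0 : 0 ≤ ∑ u ∈ Icc 1 (L + 1), ‖w u‖ := Finset.sum_nonneg (fun _ _ => norm_nonneg _)
    have hsq : (∑ u ∈ Icc 1 (L + 1), ‖w u‖) ^ 2 ≤ (12 * Real.log X) ^ 2 := by
      exact pow_le_pow_left₀ hsum0 hsum 2
    calc (∑ u ∈ Icc 1 (L + 1), ‖w u‖) ^ 2 * T ≤ (12 * Real.log X) ^ 2 * T :=
          mul_le_mul_of_nonneg_right hsq hT0
      _ = 144 * C₀ * (((L + 1 : ℕ) : ℝ) * W / s) * X * Real.log X ^ 3 / (R : ℝ) ^ 2 := by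
          rw [hT]; ring

end Pool.Agent.SInt
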