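import Pool.Agent.SInt.TTb

open Finset Complex
open scoped ArithmeticFunction.Moebius ArithmeticFunction.vonMangoldt

namespace Pool.Agent.SInt

open Pool.Agent.ANT

/-- Möbius sum over the divisors. -/
lemma Expand_sum_mu {n : ℕ} (hn : n ≠ 0) : ∑ e ∈ n.divisors, muC e = if n = 1 then (1:ℂ) else 0 := by
  have h1 : (ArithmeticFunction.moebius * (ArithmeticFunction.zeta : ArithmeticFunction ℤ)) n =
      (1 : ArithmeticFunction ℤ) n := by rw [ArithmeticFunction.moebius_mul_coe_zeta]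
  rw [ArithmeticFunction.coe_mul_zeta_apply, ArithmeticFunction.one_apply] at h1
  have h2 : ∑ e ∈ n.divisors, muC e = (((∑ e ∈ n.divisors, ArithmeticFunction.moebius e : ℤ)) : ℂ) := by
    push_cast
    rfl
  rw [h2, h1]
  split_ifs <;> simp

lemma Expand_cop {q k : ℕ} (hq : 1 ≤ q) (hk : 1 ≤ k) :
    muC (q * k) = muC q * (∑ e ∈ q.divisors, if e ∣ k then muC e else 0) * muC k := by
  have h0 : (∑ e ∈ q.divisors, if e ∣ k then muC e else 0) = ∑ e ∈ (Nat.gcd k q).divisors, muC e := by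
    rw [← Finset.sum_filter]
    refine Finset.sum_congr ?_ fun _ _ => rfl
    ext e
    simp only [mem_filter, Nat.mem_divisors]
    constructor
    · rintro ⟨⟨h1, h2⟩, h3⟩
      exact ⟨Nat.dvd_gcd h3 h1, by have := Nat.gcd_pos_of_pos_right k hq; omega⟩
    · rintro ⟨h1, h2⟩
      exact ⟨⟨h1.trans (Nat.gcd_dvd_right _ _), by omega⟩, h1.trans (Nat.gcd_dvd_left _ _)⟩
  have hg : Nat.gcd k q ≠ 0 := by have := Nat.gcd_pos_of_pos_right k hq; omega
  rw [h0, Expand_sum_mu hg, Pool.Agent.DEH.muC_mul']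
  unfold Nat.Coprime
  split_ifs <;> ring

/-- Reindexing multiples of `e` when `h` vanishes beyond `N`. -/
lemma Expand_mult {e N : ℕ} (he : 1 ≤ e) (h : ℕ → ℂ) (hN : ∀ n, N < n → h n = 0) :
    ∑ k ∈ Icc 1 N, (if e ∣ k then h k else 0) = ∑ k ∈ Icc 1 N, h (e * k) := by
  have hI : Icc 1 N = Ioc 0 N := by ext x; simp only [mem_Icc, mem_Ioc]; omega
  rw [hI, Pool.Agent.DEH.sum_multiples he]
  refine Finset.sum_subset (Ioc_subset_Ioc_right (Nat.div_le_self N e)) ?_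
  intro k hk hk2
  refine hN _ ?_
  simp only [mem_Ioc, not_and, not_le] at hk hk2
  have h1 := hk2 hk.1
  rw [Nat.div_lt_iff_lt_mul (by omega)] at h1
  rw [mul_comm]; exact h1

lemma Expand_main {q N : ℕ} (hq : 1 ≤ q) (h : ℕ → ℂ) (hN : ∀ n, N < n → h n = 0) :
    ∑ k ∈ Icc 1 N, muC (q * k) * h k =
      muC q * ∑ e ∈ q.divisors, muC e * ∑ k ∈ Icc 1 N, muC (e * k) * h (e * k) := by
  have h1 : ∀ k ∈ Icc 1 N, muC (q * k) * h k =
      ∑ e ∈ q.divisors, muC q * (muC e * (if e ∣ k then muC k * h k else 0)) := by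
    intro k hk
    rw [Expand_cop hq (mem_Icc.mp hk).1, Finset.mul_sum, Finset.sum_mul, Finset.sum_mul]
    refine Finset.sum_congr rfl fun e _ => ?_
    split_ifs <;> ring
  rw [Finset.sum_congr rfl h1, Finset.sum_comm, Finset.mul_sum]
  refine Finset.sum_congr rfl fun e he => ?_
  have he1 : 1 ≤ e := Nat.pos_of_mem_divisors he
  rw [← Finset.mul_sum, ← Finset.mul_sum,
    Expand_mult he1 (fun k => muC k * h k) (fun n hn => by rw [hN n hn, mul_zero])]

lemma Expand_E {X N q : ℕ} (hN : N ≤ 2 * X) (hN1 : 1 ≤ N) (hq : 1 ≤ q) (g : ℕ → ℝ) :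
    ((Pool.Agent.DEH.E g N q : ℝ) : ℂ) =
      ∑ k ∈ Icc 1 N, ((g (q * k) : ℝ) : ℂ) * Lam (2 * X) ((N : ℤ) - ((q * k : ℕ) : ℤ)) := by
  unfold Pool.Agent.DEH.E
  have h1 : ∑ k ∈ Icc 1 N, ((g (q * k) : ℝ) : ℂ) * Lam (2 * X) ((N : ℤ) - ((q * k : ℕ) : ℤ)) =
      ∑ k ∈ (Icc 1 N).filter (fun k => q * k < N), ((g (q * k) : ℝ) : ℂ) * ((Λ (N - q * k) : ℝ) : ℂ) := by
    rw [Finset.sum_filter]
    refine Finset.sum_congr rfl fun k hk => ?_
    split_ifs with h
    · unfold Lam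
      rw [if_pos (by omega)]
      congr 3
      congr 1
      omega
    · unfold Lam
      rw [if_neg (by omega), mul_zero]
  rw [h1, Complex.ofReal_sum]
  symm
  refine Finset.sum_bij' (fun k _ => N - q * k) (fun n _ => (N - n) / q) ?_ ?_ ?_ ?_ ?_
  · intro k hk
    obtain ⟨h2, h3⟩ := mem_filter.mp hk
    obtain ⟨h4, h5⟩ := mem_Icc.mp h2
    have h6 : 0 < q * k := Nat.mul_pos hq h4
    refine mem_filter.mpr ⟨mem_Ico.mpr ⟨by omega, by omega⟩, ?_⟩
    rw [Nat.modEq_iff_dvd' (by omega)]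
    have : N - (N - q * k) = q * k := by omega
    rw [this]
    exact dvd_mul_right _ _
  · intro n hn
    obtain ⟨h2, h3⟩ := mem_filter.mp hn
    obtain ⟨h4, h5⟩ := mem_Ico.mp h2
    rw [Nat.modEq_iff_dvd' (by omega)] at h3
    obtain ⟨k, hk⟩ := h3
    have hk0 : 0 < k := Nat.pos_of_ne_zero (by rintro rfl; omega)
    have hdiv : (N - n) / q = k := by rw [hk]; exact Nat.mul_div_cancel_left k (by omega)
    rw [hdiv]
    have hkN : k ≤ q * k := Nat.le_mul_of_pos_left k (by omega)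
    exact mem_filter.mpr ⟨mem_Icc.mpr ⟨hk0, by omega⟩, by omega⟩
  · intro k hk
    obtain ⟨h2, h3⟩ := mem_filter.mp hk
    have : N - (N - q * k) = q * k := by omega
    show (N - (N - q * k)) / q = k
    rw [this]
    exact Nat.mul_div_cancel_left k (by omega)
  · intro n hn
    obtain ⟨h2, h3⟩ := mem_filter.mp hn
    obtain ⟨h4, h5⟩ := mem_Ico.mp h2
    rw [Nat.modEq_iff_dvd' (by omega)] at h3
    have := Nat.mul_div_cancel' h3
    show N - q * ((N - n) / q) = n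
    omega
  · intro k hk
    obtain ⟨h2, h3⟩ := mem_filter.mp hk
    have : N - (N - q * k) = q * k := by omega
    show _ = ((Λ (N - q * k) * g (N - (N - q * k)) : ℝ) : ℂ)
    rw [this]
    push_cast
    ring

lemma Expand_Lam_zero {X N : ℕ} {q n : ℕ} (hq : 1 ≤ q) (hn : N < n) :
    Lam (2 * X) ((N : ℤ) - ((q * n : ℕ) : ℤ)) = 0 := by
  unfold Lam
  have : n ≤ q * n := Nat.le_mul_of_pos_left n (by omega)
  rw [if_neg (by omega)]

/-- `E(N;q)` for `g = μ`. -/
theorem E_g1_expand {X N q : ℕ} (hN : N ≤ 2 * X) (hN1 : 1 ≤ N) (hq : 1 ≤ q) :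
    ((Pool.Agent.DEH.E Pool.Agent.DEH.g1 N q : ℝ) : ℂ) =
      muC q * ∑ e ∈ q.divisors, muC e * EG (fun _ => cc e 0) N (Lam (2 * X)) N (q * e) := by
  rw [Expand_E hN hN1 hq]
  have h1 : ∀ k ∈ Icc 1 N, ((Pool.Agent.DEH.g1 (q * k) : ℝ) : ℂ) * Lam (2 * X) ((N : ℤ) - ((q * k : ℕ) : ℤ)) =
      muC (q * k) * Lam (2 * X) ((N : ℤ) - ((q * k : ℕ) : ℤ)) := by
    intro k _
    unfold Pool.Agent.DEH.g1 muC
    push_cast
    rfl
  rw [Finset.sum_congr rfl h1,
    Expand_main hq (fun k => Lam (2 * X) ((N : ℤ) - ((q * k : ℕ) : ℤ))) (fun n hn => Expand_Lam_zero hq hn)]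
  congr 1
  refine Finset.sum_congr rfl fun e _ => ?_
  congr 1
  unfold EG
  refine Finset.sum_congr rfl fun k _ => ?_
  unfold cc
  congr 1
  · simp
  · congr 1
    push_cast
    ring

/-- `E(N;q)` for `g = μ log`. -/
theorem E_g2_expand {X N q : ℕ} (hN : N ≤ 2 * X) (hN1 : 1 ≤ N) (hq : 1 ≤ q) :
    ((Pool.Agent.DEH.E Pool.Agent.DEH.g2 N q : ℝ) : ℂ) =
      muC q * ∑ e ∈ q.divisors, muC e * (((Real.log ((q * e : ℕ) : ℝ) : ℝ) : ℂ) *
        EG (fun _ => cc e 0) N (Lam (2 * X)) N (q * e) + EG (fun _ => cc e 1) N (Lam (2 * X)) N (q * e)) := by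
  rw [Expand_E hN hN1 hq]
  have h1 : ∀ k ∈ Icc 1 N, ((Pool.Agent.DEH.g2 (q * k) : ℝ) : ℂ) * Lam (2 * X) ((N : ℤ) - ((q * k : ℕ) : ℤ)) =
      muC (q * k) * (((Real.log ((q * k : ℕ) : ℝ) : ℝ) : ℂ) * Lam (2 * X) ((N : ℤ) - ((q * k : ℕ) : ℤ))) := by
    intro k _
    unfold Pool.Agent.DEH.g2 muC
    push_cast
    ring
  rw [Finset.sum_congr rfl h1,
    Expand_main hq (fun k => ((Real.log ((q * k : ℕ) : ℝ) : ℝ) : ℂ) * Lam (2 * X) ((N : ℤ) - ((q * k : ℕ) : ℤ)))
      (fun n hn => by simp only [Expand_Lam_zero hq hn, mul_zero])]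
  congr 1
  refine Finset.sum_congr rfl fun e he => ?_
  have he1 : 1 ≤ e := Nat.pos_of_mem_divisors he
  congr 1
  unfold EG
  rw [Finset.mul_sum, ← Finset.sum_add_distrib]
  refine Finset.sum_congr rfl fun k hk => ?_
  have hk1 : 1 ≤ k := (mem_Icc.mp hk).1
  have hlog : Real.log ((q * (e * k) : ℕ) : ℝ) = Real.log ((q * e : ℕ) : ℝ) + Real.log k := by
    rw [← mul_assoc, Nat.cast_mul (q * e) k, Real.log_mul]
    · have : 0 < q * e := Nat.mul_pos hq he1
      exact_mod_cast this.ne'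
    · exact_mod_cast (by omega : k ≠ 0)
  have harg : ((N : ℤ) - ((q * (e * k) : ℕ) : ℤ)) = (N : ℤ) - ((q * e : ℕ) : ℤ) * (k : ℤ) := by
    push_cast; ring
  rw [hlog, harg]
  unfold cc
  push_cast
  ring

/-- Trivial bound for the tails. -/
theorem EG_triv {X N q e i : ℕ} (hX : 3 ≤ X) (hN : N ≤ 2 * X) (hq : 1 ≤ q) (he : 1 ≤ e) (hi : i ≤ 1) :
    ‖EG (fun _ => cc e i) N (Lam (2 * X)) N (q * e)‖ ≤ 2 * X / (q * e) * (4 * Real.log X ^ 2 + 4) := by
  have hqe : 1 ≤ q * e := Nat.mul_pos hq he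
  have hqeR : (0:ℝ) < (q * e : ℕ) := by exact_mod_cast hqe
  have hXR : (3:ℝ) ≤ X := by exact_mod_cast hX
  have hX0 : (0:ℝ) < X := by linarith
  set L := Real.log X with hL
  have hL0 : 0 ≤ L := Real.log_nonneg (by linarith)
  have hlog2 : Real.log ((2 * X : ℕ) : ℝ) ≤ 0.7 + L := by
    push_cast
    rw [Real.log_mul (by norm_num) hX0.ne']
    have := Real.log_two_lt_d9
    linarith
  set Y := Real.log ((2 * X : ℕ) : ℝ) with hY
  have hY0 : 0 ≤ Y := Real.log_natCast_nonneg _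
  -- restrict to k ≤ N/(qe)
  have hsub : EG (fun _ => cc e i) N (Lam (2 * X)) N (q * e) =
      ∑ k ∈ Icc 1 (N / (q * e)), cc e i k * Lam (2 * X) ((N:ℤ) - ((q * e : ℕ) : ℤ) * k) := by
    unfold EG
    symm
    refine Finset.sum_subset (Icc_subset_Icc_right (Nat.div_le_self _ _)) ?_
    intro k hk hk2
    simp only [mem_Icc, not_and, not_le] at hk hk2
    have h1 := hk2 hk.1
    rw [Nat.div_lt_iff_lt_mul (by omega)] at h1
    have h3 : ((N:ℤ) - ((q * e : ℕ) : ℤ) * k) < 0 := by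
      have : (N:ℤ) < (k:ℤ) * ((q * e : ℕ) : ℤ) := by exact_mod_cast h1
      linarith
    unfold Lam
    rw [if_neg (by omega), mul_zero]
  rw [hsub]
  have hterm : ∀ k ∈ Icc 1 (N / (q * e)), ‖cc e i k * Lam (2 * X) ((N:ℤ) - ((q * e : ℕ) : ℤ) * k)‖ ≤ (1 + Y) * Y := by
    intro k hk
    obtain ⟨hk1, hk2⟩ := mem_Icc.mp hk
    have hkN : k ≤ 2 * X := hk2.trans ((Nat.div_le_self _ _).trans hN)
    have hlk : Real.log k ≤ Y := Real.log_le_log (by exact_mod_cast hk1) (by exact_mod_cast hkN)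
    have hlk0 : 0 ≤ Real.log k := Real.log_natCast_nonneg _
    rw [norm_mul]
    refine mul_le_mul ?_ ?_ (norm_nonneg _) (by linarith)
    · unfold cc
      rw [norm_mul, Complex.norm_real, Real.norm_of_nonneg (by positivity)]
      have h1 := norm_muC_le (e * k)
      have h2 : Real.log k ^ i ≤ 1 + Y := by
        interval_cases i
        · simp; exact hY0
        · simp; linarith
      calc _ ≤ 1 * (1 + Y) := mul_le_mul h1 h2 (by positivity) zero_le_one
        _ = _ := one_mul _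
    · unfold Lam
      split_ifs with h
      · rw [Complex.norm_real, Real.norm_of_nonneg ArithmeticFunction.vonMangoldt_nonneg]
        refine ArithmeticFunction.vonMangoldt_le_log.trans ?_
        refine Real.log_le_log ?_ ?_
        · have : 0 < ((N:ℤ) - ((q * e : ℕ) : ℤ) * k).toNat := by omega
          exact_mod_cast this
        · have : ((N:ℤ) - ((q * e : ℕ) : ℤ) * k).toNat ≤ 2 * X := by omega
          exact_mod_cast this
      · simpa using hY0
  calc _ ≤ ∑ k ∈ Icc 1 (N / (q * e)), (1 + Y) * Y := (norm_sum_le _ _).trans (Finset.sum_le_sum hterm)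
    _ = ((N / (q * e) : ℕ) : ℝ) * ((1 + Y) * Y) := by
        rw [Finset.sum_const, nsmul_eq_mul, Nat.card_Icc, Nat.add_sub_cancel]
    _ ≤ 2 * X / (q * e) * (4 * L ^ 2 + 4) := by
        refine mul_le_mul ?_ ?_ (by positivity) (by positivity)
        · refine (Nat.cast_div_le).trans ?_
          push_cast
          have : (N:ℝ) ≤ 2 * X := by exact_mod_cast hN
          gcongr
        · nlinarith [sq_nonneg (L - 0.4)]

end Pool.Agent.SInt
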