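import Pool.Agent.SInt.Defs

open Finset Complex
open scoped ArithmeticFunction.Moebius ArithmeticFunction.vonMangoldt

namespace Pool.Agent.SInt

open Pool.Agent.ANT

private theorem riem_cell {f : ℝ → ℝ} {b δ : ℝ} (hδ : 0 < δ)
    (hint : IntervalIntegrable f MeasureTheory.volume b (b + δ))
    (hf : eVariationOn f (Set.Icc b (b + δ)) ≠ ⊤) :
    |δ * f b - ∫ x in b..(b + δ), f x| ≤ δ * (eVariationOn f (Set.Icc b (b + δ))).toReal := by
  have h1 : δ * f b = ∫ _x in b..(b + δ), f b := by
    rw [intervalIntegral.integral_const]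
    simp
  rw [h1, ← intervalIntegral.integral_sub (by simp) hint]
  have h2 : ‖∫ x in b..(b + δ), (f b - f x)‖ ≤
      (eVariationOn f (Set.Icc b (b + δ))).toReal * |(b + δ) - b| := by
    refine intervalIntegral.norm_integral_le_of_norm_le_const fun x hx => ?_
    rw [Set.uIoc_of_le (by linarith)] at hx
    have hx' : x ∈ Set.Icc b (b + δ) := ⟨hx.1.le, hx.2⟩
    have hb : b ∈ Set.Icc b (b + δ) := ⟨le_refl _, by linarith⟩
    have h3 := eVariationOn.edist_le f hb hx'
    rw [Real.norm_eq_abs, ← Real.dist_eq, dist_edist]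
    exact ENNReal.toReal_mono hf h3
  rw [Real.norm_eq_abs] at h2
  refine h2.trans (le_of_eq ?_)
  rw [show b + δ - b = δ by ring, abs_of_pos hδ, mul_comm]

private theorem riem_ind {f : ℝ → ℝ} {a δ : ℝ} (hδ : 0 < δ) (n : ℕ)
    (hint : IntervalIntegrable f MeasureTheory.volume a (a + n * δ))
    (hf : eVariationOn f (Set.Icc a (a + n * δ)) ≠ ⊤) :
    |∑ j ∈ range n, δ * f (a + j * δ) - ∫ x in a..(a + n * δ), f x| ≤
      δ * (eVariationOn f (Set.Icc a (a + n * δ))).toReal := by
  induction n with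
  | zero => simp
  | succ n ih =>
    have hn : 0 ≤ (n : ℝ) * δ := by positivity
    have he : a + ((n + 1 : ℕ) : ℝ) * δ = (a + n * δ) + δ := by push_cast; ring
    rw [he] at hint hf ⊢
    have hsub : Set.uIcc a (a + n * δ) ⊆ Set.uIcc a (a + n * δ + δ) := by
      rw [Set.uIcc_of_le (by linarith), Set.uIcc_of_le (by linarith)]
      exact Set.Icc_subset_Icc_right (by linarith)
    have hsub2 : Set.uIcc (a + n * δ) (a + n * δ + δ) ⊆ Set.uIcc a (a + n * δ + δ) := by
      rw [Set.uIcc_of_le (by linarith), Set.uIcc_of_le (by linarith)]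
      exact Set.Icc_subset_Icc_left (by linarith)
    have hint1 : IntervalIntegrable f MeasureTheory.volume a (a + n * δ) := hint.mono_set hsub
    have hint2 : IntervalIntegrable f MeasureTheory.volume (a + n * δ) (a + n * δ + δ) :=
      hint.mono_set hsub2
    have hadd : eVariationOn f (Set.Icc a (a + n * δ)) +
        eVariationOn f (Set.Icc (a + n * δ) (a + n * δ + δ)) =
        eVariationOn f (Set.Icc a (a + n * δ + δ)) := by
      have := eVariationOn.Icc_add_Icc f (s := Set.univ) (a := a) (b := a + n * δ)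
        (c := a + n * δ + δ) (by linarith) (by linarith) (Set.mem_univ _)
      simpa only [Set.univ_inter] using this
    have hf1 : eVariationOn f (Set.Icc a (a + n * δ)) ≠ ⊤ := by
      intro h
      rw [h, top_add] at hadd
      exact hf hadd.symm
    have hf2 : eVariationOn f (Set.Icc (a + n * δ) (a + n * δ + δ)) ≠ ⊤ := by
      intro h
      rw [h, add_top] at hadd
      exact hf hadd.symm
    have h1 := ih hint1 hf1
    have h2 := riem_cell hδ hint2 hf2
    rw [← hadd, ENNReal.toReal_add hf1 hf2, Finset.sum_range_succ,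
      ← intervalIntegral.integral_add_adjacent_intervals hint1 hint2]
    have h3 : ∑ j ∈ range n, δ * f (a + j * δ) + δ * f (a + n * δ) -
        ((∫ x in a..(a + n * δ), f x) + ∫ x in (a + n * δ)..(a + n * δ + δ), f x) =
        (∑ j ∈ range n, δ * f (a + j * δ) - ∫ x in a..(a + n * δ), f x) +
        (δ * f (a + n * δ) - ∫ x in (a + n * δ)..(a + n * δ + δ), f x) := by ring
    rw [h3]
    refine (abs_add_le _ _).trans ?_
    rw [mul_add]
    exact add_le_add h1 h2

/-- Riemann sums of functions of bounded variation. -/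
theorem riemann_bv {f : ℝ → ℝ} {a δ V : ℝ} {n : ℕ} (hδ : 0 < δ) (hV : 0 ≤ V)
    (hint : IntervalIntegrable f MeasureTheory.volume a (a + n * δ))
    (hf : eVariationOn f (Set.Icc a (a + n * δ)) ≤ ENNReal.ofReal V) :
    |∑ j ∈ range n, δ * f (a + j * δ) - ∫ x in a..(a + n * δ), f x| ≤ δ * V := by
  have h1 : eVariationOn f (Set.Icc a (a + n * δ)) ≠ ⊤ :=
    ne_top_of_le_ne_top ENNReal.ofReal_ne_top hf
  refine (riem_ind hδ n hint h1).trans (mul_le_mul_of_nonneg_left ?_ hδ.le)
  exact ENNReal.toReal_le_of_le_ofReal hV hf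

end Pool.Agent.SInt
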