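import Pool.Agent.SInt.TriB
import Pool.Agent.SInt.Riem

open Finset Complex
open scoped ArithmeticFunction.Moebius ArithmeticFunction.vonMangoldt

namespace Pool.Agent.SInt

open Pool.Agent.ANT

/-- The continuous local average of `(log(x/m))^i` over `x ≥ m`. -/
noncomputable def JJ (i D m : ℕ) (v : ℤ) : ℝ :=
  ∫ x in Set.Ioi (m : ℝ), Real.log (x / m) ^ i * GD D ((v : ℝ) - x)

/-- the integrand after the substitution `x = v - w` -/
private noncomputable def TIaver_H (i D m : ℕ) (v w : ℝ) : ℝ :=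
  if (m : ℝ) < v - w then Real.log ((v - w) / m) ^ i * GD D w else 0

private theorem TIaver_logpow_nonneg {m : ℕ} (hm : 1 ≤ m) (i : ℕ) {x : ℝ} (hx : (m : ℝ) ≤ x) :
    0 ≤ Real.log (x / m) ^ i := by
  have hm0 : (0 : ℝ) < m := by exact_mod_cast hm
  exact pow_nonneg (Real.log_nonneg (by rwa [le_div_iff₀ hm0, one_mul])) i

private theorem TIaver_JJ_eq (i D m : ℕ) (v : ℤ) :
    JJ i D m v = ∫ w : ℝ, TIaver_H i D m v w := by
  unfold JJ
  rw [← MeasureTheory.integral_indicator measurableSet_Ioi,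
    ← MeasureTheory.integral_sub_left_eq_self _ _ (v : ℝ)]
  congr 1
  ext w
  unfold TIaver_H
  by_cases h : (m : ℝ) < (v : ℝ) - w
  · rw [if_pos h, Set.indicator_of_mem (show (v : ℝ) - w ∈ Set.Ioi (m : ℝ) from h), sub_sub_cancel]
  · rw [if_neg h, Set.indicator_of_notMem (show (v : ℝ) - w ∉ Set.Ioi (m : ℝ) from h)]

private theorem TIaver_H_nonneg {i D m : ℕ} (hm : 1 ≤ m) (v w : ℝ) : 0 ≤ TIaver_H i D m v w := by
  unfold TIaver_H
  split_ifs with h
  · exact mul_nonneg (TIaver_logpow_nonneg hm i h.le) (GD_nonneg _ _)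
  · exact le_rfl

private theorem TIaver_GD_int {D : ℕ} (hD : 1 ≤ D) : MeasureTheory.Integrable (GD D) := by
  by_contra h
  have := integral_GD hD
  rw [MeasureTheory.integral_undef h] at this
  exact zero_ne_one this

private theorem TIaver_pow_le {i : ℕ} (hi : i ≤ 1) {y M : ℝ} (hy : 0 ≤ y) (hM : y ≤ M) :
    y ^ i ≤ 1 + M := by
  interval_cases i
  · rw [pow_zero]
    linarith
  · rw [pow_one]
    linarith

private theorem TIaver_H_le {i D m : ℕ} (hi : i ≤ 1) (hD : 1 ≤ D) (hm : 1 ≤ m) {v K : ℝ}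
    (hK : 1 ≤ K) (h : v + D ≤ K) (w : ℝ) :
    TIaver_H i D m v w ≤ (1 + Real.log K) * GD D w := by
  have hm0 : (0 : ℝ) < m := by exact_mod_cast hm
  have hm1 : (1 : ℝ) ≤ m := by exact_mod_cast hm
  unfold TIaver_H
  split_ifs with h1
  · by_cases h2 : (D : ℝ) ≤ |w|
    · rw [GD_eq_zero hD h2, mul_zero, mul_zero]
    · refine mul_le_mul_of_nonneg_right ?_ (GD_nonneg _ _)
      have h3 := (abs_lt.1 (not_le.1 h2)).1
      have h4 : 1 ≤ (v - w) / m := by rw [le_div_iff₀ hm0, one_mul]; exact h1.le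
      refine TIaver_pow_le hi (Real.log_nonneg h4) (Real.log_le_log (by linarith) ?_)
      calc (v - w) / m ≤ v - w := div_le_self (by linarith) hm1
        _ ≤ K := by linarith
  · exact mul_nonneg (by linarith [Real.log_nonneg hK]) (GD_nonneg _ _)

private theorem TIaver_H_int {i D m : ℕ} (hi : i ≤ 1) (hD : 1 ≤ D) (hm : 1 ≤ m) (v : ℝ) :
    MeasureTheory.Integrable (TIaver_H i D m v) := by
  refine MeasureTheory.Integrable.mono'
    ((TIaver_GD_int hD).const_mul (1 + Real.log (max 1 (v + D)))) ?_ ?_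
  · have hG : Measurable (GD D) := (continuous_GD D).measurable
    have : Measurable (TIaver_H i D m v) := by
      unfold TIaver_H
      refine Measurable.ite (measurableSet_lt measurable_const (by fun_prop)) ?_ measurable_const
      exact ((Real.measurable_log.comp (by fun_prop)).pow_const i).mul hG
    exact this.aestronglyMeasurable
  · refine MeasureTheory.ae_of_all _ fun w => ?_
    rw [Real.norm_of_nonneg (TIaver_H_nonneg hm v w)]
    exact TIaver_H_le hi hD hm (le_max_left _ _) (le_max_right _ _) w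

theorem JJ_nonneg {i D m : ℕ} (hm : 1 ≤ m) (v : ℤ) : 0 ≤ JJ i D m v := by
  rw [TIaver_JJ_eq]
  exact MeasureTheory.integral_nonneg fun w => TIaver_H_nonneg hm _ w

theorem JJ_mono {i D m : ℕ} (hi : i ≤ 1) (hD : 1 ≤ D) (hm : 1 ≤ m) {v v' : ℤ} (h : v ≤ v') :
    JJ i D m v ≤ JJ i D m v' := by
  have hv : (v : ℝ) ≤ v' := by exact_mod_cast h
  have hm0 : (0 : ℝ) < m := by exact_mod_cast hm
  rw [TIaver_JJ_eq, TIaver_JJ_eq]
  refine MeasureTheory.integral_mono (TIaver_H_int hi hD hm _) (TIaver_H_int hi hD hm _) ?_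
  intro w
  show TIaver_H i D m v w ≤ TIaver_H i D m v' w
  by_cases h1 : (m : ℝ) < (v : ℝ) - w
  · have h2 : (m : ℝ) < (v' : ℝ) - w := by linarith
    unfold TIaver_H
    rw [if_pos h1, if_pos h2]
    refine mul_le_mul_of_nonneg_right ?_ (GD_nonneg _ _)
    have h4 : 1 ≤ ((v : ℝ) - w) / m := by rw [le_div_iff₀ hm0, one_mul]; exact h1.le
    refine pow_le_pow_left₀ (Real.log_nonneg h4) (Real.log_le_log (by linarith) ?_) i
    exact div_le_div_of_nonneg_right (by linarith) hm0.le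
  · have h2 : TIaver_H i D m v w = 0 := by
      unfold TIaver_H
      rw [if_neg h1]
    rw [h2]
    exact TIaver_H_nonneg hm _ _

theorem JJ_le {i D m Z : ℕ} (hi : i ≤ 1) (hD : 1 ≤ D) (hm : 1 ≤ m) (hZ : 1 ≤ Z) {v : ℤ} (h : v + D ≤ Z) :
    JJ i D m v ≤ 1 + Real.log Z := by
  have hv : (v : ℝ) + D ≤ Z := by exact_mod_cast h
  rw [TIaver_JJ_eq]
  calc ∫ w : ℝ, TIaver_H i D m v w ≤ ∫ w : ℝ, (1 + Real.log Z) * GD D w := by
        refine MeasureTheory.integral_mono (TIaver_H_int hi hD hm _)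
          ((TIaver_GD_int hD).const_mul _) ?_
        intro w
        exact TIaver_H_le hi hD hm (by exact_mod_cast hZ) hv w
    _ = 1 + Real.log Z := by
        rw [MeasureTheory.integral_const_mul, integral_GD hD, mul_one]

/-! ### bounded variation -/

private theorem TIaver_var {f G : ℝ → ℝ} {a b : ℝ} (hab : a ≤ b)
    (h : ∀ x ∈ Set.Icc a b, ∀ y ∈ Set.Icc a b, x ≤ y → |f y - f x| ≤ G y - G x) :
    eVariationOn f (Set.Icc a b) ≤ ENNReal.ofReal (G b - G a) := by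
  have hG : MonotoneOn G (Set.Icc a b) := fun x hx y hy hxy => by
    have := h x hx y hy hxy
    linarith [abs_nonneg (f y - f x)]
  have h1 : eVariationOn f (Set.Icc a b) ≤ eVariationOn G (Set.Icc a b) := by
    refine iSup_mono fun p => Finset.sum_le_sum fun i _ => ?_
    rw [edist_dist, edist_dist]
    apply ENNReal.ofReal_le_ofReal
    rw [Real.dist_eq, Real.dist_eq]
    exact (h _ (p.2.2.2 i) _ (p.2.2.2 (i+1)) (p.2.2.1 (Nat.le_succ i))).trans (le_abs_self _)
  refine h1.trans ?_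
  have h2 := (hG.eVariationOn_eq (Set.left_mem_Icc.2 hab) (Set.right_mem_Icc.2 hab)).le
  rwa [Set.inter_self] at h2

/-- the variation function of the hat -/
private noncomputable def TIaver_gam (D : ℕ) (v x : ℝ) : ℝ :=
  if x ≤ v then GD D (v - x) else 2 / D - GD D (v - x)

private theorem TIaver_GD_anti {D : ℕ} {x y : ℝ} (h : |x| ≤ |y|) : GD D y ≤ GD D x := by
  unfold GD
  exact div_le_div_of_nonneg_right (tri_anti h) (Nat.cast_nonneg _)

private theorem TIaver_gam_var (D : ℕ) (v : ℝ) {x y : ℝ} (hxy : x ≤ y) :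
    |GD D (v - y) - GD D (v - x)| ≤ TIaver_gam D v y - TIaver_gam D v x := by
  unfold TIaver_gam
  by_cases hy : y ≤ v
  · have hx : x ≤ v := hxy.trans hy
    rw [if_pos hy, if_pos hx, abs_of_nonneg]
    have : GD D (v - x) ≤ GD D (v - y) := by
      apply TIaver_GD_anti
      rw [abs_of_nonneg (by linarith), abs_of_nonneg (by linarith)]
      linarith
    linarith
  · by_cases hx : x ≤ v
    · rw [if_neg hy, if_pos hx, abs_le]
      have h1 := GD_le D (v - y)
      have h2 := GD_le D (v - x)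
      have h3 : (2 : ℝ) / D = 1 / D + 1 / D := by ring
      constructor <;> rw [h3] <;> linarith
    · rw [if_neg hy, if_neg hx]
      have hy' := not_le.1 hy
      have hx' := not_le.1 hx
      have : GD D (v - y) ≤ GD D (v - x) := by
        apply TIaver_GD_anti
        rw [abs_of_nonpos (by linarith), abs_of_nonpos (by linarith)]
        linarith
      rw [abs_of_nonpos (by linarith)]
      linarith

private theorem TIaver_gam_bd (D : ℕ) (v x : ℝ) :
    0 ≤ TIaver_gam D v x ∧ TIaver_gam D v x ≤ 2 / D := by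
  unfold TIaver_gam
  have h1 := GD_le D (v - x)
  have h2 := GD_nonneg D (v - x)
  have h3 : (2 : ℝ) / D = 1 / D + 1 / D := by ring
  split_ifs
  · constructor
    · exact h2
    · rw [h3]; linarith
  · constructor
    · rw [h3]; linarith
    · linarith

private noncomputable def TIaver_f (i D m : ℕ) (v x : ℝ) : ℝ :=
  Real.log (x / m) ^ i * GD D (v - x)

private theorem TIaver_f_nonneg {i D m : ℕ} (hm : 1 ≤ m) (v : ℝ) {x : ℝ} (hx : (m : ℝ) ≤ x) :
    0 ≤ TIaver_f i D m v x :=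
  mul_nonneg (TIaver_logpow_nonneg hm i hx) (GD_nonneg _ _)

private theorem TIaver_f_zero {i D m : ℕ} (hD : 1 ≤ D) {v x : ℝ} (hx : v + D ≤ x) :
    TIaver_f i D m v x = 0 := by
  unfold TIaver_f
  rw [GD_eq_zero hD, mul_zero]
  rw [abs_of_nonpos (by have : (0 : ℝ) ≤ D := Nat.cast_nonneg _; linarith)]
  linarith

private theorem TIaver_f_le {i D m : ℕ} (hi : i ≤ 1) (hD : 1 ≤ D) (hm : 1 ≤ m) {v K : ℝ}
    (hK : 1 ≤ K) (h : v + D ≤ K) {x : ℝ} (hx : (m : ℝ) ≤ x) :
    TIaver_f i D m v x ≤ (1 + Real.log K) / D := by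
  have hm0 : (0 : ℝ) < m := by exact_mod_cast hm
  have hm1 : (1 : ℝ) ≤ m := by exact_mod_cast hm
  have hl := Real.log_nonneg hK
  by_cases h2 : v + D ≤ x
  · rw [TIaver_f_zero hD h2]
    positivity
  · unfold TIaver_f
    have h4 : 1 ≤ x / m := by rw [le_div_iff₀ hm0, one_mul]; exact hx
    have h5 : Real.log (x / m) ^ i ≤ 1 + Real.log K := by
      refine TIaver_pow_le hi (Real.log_nonneg h4) (Real.log_le_log (by linarith) ?_)
      calc x / m ≤ x := div_le_self (by linarith) hm1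
        _ ≤ K := by linarith
    calc _ ≤ (1 + Real.log K) * (1 / D) :=
          mul_le_mul h5 (GD_le _ _) (GD_nonneg _ _) (by linarith)
      _ = _ := by ring

private theorem TIaver_f_var {i D m : ℕ} (hi : i ≤ 1) (hD : 1 ≤ D) (hm : 1 ≤ m) {v K : ℝ}
    (hK : 1 ≤ K) (h : v + D ≤ K) {a b : ℝ} (ha : (m : ℝ) ≤ a) (hab : a ≤ b) :
    eVariationOn (TIaver_f i D m v) (Set.Icc a b) ≤
      ENNReal.ofReal (3 * (1 + Real.log K) / D) := by
  have hm0 : (0 : ℝ) < m := by exact_mod_cast hm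
  have hm1 : (1 : ℝ) ≤ m := by exact_mod_cast hm
  have hD0 : (0 : ℝ) < D := by exact_mod_cast hD
  have hl := Real.log_nonneg hK
  obtain ⟨M, hM⟩ : ∃ M : ℝ, M = 1 + Real.log K := ⟨_, rfl⟩
  have hM0 : 0 ≤ M := by rw [hM]; linarith
  obtain ⟨L, hL⟩ : ∃ L : ℝ → ℝ, ∀ x, L x = min (Real.log (x / m) ^ i) M := ⟨_, fun _ => rfl⟩
  have hL0 : ∀ x, (m : ℝ) ≤ x → 0 ≤ L x := fun x hx => by
    rw [hL]
    exact le_min (TIaver_logpow_nonneg hm i hx) hM0
  have hLM : ∀ x, L x ≤ M := fun x => by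
    rw [hL]
    exact min_le_right _ _
  have hLmono : ∀ x y, (m : ℝ) ≤ x → x ≤ y → L x ≤ L y := fun x y hx hxy => by
    rw [hL, hL]
    refine min_le_min_right _ ?_
    have h4 : 1 ≤ x / m := by rw [le_div_iff₀ hm0, one_mul]; exact hx
    refine pow_le_pow_left₀ (Real.log_nonneg h4) (Real.log_le_log (by linarith) ?_) i
    exact div_le_div_of_nonneg_right hxy hm0.le
  have hf : ∀ x, (m : ℝ) ≤ x → TIaver_f i D m v x = L x * GD D (v - x) := by
    intro x hx
    by_cases h2 : v + D ≤ x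
    · rw [TIaver_f_zero hD h2, GD_eq_zero hD, mul_zero]
      rw [abs_of_nonpos (by linarith)]
      linarith
    · unfold TIaver_f
      rw [hL, min_eq_left]
      have h4 : 1 ≤ x / m := by rw [le_div_iff₀ hm0, one_mul]; exact hx
      rw [hM]
      refine TIaver_pow_le hi (Real.log_nonneg h4) (Real.log_le_log (by linarith) ?_)
      calc x / m ≤ x := div_le_self (by linarith) hm1
        _ ≤ K := by linarith
  refine (TIaver_var (G := fun x => L x / D + M * TIaver_gam D v x) hab ?_).trans ?_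
  · intro x hx y hy hxy
    have hx1 : (m : ℝ) ≤ x := ha.trans hx.1
    have hy1 : (m : ℝ) ≤ y := ha.trans hy.1
    rw [hf x hx1, hf y hy1]
    have e : L y * GD D (v - y) - L x * GD D (v - x) =
        (L y - L x) * GD D (v - y) + L x * (GD D (v - y) - GD D (v - x)) := by ring
    rw [e]
    have h1 : |(L y - L x) * GD D (v - y)| ≤ (L y - L x) * (1 / D) := by
      rw [abs_mul, abs_of_nonneg (sub_nonneg.2 (hLmono x y hx1 hxy)), abs_of_nonneg (GD_nonneg _ _)]
      exact mul_le_mul_of_nonneg_left (GD_le _ _) (sub_nonneg.2 (hLmono x y hx1 hxy))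
    have h2 : |L x * (GD D (v - y) - GD D (v - x))| ≤
        M * (TIaver_gam D v y - TIaver_gam D v x) := by
      rw [abs_mul, abs_of_nonneg (hL0 x hx1)]
      exact mul_le_mul (hLM x) (TIaver_gam_var D v hxy) (abs_nonneg _) hM0
    calc _ ≤ (L y - L x) * (1 / D) + M * (TIaver_gam D v y - TIaver_gam D v x) :=
          (abs_add_le _ _).trans (add_le_add h1 h2)
      _ = _ := by ring
  · apply ENNReal.ofReal_le_ofReal
    have h1 := (TIaver_gam_bd D v a).1
    have h2 := (TIaver_gam_bd D v b).2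
    have h3 : L b / D ≤ M / D := div_le_div_of_nonneg_right (hLM b) hD0.le
    have h4 : 0 ≤ L a / D := div_nonneg (hL0 a ha) hD0.le
    have h5 : M * TIaver_gam D v b ≤ M * (2 / D) := mul_le_mul_of_nonneg_left h2 hM0
    have h6 : 0 ≤ M * TIaver_gam D v a := mul_nonneg hM0 h1
    have h7 : 3 * (1 + Real.log K) / D = M / D + M * (2 / D) := by rw [hM]; ring
    rw [h7]
    linarith

private theorem TIaver_f_cont {i D m : ℕ} (hm : 1 ≤ m) (v : ℝ) :
    ContinuousOn (TIaver_f i D m v) (Set.Ici (m : ℝ)) := by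
  have hm0 : (0 : ℝ) < m := by exact_mod_cast hm
  unfold TIaver_f
  refine ContinuousOn.mul ?_ ((continuous_GD D).comp (by fun_prop)).continuousOn
  refine ContinuousOn.pow (ContinuousOn.log (by fun_prop) fun x hx => ?_) i
  have : (m : ℝ) ≤ x := hx
  exact (div_pos (by linarith) hm0).ne'

private theorem TIaver_f_intOn {i D m : ℕ} (hi : i ≤ 1) (hD : 1 ≤ D) (hm : 1 ≤ m) (v : ℝ) :
    MeasureTheory.IntegrableOn (TIaver_f i D m v) (Set.Ioi (m : ℝ)) := by
  have h := (TIaver_H_int hi hD hm v).comp_sub_left v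
  rw [← MeasureTheory.integrable_indicator_iff measurableSet_Ioi]
  refine h.congr (MeasureTheory.ae_of_all _ fun x => ?_)
  show TIaver_H i D m v (v - x) = _
  unfold TIaver_H TIaver_f
  rw [sub_sub_cancel]
  by_cases hx : (m : ℝ) < x
  · rw [if_pos hx, Set.indicator_of_mem (show x ∈ Set.Ioi (m : ℝ) from hx)]
  · rw [if_neg hx, Set.indicator_of_notMem (show x ∉ Set.Ioi (m : ℝ) from hx)]

private theorem TIaver_riem {i D m Z r b n : ℕ} (hi : i ≤ 1) (hD : 1 ≤ D) (hm : 1 ≤ m) (hZ : 1 ≤ Z)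
    (hr : 1 ≤ r) (hb1 : 1 ≤ b) (hb : b ≤ r) (hn : Z ≤ n) {v : ℤ} (h : v + D ≤ Z) :
    |∑ j ∈ range n, TIaver_f i D m v ((m : ℝ) * b + j * ((m : ℝ) * r)) -
      1 / ((m : ℝ) * r) * JJ i D m v| ≤ 4 * (1 + Real.log Z) / D := by
  have hm0 : (0 : ℝ) < m := by exact_mod_cast hm
  have hm1 : (1 : ℝ) ≤ m := by exact_mod_cast hm
  have hr0 : (0 : ℝ) < r := by exact_mod_cast hr
  have hr1 : (1 : ℝ) ≤ r := by exact_mod_cast hr
  have hD0 : (0 : ℝ) < D := by exact_mod_cast hD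
  have hZ1 : (1 : ℝ) ≤ Z := by exact_mod_cast hZ
  have hb1' : (1 : ℝ) ≤ b := by exact_mod_cast hb1
  have hb' : (b : ℝ) ≤ r := by exact_mod_cast hb
  have hn' : (Z : ℝ) ≤ n := by exact_mod_cast hn
  have hv : (v : ℝ) + D ≤ Z := by exact_mod_cast h
  have hl := Real.log_nonneg hZ1
  obtain ⟨δ, hδ⟩ : ∃ δ : ℝ, δ = (m : ℝ) * r := ⟨_, rfl⟩
  obtain ⟨a, ha⟩ : ∃ a : ℝ, a = (m : ℝ) * b := ⟨_, rfl⟩
  obtain ⟨V, hV⟩ : ∃ V : ℝ, V = (1 + Real.log Z) / D := ⟨_, rfl⟩
  have hδ0 : 0 < δ := by rw [hδ]; positivity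
  have hδ1 : 1 ≤ δ := by rw [hδ]; nlinarith
  have hV0 : 0 ≤ V := by rw [hV]; positivity
  have hma : (m : ℝ) ≤ a := by rw [ha]; nlinarith
  have haδ : a - m ≤ δ := by
    rw [ha, hδ]
    have : (m : ℝ) * b ≤ m * r := mul_le_mul_of_nonneg_left hb' hm0.le
    linarith
  have hn0 : (0 : ℝ) ≤ n := Nat.cast_nonneg _
  have hae : a ≤ a + n * δ := by nlinarith
  have hend : (v : ℝ) + D ≤ a + n * δ := by nlinarith
  have hint : MeasureTheory.IntegrableOn (TIaver_f i D m v) (Set.Ioi (m : ℝ)) :=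
    TIaver_f_intOn hi hD hm v
  have hint1 : IntervalIntegrable (TIaver_f i D m v) MeasureTheory.volume m a := by
    rw [intervalIntegrable_iff_integrableOn_Ioc_of_le hma]
    exact hint.mono_set Set.Ioc_subset_Ioi_self
  have hint2 : IntervalIntegrable (TIaver_f i D m v) MeasureTheory.volume a (a + n * δ) := by
    rw [intervalIntegrable_iff_integrableOn_Ioc_of_le hae]
    exact hint.mono_set (Set.Ioc_subset_Ioi_self.trans (Set.Ioi_subset_Ioi hma))
  have h1 := riemann_bv (f := TIaver_f i D m v) (a := a) (δ := δ) (V := 3 * V) (n := n) hδ0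
    (by positivity) hint2 (by
      have := TIaver_f_var (i := i) hi hD hm hZ1 hv hma hae
      rwa [show 3 * (1 + Real.log Z) / D = 3 * V by rw [hV]; ring] at this)
  have h2 : JJ i D m v = (∫ x in (m : ℝ)..a, TIaver_f i D m v x) +
      ∫ x in a..(a + n * δ), TIaver_f i D m v x := by
    rw [intervalIntegral.integral_add_adjacent_intervals hint1 hint2]
    have h3 : JJ i D m v = ∫ x in Set.Ioi (m : ℝ), TIaver_f i D m v x := rfl
    rw [h3, ← intervalIntegral.integral_interval_add_Ioi (a := (m : ℝ)) (b := a + n * δ) hint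
      (hint.mono_set (Set.Ioi_subset_Ioi (hma.trans hae)))]
    have h4 : ∫ x in Set.Ioi (a + n * δ), TIaver_f i D m v x = 0 := by
      apply MeasureTheory.setIntegral_eq_zero_of_forall_eq_zero
      intro x hx
      have hx' : a + n * δ < x := hx
      exact TIaver_f_zero hD (by linarith)
    rw [h4, add_zero]
  have h5 : |∫ x in (m : ℝ)..a, TIaver_f i D m v x| ≤ δ * V := by
    rw [← Real.norm_eq_abs]
    refine (intervalIntegral.norm_integral_le_of_norm_le_const (C := V) ?_).trans ?_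
    · intro x hx
      rw [Set.uIoc_of_le hma] at hx
      rw [Real.norm_of_nonneg (TIaver_f_nonneg hm _ hx.1.le), hV]
      exact TIaver_f_le hi hD hm hZ1 hv hx.1.le
    · rw [abs_of_nonneg (by linarith), mul_comm]
      exact mul_le_mul_of_nonneg_right haδ hV0
  rw [← Finset.mul_sum] at h1
  obtain ⟨S, hS⟩ : ∃ S : ℝ, S = ∑ j ∈ range n, TIaver_f i D m v (a + j * δ) := ⟨_, rfl⟩
  rw [← hS] at h1
  rw [← ha, ← hδ, ← hS]
  have h6 : |δ * S - JJ i D m v| ≤ δ * (4 * V) := by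
    rw [h2]
    have e : δ * S - ((∫ x in (m : ℝ)..a, TIaver_f i D m v x) +
        ∫ x in a..(a + n * δ), TIaver_f i D m v x) =
        (δ * S - ∫ x in a..(a + n * δ), TIaver_f i D m v x) +
          (-∫ x in (m : ℝ)..a, TIaver_f i D m v x) := by ring
    rw [e]
    refine (abs_add_le _ _).trans ?_
    rw [abs_neg]
    calc _ ≤ δ * (3 * V) + δ * V := add_le_add h1 h5
      _ = _ := by ring
  have e2 : S - 1 / δ * JJ i D m v = (1 / δ) * (δ * S - JJ i D m v) := by
    field_simp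
  rw [e2, abs_mul, abs_of_pos (by positivity)]
  calc _ ≤ (1 / δ) * (δ * (4 * V)) := mul_le_mul_of_nonneg_left h6 (by positivity)
    _ = 4 * V := by field_simp
    _ = _ := by rw [hV]; ring

private theorem TIaver_sum_block (g : ℕ → ℂ) (r n : ℕ) :
    ∑ l ∈ range (r * n), g l = ∑ b ∈ range r, ∑ j ∈ range n, g (b + r * j) := by
  rw [Finset.sum_comm]
  induction n with
  | zero => simp
  | succ n ih =>
    rw [Nat.mul_succ, Finset.sum_range_add, ih, Finset.sum_range_succ]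
    congr 1
    refine Finset.sum_congr rfl fun x _ => ?_
    rw [add_comm]

private theorem TIaver_sum_Icc (g : ℕ → ℂ) (N : ℕ) :
    ∑ l ∈ Icc 1 N, g l = ∑ l ∈ range N, g (l + 1) := by
  induction N with
  | zero => simp
  | succ N ih => rw [Finset.sum_Icc_succ_top (by omega), ih, Finset.sum_range_succ]

private theorem TIaver_phase {m r a : ℕ} (hr : 1 ≤ r) (ha : a.Coprime r) :
    ∑ b ∈ range r, ee (-((a : ℝ) * ((m * (b + 1) : ℕ) : ℝ) / r)) = if r ∣ m then (r : ℂ) else 0 := by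
  have hr0 : (r : ℝ) ≠ 0 := by exact_mod_cast (by omega : r ≠ 0)
  have h1 := orth_ee (M := r) (a := 0) (b := (a * m) % r) (by omega) (Nat.mod_lt _ (by omega))
  have h2 : (0 = (a * m) % r) ↔ r ∣ m := by
    rw [eq_comm, ← Nat.dvd_iff_mod_eq_zero]
    exact ⟨fun h => (Nat.Coprime.dvd_of_dvd_mul_left ha.symm h), fun h => h.mul_left a⟩
  have h3 : ∀ b : ℕ, ee (-((a : ℝ) * ((m * (b + 1) : ℕ) : ℝ) / r)) =
      ee (-((a : ℝ) * m / r)) * (ee (((0 : ℕ) : ℝ) * ((b : ℝ) / r)) *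
        (starRingEnd ℂ) (ee ((((a * m) % r : ℕ) : ℝ) * ((b : ℝ) / r)))) := by
    intro b
    rw [conj_ee, ← ee_add, ← ee_add]
    have h40 := Nat.mod_add_div (a * m) r
    generalize (a * m) / r = q at h40
    have h4 : ((a * m : ℕ) : ℝ) = (((a * m) % r : ℕ) : ℝ) + r * (q : ℝ) := by
      exact_mod_cast h40.symm
    generalize (((a * m) % r : ℕ) : ℝ) = s at h4 ⊢
    have h5 : -((a : ℝ) * ((m * (b + 1) : ℕ) : ℝ) / r) =
        (-((a : ℝ) * m / r) + (((0 : ℕ) : ℝ) * ((b : ℝ) / r) +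
          -(s * ((b : ℝ) / r)))) + ((-((q * b : ℕ) : ℤ) : ℤ) : ℝ) := by
      push_cast at h4 ⊢
      field_simp
      linear_combination (-(b : ℝ)) * h4
    rw [h5, ee_add_int]
  rw [Finset.sum_congr rfl fun b _ => h3 b, ← Finset.mul_sum, h1]
  by_cases h : r ∣ m
  · rw [if_pos (h2.2 h), if_pos h]
    obtain ⟨c, hc⟩ := h
    have h6 : -((a : ℝ) * m / r) = ((-(a * c : ℕ) : ℤ) : ℝ) := by
      rw [hc]
      push_cast
      field_simp
    rw [h6, ee_int, one_mul]
  · rw [if_neg (fun h' => h (h2.1 h')), if_neg h, mul_zero]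

/-- Local averages of smooth sequences in progressions twisted by `e(-an/r)`. -/
theorem TI_average : ∃ C : ℝ, 0 < C ∧ ∀ (m r a Z D i : ℕ) (v : ℤ), 1 ≤ m → 1 ≤ r → a.Coprime r → i ≤ 1 →
    1 ≤ D → 1 ≤ Z → v + D ≤ Z →
    ‖∑ l ∈ Icc 1 (Z / m), ((Real.log l ^ i : ℝ) : ℂ) * ee (-((a : ℝ) * ((m * l : ℕ) : ℝ) / r)) *
        ((GD D ((v : ℝ) - m * l) : ℝ) : ℂ) -
      (if r ∣ m then (((1 : ℝ) / m * JJ i D m v : ℝ) : ℂ) else 0)‖ ≤ C * r * (1 + Real.log Z) / D := by
  refine ⟨4, by norm_num, ?_⟩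
  intro m r a Z D i v hm hr ha hi hD hZ hv
  have hm0 : (0 : ℝ) < m := by exact_mod_cast hm
  have hr0 : (0 : ℝ) < r := by exact_mod_cast hr
  have hD0 : (0 : ℝ) < D := by exact_mod_cast hD
  have hv' : (v : ℝ) + D ≤ Z := by exact_mod_cast hv
  obtain ⟨F, hF⟩ : ∃ F : ℕ → ℂ, ∀ l, F l = ((Real.log l ^ i : ℝ) : ℂ) *
      ee (-((a : ℝ) * ((m * l : ℕ) : ℝ) / r)) * ((GD D ((v : ℝ) - m * l) : ℝ) : ℂ) := ⟨_, fun _ => rfl⟩
  have e0 : ∑ l ∈ Icc 1 (Z / m), ((Real.log l ^ i : ℝ) : ℂ) *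
      ee (-((a : ℝ) * ((m * l : ℕ) : ℝ) / r)) * ((GD D ((v : ℝ) - m * l) : ℝ) : ℂ) =
      ∑ l ∈ Icc 1 (Z / m), F l := Finset.sum_congr rfl fun l _ => (hF l).symm
  have e1 : ∑ l ∈ Icc 1 (Z / m), F l = ∑ l ∈ Icc 1 (r * Z), F l := by
    apply Finset.sum_subset
    · apply Finset.Icc_subset_Icc_right
      calc Z / m ≤ Z := Nat.div_le_self _ _
        _ ≤ r * Z := Nat.le_mul_of_pos_left _ (by omega)
    · intro l hl hl'
      rw [Finset.mem_Icc] at hl
      rw [Finset.mem_Icc, not_and, not_le] at hl'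
      have h1 := hl' hl.1
      have h2 : Z < m * l := by
        rw [mul_comm]
        exact (Nat.div_lt_iff_lt_mul (by omega)).1 h1
      have h3 : (Z : ℝ) < m * l := by exact_mod_cast h2
      rw [hF, GD_eq_zero hD, Complex.ofReal_zero, mul_zero]
      rw [abs_of_nonpos (by linarith)]
      linarith
  rw [e0, e1, TIaver_sum_Icc, TIaver_sum_block]
  -- each residue class
  have e2 : ∀ b j : ℕ, F (b + r * j + 1) = ee (-((a : ℝ) * ((m * (b + 1) : ℕ) : ℝ) / r)) *
      ((TIaver_f i D m v ((m : ℝ) * ((b + 1 : ℕ) : ℝ) + j * ((m : ℝ) * r)) : ℝ) : ℂ) := by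
    intro b j
    rw [hF]
    have h1 : -((a : ℝ) * ((m * (b + r * j + 1) : ℕ) : ℝ) / r) =
        -((a : ℝ) * ((m * (b + 1) : ℕ) : ℝ) / r) + ((-(a * m * j : ℕ) : ℤ) : ℝ) := by
      push_cast
      field_simp
      ring
    rw [h1, ee_add_int]
    unfold TIaver_f
    have h2 : ((m : ℝ) * ((b + 1 : ℕ) : ℝ) + j * ((m : ℝ) * r)) = m * ((b + r * j + 1 : ℕ) : ℝ) := by
      push_cast
      ring
    rw [h2, mul_div_cancel_left₀ _ hm0.ne']
    push_cast
    ring
  have e3 : ∑ b ∈ range r, ∑ j ∈ range Z, F (b + r * j + 1) =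
      ∑ b ∈ range r, ee (-((a : ℝ) * ((m * (b + 1) : ℕ) : ℝ) / r)) *
        ((∑ j ∈ range Z, TIaver_f i D m v ((m : ℝ) * ((b + 1 : ℕ) : ℝ) + j * ((m : ℝ) * r)) : ℝ) : ℂ) := by
    refine Finset.sum_congr rfl fun b _ => ?_
    rw [Complex.ofReal_sum, Finset.mul_sum]
    exact Finset.sum_congr rfl fun j _ => e2 b j
  have e4 : (if r ∣ m then (((1 : ℝ) / m * JJ i D m v : ℝ) : ℂ) else 0) =
      ∑ b ∈ range r, ee (-((a : ℝ) * ((m * (b + 1) : ℕ) : ℝ) / r)) *
        ((1 / ((m : ℝ) * r) * JJ i D m v : ℝ) : ℂ) := by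
    rw [← Finset.sum_mul, TIaver_phase hr ha]
    split_ifs with h
    · have hrc : (r : ℂ) ≠ 0 := by exact_mod_cast hr0.ne'
      have hmc : (m : ℂ) ≠ 0 := by exact_mod_cast hm0.ne'
      push_cast
      field_simp
    · rw [zero_mul]
  rw [e3, e4, ← Finset.sum_sub_distrib]
  refine (norm_sum_le _ _).trans ?_
  calc ∑ b ∈ range r, ‖ee (-((a : ℝ) * ((m * (b + 1) : ℕ) : ℝ) / r)) *
        ((∑ j ∈ range Z, TIaver_f i D m v ((m : ℝ) * ((b + 1 : ℕ) : ℝ) + j * ((m : ℝ) * r)) : ℝ) : ℂ) -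
        ee (-((a : ℝ) * ((m * (b + 1) : ℕ) : ℝ) / r)) *
        ((1 / ((m : ℝ) * r) * JJ i D m v : ℝ) : ℂ)‖
      ≤ ∑ b ∈ range r, 4 * (1 + Real.log Z) / D := by
        refine Finset.sum_le_sum fun b hb => ?_
        rw [← mul_sub, norm_mul, norm_ee, one_mul, ← Complex.ofReal_sub, Complex.norm_real,
          Real.norm_eq_abs]
        exact TIaver_riem hi hD hm hZ hr (by omega) (by
          have := Finset.mem_range.1 hb
          omega) le_rfl hv
    _ = 4 * r * (1 + Real.log Z) / D := by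
        rw [Finset.sum_const, Finset.card_range, nsmul_eq_mul]
        ring

end Pool.Agent.SInt
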