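import Pool.Agent.SInt.Pair
import Pool.Agent.SInt.Asy

open Finset Complex
open scoped ArithmeticFunction.Moebius ArithmeticFunction.vonMangoldt

namespace Pool.Agent.SInt

open Pool.Agent.ANT

private noncomputable def ESII_phi (y t θ : ℝ) (q k : ℕ) : ℂ :=
  ee (-(θ * (q * k))) * cexp (I * ((t * Real.log (y - q * k) : ℝ) : ℂ))

private noncomputable def ESII_psi (y t θ : ℝ) (q m n : ℕ) : ℂ :=
  if ((q * (m * n) : ℕ) : ℝ) < y then ESII_phi y t θ q (m * n) else 0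

private lemma ESII_norm_exp (x : ℝ) : ‖cexp (I * (x : ℂ))‖ = 1 := by
  rw [mul_comm]; exact Complex.norm_exp_ofReal_mul_I _

private lemma ESII_norm_phi (y t θ : ℝ) (q k : ℕ) : ‖ESII_phi y t θ q k‖ = 1 := by
  unfold ESII_phi
  rw [norm_mul, norm_ee, ESII_norm_exp, one_mul]

private lemma ESII_norm_psi (y t θ : ℝ) (q m n : ℕ) : ‖ESII_psi y t θ q m n‖ ≤ 1 := by
  unfold ESII_psi
  split_ifs
  · rw [ESII_norm_phi]
  · simp

private lemma ESII_reindex (y t θ : ℝ) (q M₁ K : ℕ) (a β : ℕ → ℂ) (hq : 1 ≤ q) (hM : 1 ≤ M₁)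
    (ha : ∀ m, m ∉ Ico M₁ (2 * M₁) → a m = 0) (hy : y ≤ q * K) :
    ∑ k ∈ (Icc 1 K).filter (fun k : ℕ => ((q * k : ℕ) : ℝ) < y), cv a β k * ESII_phi y t θ q k =
      ∑ n ∈ Icc 1 (⌊y / (q * M₁)⌋₊), β n * ∑ m ∈ Ico M₁ (2 * M₁), a m * ESII_psi y t θ q m n := by
  have hq0 : (0 : ℝ) < q := by exact_mod_cast hq
  have hM0 : (0 : ℝ) < M₁ := by exact_mod_cast hM
  set F := (Icc 1 K).filter (fun k : ℕ => ((q * k : ℕ) : ℝ) < y) with hF
  set Z := ⌊y / (q * M₁)⌋₊ with hZ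
  set P := (Ico M₁ (2 * M₁)) ×ˢ (Icc 1 Z) with hP
  have h1 : ∀ k ∈ F, cv a β k * ESII_phi y t θ q k =
      ∑ p ∈ P, if p.1 * p.2 = k then a p.1 * β p.2 * ESII_phi y t θ q k else 0 := by
    intro k hk
    obtain ⟨hk1, hk2⟩ := Finset.mem_filter.mp hk
    obtain ⟨hk3, hk4⟩ := Finset.mem_Icc.mp hk1
    unfold cv
    rw [Finset.sum_mul, ← Finset.sum_filter]
    symm
    refine Finset.sum_subset ?_ ?_
    · intro p hp
      obtain ⟨hp1, hp2⟩ := Finset.mem_filter.mp hp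
      rw [Nat.mem_divisorsAntidiagonal]
      exact ⟨hp2, by omega⟩
    · intro p hp hnot
      rw [Nat.mem_divisorsAntidiagonal] at hp
      obtain ⟨hp1, hp2⟩ := hp
      have hp3 : p.1 ∉ Ico M₁ (2 * M₁) := by
        intro hmem
        apply hnot
        refine Finset.mem_filter.mpr ⟨Finset.mem_product.mpr ⟨hmem, ?_⟩, hp1⟩
        have hn0 : p.2 ≠ 0 := by
          intro h0
          rw [h0, mul_zero] at hp1
          omega
        refine Finset.mem_Icc.mpr ⟨Nat.one_le_iff_ne_zero.mpr hn0, ?_⟩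
        apply Nat.le_floor
        rw [le_div_iff₀ (by positivity)]
        have hm : (M₁ : ℝ) ≤ p.1 := by exact_mod_cast (Finset.mem_Ico.mp hmem).1
        have hlt : ((q * k : ℕ) : ℝ) < y := hk2
        rw [← hp1] at hlt
        push_cast at hlt
        calc (p.2 : ℝ) * (q * M₁) ≤ p.2 * (q * p.1) := by gcongr
          _ = q * (p.1 * p.2) := by ring
          _ ≤ y := hlt.le
      rw [ha p.1 hp3]
      ring
  rw [Finset.sum_congr rfl h1, Finset.sum_comm]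
  have h2 : ∀ p ∈ P, (∑ k ∈ F, if p.1 * p.2 = k then a p.1 * β p.2 * ESII_phi y t θ q k else 0) =
      a p.1 * β p.2 * ESII_psi y t θ q p.1 p.2 := by
    intro p hp
    obtain ⟨hp1, hp2⟩ := Finset.mem_product.mp hp
    rw [Finset.sum_ite_eq]
    unfold ESII_psi
    have hpos : 1 ≤ p.1 * p.2 := by
      have h3 := (Finset.mem_Ico.mp hp1).1
      have h4 := (Finset.mem_Icc.mp hp2).1
      exact Nat.one_le_iff_ne_zero.mpr (Nat.mul_ne_zero (by omega) (by omega))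
    by_cases hlt : ((q * (p.1 * p.2) : ℕ) : ℝ) < y
    · rw [if_pos hlt, if_pos]
      refine Finset.mem_filter.mpr ⟨Finset.mem_Icc.mpr ⟨hpos, ?_⟩, hlt⟩
      have h5 : ((q * (p.1 * p.2) : ℕ) : ℝ) < ((q * K : ℕ) : ℝ) := by
        refine hlt.trans_le ?_
        push_cast
        exact hy
      have h6 : q * (p.1 * p.2) < q * K := by exact_mod_cast h5
      exact (Nat.lt_of_mul_lt_mul_left h6).le
    · rw [if_neg hlt, if_neg]
      · ring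
      · intro hmem
        exact hlt (Finset.mem_filter.mp hmem).2
  rw [Finset.sum_congr rfl h2, hP, Finset.sum_product, Finset.sum_comm]
  refine Finset.sum_congr rfl fun n _ => ?_
  rw [Finset.mul_sum]
  refine Finset.sum_congr rfl fun m _ => ?_
  ring

private lemma ESII_conj_exp (x : ℝ) : (starRingEnd ℂ) (cexp (I * (x : ℂ))) = cexp (-(I * (x : ℂ))) := by
  rw [← Complex.exp_conj, map_mul, Complex.conj_I, Complex.conj_ofReal]
  congr 1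
  ring

private lemma ESII_prod (y t θ : ℝ) (q m₁ m₂ n : ℕ) (h1 : ((q * (m₁ * n) : ℕ) : ℝ) < y)
    (h2 : ((q * (m₂ * n) : ℕ) : ℝ) < y) :
    ESII_psi y t θ q m₁ n * (starRingEnd ℂ) (ESII_psi y t θ q m₂ n) =
      ee (n * (θ * (q * ((m₂ : ℝ) - m₁)))) *
        cexp (I * ((t * (Real.log (y - (q * m₁) * n) - Real.log (y - (q * m₂) * n)) : ℝ) : ℂ)) := by
  unfold ESII_psi
  rw [if_pos h1, if_pos h2]
  unfold ESII_phi
  rw [map_mul, conj_ee, ESII_conj_exp]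
  have e1 : ee (n * (θ * (q * ((m₂ : ℝ) - m₁)))) =
      ee (-(θ * (q * ((m₁ * n : ℕ) : ℝ)))) * ee (-(-(θ * (q * ((m₂ * n : ℕ) : ℝ))))) := by
    rw [← ee_add]
    congr 1
    push_cast
    ring
  have e2 : cexp (I * ((t * (Real.log (y - (q * m₁) * n) - Real.log (y - (q * m₂) * n)) : ℝ) : ℂ)) =
      cexp (I * ((t * Real.log (y - q * ((m₁ * n : ℕ) : ℝ)) : ℝ) : ℂ)) *
      cexp (-(I * ((t * Real.log (y - q * ((m₂ * n : ℕ) : ℝ)) : ℝ) : ℂ))) := by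
    have e3 : (q : ℝ) * m₁ * n = q * ((m₁ * n : ℕ) : ℝ) := by push_cast; ring
    have e4 : (q : ℝ) * m₂ * n = q * ((m₂ * n : ℕ) : ℝ) := by push_cast; ring
    rw [← Complex.exp_add, e3, e4]
    congr 1
    rw [mul_sub, Complex.ofReal_sub]
    ring
  rw [e1, e2]
  ring

private lemma ESII_far : ∃ C : ℝ, 0 < C ∧ ∀ (y t η θ : ℝ) (b : ℤ) (r q M₁ m₁ m₂ : ℕ), 1 ≤ y →
    1 ≤ |t| → 0 < η → η ≤ 1 / 2 → 1 ≤ r → θ = b / r → 1 ≤ q → 1 ≤ M₁ → M₁ ≤ m₁ → m₁ < m₂ →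
    η * m₂ ≤ (m₂ : ℝ) - m₁ →
    ‖∑ n ∈ Icc 1 (⌊y / (q * M₁)⌋₊), ESII_psi y t θ q m₁ n *
      (starRingEnd ℂ) (ESII_psi y t θ q m₂ n)‖ ≤
      C / η ^ 5 * (r * √|t| + y / (q * M₁) / √|t|) + (η * (y / (q * M₁)) + 1) := by
  obtain ⟨C, hC, h⟩ := pair_sum
  refine ⟨C, hC, ?_⟩
  intro y t η θ b r q M₁ m₁ m₂ hy ht hη hη2 hr hθ hq hM hm1 hm12 hfar
  have hq0 : (0 : ℝ) < q := by exact_mod_cast hq
  have hM0 : (0 : ℝ) < M₁ := by exact_mod_cast hM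
  have hm1' : (M₁ : ℝ) ≤ m₁ := by exact_mod_cast hm1
  have hm12' : (m₁ : ℝ) < m₂ := by exact_mod_cast hm12
  have hm2 : (0 : ℝ) < m₂ := by linarith
  have hy0 : (0 : ℝ) < y := by linarith
  have hx2 : (0 : ℝ) < q * m₂ := by positivity
  set z := y / (q * M₁) with hz
  have hz0 : 0 < z := by positivity
  have hyx2 : y / (q * m₂) ≤ z := by
    rw [hz]
    gcongr
    linarith
  set n₁ := ⌊(1 - η) * y / (q * m₂)⌋₊ with hn₁
  have h1η : 0 ≤ 1 - η := by linarith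
  have hn₁Z : n₁ ≤ ⌊z⌋₊ := by
    apply Nat.floor_le_floor
    calc (1 - η) * y / (q * m₂) ≤ 1 * y / (q * m₂) := by
          gcongr
          linarith
      _ = y / (q * m₂) := by rw [one_mul]
      _ ≤ z := hyx2
  have hfl : (n₁ : ℝ) ≤ (1 - η) * y / (q * m₂) := Nat.floor_le (by positivity)
  have hfl' : (n₁ : ℝ) * (q * m₂) ≤ (1 - η) * y := by
    rwa [le_div_iff₀ hx2] at hfl
  have hfl2 : (1 - η) * y / (q * m₂) < n₁ + 1 := Nat.lt_floor_add_one _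
  have hI : Icc 1 (⌊z⌋₊) = Ioc 0 n₁ ∪ Ioc n₁ (⌊z⌋₊) := by
    ext n
    simp only [Finset.mem_Icc, Finset.mem_union, Finset.mem_Ioc]
    omega
  have hdisj : Disjoint (Ioc 0 n₁) (Ioc n₁ (⌊z⌋₊)) := by
    rw [Finset.disjoint_left]
    intro n hn hn'
    have h1 := (Finset.mem_Ioc.mp hn).2
    have h2 := (Finset.mem_Ioc.mp hn').1
    omega
  rw [hI, Finset.sum_union hdisj]
  refine (norm_add_le _ _).trans (add_le_add ?_ ?_)
  · have e1 : ∑ n ∈ Ioc 0 n₁, ESII_psi y t θ q m₁ n * (starRingEnd ℂ) (ESII_psi y t θ q m₂ n) =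
        ∑ n ∈ Ioc 0 n₁, ee (n * (θ * (q * ((m₂ : ℝ) - m₁)))) *
        cexp (I * ((t * (Real.log (y - (q * m₁) * n) - Real.log (y - (q * m₂) * n)) : ℝ) : ℂ)) := by
      refine Finset.sum_congr rfl fun n hn => ?_
      obtain ⟨hn1, hn2⟩ := Finset.mem_Ioc.mp hn
      have hn0 : (0 : ℝ) < n := by exact_mod_cast hn1
      have hn2' : (n : ℝ) ≤ n₁ := by exact_mod_cast hn2
      have hb2 : ((q * (m₂ * n) : ℕ) : ℝ) < y := by
        push_cast
        calc (q : ℝ) * (m₂ * n) = n * (q * m₂) := by ring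
          _ ≤ n₁ * (q * m₂) := by gcongr
          _ ≤ (1 - η) * y := hfl'
          _ < y := by nlinarith
      have hb1 : ((q * (m₁ * n) : ℕ) : ℝ) < y := by
        refine lt_of_le_of_lt ?_ hb2
        have : q * (m₁ * n) ≤ q * (m₂ * n) :=
          Nat.mul_le_mul_left _ (Nat.mul_le_mul_right _ hm12.le)
        exact_mod_cast this
      exact ESII_prod y t θ q m₁ m₂ n hb1 hb2
    rw [e1]
    have h3 := h y t (q * m₁) (q * m₂) η (θ * (q * ((m₂ : ℝ) - m₁))) (b * (q * ((m₂ : ℤ) - m₁))) r 0 n₁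
      hy0 ht (by positivity) (by gcongr) hη hη2 (by
        have : η * (q * m₂) = q * (η * m₂) := by ring
        rw [this, ← mul_sub]
        gcongr) hr (by
        rw [hθ]
        push_cast
        ring) hfl'
    refine h3.trans ?_
    gcongr
  · calc ‖∑ n ∈ Ioc n₁ (⌊z⌋₊), ESII_psi y t θ q m₁ n * (starRingEnd ℂ) (ESII_psi y t θ q m₂ n)‖
        ≤ ∑ n ∈ Ioc n₁ (⌊z⌋₊), (if n ∈ Ioc n₁ (⌊y / (q * m₂)⌋₊) then (1 : ℝ) else 0) := by
          refine (norm_sum_le _ _).trans (Finset.sum_le_sum fun n hn => ?_)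
          obtain ⟨hn1, hn2⟩ := Finset.mem_Ioc.mp hn
          split_ifs with hmem
          · rw [norm_mul, RCLike.norm_conj]
            have ha1 := ESII_norm_psi y t θ q m₁ n
            have ha2 := ESII_norm_psi y t θ q m₂ n
            have ha3 := norm_nonneg (ESII_psi y t θ q m₂ n)
            have ha4 := norm_nonneg (ESII_psi y t θ q m₁ n)
            nlinarith
          · have : ¬ ((q * (m₂ * n) : ℕ) : ℝ) < y := by
              intro hlt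
              apply hmem
              refine Finset.mem_Ioc.mpr ⟨hn1, Nat.le_floor ?_⟩
              rw [le_div_iff₀ hx2]
              push_cast at hlt
              nlinarith
            have h0 : ESII_psi y t θ q m₂ n = 0 := by
              unfold ESII_psi
              rw [if_neg this]
            rw [h0]
            simp
      _ = (((Ioc n₁ (⌊z⌋₊)).filter (fun n => n ∈ Ioc n₁ (⌊y / (q * m₂)⌋₊))).card : ℝ) := by
          rw [← Finset.sum_filter, Finset.sum_const, nsmul_eq_mul, mul_one]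
      _ ≤ ((Ioc n₁ (⌊y / (q * m₂)⌋₊)).card : ℝ) := by
          have : ((Ioc n₁ (⌊z⌋₊)).filter (fun n => n ∈ Ioc n₁ (⌊y / (q * m₂)⌋₊))) ⊆
              Ioc n₁ (⌊y / (q * m₂)⌋₊) := fun n hn => (Finset.mem_filter.mp hn).2
          exact_mod_cast Finset.card_le_card this
      _ ≤ η * z + 1 := by
          rw [Nat.card_Ioc]
          have hfy : (⌊y / (q * m₂)⌋₊ : ℝ) ≤ y / (q * m₂) := Nat.floor_le (by positivity)
          have hηz : η * (y / (q * m₂)) ≤ η * z := by gcongr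
          have hexp : (1 - η) * y / (q * m₂) = y / (q * m₂) - η * (y / (q * m₂)) := by ring
          rcases le_total n₁ (⌊y / (q * m₂)⌋₊) with hle | hle
          · rw [Nat.cast_sub hle]
            linarith
          · rw [Nat.sub_eq_zero_of_le hle]
            have : 0 ≤ η * z := by positivity
            push_cast
            linarith

private lemma ESII_close_card (M₁ m₁ : ℕ) {c : ℝ} (hc : 0 ≤ c) :
    (((Ico M₁ (2 * M₁)).filter (fun m : ℕ => |(m₁ : ℝ) - m| < c)).card : ℝ) ≤ 2 * c + 1 := by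
  have h1 : ((Ico M₁ (2 * M₁)).filter (fun m : ℕ => |(m₁ : ℝ) - m| < c)).card ≤
      (Icc (⌈(m₁ : ℝ) - c⌉) (⌊(m₁ : ℝ) + c⌋)).card := by
    refine Finset.card_le_card_of_injOn (fun m : ℕ => (m : ℤ)) ?_ ?_
    · intro m hm
      have hm' := (Finset.mem_filter.mp (Finset.mem_coe.mp hm)).2
      rw [abs_lt] at hm'
      refine Finset.mem_coe.mpr (Finset.mem_Icc.mpr ⟨?_, ?_⟩)
      · show ⌈(m₁ : ℝ) - c⌉ ≤ (m : ℤ)
        rw [Int.ceil_le]
        push_cast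
        linarith
      · show (m : ℤ) ≤ ⌊(m₁ : ℝ) + c⌋
        rw [Int.le_floor]
        push_cast
        linarith
    · intro a _ b _ hab
      exact Int.natCast_inj.mp hab
  have h2 : ((Icc (⌈(m₁ : ℝ) - c⌉) (⌊(m₁ : ℝ) + c⌋)).card : ℝ) ≤ 2 * c + 1 := by
    rw [Int.card_Icc]
    have h3 : (⌊(m₁ : ℝ) + c⌋ : ℝ) ≤ m₁ + c := Int.floor_le _
    have h4 : (m₁ : ℝ) - c ≤ (⌈(m₁ : ℝ) - c⌉ : ℝ) := Int.le_ceil _
    rcases le_total (⌊(m₁ : ℝ) + c⌋ + 1 - ⌈(m₁ : ℝ) - c⌉) 0 with h5 | h5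
    · rw [Int.toNat_of_nonpos h5]
      push_cast
      linarith
    · have h6 : (((⌊(m₁ : ℝ) + c⌋ + 1 - ⌈(m₁ : ℝ) - c⌉).toNat : ℤ) : ℝ) =
          ((⌊(m₁ : ℝ) + c⌋ + 1 - ⌈(m₁ : ℝ) - c⌉ : ℤ) : ℝ) := by
        rw [Int.toNat_of_nonneg h5]
      rw [Int.cast_natCast] at h6
      rw [h6]
      push_cast
      linarith
  refine le_trans ?_ h2
  exact_mod_cast h1

private lemma ESII_quad {s : Finset ℕ} (a : ℕ → ℂ) (Scl : ℕ → ℕ → Prop) [DecidableRel Scl]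
    (hsymm : ∀ m₁ m₂, Scl m₁ m₂ → Scl m₂ m₁) {z B N : ℝ} (hz : 0 ≤ z) (hB : 0 ≤ B)
    (hN : ∀ m₁ ∈ s, ((s.filter (fun m₂ => Scl m₁ m₂)).card : ℝ) ≤ N)
    (T : ℕ → ℕ → ℂ)
    (hT : ∀ m₁ ∈ s, ∀ m₂ ∈ s, ‖T m₁ m₂‖ ≤ (if Scl m₁ m₂ then z else 0) + B) :
    ‖∑ m₁ ∈ s, ∑ m₂ ∈ s, a m₁ * (starRingEnd ℂ) (a m₂) * T m₁ m₂‖ ≤
      (N * z + s.card * B) * ∑ m ∈ s, ‖a m‖ ^ 2 := by
  have h1 : ‖∑ m₁ ∈ s, ∑ m₂ ∈ s, a m₁ * (starRingEnd ℂ) (a m₂) * T m₁ m₂‖ ≤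
      ∑ m₁ ∈ s, ∑ m₂ ∈ s, (‖a m₁‖ ^ 2 / 2 + ‖a m₂‖ ^ 2 / 2) * ((if Scl m₁ m₂ then z else 0) + B) := by
    refine (norm_sum_le _ _).trans (Finset.sum_le_sum fun m₁ h₁ => ?_)
    refine (norm_sum_le _ _).trans (Finset.sum_le_sum fun m₂ h₂ => ?_)
    rw [norm_mul, norm_mul, RCLike.norm_conj]
    have h3 := hT m₁ h₁ m₂ h₂
    have h4 : ‖a m₁‖ * ‖a m₂‖ ≤ ‖a m₁‖ ^ 2 / 2 + ‖a m₂‖ ^ 2 / 2 := by
      nlinarith [sq_nonneg (‖a m₁‖ - ‖a m₂‖)]
    exact mul_le_mul h4 h3 (norm_nonneg _) (by positivity)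
  refine h1.trans ?_
  have h2 : ∑ m₁ ∈ s, ∑ m₂ ∈ s, (‖a m₁‖ ^ 2 / 2 + ‖a m₂‖ ^ 2 / 2) * ((if Scl m₁ m₂ then z else 0) + B) =
      ∑ m₁ ∈ s, ∑ m₂ ∈ s, ‖a m₁‖ ^ 2 * ((if Scl m₁ m₂ then z else 0) + B) := by
    have h5 : ∑ m₁ ∈ s, ∑ m₂ ∈ s, (‖a m₁‖ ^ 2 / 2 + ‖a m₂‖ ^ 2 / 2) * ((if Scl m₁ m₂ then z else 0) + B) =
        ∑ m₁ ∈ s, ∑ m₂ ∈ s, ‖a m₁‖ ^ 2 / 2 * ((if Scl m₁ m₂ then z else 0) + B) +
        ∑ m₁ ∈ s, ∑ m₂ ∈ s, ‖a m₂‖ ^ 2 / 2 * ((if Scl m₁ m₂ then z else 0) + B) := by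
      rw [← Finset.sum_add_distrib]
      refine Finset.sum_congr rfl fun m₁ _ => ?_
      rw [← Finset.sum_add_distrib]
      refine Finset.sum_congr rfl fun m₂ _ => ?_
      ring
    have h6 : ∑ m₁ ∈ s, ∑ m₂ ∈ s, ‖a m₂‖ ^ 2 / 2 * ((if Scl m₁ m₂ then z else 0) + B) =
        ∑ m₁ ∈ s, ∑ m₂ ∈ s, ‖a m₁‖ ^ 2 / 2 * ((if Scl m₁ m₂ then z else 0) + B) := by
      rw [Finset.sum_comm]
      refine Finset.sum_congr rfl fun m₁ _ => Finset.sum_congr rfl fun m₂ _ => ?_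
      have : (Scl m₂ m₁) ↔ (Scl m₁ m₂) := ⟨hsymm _ _, hsymm _ _⟩
      simp only [this]
    rw [h5, h6, ← Finset.sum_add_distrib]
    refine Finset.sum_congr rfl fun m₁ _ => ?_
    rw [← Finset.sum_add_distrib]
    refine Finset.sum_congr rfl fun m₂ _ => ?_
    ring
  rw [h2, Finset.mul_sum]
  refine Finset.sum_le_sum fun m₁ h₁ => ?_
  have h7 : ∑ m₂ ∈ s, ‖a m₁‖ ^ 2 * ((if Scl m₁ m₂ then z else 0) + B) =
      (((s.filter (fun m₂ => Scl m₁ m₂)).card : ℝ) * z + s.card * B) * ‖a m₁‖ ^ 2 := by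
    rw [← Finset.mul_sum, Finset.sum_add_distrib, ← Finset.sum_filter, Finset.sum_const,
      Finset.sum_const, nsmul_eq_mul, nsmul_eq_mul]
    ring
  rw [h7]
  have := hN m₁ h₁
  gcongr

private lemma ESII_key {C η M z E : ℝ} (hC : 0 ≤ C) (hη : 0 ≤ η) (hM : 0 ≤ M) (hz : 0 ≤ z)
    (hE : 0 ≤ E) (hM5 : M ≤ M / η ^ 5 * E) :
    (2 * (2 * η * M) + 1) * z + M * (C / η ^ 5 * E + (η * z + 1)) ≤
      (C + 6) * ((η * M + 1) * (z + 1) + M / η ^ 5 * E) := by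
  have hXdef : M * (C / η ^ 5 * E) = C * (M / η ^ 5 * E) := by ring
  have hW0 : 0 ≤ M / η ^ 5 * E := by positivity
  generalize M / η ^ 5 * E = W at *
  have hηM : 0 ≤ η * M := by positivity
  have h7 : 0 ≤ η * M * z := by positivity
  have e1 : (2 * (2 * η * M) + 1) * z + M * (C / η ^ 5 * E + (η * z + 1)) =
      5 * (η * M * z) + z + M + C * W := by rw [mul_add M, hXdef]; ring
  have e2 : (C + 6) * ((η * M + 1) * (z + 1) + W) =
      C * (η * M * z) + C * (η * M) + C * z + C + C * W + 6 * (η * M * z) + 6 * (η * M) + 6 * z + 6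
        + 6 * W := by ring
  rw [e1, e2]
  have h8 := mul_nonneg hC h7
  have h9 := mul_nonneg hC hz
  have h10 := mul_nonneg hC hηM
  linarith

/-- Bilinear sums with the phase `t log(y - qmn)`. -/
theorem ES_typeII : ∃ C : ℝ, 0 < C ∧ ∀ (y t η θ : ℝ) (b : ℤ) (r q M₁ K : ℕ) (a β : ℕ → ℂ), 1 ≤ y → 1 ≤ |t| → 0 < η →
    η ≤ 1 / 2 → 1 ≤ r → θ = b / r → 1 ≤ q → 1 ≤ M₁ → (∀ m, m ∉ Ico M₁ (2 * M₁) → a m = 0) → β 0 = 0 →
    y ≤ q * K →
    ‖∑ k ∈ (Icc 1 K).filter (fun k : ℕ => ((q * k : ℕ) : ℝ) < y), cv a β k * ee (-(θ * (q * k))) *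
        cexp (I * ((t * Real.log (y - q * k) : ℝ) : ℂ))‖ ^ 2 ≤
      C * (∑ m ∈ Ico M₁ (2 * M₁), ‖a m‖ ^ 2) * (∑ n ∈ Icc 1 (⌊y / (q * M₁)⌋₊), ‖β n‖ ^ 2) *
        ((η * M₁ + 1) * (y / (q * M₁) + 1) + M₁ / η ^ 5 * (r * √|t| + y / (q * M₁) / √|t|)) := by
  obtain ⟨C, hC, h⟩ := ESII_far
  refine ⟨C + 6, by positivity, ?_⟩
  intro y t η θ b r q M₁ K a β hy ht hη hη2 hr hθ hq hM ha hβ hyK
  have hq0 : (0 : ℝ) < q := by exact_mod_cast hq
  have hM0 : (0 : ℝ) < M₁ := by exact_mod_cast hM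
  have hy0 : (0 : ℝ) < y := by linarith
  have hr1 : (1 : ℝ) ≤ r := by exact_mod_cast hr
  set z := y / (q * M₁) with hz
  have hz0 : 0 < z := by positivity
  have hst : 1 ≤ √|t| := Real.one_le_sqrt.mpr ht
  have e0 : ∑ k ∈ (Icc 1 K).filter (fun k : ℕ => ((q * k : ℕ) : ℝ) < y), cv a β k *
      ee (-(θ * (q * k))) * cexp (I * ((t * Real.log (y - q * k) : ℝ) : ℂ)) =
      ∑ k ∈ (Icc 1 K).filter (fun k : ℕ => ((q * k : ℕ) : ℝ) < y), cv a β k *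
        ESII_phi y t θ q k := by
    refine Finset.sum_congr rfl fun k _ => ?_
    unfold ESII_phi
    ring
  rw [e0, ESII_reindex y t θ q M₁ K a β hq hM ha hyK]
  set Z := ⌊z⌋₊ with hZ
  -- Cauchy
  have hcs : ‖∑ n ∈ Icc 1 Z, β n * ∑ m ∈ Ico M₁ (2 * M₁), a m * ESII_psi y t θ q m n‖ ^ 2 ≤
      (∑ n ∈ Icc 1 Z, ‖β n‖ ^ 2) *
        ∑ n ∈ Icc 1 Z, ‖∑ m ∈ Ico M₁ (2 * M₁), a m * ESII_psi y t θ q m n‖ ^ 2 := by
    calc _ ≤ (∑ n ∈ Icc 1 Z, ‖β n‖ * ‖∑ m ∈ Ico M₁ (2 * M₁), a m * ESII_psi y t θ q m n‖) ^ 2 := by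
          gcongr
          refine (norm_sum_le _ _).trans (Finset.sum_le_sum fun n _ => ?_)
          rw [norm_mul]
      _ ≤ _ := Finset.sum_mul_sq_le_sq_mul_sq _ _ _
  -- expansion
  have hex : ((∑ n ∈ Icc 1 Z, ‖∑ m ∈ Ico M₁ (2 * M₁), a m * ESII_psi y t θ q m n‖ ^ 2 : ℝ) : ℂ) =
      ∑ m₁ ∈ Ico M₁ (2 * M₁), ∑ m₂ ∈ Ico M₁ (2 * M₁), a m₁ * (starRingEnd ℂ) (a m₂) *
        ∑ n ∈ Icc 1 Z, ESII_psi y t θ q m₁ n * (starRingEnd ℂ) (ESII_psi y t θ q m₂ n) := by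
    push_cast
    have h1 : ∀ n ∈ Icc 1 Z, ((‖∑ m ∈ Ico M₁ (2 * M₁), a m * ESII_psi y t θ q m n‖ : ℂ)) ^ 2 =
        ∑ m₁ ∈ Ico M₁ (2 * M₁), ∑ m₂ ∈ Ico M₁ (2 * M₁), a m₁ * (starRingEnd ℂ) (a m₂) *
          (ESII_psi y t θ q m₁ n * (starRingEnd ℂ) (ESII_psi y t θ q m₂ n)) := by
      intro n _
      rw [← Complex.mul_conj', map_sum, Finset.sum_mul_sum]
      refine Finset.sum_congr rfl fun m₁ _ => Finset.sum_congr rfl fun m₂ _ => ?_
      rw [map_mul]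
      ring
    rw [Finset.sum_congr rfl h1, Finset.sum_comm]
    refine Finset.sum_congr rfl fun m₁ _ => ?_
    rw [Finset.sum_comm]
    refine Finset.sum_congr rfl fun m₂ _ => ?_
    rw [Finset.mul_sum]
  have hB0 : 0 ≤ C / η ^ 5 * (r * √|t| + z / √|t|) + (η * z + 1) := by positivity
  have hquad := ESII_quad (s := Ico M₁ (2 * M₁)) a
    (fun m₁ m₂ => |(m₁ : ℝ) - m₂| < 2 * η * M₁)
    (fun m₁ m₂ h => by rwa [abs_sub_comm] at h) hz0.le hB0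
    (N := 2 * (2 * η * M₁) + 1)
    (fun m₁ _ => ESII_close_card M₁ m₁ (by positivity))
    (fun m₁ m₂ => ∑ n ∈ Icc 1 Z, ESII_psi y t θ q m₁ n * (starRingEnd ℂ) (ESII_psi y t θ q m₂ n))
    (by
      intro m₁ h₁ m₂ h₂
      obtain ⟨h11, h12⟩ := Finset.mem_Ico.mp h₁
      obtain ⟨h21, h22⟩ := Finset.mem_Ico.mp h₂
      have h12' : (m₁ : ℝ) < 2 * M₁ := by exact_mod_cast h12
      have h22' : (m₂ : ℝ) < 2 * M₁ := by exact_mod_cast h22
      split_ifs with hcl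
      · refine le_trans ?_ (le_add_of_nonneg_right hB0)
        calc _ ≤ ∑ n ∈ Icc 1 Z, (1 : ℝ) := by
              refine (norm_sum_le _ _).trans (Finset.sum_le_sum fun n _ => ?_)
              rw [norm_mul, RCLike.norm_conj]
              have ha1 := ESII_norm_psi y t θ q m₁ n
              have ha2 := ESII_norm_psi y t θ q m₂ n
              have ha3 := norm_nonneg (ESII_psi y t θ q m₂ n)
              have ha4 := norm_nonneg (ESII_psi y t θ q m₁ n)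
              nlinarith
          _ = Z := by simp
          _ ≤ z := Nat.floor_le hz0.le
      · rw [zero_add]
        push Not at hcl
        rcases lt_trichotomy m₁ m₂ with hlt | heq | hgt
        · refine h y t η θ b r q M₁ m₁ m₂ hy ht hη hη2 hr hθ hq hM h11 hlt ?_
          have hlt' : (m₁ : ℝ) < m₂ := by exact_mod_cast hlt
          rw [abs_sub_comm, abs_of_pos (by linarith)] at hcl
          nlinarith
        · rw [heq, sub_self, abs_zero] at hcl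
          exfalso
          have : 0 < 2 * η * M₁ := by positivity
          linarith
        · have hgt' : (m₂ : ℝ) < m₁ := by exact_mod_cast hgt
          rw [abs_of_pos (by linarith)] at hcl
          have h3 := h y t η θ b r q M₁ m₂ m₁ hy ht hη hη2 hr hθ hq hM h21 hgt (by nlinarith)
          have h4 : ∑ n ∈ Icc 1 Z, ESII_psi y t θ q m₁ n * (starRingEnd ℂ) (ESII_psi y t θ q m₂ n) =
              (starRingEnd ℂ) (∑ n ∈ Icc 1 Z, ESII_psi y t θ q m₂ n *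
                (starRingEnd ℂ) (ESII_psi y t θ q m₁ n)) := by
            rw [map_sum]
            refine Finset.sum_congr rfl fun n _ => ?_
            rw [map_mul, Complex.conj_conj]
            ring
          rw [h4, RCLike.norm_conj]
          exact h3)
  rw [← hex] at hquad
  rw [Complex.norm_real, Real.norm_of_nonneg (by positivity)] at hquad
  have hcard : ((Ico M₁ (2 * M₁)).card : ℝ) = M₁ := by
    rw [Nat.card_Ico]
    have : 2 * M₁ - M₁ = M₁ := by omega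
    rw [this]
  rw [hcard] at hquad
  set SA := ∑ m ∈ Ico M₁ (2 * M₁), ‖a m‖ ^ 2 with hSA
  set SB := ∑ n ∈ Icc 1 Z, ‖β n‖ ^ 2 with hSB
  have hSA0 : 0 ≤ SA := by positivity
  have hSB0 : 0 ≤ SB := by positivity
  set E := (r : ℝ) * √|t| + z / √|t| with hE
  have hE1 : 1 ≤ E := by
    have h5 : 1 ≤ (r : ℝ) * √|t| := by nlinarith
    have h6 : 0 ≤ z / √|t| := by positivity
    linarith
  have hη5 : η ^ 5 ≤ 1 := pow_le_one₀ hη.le (by linarith)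
  have hη50 : 0 < η ^ 5 := by positivity
  have hM5 : (M₁ : ℝ) ≤ M₁ / η ^ 5 * E := by
    have : (M₁ : ℝ) ≤ M₁ / η ^ 5 := by
      rw [le_div_iff₀ hη50]
      nlinarith
    nlinarith
  have hkey : (2 * (2 * η * M₁) + 1) * z + M₁ * (C / η ^ 5 * E + (η * z + 1)) ≤
      (C + 6) * ((η * M₁ + 1) * (z + 1) + M₁ / η ^ 5 * E) :=
    ESII_key hC.le hη.le hM0.le hz0.le (by linarith) hM5
  calc _ ≤ SB * ∑ n ∈ Icc 1 Z, ‖∑ m ∈ Ico M₁ (2 * M₁), a m * ESII_psi y t θ q m n‖ ^ 2 := hcs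
    _ ≤ SB * (((2 * (2 * η * M₁) + 1) * z + M₁ * (C / η ^ 5 * E + (η * z + 1))) * SA) := by
        gcongr
    _ ≤ SB * (((C + 6) * ((η * M₁ + 1) * (z + 1) + M₁ / η ^ 5 * E)) * SA) := by
        gcongr
    _ = _ := by ring

end Pool.Agent.SInt
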