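import Pool.Agent.SInt.ESI
import Pool.Agent.SInt.ESII
import Pool.Agent.SInt.VauD
import Pool.Agent.SInt.Asy

open Finset Complex
open scoped ArithmeticFunction.Moebius ArithmeticFunction.vonMangoldt

namespace Pool.Agent.SInt

open Pool.Agent.ANT

namespace ESmidAux

/-- the basic phase -/
noncomputable def phs (θ y t : ℝ) (q k : ℕ) : ℂ :=
  ee (-(θ * (q * k))) * cexp (I * ((t * Real.log (y - q * k) : ℝ) : ℂ))

theorem norm_phs (θ y t : ℝ) (q k : ℕ) : ‖phs θ y t q k‖ = 1 := by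
  unfold phs
  rw [norm_mul, norm_ee, one_mul, mul_comm, Complex.norm_exp_ofReal_mul_I]

/-- the sum, in the form used here -/
noncomputable def SS (θ : ℝ) (K : ℕ) (y t : ℝ) (q : ℕ) (c : ℕ → ℂ) : ℂ :=
  ∑ k ∈ (Icc 1 K).filter (fun k : ℕ => ((q * k : ℕ) : ℝ) < y), c k * phs θ y t q k

theorem ES_eq (c : ℕ → ℂ) (θ : ℝ) (K : ℕ) (y t : ℝ) (q : ℕ) : ES c θ K y t q = SS θ K y t q c := by
  unfold ES SS ct phs
  exact sum_congr rfl fun k _ => by ring

theorem SS_congr {θ : ℝ} {K : ℕ} {y t : ℝ} {q : ℕ} {c c' : ℕ → ℂ}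
    (h : ∀ k : ℕ, 1 ≤ k → ((q * k : ℕ) : ℝ) < y → c k = c' k) : SS θ K y t q c = SS θ K y t q c' := by
  unfold SS
  refine sum_congr rfl fun k hk => ?_
  rw [mem_filter, mem_Icc] at hk
  rw [h k hk.1.1 hk.2]

theorem SS_add (θ : ℝ) (K : ℕ) (y t : ℝ) (q : ℕ) (c c' : ℕ → ℂ) :
    SS θ K y t q (fun k => c k + c' k) = SS θ K y t q c + SS θ K y t q c' := by
  unfold SS
  rw [← sum_add_distrib]
  exact sum_congr rfl fun k _ => by ring

theorem SS_smul (θ : ℝ) (K : ℕ) (y t : ℝ) (q : ℕ) (z : ℂ) (c : ℕ → ℂ) :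
    SS θ K y t q (fun k => z * c k) = z * SS θ K y t q c := by
  unfold SS
  rw [mul_sum]
  exact sum_congr rfl fun k _ => by ring

theorem SS_sum {ι : Type*} (s : Finset ι) (θ : ℝ) (K : ℕ) (y t : ℝ) (q : ℕ) (c : ι → ℕ → ℂ) :
    SS θ K y t q (fun k => ∑ j ∈ s, c j k) = ∑ j ∈ s, SS θ K y t q (c j) := by
  unfold SS
  rw [sum_comm]
  exact sum_congr rfl fun k _ => by rw [sum_mul]

theorem SS_zero (θ : ℝ) (K : ℕ) (y t : ℝ) (q : ℕ) : SS θ K y t q (fun _ => 0) = 0 := by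
  unfold SS
  exact sum_eq_zero fun k _ => by ring

theorem norm_SS_small {θ : ℝ} {K : ℕ} {y t : ℝ} {q U : ℕ} {c : ℕ → ℂ} {b : ℝ} (hb : 0 ≤ b)
    (h0 : ∀ k, U < k → c k = 0) (h1 : ∀ k, 1 ≤ k → k ≤ U → ‖c k‖ ≤ b) : ‖SS θ K y t q c‖ ≤ U * b := by
  unfold SS
  calc ‖∑ k ∈ (Icc 1 K).filter (fun k : ℕ => ((q * k : ℕ) : ℝ) < y), c k * phs θ y t q k‖
      ≤ ∑ k ∈ (Icc 1 K).filter (fun k : ℕ => ((q * k : ℕ) : ℝ) < y), ‖c k‖ := by
        refine (norm_sum_le _ _).trans (sum_le_sum fun k _ => ?_)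
        rw [norm_mul, norm_phs, mul_one]
    _ = ∑ k ∈ ((Icc 1 K).filter (fun k : ℕ => ((q * k : ℕ) : ℝ) < y)).filter (fun k => k ≤ U), ‖c k‖ := by
        symm
        refine sum_filter_of_ne fun k _ hk => ?_
        by_contra hU
        exact hk (by rw [h0 k (not_le.1 hU), norm_zero])
    _ ≤ ∑ k ∈ Icc 1 U, b := by
        refine (sum_le_sum (g := fun _ => b) fun k hk => ?_).trans
          (sum_le_sum_of_subset_of_nonneg (fun k hk => ?_) fun _ _ _ => hb)
        · simp only [mem_filter, mem_Icc] at hk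
          exact h1 k hk.1.1.1 hk.2
        · simp only [mem_filter, mem_Icc] at hk
          exact mem_Icc.2 ⟨hk.1.1.1, hk.2⟩
    _ = U * b := by rw [sum_const, Nat.card_Icc, nsmul_eq_mul, Nat.add_sub_cancel]

/-- sums over multiples of `m` -/
theorem SS_dvd (θ : ℝ) (K : ℕ) (y t : ℝ) (q m i : ℕ) (hm : 1 ≤ m) :
    SS θ K y t q (fun k => if m ∣ k then ((Real.log k ^ i : ℝ) : ℂ) else 0) =
      ∑ n ∈ (Ioc 0 (K / m)).filter (fun n : ℕ => ((q * m * n : ℕ) : ℝ) < y),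
        ((Real.log ((m * n : ℕ) : ℝ) ^ i : ℝ) : ℂ) *
        (ee (n * (-(θ * (q * m)))) * cexp (I * ((t * Real.log (y - (q * m : ℕ) * n) : ℝ) : ℂ))) := by
  unfold SS
  have h1 : ∀ k ∈ (Icc 1 K).filter (fun k : ℕ => ((q * k : ℕ) : ℝ) < y),
      (if m ∣ k then ((Real.log k ^ i : ℝ) : ℂ) else 0) * phs θ y t q k =
      if m ∣ k then ((Real.log k ^ i : ℝ) : ℂ) * phs θ y t q k else 0 := by
    intro k _
    split_ifs <;> ring
  rw [sum_congr rfl h1, ← sum_filter]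
  refine sum_nbij' (fun k => k / m) (fun n => m * n) ?_ ?_ ?_ ?_ ?_
  · intro k hk
    simp only [mem_filter, mem_Icc, mem_Ioc] at hk ⊢
    obtain ⟨⟨⟨h1, h2⟩, h3⟩, h4⟩ := hk
    obtain ⟨n, rfl⟩ := h4
    rw [Nat.mul_div_cancel_left _ hm]
    refine ⟨⟨Nat.pos_of_ne_zero ?_, ?_⟩, ?_⟩
    · rintro rfl
      omega
    · rw [Nat.le_div_iff_mul_le hm, mul_comm]
      exact h2
    · rwa [mul_assoc]
  · intro n hn
    simp only [mem_filter, mem_Icc, mem_Ioc] at hn ⊢
    obtain ⟨⟨h1, h2⟩, h3⟩ := hn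
    refine ⟨⟨⟨Nat.mul_pos hm h1, ?_⟩, ?_⟩, dvd_mul_right _ _⟩
    · rw [Nat.le_div_iff_mul_le hm, mul_comm] at h2
      exact h2
    · rwa [← mul_assoc]
  · intro k hk
    simp only [mem_filter] at hk
    exact Nat.mul_div_cancel' hk.2
  · intro n _
    exact Nat.mul_div_cancel_left _ hm
  · intro k hk
    simp only [mem_filter] at hk
    obtain ⟨n, rfl⟩ := hk.2
    rw [Nat.mul_div_cancel_left _ hm]
    unfold phs
    congr 2
    · congr 1
      push_cast
      ring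
    · push_cast
      ring_nf

theorem tauR_le_self (n : ℕ) : tauR n ≤ n := by
  unfold tauR
  exact_mod_cast Nat.card_divisors_le_self n

/-- type I part -/
theorem typeI_bound : ∃ C : ℝ, 0 < C ∧ ∀ (y t η : ℝ) (a : ℤ) (r q K d U i : ℕ), 1 ≤ y → 1 ≤ |t| → 0 < η →
    η ≤ 1 / 2 → 1 ≤ r → 1 ≤ q → 1 ≤ d → i ≤ 1 → 1 ≤ U →
    ‖SS ((a : ℝ) / r) K y t q (fun k => cv (aI d U) (zd d) k * ((Real.log k ^ i : ℝ) : ℂ))‖ ≤
      (U : ℝ) ^ 4 * d * ((C / η ^ 5 * (r * √|t| + y / q / √|t|) + η * (y / q) + 1) *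
        (2 * (1 + Real.log ((U : ℝ) ^ 2 * d) + Real.log y))) := by
  obtain ⟨C, hC, h⟩ := ES_typeI_log
  refine ⟨C, hC, fun y t η a r q K d U i hy ht hη hη2 hr hq hd hi hU => ?_⟩
  set Tb : ℝ := (C / η ^ 5 * (r * √|t| + y / q / √|t|) + η * (y / q) + 1) *
        (2 * (1 + Real.log ((U : ℝ) ^ 2 * d) + Real.log y)) with hTb
  have hU1 : (1 : ℝ) ≤ U := by exact_mod_cast hU
  have hd1 : (1 : ℝ) ≤ d := by exact_mod_cast hd
  have hq1 : (1 : ℝ) ≤ q := by exact_mod_cast hq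
  have hUd : (1 : ℝ) ≤ (U : ℝ) ^ 2 * d := one_le_mul_of_one_le_of_one_le (one_le_pow₀ hU1) hd1
  have hlog0 : 0 ≤ Real.log ((U : ℝ) ^ 2 * d) := Real.log_nonneg hUd
  have hlogy : 0 ≤ Real.log y := Real.log_nonneg hy
  have hyq0 : 0 ≤ y / q := div_nonneg (by linarith) (by linarith)
  have hTb0 : 0 ≤ Tb := by
    rw [hTb]
    have h1 : 0 ≤ C / η ^ 5 * (r * √|t| + y / q / √|t|) :=
      mul_nonneg (by positivity) (add_nonneg (by positivity) (div_nonneg hyq0 (Real.sqrt_nonneg _)))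
    have h2 : 0 ≤ η * (y / q) := mul_nonneg hη.le hyq0
    exact mul_nonneg (by linarith) (by linarith)
  -- the inner sums
  have hT : ∀ m e : ℕ, 1 ≤ m → m ≤ U * U → 1 ≤ e → e ≤ d →
      ‖SS ((a : ℝ) / r) K y t q (fun k => if m * e ∣ k then ((Real.log k ^ i : ℝ) : ℂ) else 0)‖ ≤ Tb := by
    intro m e hm1 hm2 he1 he2
    have hme : 1 ≤ m * e := Nat.mul_pos hm1 he1
    have hme' : (1 : ℝ) ≤ ((m * e : ℕ) : ℝ) := by exact_mod_cast hme
    rw [SS_dvd _ _ _ _ _ _ _ hme]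
    have h1 := h y t η (-((a : ℝ) / r * (q * ((m * e : ℕ) : ℝ)))) (-(a * (q * (m * e : ℕ)))) r (q * (m * e))
      (K / (m * e)) (m * e) i hy ht hη hη2 hr (by push_cast; ring) (Nat.mul_pos hq hme) hme hi
    refine h1.trans ?_
    have hr0 : (0 : ℝ) ≤ r := Nat.cast_nonneg r
    have hs0 : 0 ≤ √|t| := Real.sqrt_nonneg _
    have hys : y / ((q * (m * e) : ℕ) : ℝ) ≤ y / q := by
      push_cast at hme' ⊢
      refine div_le_div_of_nonneg_left (by linarith) (by linarith) ?_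
      exact le_mul_of_one_le_right (by linarith) hme'
    have hlm : Real.log ((m * e : ℕ) : ℝ) ≤ Real.log ((U : ℝ) ^ 2 * d) := by
      refine Real.log_le_log (by linarith) ?_
      have : m * e ≤ U ^ 2 * d := by
        rw [sq]
        exact Nat.mul_le_mul hm2 he2
      exact_mod_cast this
    have hlm0 : 0 ≤ Real.log ((m * e : ℕ) : ℝ) := Real.log_nonneg hme'
    have hys0 : 0 ≤ y / ((q * (m * e) : ℕ) : ℝ) := by positivity
    rw [hTb]
    refine mul_le_mul ?_ (by linarith) (by linarith) ?_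
    · have e1 : C / η ^ 5 * (r * √|t| + y / ((q * (m * e) : ℕ) : ℝ) / √|t|) ≤
          C / η ^ 5 * (r * √|t| + y / q / √|t|) :=
        mul_le_mul_of_nonneg_left (by linarith [div_le_div_of_nonneg_right hys hs0]) (by positivity)
      have e2 : η * y / ((q * (m * e) : ℕ) : ℝ) ≤ η * (y / q) := by
        rw [mul_div_assoc]
        exact mul_le_mul_of_nonneg_left hys hη.le
      linarith
    · have h1 : 0 ≤ C / η ^ 5 * (r * √|t| + y / q / √|t|) :=
        mul_nonneg (by positivity) (add_nonneg (by positivity) (div_nonneg hyq0 (Real.sqrt_nonneg _)))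
      have h2 : 0 ≤ η * (y / q) := mul_nonneg hη.le hyq0
      linarith
  have hexp : SS ((a : ℝ) / r) K y t q (fun k => cv (aI d U) (zd d) k * ((Real.log k ^ i : ℝ) : ℂ)) =
      ∑ m ∈ Icc 1 (U * U), ∑ e ∈ d.divisors, (aI d U m * muC e) *
        SS ((a : ℝ) / r) K y t q (fun k => if m * e ∣ k then ((Real.log k ^ i : ℝ) : ℂ) else 0) := by
    rw [SS_congr (c' := fun k => ∑ m ∈ Icc 1 (U * U), ∑ e ∈ d.divisors, (aI d U m * muC e) *
      (if m * e ∣ k then ((Real.log k ^ i : ℝ) : ℂ) else 0)), SS_sum]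
    · refine sum_congr rfl fun m _ => ?_
      rw [SS_sum]
      exact sum_congr rfl fun e _ => SS_smul _ _ _ _ _ _ _
    · intro k hk _
      rw [typeI_expand d U k hd hk, sum_mul]
      refine sum_congr rfl fun m _ => ?_
      rw [sum_mul]
      refine sum_congr rfl fun e _ => ?_
      split_ifs <;> ring
  rw [hexp]
  calc ‖∑ m ∈ Icc 1 (U * U), ∑ e ∈ d.divisors, (aI d U m * muC e) *
        SS ((a : ℝ) / r) K y t q (fun k => if m * e ∣ k then ((Real.log k ^ i : ℝ) : ℂ) else 0)‖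
      ≤ ∑ m ∈ Icc 1 (U * U), ∑ e ∈ d.divisors, (U : ℝ) ^ 2 * Tb := by
        refine (norm_sum_le _ _).trans (sum_le_sum fun m hm => (norm_sum_le _ _).trans
          (sum_le_sum fun e he => ?_))
        rw [mem_Icc] at hm
        have he' := Nat.mem_divisors.1 he
        have he1 : 1 ≤ e := Nat.pos_of_mem_divisors he
        have he2 : e ≤ d := Nat.le_of_dvd hd he'.1
        rw [norm_mul, norm_mul]
        have h1 : ‖aI d U m‖ ≤ (U : ℝ) ^ 2 := by
          refine (norm_aI_le d U m).trans ((tauR_le_self m).trans ?_)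
          rw [sq]
          exact_mod_cast hm.2
        have h2 : ‖aI d U m‖ * ‖muC e‖ ≤ (U : ℝ) ^ 2 * 1 :=
          mul_le_mul h1 (norm_muC_le e) (norm_nonneg _) (by positivity)
        rw [mul_one] at h2
        exact mul_le_mul h2 (hT m e hm.1 hm.2 he1 he2) (norm_nonneg _) (by positivity)
    _ = (U : ℝ) ^ 2 * ((d.divisors.card : ℝ) * ((U : ℝ) ^ 2 * Tb)) := by
        rw [sum_const, sum_const, Nat.card_Icc, Nat.add_sub_cancel, nsmul_eq_mul, nsmul_eq_mul]
        push_cast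
        ring
    _ ≤ (U : ℝ) ^ 2 * ((d : ℝ) * ((U : ℝ) ^ 2 * Tb)) := by
        have : (d.divisors.card : ℝ) ≤ d := by exact_mod_cast Nat.card_divisors_le_self d
        gcongr
    _ = (U : ℝ) ^ 4 * d * Tb := by ring

theorem cv_comm (a b : ℕ → ℂ) (k : ℕ) : cv a b k = cv b a k := by
  unfold cv
  refine sum_nbij' Prod.swap Prod.swap ?_ ?_ ?_ ?_ ?_
  · intro p hp
    rw [Nat.mem_divisorsAntidiagonal] at hp ⊢
    exact ⟨by rw [Prod.fst_swap, Prod.snd_swap, mul_comm]; exact hp.1, hp.2⟩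
  · intro p hp
    rw [Nat.mem_divisorsAntidiagonal] at hp ⊢
    exact ⟨by rw [Prod.fst_swap, Prod.snd_swap, mul_comm]; exact hp.1, hp.2⟩
  · intro p _
    exact Prod.swap_swap p
  · intro p _
    exact Prod.swap_swap p
  · intro p _
    rw [Prod.fst_swap, Prod.snd_swap, mul_comm]

theorem cv_sum_left {ι : Type*} (s : Finset ι) (a : ι → ℕ → ℂ) (b : ℕ → ℂ) (k : ℕ) :
    cv (fun m => ∑ j ∈ s, a j m) b k = ∑ j ∈ s, cv (a j) b k := by
  unfold cv
  rw [sum_comm]
  exact sum_congr rfl fun p _ => by rw [sum_mul]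

theorem cv_zero_left (b : ℕ → ℂ) (k : ℕ) : cv (fun _ => 0) b k = 0 := by
  unfold cv
  exact sum_eq_zero fun p _ => by ring

theorem norm_zero_tau {β : ℕ → ℂ} (h : ∀ n, ‖β n‖ ≤ tauR n * (1 + Real.log n)) : β 0 = 0 := by
  have h0 := h 0
  simp only [tauR, Nat.divisors_zero, card_empty, Nat.cast_zero, zero_mul] at h0
  exact norm_le_zero_iff.1 h0

theorem sum_sq_le {β : ℕ → ℂ} (h : ∀ n, ‖β n‖ ≤ tauR n * (1 + Real.log n)) (N : ℕ) :
    ∑ n ∈ Ioc 0 N, ‖β n‖ ^ 2 ≤ N * (1 + Real.log N) ^ 5 := by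
  rcases Nat.eq_zero_or_pos N with rfl | hN
  · simp
  have hN1 : (1 : ℝ) ≤ N := by exact_mod_cast hN
  have hl : 0 ≤ Real.log N := Real.log_nonneg hN1
  calc ∑ n ∈ Ioc 0 N, ‖β n‖ ^ 2 ≤ ∑ n ∈ Ioc 0 N, tauR n ^ 2 * (1 + Real.log N) ^ 2 := by
        refine sum_le_sum fun n hn => ?_
        rw [mem_Ioc] at hn
        have hn1 : (1 : ℝ) ≤ n := by exact_mod_cast hn.1
        rw [← mul_pow]
        refine pow_le_pow_left₀ (norm_nonneg _) ((h n).trans ?_) 2
        refine mul_le_mul_of_nonneg_left ?_ (tauR_nonneg _)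
        have : Real.log n ≤ Real.log N := Real.log_le_log (by linarith) (by exact_mod_cast hn.2)
        linarith
    _ = (∑ n ∈ Ioc 0 N, tauR n ^ 2) * (1 + Real.log N) ^ 2 := by rw [sum_mul]
    _ ≤ (N * (1 + Real.log N) ^ 3) * (1 + Real.log N) ^ 2 := by
        refine mul_le_mul_of_nonneg_right ((sum_tau_sq_le N).trans ?_) (by positivity)
        exact mul_le_mul_of_nonneg_left (pow_le_pow_left₀ (Hs_nonneg _) (Hs_le N) 3) (by positivity)
    _ = N * (1 + Real.log N) ^ 5 := by ring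

/-- one of the two variables at most the square root -/
theorem typeII_bound : ∃ C : ℝ, 0 < C ∧ ∀ (y t η ρ : ℝ) (a : ℤ) (r q K U : ℕ) (α β : ℕ → ℂ), 1 ≤ |t| →
    0 < η → η ≤ 1 / 2 → 1 ≤ r → 1 ≤ q → 1 ≤ U → (q : ℝ) ≤ y → y ≤ q * K →
    (∀ m, ‖α m‖ ≤ tauR m * (1 + Real.log m)) → (∀ n, ‖β n‖ ≤ tauR n * (1 + Real.log n)) →
    (∀ m, m ≤ U → α m = 0) → (∀ m : ℕ, √(y / q) < m → α m = 0) → 0 ≤ ρ →
    C * (η + 1 / U + (r * √|t| / √(y / q) + 1 / √|t|) / η ^ 5) ≤ ρ ^ 2 →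
    ‖SS ((a : ℝ) / r) K y t q (cv α β)‖ ≤
      (1 + Real.log (y / q)) * ((y / q) * (1 + Real.log (2 * (y / q))) ^ 5 * ρ) := by
  obtain ⟨C, hC, h⟩ := ES_typeII
  refine ⟨8 * C, by linarith, fun y t η ρ a r q K U α β ht hη hη2 hr hq hU hqy hyK hα hβ hαU hαz hρ hbd => ?_⟩
  set z : ℝ := y / q with hz
  have hq0 : (0 : ℝ) < q := by exact_mod_cast hq
  have hq1 : (1 : ℝ) ≤ q := by exact_mod_cast hq
  have hz1 : 1 ≤ z := by rw [hz, le_div_iff₀ hq0, one_mul]; exact hqy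
  have hs1 : 1 ≤ √z := by rw [Real.one_le_sqrt]; exact hz1
  have hss : √z * √z = z := Real.mul_self_sqrt (by linarith)
  have hU0 : (0 : ℝ) < U := by exact_mod_cast hU
  have htt : 0 < √|t| := Real.sqrt_pos.2 (by linarith)
  have hr0 : (0 : ℝ) ≤ r := Nat.cast_nonneg r
  have hlz : 0 ≤ Real.log z := Real.log_nonneg hz1
  have hl2z : 0 ≤ Real.log (2 * z) := Real.log_nonneg (by linarith)
  have hLm : 1 ≤ 1 + Real.log (2 * z) := by linarith
  set Lm : ℝ := 1 + Real.log (2 * z) with hLmd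
  set N : ℕ := ⌊√z⌋₊ with hN
  have hN1 : 1 ≤ N := by rw [hN, Nat.one_le_floor_iff]; exact hs1
  set J : ℕ := Nat.log 2 N + 1 with hJ
  have hJle : (J : ℝ) ≤ 1 + Real.log z := by
    have h1 : (2 : ℝ) ^ (Nat.log 2 N) ≤ √z := by
      have h2 : 2 ^ (Nat.log 2 N) ≤ N := Nat.pow_log_le_self 2 (by omega)
      have h3 : (N : ℝ) ≤ √z := Nat.floor_le (by linarith)
      have h4 : ((2 ^ (Nat.log 2 N) : ℕ) : ℝ) ≤ N := by exact_mod_cast h2
      push_cast at h4
      linarith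
    have h2 : (Nat.log 2 N : ℝ) * Real.log 2 ≤ Real.log z / 2 := by
      rw [← Real.log_pow, ← Real.log_sqrt (by linarith)]
      exact Real.log_le_log (by positivity) h1
    have h3 : (1 / 2 : ℝ) ≤ Real.log 2 := by
      have := Real.log_two_gt_d9
      linarith
    have h4 : (Nat.log 2 N : ℝ) * (1 / 2) ≤ (Nat.log 2 N : ℝ) * Real.log 2 :=
      mul_le_mul_of_nonneg_left h3 (Nat.cast_nonneg _)
    rw [hJ]
    push_cast
    linarith
  have hdec : ∀ m, α m = ∑ j ∈ range J, (if Nat.log 2 m = j then α m else 0) := by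
    intro m
    rw [sum_ite_eq]
    by_cases hm : (m : ℝ) ≤ √z
    · have h1 : m ≤ N := Nat.le_floor hm
      have h2 : Nat.log 2 m ≤ Nat.log 2 N := Nat.log_mono_right h1
      rw [if_pos (mem_range.2 (by omega))]
    · rw [hαz m (not_le.1 hm), ite_self]
  have hsum : SS ((a : ℝ) / r) K y t q (cv α β) =
      ∑ j ∈ range J, SS ((a : ℝ) / r) K y t q (cv (fun m => if Nat.log 2 m = j then α m else 0) β) := by
    rw [← SS_sum]
    refine SS_congr fun k _ _ => ?_
    rw [← cv_sum_left]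
    congr 1
    funext m
    exact hdec m
  have hblock : ∀ j ∈ range J,
      ‖SS ((a : ℝ) / r) K y t q (cv (fun m => if Nat.log 2 m = j then α m else 0) β)‖ ≤
        z * Lm ^ 5 * ρ := by
    intro j _
    have hb0 : 0 ≤ z * Lm ^ 5 * ρ := by positivity
    have hsupp : ∀ m, m ∉ Ico (2 ^ j) (2 * 2 ^ j) → (if Nat.log 2 m = j then α m else 0) = 0 := by
      intro m hm
      split_ifs with hj
      · rcases Nat.eq_zero_or_pos m with rfl | hm0
        · exact hαU 0 (Nat.zero_le _)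
        · exfalso
          apply hm
          rw [mem_Ico]
          have h1 := Nat.pow_log_le_self 2 (x := m) (by omega)
          have h2 := Nat.lt_pow_succ_log_self (b := 2) (by norm_num) m
          rw [hj] at h1 h2
          rw [pow_succ] at h2
          exact ⟨h1, by omega⟩
      · rfl
    by_cases h1 : U < 2 * 2 ^ j ∧ ((2 ^ j : ℕ) : ℝ) ≤ √z
    · obtain ⟨h1, h2⟩ := h1
      have hM1 : 1 ≤ 2 ^ j := Nat.one_le_two_pow
      set M : ℕ := 2 ^ j with hM
      have hM0 : (0 : ℝ) < M := by exact_mod_cast hM1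
      have hM1' : (1 : ℝ) ≤ M := by exact_mod_cast hM1
      have hzM : y / (q * M) = z / M := by rw [hz, div_div]
      have hk := h y t η ((a : ℝ) / r) a r q M K (fun m => if Nat.log 2 m = j then α m else 0) β
        (by linarith) ht hη hη2 hr rfl hq hM1 hsupp (norm_zero_tau hβ) hyK
      rw [hzM] at hk
      have hLHS : (∑ k ∈ (Icc 1 K).filter (fun k : ℕ => ((q * k : ℕ) : ℝ) < y),
          cv (fun m => if Nat.log 2 m = j then α m else 0) β k * ee (-((a : ℝ) / r * (q * k))) *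
          cexp (I * ((t * Real.log (y - q * k) : ℝ) : ℂ))) =
          SS ((a : ℝ) / r) K y t q (cv (fun m => if Nat.log 2 m = j then α m else 0) β) := by
        unfold SS phs
        exact sum_congr rfl fun k _ => by ring
      rw [hLHS] at hk
      have hz1M : √z ≤ z / M := by
        rw [le_div_iff₀ hM0]
        calc √z * M ≤ √z * √z := mul_le_mul_of_nonneg_left h2 (by linarith)
          _ = z := hss
      have hzM1 : 1 ≤ z / M := hs1.trans hz1M
      -- sum over m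
      have hA : ∑ m ∈ Ico M (2 * M), ‖(if Nat.log 2 m = j then α m else 0 : ℂ)‖ ^ 2 ≤ 2 * M * Lm ^ 5 := by
        calc ∑ m ∈ Ico M (2 * M), ‖(if Nat.log 2 m = j then α m else 0 : ℂ)‖ ^ 2
            ≤ ∑ m ∈ Ioc 0 (2 * M), ‖α m‖ ^ 2 := by
              refine (sum_le_sum fun m _ => ?_).trans
                (sum_le_sum_of_subset_of_nonneg (fun m hm => ?_) fun _ _ _ => by positivity)
              · split_ifs
                · exact le_refl _
                · simp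
              · rw [mem_Ico] at hm
                rw [mem_Ioc]
                omega
          _ ≤ ((2 * M : ℕ) : ℝ) * (1 + Real.log ((2 * M : ℕ) : ℝ)) ^ 5 := sum_sq_le hα _
          _ ≤ 2 * M * Lm ^ 5 := by
              push_cast
              have h3 : Real.log (2 * M) ≤ Real.log (2 * z) := by
                refine Real.log_le_log (by linarith) ?_
                have : √z ≤ z := by
                  calc √z = √z * 1 := (mul_one _).symm
                    _ ≤ √z * √z := mul_le_mul_of_nonneg_left hs1 (by linarith)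
                    _ = z := hss
                linarith
              have h4 : 0 ≤ Real.log (2 * M) := Real.log_nonneg (by linarith)
              refine mul_le_mul_of_nonneg_left (pow_le_pow_left₀ (by linarith) (by linarith) 5) (by positivity)
      have hB : ∑ n ∈ Icc 1 (⌊z / M⌋₊), ‖β n‖ ^ 2 ≤ (z / M) * Lm ^ 5 := by
        have hset : Icc 1 (⌊z / M⌋₊) = Ioc 0 (⌊z / M⌋₊) := by
          ext n
          rw [mem_Icc, mem_Ioc]
          omega
        rw [hset]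
        refine (sum_sq_le hβ _).trans ?_
        have h3 : (⌊z / M⌋₊ : ℝ) ≤ z / M := Nat.floor_le (by linarith)
        have h4 : 1 ≤ ⌊z / M⌋₊ := by rw [Nat.one_le_floor_iff]; exact hzM1
        have h4' : (1 : ℝ) ≤ (⌊z / M⌋₊ : ℝ) := by exact_mod_cast h4
        have h5 : Real.log (⌊z / M⌋₊ : ℝ) ≤ Real.log (2 * z) := by
          refine Real.log_le_log (by linarith) (h3.trans ?_)
          have : z / M ≤ z := div_le_self (by linarith) hM1'
          linarith
        have h6 : 0 ≤ Real.log (⌊z / M⌋₊ : ℝ) := Real.log_nonneg h4'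
        exact mul_le_mul h3 (pow_le_pow_left₀ (by linarith) (by linarith) 5) (by positivity) (by linarith)
      -- the last factor
      have hF : (η * M + 1) * (z / M + 1) + M / η ^ 5 * (r * √|t| + z / M / √|t|) ≤
          4 * z * (η + 1 / U + (r * √|t| / √z + 1 / √|t|) / η ^ 5) := by
        have e1 : (η * M + 1) * (z / M + 1) ≤ 4 * z * (η + 1 / U) := by
          have e2 : (1 : ℝ) / M ≤ 2 / U := by
            rw [div_le_div_iff₀ hM0 hU0]
            have : (U : ℝ) < 2 * M := by exact_mod_cast h1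
            linarith
          calc (η * M + 1) * (z / M + 1) ≤ (η * M + 1) * (2 * (z / M)) :=
                mul_le_mul_of_nonneg_left (by linarith) (by positivity)
            _ = 2 * z * (η + 1 / M) := by field_simp
            _ ≤ 2 * z * (η + 2 / U) := mul_le_mul_of_nonneg_left (by linarith) (by linarith)
            _ ≤ 4 * z * (η + 1 / U) := by
                have : 0 ≤ 2 * z * η := by positivity
                have e3 : 2 * z * (η + 2 / U) = 2 * z * η + 4 * z * (1 / U) := by ring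
                have e4 : 4 * z * (η + 1 / U) = 4 * z * η + 4 * z * (1 / U) := by ring
                rw [e3, e4]
                linarith
        have e5 : M / η ^ 5 * (r * √|t| + z / M / √|t|) ≤ z * ((r * √|t| / √z + 1 / √|t|) / η ^ 5) := by
          have e6 : (M : ℝ) * (r * √|t| + z / M / √|t|) ≤ z * (r * √|t| / √z + 1 / √|t|) := by
            have e7 : (M : ℝ) * (r * √|t|) ≤ z * (r * √|t| / √z) := by
              have : z * (r * √|t| / √z) = √z * (r * √|t|) := by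
                nth_rw 1 [← hss]
                field_simp
              rw [this]
              exact mul_le_mul_of_nonneg_right h2 (by positivity)
            have e8 : (M : ℝ) * (z / M / √|t|) = z * (1 / √|t|) := by
              field_simp
            rw [mul_add, mul_add, e8]
            linarith
          calc M / η ^ 5 * (r * √|t| + z / M / √|t|) = (M * (r * √|t| + z / M / √|t|)) / η ^ 5 := by ring
            _ ≤ (z * (r * √|t| / √z + 1 / √|t|)) / η ^ 5 :=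
                div_le_div_of_nonneg_right e6 (by positivity)
            _ = z * ((r * √|t| / √z + 1 / √|t|) / η ^ 5) := by ring
        have e9 : 0 ≤ (r * √|t| / √z + 1 / √|t|) / η ^ 5 := by positivity
        have e10 : 4 * z * (η + 1 / U + (r * √|t| / √z + 1 / √|t|) / η ^ 5) =
          4 * z * (η + 1 / U) + z * ((r * √|t| / √z + 1 / √|t|) / η ^ 5) +
            3 * z * ((r * √|t| / √z + 1 / √|t|) / η ^ 5) := by ring
        have e11 : 0 ≤ 3 * z * ((r * √|t| / √z + 1 / √|t|) / η ^ 5) := by positivity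
        rw [e10]
        linarith
      have hsq : ‖SS ((a : ℝ) / r) K y t q (cv (fun m => if Nat.log 2 m = j then α m else 0) β)‖ ^ 2 ≤
          (z * Lm ^ 5 * ρ) ^ 2 := by
        refine hk.trans ?_
        have hF0 : 0 ≤ (η * M + 1) * (z / M + 1) + M / η ^ 5 * (r * √|t| + z / M / √|t|) := by positivity
        calc C * (∑ m ∈ Ico M (2 * M), ‖(if Nat.log 2 m = j then α m else 0 : ℂ)‖ ^ 2) *
              (∑ n ∈ Icc 1 (⌊z / M⌋₊), ‖β n‖ ^ 2) *
              ((η * M + 1) * (z / M + 1) + M / η ^ 5 * (r * √|t| + z / M / √|t|))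
            ≤ C * (2 * M * Lm ^ 5) * ((z / M) * Lm ^ 5) *
              (4 * z * (η + 1 / U + (r * √|t| / √z + 1 / √|t|) / η ^ 5)) := by
              have hS1 : 0 ≤ ∑ m ∈ Ico M (2 * M), ‖(if Nat.log 2 m = j then α m else 0 : ℂ)‖ ^ 2 :=
                sum_nonneg fun _ _ => by positivity
              have hS2 : 0 ≤ ∑ n ∈ Icc 1 (⌊z / M⌋₊), ‖β n‖ ^ 2 := sum_nonneg fun _ _ => by positivity
              refine mul_le_mul (mul_le_mul (mul_le_mul_of_nonneg_left hA hC.le) hB hS2 (by positivity)) hF hF0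
                (by positivity)
          _ = (z * Lm ^ 5) ^ 2 * (8 * C * (η + 1 / U + (r * √|t| / √z + 1 / √|t|) / η ^ 5)) := by
              field_simp
              ring
          _ ≤ (z * Lm ^ 5) ^ 2 * ρ ^ 2 := mul_le_mul_of_nonneg_left hbd (by positivity)
          _ = (z * Lm ^ 5 * ρ) ^ 2 := by ring
      exact le_of_sq_le_sq hsq hb0
    · have hz0 : (fun m => if Nat.log 2 m = j then α m else 0) = fun _ => (0 : ℂ) := by
        funext m
        by_cases hm : m ∈ Ico (2 ^ j) (2 * 2 ^ j)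
        · rw [mem_Ico] at hm
          split_ifs
          · rcases not_and_or.1 h1 with h2 | h2
            · exact hαU m (by omega)
            · refine hαz m (lt_of_lt_of_le (not_le.1 h2) ?_)
              exact_mod_cast hm.1
          · rfl
        · exact hsupp m hm
      rw [hz0]
      have : SS ((a : ℝ) / r) K y t q (cv (fun _ => (0 : ℂ)) β) = 0 :=
        (SS_congr fun k _ _ => cv_zero_left β k).trans (SS_zero ((a : ℝ) / r) K y t q)
      rw [this, norm_zero]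
      exact hb0
  rw [hsum]
  calc ‖∑ j ∈ range J, SS ((a : ℝ) / r) K y t q (cv (fun m => if Nat.log 2 m = j then α m else 0) β)‖
      ≤ ∑ j ∈ range J, z * Lm ^ 5 * ρ := (norm_sum_le _ _).trans (sum_le_sum hblock)
    _ = J * (z * Lm ^ 5 * ρ) := by rw [sum_const, card_range, nsmul_eq_mul]
    _ ≤ (1 + Real.log z) * (z * Lm ^ 5 * ρ) := mul_le_mul_of_nonneg_right hJle (by positivity)

/-- the full type II bound -/
theorem typeII_full : ∃ C : ℝ, 0 < C ∧ ∀ (y t η ρ : ℝ) (a : ℤ) (r q K U : ℕ) (α β : ℕ → ℂ), 1 ≤ |t| →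
    0 < η → η ≤ 1 / 2 → 1 ≤ r → 1 ≤ q → 1 ≤ U → (q : ℝ) ≤ y → y ≤ q * K →
    (∀ m, ‖α m‖ ≤ tauR m * (1 + Real.log m)) → (∀ n, ‖β n‖ ≤ tauR n * (1 + Real.log n)) →
    (∀ m, m ≤ U → α m = 0) → (∀ m, m ≤ U → β m = 0) → 0 ≤ ρ →
    C * (η + 1 / U + (r * √|t| / √(y / q) + 1 / √|t|) / η ^ 5) ≤ ρ ^ 2 →
    ‖SS ((a : ℝ) / r) K y t q (cv α β)‖ ≤
      2 * ((1 + Real.log (y / q)) * ((y / q) * (1 + Real.log (2 * (y / q))) ^ 5 * ρ)) := by
  obtain ⟨C, hC, h⟩ := typeII_bound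
  refine ⟨C, hC, fun y t η ρ a r q K U α β ht hη hη2 hr hq hU hqy hyK hα hβ hαU hβU hρ hbd => ?_⟩
  set z : ℝ := y / q with hz
  have hq0 : (0 : ℝ) < q := by exact_mod_cast hq
  have hz1 : 1 ≤ z := by rw [hz, le_div_iff₀ hq0, one_mul]; exact hqy
  have hss : √z * √z = z := Real.mul_self_sqrt (by linarith)
  have hle : ∀ (γ : ℕ → ℂ) (p : ℕ → Prop) [DecidablePred p],
      (∀ m, ‖γ m‖ ≤ tauR m * (1 + Real.log m)) →
      ∀ m, ‖(if p m then γ m else 0 : ℂ)‖ ≤ tauR m * (1 + Real.log m) := by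
    intro γ p _ hγ m
    split_ifs
    · exact hγ m
    · rw [norm_zero]
      exact (norm_nonneg _).trans (hγ m)
  have hsplit : SS ((a : ℝ) / r) K y t q (cv α β) =
      SS ((a : ℝ) / r) K y t q (cv (fun m => if (m : ℝ) ≤ √z then α m else 0) β) +
      SS ((a : ℝ) / r) K y t q (cv (fun m => if (m : ℝ) ≤ √z then β m else 0)
        (fun m => if ¬ (m : ℝ) ≤ √z then α m else 0)) := by
    rw [← SS_add]
    refine SS_congr fun k hk hky => ?_
    rw [cv_comm (fun m => if (m : ℝ) ≤ √z then β m else 0)]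
    unfold cv
    rw [← sum_add_distrib]
    refine sum_congr rfl fun p hp => ?_
    rw [Nat.mem_divisorsAntidiagonal] at hp
    beta_reduce
    by_cases h1 : (p.1 : ℝ) ≤ √z
    · rw [if_pos h1, if_neg (not_not.2 h1)]
      ring
    · rw [if_neg h1, if_pos h1]
      by_cases h2 : (p.2 : ℝ) ≤ √z
      · rw [if_pos h2]
        ring
      · exfalso
        rw [not_le] at h1 h2
        have h3 : z < (p.1 : ℝ) * p.2 := by
          rw [← hss]
          exact mul_lt_mul'' h1 h2 (Real.sqrt_nonneg _) (Real.sqrt_nonneg _)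
        have h4 : ((p.1 : ℝ) * p.2) = k := by exact_mod_cast hp.1
        rw [h4, hz, div_lt_iff₀ hq0] at h3
        push_cast at hky
        linarith
  rw [hsplit]
  have h1 := h y t η ρ a r q K U (fun m => if (m : ℝ) ≤ √z then α m else 0) β ht hη hη2 hr hq hU hqy hyK
    (hle α _ hα) hβ (fun m hm => by rw [hαU m hm, ite_self])
    (fun m hm => by rw [if_neg (not_le.2 hm)]) hρ hbd
  have h2 := h y t η ρ a r q K U (fun m => if (m : ℝ) ≤ √z then β m else 0)
    (fun m => if ¬ (m : ℝ) ≤ √z then α m else 0) ht hη hη2 hr hq hU hqy hyK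
    (hle β _ hβ) (hle α _ hα) (fun m hm => by rw [hβU m hm, ite_self])
    (fun m hm => by rw [if_neg (not_le.2 hm)]) hρ hbd
  refine (norm_add_le _ _).trans ?_
  linarith

theorem cv_log (a b : ℕ → ℂ) (k : ℕ) :
    cv a b k * ((Real.log k : ℝ) : ℂ) = cv (fun m => a m * ((Real.log m : ℝ) : ℂ)) b k +
      cv a (fun m => b m * ((Real.log m : ℝ) : ℂ)) k := by
  unfold cv
  rw [sum_mul, ← sum_add_distrib]
  refine sum_congr rfl fun p hp => ?_
  rw [Nat.mem_divisorsAntidiagonal] at hp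
  have h1 : p.1 ≠ 0 := by
    intro h
    apply hp.2
    rw [← hp.1, h, zero_mul]
  have h2 : p.2 ≠ 0 := by
    intro h
    apply hp.2
    rw [← hp.1, h, mul_zero]
  have h3 : Real.log k = Real.log p.1 + Real.log p.2 := by
    rw [← hp.1]
    push_cast
    exact Real.log_mul (by exact_mod_cast h1) (by exact_mod_cast h2)
  rw [h3]
  push_cast
  ring

theorem log_nat_nonneg (n : ℕ) : 0 ≤ Real.log n := by
  rcases Nat.eq_zero_or_pos n with rfl | hn
  · simp
  · exact Real.log_nonneg (by exact_mod_cast hn)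

theorem le_tau_log {α : ℕ → ℂ} (h : ∀ m, ‖α m‖ ≤ tauR m) (m : ℕ) :
    ‖α m‖ ≤ tauR m * (1 + Real.log m) :=
  (h m).trans (le_mul_of_one_le_right (tauR_nonneg m) (by linarith [log_nat_nonneg m]))

theorem le_tau_log' {α : ℕ → ℂ} (h : ∀ m, ‖α m‖ ≤ tauR m) (m : ℕ) :
    ‖α m * ((Real.log m : ℝ) : ℂ)‖ ≤ tauR m * (1 + Real.log m) := by
  rw [norm_mul, Complex.norm_real, Real.norm_of_nonneg (log_nat_nonneg m)]
  exact mul_le_mul (h m) (by linarith) (log_nat_nonneg m) (tauR_nonneg m)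

/-- the type II part of the sum -/
theorem typeII_part : ∃ C : ℝ, 0 < C ∧ ∀ (y t η ρ : ℝ) (a : ℤ) (r q K d U i : ℕ), 1 ≤ |t| →
    0 < η → η ≤ 1 / 2 → 1 ≤ r → 1 ≤ q → 1 ≤ U → (q : ℝ) ≤ y → y ≤ q * K → i ≤ 1 → 0 ≤ ρ →
    C * (η + 1 / U + (r * √|t| / √(y / q) + 1 / √|t|) / η ^ 5) ≤ ρ ^ 2 →
    ‖SS ((a : ℝ) / r) K y t q (fun k => cv (aII d U) (bII d U) k * ((Real.log k ^ i : ℝ) : ℂ))‖ ≤
      4 * ((1 + Real.log (y / q)) * ((y / q) * (1 + Real.log (2 * (y / q))) ^ 5 * ρ)) := by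
  obtain ⟨C, hC, h⟩ := typeII_full
  refine ⟨C, hC, fun y t η ρ a r q K d U i ht hη hη2 hr hq hU hqy hyK hi hρ hbd => ?_⟩
  have hz1 : 1 ≤ y / q := by
    have hq0 : (0 : ℝ) < q := by exact_mod_cast hq
    rw [le_div_iff₀ hq0, one_mul]; exact hqy
  have hb : ∀ m, ‖bII d U m‖ ≤ tauR m := by
    intro m
    rcases Nat.eq_zero_or_pos m with rfl | hm
    · rw [bII_zero (Nat.zero_le _), norm_zero]
      exact tauR_nonneg _
    · exact (norm_bII_le d U m).trans (one_le_tauR (by omega))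
  have ha := norm_aII_le d U
  have h0 : 0 ≤ (1 + Real.log (y / q)) * ((y / q) * (1 + Real.log (2 * (y / q))) ^ 5 * ρ) := by
    have h1 : 0 ≤ Real.log (y / q) := Real.log_nonneg hz1
    have h2 : 0 ≤ Real.log (2 * (y / q)) := Real.log_nonneg (by linarith)
    positivity
  interval_cases i
  · have h1 := h y t η ρ a r q K U (aII d U) (bII d U) ht hη hη2 hr hq hU hqy hyK (le_tau_log ha)
      (le_tau_log hb) (fun m hm => aII_zero hm) (fun m hm => bII_zero hm) hρ hbd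
    have h2 : SS ((a : ℝ) / r) K y t q (fun k => cv (aII d U) (bII d U) k * ((Real.log k ^ 0 : ℝ) : ℂ)) =
        SS ((a : ℝ) / r) K y t q (cv (aII d U) (bII d U)) :=
      SS_congr fun k _ _ => by rw [pow_zero, Complex.ofReal_one, mul_one]
    rw [h2]
    linarith
  · have h1 := h y t η ρ a r q K U (fun m => aII d U m * ((Real.log m : ℝ) : ℂ)) (bII d U) ht hη hη2 hr hq
      hU hqy hyK (le_tau_log' ha)
      (le_tau_log hb) (fun m hm => by rw [aII_zero hm, zero_mul]) (fun m hm => bII_zero hm) hρ hbd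
    have h1' := h y t η ρ a r q K U (aII d U) (fun m => bII d U m * ((Real.log m : ℝ) : ℂ)) ht hη hη2 hr hq
      hU hqy hyK (le_tau_log ha)
      (le_tau_log' hb) (fun m hm => aII_zero hm) (fun m hm => by rw [bII_zero hm, zero_mul]) hρ hbd
    have h2 : SS ((a : ℝ) / r) K y t q (fun k => cv (aII d U) (bII d U) k * ((Real.log k ^ 1 : ℝ) : ℂ)) =
        SS ((a : ℝ) / r) K y t q (cv (fun m => aII d U m * ((Real.log m : ℝ) : ℂ)) (bII d U)) +
        SS ((a : ℝ) / r) K y t q (cv (aII d U) (fun m => bII d U m * ((Real.log m : ℝ) : ℂ))) := by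
      rw [← SS_add]
      exact SS_congr fun k _ _ => by rw [pow_one, cv_log]
    rw [h2]
    refine (norm_add_le _ _).trans ?_
    linarith

/-- the decomposition -/
theorem ES_decomp (d U i K q : ℕ) (θ y t : ℝ) (hd : 1 ≤ d) :
    ‖ES (cc d i) θ K y t q‖ ≤
      2 * ‖SS θ K y t q (fun k => Mdd d U k * ((Real.log k ^ i : ℝ) : ℂ))‖ +
      ‖SS θ K y t q (fun k => cv (aI d U) (zd d) k * ((Real.log k ^ i : ℝ) : ℂ))‖ +
      ‖SS θ K y t q (fun k => cv (aII d U) (bII d U) k * ((Real.log k ^ i : ℝ) : ℂ))‖ := by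
  have h1 : SS θ K y t q (cc d i) = muC d *
      (2 * SS θ K y t q (fun k => Mdd d U k * ((Real.log k ^ i : ℝ) : ℂ)) +
      ((-1) * SS θ K y t q (fun k => cv (aI d U) (zd d) k * ((Real.log k ^ i : ℝ) : ℂ)) +
      SS θ K y t q (fun k => cv (aII d U) (bII d U) k * ((Real.log k ^ i : ℝ) : ℂ)))) := by
    rw [← SS_smul, ← SS_smul, ← SS_add, ← SS_add, ← SS_smul]
    refine SS_congr fun k hk _ => ?_
    unfold cc
    rw [vaughan_d d U k hd hk]
    ring
  rw [ES_eq, h1, norm_mul]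
  have h2 := norm_muC_le d
  have h3 : ∀ x : ℂ, ‖muC d‖ * ‖x‖ ≤ ‖x‖ := fun x => mul_le_of_le_one_left (norm_nonneg _) h2
  refine (h3 _).trans ((norm_add_le _ _).trans ?_)
  rw [add_assoc]
  refine add_le_add ?_ ((norm_add_le _ _).trans ?_)
  · rw [norm_mul]
    norm_num
  · rw [norm_mul, norm_neg, norm_one, one_mul]

theorem Mdd_part {θ y t : ℝ} {K q d U i : ℕ} (hi : i ≤ 1) :
    ‖SS θ K y t q (fun k => Mdd d U k * ((Real.log k ^ i : ℝ) : ℂ))‖ ≤ U * (1 + Real.log U) := by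
  refine norm_SS_small (by linarith [log_nat_nonneg U]) (fun k hk => ?_) fun k hk1 hk2 => ?_
  · have : Mdd d U k = 0 := by
      unfold Mdd
      simp only [ArithmeticFunction.coe_mk]
      rw [if_neg (by omega)]
    rw [this, zero_mul]
  · have hl := log_nat_nonneg k
    have hl2 : Real.log k ≤ Real.log U :=
      Real.log_le_log (by exact_mod_cast hk1) (by exact_mod_cast hk2)
    rw [norm_mul, Complex.norm_real, Real.norm_of_nonneg (pow_nonneg hl _)]
    have h1 : Real.log k ^ i ≤ 1 + Real.log U := by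
      interval_cases i
      · rw [pow_zero]; linarith
      · rw [pow_one]; linarith
    calc ‖Mdd d U k‖ * Real.log k ^ i ≤ 1 * (1 + Real.log U) :=
          mul_le_mul (norm_Mdd_le d U k) h1 (pow_nonneg hl _) (by norm_num)
      _ = 1 + Real.log U := one_mul _

theorem num1 {L P U lU : ℝ} {b A : ℕ} (hL : 1 ≤ L) (hU : U ≤ 2 * L ^ b) (hl0 : 0 ≤ lU)
    (hl : lU ≤ L) (h : 32 * L ^ (b + 1 + A) ≤ P) : 2 * (U * (1 + lU)) ≤ P / L ^ A / 4 := by
  have hL0 : 0 < L := by linarith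
  have h1 : U * (1 + lU) ≤ (2 * L ^ b) * (2 * L) :=
    mul_le_mul hU (by linarith) (by linarith) (by positivity)
  have h2 : (8 * L ^ (b + 1)) ≤ P / L ^ A / 4 := by
    rw [le_div_iff₀ (by norm_num), le_div_iff₀ (by positivity)]
    calc 8 * L ^ (b + 1) * 4 * L ^ A = 32 * L ^ (b + 1 + A) := by rw [pow_add L (b + 1) A]; ring
      _ ≤ P := h
  have h3 : (2 * L ^ b) * (2 * L) = 4 * L ^ (b + 1) := by rw [pow_succ]; ring
  linarith

theorem num2 {C₁ L P R z s rr U dd η lU ly : ℝ} {A b e C₀ B A5 : ℕ} (hC₁ : 0 < C₁)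
    (he : e = A + 4 * b + C₀ + 2) (hA5 : 6 * e + 1 ≤ A5)
    (hL1 : 2560 ≤ L) (hL2 : 2 * C₁ ≤ L) (hU0 : 0 ≤ U) (hU : U ≤ 2 * L ^ b) (hd0 : 0 ≤ dd) (hd : dd ≤ L ^ C₀)
    (hη : η = 1 / L ^ e) (hr0 : 0 ≤ rr) (hr : rr ≤ 2 * L ^ B) (hs0 : L ^ A5 ≤ s) (hs : s ≤ R)
    (hR : 2 * C₁ * L ^ (6 * e + B) ≤ R) (hRP : R * R ≤ P) (hP : L ^ e ≤ P) (hz0 : 0 ≤ z) (hz : z ≤ 2 * P)
    (hlU0 : 0 ≤ lU) (hlU : lU ≤ L) (hly0 : 0 ≤ ly) (hly : ly ≤ 1 + L) :
    U ^ 4 * dd * ((C₁ / η ^ 5 * (rr * s + z / s) + η * z + 1) * (2 * (1 + lU + ly))) ≤ P / L ^ A / 4 := by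
  have hL0 : 0 < L := by linarith
  have hL1' : 1 ≤ L := by linarith
  have hLe : 0 < L ^ e := by positivity
  have hs00 : 0 < s := lt_of_lt_of_le (by positivity) hs0
  have hR0 : 0 < R := lt_of_lt_of_le hs00 hs
  have hP0 : 0 < P := lt_of_lt_of_le hLe hP
  have hη5 : C₁ / η ^ 5 = C₁ * L ^ (5 * e) := by
    rw [hη, div_pow, one_pow, ← pow_mul, mul_comm e 5]
    field_simp
  have t1 : C₁ * L ^ (5 * e) * (rr * s) ≤ P / L ^ e := by
    rw [le_div_iff₀ hLe]
    calc C₁ * L ^ (5 * e) * (rr * s) * L ^ e ≤ C₁ * L ^ (5 * e) * ((2 * L ^ B) * R) * L ^ e := by gcongr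
      _ = (2 * C₁ * L ^ (6 * e + B)) * R := by
          rw [show 6 * e + B = 5 * e + e + B by ring, pow_add L (5 * e + e) B, pow_add L (5 * e) e]
          ring
      _ ≤ R * R := mul_le_mul_of_nonneg_right hR hR0.le
      _ ≤ P := hRP
  have t2 : C₁ * L ^ (5 * e) * (z / s) ≤ P / L ^ e := by
    have h1 : z / s ≤ 2 * P / L ^ A5 := div_le_div₀ (by linarith) hz (by positivity) hs0
    calc C₁ * L ^ (5 * e) * (z / s) ≤ C₁ * L ^ (5 * e) * (2 * P / L ^ A5) :=
          mul_le_mul_of_nonneg_left h1 (by positivity)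
      _ ≤ P / L ^ e := by
          rw [mul_div_assoc', div_le_div_iff₀ (by positivity) hLe]
          have h2 : 2 * C₁ * L ^ (6 * e) ≤ L ^ A5 := by
            calc 2 * C₁ * L ^ (6 * e) ≤ L * L ^ (6 * e) := mul_le_mul_of_nonneg_right hL2 (by positivity)
              _ = L ^ (6 * e + 1) := by rw [pow_succ]; ring
              _ ≤ L ^ A5 := pow_le_pow_right₀ hL1' hA5
          calc C₁ * L ^ (5 * e) * (2 * P) * L ^ e = (2 * C₁ * L ^ (6 * e)) * P := by
                rw [show 6 * e = 5 * e + e by ring, pow_add L (5 * e) e]; ring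
            _ ≤ L ^ A5 * P := mul_le_mul_of_nonneg_right h2 hP0.le
            _ = P * L ^ A5 := mul_comm _ _
  have t3 : η * z ≤ 2 * (P / L ^ e) := by
    rw [hη]
    calc 1 / L ^ e * z ≤ 1 / L ^ e * (2 * P) := mul_le_mul_of_nonneg_left hz (by positivity)
      _ = 2 * (P / L ^ e) := by ring
  have t4 : 1 ≤ P / L ^ e := by rwa [le_div_iff₀ hLe, one_mul]
  have hsum : C₁ / η ^ 5 * (rr * s + z / s) + η * z + 1 ≤ 5 * (P / L ^ e) := by
    rw [hη5, mul_add]
    linarith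
  have hη0 : 0 < η := by rw [hη]; positivity
  have hsum0 : 0 ≤ C₁ / η ^ 5 * (rr * s + z / s) + η * z + 1 := by positivity
  calc U ^ 4 * dd * ((C₁ / η ^ 5 * (rr * s + z / s) + η * z + 1) * (2 * (1 + lU + ly)))
      ≤ (2 * L ^ b) ^ 4 * L ^ C₀ * ((5 * (P / L ^ e)) * (8 * L)) := by
        refine mul_le_mul (mul_le_mul (pow_le_pow_left₀ hU0 hU 4) hd hd0 (by positivity))
          (mul_le_mul hsum (by linarith) (by positivity) (by positivity)) (by positivity) (by positivity)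
    _ = 640 * L ^ (4 * b + C₀ + 1) * P / L ^ e := by
        have h4 : (L ^ b) ^ 4 = L ^ (4 * b) := by rw [← pow_mul, mul_comm]
        rw [pow_add L (4 * b + C₀) 1, pow_add L (4 * b) C₀, mul_pow, h4]
        ring
    _ ≤ P / L ^ A / 4 := by
        rw [div_div, div_le_div_iff₀ hLe (by positivity)]
        calc 640 * L ^ (4 * b + C₀ + 1) * P * (L ^ A * 4) = (2560 * L ^ (A + 4 * b + C₀ + 1)) * P := by
              rw [show A + 4 * b + C₀ + 1 = (4 * b + C₀ + 1) + A by ring, pow_add L (4 * b + C₀ + 1) A]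
              ring
          _ ≤ (L * L ^ (A + 4 * b + C₀ + 1)) * P := by gcongr
          _ = P * L ^ e := by
              rw [he, show A + 4 * b + C₀ + 2 = (A + 4 * b + C₀ + 1) + 1 by ring, pow_succ]
              ring

theorem num3 {L P z lz l2z : ℝ} {A : ℕ} (hL : 23328 ≤ L) (hz0 : 0 ≤ z) (hz : z ≤ 2 * P)
    (hlz : 1 + lz ≤ 3 * L) (hl2z0 : 0 ≤ l2z) (hl2z : 1 + l2z ≤ 3 * L) :
    4 * ((1 + lz) * (z * (1 + l2z) ^ 5 * (1 / L ^ (A + 7)))) ≤ P / L ^ A / 4 := by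
  have hL0 : 0 < L := by linarith
  have hP0 : 0 ≤ P := by linarith
  calc 4 * ((1 + lz) * (z * (1 + l2z) ^ 5 * (1 / L ^ (A + 7))))
      ≤ 4 * ((3 * L) * ((2 * P) * (3 * L) ^ 5 * (1 / L ^ (A + 7)))) := by gcongr
    _ = 5832 * P / L ^ (A + 1) := by
        rw [show A + 7 = (A + 1) + 6 by ring, pow_add L (A + 1) 6]
        field_simp
        ring
    _ ≤ P / L ^ A / 4 := by
        rw [div_div, div_le_div_iff₀ (by positivity) (by positivity)]
        calc 5832 * P * (L ^ A * 4) = 23328 * (P * L ^ A) := by ring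
          _ ≤ L * (P * L ^ A) := mul_le_mul_of_nonneg_right hL (by positivity)
          _ = P * L ^ (A + 1) := by rw [pow_succ]; ring

theorem num4 {C₂ L R G z s rr U η : ℝ} {A b e B A5 : ℕ} (hC₂ : 0 < C₂) (hb : b = 2 * A + 20) (he : b ≤ e)
    (hA5 : 5 * e + 2 * A + 15 ≤ A5) (hL1 : 1 ≤ L) (hL2 : 8 * C₂ ≤ L) (hU : L ^ b ≤ U) (hη : η = 1 / L ^ e)
    (hr : rr ≤ 2 * L ^ B) (hs0 : L ^ A5 ≤ s) (hG0 : 0 < G) (hs : s * G ≤ R)
    (hG : 16 * C₂ * L ^ (5 * e + B + 2 * A + 14) ≤ G) (hR0 : 0 < R) (hz : R / 2 ≤ √z) :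
    C₂ * (η + 1 / U + (rr * s / √z + 1 / s) / η ^ 5) ≤ (1 / L ^ (A + 7)) ^ 2 := by
  have hL0 : 0 < L := by linarith
  have hs00 : 0 < s := lt_of_lt_of_le (by positivity) hs0
  have hz0 : 0 < √z := lt_of_lt_of_le (by linarith) hz
  have hU0 : 0 < U := lt_of_lt_of_le (by positivity) hU
  have hρ : (1 / L ^ (A + 7)) ^ 2 = 1 / L ^ (2 * A + 14) := by
    rw [div_pow, one_pow, ← pow_mul]
    congr 2
    ring
  rw [hρ]
  set ρ2 : ℝ := 1 / L ^ (2 * A + 14) with hρ2
  have hη5 : ∀ x : ℝ, x / η ^ 5 = x * L ^ (5 * e) := by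
    intro x
    rw [hη, div_pow, one_pow, ← pow_mul, mul_comm e 5]
    field_simp
  have a1 : C₂ * (1 / L ^ b) ≤ ρ2 / 8 := by
    rw [hρ2, div_div, mul_one_div, div_le_div_iff₀ (by positivity) (by positivity), one_mul]
    calc C₂ * (L ^ (2 * A + 14) * 8) = (8 * C₂) * L ^ (2 * A + 14) := by ring
      _ ≤ L * L ^ (2 * A + 14) := mul_le_mul_of_nonneg_right hL2 (by positivity)
      _ = L ^ (2 * A + 15) := by rw [pow_succ L (2 * A + 14)]; ring
      _ ≤ L ^ b := pow_le_pow_right₀ hL1 (by omega)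
  have a2 : C₂ * η ≤ ρ2 / 8 := by
    refine le_trans (mul_le_mul_of_nonneg_left ?_ hC₂.le) a1
    rw [hη]
    exact one_div_le_one_div_of_le (by positivity) (pow_le_pow_right₀ hL1 he)
  have a3 : C₂ * (1 / U) ≤ ρ2 / 8 :=
    le_trans (mul_le_mul_of_nonneg_left (one_div_le_one_div_of_le (by positivity) hU) hC₂.le) a1
  have a4 : C₂ * (rr * s / √z * L ^ (5 * e)) ≤ ρ2 / 4 := by
    have h1 : rr * s / √z ≤ 4 * L ^ B / G := by
      rw [div_le_div_iff₀ hz0 hG0]
      calc rr * s * G = rr * (s * G) := by ring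
        _ ≤ (2 * L ^ B) * R := mul_le_mul hr hs (by positivity) (by positivity)
        _ = 4 * L ^ B * (R / 2) := by ring
        _ ≤ 4 * L ^ B * √z := mul_le_mul_of_nonneg_left hz (by positivity)
    calc C₂ * (rr * s / √z * L ^ (5 * e)) ≤ C₂ * (4 * L ^ B / G * L ^ (5 * e)) := by gcongr
      _ = 4 * C₂ * L ^ (5 * e + B) / G := by rw [pow_add]; ring
      _ ≤ ρ2 / 4 := by
          rw [hρ2, div_div, div_le_div_iff₀ hG0 (by positivity), one_mul]
          calc 4 * C₂ * L ^ (5 * e + B) * (L ^ (2 * A + 14) * 4) =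
                16 * C₂ * L ^ (5 * e + B + 2 * A + 14) := by
                rw [show 5 * e + B + 2 * A + 14 = (5 * e + B) + (2 * A + 14) by ring,
                  pow_add L (5 * e + B) (2 * A + 14)]
                ring
            _ ≤ G := hG
  have a5 : C₂ * (1 / s * L ^ (5 * e)) ≤ ρ2 / 4 := by
    have h1 : 1 / s ≤ 1 / L ^ A5 := one_div_le_one_div_of_le (by positivity) hs0
    calc C₂ * (1 / s * L ^ (5 * e)) ≤ C₂ * (1 / L ^ A5 * L ^ (5 * e)) := by gcongr
      _ = C₂ * L ^ (5 * e) / L ^ A5 := by ring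
      _ ≤ ρ2 / 4 := by
          rw [hρ2, div_div, div_le_div_iff₀ (by positivity) (by positivity), one_mul]
          calc C₂ * L ^ (5 * e) * (L ^ (2 * A + 14) * 4) = (4 * C₂) * L ^ (5 * e + 2 * A + 14) := by
                rw [show 5 * e + 2 * A + 14 = 5 * e + (2 * A + 14) by ring, pow_add L (5 * e) (2 * A + 14)]
                ring
            _ ≤ L * L ^ (5 * e + 2 * A + 14) := by
                refine mul_le_mul_of_nonneg_right (by linarith) (by positivity)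
            _ = L ^ (5 * e + 2 * A + 15) := by rw [pow_succ L (5 * e + 2 * A + 14)]; ring
            _ ≤ L ^ A5 := pow_le_pow_right₀ hL1 hA5
  have hρ0 : 0 ≤ ρ2 := by rw [hρ2]; positivity
  rw [hη5, add_mul, mul_add, mul_add, mul_add]
  linarith

end ESmidAux

/-- Small and medium moduli: pointwise bound. -/
theorem ES_mid {ε ε' : ℝ} (hε : 0 < ε) (hε' : 0 < ε') (A C₀ B : ℕ) : ∃ A₄ : ℕ, ∃ X₀ : ℕ, ∀ X : ℕ, X₀ ≤ X →
    ∀ Q : ℕ, Md ε' X Q → Q ^ 2 ≤ X → ∀ d : ℕ, 1 ≤ d → (d : ℝ) ≤ Real.log X ^ C₀ → ∀ i : ℕ, i ≤ 1 →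
    ∀ y t : ℝ, (X : ℝ) / 2 ≤ y → y ≤ 2 * X → Real.log X ^ A₄ ≤ |t| → |t| ≤ (X : ℝ) ^ (1 / 2 - ε) →
    ∀ r : ℕ, 1 ≤ r → (r : ℝ) ≤ 2 * Real.log X ^ B → ∀ a : ℤ, ∀ q ∈ Ico Q (2 * Q),
    ‖ES (cc d i) ((a : ℝ) / r) (KK X Q) y t q‖ ≤ X / Q / Real.log X ^ A := by
  obtain ⟨C₁, hC₁, hI⟩ := ESmidAux.typeI_bound
  obtain ⟨C₂, hC₂, hII⟩ := ESmidAux.typeII_part
  obtain ⟨b, hb⟩ : ∃ b : ℕ, b = 2 * A + 20 := ⟨_, rfl⟩
  obtain ⟨e, he⟩ : ∃ e : ℕ, e = A + 4 * b + C₀ + 2 := ⟨_, rfl⟩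
  obtain ⟨A5, hA5⟩ : ∃ A5 : ℕ, A5 = 6 * e + 2 * A + 15 := ⟨_, rfl⟩
  obtain ⟨N, hN⟩ : ∃ N : ℕ, N = 6 * e + B + 2 * A + 14 := ⟨_, rfl⟩
  obtain ⟨Kc, hKc⟩ : ∃ Kc : ℝ, Kc = 100000 * (C₁ + C₂ + 1) := ⟨_, rfl⟩
  obtain ⟨X₁, hX₁⟩ := md_facts ε' hε' 1
  obtain ⟨X₂, hX₂⟩ := const_log_pow_le Kc N (δ := 1 / 4) (by norm_num)
  obtain ⟨X₃, hX₃⟩ := const_log_pow_le Kc N (δ := ε / 2) (by positivity)
  refine ⟨2 * A5, max (max X₁ X₂) (max X₃ (⌈Real.exp Kc⌉₊ + 1)), fun X hX Q hMd hQX d hd hdL i hi y t hy1 hy2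
    ht1 ht2 r hr hrB a q hq => ?_⟩
  have hXX1 : X₁ ≤ X := le_trans (le_trans (le_max_left _ _) (le_max_left _ _)) hX
  have hXX2 : X₂ ≤ X := le_trans (le_trans (le_max_right _ _) (le_max_left _ _)) hX
  have hXX3 : X₃ ≤ X := le_trans (le_trans (le_max_left _ _) (le_max_right _ _)) hX
  have hXX4 : ⌈Real.exp Kc⌉₊ + 1 ≤ X := le_trans (le_trans (le_max_right _ _) (le_max_right _ _)) hX
  obtain ⟨hQX', -, hKK, -⟩ := hX₁ X hXX1 Q hMd
  have hG1 := hX₂ X hXX2
  have hG2 := hX₃ X hXX3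
  have hKc1 : 100000 ≤ Kc := by rw [hKc]; linarith only [hC₁, hC₂]
  have hKcC1 : 100000 * C₁ ≤ Kc := by rw [hKc]; linarith only [hC₁, hC₂]
  have hKcC2 : 100000 * C₂ ≤ Kc := by rw [hKc]; linarith only [hC₁, hC₂]
  have hX0 : (0 : ℝ) < X := by
    have : 0 < X := by omega
    exact_mod_cast this
  have hX1 : (1 : ℝ) ≤ X := by
    have : 1 ≤ X := by omega
    exact_mod_cast this
  obtain ⟨L, hLdef⟩ : ∃ L : ℝ, L = Real.log X := ⟨_, rfl⟩
  rw [← hLdef] at hG1 hG2 hdL ht1 hrB ⊢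
  have hKL : Kc ≤ L := by
    rw [hLdef, Real.le_log_iff_exp_le hX0]
    calc Real.exp Kc ≤ (⌈Real.exp Kc⌉₊ : ℝ) := Nat.le_ceil _
      _ ≤ X := by
          have : ⌈Real.exp Kc⌉₊ ≤ X := by omega
          exact_mod_cast this
  have hL1 : 100000 ≤ L := hKc1.trans hKL
  have hL0 : 0 < L := by linarith
  have hL1' : 1 ≤ L := by linarith
  have hQ1 : 1 ≤ Q := hMd.1
  have hQ0 : (0 : ℝ) < Q := by exact_mod_cast hQ1
  rw [mem_Ico] at hq
  have hq1 : 1 ≤ q := hQ1.trans hq.1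
  have hq0 : (0 : ℝ) < q := by exact_mod_cast hq1
  have hqQ : (Q : ℝ) ≤ q := by exact_mod_cast hq.1
  have hqQ2 : (q : ℝ) ≤ 2 * Q := by exact_mod_cast hq.2.le
  -- the scale
  obtain ⟨P, hP⟩ : ∃ P : ℝ, P = X / Q := ⟨_, rfl⟩
  obtain ⟨R, hR⟩ : ∃ R : ℝ, R = (X : ℝ) ^ (1 / 4 : ℝ) := ⟨_, rfl⟩
  obtain ⟨G, hG⟩ : ∃ G : ℝ, G = (X : ℝ) ^ (ε / 2) := ⟨_, rfl⟩
  rw [← hR] at hG1
  rw [← hG] at hG2
  rw [← hP]
  have hKLN : 0 < Kc * L ^ N := by
    have : 0 < Kc := by linarith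
    positivity
  have hR0 : 0 < R := lt_of_lt_of_le hKLN hG1
  have hG0 : 0 < G := lt_of_lt_of_le hKLN hG2
  have hpow : ∀ (c : ℝ) (m : ℕ), 0 ≤ c → c ≤ Kc → m ≤ N → c * L ^ m ≤ Kc * L ^ N := by
    intro c m hc hcK hm
    exact mul_le_mul hcK (pow_le_pow_right₀ hL1' hm) (by positivity) (by linarith)
  have hRR : R * R = √X := by
    rw [hR, ← Real.rpow_add hX0, Real.sqrt_eq_rpow]
    norm_num
  have hR4 : R * R * (R * R) = X := by
    rw [hRR, Real.mul_self_sqrt hX0.le]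
  have hRP : R * R ≤ P := by
    rw [hRR, hP, le_div_iff₀ hQ0]
    have h1 : (Q : ℝ) ≤ √X := by
      rw [Real.le_sqrt' hQ0]
      exact_mod_cast hQX
    calc √X * Q ≤ √X * √X := mul_le_mul_of_nonneg_left h1 (Real.sqrt_nonneg _)
      _ = X := Real.mul_self_sqrt hX0.le
  have hR1 : 100000 ≤ R := by
    have := hpow 100000 0 (by norm_num) hKc1 (by omega)
    rw [pow_zero, mul_one] at this
    linarith
  have hR1' : 1 ≤ R := by linarith only [hR1]
  have hRleP : R ≤ P := (le_mul_of_one_le_left hR0.le hR1').trans hRP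
  have hP0 : 0 < P := by linarith
  -- z
  obtain ⟨z, hz⟩ : ∃ z : ℝ, z = y / q := ⟨_, rfl⟩
  have hy0 : 0 < y := by linarith
  have hzP : z ≤ 2 * P := by
    rw [hz, hP, ← mul_div_assoc]
    exact div_le_div₀ (by linarith) hy2 hQ0 hqQ
  have hPz : P / 4 ≤ z := by
    rw [hz, hP, div_div, div_le_div_iff₀ (by positivity) hq0]
    calc (X : ℝ) * q ≤ X * (2 * Q) := mul_le_mul_of_nonneg_left hqQ2 hX0.le
      _ = (X : ℝ) / 2 * (Q * 4) := by ring
      _ ≤ y * (Q * 4) := mul_le_mul_of_nonneg_right hy1 (by positivity)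
  have hz1 : 1 ≤ z := by linarith
  have hzX : z ≤ 2 * X := by
    have : P ≤ X := by
      rw [hP]
      exact div_le_self hX0.le (by exact_mod_cast hQ1)
    linarith
  have hqy : (q : ℝ) ≤ y := by
    rw [hz, le_div_iff₀ hq0, one_mul] at hz1
    exact hz1
  have hyK : y ≤ q * KK X Q := by
    have h1 : 4 * (X : ℝ) ≤ Q * KK X Q := by
      rw [div_le_iff₀ hQ0] at hKK
      linarith
    have h2 : (Q : ℝ) * KK X Q ≤ q * KK X Q := mul_le_mul_of_nonneg_right hqQ (Nat.cast_nonneg _)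
    linarith
  have hsz : R / 2 ≤ √z := by
    rw [Real.le_sqrt' (by linarith)]
    calc (R / 2) ^ 2 = R * R / 4 := by ring
      _ ≤ P / 4 := by linarith
      _ ≤ z := hPz
  -- t
  have hA51 : (1 : ℝ) ≤ L ^ (2 * A5) := one_le_pow₀ hL1'
  have ht : 1 ≤ |t| := hA51.trans ht1
  obtain ⟨s, hs⟩ : ∃ s : ℝ, s = √|t| := ⟨_, rfl⟩
  have hs0 : L ^ A5 ≤ s := by
    rw [hs, Real.le_sqrt' (by positivity), ← pow_mul, mul_comm A5 2]
    exact ht1
  have hsG : s * G ≤ R := by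
    have h1 : s ≤ √((X : ℝ) ^ (1 / 2 - ε)) := by rw [hs]; exact Real.sqrt_le_sqrt ht2
    have h2 : √((X : ℝ) ^ (1 / 2 - ε)) * G = R := by
      rw [Real.sqrt_eq_rpow, ← Real.rpow_mul hX0.le, hG, hR, ← Real.rpow_add hX0]
      congr 1
      ring
    rw [← h2]
    exact mul_le_mul_of_nonneg_right h1 hG0.le
  have hG1' : 1 ≤ G := by
    have := hpow 1 0 (by norm_num) (by linarith) (by omega)
    rw [pow_zero, mul_one] at this
    linarith
  have hs00 : 0 < s := lt_of_lt_of_le (by positivity) hs0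
  have hsR : s ≤ R := (le_mul_of_one_le_right hs00.le hG1').trans hsG
  -- U
  obtain ⟨U, hU⟩ : ∃ U : ℕ, U = ⌈L ^ b⌉₊ := ⟨_, rfl⟩
  have hLb1 : (1 : ℝ) ≤ L ^ b := one_le_pow₀ hL1'
  have hU1 : L ^ b ≤ U := by rw [hU]; exact Nat.le_ceil _
  have hU2 : (U : ℝ) ≤ 2 * L ^ b := by
    have : (U : ℝ) < L ^ b + 1 := by rw [hU]; exact Nat.ceil_lt_add_one (by positivity)
    linarith
  have hUone : 1 ≤ U := by
    have : (1 : ℝ) ≤ U := hLb1.trans hU1
    exact_mod_cast this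
  have hU1' : (1 : ℝ) ≤ U := by exact_mod_cast hUone
  have hd1 : (1 : ℝ) ≤ d := by exact_mod_cast hd
  obtain ⟨η, hη⟩ : ∃ η : ℝ, η = 1 / L ^ e := ⟨_, rfl⟩
  have hη0 : 0 < η := by rw [hη]; positivity
  have hη2 : η ≤ 1 / 2 := by
    rw [hη]
    refine one_div_le_one_div_of_le (by norm_num) ?_
    calc (2 : ℝ) ≤ L := by linarith
      _ = L ^ 1 := (pow_one L).symm
      _ ≤ L ^ e := pow_le_pow_right₀ hL1' (by omega)
  -- logarithms
  have hlog2 : Real.log 2 ≤ 1 := by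
    have := Real.log_two_lt_d9
    linarith
  have hly : Real.log y ≤ 1 + L := by
    calc Real.log y ≤ Real.log (2 * X) := Real.log_le_log hy0 hy2
      _ = Real.log 2 + Real.log X := Real.log_mul (by norm_num) (by positivity)
      _ ≤ 1 + L := by rw [hLdef]; linarith
  have hy1' : 1 ≤ y := by
    have hq1' : (1 : ℝ) ≤ q := by exact_mod_cast hq1
    linarith
  have hly0 : 0 ≤ Real.log y := Real.log_nonneg hy1'
  have hlz : Real.log z ≤ 1 + L := by
    calc Real.log z ≤ Real.log (2 * X) := Real.log_le_log (by linarith) hzX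
      _ = Real.log 2 + Real.log X := Real.log_mul (by norm_num) (by positivity)
      _ ≤ 1 + L := by rw [hLdef]; linarith
  have hlz0 : 0 ≤ Real.log z := Real.log_nonneg hz1
  have hl2z : Real.log (2 * z) ≤ 2 + L := by
    rw [Real.log_mul (by norm_num) (by linarith)]
    linarith
  have hl2z0 : 0 ≤ Real.log (2 * z) := Real.log_nonneg (by linarith)
  have hUdX : (U : ℝ) ^ 2 * d ≤ X := by
    calc (U : ℝ) ^ 2 * d ≤ (2 * L ^ b) ^ 2 * L ^ C₀ := by gcongr
      _ = 4 * L ^ (2 * b + C₀) := by rw [pow_add, mul_comm 2 b, pow_mul]; ring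
      _ ≤ Kc * L ^ N := hpow 4 _ (by norm_num) (by linarith) (by omega)
      _ ≤ R := hG1
      _ ≤ X := by
          rw [← hR4]
          exact (le_mul_of_one_le_left hR0.le hR1').trans (le_mul_of_one_le_right (mul_pos hR0 hR0).le
            (one_le_mul_of_one_le_of_one_le hR1' hR1'))
  have hUd1 : 1 ≤ (U : ℝ) ^ 2 * d := one_le_mul_of_one_le_of_one_le (one_le_pow₀ hU1') hd1
  have hlUd : Real.log ((U : ℝ) ^ 2 * d) ≤ L := by
    rw [hLdef]
    exact Real.log_le_log (by linarith) hUdX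
  have hlUd0 : 0 ≤ Real.log ((U : ℝ) ^ 2 * d) := Real.log_nonneg hUd1
  have hlU : Real.log U ≤ L := by
    refine le_trans (Real.log_le_log (by linarith) ?_) hlUd
    calc (U : ℝ) = U * 1 := (mul_one _).symm
      _ ≤ U * (U * d) := mul_le_mul_of_nonneg_left (one_le_mul_of_one_le_of_one_le hU1' hd1) (by linarith)
      _ = (U : ℝ) ^ 2 * d := by ring
  have hlU0 : 0 ≤ Real.log U := Real.log_nonneg hU1'
  have hrr0 : (0 : ℝ) ≤ r := Nat.cast_nonneg _
  -- the three parts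
  have hp1 := ESmidAux.Mdd_part (θ := (a : ℝ) / r) (y := y) (t := t) (K := KK X Q) (q := q) (d := d) (U := U) hi
  have hp2 := hI y t η a r q (KK X Q) d U i hy1' ht hη0 hη2 hr hq1 hd hi hUone
  have hp3 := hII y t η (1 / L ^ (A + 7)) a r q (KK X Q) d U i ht hη0 hη2 hr hq1 hUone hqy hyK hi (by positivity) (by
    rw [← hz, ← hs]
    refine ESmidAux.num4 hC₂ hb (by omega) (by omega) hL1' (by linarith only [hKcC2, hKL, hC₂]) hU1 hη hrB hs0
      hG0 hsG ?_ hR0 hsz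
    refine le_trans ?_ hG2
    have := hpow (16 * C₂) (5 * e + B + 2 * A + 14) (by positivity) (by linarith only [hKcC2, hC₂]) (by omega)
    linarith only [this])
  rw [← hz] at hp2 hp3
  rw [← hs] at hp2
  have n1 := ESmidAux.num1 (P := P) (b := b) (A := A) hL1' hU2 hlU0 hlU (by
    have := hpow 32 (b + 1 + A) (by norm_num) (by linarith only [hKc1]) (by omega)
    linarith only [this, hG1, hRleP])
  have n2 := ESmidAux.num2 (A := A) (b := b) (e := e) (C₀ := C₀) (B := B) (A5 := A5) hC₁ he (by omega)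
    (by linarith only [hL1]) (by linarith only [hKcC1, hKL, hC₁]) (by linarith only [hU1']) hU2
    (by linarith only [hd1]) hdL hη hrr0 hrB hs0 hsR (by
      have := hpow (2 * C₁) (6 * e + B) (by positivity) (by linarith only [hKcC1, hC₁]) (by omega)
      linarith only [this, hG1]) hRP (by
      have := hpow 1 e (by norm_num) (by linarith only [hKc1]) (by omega)
      linarith only [this, hG1, hRleP]) (by linarith only [hz1]) hzP hlUd0 hlUd hly0 hly
  have n3 := ESmidAux.num3 (L := L) (P := P) (z := z) (lz := Real.log z) (l2z := Real.log (2 * z)) (A := A)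
    (by linarith only [hL1]) (by linarith only [hz1]) hzP (by linarith only [hlz, hL1]) hl2z0
    (by linarith only [hl2z, hL1])
  have hdec := ESmidAux.ES_decomp d U i (KK X Q) q ((a : ℝ) / r) y t hd
  have hPA : 0 ≤ P / L ^ A := by positivity
  linarith only [hp1, hp2, hp3, n1, n2, n3, hdec, hPA]

end Pool.Agent.SInt
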