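import Pool.Agent.SInt.MVT
import Pool.Agent.SInt.TauP

open Finset Complex
open scoped ArithmeticFunction.Moebius ArithmeticFunction.vonMangoldt

namespace Pool.Agent.SInt

open Pool.Agent.ANT

private lemma badT_cont (a : ℕ → ℂ) (Z : ℕ) : Continuous (fun t : ℝ => Fh a Z t) := by
  unfold Fh
  fun_prop

private lemma badT_sum (k : ℕ) (hk : 1 ≤ k) (ℓ : ℕ) (B : ℝ) (a : ℕ → ℂ) (hℓ : 1 ≤ ℓ) (hB : 0 ≤ B)
    (ha : ∀ n, ‖a n‖ ≤ B) (hs : ∀ n, n ∉ Ico ℓ (2 * ℓ) → a n = 0) :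
    ∑ n ∈ Icc 1 ((2 * ℓ) ^ k), ‖(afun a ^ k) n‖ ^ 2 / (n : ℝ) ^ 2 ≤
      B ^ (2 * k) / (ℓ : ℝ) ^ k * ((k : ℝ) * (1 + Real.log (2 * ℓ))) ^ (4 ^ k) := by
  have hℓ' : (1 : ℝ) ≤ ℓ := by exact_mod_cast hℓ
  have hk' : (1 : ℝ) ≤ k := by exact_mod_cast hk
  have h1 : ∀ n ∈ Icc 1 ((2 * ℓ) ^ k), ‖(afun a ^ k) n‖ ^ 2 / (n : ℝ) ^ 2 ≤
      B ^ (2 * k) / (ℓ : ℝ) ^ k * (tauR n ^ (2 * k) / n) := by
    intro n hn
    have hτ := tauR_nonneg n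
    by_cases h : n < ℓ ^ k
    · rw [afun_pow_zero hs k n (Or.inl h)]
      simp only [norm_zero, ne_eq, OfNat.ofNat_ne_zero, not_false_eq_true, zero_pow, zero_div]
      positivity
    · push Not at h
      have hb := norm_afun_pow_le hB ha k n hk
      have hn0 : (0 : ℝ) < n := by
        have := (Finset.mem_Icc.mp hn).1
        exact_mod_cast this
      have hnk : (ℓ : ℝ) ^ k ≤ n := by exact_mod_cast h
      have h2 : ‖(afun a ^ k) n‖ ^ 2 ≤ B ^ (2 * k) * tauR n ^ (2 * k) := by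
        calc ‖(afun a ^ k) n‖ ^ 2 ≤ (B ^ k * tauR n ^ k) ^ 2 := by gcongr
          _ = _ := by ring
      have hℓk : (0 : ℝ) < (ℓ : ℝ) ^ k := by positivity
      calc ‖(afun a ^ k) n‖ ^ 2 / (n : ℝ) ^ 2 ≤ B ^ (2 * k) * tauR n ^ (2 * k) / (n : ℝ) ^ 2 := by
            gcongr
        _ = B ^ (2 * k) * (tauR n ^ (2 * k) / n) / n := by
            field_simp
        _ ≤ B ^ (2 * k) * (tauR n ^ (2 * k) / n) / (ℓ : ℝ) ^ k := by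
            gcongr
        _ = _ := by ring
  have hlog : 0 ≤ Real.log (2 * ℓ) := Real.log_nonneg (by linarith)
  calc ∑ n ∈ Icc 1 ((2 * ℓ) ^ k), ‖(afun a ^ k) n‖ ^ 2 / (n : ℝ) ^ 2
      ≤ ∑ n ∈ Icc 1 ((2 * ℓ) ^ k), B ^ (2 * k) / (ℓ : ℝ) ^ k * (tauR n ^ (2 * k) / n) :=
        Finset.sum_le_sum h1
    _ = B ^ (2 * k) / (ℓ : ℝ) ^ k * ∑ n ∈ Icc 1 ((2 * ℓ) ^ k), tauR n ^ (2 * k) / n := by
        rw [Finset.mul_sum]
    _ ≤ B ^ (2 * k) / (ℓ : ℝ) ^ k * Hs ((2 * ℓ) ^ k) ^ (2 ^ (2 * k)) := by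
        gcongr
        exact sum_tau_pow_div_le _ _
    _ ≤ B ^ (2 * k) / (ℓ : ℝ) ^ k * ((k : ℝ) * (1 + Real.log (2 * ℓ))) ^ (4 ^ k) := by
        have h4 : (2 : ℕ) ^ (2 * k) = 4 ^ k := by rw [pow_mul]; norm_num
        rw [h4]
        have hH : Hs ((2 * ℓ) ^ k) ≤ (k : ℝ) * (1 + Real.log (2 * ℓ)) := by
          have := Hs_le ((2 * ℓ) ^ k)
          push_cast at this
          rw [Real.log_pow] at this
          nlinarith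
        have := Hs_nonneg ((2 * ℓ) ^ k)
        gcongr

open MeasureTheory in
/-- Large values of a Dirichlet polynomial. -/
theorem badT (k : ℕ) (hk : 1 ≤ k) : ∃ (C : ℝ) (E : ℕ), 0 < C ∧ ∀ (ℓ : ℕ) (T B V : ℝ) (a : ℕ → ℂ), 1 ≤ ℓ →
    0 < T → T ≤ (ℓ : ℝ) ^ k → 0 ≤ B → 0 < V → (∀ n, ‖a n‖ ≤ B) → (∀ n, n ∉ Ico ℓ (2 * ℓ) → a n = 0) →
    (volume {t : ℝ | |t| ≤ T ∧ V ≤ ‖Fh a (2 * ℓ) t‖}).toReal ≤ C * (B / V) ^ (2 * k) * (1 + Real.log (2 * ℓ)) ^ E := by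
  obtain ⟨C, hC, hmv⟩ := mvt
  have hk' : (1 : ℝ) ≤ k := by exact_mod_cast hk
  refine ⟨C * 2 ^ k * (k : ℝ) ^ (4 ^ k), 4 ^ k, by positivity, ?_⟩
  intro ℓ T B V a hℓ hT hTl hB hV ha hs
  have hℓ' : (1 : ℝ) ≤ ℓ := by exact_mod_cast hℓ
  have hint : IntegrableOn (fun t => ‖Fh a (2 * ℓ) t‖ ^ (2 * k)) (Set.Icc (-T) T) volume := by
    apply Continuous.integrableOn_Icc
    exact ((badT_cont a (2 * ℓ)).norm).pow _
  have hnn : 0 ≤ᵐ[volume.restrict (Set.Icc (-T) T)] (fun t => ‖Fh a (2 * ℓ) t‖ ^ (2 * k)) :=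
    ae_of_all _ fun t => by positivity
  have hcheb := mul_meas_ge_le_integral_of_nonneg hnn hint (V ^ (2 * k))
  have hset : (volume.restrict (Set.Icc (-T) T)).real {t | V ^ (2 * k) ≤ ‖Fh a (2 * ℓ) t‖ ^ (2 * k)} =
      (volume {t : ℝ | |t| ≤ T ∧ V ≤ ‖Fh a (2 * ℓ) t‖}).toReal := by
    rw [Measure.real, Measure.restrict_apply]
    · congr 2
      ext t
      simp only [Set.mem_inter_iff, Set.mem_setOf_eq, Set.mem_Icc, abs_le]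
      constructor
      · rintro ⟨h1, h2⟩
        refine ⟨h2, ?_⟩
        exact le_of_pow_le_pow_left₀ (by omega) (norm_nonneg _) h1
      · rintro ⟨h1, h2⟩
        exact ⟨by gcongr, h1⟩
    · apply measurableSet_le measurable_const
      exact (((badT_cont a (2 * ℓ)).norm).pow _).measurable
  rw [hset] at hcheb
  have hpow : ∀ t : ℝ, ‖Fh a (2 * ℓ) t‖ ^ (2 * k) =
      ‖Fh (fun n => (afun a ^ k) n) ((2 * ℓ) ^ k) t‖ ^ 2 := by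
    intro t
    rw [← Fh_pow hs k t, norm_pow, ← pow_mul, mul_comm k 2]
  simp_rw [hpow] at hcheb
  have h1 := hmv ((2 * ℓ) ^ k) T (fun n => (afun a ^ k) n) hT
  have h2 := badT_sum k hk ℓ B a hℓ hB ha hs
  have hmax : max T (((2 * ℓ) ^ k : ℕ) : ℝ) ≤ 2 ^ k * (ℓ : ℝ) ^ k := by
    apply max_le
    · have : (1 : ℝ) ≤ 2 ^ k := one_le_pow₀ (by norm_num)
      have h3 : (0 : ℝ) < (ℓ : ℝ) ^ k := by positivity
      nlinarith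
    · push_cast
      rw [mul_pow]
  have hlog : 0 ≤ Real.log (2 * ℓ) := Real.log_nonneg (by linarith)
  have h5 : V ^ (2 * k) * (volume {t : ℝ | |t| ≤ T ∧ V ≤ ‖Fh a (2 * ℓ) t‖}).toReal ≤
      C * 2 ^ k * (k : ℝ) ^ (4 ^ k) * B ^ (2 * k) * (1 + Real.log (2 * ℓ)) ^ (4 ^ k) := by
    calc V ^ (2 * k) * (volume {t : ℝ | |t| ≤ T ∧ V ≤ ‖Fh a (2 * ℓ) t‖}).toReal
        ≤ _ := hcheb
      _ ≤ _ := h1
      _ ≤ C * (2 ^ k * (ℓ : ℝ) ^ k) *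
          (B ^ (2 * k) / (ℓ : ℝ) ^ k * ((k : ℝ) * (1 + Real.log (2 * ℓ))) ^ (4 ^ k)) := by
          gcongr
      _ = _ := by
          rw [mul_pow (k : ℝ)]
          have h3 : (ℓ : ℝ) ^ k ≠ 0 := by positivity
          field_simp
  have hVk : 0 < V ^ (2 * k) := by positivity
  rw [div_pow]
  calc (volume {t : ℝ | |t| ≤ T ∧ V ≤ ‖Fh a (2 * ℓ) t‖}).toReal
      = V ^ (2 * k) * (volume {t : ℝ | |t| ≤ T ∧ V ≤ ‖Fh a (2 * ℓ) t‖}).toReal / V ^ (2 * k) := by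
        field_simp
    _ ≤ C * 2 ^ k * (k : ℝ) ^ (4 ^ k) * B ^ (2 * k) * (1 + Real.log (2 * ℓ)) ^ (4 ^ k) /
          V ^ (2 * k) := by gcongr
    _ = _ := by ring

end Pool.Agent.SInt
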