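import Pool.Agent.SInt.Asy
import Pool.Agent.DEH.Count

open Finset Complex
open scoped ArithmeticFunction.Moebius ArithmeticFunction.vonMangoldt

namespace Pool.Agent.SInt

open Pool.Agent.ANT

private lemma DavC_partial {m : ℕ} {C : ℝ} (hC : 0 < C)
    (h : ∀ (q X : ℕ), 1 ≤ q → ∀ α : ℝ,
      ‖∑ n ∈ Finset.Ioc 0 X, (if q ∣ n then muC n * ee (n * α) else 0)‖ ≤
      C * 4 ^ q.primeFactors.card * phim m ((X / q : ℕ) : ℝ))
    {d : ℕ} (hd : 1 ≤ d) {K : ℕ} (θ : ℝ) {u : ℕ} (hu : u ≤ K) :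
    ‖∑ k ∈ Finset.Ioc 0 u, muC (d * k) * ee (k * θ)‖ ≤
      C * 4 ^ d.primeFactors.card * phim m (K : ℝ) := by
  have h1 := h d (d * u) hd (θ / d)
  rw [Pool.Agent.DEH.sum_multiples hd (fun n => muC n * ee (n * (θ / d)))] at h1
  have hdu : d * u / d = u := Nat.mul_div_cancel_left u hd
  rw [hdu] at h1
  have hd0 : (d : ℝ) ≠ 0 := by
    have : (0 : ℝ) < d := by exact_mod_cast hd
    exact this.ne'
  have e1 : ∑ k ∈ Finset.Ioc 0 u, muC (d * k) * ee (k * θ) =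
      ∑ k ∈ Finset.Ioc 0 u, muC (d * k) * ee (((d * k : ℕ) : ℝ) * (θ / d)) := by
    refine Finset.sum_congr rfl fun k _ => ?_
    have : ((d * k : ℕ) : ℝ) * (θ / d) = k * θ := by
      push_cast
      field_simp
    rw [this]
  rw [e1]
  refine h1.trans ?_
  have := phim_nat_mono m hu
  gcongr

private lemma DavC_log {b : ℕ → ℂ} {K : ℕ} {T : ℝ}
    (hpart : ∀ u, u ≤ K → ‖∑ n ∈ Finset.Ioc 0 u, b n‖ ≤ T) {u : ℕ} (hu : u ≤ K) (hu1 : 1 ≤ u) :
    ‖∑ n ∈ Finset.Ioc 0 u, b n * (Real.log n : ℂ)‖ ≤ 2 * Real.log u * T := by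
  have hlu : 0 ≤ Real.log u := Real.log_natCast_nonneg u
  set w : ℕ → ℝ := fun n => max (Real.log u - Real.log n) 0 with hw
  have h1 : ‖∑ n ∈ Finset.Ioc 0 u, b n * (w n : ℂ)‖ ≤ T * w 1 := by
    refine abel_Ioc (fun n _ => le_max_right _ _) (fun n hn => ?_)
      (fun v hv => hpart v (hv.trans hu))
    refine max_le_max ?_ le_rfl
    have : Real.log n ≤ Real.log ((n+1:ℕ):ℝ) :=
      Real.log_le_log (by exact_mod_cast hn) (by push_cast; linarith)
    linarith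
  have hw1 : w 1 = Real.log u := by
    rw [hw]; simp [hlu]
  have h2 : ∑ n ∈ Finset.Ioc 0 u, b n * (Real.log n : ℂ) =
      (Real.log u : ℂ) * ∑ n ∈ Finset.Ioc 0 u, b n - ∑ n ∈ Finset.Ioc 0 u, b n * (w n : ℂ) := by
    rw [Finset.mul_sum, ← Finset.sum_sub_distrib]
    refine Finset.sum_congr rfl fun n hn => ?_
    obtain ⟨hn1, hn2⟩ := Finset.mem_Ioc.mp hn
    have : w n = Real.log u - Real.log n := by
      rw [hw]
      refine max_eq_left (sub_nonneg.mpr (Real.log_le_log (by exact_mod_cast hn1) ?_))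
      exact_mod_cast hn2
    rw [this]
    push_cast; ring
  rw [h2]
  calc _ ≤ ‖(Real.log u : ℂ) * ∑ n ∈ Finset.Ioc 0 u, b n‖ + ‖∑ n ∈ Finset.Ioc 0 u, b n * (w n : ℂ)‖ :=
        norm_sub_le _ _
    _ ≤ Real.log u * T + T * w 1 := by
        refine add_le_add ?_ h1
        rw [norm_mul, Complex.norm_real, Real.norm_of_nonneg hlu]
        exact mul_le_mul_of_nonneg_left (hpart u hu) hlu
    _ = 2 * Real.log u * T := by rw [hw1]; ring

private lemma DavC_T {ε' : ℝ} {A C₀ m : ℕ} (hm : (A : ℝ) + 2 * C₀ + 3 ≤ m * ε')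
    {C : ℝ} (hC : 0 < C) {X Q d K : ℕ} (hL : 1 ≤ Real.log X) (hX : 0 < X)
    (hM : Md ε' X Q) (hK1 : 4 * (X : ℝ) / Q ≤ K) (hK2 : (K : ℝ) ≤ 5 * X / Q)
    (hd : 1 ≤ d) (hd2 : (d : ℝ) ≤ Real.log X ^ C₀) :
    C * 4 ^ d.primeFactors.card * phim m (K : ℝ) ≤ 5 * C * (X / Q) / Real.log X ^ (A + 3) := by
  obtain ⟨hQ1, hQ2⟩ := hM
  have hX0 : (0 : ℝ) < X := by exact_mod_cast hX
  have hQ0 : (0 : ℝ) < Q := by exact_mod_cast hQ1
  have hL0 : 0 < Real.log X := by linarith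
  set L := Real.log X with hLdef
  have hXQ : Real.exp (L ^ ε') ≤ X / Q := by
    rw [le_div_iff₀ hQ0]
    calc Real.exp (L ^ ε') * Q ≤ Real.exp (L ^ ε') * (X * Real.exp (-L ^ ε')) := by gcongr
      _ = X * (Real.exp (L ^ ε') * Real.exp (-L ^ ε')) := by ring
      _ = X := by rw [← Real.exp_add]; simp
  have hXQ0 : (0 : ℝ) < X / Q := by positivity
  have hK0 : (X : ℝ) / Q ≤ K := by
    refine le_trans ?_ hK1
    rw [mul_div_assoc]
    linarith
  have hKpos : (0 : ℝ) < K := lt_of_lt_of_le hXQ0 hK0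
  have hlK : L ^ ε' ≤ Real.log K := by
    have := Real.log_le_log (Real.exp_pos _) (hXQ.trans hK0)
    rwa [Real.log_exp] at this
  have hLe : 0 < L ^ ε' := Real.rpow_pos_of_pos hL0 _
  have hden : L ^ (A + 2 * C₀ + 3) ≤ (2 * (m : ℝ) + Real.log K) ^ m := by
    calc L ^ (A + 2 * C₀ + 3) = L ^ ((A : ℝ) + 2 * C₀ + 3) := by
          rw [← Real.rpow_natCast]; congr 1; push_cast; ring
      _ ≤ L ^ (m * ε') := Real.rpow_le_rpow_of_exponent_le hL hm
      _ = (L ^ ε') ^ m := by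
          rw [← Real.rpow_natCast, ← Real.rpow_mul hL0.le]; congr 1; ring
      _ ≤ (2 * (m : ℝ) + Real.log K) ^ m := by
          gcongr
          have : (0 : ℝ) ≤ m := Nat.cast_nonneg m
          linarith
  have hphi : phim m (K : ℝ) ≤ 5 * (X / Q) / L ^ (A + 2 * C₀ + 3) := by
    unfold phim
    have h5 : (K : ℝ) ≤ 5 * (X / Q) := by rw [← mul_div_assoc]; exact hK2
    gcongr
  have h4 : (4 : ℝ) ^ d.primeFactors.card ≤ L ^ (2 * C₀) := by
    have h1 : ((2:ℝ)) ^ d.primeFactors.card ≤ d := by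
      exact_mod_cast two_pow_card_primeFactors_le (show d ≠ 0 by omega)
    calc (4 : ℝ) ^ d.primeFactors.card = (2 ^ d.primeFactors.card) ^ 2 := by
          rw [← pow_mul, mul_comm, pow_mul]; norm_num
      _ ≤ (L ^ C₀) ^ 2 := by
          gcongr
          exact h1.trans hd2
      _ = L ^ (2 * C₀) := by rw [← pow_mul]; congr 1; ring
  calc C * 4 ^ d.primeFactors.card * phim m (K : ℝ)
      ≤ C * L ^ (2 * C₀) * (5 * (X / Q) / L ^ (A + 2 * C₀ + 3)) := by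
        have := phim_nat_nonneg m K
        gcongr
    _ = 5 * C * (X / Q) / L ^ (A + 3) := by
        rw [show A + 2 * C₀ + 3 = 2 * C₀ + (A + 3) by ring, pow_add]
        field_simp

/-- Davenport's bound for `μ(dk) (log k)^i`. -/
theorem davC {ε' : ℝ} (hε' : 0 < ε') (A C₀ : ℕ) : ∃ X₀ : ℕ, ∀ X : ℕ, X₀ ≤ X → ∀ Q : ℕ, Md ε' X Q →
    ∀ d : ℕ, 1 ≤ d → (d : ℝ) ≤ Real.log X ^ C₀ → ∀ i : ℕ, i ≤ 1 → ∀ u : ℕ, u ≤ KK X Q → ∀ θ : ℝ,
    ‖∑ k ∈ Icc 1 u, cc d i k * ee (k * θ)‖ ≤ X / Q / Real.log X ^ A := by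
  obtain ⟨m, hm⟩ : ∃ m : ℕ, ((A : ℝ) + 2 * C₀ + 3) ≤ m * ε' := by
    obtain ⟨m, hm⟩ := exists_nat_ge (((A : ℝ) + 2 * C₀ + 3) / ε')
    refine ⟨m, ?_⟩
    rwa [div_le_iff₀ hε'] at hm
  obtain ⟨C, hC, h⟩ := Pool.Agent.DEH.mu_mult_bound m
  obtain ⟨X₁, hX₁⟩ := md_facts ε' hε' 0
  obtain ⟨X₂, hX₂⟩ := exists_nat_ge (Real.exp (20 * C + 1))
  refine ⟨max X₁ X₂, ?_⟩
  intro X hX Q hM d hd hd2 i hi u hu θ
  obtain ⟨hQX, -, hK1, hK2, -, hlK⟩ := hX₁ X (le_trans (le_max_left _ _) hX) Q hM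
  have hXe : Real.exp (20 * C + 1) ≤ X := by
    refine hX₂.trans ?_
    exact_mod_cast le_trans (le_max_right _ _) hX
  have hX0 : (0 : ℝ) < X := lt_of_lt_of_le (Real.exp_pos _) hXe
  have hXn : 0 < X := by exact_mod_cast hX0
  have hL : 20 * C + 1 ≤ Real.log X := by
    have := Real.log_le_log (Real.exp_pos _) hXe
    rwa [Real.log_exp] at this
  have hL1 : 1 ≤ Real.log X := by linarith
  have hL0 : 0 < Real.log X := by linarith
  have hT := DavC_T (A := A) (C₀ := C₀) hm hC hL1 hXn hM hK1 hK2 hd hd2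
  set K := KK X Q with hKdef
  set T := C * 4 ^ d.primeFactors.card * phim m (K : ℝ) with hTdef
  have hQ0 : (0 : ℝ) < Q := by
    have := hM.1
    exact_mod_cast this
  have hpart : ∀ u, u ≤ K → ‖∑ k ∈ Finset.Ioc 0 u, muC (d * k) * ee (k * θ)‖ ≤ T :=
    fun u hu => DavC_partial hC h hd θ hu
  have hT0 : 0 ≤ T := by
    have := phim_nat_nonneg m K
    positivity
  have hfin : 4 * Real.log X * T ≤ X / Q / Real.log X ^ A := by
    calc 4 * Real.log X * T ≤ 4 * Real.log X * (5 * C * (X / Q) / Real.log X ^ (A + 3)) := by gcongr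
      _ = (20 * C / Real.log X ^ 2) * (X / Q / Real.log X ^ A) := by
          rw [pow_add]
          field_simp
          ring
      _ ≤ 1 * (X / Q / Real.log X ^ A) := by
          gcongr
          rw [div_le_one (by positivity)]
          nlinarith
      _ = _ := one_mul _
  have hI : Icc 1 u = Ioc 0 u := by
    ext n
    simp [Finset.mem_Icc, Finset.mem_Ioc, Nat.succ_le_iff]
  rw [hI]
  rcases Nat.eq_zero_or_pos u with rfl | hu1
  · simp
    positivity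
  have hlu : Real.log u ≤ 2 * Real.log X := by
    refine le_trans (Real.log_le_log (by exact_mod_cast hu1) ?_) hlK
    exact_mod_cast hu
  interval_cases i
  · have e1 : ∑ k ∈ Finset.Ioc 0 u, cc d 0 k * ee (k * θ) =
        ∑ k ∈ Finset.Ioc 0 u, muC (d * k) * ee (k * θ) := by
      refine Finset.sum_congr rfl fun k _ => ?_
      simp [cc]
    rw [e1]
    refine (hpart u hu).trans (le_trans ?_ hfin)
    nlinarith
  · have e1 : ∑ k ∈ Finset.Ioc 0 u, cc d 1 k * ee (k * θ) =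
        ∑ k ∈ Finset.Ioc 0 u, (muC (d * k) * ee (k * θ)) * (Real.log k : ℂ) := by
      refine Finset.sum_congr rfl fun k _ => ?_
      simp only [cc, pow_one]
      ring
    rw [e1]
    refine (DavC_log hpart hu hu1).trans (le_trans ?_ hfin)
    have : Real.log u * T ≤ 2 * Real.log X * T := by gcongr
    linarith

end Pool.Agent.SInt
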