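import Pool.Agent.SInt.TIaver
import Pool.Agent.SInt.DavC
import Pool.Agent.SInt.TTb
import Pool.Agent.SInt.Asy

open Finset Complex
open scoped ArithmeticFunction.Moebius ArithmeticFunction.vonMangoldt

namespace Pool.Agent.SInt

open Pool.Agent.ANT

private theorem MajTI_Icc (N : ℕ) : Icc 1 N = Ioc 0 N := by
  ext x
  simp only [mem_Icc, mem_Ioc]
  omega

/-- the main term of the local average -/
private noncomputable def MajTI_main (α : ℕ → ℂ) (j D r Z : ℕ) (v : ℤ) : ℂ :=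
  ∑ m ∈ Icc 1 Z, α m * (if r ∣ m then (((1 : ℝ) / m * JJ j D m v : ℝ) : ℂ) else 0)

private theorem MajTI_LAh (α : ℕ → ℂ) (j D r a Z : ℕ) (v : ℤ) :
    LAh (fun n => cv α (fun l => ((Real.log l ^ j : ℝ) : ℂ)) n * ee (-(a * n / r))) Z D v =
      ∑ m ∈ Icc 1 Z, α m * ∑ l ∈ Icc 1 (Z / m), ((Real.log l ^ j : ℝ) : ℂ) *
        ee (-((a : ℝ) * ((m * l : ℕ) : ℝ) / r)) * ((GD D ((v : ℝ) - m * l) : ℝ) : ℂ) := by
  have h := sum_pairs' (fun m l => α m * (((Real.log l ^ j : ℝ) : ℂ) *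
        ee (-((a : ℝ) * ((m * l : ℕ) : ℝ) / r)) * ((GD D ((v : ℝ) - m * l) : ℝ) : ℂ))) Z
  rw [MajTI_Icc]
  simp only [MajTI_Icc, Finset.mul_sum]
  rw [← h]
  unfold LAh
  rw [MajTI_Icc]
  refine Finset.sum_congr rfl fun n hn => ?_
  unfold cv
  beta_reduce
  rw [Finset.sum_mul, Finset.sum_mul]
  refine Finset.sum_congr rfl fun p hp => ?_
  have hp' := (Nat.mem_divisorsAntidiagonal.mp hp).1
  have hp2 : (n : ℝ) = (p.1 : ℝ) * p.2 := by rw [← hp']; push_cast; ring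
  rw [hp2]
  push_cast
  ring_nf

private theorem MajTI_err {C : ℝ} (hC : ∀ (m r a Z D i : ℕ) (v : ℤ), 1 ≤ m → 1 ≤ r → a.Coprime r → i ≤ 1 →
    1 ≤ D → 1 ≤ Z → v + D ≤ Z →
    ‖∑ l ∈ Icc 1 (Z / m), ((Real.log l ^ i : ℝ) : ℂ) * ee (-((a : ℝ) * ((m * l : ℕ) : ℝ) / r)) *
        ((GD D ((v : ℝ) - m * l) : ℝ) : ℂ) -
      (if r ∣ m then (((1 : ℝ) / m * JJ i D m v : ℝ) : ℂ) else 0)‖ ≤ C * r * (1 + Real.log Z) / D)
    (α : ℕ → ℂ) {j D r a Z : ℕ} (hr : 1 ≤ r) (har : a.Coprime r) (hj : j ≤ 1) (hD : 1 ≤ D) (hZ : 1 ≤ Z)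
    {v : ℤ} (hv : v + D ≤ Z) :
    ‖LAh (fun n => cv α (fun l => ((Real.log l ^ j : ℝ) : ℂ)) n * ee (-(a * n / r))) Z D v -
      MajTI_main α j D r Z v‖ ≤ (∑ m ∈ Icc 1 Z, ‖α m‖) * (C * r * (1 + Real.log Z) / D) := by
  rw [MajTI_LAh, MajTI_main, ← Finset.sum_sub_distrib, Finset.sum_mul]
  refine (norm_sum_le _ _).trans (Finset.sum_le_sum fun m hm => ?_)
  rw [← mul_sub, norm_mul]
  exact mul_le_mul_of_nonneg_left (hC m r a Z D j v (Finset.mem_Icc.mp hm).1 hr har hj hD hZ hv)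
    (norm_nonneg _)

private theorem MajTI_inner {j D m Z K q : ℕ} {N : ℕ} {c : ℕ → ℂ} {P : ℝ} (hj : j ≤ 1) (hD : 1 ≤ D)
    (hm : 1 ≤ m) (hZ : 1 ≤ Z) (hN : (N : ℤ) + D ≤ Z)
    (hP : ∀ u, u ≤ K → ‖∑ k ∈ Icc 1 u, c k‖ ≤ P) :
    ‖∑ k ∈ Icc 1 K, c k * ((JJ j D m ((N : ℤ) - q * k) : ℝ) : ℂ)‖ ≤ P * (1 + Real.log Z) := by
  have hP0 : 0 ≤ P := (norm_nonneg _).trans (hP 0 (Nat.zero_le _))
  have h := abel_Ioc (b := c) (w := fun k => JJ j D m ((N : ℤ) - q * k)) (X := K) (B := P)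
    (fun k _ => JJ_nonneg hm _)
    (fun k _ => JJ_mono hj hD hm (by push_cast; nlinarith [Nat.zero_le q]))
    (fun u hu => by rw [← MajTI_Icc]; exact hP u hu)
  rw [MajTI_Icc]
  refine h.trans (mul_le_mul_of_nonneg_left ?_ hP0)
  apply JJ_le hj hD hm hZ
  push_cast
  have : (0 : ℤ) ≤ q := by positivity
  linarith

private theorem MajTI_EG {j D r Z K q : ℕ} {N : ℕ} {c : ℕ → ℕ → ℂ} {α : ℕ → ℂ} {P : ℝ} (hj : j ≤ 1) (hD : 1 ≤ D)
    (hZ : 1 ≤ Z) (hN : (N : ℤ) + D ≤ Z)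
    (hP : ∀ u, u ≤ K → ‖∑ k ∈ Icc 1 u, c q k‖ ≤ P) :
    ‖EG c K (MajTI_main α j D r Z) N q‖ ≤ (∑ m ∈ Icc 1 Z, ‖α m‖ / m) * (P * (1 + Real.log Z)) := by
  have hP0 : 0 ≤ P := (norm_nonneg _).trans (hP 0 (Nat.zero_le _))
  have hlZ : 0 ≤ Real.log Z := Real.log_nonneg (by exact_mod_cast hZ)
  have e : EG c K (MajTI_main α j D r Z) N q = ∑ m ∈ Icc 1 Z, α m * (if r ∣ m then
      (((1 : ℝ) / m : ℝ) : ℂ) * ∑ k ∈ Icc 1 K, c q k * ((JJ j D m ((N : ℤ) - q * k) : ℝ) : ℂ) else 0) := by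
    unfold EG MajTI_main
    simp only [Finset.mul_sum]
    rw [Finset.sum_comm]
    refine Finset.sum_congr rfl fun m _ => ?_
    split_ifs with h
    · rw [Finset.mul_sum]
      refine Finset.sum_congr rfl fun k _ => ?_
      push_cast
      ring
    · simp
  rw [e, Finset.sum_mul]
  refine (norm_sum_le _ _).trans (Finset.sum_le_sum fun m hm => ?_)
  have hm1 := (Finset.mem_Icc.mp hm).1
  have hmR : (0 : ℝ) < m := by exact_mod_cast hm1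
  rw [norm_mul]
  split_ifs with h
  · rw [norm_mul, Complex.norm_real, Real.norm_of_nonneg (by positivity)]
    have hi := MajTI_inner (q := q) hj hD hm1 hZ hN hP
    calc ‖α m‖ * (1 / m * ‖∑ k ∈ Icc 1 K, c q k * ((JJ j D m ((N : ℤ) - q * k) : ℝ) : ℂ)‖)
        ≤ ‖α m‖ * (1 / m * (P * (1 + Real.log Z))) := by gcongr
      _ = ‖α m‖ / m * (P * (1 + Real.log Z)) := by ring
  · rw [norm_zero, mul_zero]
    positivity

private theorem MajTI_sum_alpha {X : ℕ} {L : ℝ} (hL : 0 ≤ L) {α : ℕ → ℂ} (hα : ∀ m, ‖α m‖ ≤ 2 * L)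
    (hα0 : ∀ m : ℕ, (X : ℝ) ^ (1 / 8 : ℝ) < m → α m = 0) (Z : ℕ) :
    ∑ m ∈ Icc 1 Z, ‖α m‖ ≤ 2 * L * (X : ℝ) ^ (1 / 8 : ℝ) := by
  have hx : (0 : ℝ) ≤ (X : ℝ) ^ (1 / 8 : ℝ) := by positivity
  have h1 : ∑ m ∈ Icc 1 Z, ‖α m‖ ≤ ∑ m ∈ Icc 1 ⌊(X : ℝ) ^ (1 / 8 : ℝ)⌋₊, (2 * L) := by
    rw [← Finset.sum_filter_add_sum_filter_not (Icc 1 Z) (fun m : ℕ => (m : ℝ) ≤ (X : ℝ) ^ (1 / 8 : ℝ))]
    have h2 : ∑ m ∈ (Icc 1 Z).filter (fun m : ℕ => ¬ ((m : ℝ) ≤ (X : ℝ) ^ (1 / 8 : ℝ))), ‖α m‖ = 0 := by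
      refine Finset.sum_eq_zero fun m hm => ?_
      rw [Finset.mem_filter] at hm
      rw [hα0 m (not_le.mp hm.2), norm_zero]
    rw [h2, add_zero]
    calc ∑ m ∈ (Icc 1 Z).filter (fun m : ℕ => (m : ℝ) ≤ (X : ℝ) ^ (1 / 8 : ℝ)), ‖α m‖
        ≤ ∑ m ∈ (Icc 1 Z).filter (fun m : ℕ => (m : ℝ) ≤ (X : ℝ) ^ (1 / 8 : ℝ)), 2 * L :=
          Finset.sum_le_sum fun m _ => hα m
      _ ≤ _ := by
          refine Finset.sum_le_sum_of_subset_of_nonneg ?_ fun _ _ _ => by positivity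
          intro m hm
          rw [Finset.mem_filter, Finset.mem_Icc] at hm
          rw [Finset.mem_Icc]
          exact ⟨hm.1.1, Nat.le_floor hm.2⟩
  refine h1.trans ?_
  rw [Finset.sum_const, Nat.card_Icc, nsmul_eq_mul, mul_comm (2 * L)]
  have h3 : ((⌊(X : ℝ) ^ (1 / 8 : ℝ)⌋₊ + 1 - 1 : ℕ) : ℝ) ≤ (X : ℝ) ^ (1 / 8 : ℝ) := by
    rw [Nat.add_sub_cancel]
    exact Nat.floor_le hx
  exact mul_le_mul_of_nonneg_right h3 (by positivity)

private theorem MajTI_sum_alpha' {L : ℝ} (hL : 0 ≤ L) {α : ℕ → ℂ} (hα : ∀ m, ‖α m‖ ≤ 2 * L) (Z : ℕ) :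
    ∑ m ∈ Icc 1 Z, ‖α m‖ / m ≤ 2 * L * (1 + Real.log Z) := by
  calc ∑ m ∈ Icc 1 Z, ‖α m‖ / m ≤ ∑ m ∈ Icc 1 Z, 2 * L * ((m : ℝ))⁻¹ := by
        refine Finset.sum_le_sum fun m hm => ?_
        rw [div_eq_mul_inv]
        exact mul_le_mul_of_nonneg_right (hα m) (by positivity)
    _ = 2 * L * ∑ m ∈ Icc 1 Z, ((m : ℝ))⁻¹ := by rw [Finset.mul_sum]
    _ ≤ _ := by
        refine mul_le_mul_of_nonneg_left ?_ (by positivity)
        have h := harmonic_le_one_add_log Z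
        rw [harmonic_eq_sum_Icc] at h
        push_cast at h
        exact h

/-- Major arcs, type I part. -/
theorem major_typeI {ε ε' : ℝ} (hε : 0 < ε) (hε' : 0 < ε') (A C₀ B : ℕ) : ∃ X₀ : ℕ, ∀ X : ℕ, X₀ ≤ X →
    ∀ W : ℕ, Win ε X W → ∀ Q : ℕ, Md ε' X Q → ∀ d : ℕ, 1 ≤ d → (d : ℝ) ≤ Real.log X ^ C₀ →
    ∀ i : ℕ, i ≤ 1 → ∀ r a : ℕ, 1 ≤ r → r ≤ RR B X → a.Coprime r → ∀ j : ℕ, j ≤ 1 →
    ∀ α : ℕ → ℂ, (∀ m, ‖α m‖ ≤ 2 * Real.log X) → (∀ m : ℕ, (X : ℝ) ^ (1 / 8 : ℝ) < m → α m = 0) →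
    TT W X (Ico Q (2 * Q)) (ct (cc d i) ((a : ℝ) / r)) (KK X Q)
      (LAh (fun n => cv α (fun l => ((Real.log l ^ j : ℝ) : ℂ)) n * ee (-(a * n / r))) (2 * X) (DD B X W)) ≤
      Bd A X W Q := by
  classical
  obtain ⟨C, hC0, hC⟩ := TI_average
  obtain ⟨X₁, hX₁⟩ := win_facts ε hε B
  obtain ⟨X₂, hX₂⟩ := md_facts ε' hε' 0
  obtain ⟨X₃, hX₃⟩ := davC hε' (A + 5) C₀
  obtain ⟨X₄, hX₄⟩ := const_log_pow_le (8 * (180 * C) ^ 2) (2 * B + 6 + A) (δ := 3 / 4) (by norm_num)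
  obtain ⟨X₅, hX₅⟩ : ∃ X₅ : ℕ, ∀ X : ℕ, X₅ ≤ X → 8 ≤ Real.log X := by
    have h : Filter.Tendsto (fun X : ℕ => Real.log (X : ℝ)) Filter.atTop Filter.atTop :=
      Real.tendsto_log_atTop.comp tendsto_natCast_atTop_atTop
    obtain ⟨X₅, h5⟩ := Filter.eventually_atTop.mp (h.eventually_ge_atTop 8)
    exact ⟨X₅, h5⟩
  refine ⟨max X₁ (max X₂ (max X₃ (max X₄ (max X₅ 1)))), fun X hX W hW Q hQ d hd hdC i hi r a hr hrR har j hj α hα hα0 => ?_⟩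
  simp only [max_le_iff] at hX
  obtain ⟨hX1, hX2, hX3, hX4, hX5, hX6⟩ := hX
  obtain ⟨hW1, h4W, hXW, hR1, hRB, hR2, hR4, hDR, hD1, hDW, hDX, h32⟩ := hX₁ X hX1 W hW
  obtain ⟨hQX, -, -, hKK, -, hlK⟩ := hX₂ X hX2 Q hQ
  have hdav := hX₃ X hX3 Q hQ d hd hdC i hi
  have hasy := hX₄ X hX4
  have hL := hX₅ X hX5
  set L := Real.log X with hLdef
  set D := DD B X W with hDdef
  have hQ1 : 1 ≤ Q := hQ.1
  have hX0 : (0 : ℝ) < X := by exact_mod_cast hX6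
  have hX1' : (1 : ℝ) ≤ X := by exact_mod_cast hX6
  have hQ0 : (0 : ℝ) < Q := by exact_mod_cast hQ1
  have hD0 : (0 : ℝ) < D := by exact_mod_cast hD1
  have hW0 : (0 : ℝ) < W := by exact_mod_cast hW1
  have hL0 : (0 : ℝ) < L := by linarith
  have hZ1 : 1 ≤ 2 * X := by omega
  -- `1 + log (2X) ≤ 3 L`
  have hl2 : 1 + Real.log ((2 * X : ℕ) : ℝ) ≤ 3 * L := by
    push_cast
    rw [Real.log_mul (by norm_num) hX0.ne']
    have := Real.log_two_lt_d9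
    linarith
  have hl2' : 0 ≤ 1 + Real.log ((2 * X : ℕ) : ℝ) := by
    have : 0 ≤ Real.log ((2 * X : ℕ) : ℝ) := Real.log_nonneg (by exact_mod_cast hZ1)
    linarith
  set g : ℤ → ℂ := LAh (fun n => cv α (fun l => ((Real.log l ^ j : ℝ) : ℂ)) n * ee (-(a * n / r))) (2 * X) D with hg
  set er : ℤ → ℂ := fun v => if v < X + W then g v - MajTI_main α j D r (2 * X) v else 0 with her
  have hcongr : TT W X (Ico Q (2 * Q)) (ct (cc d i) ((a : ℝ) / r)) (KK X Q) g =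
      TT W X (Ico Q (2 * Q)) (ct (cc d i) ((a : ℝ) / r)) (KK X Q)
        (fun v => MajTI_main α j D r (2 * X) v + er v) := by
    apply TT_congr_g
    intro v hv
    simp only [her, if_pos hv]
    ring
  rw [hcongr]
  refine TT_add_g.trans ?_
  -- the main term
  have hmain : TT W X (Ico Q (2 * Q)) (ct (cc d i) ((a : ℝ) / r)) (KK X Q) (MajTI_main α j D r (2 * X)) ≤
      ((Ico Q (2 * Q)).card : ℝ) * (2 * W) * (18 * L ^ 3 * (X / Q / L ^ (A + 5))) ^ 2 := by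
    apply TT_le_pointwise
    intro q hq N hN
    rw [Finset.mem_Ioo] at hN
    have hND : (N : ℤ) + D ≤ ((2 * X : ℕ) : ℤ) := by
      have : N + D ≤ 2 * X := by omega
      exact_mod_cast this
    have hPs : ∀ u, u ≤ KK X Q → ‖∑ k ∈ Icc 1 u, ct (cc d i) ((a : ℝ) / r) q k‖ ≤ X / Q / L ^ (A + 5) := by
      intro u hu
      have h := hdav u hu (-((a : ℝ) / r * q))
      refine le_of_eq_of_le ?_ h
      congr 1
      refine Finset.sum_congr rfl fun k _ => ?_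
      unfold ct
      congr 2
      ring
    have h := MajTI_EG (r := r) (α := α) hj hD1 hZ1 hND hPs
    refine h.trans ?_
    have h1 := MajTI_sum_alpha' hL0.le hα (2 * X)
    have hP0 : (0 : ℝ) ≤ X / Q / L ^ (A + 5) := by positivity
    calc (∑ m ∈ Icc 1 (2 * X), ‖α m‖ / m) * (X / Q / L ^ (A + 5) * (1 + Real.log ((2 * X : ℕ) : ℝ)))
        ≤ (2 * L * (1 + Real.log ((2 * X : ℕ) : ℝ))) *
            (X / Q / L ^ (A + 5) * (1 + Real.log ((2 * X : ℕ) : ℝ))) :=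
          mul_le_mul_of_nonneg_right h1 (mul_nonneg hP0 hl2')
      _ ≤ (2 * L * (3 * L)) * (X / Q / L ^ (A + 5) * (3 * L)) := by
          apply mul_le_mul
          · exact mul_le_mul_of_nonneg_left hl2 (by positivity)
          · exact mul_le_mul_of_nonneg_left hl2 hP0
          · exact mul_nonneg hP0 hl2'
          · positivity
      _ = _ := by ring
  -- the error term
  have hcard : ((Ico Q (2 * Q)).card : ℝ) = Q := by
    rw [Nat.card_Ico]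
    congr 1
    omega
  have herr : TT W X (Ico Q (2 * Q)) (ct (cc d i) ((a : ℝ) / r)) (KK X Q) er ≤
      ((Ico Q (2 * Q)).card : ℝ) * (2 * W) * (X / Q * (180 * C * L ^ (B + 3) * (X : ℝ) ^ (1 / 8 : ℝ) / D)) ^ 2 := by
    apply TT_le_pointwise
    intro q hq N hN
    have hE0 : ∀ v : ℤ, ‖er v‖ ≤ 12 * C * L ^ (B + 2) * (X : ℝ) ^ (1 / 8 : ℝ) / D := by
      intro v
      simp only [her]
      split_ifs with hv
      · have hvD : v + D ≤ ((2 * X : ℕ) : ℤ) := by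
          have h1 : (D : ℤ) ≤ W := by exact_mod_cast hDW
          have h2 : 4 * (W : ℤ) ≤ X := by exact_mod_cast h4W
          push_cast
          linarith [show (0 : ℤ) ≤ W by positivity]
        have h := MajTI_err hC α hr har hj hD1 hZ1 hvD
        refine h.trans ?_
        have h1 := MajTI_sum_alpha hL0.le hα hα0 (2 * X)
        have hrL : (r : ℝ) ≤ 2 * L ^ B := le_trans (by exact_mod_cast hrR) hR2
        calc (∑ m ∈ Icc 1 (2 * X), ‖α m‖) * (C * r * (1 + Real.log ((2 * X : ℕ) : ℝ)) / D)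
            ≤ (2 * L * (X : ℝ) ^ (1 / 8 : ℝ)) * (C * (2 * L ^ B) * (3 * L) / D) := by
              apply mul_le_mul h1 _ _ (by positivity)
              · apply div_le_div_of_nonneg_right _ hD0.le
                apply mul_le_mul _ hl2 hl2' (by positivity)
                exact mul_le_mul_of_nonneg_left hrL hC0.le
              · apply div_nonneg _ hD0.le
                exact mul_nonneg (by positivity) hl2'
          _ = _ := by ring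
      · rw [norm_zero]
        positivity
    unfold EG
    refine (norm_sum_le _ _).trans ?_
    have hterm : ∀ k ∈ Icc 1 (KK X Q), ‖ct (cc d i) ((a : ℝ) / r) q k * er ((N : ℤ) - q * k)‖ ≤
        3 * L * (12 * C * L ^ (B + 2) * (X : ℝ) ^ (1 / 8 : ℝ) / D) := by
      intro k hk
      rw [norm_mul]
      apply mul_le_mul _ (hE0 _) (norm_nonneg _) (by positivity)
      unfold ct
      rw [norm_mul, norm_ee, mul_one]
      refine (norm_cc_le hi).trans ?_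
      rw [Finset.mem_Icc] at hk
      have hk0 : (0 : ℝ) < k := by exact_mod_cast hk.1
      have : Real.log k ≤ Real.log (KK X Q) := Real.log_le_log hk0 (by exact_mod_cast hk.2)
      linarith
    refine (Finset.sum_le_sum hterm).trans ?_
    rw [Finset.sum_const, Nat.card_Icc, nsmul_eq_mul, Nat.add_sub_cancel]
    calc (KK X Q : ℝ) * (3 * L * (12 * C * L ^ (B + 2) * (X : ℝ) ^ (1 / 8 : ℝ) / D))
        ≤ (5 * X / Q) * (3 * L * (12 * C * L ^ (B + 2) * (X : ℝ) ^ (1 / 8 : ℝ) / D)) :=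
          mul_le_mul_of_nonneg_right hKK (by positivity)
      _ = _ := by ring
  rw [hcard] at hmain herr
  -- numerical estimates
  have hmain2 : (Q : ℝ) * (2 * W) * (18 * L ^ 3 * (X / Q / L ^ (A + 5))) ^ 2 ≤ Bd A X W Q / 4 := by
    unfold Bd
    have h1 : (Q : ℝ) * (2 * W) * (18 * L ^ 3 * (X / Q / L ^ (A + 5))) ^ 2 =
        (W * (X : ℝ) ^ 2 / Q / L ^ A) * (648 / (L ^ 4 * L ^ A)) := by
      rw [pow_add L A 5]
      field_simp
      ring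
    rw [h1, div_eq_mul_inv (W * (X : ℝ) ^ 2 / Q / L ^ A) 4]
    apply mul_le_mul_of_nonneg_left _ (by positivity)
    rw [div_le_iff₀ (by positivity)]
    have h2 : (4096 : ℝ) ≤ L ^ 4 := by
      calc (4096 : ℝ) = 8 ^ 4 := by norm_num
        _ ≤ L ^ 4 := by gcongr
    have h3 : (1 : ℝ) ≤ L ^ A := one_le_pow₀ (by linarith)
    nlinarith
  have herr2 : (Q : ℝ) * (2 * W) * (X / Q * (180 * C * L ^ (B + 3) * (X : ℝ) ^ (1 / 8 : ℝ) / D)) ^ 2 ≤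
      Bd A X W Q / 4 := by
    unfold Bd
    have hXX : ((X : ℝ) ^ (1 / 8 : ℝ)) ^ 2 = (X : ℝ) ^ (1 / 4 : ℝ) := by
      rw [← Real.rpow_natCast, ← Real.rpow_mul hX0.le]
      norm_num
    have h1 : (Q : ℝ) * (2 * W) * (X / Q * (180 * C * L ^ (B + 3) * (X : ℝ) ^ (1 / 8 : ℝ) / D)) ^ 2 =
        (W * (X : ℝ) ^ 2 / Q) * (2 * ((180 * C) ^ 2 * L ^ (2 * B + 6) * (X : ℝ) ^ (1 / 4 : ℝ) / (D : ℝ) ^ 2)) := by
      rw [← hXX]
      have : L ^ (2 * B + 6) = (L ^ (B + 3)) ^ 2 := by ring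
      rw [this]
      field_simp
    rw [h1, div_div, mul_comm (L ^ A) 4, ← div_div, div_div]
    rw [show (W : ℝ) * (X : ℝ) ^ 2 / Q / (4 * L ^ A) = (W * (X : ℝ) ^ 2 / Q) * (1 / (4 * L ^ A)) by ring]
    apply mul_le_mul_of_nonneg_left _ (by positivity)
    have hD2 : (X : ℝ) ≤ (D : ℝ) ^ 2 := by
      have h2 : (X : ℝ) ^ (1 / 2 : ℝ) ≤ D :=
        le_trans (Real.rpow_le_rpow_of_exponent_le hX1' (by linarith)) hDX
      calc (X : ℝ) = ((X : ℝ) ^ (1 / 2 : ℝ)) ^ 2 := by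
            rw [← Real.rpow_natCast, ← Real.rpow_mul hX0.le]
            norm_num
        _ ≤ (D : ℝ) ^ 2 := by gcongr
    have h3 : (8 * (180 * C) ^ 2 * L ^ (2 * B + 6 + A)) * (X : ℝ) ^ (1 / 4 : ℝ) ≤ (D : ℝ) ^ 2 := by
      refine le_trans ?_ hD2
      calc (8 * (180 * C) ^ 2 * L ^ (2 * B + 6 + A)) * (X : ℝ) ^ (1 / 4 : ℝ)
          ≤ (X : ℝ) ^ (3 / 4 : ℝ) * (X : ℝ) ^ (1 / 4 : ℝ) :=
            mul_le_mul_of_nonneg_right hasy (by positivity)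
        _ = X := by
            rw [← Real.rpow_add hX0]
            norm_num
    rw [pow_add L (2 * B + 6) A] at h3
    rw [le_div_iff₀ (by positivity), mul_comm, ← mul_assoc, mul_div_assoc', div_le_one (by positivity)]
    nlinarith
  have := hmain.trans hmain2
  have := herr.trans herr2
  linarith

end Pool.Agent.SInt
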