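import Pool.Agent.SInt.TypeIIMaj
import Pool.Agent.SInt.VauL
import Pool.Agent.SInt.TTb

open Finset Complex
open scoped ArithmeticFunction.Moebius ArithmeticFunction.vonMangoldt

namespace Pool.Agent.SInt

open Pool.Agent.ANT

namespace MajTIIAux

/-- first coefficient, dyadic block and residue class -/
noncomputable def mtA (U r c j m : ℕ) : ℂ :=
  if 2 ^ j ≤ m ∧ m < 2 * 2 ^ j then (if m % r = c then Hf U m else 0) else 0

/-- second coefficient, dyadic block, twisted -/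
noncomputable def mtB (U r a c l n : ℕ) : ℂ :=
  if 2 ^ l ≤ n ∧ n < 2 * 2 ^ l then bL U n * ee (-((a : ℝ) * (c * n) / r)) else 0

lemma dyad (J m : ℕ) (h1 : 1 ≤ m) (h2 : m < 2 ^ J) (z : ℂ) :
    ∑ j ∈ range J, (if 2 ^ j ≤ m ∧ m < 2 * 2 ^ j then z else 0) = z := by
  have hlog : Nat.log 2 m < J := by
    by_contra h
    push Not at h
    have h3 : 2 ^ J ≤ 2 ^ Nat.log 2 m := Nat.pow_le_pow_right (by norm_num) h
    have h4 := Nat.pow_log_le_self 2 (x := m) (by omega)
    omega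
  rw [Finset.sum_eq_single (Nat.log 2 m)]
  · rw [if_pos]
    refine ⟨Nat.pow_log_le_self 2 (by omega), ?_⟩
    have := Nat.lt_pow_succ_log_self (b := 2) (by norm_num) m
    rw [pow_succ] at this
    omega
  · intro j _ hj
    rw [if_neg]
    rintro ⟨h3, h4⟩
    apply hj
    symm
    rw [Nat.log_eq_iff (Or.inr ⟨by norm_num, by omega⟩)]
    refine ⟨h3, ?_⟩
    rw [pow_succ]; omega
  · intro h
    exact absurd (mem_range.2 hlog) h

lemma ee_res {r : ℕ} (hr : 1 ≤ r) (a m n : ℕ) :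
    ee (-((a : ℝ) * (m * n) / r)) = ee (-((a : ℝ) * ((m % r : ℕ) * n) / r)) := by
  have hr0 : (r : ℝ) ≠ 0 := by positivity
  obtain ⟨k, hk⟩ : ∃ k : ℕ, m = m % r + r * k := ⟨m / r, (Nat.mod_add_div m r).symm⟩
  have hm : (m : ℝ) = (m % r : ℕ) + r * k := by exact_mod_cast hk
  generalize m % r = m0 at hm
  have e : -((a : ℝ) * (m * n) / r) = -((a : ℝ) * (m0 * n) / r) - ((a * k * n : ℕ) : ℤ) := by
    push_cast
    rw [hm]
    field_simp
    ring
  rw [e, ee_sub_int]

/-- the decomposition into boxes -/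
lemma split (U r a J : ℕ) (hr : 1 ≤ r) {n : ℕ} (h1 : 1 ≤ n) (h2 : n < 2 ^ J) :
    cv (fun m => Hf U m) (bL U) n * ee (-((a : ℝ) * n / r)) =
      ∑ p ∈ range r ×ˢ (range J ×ˢ range J),
        cv (mtA U r p.1 p.2.1) (mtB U r a p.1 p.2.2) n := by
  unfold cv
  rw [Finset.sum_comm, Finset.sum_mul]
  refine Finset.sum_congr rfl fun q hq => ?_
  rw [Nat.mem_divisorsAntidiagonal] at hq
  obtain ⟨hq1, hq2⟩ := hq
  have hm1 : 1 ≤ q.1 := by
    rcases Nat.eq_zero_or_pos q.1 with h | h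
    · rw [h, zero_mul] at hq1; omega
    · exact h
  have hn1 : 1 ≤ q.2 := by
    rcases Nat.eq_zero_or_pos q.2 with h | h
    · rw [h, mul_zero] at hq1; omega
    · exact h
  have hm2 : q.1 < 2 ^ J := by nlinarith
  have hn2 : q.2 < 2 ^ J := by nlinarith
  rw [Finset.sum_product]
  simp only [Finset.sum_product]
  have e1 : ∀ c ∈ range r, ∑ j ∈ range J, ∑ l ∈ range J, mtA U r c j q.1 * mtB U r a c l q.2 =
      (if q.1 % r = c then Hf U q.1 else 0) * (bL U q.2 * ee (-((a : ℝ) * (c * q.2) / r))) := by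
    intro c _
    rw [← Finset.sum_mul_sum]
    unfold mtA mtB
    rw [dyad J q.1 hm1 hm2, dyad J q.2 hn1 hn2]
  rw [Finset.sum_congr rfl e1]
  rw [Finset.sum_eq_single (q.1 % r)]
  · rw [if_pos rfl]
    have e2 : (n : ℝ) = q.1 * q.2 := by rw [← hq1]; push_cast; ring
    rw [e2, ee_res hr]
    ring
  · intro c _ hc
    rw [if_neg (fun h => hc h.symm), zero_mul]
  · intro h
    exact absurd (mem_range.2 (Nat.mod_lt _ (by omega))) h

lemma LAh_congr' {h h' : ℕ → ℂ} {Z : ℕ} (e : ∀ n ∈ Icc 1 Z, h n = h' n) (D : ℕ) (v : ℤ) :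
    LAh h Z D v = LAh h' Z D v := by
  unfold LAh
  exact Finset.sum_congr rfl fun n hn => by rw [e n hn]

lemma LAh_sum {ι : Type*} (s : Finset ι) (h : ι → ℕ → ℂ) (Z D : ℕ) (v : ℤ) :
    LAh (fun n => ∑ p ∈ s, h p n) Z D v = ∑ p ∈ s, LAh (h p) Z D v := by
  unfold LAh
  rw [Finset.sum_comm]
  exact Finset.sum_congr rfl fun n _ => by rw [Finset.sum_mul]

lemma LAh_of_zero {h : ℕ → ℂ} {Z : ℕ} (e : ∀ n ∈ Icc 1 Z, h n = 0) (D : ℕ) (v : ℤ) :
    LAh h Z D v = 0 := by
  unfold LAh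
  exact Finset.sum_eq_zero fun n hn => by rw [e n hn, zero_mul]

lemma TT_zero {W X K : ℕ} {S : Finset ℕ} {c : ℕ → ℕ → ℂ} {g : ℤ → ℂ} (h : ∀ v, g v = 0) :
    TT W X S c K g = 0 := by
  unfold TT EG
  refine Finset.sum_eq_zero fun q _ => Finset.sum_eq_zero fun N _ => ?_
  rw [Finset.sum_eq_zero (fun k _ => by rw [h, mul_zero])]
  simp

end MajTIIAux

open MajTIIAux

/-- Major arcs, type II part. -/
theorem major_typeII {ε ε' : ℝ} (hε : 0 < ε) (hε1 : ε ≤ 1 / 4) (hε' : 0 < ε') (A C₀ B : ℕ) : ∃ X₀ : ℕ, ∀ X : ℕ, X₀ ≤ X →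
    ∀ W : ℕ, Win ε X W → ∀ Q : ℕ, Md ε' X Q → ∀ d : ℕ, 1 ≤ d → (d : ℝ) ≤ Real.log X ^ C₀ →
    ∀ i : ℕ, i ≤ 1 → ∀ r a : ℕ, 1 ≤ r → r ≤ RR B X →
    TT W X (Ico Q (2 * Q)) (ct (cc d i) ((a : ℝ) / r)) (KK X Q)
      (LAh (fun n => cv (fun m => Hf ⌊(X : ℝ) ^ (1 / 16 : ℝ)⌋₊ m) (bL ⌊(X : ℝ) ^ (1 / 16 : ℝ)⌋₊) n *
        ee (-(a * n / r))) (2 * X) (DD B X W)) ≤ Bd A X W Q := by
  obtain ⟨X1, hX1⟩ := typeII_major hε hε1 hε' (A + 2 * B + 5) C₀ B
  obtain ⟨X2, hX2⟩ := win_facts ε hε B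
  obtain ⟨X3, hX3⟩ : ∃ X3 : ℕ, ∀ X : ℕ, X3 ≤ X → (1024 : ℝ) ≤ Real.log X := by
    refine ⟨⌈Real.exp 1024⌉₊, fun X hX => ?_⟩
    have h1 : Real.exp 1024 ≤ X := (Nat.le_ceil _).trans (by exact_mod_cast hX)
    rw [Real.le_log_iff_exp_le (lt_of_lt_of_le (Real.exp_pos _) h1)]
    exact h1
  refine ⟨max X1 (max X2 (max X3 4)), fun X hX W hW Q hQ d hd hd' i hi r a hr hr' => ?_⟩
  have hXa : X1 ≤ X := le_trans (le_max_left _ _) hX
  have hXb : X2 ≤ X := le_trans (le_trans (le_max_left _ _) (le_max_right _ _)) hX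
  have hXc : X3 ≤ X :=
    le_trans (le_trans (le_max_left _ _) (le_trans (le_max_right _ _) (le_max_right _ _))) hX
  have hX4 : 4 ≤ X :=
    le_trans (le_trans (le_max_right _ _) (le_trans (le_max_right _ _) (le_max_right _ _))) hX
  obtain ⟨w1, w2, w3, w4, w5, w6, w7, w8, w9, w10, w11, w12⟩ := hX2 X hXb W hW
  have hlog := hX3 X hXc
  set L := Real.log X with hL
  set U := ⌊(X : ℝ) ^ (1 / 16 : ℝ)⌋₊ with hU
  set D := DD B X W with hD
  have hX0 : (0 : ℝ) < X := by positivity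
  -- number of blocks
  set J := Nat.log 2 (2 * X) + 1 with hJ
  have hJ1 : 2 * X < 2 ^ J := Nat.lt_pow_succ_log_self (by norm_num) _
  have hJ2 : (J : ℝ) ≤ 4 * L := by
    have h1 : ((Nat.log 2 (2 * X) : ℕ) : ℝ) * Real.log 2 ≤ Real.log (2 * X) := by
      rw [← Real.log_pow]
      apply Real.log_le_log (by positivity)
      have := Nat.pow_log_le_self 2 (x := 2 * X) (by omega)
      exact_mod_cast this
    rw [Real.log_mul (by norm_num) hX0.ne'] at h1
    have h2 := Real.log_two_gt_d9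
    have h3 := Real.log_two_lt_d9
    rw [hJ]
    push_cast
    have h5 : ((Nat.log 2 (2 * X) : ℕ) : ℝ) * (1 / 2) ≤ ((Nat.log 2 (2 * X) : ℕ) : ℝ) * Real.log 2 :=
      mul_le_mul_of_nonneg_left (by linarith) (by positivity)
    linarith
  set P := range r ×ˢ (range J ×ˢ range J) with hP
  have hcard : (P.card : ℝ) ≤ 32 * L ^ (B + 2) := by
    rw [hP, card_product, card_product, card_range, card_range]
    push_cast
    have h1 : (r : ℝ) ≤ 2 * L ^ B := (by exact_mod_cast hr' : (r : ℝ) ≤ RR B X).trans w6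
    have h2 : (J : ℝ) * J ≤ (4 * L) * (4 * L) := mul_le_mul hJ2 hJ2 (by positivity) (by linarith)
    calc (r : ℝ) * (J * J) ≤ (2 * L ^ B) * ((4 * L) * (4 * L)) :=
          mul_le_mul h1 h2 (by positivity) (by positivity)
      _ = 32 * L ^ (B + 2) := by ring
  -- rewriting
  have e1 : (LAh (fun n => cv (fun m => Hf U m) (bL U) n * ee (-(a * n / r))) (2 * X) D) =
      fun v => ∑ p ∈ P, LAh (cv (mtA U r p.1 p.2.1) (mtB U r a p.1 p.2.2)) (2 * X) D v := by
    funext v
    rw [← LAh_sum]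
    apply LAh_congr'
    intro n hn
    rw [mem_Icc] at hn
    exact split U r a J hr hn.1 (lt_of_le_of_lt hn.2 hJ1)
  rw [e1]
  refine (TT_sum_g P _).trans ?_
  -- one box
  have hBd0 : ∀ A', 0 ≤ Bd A' X W Q := by
    intro A'
    unfold Bd
    have : 0 ≤ Real.log X := by linarith
    positivity
  have key : ∀ p ∈ P, TT W X (Ico Q (2 * Q)) (ct (cc d i) ((a : ℝ) / r)) (KK X Q)
      (LAh (cv (mtA U r p.1 p.2.1) (mtB U r a p.1 p.2.2)) (2 * X) D) ≤
      Bd (A + 2 * B + 5) X W Q := by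
    rintro ⟨c, j, l⟩ hp
    simp only
    -- trivial boxes
    by_cases hj : 2 * 2 ^ j ≤ U
    · rw [TT_zero]
      · exact hBd0 _
      · intro v
        apply LAh_of_zero
        intro n _
        unfold cv
        refine Finset.sum_eq_zero fun q _ => ?_
        have : mtA U r c j q.1 = 0 := by
          unfold mtA
          split_ifs with h1 h2
          · rw [Hf_apply, if_pos (by omega)]
          · rfl
          · rfl
        rw [this, zero_mul]
    by_cases hl : 2 * 2 ^ l ≤ U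
    · rw [TT_zero]
      · exact hBd0 _
      · intro v
        apply LAh_of_zero
        intro n _
        unfold cv
        refine Finset.sum_eq_zero fun q _ => ?_
        have : mtB U r a c l q.2 = 0 := by
          unfold mtB
          split_ifs with h1
          · rw [bL_zero (by omega), zero_mul]
          · rfl
        rw [this, mul_zero]
    by_cases hjl : 2 ^ j * 2 ^ l ≤ 2 * X
    · have e2 : TT W X (Ico Q (2 * Q)) (ct (cc d i) ((a : ℝ) / r)) (KK X Q)
          (LAh (cv (mtA U r c j) (mtB U r a c l)) (2 * X) D) =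
          TT W X (Ico Q (2 * Q)) (ct (cc d i) ((a : ℝ) / r)) (KK X Q)
          (LAh (cv (mtA U r c j) (mtB U r a c l)) (8 * X) D) := by
        apply TT_congr_g
        intro v hv
        have hD1 : (D : ℤ) ≤ W := by exact_mod_cast w10
        have h4W : (4 : ℤ) * W ≤ X := by exact_mod_cast w2
        apply LAh_cut w9
        · push_cast; linarith
        · push_cast; linarith
      rw [e2]
      have hlarge : ∀ s : ℕ, ¬ 2 * 2 ^ s ≤ U → (X : ℝ) ^ (1 / 16 : ℝ) ≤ 2 * ((2 ^ s : ℕ) : ℝ) := by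
        intro s hs
        have h1 : U + 1 ≤ 2 * 2 ^ s := by omega
        have h2 : (X : ℝ) ^ (1 / 16 : ℝ) < U + 1 := Nat.lt_floor_add_one _
        have h3 : ((U + 1 : ℕ) : ℝ) ≤ ((2 * 2 ^ s : ℕ) : ℝ) := by exact_mod_cast h1
        push_cast at h3 ⊢
        linarith
      refine hX1 X hXa W hW Q hQ d hd hd' i hi r a hr hr' (2 ^ j) (2 ^ l) (hlarge j hj) (hlarge l hl)
        hjl _ _ ?_ ?_ ?_ ?_
      · intro m hm
        unfold mtA
        rw [if_neg]
        intro h
        exact hm (mem_Ico.2 h)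
      · intro n hn
        unfold mtB
        rw [if_neg]
        intro h
        exact hn (mem_Ico.2 h)
      · intro m
        unfold mtA
        split_ifs
        · exact norm_Hf_le U m
        · rw [norm_zero]; exact zero_le_one
        · rw [norm_zero]; exact zero_le_one
      · intro n
        unfold mtB
        split_ifs with h
        · rw [norm_mul, norm_ee, mul_one]
          refine (norm_bL_le U n).trans ?_
          have h2j : 1 ≤ 2 ^ j := Nat.one_le_two_pow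
          have h2l : 1 ≤ 2 ^ l := Nat.one_le_two_pow
          have hn : n ≤ 4 * X := by
            have : 2 ^ l ≤ 2 ^ j * 2 ^ l := Nat.le_mul_of_pos_left _ h2j
            omega
          have hn1 : 1 ≤ n := le_trans h2l h.1
          have hnX : n ≤ X * X := hn.trans (Nat.mul_le_mul_right X hX4)
          have h5 : (n : ℝ) ≤ (X : ℝ) ^ 2 := by
            rw [sq]; exact_mod_cast hnX
          calc Real.log n ≤ Real.log ((X : ℝ) ^ 2) :=
                Real.log_le_log (by exact_mod_cast hn1) h5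
            _ = 2 * Real.log X := by rw [Real.log_pow]; push_cast; ring
        · rw [norm_zero]
          linarith
    · rw [TT_zero]
      · exact hBd0 _
      · intro v
        apply LAh_of_zero
        intro n hn
        rw [mem_Icc] at hn
        unfold cv
        refine Finset.sum_eq_zero fun q hq => ?_
        rw [Nat.mem_divisorsAntidiagonal] at hq
        unfold mtA mtB
        by_cases h1 : 2 ^ j ≤ q.1 ∧ q.1 < 2 * 2 ^ j
        · by_cases h2 : 2 ^ l ≤ q.2 ∧ q.2 < 2 * 2 ^ l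
          · exfalso
            apply hjl
            calc 2 ^ j * 2 ^ l ≤ q.1 * q.2 := Nat.mul_le_mul h1.1 h2.1
              _ = n := hq.1
              _ ≤ 2 * X := hn.2
          · rw [if_neg h2, mul_zero]
        · rw [if_neg h1, zero_mul]
  calc (P.card : ℝ) * ∑ p ∈ P, TT W X (Ico Q (2 * Q)) (ct (cc d i) ((a : ℝ) / r)) (KK X Q)
        (LAh (cv (mtA U r p.1 p.2.1) (mtB U r a p.1 p.2.2)) (2 * X) D)
      ≤ (P.card : ℝ) * (P.card • Bd (A + 2 * B + 5) X W Q) :=
        mul_le_mul_of_nonneg_left (Finset.sum_le_card_nsmul _ _ _ key) (by positivity)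
    _ = (P.card : ℝ) ^ 2 * Bd (A + 2 * B + 5) X W Q := by rw [nsmul_eq_mul]; ring
    _ ≤ (32 * L ^ (B + 2)) ^ 2 * Bd (A + 2 * B + 5) X W Q :=
        mul_le_mul_of_nonneg_right (pow_le_pow_left₀ (by positivity) hcard 2) (hBd0 _)
    _ ≤ Bd A X W Q := by
        have hL0 : 0 < L := by linarith
        unfold Bd
        rw [← hL]
        have e3 : (32 * L ^ (B + 2)) ^ 2 * ((W : ℝ) * (X : ℝ) ^ 2 / Q / L ^ (A + 2 * B + 5)) =
            ((W : ℝ) * (X : ℝ) ^ 2 / Q / L ^ A) * (1024 / L) := by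
          have : L ^ (A + 2 * B + 5) = L ^ A * (L ^ (B + 2)) ^ 2 * L := by ring
          rw [this]
          field_simp
          ring
        rw [e3]
        have h6 : 1024 / L ≤ 1 := by rw [div_le_one hL0]; exact hlog
        have h7 : 0 ≤ (W : ℝ) * (X : ℝ) ^ 2 / Q / L ^ A := by positivity
        calc (W : ℝ) * (X : ℝ) ^ 2 / Q / L ^ A * (1024 / L) ≤
              (W : ℝ) * (X : ℝ) ^ 2 / Q / L ^ A * 1 := mul_le_mul_of_nonneg_left h6 h7
          _ = _ := mul_one _

end Pool.Agent.SInt
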