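import Pool.Agent.SInt.MajRed
import Pool.Agent.SInt.MajTI
import Pool.Agent.SInt.MajTII
import Pool.Agent.SInt.Norm

open Finset Complex
open scoped ArithmeticFunction.Moebius ArithmeticFunction.vonMangoldt

namespace Pool.Agent.SInt

open Pool.Agent.ANT

private lemma major_norm_ee (x : ℝ) : ‖ee x‖ = 1 := by
  simp [norm_ee]

private lemma major_norm_ct (c : ℕ → ℂ) (θ : ℝ) (q k : ℕ) : ‖ct c θ q k‖ = ‖c k‖ := by
  unfold ct
  rw [norm_mul, major_norm_ee, mul_one]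

/-- Splitting of the local average along Vaughan's identity. -/
private lemma major_split (U Z D r a : ℕ) (v : ℤ) :
    LAh (fun n => ((Λ n : ℝ) : ℂ) * ee (-(a * n / r))) Z D v =
      LAh (fun n => LoL U n * ee (-(a * n / r))) Z D v +
      LAh (fun n => cv (fun m => Mf U m)
          (fun l => ((Real.log l ^ 1 : ℝ) : ℂ)) n * ee (-(a * n / r))) Z D v +
      (-1 : ℂ) * LAh (fun n => cv (aL U)
          (fun l => ((Real.log l ^ 0 : ℝ) : ℂ)) n * ee (-(a * n / r))) Z D v +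
      LAh (fun n => cv (fun m => Hf U m) (bL U) n * ee (-(a * n / r))) Z D v := by
  unfold LAh
  rw [mul_sum, ← sum_add_distrib, ← sum_add_distrib, ← sum_add_distrib]
  refine sum_congr rfl fun n hn => ?_
  beta_reduce
  rw [vaughan_L U n (mem_Icc.mp hn).1]
  ring

/-- The small part of Vaughan's identity in the local average. -/
private lemma major_Lo (U Z D r a : ℕ) (hD : 1 ≤ D) (s : Finset ℤ) :
    ∑ v ∈ s, ‖LAh (fun n => LoL U n * ee (-(a * n / r))) Z D v‖ ^ 2 ≤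
      U * Real.log Z ^ 2 := by
  refine (LAh_l2 hD _ Z s).trans ?_
  have h1 : ∀ n ∈ Icc 1 Z, ‖LoL U n * ee (-(a * n / r))‖ ^ 2 ≤
      if n ≤ U then Real.log Z ^ 2 else 0 := by
    intro n hn
    obtain ⟨hn1, hn2⟩ := mem_Icc.mp hn
    rw [norm_mul, major_norm_ee, mul_one]
    change ‖(if n ≤ U then ((Λ n : ℝ) : ℂ) else 0)‖ ^ 2 ≤ _
    split_ifs with h
    · rw [Complex.norm_real, Real.norm_eq_abs, abs_of_nonneg ArithmeticFunction.vonMangoldt_nonneg]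
      refine pow_le_pow_left₀ ArithmeticFunction.vonMangoldt_nonneg ?_ 2
      refine ArithmeticFunction.vonMangoldt_le_log.trans ?_
      exact Real.log_le_log (by exact_mod_cast hn1) (by exact_mod_cast hn2)
    · simp
  refine (sum_le_sum h1).trans ?_
  rw [← sum_filter, sum_const, nsmul_eq_mul]
  refine mul_le_mul_of_nonneg_right ?_ (by positivity)
  have h2 : (Icc 1 Z).filter (fun n => n ≤ U) ⊆ Icc 1 U := by
    intro n hn
    rw [mem_filter, mem_Icc] at hn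
    exact mem_Icc.mpr ⟨hn.1.1, hn.2⟩
  have h3 := card_le_card h2
  rw [Nat.card_Icc, Nat.add_sub_cancel] at h3
  exact_mod_cast h3

/-- The small part. -/
private lemma major_Lo_TT {ε ε' : ℝ} (hε : 0 < ε) (hε' : 0 < ε') (A' B : ℕ) :
    ∃ X₀ : ℕ, ∀ X : ℕ, X₀ ≤ X →
    ∀ W : ℕ, Win ε X W → ∀ Q : ℕ, Md ε' X Q → ∀ d i r a : ℕ, i ≤ 1 →
    TT W X (Ico Q (2 * Q)) (ct (cc d i) ((a : ℝ) / r)) (KK X Q)
      (LAh (fun n => LoL ⌊(X : ℝ) ^ (1 / 16 : ℝ)⌋₊ n * ee (-(a * n / r))) (2 * X) (DD B X W)) ≤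
      Bd A' X W Q := by
  obtain ⟨C, hC, hN⟩ := TT_norm
  obtain ⟨X₃, h₃⟩ := win_facts ε hε B
  obtain ⟨X₄, h₄⟩ := md_facts ε' hε' 0
  obtain ⟨X₅, h₅⟩ := const_log_pow_le (1000 * C) (A' + 5) (show (0:ℝ) < 1 / 2 by norm_num)
  refine ⟨X₃ + X₄ + X₅ + 3, fun X hX W hW Q hQ d i r a hi => ?_⟩
  have hX3 : 3 ≤ X := by omega
  obtain ⟨w1, w2, w3, w4, w5, w6, w7, w8, w9, w10, w11, w12⟩ := h₃ X (by omega) W hW
  obtain ⟨q1, -, q3, q4, q5, q6⟩ := h₄ X (by omega) Q hQ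
  have hl1 : (1:ℝ) ≤ Real.log X := by
    rw [Real.le_log_iff_exp_le (by positivity)]
    have h1 : (3:ℝ) ≤ X := by exact_mod_cast hX3
    have h2 := Real.exp_one_lt_d9
    linarith
  set L : ℝ := Real.log X with hL
  set D : ℕ := DD B X W with hD
  set K : ℕ := KK X Q with hK
  set U : ℕ := ⌊(X : ℝ) ^ (1 / 16 : ℝ)⌋₊ with hU
  have hXr : (0:ℝ) < X := by exact_mod_cast (by omega : 0 < X)
  have hX1 : (1:ℝ) ≤ X := by exact_mod_cast (by omega : 1 ≤ X)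
  have hQ1 : 1 ≤ Q := hQ.1
  have hQr : (0:ℝ) < Q := by exact_mod_cast (by omega : 0 < Q)
  have hUr : (U:ℝ) ≤ (X:ℝ) ^ (1 / 16 : ℝ) := Nat.floor_le (by positivity)
  have hlog2X : Real.log ((2 * X : ℕ) : ℝ) ≤ 2 * L := by
    have h1 : Real.log ((2 * X : ℕ) : ℝ) ≤ Real.log ((X:ℝ) ^ 2) := by
      refine Real.log_le_log (by positivity) ?_
      push_cast
      have : (2:ℝ) ≤ X := by exact_mod_cast (by omega : 2 ≤ X)
      nlinarith
    rw [Real.log_pow] at h1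
    exact_mod_cast h1
  have hB0 : ∀ q ∈ Ico Q (2 * Q), ∀ k ∈ Icc 1 K, ‖ct (cc d i) ((a : ℝ) / r) q k‖ ≤ 3 * L := by
    intro q hq k hk
    obtain ⟨hk1, hk2⟩ := mem_Icc.mp hk
    rw [major_norm_ct]
    have h1 : Real.log k ≤ Real.log K :=
      Real.log_le_log (by exact_mod_cast hk1) (by exact_mod_cast hk2)
    have h2 := norm_cc_le (d := d) (i := i) (k := k) hi
    linarith
  have hg0 : ∀ n : ℤ, ((32 * X : ℕ) : ℤ) < |n| →
      LAh (fun n => LoL U n * ee (-(a * n / r))) (2 * X) D n = 0 := by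
    intro n hn
    refine LAh_zero w9 _ (2 * X) ?_
    have hDX : 2 * (X:ℤ) + D ≤ 32 * X := by exact_mod_cast w12
    push_cast at hn ⊢
    rcases le_total 0 n with h | h
    · rw [abs_of_nonneg h] at hn
      right; omega
    · rw [abs_of_nonpos h] at hn
      left; omega
  have h1 := hN W X K (32 * X) (Ico Q (2 * Q)) (ct (cc d i) ((a : ℝ) / r)) (3 * L)
    (LAh (fun n => LoL U n * ee (-(a * n / r))) (2 * X) D) hX3 w1 (by omega) w3 le_rfl
    (by positivity) (fun q hq => hQ1.trans (mem_Ico.mp hq).1) hB0 hg0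
  refine h1.trans ?_
  have h2 := major_Lo U (2 * X) D r a w9 (Icc (-((32 * X : ℕ) : ℤ)) ((32 * X : ℕ) : ℤ))
  have h3 : (U:ℝ) * Real.log ((2 * X : ℕ) : ℝ) ^ 2 ≤ (X:ℝ) ^ (1 / 16 : ℝ) * (2 * L) ^ 2 := by
    refine mul_le_mul hUr ?_ (by positivity) (by positivity)
    refine pow_le_pow_left₀ (Real.log_nonneg ?_) hlog2X 2
    exact_mod_cast (by omega : 1 ≤ 2 * X)
  have h4 : C * (3 * L) ^ 2 * K * W * L *
      ∑ n ∈ Icc (-((32 * X : ℕ) : ℤ)) ((32 * X : ℕ) : ℤ),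
        ‖LAh (fun n => LoL U n * ee (-(a * n / r))) (2 * X) D n‖ ^ 2 ≤
      C * (3 * L) ^ 2 * (5 * X / Q) * W * L * ((X:ℝ) ^ (1 / 16 : ℝ) * (2 * L) ^ 2) := by
    refine mul_le_mul ?_ (h2.trans h3) (sum_nonneg fun _ _ => by positivity) (by positivity)
    gcongr
  refine h4.trans ?_
  have h5 := h₅ X (by omega)
  have h6 : (X:ℝ) ^ (1 / 16 : ℝ) * (X:ℝ) ^ (1 / 2 : ℝ) ≤ X := by
    rw [← Real.rpow_add hXr]
    calc (X:ℝ) ^ (1 / 16 + 1 / 2 : ℝ) ≤ (X:ℝ) ^ (1:ℝ) :=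
          Real.rpow_le_rpow_of_exponent_le hX1 (by norm_num)
      _ = X := Real.rpow_one _
  unfold Bd
  rw [le_div_iff₀ (by positivity)]
  rw [← hL] at h5 ⊢
  have h7 : C * (3 * L) ^ 2 * (5 * X / Q) * W * L * ((X:ℝ) ^ (1 / 16 : ℝ) * (2 * L) ^ 2) *
      L ^ A' = (180 * C * L ^ (A' + 5)) * ((X:ℝ) ^ (1 / 16 : ℝ)) * (W * X / Q) := by
    rw [pow_add]; ring
  rw [h7]
  have h8 : (180 * C * L ^ (A' + 5)) * ((X:ℝ) ^ (1 / 16 : ℝ)) ≤ X := by
    have h9 : 180 * C * L ^ (A' + 5) ≤ (X:ℝ) ^ (1 / 2 : ℝ) := by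
      refine le_trans ?_ h5
      have : 0 ≤ C * L ^ (A' + 5) := by positivity
      nlinarith
    calc (180 * C * L ^ (A' + 5)) * ((X:ℝ) ^ (1 / 16 : ℝ)) ≤
          (X:ℝ) ^ (1 / 2 : ℝ) * ((X:ℝ) ^ (1 / 16 : ℝ)) :=
          mul_le_mul_of_nonneg_right h9 (by positivity)
      _ ≤ X := by rw [mul_comm]; exact h6
  calc (180 * C * L ^ (A' + 5)) * ((X:ℝ) ^ (1 / 16 : ℝ)) * (W * X / Q) ≤ X * (W * X / Q) :=
        mul_le_mul_of_nonneg_right h8 (by positivity)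
    _ = W * (X:ℝ) ^ 2 / Q := by ring

/-- The square-mean over one fraction. -/
private lemma major_piece {ε ε' : ℝ} (hε : 0 < ε) (hε1 : ε ≤ 1 / 4) (hε' : 0 < ε')
    (A' C₀ B : ℕ) : ∃ X₀ : ℕ, ∀ X : ℕ, X₀ ≤ X →
    ∀ W : ℕ, Win ε X W → ∀ Q : ℕ, Md ε' X Q → ∀ d : ℕ, 1 ≤ d → (d : ℝ) ≤ Real.log X ^ C₀ →
    ∀ i : ℕ, i ≤ 1 → ∀ r ∈ Icc 1 (RR B X), ∀ a ∈ red r,
      TT W X (Ico Q (2 * Q)) (ct (cc d i) ((a : ℝ) / r)) (KK X Q)
        (LAh (fun n => ((Λ n : ℝ) : ℂ) * ee (-(a * n / r))) (2 * X) (DD B X W)) ≤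
        32 * Bd A' X W Q := by
  obtain ⟨X₁, h₁⟩ := major_typeI hε hε' A' C₀ B
  obtain ⟨X₂, h₂⟩ := major_typeII hε hε1 hε' A' C₀ B
  obtain ⟨X₃, h₃⟩ := major_Lo_TT hε hε' A' B
  refine ⟨X₁ + X₂ + X₃ + 3, fun X hX W hW Q hQ d hd hd' i hi r hr a ha => ?_⟩
  obtain ⟨hr1, hr2⟩ := mem_Icc.mp hr
  have hac : a.Coprime r := (mem_filter.mp ha).2
  have hX3 : 3 ≤ X := by omega
  have hXr : (0:ℝ) < X := by exact_mod_cast (by omega : 0 < X)
  have hX1 : (1:ℝ) ≤ X := by exact_mod_cast (by omega : 1 ≤ X)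
  have hl1 : (1:ℝ) ≤ Real.log X := by
    rw [Real.le_log_iff_exp_le (by positivity)]
    have h1 : (3:ℝ) ≤ X := by exact_mod_cast hX3
    have h2 := Real.exp_one_lt_d9
    linarith
  set D : ℕ := DD B X W with hD
  set K : ℕ := KK X Q with hK
  set U : ℕ := ⌊(X : ℝ) ^ (1 / 16 : ℝ)⌋₊ with hU
  have hUr : (U:ℝ) ≤ (X:ℝ) ^ (1 / 16 : ℝ) := Nat.floor_le (by positivity)
  have hfun : LAh (fun n => ((Λ n : ℝ) : ℂ) * ee (-(a * n / r))) (2 * X) D = fun v =>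
      ((LAh (fun n => LoL U n * ee (-(a * n / r))) (2 * X) D v +
      LAh (fun n => cv (fun m => Mf U m)
          (fun l => ((Real.log l ^ 1 : ℝ) : ℂ)) n * ee (-(a * n / r))) (2 * X) D v) +
      (-1 : ℂ) * LAh (fun n => cv (aL U)
          (fun l => ((Real.log l ^ 0 : ℝ) : ℂ)) n * ee (-(a * n / r))) (2 * X) D v) +
      LAh (fun n => cv (fun m => Hf U m) (bL U) n * ee (-(a * n / r))) (2 * X) D v := by
    funext v
    exact major_split U (2 * X) D r a v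
  -- the four bounds
  have t0 : TT W X (Ico Q (2 * Q)) (ct (cc d i) ((a : ℝ) / r)) K
      (LAh (fun n => LoL U n * ee (-(a * n / r))) (2 * X) D) ≤ Bd A' X W Q :=
    h₃ X (by omega) W hW Q hQ d i r a hi
  have t1 : TT W X (Ico Q (2 * Q)) (ct (cc d i) ((a : ℝ) / r)) K
      (LAh (fun n => cv (fun m => Mf U m)
          (fun l => ((Real.log l ^ 1 : ℝ) : ℂ)) n * ee (-(a * n / r))) (2 * X) D) ≤
      Bd A' X W Q := by
    refine h₁ X (by omega) W hW Q hQ d hd hd' i hi r a hr1 hr2 hac 1 le_rfl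
      (fun m => Mf U m) ?_ ?_
    · intro m
      refine (norm_Mf_le U m).trans ?_
      linarith
    · intro m hm
      rw [Mf_apply, if_neg]
      intro h
      have h2 : (m:ℝ) ≤ U := by exact_mod_cast h
      have h3 : (X:ℝ) ^ (1 / 16 : ℝ) ≤ (X:ℝ) ^ (1 / 8 : ℝ) :=
        Real.rpow_le_rpow_of_exponent_le hX1 (by norm_num)
      linarith
  have t2 : TT W X (Ico Q (2 * Q)) (ct (cc d i) ((a : ℝ) / r)) K
      (LAh (fun n => cv (aL U)
          (fun l => ((Real.log l ^ 0 : ℝ) : ℂ)) n * ee (-(a * n / r))) (2 * X) D) ≤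
      Bd A' X W Q := by
    have hU2 : ((U * U : ℕ) : ℝ) ≤ (X:ℝ) ^ (1 / 8 : ℝ) := by
      push_cast
      calc (U:ℝ) * U ≤ (X:ℝ) ^ (1 / 16 : ℝ) * (X:ℝ) ^ (1 / 16 : ℝ) :=
            mul_le_mul hUr hUr (by positivity) (by positivity)
        _ = (X:ℝ) ^ (1 / 8 : ℝ) := by rw [← Real.rpow_add hXr]; norm_num
    refine h₁ X (by omega) W hW Q hQ d hd hd' i hi r a hr1 hr2 hac 0 (by norm_num)
      (aL U) ?_ ?_
    · intro m
      by_cases hm : U * U < m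
      · rw [aL_zero hm, norm_zero]; linarith
      · push Not at hm
        rcases Nat.eq_zero_or_pos m with h0 | h0
        · have := norm_aL_le U m
          rw [h0] at this ⊢
          simp only [Nat.cast_zero, Real.log_zero] at this
          linarith
        · have h2 : (m:ℝ) ≤ X := by
            have h3 : (X:ℝ) ^ (1 / 8 : ℝ) ≤ X := by
              calc (X:ℝ) ^ (1 / 8 : ℝ) ≤ (X:ℝ) ^ (1:ℝ) :=
                    Real.rpow_le_rpow_of_exponent_le hX1 (by norm_num)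
                _ = X := Real.rpow_one _
            have h4 : (m:ℝ) ≤ ((U * U : ℕ) : ℝ) := by exact_mod_cast hm
            linarith
          have h3 := Real.log_le_log (by exact_mod_cast h0) h2
          have := norm_aL_le U m
          linarith
    · intro m hm
      refine aL_zero ?_
      have : ((U * U : ℕ) : ℝ) < m := lt_of_le_of_lt hU2 hm
      exact_mod_cast this
  have t3 : TT W X (Ico Q (2 * Q)) (ct (cc d i) ((a : ℝ) / r)) K
      (LAh (fun n => cv (fun m => Hf U m) (bL U) n * ee (-(a * n / r))) (2 * X) D) ≤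
      Bd A' X W Q :=
    h₂ X (by omega) W hW Q hQ d hd hd' i hi r a hr1 hr2
  have t2' : TT W X (Ico Q (2 * Q)) (ct (cc d i) ((a : ℝ) / r)) K
      (fun v => (-1 : ℂ) * LAh (fun n => cv (aL U)
          (fun l => ((Real.log l ^ 0 : ℝ) : ℂ)) n * ee (-(a * n / r))) (2 * X) D v) ≤
      Bd A' X W Q := by
    rw [TT_smul_g]
    have e1 : ‖(-1:ℂ)‖ ^ 2 = 1 := by simp
    rw [e1, one_mul]
    exact t2
  rw [hfun]
  refine TT_add_g.trans ?_
  have s1 := TT_add_g (W := W) (X := X) (K := K) (S := Ico Q (2 * Q))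
    (c := ct (cc d i) ((a : ℝ) / r))
    (g := fun v => LAh (fun n => LoL U n * ee (-(a * n / r))) (2 * X) D v +
      LAh (fun n => cv (fun m => Mf U m)
          (fun l => ((Real.log l ^ 1 : ℝ) : ℂ)) n * ee (-(a * n / r))) (2 * X) D v)
    (g' := fun v => (-1 : ℂ) * LAh (fun n => cv (aL U)
          (fun l => ((Real.log l ^ 0 : ℝ) : ℂ)) n * ee (-(a * n / r))) (2 * X) D v)
  have s2 := TT_add_g (W := W) (X := X) (K := K) (S := Ico Q (2 * Q))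
    (c := ct (cc d i) ((a : ℝ) / r))
    (g := LAh (fun n => LoL U n * ee (-(a * n / r))) (2 * X) D)
    (g' := LAh (fun n => cv (fun m => Mf U m)
          (fun l => ((Real.log l ^ 1 : ℝ) : ℂ)) n * ee (-(a * n / r))) (2 * X) D)
  have hb : 0 ≤ Bd A' X W Q := TT_nonneg.trans t0
  linarith

/-- The major arc estimate. -/
theorem major {ε ε' : ℝ} (hε : 0 < ε) (hε1 : ε ≤ 1 / 4) (hε' : 0 < ε') (A C₀ B : ℕ) : ∃ X₀ : ℕ, ∀ X : ℕ, X₀ ≤ X →
    ∀ W : ℕ, Win ε X W → ∀ Q : ℕ, Md ε' X Q → ∀ d : ℕ, 1 ≤ d → (d : ℝ) ≤ Real.log X ^ C₀ →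
    ∀ i : ℕ, i ≤ 1 →
    TT W X (Ico Q (2 * Q)) (fun _ => cc d i) (KK X Q) (MJ X (RR B X) (DD B X W)) ≤ Bd A X W Q := by
  obtain ⟨X₁, h₁⟩ := major_piece hε hε1 hε' (A + 4 * B + 1) C₀ B
  obtain ⟨X₃, h₃⟩ := win_facts ε hε B
  obtain ⟨X₆, hX₆⟩ := exists_nat_gt (Real.exp 600)
  refine ⟨X₁ + X₃ + X₆ + 3, fun X hX W hW Q hQ d hd hd' i hi => ?_⟩
  obtain ⟨-, -, -, -, -, w6, -, -, -, -, -, -⟩ := h₃ X (by omega) W hW
  have hl600 : (600:ℝ) ≤ Real.log X := by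
    have hX0 : 0 < X := by omega
    rw [Real.le_log_iff_exp_le (by exact_mod_cast hX0)]
    have : (X₆:ℝ) ≤ X := by exact_mod_cast (by omega : X₆ ≤ X)
    linarith
  set L : ℝ := Real.log X with hL
  have hL0 : (0:ℝ) < L := by linarith
  set R : ℕ := RR B X with hR
  set D : ℕ := DD B X W with hD
  set K : ℕ := KK X Q with hK
  set A' : ℕ := A + 4 * B + 1 with hA'
  have hBd0 : 0 ≤ Bd A' X W Q := by
    unfold Bd
    positivity
  refine (MJ_TT W X R D K (Ico Q (2 * Q)) (cc d i)).trans ?_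
  have hsum : ∑ r ∈ Icc 1 R, ∑ a ∈ red r,
        TT W X (Ico Q (2 * Q)) (ct (cc d i) ((a : ℝ) / r)) K
          (LAh (fun n => ((Λ n : ℝ) : ℂ) * ee (-(a * n / r))) (2 * X) D) ≤
      (R:ℝ) ^ 2 * (32 * Bd A' X W Q) := by
    calc _ ≤ ∑ r ∈ Icc 1 R, ∑ a ∈ red r, 32 * Bd A' X W Q :=
          sum_le_sum fun r hr => sum_le_sum fun a ha =>
            h₁ X (by omega) W hW Q hQ d hd hd' i hi r hr a ha
      _ = (∑ r ∈ Icc 1 R, ((red r).card : ℝ)) * (32 * Bd A' X W Q) := by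
          rw [sum_mul]
          refine sum_congr rfl fun r _ => ?_
          rw [sum_const, nsmul_eq_mul]
      _ ≤ (R:ℝ) ^ 2 * (32 * Bd A' X W Q) :=
          mul_le_mul_of_nonneg_right (card_red_sum_le R) (by positivity)
  have hR4 : (R:ℝ) ^ 2 * ((R:ℝ) ^ 2 * (32 * Bd A' X W Q)) ≤ Bd A X W Q := by
    have h1 : (R:ℝ) ^ 4 ≤ (2 * L ^ B) ^ 4 := pow_le_pow_left₀ (by positivity) w6 4
    have h2 : (R:ℝ) ^ 2 * ((R:ℝ) ^ 2 * (32 * Bd A' X W Q)) = (R:ℝ) ^ 4 * (32 * Bd A' X W Q) := by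
      ring
    rw [h2]
    refine (mul_le_mul_of_nonneg_right h1 (by positivity)).trans ?_
    unfold Bd
    rw [← hL]
    have h3 : (2 * L ^ B) ^ 4 * (32 * (W * (X:ℝ) ^ 2 / Q / L ^ A')) =
        (512 / L) * (W * (X:ℝ) ^ 2 / Q / L ^ A) := by
      rw [hA', pow_add, pow_add, pow_one, mul_pow, ← pow_mul, mul_comm B 4]
      field_simp
      ring
    rw [h3]
    have h4 : 512 / L ≤ 1 := by
      rw [div_le_one (by linarith)]
      linarith
    calc (512 / L) * (W * (X:ℝ) ^ 2 / Q / L ^ A) ≤ 1 * (W * (X:ℝ) ^ 2 / Q / L ^ A) :=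
          mul_le_mul_of_nonneg_right h4 (by positivity)
      _ = _ := one_mul _
  exact (mul_le_mul_of_nonneg_left hsum (by positivity)).trans hR4

end Pool.Agent.SInt
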