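import Pool.Agent.SInt.Minor
import Pool.Agent.SInt.Major

open Finset Complex
open scoped ArithmeticFunction.Moebius ArithmeticFunction.vonMangoldt

namespace Pool.Agent.SInt

open Pool.Agent.ANT

/-- The main estimate. -/
theorem core {ε ε' : ℝ} (hε : 0 < ε) (hε1 : ε ≤ 1 / 4) (hε' : 0 < ε') (A C₀ : ℕ) : ∃ X₀ : ℕ, ∀ X : ℕ, X₀ ≤ X →
    ∀ W : ℕ, Win ε X W → ∀ Q : ℕ, Md ε' X Q → ∀ d : ℕ, 1 ≤ d → (d : ℝ) ≤ Real.log X ^ C₀ →
    ∀ i : ℕ, i ≤ 1 →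
    TT W X (Ico Q (2 * Q)) (fun _ => cc d i) (KK X Q) (Lam (2 * X)) ≤ Bd A X W Q := by
  obtain ⟨B, hB⟩ := minor hε hε' (A + 1) C₀
  obtain ⟨X1, hX1⟩ := hB B le_rfl
  obtain ⟨X2, hX2⟩ := major hε hε1 hε' (A + 1) C₀ B
  have hlogt : Filter.Tendsto (fun n : ℕ => Real.log (n:ℝ)) Filter.atTop Filter.atTop :=
    Real.tendsto_log_atTop.comp tendsto_natCast_atTop_atTop
  obtain ⟨X3, hX3⟩ := Filter.eventually_atTop.mp (hlogt.eventually_ge_atTop 4)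
  refine ⟨max X1 (max X2 X3), fun X hX W hW Q hQ d hd hdL i hi => ?_⟩
  have e1 : X1 ≤ X := (le_max_left _ _).trans hX
  have e2 : X2 ≤ X := (le_max_left _ _).trans ((le_max_right _ _).trans hX)
  have e3 : X3 ≤ X := (le_max_right _ _).trans ((le_max_right _ _).trans hX)
  have h1 := hX1 X e1 W hW Q hQ d hd hdL i hi
  have h2 := hX2 X e2 W hW Q hQ d hd hdL i hi
  have hL := hX3 X e3
  have hsplit : Lam (2 * X) = fun v => fmin X (RR B X) (DD B X W) v + MJ X (RR B X) (DD B X W) v := by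
    funext v
    unfold fmin
    ring
  rw [hsplit]
  refine (TT_add_g).trans ?_
  have hL0 : 0 < Real.log X := by linarith
  have hbd : 4 * Bd (A + 1) X W Q ≤ Bd A X W Q := by
    unfold Bd
    have e4 : Real.log (X:ℝ) ^ (A + 1) = Real.log X ^ A * Real.log X := pow_succ _ _
    have hnn : 0 ≤ (W:ℝ) * (X:ℝ) ^ 2 / Q / Real.log X ^ A := by positivity
    have e5 : (W:ℝ) * (X:ℝ) ^ 2 / Q / Real.log X ^ (A + 1) =
        ((W:ℝ) * (X:ℝ) ^ 2 / Q / Real.log X ^ A) / Real.log X := by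
      rw [e4, ← div_div]
    rw [e5, ← mul_div_assoc, div_le_iff₀ hL0]
    nlinarith
  linarith

end Pool.Agent.SInt
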