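import Pool.Agent.Lib.ANT.Parseval
import Pool.Agent.Lib.ANT.Major
import Pool.Agent.Lib.ANT.Minor
import Pool.Agent.DEH.Weights

/-!
Short-interval version of dEH for almost all N. Definitions.
-/

open Finset Complex
open scoped ArithmeticFunction.Moebius ArithmeticFunction.vonMangoldt

namespace Pool.Agent.SInt

open Pool.Agent.ANT

/-- The triangle function of half-width `W`. -/
noncomputable def tri (W : ℕ) (x : ℝ) : ℝ := max 0 (1 - |x| / W)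

/-- The triangle function normalised to have integral one. -/
noncomputable def GD (D : ℕ) (x : ℝ) : ℝ := tri D x / D

/-- The von Mangoldt function on `[1, Z]`, extended by zero to the integers. -/
noncomputable def Lam (Z : ℕ) (n : ℤ) : ℂ :=
  if 1 ≤ n ∧ n ≤ (Z : ℤ) then ((Λ n.toNat : ℝ) : ℂ) else 0

/-- `μ(dk) (log k)^i`. -/
noncomputable def cc (d i k : ℕ) : ℂ := muC (d * k) * ((Real.log k ^ i : ℝ) : ℂ)

/-- Twist of a coefficient sequence by `e(-θ q k)`. -/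
noncomputable def ct (c : ℕ → ℂ) (θ : ℝ) (q k : ℕ) : ℂ := c k * ee (-(θ * (q * k)))

/-- `∑_{k ≤ K} c(q,k) g(N - qk)`. -/
noncomputable def EG (c : ℕ → ℕ → ℂ) (K : ℕ) (g : ℤ → ℂ) (N q : ℕ) : ℂ :=
  ∑ k ∈ Icc 1 K, c q k * g ((N : ℤ) - q * k)

/-- The weighted second moment over the moduli `q ∈ S` and the `N` in the window of half-width `W`
around `X`. -/
noncomputable def TT (W X : ℕ) (S : Finset ℕ) (c : ℕ → ℕ → ℂ) (K : ℕ) (g : ℤ → ℂ) : ℝ :=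
  ∑ q ∈ S, ∑ N ∈ Ioo (X - W) (X + W), tri W ((N : ℝ) - X) * ‖EG c K g N q‖ ^ 2

/-- Length of the `k`-sum for moduli `q ≥ Q`. -/
def KK (X Q : ℕ) : ℕ := 4 * X / Q + 1

/-- Fourier transform of a function on `[-Y, Y]`. -/
noncomputable def gh (Y : ℕ) (g : ℤ → ℂ) (θ : ℝ) : ℂ :=
  ∑ n ∈ Icc (-(Y : ℤ)) Y, g n * ee (n * θ)

/-- `∑_{|w| ≤ Z} min(V, 1/‖wα‖)`. -/
noncomputable def LS (Z : ℕ) (V α : ℝ) : ℝ := ∑ w ∈ Icc (-(Z : ℤ)) Z, Fy V (w * α)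

/-- The weight of the first large sieve type inequality. -/
noncomputable def W1 (W : ℕ) (S : Finset ℕ) (c : ℕ → ℕ → ℂ) (K : ℕ) (α : ℝ) : ℝ :=
  ‖∑ q ∈ S, ∑ k₁ ∈ Icc 1 K, ∑ k₂ ∈ Icc 1 K, c q k₁ * (starRingEnd ℂ) (c q k₂) *
    ((tri W (q * ((k₁ : ℝ) - k₂)) : ℝ) : ℂ) * ee (q * ((k₁ : ℝ) - k₂) * α)‖

/-- Reduced residues. -/
def red (r : ℕ) : Finset ℕ := (range r).filter (fun a => a.Coprime r)

/-- The major arc part of `Λ`: `Λ` filtered around the fractions with denominator at most `R`,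
at scale `1/D`. -/
noncomputable def MJ (X R D : ℕ) (v : ℤ) : ℂ :=
  ∑ r ∈ Icc 1 R, ∑ a ∈ red r, ∑ n ∈ Icc 1 (2 * X),
    ((Λ n : ℝ) : ℂ) * ee (a * ((v : ℝ) - n) / r) * ((GD D ((v : ℝ) - n) : ℝ) : ℂ)

/-- The minor arc part. -/
noncomputable def fmin (X R D : ℕ) (v : ℤ) : ℂ := Lam (2 * X) v - MJ X R D v

/-- The multiplier of `MJ`. -/
noncomputable def Psi (R D : ℕ) (θ : ℝ) : ℝ :=
  ∑ r ∈ Icc 1 R, ∑ a ∈ red r, ‖∑ i ∈ range D, ee (i * (θ + a / r))‖ ^ 2 / (D : ℝ) ^ 2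

/-- Local average of `h` at scale `D`. -/
noncomputable def LAh (h : ℕ → ℂ) (Z D : ℕ) (v : ℤ) : ℂ :=
  ∑ n ∈ Icc 1 Z, h n * ((GD D ((v : ℝ) - n) : ℝ) : ℂ)

/-- `x_+^{2+it}`. -/
noncomputable def pw (x t : ℝ) : ℂ :=
  if x ≤ 0 then 0 else cexp ((2 + t * I) * (Real.log x : ℂ))

/-- The Mellin kernel of the local average. -/
noncomputable def kap (D : ℕ) (v : ℤ) (t : ℝ) : ℂ :=
  (pw ((v : ℝ) + D) t - 2 * pw (v : ℝ) t + pw ((v : ℝ) - D) t) /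
    ((D : ℂ) ^ 2 * ((1 + t * I) * (2 + t * I)))

/-- The Dirichlet polynomial `∑ h(n) n^{-1-it}`. -/
noncomputable def Fh (h : ℕ → ℂ) (Z : ℕ) (t : ℝ) : ℂ :=
  ∑ n ∈ Icc 1 Z, h n * cexp (-((1 + t * I) * (Real.log n : ℂ)))

/-- `∑_{k ≤ K, qk < y} c(k) e(-θqk) (y - qk)^{it}`. -/
noncomputable def ES (c : ℕ → ℂ) (θ : ℝ) (K : ℕ) (y t : ℝ) (q : ℕ) : ℂ :=
  ∑ k ∈ (Icc 1 K).filter (fun k : ℕ => ((q * k : ℕ) : ℝ) < y),
    ct c θ q k * cexp (I * ((t * Real.log (y - q * k) : ℝ) : ℂ))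

/-- Dirichlet convolution of two sequences. -/
noncomputable def cv (a b : ℕ → ℂ) (k : ℕ) : ℂ := ∑ p ∈ k.divisorsAntidiagonal, a p.1 * b p.2

/-- The cutoff of the denominators. -/
noncomputable def RR (B X : ℕ) : ℕ := ⌈Real.log X ^ B⌉₊

/-- The scale of the major arc part. -/
noncomputable def DD (B X W : ℕ) : ℕ := W / (RR B X) ^ 2

/-- The size conditions on the window. -/
def Win (ε : ℝ) (X W : ℕ) : Prop := (X : ℝ) ^ (1 / 2 + ε) ≤ W ∧ (W : ℝ) ≤ (X : ℝ) ^ (3 / 4 : ℝ)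

/-- The size conditions on the moduli. -/
def Md (ε : ℝ) (X Q : ℕ) : Prop := 1 ≤ Q ∧ (Q : ℝ) ≤ X * Real.exp (-(Real.log X) ^ ε)

/-- The target bound. -/
noncomputable def Bd (A X W Q : ℕ) : ℝ := W * (X : ℝ) ^ 2 / Q / Real.log X ^ A

end Pool.Agent.SInt
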