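import Pool.Agent.SInt.Pair
import Pool.Agent.SInt.Asy

open Finset Complex
open scoped ArithmeticFunction.Moebius ArithmeticFunction.vonMangoldt

namespace Pool.Agent.SInt

open Pool.Agent.ANT

private lemma esi_log {b : ℕ → ℂ} {m N : ℕ} {B : ℝ} (hm : 1 ≤ m) (hN : 1 ≤ N)
    (hB : ∀ u, u ≤ N → ‖∑ n ∈ Ioc 0 u, b n‖ ≤ B) :
    ‖∑ n ∈ Ioc 0 N, ((Real.log ((m * n : ℕ) : ℝ) ^ 1 : ℝ) : ℂ) * b n‖ ≤
      B * (2 * (Real.log m + Real.log N)) := by
  have hm0 : (0:ℝ) < m := by exact_mod_cast hm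
  have hm1 : (1:ℝ) ≤ m := by exact_mod_cast hm
  have hN0 : (0:ℝ) < N := by exact_mod_cast hN
  have hN1 : (1:ℝ) ≤ N := by exact_mod_cast hN
  have hlm : 0 ≤ Real.log m := Real.log_nonneg hm1
  have hlN : 0 ≤ Real.log N := Real.log_nonneg hN1
  have hB0 : 0 ≤ B := (norm_nonneg _).trans (hB 0 (Nat.zero_le _))
  set L := Real.log m + Real.log N with hL
  set w : ℕ → ℝ := fun n => max (L - Real.log ((m * n : ℕ) : ℝ)) 0 with hw
  have hlog : ∀ n : ℕ, 0 < n → Real.log ((m * n : ℕ) : ℝ) = Real.log m + Real.log n := by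
    intro n hn
    have : (n:ℝ) ≠ 0 := by exact_mod_cast hn.ne'
    push_cast
    rw [Real.log_mul hm0.ne' this]
  have h1 : ∑ n ∈ Ioc 0 N, ((Real.log ((m * n : ℕ) : ℝ) ^ 1 : ℝ) : ℂ) * b n =
      (L : ℂ) * ∑ n ∈ Ioc 0 N, b n - ∑ n ∈ Ioc 0 N, b n * w n := by
    rw [Finset.mul_sum, ← Finset.sum_sub_distrib]
    refine Finset.sum_congr rfl fun n hn => ?_
    obtain ⟨hn1, hn2⟩ := Finset.mem_Ioc.mp hn
    have h2 : w n = L - Real.log ((m * n : ℕ) : ℝ) := by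
      rw [hw]
      refine max_eq_left ?_
      rw [hlog n hn1, hL]
      have : Real.log n ≤ Real.log N :=
        Real.log_le_log (by exact_mod_cast hn1) (by exact_mod_cast hn2)
      linarith
    rw [h2]
    push_cast
    ring
  have h3 : ‖∑ n ∈ Ioc 0 N, b n * w n‖ ≤ B * w 1 := by
    refine abel_ineq (Nat.zero_le N) (fun n _ => le_max_right _ _) (fun n hn => ?_)
      (fun u _ hu => hB u hu)
    refine max_le_max ?_ le_rfl
    rw [hlog n hn, hlog (n+1) (by omega)]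
    have : Real.log n ≤ Real.log ((n+1 : ℕ) : ℝ) :=
      Real.log_le_log (by exact_mod_cast hn) (by exact_mod_cast Nat.le_succ n)
    linarith
  have h4 : w 1 ≤ L := by
    rw [hw]
    refine max_le ?_ (by positivity)
    rw [hlog 1 (by omega)]
    simp only [Nat.cast_one, Real.log_one]
    linarith
  rw [h1]
  calc _ ≤ ‖(L : ℂ) * ∑ n ∈ Ioc 0 N, b n‖ + ‖∑ n ∈ Ioc 0 N, b n * w n‖ := norm_sub_le _ _
    _ ≤ L * B + B * L := by
        refine add_le_add ?_ (h3.trans (mul_le_mul_of_nonneg_left h4 hB0))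
        rw [norm_mul, Complex.norm_real, Real.norm_of_nonneg (by positivity)]
        exact mul_le_mul_of_nonneg_left (hB N le_rfl) (by positivity)
    _ = B * (2 * L) := by ring

private lemma esi_filter (y : ℝ) (s n₁ : ℕ) (hs : 1 ≤ s) :
    (Ioc 0 n₁).filter (fun n : ℕ => ((s * n : ℕ) : ℝ) < y) = Ioc 0 (min n₁ (⌈y / s⌉₊ - 1)) := by
  have hs0 : (0:ℝ) < s := by exact_mod_cast hs
  ext n
  simp only [Finset.mem_filter, Finset.mem_Ioc]
  have h1 : ((s * n : ℕ) : ℝ) < y ↔ n < ⌈y / s⌉₊ := by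
    rw [Nat.lt_ceil, lt_div_iff₀ hs0]
    push_cast
    rw [mul_comm]
  rw [h1]
  omega

/-- Smooth sums with the phase `t log(y - sn)`. -/
theorem ES_typeI : ∃ C : ℝ, 0 < C ∧ ∀ (y t η θ : ℝ) (b : ℤ) (r s n₁ : ℕ), 1 ≤ y → 1 ≤ |t| → 0 < η → η ≤ 1 / 2 →
    1 ≤ r → θ = b / r → 1 ≤ s →
    ‖∑ n ∈ (Ioc 0 n₁).filter (fun n : ℕ => ((s * n : ℕ) : ℝ) < y), ee (n * θ) *
        cexp (I * ((t * Real.log (y - s * n) : ℝ) : ℂ))‖ ≤
      C / η ^ 5 * (r * √|t| + y / s / √|t|) + η * y / s + 1 := by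
  obtain ⟨C, hC, hpair⟩ := pair_sum
  refine ⟨C, hC, ?_⟩
  intro y t η θ b r s n₁ hy ht hη hη2 hr hθ hs
  have hs0 : (0:ℝ) < s := by exact_mod_cast hs
  have hy0 : 0 < y := by linarith
  rw [esi_filter y s n₁ hs]
  set N := min n₁ (⌈y / s⌉₊ - 1) with hN
  set N' := min n₁ ⌊(1 - η) * y / s⌋₊ with hN'
  have ha0 : 0 ≤ (1 - η) * y / s := by
    apply div_nonneg _ hs0.le
    apply mul_nonneg (by linarith) hy0.le
  have hab : (1 - η) * y / s < y / s := by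
    apply div_lt_div_of_pos_right _ hs0
    nlinarith
  have hfl : ⌊(1 - η) * y / s⌋₊ ≤ ⌈y / s⌉₊ - 1 := by
    have : ⌊(1 - η) * y / s⌋₊ < ⌈y / s⌉₊ := by
      rw [Nat.lt_ceil]
      exact (Nat.floor_le ha0).trans_lt hab
    omega
  have hNN : N' ≤ N := by omega
  set F : ℕ → ℂ := fun n => ee (n * θ) * cexp (I * ((t * Real.log (y - s * n) : ℝ) : ℂ)) with hF
  have hsplit : ∑ n ∈ Ioc 0 N, F n = ∑ n ∈ Ioc 0 N', F n + ∑ n ∈ Ioc N' N, F n := by
    rw [← Finset.sum_union]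
    · congr 1
      ext n
      simp only [Finset.mem_union, Finset.mem_Ioc]
      omega
    · rw [Finset.disjoint_left]
      intro n hn hn'
      simp only [Finset.mem_Ioc] at hn hn'
      omega
  have hFn : ∀ n, ‖F n‖ = 1 := by
    intro n
    rw [hF]
    simp only
    rw [norm_mul, norm_ee, one_mul, mul_comm I, Complex.norm_exp_ofReal_mul_I]
  have h1 : ‖∑ n ∈ Ioc 0 N', F n‖ ≤ C / η ^ 5 * (r * √|t| + y / s / √|t|) := by
    have h2 := hpair y (-t) 0 s η θ b r 0 N' hy0 (by rwa [abs_neg]) le_rfl hs0 hη hη2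
      (by nlinarith) hr hθ (by
        have h3 : (N' : ℝ) ≤ (1 - η) * y / s :=
          le_trans (by exact_mod_cast min_le_right _ _) (Nat.floor_le ha0)
        rwa [le_div_iff₀ hs0] at h3)
    rw [abs_neg] at h2
    refine le_trans (le_of_eq ?_) h2
    have h4 : ∑ n ∈ Ioc 0 N', F n = cexp (I * ((t * Real.log y : ℝ) : ℂ)) *
        ∑ n ∈ Ioc 0 N', ee (n * θ) *
          cexp (I * ((-t * (Real.log (y - 0 * n) - Real.log (y - s * n)) : ℝ) : ℂ)) := by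
      rw [Finset.mul_sum]
      refine Finset.sum_congr rfl fun n _ => ?_
      rw [hF]
      simp only
      rw [mul_left_comm, ← Complex.exp_add]
      congr 2
      rw [← mul_add, ← Complex.ofReal_add]
      congr 2
      rw [zero_mul, sub_zero]
      ring
    rw [h4, norm_mul, mul_comm I, Complex.norm_exp_ofReal_mul_I, one_mul]
  have h5 : ‖∑ n ∈ Ioc N' N, F n‖ ≤ η * y / s + 1 := by
    have h6 : ‖∑ n ∈ Ioc N' N, F n‖ ≤ ((N - N' : ℕ) : ℝ) := by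
      calc _ ≤ ∑ n ∈ Ioc N' N, ‖F n‖ := norm_sum_le _ _
        _ = ((N - N' : ℕ) : ℝ) := by
            rw [Finset.sum_congr rfl (fun n _ => hFn n)]
            simp
    refine h6.trans ?_
    have h7 : N - N' ≤ ⌈y / s⌉₊ - 1 - ⌊(1 - η) * y / s⌋₊ := by omega
    have h8 : ((N - N' : ℕ) : ℝ) ≤ ((⌈y / s⌉₊ - 1 - ⌊(1 - η) * y / s⌋₊ : ℕ) : ℝ) := by
      exact_mod_cast h7
    refine h8.trans ?_
    have h9 : 1 ≤ ⌈y / s⌉₊ := by
      rw [Nat.one_le_ceil_iff]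
      positivity
    rw [Nat.cast_sub hfl, Nat.cast_sub h9, Nat.cast_one]
    have h10 : (⌈y / s⌉₊ : ℝ) < y / s + 1 := Nat.ceil_lt_add_one (by positivity)
    have h11 : (1 - η) * y / s - 1 < (⌊(1 - η) * y / s⌋₊ : ℝ) := Nat.sub_one_lt_floor _
    have h12 : (1 - η) * y / s = y / s - η * y / s := by ring
    linarith
  rw [hsplit]
  calc _ ≤ ‖∑ n ∈ Ioc 0 N', F n‖ + ‖∑ n ∈ Ioc N' N, F n‖ := norm_add_le _ _
    _ ≤ _ := by linarith

/-- with the weight `log(tn)`. -/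
theorem ES_typeI_log : ∃ C : ℝ, 0 < C ∧ ∀ (y t η θ : ℝ) (b : ℤ) (r s n₁ m i : ℕ), 1 ≤ y → 1 ≤ |t| → 0 < η → η ≤ 1 / 2 →
    1 ≤ r → θ = b / r → 1 ≤ s → 1 ≤ m → i ≤ 1 →
    ‖∑ n ∈ (Ioc 0 n₁).filter (fun n : ℕ => ((s * n : ℕ) : ℝ) < y), ((Real.log ((m * n : ℕ) : ℝ) ^ i : ℝ) : ℂ) *
        (ee (n * θ) * cexp (I * ((t * Real.log (y - s * n) : ℝ) : ℂ)))‖ ≤
      (C / η ^ 5 * (r * √|t| + y / s / √|t|) + η * y / s + 1) * (2 * (1 + Real.log m + Real.log y)) := by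
  obtain ⟨C, hC, hI⟩ := ES_typeI
  refine ⟨C, hC, ?_⟩
  intro y t η θ b r s n₁ m i hy ht hη hη2 hr hθ hs hm hi
  have hs0 : (0:ℝ) < s := by exact_mod_cast hs
  have hs1 : (1:ℝ) ≤ s := by exact_mod_cast hs
  have hm1 : (1:ℝ) ≤ m := by exact_mod_cast hm
  have hy0 : 0 < y := by linarith
  have hlm : 0 ≤ Real.log m := Real.log_nonneg hm1
  have hly : 0 ≤ Real.log y := Real.log_nonneg hy
  have hB0 : 0 ≤ C / η ^ 5 * (r * √|t| + y / s / √|t|) + η * y / s + 1 := by positivity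
  rcases Nat.le_one_iff_eq_zero_or_eq_one.mp hi with rfl | rfl
  · have h1 := hI y t η θ b r s n₁ hy ht hη hη2 hr hθ hs
    simp only [pow_zero, Complex.ofReal_one, one_mul]
    refine h1.trans ?_
    refine le_mul_of_one_le_right hB0 (by linarith)
  · have h1 : ∀ u, u ≤ min n₁ (⌈y / s⌉₊ - 1) → ‖∑ n ∈ Ioc 0 u, (ee (n * θ) *
        cexp (I * ((t * Real.log (y - s * n) : ℝ) : ℂ)))‖ ≤
          C / η ^ 5 * (r * √|t| + y / s / √|t|) + η * y / s + 1 := by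
      intro u hu
      have h2 := hI y t η θ b r s u hy ht hη hη2 hr hθ hs
      rw [esi_filter y s u hs] at h2
      have h3 : min u (⌈y / s⌉₊ - 1) = u := by omega
      rwa [h3] at h2
    rw [esi_filter y s n₁ hs]
    set N := min n₁ (⌈y / s⌉₊ - 1) with hN
    rcases Nat.eq_zero_or_pos N with h0 | h0
    · rw [h0]
      simp only [Finset.Ioc_self, Finset.sum_empty, norm_zero]
      positivity
    · refine (esi_log hm h0 h1).trans ?_
      refine mul_le_mul_of_nonneg_left ?_ hB0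
      have h4 : (N:ℝ) ≤ y := by
        have h5 : N < ⌈y / s⌉₊ := by omega
        rw [Nat.lt_ceil] at h5
        refine h5.le.trans (div_le_self hy0.le hs1)
      have h6 : Real.log N ≤ Real.log y := Real.log_le_log (by exact_mod_cast h0) h4
      linarith

end Pool.Agent.SInt
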