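import Pool.Agent.SInt.Pair
import Pool.Agent.SInt.Asy

open Finset Complex
open scoped ArithmeticFunction.Moebius ArithmeticFunction.vonMangoldt

namespace Pool.Agent.SInt

open Pool.Agent.ANT

/-- number of natural numbers in a real interval -/
theorem ESbigQ_count (S : Finset ℕ) (u v : ℝ) (huv : u ≤ v) (hS : ∀ k ∈ S, u < k ∧ (k : ℝ) < v) :
    (S.card : ℝ) ≤ v - u + 1 := by
  rcases S.eq_empty_or_nonempty with rfl | hne
  · rw [Finset.card_empty, Nat.cast_zero]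
    linarith
  · have h1 : S ⊆ Icc (S.min' hne) (S.max' hne) := fun k hk =>
      Finset.mem_Icc.mpr ⟨S.min'_le k hk, S.le_max' k hk⟩
    have h2 := Finset.card_le_card h1
    rw [Nat.card_Icc] at h2
    have h3 := (hS _ (S.min'_mem hne)).1
    have h4 := (hS _ (S.max'_mem hne)).2
    have h5 : S.min' hne ≤ S.max' hne := S.min'_le _ (S.max'_mem hne)
    have h6 : S.card + S.min' hne ≤ S.max' hne + 1 := by omega
    have h7 : ((S.card + S.min' hne : ℕ) : ℝ) ≤ ((S.max' hne + 1 : ℕ) : ℝ) := by exact_mod_cast h6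
    push_cast at h7
    linarith

/-- the phase -/
noncomputable def ESbigQ_ph (θ y t : ℝ) (q k : ℕ) : ℂ :=
  ee (-(θ * (q * k))) * cexp (I * ((t * Real.log (y - q * k) : ℝ) : ℂ))

theorem ESbigQ_norm_ph (θ y t : ℝ) (q k : ℕ) : ‖ESbigQ_ph θ y t q k‖ = 1 := by
  unfold ESbigQ_ph
  rw [norm_mul, norm_ee, one_mul, mul_comm, Complex.norm_exp_ofReal_mul_I]

/-- the main part of the sum -/
noncomputable def ESbigQ_S3 (c : ℕ → ℂ) (θ : ℝ) (K : ℕ) (y t η : ℝ) (q : ℕ) : ℂ :=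
  ∑ k ∈ (Icc 1 K).filter (fun k : ℕ => η * K < k),
    if (q : ℝ) * k ≤ (1 - η) * y then c k * ESbigQ_ph θ y t q k else 0

theorem ESbigQ_split (c : ℕ → ℂ) (θ : ℝ) (K : ℕ) (y t η L : ℝ) (q : ℕ) (hq : 1 ≤ q) (hη : 0 < η)
    (hy : 0 < y) (hL : 0 ≤ L) (hc : ∀ k ∈ Icc 1 K, ‖c k‖ ≤ 2 * L) :
    ‖ES c θ K y t q‖ ≤ ‖ESbigQ_S3 c θ K y t η q‖ + 2 * L * (η * K + η * y / q + 1) := by
  have hq' : (0 : ℝ) < q := by exact_mod_cast hq
  set E := (Icc 1 K).filter (fun k : ℕ => ((q * k : ℕ) : ℝ) < y) with hE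
  set E3 := (Icc 1 K).filter (fun k : ℕ => η * K < k ∧ (q : ℝ) * k ≤ (1 - η) * y) with hE3
  have h1 : ES c θ K y t q = ∑ k ∈ E, c k * ESbigQ_ph θ y t q k := by
    unfold ES ct ESbigQ_ph
    refine Finset.sum_congr rfl fun k _ => ?_
    ring
  have h2 : ESbigQ_S3 c θ K y t η q = ∑ k ∈ E3, c k * ESbigQ_ph θ y t q k := by
    unfold ESbigQ_S3
    rw [← Finset.sum_filter, Finset.filter_filter]
  have h3 : E3 ⊆ E := by
    intro k hk
    rw [hE3, Finset.mem_filter] at hk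
    rw [hE, Finset.mem_filter]
    refine ⟨hk.1, ?_⟩
    push_cast
    nlinarith [hk.2.2]
  have h4 : ((E \ E3).card : ℝ) ≤ η * K + (η * y / q + 1) := by
    have h5 : E \ E3 ⊆ Icc 1 ⌊η * K⌋₊ ∪
        (Icc 1 K).filter (fun k : ℕ => (1 - η) * y / q < k ∧ (k : ℝ) < y / q) := by
      intro k hk
      rw [Finset.mem_sdiff, hE, hE3, Finset.mem_filter, Finset.mem_filter] at hk
      obtain ⟨⟨k1, k2⟩, k3⟩ := hk
      rw [Finset.mem_union, Finset.mem_Icc, Finset.mem_filter]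
      by_cases h : η * K < k
      · right
        have h6 : ¬ (q : ℝ) * k ≤ (1 - η) * y := fun h' => k3 ⟨k1, h, h'⟩
        push Not at h6
        push_cast at k2
        refine ⟨k1, ?_, ?_⟩
        · rw [div_lt_iff₀ hq']
          linarith
        · rw [lt_div_iff₀ hq']
          linarith
      · left
        push Not at h
        exact ⟨(Finset.mem_Icc.mp k1).1, Nat.le_floor h⟩
    have h6 := Finset.card_le_card h5
    have h7 := h6.trans (Finset.card_union_le _ _)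
    rw [Nat.card_Icc, Nat.add_sub_cancel] at h7
    have h8 := ESbigQ_count
      ((Icc 1 K).filter (fun k : ℕ => (1 - η) * y / q < k ∧ (k : ℝ) < y / q))
      ((1 - η) * y / q) (y / q) (by
        apply div_le_div_of_nonneg_right _ hq'.le
        nlinarith) (fun k hk => (Finset.mem_filter.mp hk).2)
    have h9 : y / q - (1 - η) * y / q + 1 = η * y / q + 1 := by
      field_simp
      ring
    rw [h9] at h8
    have h10 : ((⌊η * K⌋₊ : ℕ) : ℝ) ≤ η * K := Nat.floor_le (by positivity)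
    have h11 : ((E \ E3).card : ℝ) ≤ (⌊η * K⌋₊ : ℕ) +
        (((Icc 1 K).filter (fun k : ℕ => (1 - η) * y / q < k ∧ (k : ℝ) < y / q)).card : ℝ) := by
      exact_mod_cast h7
    linarith
  rw [h1, h2, ← Finset.sum_sdiff h3, add_comm]
  refine (norm_add_le _ _).trans (add_le_add_right ?_ _)
  have h5 : ‖∑ k ∈ E \ E3, c k * ESbigQ_ph θ y t q k‖ ≤ ((E \ E3).card : ℝ) * (2 * L) := by
    rw [← nsmul_eq_mul, ← Finset.sum_const]
    refine norm_sum_le_of_le _ fun k hk => ?_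
    rw [norm_mul, ESbigQ_norm_ph, mul_one]
    refine hc k ?_
    rw [Finset.mem_sdiff, hE, Finset.mem_filter] at hk
    exact hk.1.1
  refine h5.trans ?_
  nlinarith

/-- the correlations -/
noncomputable def ESbigQ_T (θ y t η : ℝ) (Q k₁ k₂ : ℕ) : ℂ :=
  ∑ q ∈ Ico Q (2 * Q), if (q : ℝ) * k₁ ≤ (1 - η) * y ∧ (q : ℝ) * k₂ ≤ (1 - η) * y then
    ESbigQ_ph θ y t q k₁ * (starRingEnd ℂ) (ESbigQ_ph θ y t q k₂) else 0

theorem ESbigQ_T_triv (θ y t η : ℝ) (Q k₁ k₂ : ℕ) : ‖ESbigQ_T θ y t η Q k₁ k₂‖ ≤ Q := by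
  unfold ESbigQ_T
  have h : ∀ q ∈ Ico Q (2 * Q), ‖if (q : ℝ) * k₁ ≤ (1 - η) * y ∧ (q : ℝ) * k₂ ≤ (1 - η) * y then
    ESbigQ_ph θ y t q k₁ * (starRingEnd ℂ) (ESbigQ_ph θ y t q k₂) else 0‖ ≤ (1 : ℝ) := by
    intro q _
    split_ifs
    · rw [norm_mul, RCLike.norm_conj, ESbigQ_norm_ph, ESbigQ_norm_ph, one_mul]
    · rw [norm_zero]
      exact zero_le_one
  refine (norm_sum_le_of_le _ h).trans ?_
  rw [Finset.sum_const, Nat.card_Ico, nsmul_eq_mul, mul_one]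
  have : 2 * Q - Q = Q := by omega
  rw [this]

theorem ESbigQ_T_symm (θ y t η : ℝ) (Q k₁ k₂ : ℕ) :
    ‖ESbigQ_T θ y t η Q k₁ k₂‖ = ‖ESbigQ_T θ y t η Q k₂ k₁‖ := by
  have h : ESbigQ_T θ y t η Q k₁ k₂ = (starRingEnd ℂ) (ESbigQ_T θ y t η Q k₂ k₁) := by
    unfold ESbigQ_T
    rw [map_sum]
    refine Finset.sum_congr rfl fun q _ => ?_
    by_cases h1 : (q : ℝ) * k₁ ≤ (1 - η) * y <;> by_cases h2 : (q : ℝ) * k₂ ≤ (1 - η) * y
    · rw [if_pos ⟨h1, h2⟩, if_pos ⟨h2, h1⟩, map_mul, Complex.conj_conj, mul_comm]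
    · rw [if_neg (fun h => h2 h.2), if_neg (fun h => h2 h.1), map_zero]
    · rw [if_neg (fun h => h1 h.1), if_neg (fun h => h1 h.2), map_zero]
    · rw [if_neg (fun h => h1 h.1), if_neg (fun h => h1 h.2), map_zero]
  rw [h, RCLike.norm_conj]

/-- the hypothesis `pair_sum` for a fixed constant -/
def ESbigQ_PS (C : ℝ) : Prop :=
  ∀ (y t x₁ x₂ η θ : ℝ) (b : ℤ) (r n₀ n₁ : ℕ), 0 < y → 1 ≤ |t| → 0 ≤ x₁ → x₁ < x₂ →
    0 < η → η ≤ 1 / 2 → η * x₂ ≤ x₂ - x₁ → 1 ≤ r → θ = b / r → n₁ * x₂ ≤ (1 - η) * y →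
    ‖∑ n ∈ Ioc n₀ n₁, ee (n * θ) *
        cexp (I * ((t * (Real.log (y - x₁ * n) - Real.log (y - x₂ * n)) : ℝ) : ℂ))‖ ≤
      C / η ^ 5 * (r * √|t| + y / x₂ / √|t|)

theorem ESbigQ_T_lt {C : ℝ} (hC : ESbigQ_PS C) (y t η : ℝ) (a : ℤ) (r Q k₁ k₂ : ℕ) (hQ : 1 ≤ Q)
    (hy : 0 < y) (ht : 1 ≤ |t|) (h12 : k₁ < k₂) (hη : 0 < η) (hη1 : η ≤ 1 / 2)
    (hk : η * k₂ ≤ (k₂ : ℝ) - k₁) (hr : 1 ≤ r) :
    ‖ESbigQ_T ((a : ℝ) / r) y t η Q k₁ k₂‖ ≤ C / η ^ 5 * (r * √|t| + y / k₂ / √|t|) := by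
  have h12' : (k₁ : ℝ) < k₂ := by exact_mod_cast h12
  have hk2 : (0 : ℝ) < k₂ := lt_of_le_of_lt (Nat.cast_nonneg _) h12'
  set n₁ := min (2 * Q - 1) ⌊(1 - η) * y / k₂⌋₊ with hn₁
  have hnn : 0 ≤ (1 - η) * y / k₂ := by
    apply div_nonneg _ hk2.le
    exact mul_nonneg (by linarith) hy.le
  have hn1 : (n₁ : ℝ) * k₂ ≤ (1 - η) * y := by
    have h1 : (n₁ : ℝ) ≤ (1 - η) * y / k₂ :=
      le_trans (by exact_mod_cast min_le_right _ _) (Nat.floor_le hnn)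
    rwa [le_div_iff₀ hk2] at h1
  have hset : (Ico Q (2 * Q)).filter
      (fun q : ℕ => (q : ℝ) * k₁ ≤ (1 - η) * y ∧ (q : ℝ) * k₂ ≤ (1 - η) * y) = Ioc (Q - 1) n₁ := by
    ext q
    rw [Finset.mem_filter, Finset.mem_Ico, Finset.mem_Ioc, hn₁, le_min_iff, Nat.le_floor_iff hnn,
      le_div_iff₀ hk2]
    constructor
    · rintro ⟨⟨h1, h2⟩, -, h3⟩
      exact ⟨by omega, by omega, h3⟩
    · rintro ⟨h1, h2, h3⟩
      refine ⟨⟨by omega, by omega⟩, le_trans ?_ h3, h3⟩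
      exact mul_le_mul_of_nonneg_left h12'.le (Nat.cast_nonneg _)
  have h := hC y t k₁ k₂ η ((a : ℝ) * ((k₂ : ℝ) - k₁) / r) (a * ((k₂ : ℤ) - k₁)) r (Q - 1) n₁ hy ht
    (Nat.cast_nonneg _) h12' hη hη1 hk hr (by push_cast; ring) hn1
  refine le_trans (le_of_eq ?_) h
  congr 1
  unfold ESbigQ_T
  rw [← Finset.sum_filter, hset]
  refine Finset.sum_congr rfl fun q _ => ?_
  unfold ESbigQ_ph
  rw [map_mul, conj_ee, ← Complex.exp_conj, map_mul, Complex.conj_I, Complex.conj_ofReal]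
  have e1 : ee (-((a : ℝ) / r * (q * k₁))) * ee (- -((a : ℝ) / r * (q * k₂))) =
      ee (q * ((a : ℝ) * ((k₂ : ℝ) - k₁) / r)) := by
    rw [← ee_add]
    congr 1
    ring
  have e2 : cexp (I * ((t * Real.log (y - q * k₁) : ℝ) : ℂ)) *
      cexp (-I * ((t * Real.log (y - q * k₂) : ℝ) : ℂ)) =
      cexp (I * ((t * (Real.log (y - k₁ * q) - Real.log (y - k₂ * q)) : ℝ) : ℂ)) := by
    rw [← Complex.exp_add, mul_comm (k₁ : ℝ), mul_comm (k₂ : ℝ)]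
    congr 1
    push_cast
    ring
  rw [← e1, ← e2]
  ring

/-- expansion of the square -/
theorem ESbigQ_expand (c : ℕ → ℂ) (θ : ℝ) (K Q : ℕ) (y t η L : ℝ) (hL : 0 ≤ L)
    (hc : ∀ k ∈ Icc 1 K, ‖c k‖ ≤ 2 * L) :
    ∑ q ∈ Ico Q (2 * Q), ‖ESbigQ_S3 c θ K y t η q‖ ^ 2 ≤
      4 * L ^ 2 * ∑ k₁ ∈ (Icc 1 K).filter (fun k : ℕ => η * K < k),
        ∑ k₂ ∈ (Icc 1 K).filter (fun k : ℕ => η * K < k), ‖ESbigQ_T θ y t η Q k₁ k₂‖ := by
  set J := (Icc 1 K).filter (fun k : ℕ => η * K < k) with hJ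
  have h1 : ((∑ q ∈ Ico Q (2 * Q), ‖ESbigQ_S3 c θ K y t η q‖ ^ 2 : ℝ) : ℂ) =
      ∑ k₁ ∈ J, ∑ k₂ ∈ J, c k₁ * (starRingEnd ℂ) (c k₂) * ESbigQ_T θ y t η Q k₁ k₂ := by
    have h2 : ∀ q, ((‖ESbigQ_S3 c θ K y t η q‖ ^ 2 : ℝ) : ℂ) =
        ∑ k₁ ∈ J, ∑ k₂ ∈ J, c k₁ * (starRingEnd ℂ) (c k₂) *
          (if (q : ℝ) * k₁ ≤ (1 - η) * y ∧ (q : ℝ) * k₂ ≤ (1 - η) * y then
            ESbigQ_ph θ y t q k₁ * (starRingEnd ℂ) (ESbigQ_ph θ y t q k₂) else 0) := by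
      intro q
      rw [Complex.ofReal_pow, ← Complex.mul_conj']
      unfold ESbigQ_S3
      rw [map_sum, Finset.sum_mul_sum]
      refine Finset.sum_congr rfl fun k₁ _ => Finset.sum_congr rfl fun k₂ _ => ?_
      by_cases h1 : (q : ℝ) * k₁ ≤ (1 - η) * y <;> by_cases h2 : (q : ℝ) * k₂ ≤ (1 - η) * y
      · rw [if_pos h1, if_pos h2, if_pos ⟨h1, h2⟩, map_mul]
        ring
      · have hn : ¬ ((q : ℝ) * k₁ ≤ (1 - η) * y ∧ (q : ℝ) * k₂ ≤ (1 - η) * y) := fun h => h2 h.2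
        rw [if_neg hn, if_neg h2, map_zero, mul_zero, mul_zero]
      · have hn : ¬ ((q : ℝ) * k₁ ≤ (1 - η) * y ∧ (q : ℝ) * k₂ ≤ (1 - η) * y) := fun h => h1 h.1
        rw [if_neg hn, if_neg h1, zero_mul, mul_zero]
      · have hn : ¬ ((q : ℝ) * k₁ ≤ (1 - η) * y ∧ (q : ℝ) * k₂ ≤ (1 - η) * y) := fun h => h1 h.1
        rw [if_neg hn, if_neg h1, zero_mul, mul_zero]
    rw [Complex.ofReal_sum, Finset.sum_congr rfl fun q _ => h2 q, Finset.sum_comm]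
    refine Finset.sum_congr rfl fun k₁ _ => ?_
    rw [Finset.sum_comm]
    refine Finset.sum_congr rfl fun k₂ _ => ?_
    rw [← Finset.mul_sum]
    rfl
  have h2 : 0 ≤ ∑ q ∈ Ico Q (2 * Q), ‖ESbigQ_S3 c θ K y t η q‖ ^ 2 :=
    Finset.sum_nonneg fun q _ => by positivity
  rw [← Real.norm_of_nonneg h2, ← Complex.norm_real, h1, Finset.mul_sum]
  refine (norm_sum_le _ _).trans (Finset.sum_le_sum fun k₁ hk₁ => ?_)
  rw [Finset.mul_sum]
  refine (norm_sum_le _ _).trans (Finset.sum_le_sum fun k₂ hk₂ => ?_)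
  rw [norm_mul, norm_mul, RCLike.norm_conj]
  refine mul_le_mul_of_nonneg_right ?_ (norm_nonneg _)
  have h3 := hc k₁ (Finset.mem_filter.mp hk₁).1
  have h4 := hc k₂ (Finset.mem_filter.mp hk₂).1
  calc ‖c k₁‖ * ‖c k₂‖ ≤ (2 * L) * (2 * L) := mul_le_mul h3 h4 (norm_nonneg _) (by positivity)
    _ = 4 * L ^ 2 := by ring

theorem ESbigQ_core {C : ℝ} (hC : ESbigQ_PS C) (c : ℕ → ℂ) (K Q r : ℕ) (a : ℤ) (y t η L M D : ℝ)
    (hQ : 1 ≤ Q) (hL : 0 ≤ L) (hc : ∀ k ∈ Icc 1 K, ‖c k‖ ≤ 2 * L) (hη : 0 < η) (hη1 : η ≤ 1 / 2)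
    (hy : 0 < y) (ht : 1 ≤ |t|) (hr : 1 ≤ r) (hM0 : 0 ≤ M)
    (hM : ∀ k : ℕ, η * K < k → C / η ^ 5 * (r * √|t| + y / k / √|t|) ≤ M)
    (hD : ∀ q ∈ Ico Q (2 * Q), η * K + η * y / q + 1 ≤ D) :
    ∑ q ∈ Ico Q (2 * Q), ‖ES c ((a : ℝ) / r) K y t q‖ ^ 2 ≤
      2 * (Q * (2 * L * D) ^ 2) + 2 * (4 * L ^ 2 * (Q * (K * (2 * (η * K) + 1)) + M * K ^ 2)) := by
  have h1 : ∀ q ∈ Ico Q (2 * Q), ‖ES c ((a : ℝ) / r) K y t q‖ ^ 2 ≤
      2 * (2 * L * D) ^ 2 + 2 * ‖ESbigQ_S3 c ((a : ℝ) / r) K y t η q‖ ^ 2 := by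
    intro q hq
    have hq1 : 1 ≤ q := hQ.trans (Finset.mem_Ico.mp hq).1
    have h2 := ESbigQ_split c ((a : ℝ) / r) K y t η L q hq1 hη hy hL hc
    have h3 : 2 * L * (η * K + η * y / q + 1) ≤ 2 * L * D :=
      mul_le_mul_of_nonneg_left (hD q hq) (by positivity)
    have h4 : ‖ES c ((a : ℝ) / r) K y t q‖ ≤ ‖ESbigQ_S3 c ((a : ℝ) / r) K y t η q‖ + 2 * L * D := by
      linarith
    have h5 := pow_le_pow_left₀ (norm_nonneg _) h4 2
    nlinarith [sq_nonneg (‖ESbigQ_S3 c ((a : ℝ) / r) K y t η q‖ - 2 * L * D)]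
  have h2 := ESbigQ_expand c ((a : ℝ) / r) K Q y t η L hL hc
  set J := (Icc 1 K).filter (fun k : ℕ => η * K < k) with hJ
  have hJK : (J.card : ℝ) ≤ K := by
    have := (Finset.card_filter_le (Icc 1 K) (fun k : ℕ => η * K < k))
    rw [Nat.card_Icc, Nat.add_sub_cancel] at this
    exact_mod_cast this
  have hT : ∀ k₁ ∈ J, ∀ k₂ ∈ J, ‖ESbigQ_T ((a : ℝ) / r) y t η Q k₁ k₂‖ ≤
      (if (k₁ : ℝ) - η * K < k₂ ∧ (k₂ : ℝ) < k₁ + η * K then (Q : ℝ) else 0) + M := by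
    intro k₁ hk₁ k₂ hk₂
    rw [hJ, Finset.mem_filter, Finset.mem_Icc] at hk₁ hk₂
    have a1 : (k₁ : ℝ) ≤ K := by exact_mod_cast hk₁.1.2
    have a2 : (k₂ : ℝ) ≤ K := by exact_mod_cast hk₂.1.2
    split_ifs with hcl
    · have := ESbigQ_T_triv ((a : ℝ) / r) y t η Q k₁ k₂
      linarith
    · rw [zero_add]
      rcases lt_trichotomy k₁ k₂ with h | h | h
      · have h' : (k₁ : ℝ) < k₂ := by exact_mod_cast h
        refine (ESbigQ_T_lt hC y t η a r Q k₁ k₂ hQ hy ht h hη hη1 ?_ hr).trans (hM k₂ hk₂.2)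
        by_contra hcon
        push Not at hcon
        apply hcl
        constructor <;> nlinarith
      · exfalso
        apply hcl
        have hK : (0 : ℝ) < K := lt_of_lt_of_le (by exact_mod_cast hk₁.1.1) a1
        subst h
        constructor <;> nlinarith
      · have h' : (k₂ : ℝ) < k₁ := by exact_mod_cast h
        rw [ESbigQ_T_symm]
        refine (ESbigQ_T_lt hC y t η a r Q k₂ k₁ hQ hy ht h hη hη1 ?_ hr).trans (hM k₁ hk₁.2)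
        by_contra hcon
        push Not at hcon
        apply hcl
        constructor <;> nlinarith
  have hsum : ∑ k₁ ∈ J, ∑ k₂ ∈ J, ‖ESbigQ_T ((a : ℝ) / r) y t η Q k₁ k₂‖ ≤
      Q * (K * (2 * (η * K) + 1)) + M * K ^ 2 := by
    have h3 : ∀ k₁ ∈ J, ∑ k₂ ∈ J, ‖ESbigQ_T ((a : ℝ) / r) y t η Q k₁ k₂‖ ≤
        Q * (2 * (η * K) + 1) + M * K := by
      intro k₁ hk₁
      refine (Finset.sum_le_sum fun k₂ hk₂ => hT k₁ hk₁ k₂ hk₂).trans ?_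
      rw [Finset.sum_add_distrib, ← Finset.sum_filter, Finset.sum_const, Finset.sum_const,
        nsmul_eq_mul, nsmul_eq_mul]
      have hηK : 0 ≤ η * K := by positivity
      have h4 := ESbigQ_count (J.filter (fun k₂ : ℕ => (k₁ : ℝ) - η * K < k₂ ∧ (k₂ : ℝ) < k₁ + η * K))
        ((k₁ : ℝ) - η * K) (k₁ + η * K) (by linarith) (fun k hk => (Finset.mem_filter.mp hk).2)
      have h5 : (k₁ : ℝ) + η * K - (k₁ - η * K) + 1 = 2 * (η * K) + 1 := by ring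
      rw [h5] at h4
      have h6 := mul_le_mul_of_nonneg_right h4 (Nat.cast_nonneg Q : (0 : ℝ) ≤ Q)
      have h7 := mul_le_mul_of_nonneg_right hJK hM0
      linarith
    refine (Finset.sum_le_sum h3).trans ?_
    rw [Finset.sum_const, nsmul_eq_mul]
    have h4 : 0 ≤ Q * (2 * (η * K) + 1) + M * K := by positivity
    have h5 := mul_le_mul_of_nonneg_right hJK h4
    refine h5.trans (le_of_eq ?_)
    ring
  refine (Finset.sum_le_sum h1).trans ?_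
  rw [Finset.sum_add_distrib, Finset.sum_const, Nat.card_Ico, nsmul_eq_mul, ← Finset.mul_sum]
  have h3 : ((2 * Q - Q : ℕ) : ℝ) = Q := by
    congr 1
    omega
  rw [h3]
  have h4 : 4 * L ^ 2 * ∑ k₁ ∈ J, ∑ k₂ ∈ J, ‖ESbigQ_T ((a : ℝ) / r) y t η Q k₁ k₂‖ ≤
      4 * L ^ 2 * (Q * (K * (2 * (η * K) + 1)) + M * K ^ 2) :=
    mul_le_mul_of_nonneg_left hsum (by positivity)
  have h5 : (Q : ℝ) * (2 * (2 * L * D) ^ 2) = 2 * (Q * (2 * L * D) ^ 2) := by ring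
  rw [h5]
  linarith

theorem ESbigQ_num {L P C s u η : ℝ} {A B : ℕ} (hL : 2048 ≤ L) (hLC : 400 * C ≤ L)
    (hC : 0 < C) (hP : 0 ≤ P) (hs : 1600 * C * L ^ (2 + 5 * (A + 6) + B + A) ≤ s)
    (hu : L ^ (A + 3 + 6 * (A + 6)) ≤ u) (hη : η = 1 / L ^ (A + 6)) :
    512 * L ^ 2 * η ^ 2 * P + 8 * L ^ 2 * (75 * η * P +
      25 * (C / η ^ 5 * (2 * L ^ B / s + 1 / (2 * η) / u)) * P) ≤ P / L ^ A := by
  have hL0 : 0 < L := by linarith
  have hL1 : 1 ≤ L := by linarith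
  have hs0 : 0 < s := lt_of_lt_of_le (by positivity) hs
  have hu0 : 0 < u := lt_of_lt_of_le (by positivity) hu
  have hA : 0 < L ^ A := by positivity
  have hd : (1 : ℝ) / L ^ A / 4 = 1 / (L ^ A * 4) := by rw [div_div]
  have b1 : 512 * L ^ 2 * η ^ 2 ≤ 1 / L ^ A / 4 := by
    rw [hη, hd, le_div_iff₀ (by positivity)]
    have e : 512 * L ^ 2 * (1 / L ^ (A + 6)) ^ 2 * (L ^ A * 4) = 2048 / (L ^ (A + 10)) := by
      field_simp
      ring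
    rw [e, div_le_one (by positivity)]
    calc (2048 : ℝ) ≤ L := hL
      _ = L ^ 1 := (pow_one L).symm
      _ ≤ L ^ (A + 10) := pow_le_pow_right₀ hL1 (by omega)
  have b2 : 600 * L ^ 2 * η ≤ 1 / L ^ A / 4 := by
    rw [hη, hd, le_div_iff₀ (by positivity)]
    have e : 600 * L ^ 2 * (1 / L ^ (A + 6)) * (L ^ A * 4) = 2400 / L ^ 4 := by
      field_simp
      ring
    rw [e, div_le_one (by positivity)]
    have h2 : L ^ 2 ≤ L ^ 4 := pow_le_pow_right₀ hL1 (by omega)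
    nlinarith
  have b3 : 200 * L ^ 2 * (C / η ^ 5 * (2 * L ^ B / s)) ≤ 1 / L ^ A / 4 := by
    rw [hη, hd, le_div_iff₀ (by positivity)]
    have e : 200 * L ^ 2 * (C / (1 / L ^ (A + 6)) ^ 5 * (2 * L ^ B / s)) * (L ^ A * 4) =
        1600 * C * L ^ (2 + 5 * (A + 6) + B + A) / s := by
      field_simp
      ring
    rw [e, div_le_one hs0]
    exact hs
  have b4 : 200 * L ^ 2 * (C / η ^ 5 * (1 / (2 * η) / u)) ≤ 1 / L ^ A / 4 := by
    rw [hη, hd, le_div_iff₀ (by positivity)]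
    have e : 200 * L ^ 2 * (C / (1 / L ^ (A + 6)) ^ 5 * (1 / (2 * (1 / L ^ (A + 6))) / u)) *
        (L ^ A * 4) = 400 * C * L ^ (A + 2 + 6 * (A + 6)) / u := by
      field_simp
      ring
    rw [e, div_le_one hu0]
    refine le_trans ?_ hu
    have e2 : L ^ (A + 3 + 6 * (A + 6)) = L * L ^ (A + 2 + 6 * (A + 6)) := by ring
    rw [e2]
    exact mul_le_mul_of_nonneg_right hLC (by positivity)
  have e : 512 * L ^ 2 * η ^ 2 * P + 8 * L ^ 2 * (75 * η * P +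
      25 * (C / η ^ 5 * (2 * L ^ B / s + 1 / (2 * η) / u)) * P) =
      (512 * L ^ 2 * η ^ 2 + 600 * L ^ 2 * η + 200 * L ^ 2 * (C / η ^ 5 * (2 * L ^ B / s)) +
        200 * L ^ 2 * (C / η ^ 5 * (1 / (2 * η) / u))) * P := by ring
  have e' : P / L ^ A = 1 / L ^ A * P := by ring
  rw [e, e']
  refine mul_le_mul_of_nonneg_right ?_ hP
  linarith

theorem ESbigQ_log (R : ℝ) : ∃ X₀ : ℕ, ∀ X : ℕ, X₀ ≤ X → R ≤ Real.log X := by
  refine ⟨⌈Real.exp R⌉₊, fun X hX => ?_⟩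
  have h1 : Real.exp R ≤ X := (Nat.le_ceil _).trans (by exact_mod_cast hX)
  have h2 := Real.log_le_log (Real.exp_pos R) h1
  rwa [Real.log_exp] at h2

/-- size of the bound of `ESbigQ_core` -/
theorem ESbigQ_size {L C s u η K Q X LB : ℝ} (hC : 0 < C) (hL : 0 < L) (hη : 0 < η) (hs : 0 < s)
    (hu : 0 < u) (hQ : 0 < Q) (hX : 0 < X) (hLB : 0 < LB) (hK0 : 0 ≤ K) (hK : K ≤ 5 * (X / Q))
    (hηK : 1 ≤ η * K) (hsQ : s * s ≤ Q) :
    2 * (Q * (2 * L * (8 * (η * (X / Q)))) ^ 2) + 2 * (4 * L ^ 2 * (Q * (K * (2 * (η * K) + 1)) +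
      C / η ^ 5 * (2 * LB * s + Q / (2 * η) / u) * K ^ 2)) ≤
    512 * L ^ 2 * η ^ 2 * (X ^ 2 / Q) + 8 * L ^ 2 * (75 * η * (X ^ 2 / Q) +
      25 * (C / η ^ 5 * (2 * LB / s + 1 / (2 * η) / u)) * (X ^ 2 / Q)) := by
  have hP0 : 0 ≤ X ^ 2 / Q := by positivity
  have h2 : K ^ 2 ≤ (5 * (X / Q)) ^ 2 := pow_le_pow_left₀ hK0 hK 2
  have e1 : 2 * (Q * (2 * L * (8 * (η * (X / Q)))) ^ 2) = 512 * L ^ 2 * η ^ 2 * (X ^ 2 / Q) := by
    field_simp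
    ring
  have e2 : Q * (K * (2 * (η * K) + 1)) ≤ 75 * η * (X ^ 2 / Q) := by
    have h1 : K * (2 * (η * K) + 1) ≤ 3 * η * K ^ 2 := by nlinarith
    have h3 : K * (2 * (η * K) + 1) ≤ 3 * η * (5 * (X / Q)) ^ 2 :=
      h1.trans (mul_le_mul_of_nonneg_left h2 (by positivity))
    refine (mul_le_mul_of_nonneg_left h3 hQ.le).trans (le_of_eq ?_)
    field_simp
    ring
  have e3 : C / η ^ 5 * (2 * LB * s + Q / (2 * η) / u) * K ^ 2 ≤
      25 * (C / η ^ 5 * (2 * LB / s + 1 / (2 * η) / u)) * (X ^ 2 / Q) := by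
    have hM0 : 0 ≤ C / η ^ 5 * (2 * LB * s + Q / (2 * η) / u) := by positivity
    refine (mul_le_mul_of_nonneg_left h2 hM0).trans ?_
    have h3 : C / η ^ 5 * (2 * LB * s + Q / (2 * η) / u) * (5 * (X / Q)) ^ 2 =
        25 * (C / η ^ 5 * (2 * LB * (s / Q) + 1 / (2 * η) / u)) * (X ^ 2 / Q) := by
      field_simp
      ring
    rw [h3]
    refine mul_le_mul_of_nonneg_right ?_ hP0
    refine mul_le_mul_of_nonneg_left ?_ (by norm_num)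
    refine mul_le_mul_of_nonneg_left ?_ (by positivity)
    refine add_le_add ?_ le_rfl
    have h4 : s / Q ≤ 1 / s := by
      rw [div_le_div_iff₀ hQ hs]
      linarith
    calc 2 * LB * (s / Q) ≤ 2 * LB * (1 / s) := mul_le_mul_of_nonneg_left h4 (by positivity)
      _ = 2 * LB / s := by ring
  rw [e1]
  have h1 : 2 * (4 * L ^ 2 * (Q * (K * (2 * (η * K) + 1)) +
      C / η ^ 5 * (2 * LB * s + Q / (2 * η) / u) * K ^ 2)) =
      8 * L ^ 2 * (Q * (K * (2 * (η * K) + 1)) +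
        C / η ^ 5 * (2 * LB * s + Q / (2 * η) / u) * K ^ 2) := by ring
  rw [h1]
  exact add_le_add le_rfl (mul_le_mul_of_nonneg_left (add_le_add e2 e3) (by positivity))

theorem ESbigQ_M {C η u s LB rr y X Q K k : ℝ} (hC : 0 < C) (hη : 0 < η) (hu : 0 < u) (hus : u ≤ s)
    (hrB : rr ≤ 2 * LB) (hr0 : 0 ≤ rr) (hQ : 0 < Q) (hX : 0 < X) (hy2 : y ≤ 2 * X)
    (hK : 4 * (X / Q) ≤ K) (hk : η * K < k) :
    C / η ^ 5 * (rr * u + y / k / u) ≤ C / η ^ 5 * (2 * LB * s + Q / (2 * η) / u) := by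
  have h1 : η * (4 * (X / Q)) ≤ k := (mul_le_mul_of_nonneg_left hK hη.le).trans hk.le
  have hk0 : 0 < k := lt_of_lt_of_le (by positivity) h1
  refine mul_le_mul_of_nonneg_left ?_ (by positivity)
  refine add_le_add ?_ ?_
  · exact mul_le_mul hrB hus hu.le (by linarith)
  · refine div_le_div_of_nonneg_right ?_ hu.le
    rw [div_le_div_iff₀ hk0 (by positivity)]
    have h2 : η * (4 * (X / Q)) * Q = 4 * η * X := by
      field_simp
    have h3 := mul_le_mul_of_nonneg_right h1 hQ.le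
    rw [h2] at h3
    nlinarith

theorem ESbigQ_D {η X Q K y q : ℝ} (hη : 0 < η) (hQ : 0 < Q) (hX : 0 < X) (hy2 : y ≤ 2 * X)
    (hK : K ≤ 5 * (X / Q)) (hηX : 1 ≤ η * (X / Q)) (hq : Q ≤ q) :
    η * K + η * y / q + 1 ≤ 8 * (η * (X / Q)) := by
  have h1 : η * K ≤ 5 * (η * (X / Q)) := by
    have := mul_le_mul_of_nonneg_left hK hη.le
    linarith
  have h2 : η * y / q ≤ 2 * (η * (X / Q)) := by
    have h3 : η * y / q ≤ η * (2 * X) / Q :=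
      div_le_div₀ (by positivity) (mul_le_mul_of_nonneg_left hy2 hη.le) hQ hq
    refine h3.trans (le_of_eq ?_)
    ring
  linarith

/-- Large moduli: mean square over the modulus, arbitrary coefficients. -/
theorem ES_bigQ {ε' : ℝ} (hε' : 0 < ε') (A B : ℕ) : ∃ A₄ : ℕ, ∃ X₀ : ℕ, ∀ X : ℕ, X₀ ≤ X → ∀ Q : ℕ, Md ε' X Q →
    X ≤ Q ^ 2 → ∀ c : ℕ → ℂ, (∀ k ∈ Icc 1 (KK X Q), ‖c k‖ ≤ 2 * Real.log X) →
    ∀ y t : ℝ, (X : ℝ) / 2 ≤ y → y ≤ 2 * X → Real.log X ^ A₄ ≤ |t| → |t| ≤ (X : ℝ) ^ (1 / 2 : ℝ) →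
    ∀ r : ℕ, 1 ≤ r → (r : ℝ) ≤ 2 * Real.log X ^ B → ∀ a : ℤ,
    ∑ q ∈ Ico Q (2 * Q), ‖ES c ((a : ℝ) / r) (KK X Q) y t q‖ ^ 2 ≤ (X : ℝ) ^ 2 / Q / Real.log X ^ A := by
  obtain ⟨C, hC0, hC⟩ := pair_sum
  obtain ⟨X₁, hX₁⟩ := md_facts ε' hε' (A + 6)
  obtain ⟨X₂, hX₂⟩ := const_log_pow_le (1600 * C) (2 + 5 * (A + 6) + B + A) (δ := 1 / 4) (by norm_num)
  obtain ⟨X₃, hX₃⟩ := ESbigQ_log (max 2048 (400 * C))
  refine ⟨2 * (A + 3 + 6 * (A + 6)), max X₁ (max X₂ (max X₃ 1)), ?_⟩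
  intro X hX Q hMd hXQ c hc y t hy1 hy2 ht1 ht2 r hr hrB a
  have hXX₁ : X₁ ≤ X := (le_max_left _ _).trans hX
  have hXX₂ : X₂ ≤ X := ((le_max_left _ _).trans (le_max_right _ _)).trans hX
  have hXX₃ : X₃ ≤ X :=
    ((le_max_left _ _).trans ((le_max_right _ _).trans (le_max_right _ _))).trans hX
  have hX1 : 1 ≤ X :=
    ((le_max_right _ _).trans ((le_max_right _ _).trans (le_max_right _ _))).trans hX
  obtain ⟨hQX, hm, hK1, hK2, -, -⟩ := hX₁ X hXX₁ Q hMd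
  have hs := hX₂ X hXX₂
  have hLL := hX₃ X hXX₃
  have hQ1 : 1 ≤ Q := hMd.1
  generalize KK X Q = K at *
  have hL : 2048 ≤ Real.log X := (le_max_left _ _).trans hLL
  have hLC : 400 * C ≤ Real.log X := (le_max_right _ _).trans hLL
  generalize hLdef : Real.log X = L at *
  have hL0 : 0 < L := by linarith
  have hL1 : 1 ≤ L := by linarith
  have hX0 : (0 : ℝ) < X := by exact_mod_cast hX1
  have hQ0 : (0 : ℝ) < Q := by exact_mod_cast hQ1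
  have hy : 0 < y := by linarith
  obtain ⟨η, hη⟩ : ∃ η : ℝ, η = 1 / L ^ (A + 6) := ⟨_, rfl⟩
  have hη0 : 0 < η := by
    rw [hη]
    positivity
  have hLm : (2048 : ℝ) ≤ L ^ (A + 6) :=
    calc (2048 : ℝ) ≤ L := hL
      _ = L ^ 1 := (pow_one L).symm
      _ ≤ L ^ (A + 6) := pow_le_pow_right₀ hL1 (by omega)
  have hη1 : η ≤ 1 / 2 := by
    rw [hη]
    exact div_le_div_of_nonneg_left zero_le_one (by norm_num) (by linarith)
  obtain ⟨s, hsdef⟩ : ∃ s : ℝ, s = (X : ℝ) ^ (1 / 4 : ℝ) := ⟨_, rfl⟩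
  rw [← hsdef] at hs
  have hs0 : 0 < s := by
    rw [hsdef]
    exact Real.rpow_pos_of_pos hX0 _
  have hss : s * s = (X : ℝ) ^ (1 / 2 : ℝ) := by
    rw [hsdef, ← Real.rpow_add hX0]
    norm_num
  have hsQ : s * s ≤ Q := by
    rw [hss, ← Real.sqrt_eq_rpow, Real.sqrt_le_left hQ0.le]
    exact_mod_cast hXQ
  have hus : √|t| ≤ s := by
    rw [Real.sqrt_le_left hs0.le, pow_two, hss]
    exact ht2
  have hu : L ^ (A + 3 + 6 * (A + 6)) ≤ √|t| := by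
    apply Real.le_sqrt_of_sq_le
    rw [← pow_mul, mul_comm _ 2]
    exact ht1
  have hu1 : 1 ≤ √|t| := le_trans (one_le_pow₀ hL1) hu
  have hu0 : 0 < √|t| := by linarith
  have ht : 1 ≤ |t| := le_trans (one_le_pow₀ hL1) ht1
  have hηX : 1 ≤ η * (X / Q) := by
    rw [hη, one_div, ← div_eq_inv_mul, le_div_iff₀ (by positivity), one_mul]
    exact hm
  have hK1' : 4 * ((X : ℝ) / Q) ≤ K := by
    rw [← mul_div_assoc]
    exact hK1
  have hK2' : (K : ℝ) ≤ 5 * ((X : ℝ) / Q) := by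
    rw [← mul_div_assoc]
    exact hK2
  have hηK : 1 ≤ η * K := by
    have := mul_le_mul_of_nonneg_left hK1' hη0.le
    linarith
  have hcore := ESbigQ_core (C := C) hC c K Q r a y t η L
    (C / η ^ 5 * (2 * L ^ B * s + Q / (2 * η) / √|t|)) (8 * (η * (X / Q))) hQ1 hL0.le hc hη0 hη1
    hy ht hr (by positivity)
    (fun k hk => ESbigQ_M hC0 hη0 hu0 hus hrB (Nat.cast_nonneg _) hQ0 hX0 hy2 hK1' hk)
    (fun q hq => ESbigQ_D hη0 hQ0 hX0 hy2 hK2' hηX (by exact_mod_cast (Finset.mem_Ico.mp hq).1))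
  refine hcore.trans ?_
  refine le_trans ?_ (ESbigQ_num (L := L) (P := (X : ℝ) ^ 2 / Q) (C := C) (s := s) (u := √|t|) (η := η)
    (A := A) (B := B) hL hLC hC0 (by positivity) hs hu hη)
  exact ESbigQ_size hC0 hL0 hη0 hs0 hu0 hQ0 hX0 (by positivity) (Nat.cast_nonneg _) hK2' hηK hsQ

end Pool.Agent.SInt
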