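import Pool.Agent.SInt.DavC

open Finset Complex
open scoped ArithmeticFunction.Moebius ArithmeticFunction.vonMangoldt

namespace Pool.Agent.SInt

open Pool.Agent.ANT

namespace ESsmallAux

lemma abel_key (b φ : ℕ → ℂ) : ∀ N : ℕ, ∑ k ∈ Icc 1 (N + 1), b k * φ k =
    (∑ k ∈ Icc 1 (N + 1), b k) * φ (N + 1) +
      ∑ k ∈ Icc 1 N, (∑ j ∈ Icc 1 k, b j) * (φ k - φ (k + 1)) := by
  intro N
  induction N with
  | zero => simp
  | succ N ih =>
    rw [Finset.sum_Icc_succ_top (by omega), ih, Finset.sum_Icc_succ_top (by omega)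
      (fun k => (∑ j ∈ Icc 1 k, b j) * (φ k - φ (k + 1))),
      Finset.sum_Icc_succ_top (by omega : 1 ≤ N + 1 + 1) b]
    ring

lemma tele (g : ℕ → ℝ) : ∀ N : ℕ, ∑ k ∈ Icc 1 N, (g k - g (k + 1)) = g 1 - g (N + 1) := by
  intro N
  induction N with
  | zero => simp
  | succ N ih =>
    rw [Finset.sum_Icc_succ_top (by omega), ih]
    ring

lemma abel_var {b φ : ℕ → ℂ} {g : ℕ → ℝ} {M T : ℝ} (N : ℕ)
    (hM : ∀ u, u ≤ N + 1 → ‖∑ k ∈ Icc 1 u, b k‖ ≤ M) (hφ : ‖φ (N + 1)‖ ≤ 1)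
    (hd : ∀ k, 1 ≤ k → k ≤ N → ‖φ k - φ (k + 1)‖ ≤ T * (g k - g (k + 1))) :
    ‖∑ k ∈ Icc 1 (N + 1), b k * φ k‖ ≤ M * (1 + T * (g 1 - g (N + 1))) := by
  have hM0 : 0 ≤ M := (norm_nonneg _).trans (hM 0 (Nat.zero_le _))
  rw [abel_key b φ N]
  have h1 : ‖(∑ k ∈ Icc 1 (N + 1), b k) * φ (N + 1)‖ ≤ M := by
    rw [norm_mul]
    calc _ ≤ M * 1 := mul_le_mul (hM _ le_rfl) hφ (norm_nonneg _) hM0
      _ = M := mul_one M
  have h2 : ‖∑ k ∈ Icc 1 N, (∑ j ∈ Icc 1 k, b j) * (φ k - φ (k + 1))‖ ≤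
      ∑ k ∈ Icc 1 N, M * (T * (g k - g (k + 1))) := by
    refine (norm_sum_le _ _).trans (Finset.sum_le_sum fun k hk => ?_)
    rw [Finset.mem_Icc] at hk
    rw [norm_mul]
    exact mul_le_mul (hM k (by omega)) (hd k hk.1 hk.2) (norm_nonneg _) hM0
  rw [← Finset.mul_sum, ← Finset.mul_sum, tele] at h2
  calc _ ≤ M + M * (T * (g 1 - g (N + 1))) := (norm_add_le _ _).trans (add_le_add h1 h2)
    _ = _ := by ring

lemma norm_rot (x : ℝ) : ‖cexp (I * (x : ℂ))‖ = 1 := by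
  rw [mul_comm]; exact Complex.norm_exp_ofReal_mul_I x

lemma norm_rot_sub (x y : ℝ) : ‖cexp (I * (x : ℂ)) - cexp (I * (y : ℂ))‖ ≤ |x - y| := by
  have e : cexp (I * (x : ℂ)) - cexp (I * (y : ℂ)) =
      cexp (I * (y : ℂ)) * (cexp (I * ((x - y : ℝ) : ℂ)) - 1) := by
    rw [mul_sub, mul_one, ← Complex.exp_add]
    congr 2
    push_cast; ring
  rw [e, norm_mul, norm_rot, one_mul, Complex.norm_exp_I_mul_ofReal_sub_one, Real.norm_eq_abs,
    abs_mul, abs_two]
  have h := Real.abs_sin_le_abs (x := (x - y) / 2)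
  rw [abs_div, abs_two] at h
  linarith

end ESsmallAux

open ESsmallAux

/-- `|t|` at most a power of the logarithm. -/
theorem ES_small {ε' : ℝ} (hε' : 0 < ε') (A C₀ A₄ : ℕ) : ∃ X₀ : ℕ, ∀ X : ℕ, X₀ ≤ X → ∀ Q : ℕ, Md ε' X Q →
    ∀ d : ℕ, 1 ≤ d → (d : ℝ) ≤ Real.log X ^ C₀ → ∀ i : ℕ, i ≤ 1 → ∀ y t θ : ℝ, (X : ℝ) / 2 ≤ y → y ≤ 2 * X →
    |t| ≤ Real.log X ^ A₄ → ∀ q ∈ Ico Q (2 * Q),
    ‖ES (cc d i) θ (KK X Q) y t q‖ ≤ X / Q / Real.log X ^ A := by
  obtain ⟨X₁, h₁⟩ := davC hε' (A + A₄ + 3) C₀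
  obtain ⟨X₂, h₂⟩ := md_facts ε' hε' (A + 3)
  have hlim := Real.tendsto_log_atTop.comp tendsto_natCast_atTop_atTop
  obtain ⟨X₃, h₃⟩ := Filter.eventually_atTop.mp (hlim.eventually_ge_atTop ((A : ℝ) + 20))
  refine ⟨max 3 (max X₁ (max X₂ X₃)), fun X hX Q hQ d hd1 hd2 i hi y t θ hy1 hy2 ht q hq => ?_⟩
  have hX3 : 3 ≤ X := le_trans (le_max_left _ _) hX
  have hX₁ : X₁ ≤ X := le_trans (le_trans (le_max_left _ _) (le_max_right _ _)) hX
  have hX₂ : X₂ ≤ X :=
    le_trans (le_trans (le_trans (le_max_left _ _) (le_max_right _ _)) (le_max_right _ _)) hX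
  have hX₃ : X₃ ≤ X :=
    le_trans (le_trans (le_trans (le_max_right _ _) (le_max_right _ _)) (le_max_right _ _)) hX
  have hdav := h₁ X hX₁ Q hQ d hd1 hd2 i hi
  obtain ⟨hQX, hXQ, hK1, hK2, hqK, hlogK⟩ := h₂ X hX₂ Q hQ
  have hL : (A : ℝ) + 20 ≤ Real.log X := h₃ X hX₃
  set L := Real.log X with hLdef
  have hA0 : (0 : ℝ) ≤ A := Nat.cast_nonneg A
  have hL20 : (20 : ℝ) ≤ L := by linarith
  have hL1 : (1 : ℝ) ≤ L := by linarith
  have hL0 : (0 : ℝ) < L := by linarith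
  have hQ1 : 1 ≤ Q := hQ.1
  have hQ0 : (0 : ℝ) < Q := by exact_mod_cast hQ1
  have hX0 : (0 : ℝ) < X := by exact_mod_cast (by omega : 0 < X)
  rw [Finset.mem_Ico] at hq
  have hqQ : (Q : ℝ) ≤ q := by exact_mod_cast hq.1
  have hq0 : (0 : ℝ) < q := lt_of_lt_of_le hQ0 hqQ
  have hq1 : (1 : ℝ) ≤ q := by exact_mod_cast (le_trans hQ1 hq.1)
  have hy0 : 0 < y := by linarith [half_pos hX0]
  -- the parameter eta
  set η : ℝ := (L ^ (A + 3))⁻¹ with hη
  have hLA : 1 ≤ L ^ (A + 3) := one_le_pow₀ hL1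
  have hη0 : 0 < η := inv_pos.mpr (by positivity)
  have hη1 : η ≤ 1 := inv_le_one_of_one_le₀ hLA
  have hLlt : L < L ^ (A + 3) := by
    calc L = L ^ 1 := (pow_one L).symm
      _ < L ^ (A + 3) := pow_lt_pow_right₀ (by linarith) (by omega)
  have hηlt : η < 1 := inv_lt_one_of_one_lt₀ (by linarith)
  have hηy : 0 < η * y := mul_pos hη0 hy0
  set Z : ℝ := (1 - η) * y / q with hZ
  have hZ0 : 0 ≤ Z := by
    rw [hZ]
    have : 0 ≤ 1 - η := by linarith
    positivity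
  set u : ℕ := ⌊Z⌋₊ with hu
  have hyq : y / q ≤ 2 * X / Q := by
    calc y / q ≤ (2 * X) / q := by gcongr
      _ ≤ 2 * X / Q := by gcongr
  have hKy : y ≤ q * (KK X Q : ℝ) := by
    have h1 : 4 * (X : ℝ) ≤ Q * KK X Q := by
      have := mul_le_mul_of_nonneg_left hK1 hQ0.le
      rw [mul_div_cancel₀ _ hQ0.ne'] at this
      exact this
    have h2 : (Q : ℝ) * KK X Q ≤ q * KK X Q :=
      mul_le_mul_of_nonneg_right hqQ (Nat.cast_nonneg _)
    linarith
  have huZ : (u : ℝ) ≤ Z := Nat.floor_le hZ0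
  have hZy : q * Z = (1 - η) * y := by
    rw [hZ]; field_simp
  have huK : u ≤ KK X Q := by
    have h1 : (q : ℝ) * u ≤ q * KK X Q := by
      have : (q : ℝ) * u ≤ q * Z := mul_le_mul_of_nonneg_left huZ hq0.le
      linarith
    have h2 : (u : ℝ) ≤ KK X Q := le_of_mul_le_mul_left h1 hq0
    exact_mod_cast h2
  set f : ℕ → ℂ := fun k => ct (cc d i) θ q k * cexp (I * ((t * Real.log (y - q * k) : ℝ) : ℂ))
    with hf
  set S : Finset ℕ := (Icc 1 (KK X Q)).filter (fun k : ℕ => ((q * k : ℕ) : ℝ) < y) with hS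
  have hES : ES (cc d i) θ (KK X Q) y t q = ∑ k ∈ S, f k := rfl
  have hsplit : ∑ k ∈ S, f k = ∑ k ∈ Icc 1 u, f k + ∑ k ∈ S.filter (fun k => ¬ k ≤ u), f k := by
    rw [← Finset.sum_filter_add_sum_filter_not S (fun k => k ≤ u)]
    congr 1
    refine Finset.sum_congr ?_ (fun _ _ => rfl)
    ext k
    rw [Finset.mem_filter, hS, Finset.mem_filter, Finset.mem_Icc, Finset.mem_Icc]
    constructor
    · rintro ⟨⟨⟨a, _⟩, _⟩, b⟩
      exact ⟨a, b⟩
    · rintro ⟨a, b⟩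
      refine ⟨⟨⟨a, b.trans huK⟩, ?_⟩, b⟩
      have h1 : (k : ℝ) ≤ Z := le_trans (by exact_mod_cast b) huZ
      have h2 : (q : ℝ) * k ≤ q * Z := mul_le_mul_of_nonneg_left h1 hq0.le
      push_cast
      linarith
  -- the points close to the end
  have hR : 0 < (X : ℝ) / Q := div_pos hX0 hQ0
  have hηR : 1 ≤ η * ((X : ℝ) / Q) := by
    have h1 : η * L ^ (A + 3) = 1 := inv_mul_cancel₀ (by positivity)
    calc (1 : ℝ) = η * L ^ (A + 3) := h1.symm
      _ ≤ η * ((X : ℝ) / Q) := mul_le_mul_of_nonneg_left hXQ hη0.le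
  have hrest : ‖∑ k ∈ S.filter (fun k => ¬ k ≤ u), f k‖ ≤ 9 * L * (η * ((X : ℝ) / Q)) := by
    have hterm : ∀ k ∈ S.filter (fun k => ¬ k ≤ u), ‖f k‖ ≤ 3 * L := by
      intro k hk
      rw [Finset.mem_filter, hS, Finset.mem_filter, Finset.mem_Icc] at hk
      obtain ⟨⟨⟨a, b⟩, _⟩, _⟩ := hk
      have e : ‖f k‖ = ‖cc d i k‖ := by
        simp only [hf, ct]
        rw [norm_mul, norm_mul, norm_ee, norm_rot, mul_one, mul_one]
      rw [e]
      have h1 : Real.log k ≤ Real.log (KK X Q) :=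
        Real.log_le_log (by exact_mod_cast a) (by exact_mod_cast b)
      have h2 := norm_cc_le (d := d) (i := i) (k := k) hi
      linarith
    have hcard : ((S.filter (fun k => ¬ k ≤ u)).card : ℝ) ≤ 3 * (η * ((X : ℝ) / Q)) := by
      have hsub : S.filter (fun k => ¬ k ≤ u) ⊆ Ioc u ⌊y / q⌋₊ := by
        intro k hk
        rw [Finset.mem_filter, hS, Finset.mem_filter, Finset.mem_Icc] at hk
        obtain ⟨⟨_, b⟩, c⟩ := hk
        rw [Finset.mem_Ioc]
        refine ⟨by omega, Nat.le_floor ?_⟩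
        rw [le_div_iff₀ hq0]
        push_cast at b
        linarith
      have h1 : (S.filter (fun k => ¬ k ≤ u)).card ≤ ⌊y / q⌋₊ - u := by
        have := Finset.card_le_card hsub
        rwa [Nat.card_Ioc] at this
      have huy : u ≤ ⌊y / q⌋₊ := by
        refine Nat.floor_le_floor ?_
        rw [hZ]
        gcongr
        linarith
      have h2 : ((⌊y / q⌋₊ - u : ℕ) : ℝ) = (⌊y / q⌋₊ : ℝ) - u := by
        rw [Nat.cast_sub huy]
      have h3 : (⌊y / q⌋₊ : ℝ) ≤ y / q := Nat.floor_le (by positivity)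
      have h4 : Z < u + 1 := Nat.lt_floor_add_one Z
      have h5 : y / q - Z = η * (y / q) := by
        rw [hZ]; field_simp; ring
      have h6 : η * (y / q) ≤ η * (2 * X / Q) := mul_le_mul_of_nonneg_left hyq hη0.le
      have h7 : η * (2 * X / Q) = 2 * (η * ((X : ℝ) / Q)) := by ring
      have h8 : ((S.filter (fun k => ¬ k ≤ u)).card : ℝ) ≤ ((⌊y / q⌋₊ - u : ℕ) : ℝ) := by
        exact_mod_cast h1
      rw [h2] at h8
      linarith
    calc ‖∑ k ∈ S.filter (fun k => ¬ k ≤ u), f k‖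
        ≤ ∑ k ∈ S.filter (fun k => ¬ k ≤ u), ‖f k‖ := norm_sum_le _ _
      _ ≤ ∑ k ∈ S.filter (fun k => ¬ k ≤ u), 3 * L := Finset.sum_le_sum hterm
      _ = (S.filter (fun k => ¬ k ≤ u)).card * (3 * L) := by
          rw [Finset.sum_const, nsmul_eq_mul]
      _ ≤ 3 * (η * ((X : ℝ) / Q)) * (3 * L) :=
          mul_le_mul_of_nonneg_right hcard (by positivity)
      _ = _ := by ring
  -- the main part
  have hmain : ‖∑ k ∈ Icc 1 u, f k‖ ≤
      (X : ℝ) / Q / L ^ (A + A₄ + 3) * ((A + 4) * L ^ (A₄ + 1)) := by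
    rcases Nat.eq_zero_or_pos u with h0 | hpos
    · rw [h0]
      simp only [Finset.Icc_eq_empty_of_lt (Nat.zero_lt_one), Finset.sum_empty, norm_zero]
      positivity
    obtain ⟨N, hN⟩ : ∃ N, u = N + 1 := ⟨u - 1, by omega⟩
    set b : ℕ → ℂ := fun k => cc d i k * ee (k * (-(θ * q))) with hb
    set φ : ℕ → ℂ := fun k => cexp (I * ((t * Real.log (y - q * k) : ℝ) : ℂ)) with hφ
    set g : ℕ → ℝ := fun k => Real.log (y - q * k) with hg
    have hfb : ∀ k, f k = b k * φ k := by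
      intro k
      simp only [hf, hb, hφ, ct]
      have e : -(θ * ((q : ℝ) * (k : ℝ))) = (k : ℝ) * (-(θ * q)) := by ring
      rw [e]
    have hyk : ∀ k : ℕ, k ≤ u → η * y ≤ y - q * k := by
      intro k hk
      have h1 : (k : ℝ) ≤ Z := le_trans (by exact_mod_cast hk) huZ
      have h2 : (q : ℝ) * k ≤ q * Z := mul_le_mul_of_nonneg_left h1 hq0.le
      linarith
    have hab := abel_var (b := b) (φ := φ) (g := g) (M := (X : ℝ) / Q / L ^ (A + A₄ + 3)) (T := |t|)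
      N (fun v hv => hdav v (by omega) _) (norm_rot _).le (by
        intro k hk1 hk2
        refine (norm_rot_sub _ _).trans ?_
        have e1 : t * Real.log (y - q * k) - t * Real.log (y - q * ((k + 1 : ℕ) : ℝ)) =
          t * (g k - g (k + 1)) := by simp only [hg]; ring
        rw [e1, abs_mul]
        have h1 := hyk (k + 1) (by omega)
        have h2 : g (k + 1) ≤ g k := by
          refine Real.log_le_log (by linarith) ?_
          push_cast
          have : (q : ℝ) * (k + 1) = q * k + q := by ring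
          linarith
        rw [abs_of_nonneg (by linarith : (0 : ℝ) ≤ g k - g (k + 1))])
    have hg1 : g 1 - g (N + 1) ≤ (A + 3) * L := by
      have h1 : g 1 ≤ Real.log y := by
        have := hyk 1 (by omega)
        refine Real.log_le_log (by linarith) ?_
        push_cast
        linarith
      have h2 : Real.log (η * y) ≤ g (N + 1) := by
        rw [← hN]
        exact Real.log_le_log hηy (hyk u le_rfl)
      rw [Real.log_mul hη0.ne' hy0.ne'] at h2
      have h3 : Real.log η = -((A + 3 : ℕ) * Real.log L) := by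
        rw [hη, Real.log_inv, Real.log_pow]
      have h4 : Real.log L ≤ L := (Real.log_le_sub_one_of_pos hL0).trans (by linarith)
      have h5 : ((A + 3 : ℕ) : ℝ) * Real.log L ≤ (A + 3) * L := by
        push_cast
        exact mul_le_mul_of_nonneg_left h4 (by linarith)
      linarith
    rw [hN]
    rw [Finset.sum_congr rfl (fun k _ => hfb k)]
    refine hab.trans ?_
    have hM0 : 0 ≤ (X : ℝ) / Q / L ^ (A + A₄ + 3) := by positivity
    refine mul_le_mul_of_nonneg_left ?_ hM0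
    have hgg : 0 ≤ g 1 - g (N + 1) := by
      have h1 := hyk (N + 1) (by omega)
      have h2 : g (N + 1) ≤ g 1 := by
        refine Real.log_le_log (by linarith) ?_
        push_cast
        have : (0 : ℝ) ≤ q * N := by positivity
        linarith
      linarith
    have h6 : |t| * (g 1 - g (N + 1)) ≤ L ^ A₄ * ((A + 3) * L) :=
      mul_le_mul ht hg1 hgg (by positivity)
    have h7 : (1 : ℝ) ≤ L ^ (A₄ + 1) := one_le_pow₀ hL1
    have h8 : L ^ A₄ * ((A + 3) * L) = (A + 3) * L ^ (A₄ + 1) := by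
      rw [pow_succ]; ring
    linarith
  -- conclusion
  have e1 : (X : ℝ) / Q / L ^ (A + A₄ + 3) * ((A + 4) * L ^ (A₄ + 1)) =
      (X : ℝ) / Q / L ^ A * ((A + 4) / L ^ 2) := by
    have : L ^ (A + A₄ + 3) = L ^ A * L ^ (A₄ + 1) * L ^ 2 := by
      rw [← pow_add, ← pow_add]
      congr 1
    rw [this]
    field_simp
  have e2 : 9 * L * (η * ((X : ℝ) / Q)) = (X : ℝ) / Q / L ^ A * (9 / L ^ 2) := by
    rw [hη]
    have : L ^ (A + 3) = L ^ A * L ^ 2 * L := by
      rw [← pow_add, ← pow_succ]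
    rw [this]
    field_simp
  rw [hES, hsplit]
  refine (norm_add_le _ _).trans ((add_le_add hmain hrest).trans ?_)
  rw [e1, e2, ← mul_add]
  have hB0 : 0 ≤ (X : ℝ) / Q / L ^ A := by positivity
  have h9 : (A + 4 : ℝ) / L ^ 2 + 9 / L ^ 2 ≤ 1 := by
    have hLL : L ≤ L ^ 2 := le_self_pow₀ hL1 two_ne_zero
    rw [← add_div, div_le_one (by positivity)]
    linarith
  calc _ ≤ (X : ℝ) / Q / L ^ A * 1 := mul_le_mul_of_nonneg_left h9 hB0
    _ = _ := mul_one _

end Pool.Agent.SInt
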