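import Pool.Agent.SInt.ESsmall
import Pool.Agent.SInt.ESbigQ
import Pool.Agent.SInt.ESmid
import Pool.Agent.SInt.KapRep
import Pool.Agent.SInt.TTb

open Finset Complex
open scoped ArithmeticFunction.Moebius ArithmeticFunction.vonMangoldt

namespace Pool.Agent.SInt

open Pool.Agent.ANT

open MeasureTheory in
private lemma expKap_int_GD {D : ℕ} (hD : 1 ≤ D) :
    ∫ w in Set.Ioo (-(D : ℝ)) D, GD D w = 1 := by
  rw [← integral_GD hD]
  apply setIntegral_eq_integral_of_forall_compl_eq_zero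
  intro x hx
  apply GD_eq_zero hD
  have hD0 : (0 : ℝ) ≤ D := Nat.cast_nonneg D
  rw [Set.mem_Ioo, not_and_or, not_lt, not_lt] at hx
  rcases hx with h | h
  · rw [abs_of_nonpos (by linarith)]; linarith
  · rw [abs_of_nonneg (by linarith)]; exact h

open MeasureTheory in
private lemma expKap_int_GD' (D : ℕ) :
    IntegrableOn (fun w : ℝ => GD D w) (Set.Ioo (-(D : ℝ)) D) :=
  ((continuous_GD D).integrableOn_Icc (a := -(D : ℝ)) (b := D)).mono_set Set.Ioo_subset_Icc_self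

/-- `ES` as a full sum. -/
private lemma expKap_ES (c : ℕ → ℂ) (θ : ℝ) (K : ℕ) (y t : ℝ) (q : ℕ) :
    ES c θ K y t q = ∑ k ∈ Icc 1 K, ct c θ q k *
      (if (q * k : ℝ) < y then cexp (I * ((t * Real.log (y - q * k) : ℝ) : ℂ)) else 0) := by
  unfold ES
  rw [Finset.sum_filter]
  apply Finset.sum_congr rfl
  intro k _
  push_cast
  split_ifs with h
  · rfl
  · simp

private lemma expKap_meas (v t : ℝ) : Measurable (fun w : ℝ =>
    (if w < v then cexp (I * ((t * Real.log (v - w) : ℝ) : ℂ)) else 0 : ℂ)) := by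
  apply Measurable.ite measurableSet_Iio _ measurable_const
  apply Complex.measurable_exp.comp
  apply Measurable.const_mul
  apply Complex.measurable_ofReal.comp
  apply Measurable.const_mul
  exact Real.measurable_log.comp (measurable_const.sub measurable_id)

open MeasureTheory in
private lemma expKap_intble (D : ℕ) (v t : ℝ) : IntegrableOn (fun w : ℝ => ((GD D w : ℝ) : ℂ) *
    (if w < v then cexp (I * ((t * Real.log (v - w) : ℝ) : ℂ)) else 0)) (Set.Ioo (-(D : ℝ)) D) := by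
  apply Integrable.mono' (expKap_int_GD' D)
  · exact ((Complex.measurable_ofReal.comp (continuous_GD D).measurable).mul
      (expKap_meas v t)).aestronglyMeasurable
  · apply Filter.Eventually.of_forall
    intro w
    rw [norm_mul, Complex.norm_real, Real.norm_eq_abs, abs_of_nonneg (GD_nonneg D w)]
    have h1 : ‖(if w < v then cexp (I * ((t * Real.log (v - w) : ℝ) : ℂ)) else 0 : ℂ)‖ ≤ 1 := by
      split_ifs with h
      · rw [mul_comm, Complex.norm_exp_ofReal_mul_I]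
      · simp
    calc GD D w * _ ≤ GD D w * 1 := mul_le_mul_of_nonneg_left h1 (GD_nonneg D w)
      _ = GD D w := mul_one _

private lemma expKap_term (c : ℕ → ℂ) (θ : ℝ) (K : ℕ) (t : ℝ) (N q : ℕ) (w : ℝ) :
    ES c θ K ((N : ℝ) - w) t q = ∑ k ∈ Icc 1 K, ct c θ q k *
      (if w < (N : ℝ) - q * k then cexp (I * ((t * Real.log ((N : ℝ) - q * k - w) : ℝ) : ℂ)) else 0) := by
  rw [expKap_ES]
  apply Finset.sum_congr rfl
  intro k _
  have h1 : ((q : ℝ) * k < (N : ℝ) - w) ↔ (w < (N : ℝ) - q * k) := by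
    constructor <;> intro h <;> linarith
  have h2 : (N : ℝ) - w - q * k = (N : ℝ) - q * k - w := by ring
  rw [h2]
  simp only [h1]

open MeasureTheory in
private lemma expKap_ES_int (c : ℕ → ℂ) (θ : ℝ) (K D : ℕ) (t : ℝ) (N q : ℕ) :
    IntegrableOn (fun w : ℝ => ((GD D w : ℝ) : ℂ) * ES c θ K ((N : ℝ) - w) t q)
      (Set.Ioo (-(D : ℝ)) D) := by
  have h : (fun w : ℝ => ((GD D w : ℝ) : ℂ) * ES c θ K ((N : ℝ) - w) t q) = fun w : ℝ =>
      ∑ k ∈ Icc 1 K, ct c θ q k * (((GD D w : ℝ) : ℂ) *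
      (if w < (N : ℝ) - q * k then
        cexp (I * ((t * Real.log ((N : ℝ) - q * k - w) : ℝ) : ℂ)) else 0)) := by
    funext w
    rw [expKap_term, Finset.mul_sum]
    apply Finset.sum_congr rfl
    intro k _
    ring
  rw [h]
  apply integrable_finset_sum
  intro k _
  exact (expKap_intble D ((N : ℝ) - q * k) t).const_mul _

open MeasureTheory in
private lemma expKap_EG (c : ℕ → ℂ) (θ : ℝ) (K : ℕ) {D : ℕ} (hD : 1 ≤ D) (t : ℝ) (N q : ℕ) :
    EG (ct c θ) K (fun v => kap D v t) N q =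
      ∫ w in Set.Ioo (-(D : ℝ)) D, ((GD D w : ℝ) : ℂ) * ES c θ K ((N : ℝ) - w) t q := by
  have h : (fun w : ℝ => ((GD D w : ℝ) : ℂ) * ES c θ K ((N : ℝ) - w) t q) = fun w : ℝ =>
      ∑ k ∈ Icc 1 K, ct c θ q k * (((GD D w : ℝ) : ℂ) *
      (if w < (N : ℝ) - q * k then
        cexp (I * ((t * Real.log ((N : ℝ) - q * k - w) : ℝ) : ℂ)) else 0)) := by
    funext w
    rw [expKap_term, Finset.mul_sum]
    apply Finset.sum_congr rfl
    intro k _
    ring
  rw [h, integral_finset_sum]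
  · unfold EG
    apply Finset.sum_congr rfl
    intro k _
    rw [integral_const_mul]
    congr 1
    simp only []
    rw [kap_rep hD]
    push_cast
    rfl
  · intro k _
    exact (expKap_intble D ((N : ℝ) - q * k) t).const_mul _

open MeasureTheory in
/-- Jensen's inequality for the second moment, by duality. -/
private lemma expKap_jensen (c : ℕ → ℂ) (θ : ℝ) (K : ℕ) {D : ℕ} (hD : 1 ≤ D) (t : ℝ) (N : ℕ)
    (S : Finset ℕ) {M : ℝ} (hM : 0 ≤ M)
    (h : ∀ w ∈ Set.Ioo (-(D : ℝ)) D, ∑ q ∈ S, ‖ES c θ K ((N : ℝ) - w) t q‖ ^ 2 ≤ M) :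
    ∑ q ∈ S, ‖EG (ct c θ) K (fun v => kap D v t) N q‖ ^ 2 ≤ M := by
  set E : ℕ → ℂ := fun q => EG (ct c θ) K (fun v => kap D v t) N q with hE
  set T : ℝ := ∑ q ∈ S, ‖E q‖ ^ 2 with hT
  have hT0 : 0 ≤ T := Finset.sum_nonneg (fun q _ => by positivity)
  have h1 : ((T : ℝ) : ℂ) = ∫ w in Set.Ioo (-(D : ℝ)) D, ((GD D w : ℝ) : ℂ) *
      ∑ q ∈ S, (starRingEnd ℂ) (E q) * ES c θ K ((N : ℝ) - w) t q := by
    have h2 : (fun w : ℝ => ((GD D w : ℝ) : ℂ) *
        ∑ q ∈ S, (starRingEnd ℂ) (E q) * ES c θ K ((N : ℝ) - w) t q) = fun w : ℝ =>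
        ∑ q ∈ S, (starRingEnd ℂ) (E q) * (((GD D w : ℝ) : ℂ) * ES c θ K ((N : ℝ) - w) t q) := by
      funext w
      rw [Finset.mul_sum]
      apply Finset.sum_congr rfl
      intro q _
      ring
    rw [h2, integral_finset_sum]
    · rw [hT]
      push_cast
      apply Finset.sum_congr rfl
      intro q _
      rw [integral_const_mul, ← expKap_EG c θ K hD t N q]
      rw [← Complex.conj_mul']
    · intro q _
      exact (expKap_ES_int c θ K D t N q).const_mul _
  have h3 : T ≤ Real.sqrt T * Real.sqrt M := by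
    have h4 : T = ‖((T : ℝ) : ℂ)‖ := by
      rw [Complex.norm_real, Real.norm_eq_abs, abs_of_nonneg hT0]
    rw [h4]
    conv_lhs => rw [h1]
    have h5 : ‖∫ w in Set.Ioo (-(D : ℝ)) D, ((GD D w : ℝ) : ℂ) *
        ∑ q ∈ S, (starRingEnd ℂ) (E q) * ES c θ K ((N : ℝ) - w) t q‖ ≤
        ∫ w in Set.Ioo (-(D : ℝ)) D, GD D w * (Real.sqrt T * Real.sqrt M) := by
      apply norm_integral_le_of_norm_le
      · exact (expKap_int_GD' D).mul_const _
      · apply (ae_restrict_iff' measurableSet_Ioo).mpr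
        apply Filter.Eventually.of_forall
        intro w hw
        rw [norm_mul, Complex.norm_real, Real.norm_eq_abs, abs_of_nonneg (GD_nonneg D w)]
        apply mul_le_mul_of_nonneg_left _ (GD_nonneg D w)
        calc ‖∑ q ∈ S, (starRingEnd ℂ) (E q) * ES c θ K ((N : ℝ) - w) t q‖
            ≤ ∑ q ∈ S, ‖E q‖ * ‖ES c θ K ((N : ℝ) - w) t q‖ := by
              apply (norm_sum_le _ _).trans
              apply le_of_eq
              apply Finset.sum_congr rfl
              intro q _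
              rw [norm_mul, RCLike.norm_conj]
          _ ≤ Real.sqrt (∑ q ∈ S, ‖E q‖ ^ 2) *
                Real.sqrt (∑ q ∈ S, ‖ES c θ K ((N : ℝ) - w) t q‖ ^ 2) :=
              Real.sum_mul_le_sqrt_mul_sqrt _ _ _
          _ ≤ Real.sqrt T * Real.sqrt M := by
              apply mul_le_mul_of_nonneg_left _ (Real.sqrt_nonneg _)
              exact Real.sqrt_le_sqrt (h w hw)
    rw [integral_mul_const, expKap_int_GD hD, one_mul] at h5
    rw [← h4]
    exact h5
  by_contra hcon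
  push Not at hcon
  have hTpos : 0 < T := lt_of_le_of_lt hM hcon
  have h6 : Real.sqrt M < Real.sqrt T := Real.sqrt_lt_sqrt hM hcon
  have h7 : Real.sqrt T * Real.sqrt M < Real.sqrt T * Real.sqrt T :=
    mul_lt_mul_of_pos_left h6 (Real.sqrt_pos.mpr hTpos)
  rw [Real.mul_self_sqrt hT0] at h7
  linarith

private lemma expKap_norm_cc {X Q d i : ℕ} (hX : 14 ≤ X) (hi : i ≤ 1) :
    ∀ k ∈ Icc 1 (KK X Q), ‖cc d i k‖ ≤ 2 * Real.log X := by
  intro k hk
  rw [Finset.mem_Icc] at hk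
  have h1 : k ≤ 5 * X := by
    have : KK X Q ≤ 4 * X + 1 := by
      unfold KK
      have := Nat.div_le_self (4 * X) Q
      omega
    omega
  have hX0 : (0 : ℝ) < X := by positivity
  have h2 : Real.log k ≤ Real.log 5 + Real.log X := by
    rw [← Real.log_mul (by norm_num) hX0.ne']
    apply Real.log_le_log (by exact_mod_cast hk.1)
    exact_mod_cast h1
  have h3 : 1 + Real.log 5 ≤ Real.log X := by
    have h5 : Real.exp (1 + Real.log 5) ≤ X := by
      rw [Real.exp_add, Real.exp_log (by norm_num)]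
      have := Real.exp_one_lt_d9
      have hX' : (14 : ℝ) ≤ X := by exact_mod_cast hX
      linarith
    calc 1 + Real.log 5 = Real.log (Real.exp (1 + Real.log 5)) := (Real.log_exp _).symm
      _ ≤ Real.log X := Real.log_le_log (Real.exp_pos _) h5
  have h4 := norm_cc_le (d := d) (i := i) (k := k) hi
  linarith

/-- From a pointwise bound to a mean square bound. -/
private lemma expKap_sq {X Q : ℕ} (hQ : 1 ≤ Q) {A : ℕ} (hlog : 1 ≤ Real.log X) (F : ℕ → ℂ)
    (h : ∀ q ∈ Ico Q (2 * Q), ‖F q‖ ≤ (X : ℝ) / Q / Real.log X ^ (A + 1)) :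
    ∑ q ∈ Ico Q (2 * Q), ‖F q‖ ^ 2 ≤ (X : ℝ) ^ 2 / Q / Real.log X ^ (A + 1) := by
  have hQ0 : (0 : ℝ) < Q := by exact_mod_cast hQ
  have hL0 : (0 : ℝ) < Real.log X := by linarith
  calc ∑ q ∈ Ico Q (2 * Q), ‖F q‖ ^ 2
      ≤ ∑ q ∈ Ico Q (2 * Q), ((X : ℝ) / Q / Real.log X ^ (A + 1)) ^ 2 := by
        apply Finset.sum_le_sum
        intro q hq
        exact pow_le_pow_left₀ (norm_nonneg _) (h q hq) 2
    _ = (X : ℝ) ^ 2 / Q / Real.log X ^ (A + 1) * (1 / Real.log X ^ (A + 1)) := by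
        rw [Finset.sum_const, Nat.card_Ico, nsmul_eq_mul]
        have : 2 * Q - Q = Q := by omega
        rw [this]
        field_simp
    _ ≤ (X : ℝ) ^ 2 / Q / Real.log X ^ (A + 1) * 1 := by
        apply mul_le_mul_of_nonneg_left _ (by positivity)
        rw [div_le_one (by positivity)]
        exact one_le_pow₀ hlog
    _ = _ := mul_one _

/-- The Möbius sums against the Mellin kernel. -/
theorem expKap {ε ε' : ℝ} (hε : 0 < ε) (hε' : 0 < ε') (A C₀ B : ℕ) : ∃ X₀ : ℕ, ∀ X : ℕ, X₀ ≤ X →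
    ∀ W : ℕ, 1 ≤ W → 4 * W ≤ X → ∀ D : ℕ, 1 ≤ D → D ≤ W → ∀ Q : ℕ, Md ε' X Q → ∀ d : ℕ, 1 ≤ d →
    (d : ℝ) ≤ Real.log X ^ C₀ → ∀ i : ℕ, i ≤ 1 → ∀ r : ℕ, 1 ≤ r → (r : ℝ) ≤ 2 * Real.log X ^ B → ∀ a : ℕ,
    ∀ t : ℝ, |t| ≤ (X : ℝ) ^ (1 / 2 - ε) →
    TT W X (Ico Q (2 * Q)) (ct (cc d i) ((a : ℝ) / r)) (KK X Q) (fun v => kap D v t) ≤ Bd A X W Q := by
  obtain ⟨A₄, X₁, h1⟩ := ES_mid hε hε' (A + 1) C₀ B
  obtain ⟨X₂, h2⟩ := ES_small hε' (A + 1) C₀ A₄
  obtain ⟨A₅, X₃, h3⟩ := ES_bigQ hε' (A + 1) B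
  obtain ⟨X₄, h4⟩ := ES_small hε' (A + 1) C₀ A₅
  refine ⟨X₁ + X₂ + X₃ + X₄ + 14, ?_⟩
  intro X hX W hW hWX D hD hDW Q hQ d hd hdC i hi r hr hrB a t ht
  have hX14 : 14 ≤ X := by omega
  have hX0 : (0 : ℝ) < X := by positivity
  have hX1 : (1 : ℝ) ≤ X := by exact_mod_cast (by omega : 1 ≤ X)
  have hQ1 : 1 ≤ Q := hQ.1
  have hQ0 : (0 : ℝ) < Q := by exact_mod_cast hQ1
  have hlog2 : 2 ≤ Real.log X := by
    have h5 : Real.exp 2 ≤ X := by
      have h6 : Real.exp 2 = Real.exp 1 * Real.exp 1 := by rw [← Real.exp_add]; norm_num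
      rw [h6]
      have h7 := Real.exp_one_lt_d9
      have h8 : (0 : ℝ) < Real.exp 1 := Real.exp_pos 1
      have hX' : (14 : ℝ) ≤ X := by exact_mod_cast hX14
      nlinarith
    calc (2 : ℝ) = Real.log (Real.exp 2) := (Real.log_exp _).symm
      _ ≤ Real.log X := Real.log_le_log (Real.exp_pos _) h5
  have hL0 : (0 : ℝ) < Real.log X := by linarith
  have ht' : |t| ≤ (X : ℝ) ^ (1 / 2 : ℝ) :=
    ht.trans (Real.rpow_le_rpow_of_exponent_le hX1 (by linarith))
  -- the bound for one `y`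
  have key : ∀ y : ℝ, (X : ℝ) / 2 ≤ y → y ≤ 2 * X →
      ∑ q ∈ Ico Q (2 * Q), ‖ES (cc d i) ((a : ℝ) / r) (KK X Q) y t q‖ ^ 2 ≤
        (X : ℝ) ^ 2 / Q / Real.log X ^ (A + 1) := by
    intro y hy1 hy2
    rcases le_total (Q ^ 2) X with hQX | hQX
    · apply expKap_sq hQ1 (by linarith)
      intro q hq
      rcases le_total (Real.log X ^ A₄) |t| with htA | htA
      · have := h1 X (by omega) Q hQ hQX d hd hdC i hi y t hy1 hy2 htA ht r hr hrB (a : ℤ) q hq
        rwa [Int.cast_natCast] at this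
      · exact h2 X (by omega) Q hQ d hd hdC i hi y t _ hy1 hy2 htA q hq
    · rcases le_total (Real.log X ^ A₅) |t| with htA | htA
      · have := h3 X (by omega) Q hQ hQX (cc d i) (expKap_norm_cc hX14 hi) y t hy1 hy2 htA ht'
          r hr hrB (a : ℤ)
        rwa [Int.cast_natCast] at this
      · apply expKap_sq hQ1 (by linarith)
        intro q hq
        exact h4 X (by omega) Q hQ d hd hdC i hi y t _ hy1 hy2 htA q hq
  set M : ℝ := (X : ℝ) ^ 2 / Q / Real.log X ^ (A + 1) with hMdef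
  have hM0 : 0 ≤ M := by positivity
  have hN : ∀ N ∈ Ioo (X - W) (X + W),
      ∑ q ∈ Ico Q (2 * Q), ‖EG (ct (cc d i) ((a : ℝ) / r)) (KK X Q) (fun v => kap D v t) N q‖ ^ 2 ≤ M := by
    intro N hN
    apply expKap_jensen (cc d i) ((a : ℝ) / r) (KK X Q) hD t N _ hM0
    intro w hw
    rw [Finset.mem_Ioo] at hN
    have hw1 := hw.1
    have hw2 := hw.2
    have hWX' : 4 * (W : ℝ) ≤ X := by exact_mod_cast hWX
    have hDW' : (D : ℝ) ≤ W := by exact_mod_cast hDW
    have hN1 : (X : ℝ) ≤ N + W := by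
      have : X ≤ N + W := by omega
      exact_mod_cast this
    have hN2 : (N : ℝ) ≤ X + W := by exact_mod_cast hN.2.le
    apply key
    · linarith
    · linarith
  unfold TT
  rw [Finset.sum_comm]
  calc ∑ N ∈ Ioo (X - W) (X + W), ∑ q ∈ Ico Q (2 * Q), tri W ((N : ℝ) - X) *
        ‖EG (ct (cc d i) ((a : ℝ) / r)) (KK X Q) (fun v => kap D v t) N q‖ ^ 2
      ≤ ∑ N ∈ Ioo (X - W) (X + W), M := by
        apply Finset.sum_le_sum
        intro N hN'
        rw [← Finset.mul_sum]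
        calc tri W ((N : ℝ) - X) * ∑ q ∈ Ico Q (2 * Q),
              ‖EG (ct (cc d i) ((a : ℝ) / r)) (KK X Q) (fun v => kap D v t) N q‖ ^ 2
            ≤ 1 * M := by
              apply mul_le_mul (tri_le_one _ _) (hN N hN') _ zero_le_one
              exact Finset.sum_nonneg (fun q _ => by positivity)
          _ = M := one_mul _
    _ = ((Ioo (X - W) (X + W)).card : ℝ) * M := by
        rw [Finset.sum_const, nsmul_eq_mul]
    _ ≤ (2 * W) * M := by
        apply mul_le_mul_of_nonneg_right _ hM0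
        have : (Ioo (X - W) (X + W)).card ≤ 2 * W := by
          rw [Nat.card_Ioo]; omega
        exact_mod_cast this
    _ = W * (X : ℝ) ^ 2 / Q / Real.log X ^ A * (2 / Real.log X) := by
        rw [hMdef]
        field_simp
        rw [pow_succ]
    _ ≤ W * (X : ℝ) ^ 2 / Q / Real.log X ^ A * 1 := by
        apply mul_le_mul_of_nonneg_left _ (by positivity)
        rw [div_le_one hL0]
        exact hlog2
    _ = Bd A X W Q := by
        unfold Bd
        rw [mul_one]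

end Pool.Agent.SInt
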