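import Pool.Agent.SInt.Mark

open Finset Complex
open scoped ArithmeticFunction.Moebius ArithmeticFunction.vonMangoldt

namespace Pool.Agent.SInt

open Pool.Agent.ANT

open Filter Pool.Agent.DEH

open Classical in
lemma Final_short (k : ℕ) : ∃ X₀ : ℕ, ∀ X : ℕ, X₀ ≤ X → ∀ H : ℕ,
    (X : ℝ) ^ (1 / 2 + 1 / ((k:ℝ) + 1)) ≤ H → H ≤ X →
    (((Ioc X (X + H)).filter (fun N => N ∈ BadK k)).card : ℝ) ≤ H / Real.log X ^ k := by
  rcases Nat.eq_zero_or_pos k with rfl | hk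
  · refine ⟨0, fun X _ H _ _ => ?_⟩
    have h1 := Finset.card_filter_le (Ioc X (X + H)) (fun N => N ∈ BadK 0)
    have h2 : (Ioc X (X + H)).card = H := by simp
    rw [pow_zero, div_one]
    exact_mod_cast h1.trans h2.le
  set η : ℝ := 1 / (8 * ((k:ℝ) + 1)) with hη
  have hk0 : (0:ℝ) < (k:ℝ) + 1 := by positivity
  have hk1 : (1:ℝ) ≤ k := by exact_mod_cast hk
  have hη0 : 0 < η := by positivity
  have hη1 : η ≤ 1 / 8 := by
    rw [hη, div_le_div_iff₀ (by positivity) (by norm_num)]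
    nlinarith
  have hηk : η ≤ 1 / ((k:ℝ) + 1) := by
    rw [hη, div_le_div_iff₀ (by positivity) (by positivity)]
    nlinarith
  have hε'0 : (0:ℝ) < 1 / ((k:ℝ) + 1) := by positivity
  have hε'1 : 1 / ((k:ℝ) + 1) ≤ 1 := by
    rw [div_le_one (by positivity)]; linarith
  obtain ⟨X1, hX1⟩ := short_count (ε := η / 2) (by positivity) (by linarith) hε'0 hε'1 (k + 1)
  have hlogt : Tendsto (fun n : ℕ => Real.log (n:ℝ)) atTop atTop :=
    Real.tendsto_log_atTop.comp tendsto_natCast_atTop_atTop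
  obtain ⟨X2, hX2⟩ := eventually_atTop.mp (hlogt.eventually_ge_atTop 4)
  refine ⟨max (max X1 X2) (4 ^ 8), fun X hX H hH hHX => ?_⟩
  have hXX1 : X1 ≤ X := (le_max_left _ _).trans ((le_max_left _ _).trans hX)
  have hXX2 : X2 ≤ X := (le_max_right _ _).trans ((le_max_left _ _).trans hX)
  have hX48 : 4 ^ 8 ≤ X := (le_max_right _ _).trans hX
  have hL4 : 4 ≤ Real.log X := hX2 X hXX2
  have hXR : ((4:ℝ) ^ 8) ≤ X := by exact_mod_cast hX48
  have hXR1 : (1:ℝ) ≤ X := le_trans (by norm_num) hXR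
  have hXR0 : (0:ℝ) < X := by linarith
  set H0 : ℕ := ⌈(X:ℝ) ^ (1 / 2 + η)⌉₊ with hH0
  have hH0ge : (X:ℝ) ^ (1 / 2 + η) ≤ H0 := Nat.le_ceil _
  have hpow1 : 1 ≤ (X:ℝ) ^ (1 / 2 + η) := Real.one_le_rpow hXR1 (by positivity)
  have hH01 : 1 ≤ H0 := by
    have : (1:ℝ) ≤ H0 := hpow1.trans hH0ge
    exact_mod_cast this
  have hH0lt : (H0:ℝ) < (X:ℝ) ^ (1 / 2 + η) + 1 := Nat.ceil_lt_add_one (by positivity)
  have hH0H : H0 ≤ H := by
    refine Nat.ceil_le.mpr (le_trans ?_ hH)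
    exact Real.rpow_le_rpow_of_exponent_le hXR1 (by linarith)
  -- number of pieces
  set J : ℕ := H / H0 + 1 with hJ
  have hJH : H < J * H0 := by
    rw [hJ, add_mul, one_mul]
    exact Nat.lt_div_mul_add (by omega)
  have hJ2 : (J:ℝ) * H0 ≤ 2 * H := by
    have h1 : (H / H0) * H0 ≤ H := Nat.div_mul_le_self H H0
    have h2 : J * H0 ≤ 2 * H := by
      rw [hJ, add_mul, one_mul]; omega
    exact_mod_cast h2
  -- windows
  have hwin : ∀ j ∈ range J, Win (η / 2) (X + j * H0) (2 * H0) := by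
    intro j hj
    have hj' : j ≤ H / H0 := by have := mem_range.mp hj; omega
    have hjH : j * H0 ≤ H := (Nat.mul_le_mul_right H0 hj').trans (Nat.div_mul_le_self H H0)
    have hZ1 : (X:ℝ) ≤ ((X + j * H0 : ℕ) : ℝ) := by exact_mod_cast Nat.le_add_right _ _
    have hZ2 : ((X + j * H0 : ℕ) : ℝ) ≤ 2 * X := by
      have : X + j * H0 ≤ 2 * X := by omega
      exact_mod_cast this
    constructor
    · calc (((X + j * H0 : ℕ) : ℝ)) ^ (1 / 2 + η / 2) ≤ (2 * (X:ℝ)) ^ (1 / 2 + η / 2) :=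
            Real.rpow_le_rpow (by positivity) hZ2 (by positivity)
        _ = (2:ℝ) ^ (1 / 2 + η / 2) * (X:ℝ) ^ (1 / 2 + η / 2) := Real.mul_rpow (by norm_num) hXR0.le
        _ ≤ 2 * (X:ℝ) ^ (1 / 2 + η) := by
            have e1 : (2:ℝ) ^ (1 / 2 + η / 2) ≤ 2 := by
              calc (2:ℝ) ^ (1 / 2 + η / 2) ≤ (2:ℝ) ^ (1:ℝ) :=
                    Real.rpow_le_rpow_of_exponent_le (by norm_num) (by linarith)
                _ = 2 := Real.rpow_one 2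
            have e2 : (X:ℝ) ^ (1 / 2 + η / 2) ≤ (X:ℝ) ^ (1 / 2 + η) :=
              Real.rpow_le_rpow_of_exponent_le hXR1 (by linarith)
            exact mul_le_mul e1 e2 (by positivity) (by norm_num)
        _ ≤ 2 * H0 := by linarith
        _ = ((2 * H0 : ℕ) : ℝ) := by push_cast; ring
    · have e1 : (X:ℝ) ^ (1 / 2 + η) ≤ (X:ℝ) ^ (5 / 8 : ℝ) :=
        Real.rpow_le_rpow_of_exponent_le hXR1 (by linarith)
      have e2 : (4:ℝ) ≤ (X:ℝ) ^ (1 / 8 : ℝ) := by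
        calc (4:ℝ) = (((4:ℝ) ^ (8:ℕ))) ^ (1 / 8 : ℝ) := by
              rw [← Real.rpow_natCast, ← Real.rpow_mul (by norm_num)]; norm_num
          _ ≤ (X:ℝ) ^ (1 / 8 : ℝ) := Real.rpow_le_rpow (by positivity) hXR (by norm_num)
      have e3 : (X:ℝ) ^ (5 / 8 : ℝ) * (X:ℝ) ^ (1 / 8 : ℝ) = (X:ℝ) ^ (3 / 4 : ℝ) := by
        rw [← Real.rpow_add hXR0]; norm_num
      calc ((2 * H0 : ℕ) : ℝ) = 2 * H0 := by push_cast; ring
        _ ≤ 2 * ((X:ℝ) ^ (1 / 2 + η) + 1) := by linarith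
        _ ≤ 4 * (X:ℝ) ^ (5 / 8 : ℝ) := by linarith
        _ ≤ (X:ℝ) ^ (5 / 8 : ℝ) * (X:ℝ) ^ (1 / 8 : ℝ) := by nlinarith [Real.rpow_nonneg hXR0.le (5/8:ℝ)]
        _ = (X:ℝ) ^ (3 / 4 : ℝ) := e3
        _ ≤ (((X + j * H0 : ℕ) : ℝ)) ^ (3 / 4 : ℝ) := Real.rpow_le_rpow hXR0.le hZ1 (by norm_num)
  -- count one piece
  have hpiece : ∀ g : ℕ → ℝ, (g = g1 ∨ g = g2) → ∀ j ∈ range J,
      (((Ioc (X + j * H0) (X + j * H0 + H0)).filter
        (fun N => N ∈ Bad g (1 / ((k:ℝ) + 1)) (k + 1))).card : ℝ) ≤ H0 / Real.log X ^ (k + 1) := by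
    intro g hg j hj
    refine (hX1 (X + j * H0) (hXX1.trans (Nat.le_add_right _ _)) H0 (hwin j hj) g hg).trans ?_
    have h1 : Real.log X ≤ Real.log ((X + j * H0 : ℕ) : ℝ) :=
      Real.log_le_log hXR0 (by exact_mod_cast Nat.le_add_right _ _)
    have h2 : Real.log X ^ (k+1) ≤ Real.log ((X + j * H0 : ℕ) : ℝ) ^ (k+1) :=
      pow_le_pow_left₀ (by linarith) h1 _
    have h3 : 0 < Real.log X ^ (k+1) := by positivity
    gcongr
  have hsub : (Ioc X (X + H)).filter (fun N => N ∈ BadK k) ⊆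
      (range J).biUnion (fun j => (Ioc (X + j * H0) (X + j * H0 + H0)).filter
          (fun N => N ∈ Bad g1 (1 / ((k:ℝ) + 1)) (k + 1))) ∪
      (range J).biUnion (fun j => (Ioc (X + j * H0) (X + j * H0 + H0)).filter
          (fun N => N ∈ Bad g2 (1 / ((k:ℝ) + 1)) (k + 1))) := by
    intro N hN
    obtain ⟨h1, h2, h3⟩ := mem_filter.mp hN
    obtain ⟨h4, h5⟩ := mem_Ioc.mp h1
    have hjex : ∃ j ∈ range J, N ∈ Ioc (X + j * H0) (X + j * H0 + H0) := by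
      refine ⟨(N - X - 1) / H0, ?_, ?_⟩
      · refine mem_range.mpr ?_
        have : (N - X - 1) / H0 ≤ H / H0 := Nat.div_le_div_right (by omega)
        omega
      · have e1 := Nat.div_add_mod (N - X - 1) H0
        have e2 := Nat.mod_lt (N - X - 1) (show 0 < H0 by omega)
        rw [mul_comm] at e1
        refine mem_Ioc.mpr ⟨?_, ?_⟩ <;> omega
    obtain ⟨j, hj, hNj⟩ := hjex
    have hN3 : (3:ℝ) ≤ N := by exact_mod_cast h2
    have hl1 := one_le_log hN3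
    have hthr : (N:ℝ) / Real.log N ^ (k+1) ≤ N / Real.log N ^ k := by
      have : Real.log N ^ k ≤ Real.log N ^ (k+1) := pow_le_pow_right₀ hl1 (by omega)
      gcongr
    rcases h3 with h3 | h3
    · refine mem_union_left _ (mem_biUnion.mpr ⟨j, hj, mem_filter.mpr ⟨hNj, ?_⟩⟩)
      exact lt_of_le_of_lt hthr h3
    · refine mem_union_right _ (mem_biUnion.mpr ⟨j, hj, mem_filter.mpr ⟨hNj, ?_⟩⟩)
      exact lt_of_le_of_lt hthr h3
  have hbU : ∀ g : ℕ → ℝ, (g = g1 ∨ g = g2) →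
      ((((range J).biUnion (fun j => (Ioc (X + j * H0) (X + j * H0 + H0)).filter
          (fun N => N ∈ Bad g (1 / ((k:ℝ) + 1)) (k + 1)))).card : ℕ) : ℝ) ≤
        2 * H / Real.log X ^ (k + 1) := by
    intro g hg
    calc ((((range J).biUnion (fun j => (Ioc (X + j * H0) (X + j * H0 + H0)).filter
          (fun N => N ∈ Bad g (1 / ((k:ℝ) + 1)) (k + 1)))).card : ℕ) : ℝ)
        ≤ ∑ j ∈ range J, (((Ioc (X + j * H0) (X + j * H0 + H0)).filter
          (fun N => N ∈ Bad g (1 / ((k:ℝ) + 1)) (k + 1))).card : ℝ) := by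
          exact_mod_cast card_biUnion_le
      _ ≤ ∑ j ∈ range J, (H0 : ℝ) / Real.log X ^ (k + 1) := sum_le_sum (hpiece g hg)
      _ = (J * H0) / Real.log X ^ (k + 1) := by rw [sum_const, card_range, nsmul_eq_mul]; ring
      _ ≤ _ := by gcongr
  have hL0 : 0 < Real.log X := by linarith
  calc _ ≤ ((((range J).biUnion (fun j => (Ioc (X + j * H0) (X + j * H0 + H0)).filter
          (fun N => N ∈ Bad g1 (1 / ((k:ℝ) + 1)) (k + 1)))).card +
        ((range J).biUnion (fun j => (Ioc (X + j * H0) (X + j * H0 + H0)).filter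
          (fun N => N ∈ Bad g2 (1 / ((k:ℝ) + 1)) (k + 1)))).card : ℕ) : ℝ) := by
        exact_mod_cast (card_le_card hsub).trans (card_union_le _ _)
    _ ≤ 2 * H / Real.log X ^ (k + 1) + 2 * H / Real.log X ^ (k + 1) := by
        push_cast
        exact add_le_add (hbU g1 (Or.inl rfl)) (hbU g2 (Or.inr rfl))
    _ = 4 * H / Real.log X ^ (k + 1) := by ring
    _ ≤ Real.log X * H / Real.log X ^ (k + 1) := by gcongr
    _ = H / Real.log X ^ k := by rw [pow_succ]; field_simp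

/-- The diagonal Moebius-twisted Elliott-Halberstam estimate with every level `Q ≤ N exp(-(log N)^ε)`, for
almost all `N` in every interval `(X, X+H]`, `X^{1/2+ε} ≤ H ≤ X`. -/
theorem final : ∃ B : Set ℕ,
    (∀ ε : ℝ, 0 < ε → ∀ A : ℕ, ∃ X₀ : ℕ, ∀ X : ℕ, X₀ ≤ X → ∀ H : ℕ, (X : ℝ) ^ (1 / 2 + ε) ≤ H → H ≤ X →
      (({N : ℕ | N ∈ B ∧ X < N ∧ N ≤ X + H}).ncard : ℝ) ≤ H / Real.log X ^ A) ∧
    ∀ ε : ℝ, 0 < ε → ∀ A : ℕ, ∃ N₀ : ℕ, ∀ N : ℕ, N₀ ≤ N → N ∉ B → ∀ Q : ℝ,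
      Q ≤ N * Real.exp (-(Real.log N) ^ ε) →
        D g1 N Q ≤ N / Real.log N ^ A ∧ D g2 N Q ≤ N / Real.log N ^ A := by
  classical
  have h1 : ∀ k : ℕ, ∀ᶠ T : ℕ in atTop, ∀ X : ℕ, T ≤ 2 * X → ∀ H : ℕ,
      (X : ℝ) ^ (1 / 2 + 1 / ((k:ℝ) + 1)) ≤ H → H ≤ X →
      (((Ioc X (X + H)).filter (fun N => N ∈ BadK k)).card : ℝ) ≤ H / Real.log X ^ k := by
    intro k
    obtain ⟨X0, hX0⟩ := Final_short k
    filter_upwards [eventually_ge_atTop (2 * X0)] with T hT X hX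
    exact hX0 X (by omega)
  obtain ⟨φ, hφ, hcount⟩ := extraction_forall_of_eventually (P := fun k T => ∀ X : ℕ, T ≤ 2 * X → ∀ H : ℕ,
      (X : ℝ) ^ (1 / 2 + 1 / ((k:ℝ) + 1)) ≤ H → H ≤ X →
      (((Ioc X (X + H)).filter (fun N => N ∈ BadK k)).card : ℝ) ≤ H / Real.log X ^ k) h1
  have hkex : ∀ ε : ℝ, 0 < ε → ∀ A : ℕ, ∃ k : ℕ, A ≤ k ∧ 1/((k:ℝ)+1) ≤ ε := by
    intro ε hε A
    obtain ⟨j, hj⟩ := exists_nat_ge (1/ε)
    refine ⟨max A j, le_max_left _ _, ?_⟩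
    have h2 : (j:ℝ) ≤ ((max A j : ℕ) : ℝ) := by exact_mod_cast le_max_right _ _
    rw [div_le_iff₀ (by positivity)]
    have h3 : 1 ≤ j * ε := by rwa [div_le_iff₀ hε] at hj
    nlinarith
  refine ⟨{N | ∃ k, φ k ≤ N ∧ N ∈ BadK k}, fun ε hε A => ?_, ?_⟩
  · obtain ⟨k0, hk0A, hk0ε⟩ := hkex ε hε A
    refine ⟨max (φ k0) 3, fun X hX H hH hHX => ?_⟩
    have hXk0 : φ k0 ≤ X := (le_max_left _ _).trans hX
    have hX3 : 3 ≤ X := (le_max_right _ _).trans hX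
    set K := Nat.findGreatest (fun k => φ k ≤ 2 * X) (2 * X) with hK
    have hk0X : k0 ≤ 2 * X := (hφ.id_le k0).trans (hXk0.trans (by omega))
    have hφk0 : φ k0 ≤ 2 * X := hXk0.trans (by omega)
    have hKspec : φ K ≤ 2 * X := Nat.findGreatest_spec (P := fun k => φ k ≤ 2 * X) hk0X hφk0
    have hk0K : k0 ≤ K := Nat.le_findGreatest hk0X hφk0
    have hsub : {N : ℕ | N ∈ {N | ∃ k, φ k ≤ N ∧ N ∈ BadK k} ∧ X < N ∧ N ≤ X + H} ⊆
        (((Ioc X (X + H)).filter (fun N => N ∈ BadK K) : Finset ℕ) : Set ℕ) := by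
      rintro N ⟨⟨k, hk1, hk2⟩, hNX1, hNX2⟩
      have hkX : φ k ≤ 2 * X := hk1.trans (by omega)
      have hkK : k ≤ K := Nat.le_findGreatest ((hφ.id_le k).trans hkX) hkX
      exact Finset.mem_coe.mpr (Finset.mem_filter.mpr
        ⟨Finset.mem_Ioc.mpr ⟨hNX1, hNX2⟩, BadK_mono hkK hk2⟩)
    have hn := Set.ncard_le_ncard hsub (Finset.finite_toSet _)
    rw [Set.ncard_coe_finset] at hn
    have hXR1 : (1:ℝ) ≤ X := by exact_mod_cast (by omega : 1 ≤ X)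
    have hlog := one_le_log (show (3:ℝ) ≤ X by exact_mod_cast hX3)
    have hKε : 1 / ((K:ℝ) + 1) ≤ ε := by
      refine le_trans ?_ hk0ε
      have : (k0:ℝ) ≤ K := by exact_mod_cast hk0K
      gcongr
    have hHK : (X : ℝ) ^ (1 / 2 + 1 / ((K:ℝ) + 1)) ≤ H :=
      (Real.rpow_le_rpow_of_exponent_le hXR1 (by linarith)).trans hH
    calc _ ≤ (((Ioc X (X + H)).filter (fun N => N ∈ BadK K)).card : ℝ) := by exact_mod_cast hn
      _ ≤ H / Real.log X ^ K := hcount K X hKspec H hHK hHX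
      _ ≤ H / Real.log X ^ A := by
          have : Real.log X ^ A ≤ Real.log X ^ K := pow_le_pow_right₀ hlog (hk0A.trans hk0K)
          gcongr
  · intro ε hε A
    obtain ⟨k, hkA, hkε⟩ := hkex ε hε A
    refine ⟨max (φ k) 3, fun N hN hNB Q hQ => ?_⟩
    have hNφ : φ k ≤ N := (le_max_left _ _).trans hN
    have hN3 : 3 ≤ N := (le_max_right _ _).trans hN
    have hlog := one_le_log (show (3:ℝ) ≤ N by exact_mod_cast hN3)
    have hnot : N ∉ BadK k := fun h => hNB ⟨k, hNφ, h⟩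
    have hQ' : Q ≤ lev (1/((k:ℝ)+1)) N := hQ.trans (lev_mono hkε hN3)
    have hthr : (N:ℝ) / Real.log N ^ k ≤ N / Real.log N ^ A := by
      have : Real.log N ^ A ≤ Real.log N ^ k := pow_le_pow_right₀ hlog hkA
      gcongr
    constructor
    · by_contra hcon
      push Not at hcon
      refine hnot ⟨hN3, Or.inl ?_⟩
      exact lt_of_le_of_lt hthr (lt_of_lt_of_le hcon (D_mono g1 N hQ'))
    · by_contra hcon
      push Not at hcon
      refine hnot ⟨hN3, Or.inr ?_⟩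
      exact lt_of_le_of_lt hthr (lt_of_lt_of_le hcon (D_mono g2 N hQ'))

end Pool.Agent.SInt
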