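import Pool.Agent.SInt.TriB

open Finset Complex
open scoped ArithmeticFunction.Moebius ArithmeticFunction.vonMangoldt

namespace Pool.Agent.SInt

open Pool.Agent.ANT

private lemma Fou_card (W : ℕ) (v : ℤ) (hv : v ∈ Ioo (-(W : ℤ)) W) :
    ((((range W ×ˢ range W).filter (fun p : ℕ × ℕ => (p.1 : ℤ) - p.2 = v)).card : ℕ) : ℤ) =
      (W : ℤ) - |v| := by
  rw [mem_Ioo] at hv
  have key : ((range W ×ˢ range W).filter (fun p : ℕ × ℕ => (p.1 : ℤ) - p.2 = v)) =
      (range (W - v.natAbs)).image (fun j => (j + v.toNat, j + (-v).toNat)) := by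
    ext ⟨a, b⟩
    simp only [mem_filter, mem_product, mem_range, mem_image, Prod.mk.injEq]
    constructor
    · rintro ⟨⟨h1, h2⟩, h3⟩
      refine ⟨a - v.toNat, ?_, ?_, ?_⟩ <;> omega
    · rintro ⟨j, hj, h1, h2⟩
      refine ⟨⟨?_, ?_⟩, ?_⟩ <;> omega
  rw [key, card_image_of_injective, card_range, Int.abs_eq_natAbs]
  · omega
  · intro a b hab
    simp only [Prod.mk.injEq] at hab
    omega

/-- Fejer kernel. -/
theorem tri_hat {W : ℕ} (hW : 1 ≤ W) (θ : ℝ) :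
    ∑ v ∈ Ioo (-(W : ℤ)) W, ((tri W v : ℝ) : ℂ) * ee (v * θ) =
      ((‖∑ i ∈ range W, ee (i * θ)‖ ^ 2 / W : ℝ) : ℂ) := by
  have hW0 : (W : ℝ) ≠ 0 := by positivity
  have hWC : (W : ℂ) ≠ 0 := by exact_mod_cast hW0
  have e1 : ((‖∑ i ∈ range W, ee (i * θ)‖ ^ 2 : ℝ) : ℂ) =
      ∑ p ∈ range W ×ˢ range W, ee ((((p.1 : ℤ) - p.2 : ℤ) : ℝ) * θ) := by
    push_cast
    rw [← Complex.mul_conj', map_sum, sum_mul_sum, sum_product]
    refine sum_congr rfl fun i _ => sum_congr rfl fun j _ => ?_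
    rw [conj_ee, ← ee_add]
    congr 1
    ring
  have hmap : ∀ p ∈ range W ×ˢ range W, ((p.1 : ℤ) - p.2) ∈ Ioo (-(W : ℤ)) W := by
    rintro ⟨a, b⟩ hp
    simp only [mem_product, mem_range] at hp
    rw [mem_Ioo]
    constructor <;> omega
  rw [← sum_fiberwise_of_maps_to hmap] at e1
  push_cast at e1 ⊢
  rw [e1, sum_div]
  refine sum_congr rfl fun v hv => ?_
  have e2 : ∑ p ∈ (range W ×ˢ range W).filter (fun p : ℕ × ℕ => (p.1 : ℤ) - p.2 = v),
      ee (((p.1 : ℝ) - p.2) * θ) = (((W : ℤ) - |v| : ℤ) : ℂ) * ee (v * θ) := by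
    rw [← Fou_card W v hv, sum_congr rfl (g := fun _ => ee (v * θ)), sum_const, nsmul_eq_mul]
    · push_cast; rfl
    · intro p hp
      rw [mem_filter] at hp
      rw [← hp.2]
      push_cast
      rfl
  rw [e2]
  have e3 : tri W v = (((W : ℤ) - |v| : ℤ) : ℝ) / W := by
    unfold tri
    rw [mem_Ioo] at hv
    have h1 : |(v : ℝ)| ≤ W := by
      rw [abs_le]
      constructor
      · exact_mod_cast hv.1.le
      · exact_mod_cast hv.2.le
    rw [max_eq_right]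
    · push_cast
      field_simp
    · have : |(v : ℝ)| / W ≤ 1 := by
        rw [div_le_one (by positivity)]; exact h1
      linarith
  rw [e3, Complex.ofReal_div, Complex.ofReal_intCast, Complex.ofReal_natCast]
  ring

theorem orth_int {M : ℕ} (hM : 0 < M) (n : ℤ) :
    ∑ j ∈ range M, ee (n * ((j : ℝ) / M)) = if (M : ℤ) ∣ n then (M : ℂ) else 0 := by
  have hMR : (M : ℝ) ≠ 0 := by exact_mod_cast hM.ne'
  have e1 : ∀ j : ℕ, ee (n * ((j : ℝ) / M)) = ee ((n : ℝ) / M) ^ j := by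
    intro j
    rw [← ee_nat_mul]
    congr 1
    ring
  simp_rw [e1]
  split_ifs with hd
  · obtain ⟨k, rfl⟩ := hd
    have : ee (((M : ℤ) * k : ℤ) / (M : ℝ)) = 1 := by
      rw [show (((M : ℤ) * k : ℤ) : ℝ) / (M : ℝ) = (k : ℝ) by push_cast; field_simp]
      exact ee_int k
    rw [this]
    simp
  · set z := ee ((n : ℝ) / M) with hz
    have hzM : z ^ M = 1 := by
      rw [hz, ← ee_nat_mul, mul_div_cancel₀ _ hMR]
      exact ee_int n
    have hz1 : z ≠ 1 := by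
      intro h
      have h1 := four_nn_le ((n : ℝ) / M)
      rw [← hz, h, sub_self, norm_zero] at h1
      have h2 : nn ((n : ℝ) / M) = 0 := le_antisymm (by linarith) (nn_nonneg _)
      unfold nn at h2
      rw [abs_eq_zero, sub_eq_zero, div_eq_iff hMR] at h2
      apply hd
      refine ⟨round ((n : ℝ) / M), ?_⟩
      have : (n : ℝ) = ((round ((n : ℝ) / M) * M : ℤ) : ℝ) := by
        push_cast; exact h2
      rw [mul_comm]
      exact_mod_cast this
    have h3 := mul_neg_geom_sum z M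
    rw [hzM, sub_self] at h3
    rcases mul_eq_zero.mp h3 with h4 | h4
    · exact absurd (sub_eq_zero.mp h4).symm hz1
    · exact h4

theorem gh_parseval {Y M : ℕ} (hM : 2 * Y < M) (g : ℤ → ℂ) :
    1 / (M : ℝ) * ∑ j ∈ range M, ‖gh Y g ((j : ℝ) / M)‖ ^ 2 = ∑ n ∈ Icc (-(Y : ℤ)) Y, ‖g n‖ ^ 2 := by
  have hM0 : 0 < M := by omega
  have hMR : (M : ℝ) ≠ 0 := by exact_mod_cast hM0.ne'
  have hMC : (M : ℂ) ≠ 0 := by exact_mod_cast hM0.ne'
  have h : ((∑ j ∈ range M, ‖gh Y g ((j : ℝ) / M)‖ ^ 2 : ℝ) : ℂ) =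
      ((M * ∑ n ∈ Icc (-(Y : ℤ)) Y, ‖g n‖ ^ 2 : ℝ) : ℂ) := by
    push_cast
    simp_rw [← Complex.mul_conj']
    have e1 : ∀ j ∈ range M, gh Y g ((j : ℝ) / M) * (starRingEnd ℂ) (gh Y g ((j : ℝ) / M)) =
        ∑ a ∈ Icc (-(Y : ℤ)) Y, ∑ b ∈ Icc (-(Y : ℤ)) Y, (g a * (starRingEnd ℂ) (g b)) *
          ee (((a - b : ℤ) : ℝ) * ((j : ℝ) / M)) := by
      intro j _
      unfold gh
      rw [map_sum, sum_mul_sum]
      refine sum_congr rfl fun a _ => sum_congr rfl fun b _ => ?_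
      rw [map_mul, conj_ee]
      have : ee (((a - b : ℤ) : ℝ) * ((j : ℝ) / M)) =
          ee ((a : ℝ) * ((j : ℝ) / M)) * ee (-((b : ℝ) * ((j : ℝ) / M))) := by
        rw [← ee_add]; congr 1; push_cast; ring
      rw [this]; ring
    rw [sum_congr rfl e1, sum_comm, mul_sum]
    refine sum_congr rfl fun a ha => ?_
    rw [sum_comm]
    simp_rw [← mul_sum]
    rw [sum_eq_single a]
    · rw [orth_int hM0, if_pos (by simp)]; ring
    · intro b hb hba
      rw [orth_int hM0, if_neg, mul_zero]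
      intro hd
      rw [mem_Icc] at ha hb
      have hne : a - b ≠ 0 := sub_ne_zero.mpr (Ne.symm hba)
      have h3 := Int.le_of_dvd (abs_pos.mpr hne) ((dvd_abs _ _).mpr hd)
      have h4 : |a - b| < M := by rw [abs_lt]; constructor <;> omega
      omega
    · intro h; exact absurd ha h
  have h' : (∑ j ∈ range M, ‖gh Y g ((j : ℝ) / M)‖ ^ 2 : ℝ) =
      M * ∑ n ∈ Icc (-(Y : ℤ)) Y, ‖g n‖ ^ 2 := by exact_mod_cast h
  rw [h']
  field_simp

theorem gh_inv {Y M : ℕ} (hM : 4 * Y < M) (g : ℤ → ℂ) (hg : ∀ n : ℤ, (Y : ℤ) < |n| → g n = 0)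
    (n : ℤ) (hn : |n| ≤ 3 * Y) :
    g n = 1 / (M : ℂ) * ∑ j ∈ range M, gh Y g ((j : ℝ) / M) * ee (-(n * ((j : ℝ) / M))) := by
  have hM0 : 0 < M := by omega
  have hMC : (M : ℂ) ≠ 0 := by exact_mod_cast hM0.ne'
  have e1 : ∀ j ∈ range M, gh Y g ((j : ℝ) / M) * ee (-(n * ((j : ℝ) / M))) =
      ∑ a ∈ Icc (-(Y : ℤ)) Y, g a * ee (((a - n : ℤ) : ℝ) * ((j : ℝ) / M)) := by
    intro j _
    unfold gh
    rw [sum_mul]
    refine sum_congr rfl fun a _ => ?_
    have : ee (((a - n : ℤ) : ℝ) * ((j : ℝ) / M)) =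
        ee ((a : ℝ) * ((j : ℝ) / M)) * ee (-((n : ℝ) * ((j : ℝ) / M))) := by
      rw [← ee_add]; congr 1; push_cast; ring
    rw [this]; ring
  rw [sum_congr rfl e1, sum_comm]
  simp_rw [← mul_sum]
  have e2 : ∀ a ∈ Icc (-(Y : ℤ)) Y, g a * ∑ j ∈ range M, ee (((a - n : ℤ) : ℝ) * ((j : ℝ) / M)) =
      if a = n then (M : ℂ) * g a else 0 := by
    intro a ha
    rw [orth_int hM0]
    by_cases han : a = n
    · rw [if_pos han, if_pos (by rw [han]; simp)]; ring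
    · rw [if_neg han, if_neg, mul_zero]
      intro hd
      rw [mem_Icc] at ha
      rw [abs_le] at hn
      have hne : a - n ≠ 0 := sub_ne_zero.mpr han
      have h3 := Int.le_of_dvd (abs_pos.mpr hne) ((dvd_abs _ _).mpr hd)
      have h4 : |a - n| < M := by rw [abs_lt]; constructor <;> omega
      omega
  rw [sum_congr rfl e2, sum_ite_eq']
  split_ifs with hmem
  · field_simp
  · rw [mem_Icc, not_and_or] at hmem
    rw [mul_zero]
    apply hg
    rw [lt_abs]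
    omega

end Pool.Agent.SInt
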