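import Pool.Agent.SInt.Defs
import Pool.Agent.SqFull.PW

open Finset Complex
open scoped ArithmeticFunction.Moebius ArithmeticFunction.vonMangoldt

namespace Pool.Agent.SInt

open Pool.Agent.ANT

open MeasureTheory in
/-- Scaling in the lower integral over the line. -/
private lemma planch_scale (g : ℝ → ENNReal) {a : ℝ} (ha : a ≠ 0) :
    ∫⁻ y : ℝ, g (a * y) = ENNReal.ofReal |a⁻¹| * ∫⁻ v : ℝ, g v := by
  have h1 : ∫⁻ v : ℝ, g v ∂(Measure.map (⇑(Homeomorph.mulLeft₀ a ha).toMeasurableEquiv)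
      (volume : Measure ℝ)) = ∫⁻ y : ℝ, g ((Homeomorph.mulLeft₀ a ha).toMeasurableEquiv y) :=
    lintegral_map_equiv g (Homeomorph.mulLeft₀ a ha).toMeasurableEquiv
  have h2 : Measure.map (⇑(Homeomorph.mulLeft₀ a ha).toMeasurableEquiv) (volume : Measure ℝ) =
      ENNReal.ofReal |a⁻¹| • volume := Real.map_volume_mul_left ha
  rw [h2, lintegral_smul_measure, smul_eq_mul] at h1
  exact h1.symm

open MeasureTheory in
/-- Bessel's inequality for the Fourier transform. -/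
theorem planch {φ : ℝ → ℂ} (h1 : Integrable φ) (h2 : Integrable (fun t => ‖φ t‖ ^ 2)) :
    ∫⁻ y : ℝ, ENNReal.ofReal (‖(1 / (2 * Real.pi) : ℂ) * ∫ t : ℝ, φ t * cexp (I * ((t * y : ℝ) : ℂ))‖ ^ 2) ≤
      ENNReal.ofReal (1 / (2 * Real.pi) * ∫ t : ℝ, ‖φ t‖ ^ 2) := by
  have hpi : (0 : ℝ) < 2 * Real.pi := by positivity
  have hpc : (Real.pi : ℂ) ≠ 0 := by exact_mod_cast Real.pi_pos.ne'
  set a : ℝ := 1 / (2 * Real.pi) with ha
  have hap : 0 < a := by positivity
  have hn : ‖(1 / (2 * Real.pi) : ℂ)‖ = a := by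
    have e : (1 / (2 * Real.pi) : ℂ) = ((a : ℝ) : ℂ) := by
      rw [ha]; push_cast; ring
    rw [e, Complex.norm_real, Real.norm_eq_abs, abs_of_pos hap]
  set g : ℝ → ENNReal := fun v =>
    ENNReal.ofReal (‖∫ t : ℝ, cexp (2 * Real.pi * I * v * t) * φ t‖ ^ 2) with hg
  have key : ∀ y : ℝ, ENNReal.ofReal
      (‖(1 / (2 * Real.pi) : ℂ) * ∫ t : ℝ, φ t * cexp (I * ((t * y : ℝ) : ℂ))‖ ^ 2) =
      ENNReal.ofReal (a ^ 2) * g (a * y) := by
    intro y
    have e : (∫ t : ℝ, φ t * cexp (I * ((t * y : ℝ) : ℂ))) =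
        ∫ t : ℝ, cexp (2 * Real.pi * I * ((a * y : ℝ) : ℂ) * t) * φ t := by
      refine integral_congr_ae (Filter.Eventually.of_forall fun t => ?_)
      simp only
      rw [mul_comm]
      congr 2
      rw [ha]
      push_cast
      field_simp
    rw [e, norm_mul, hn, mul_pow, ENNReal.ofReal_mul (by positivity)]
  simp_rw [key]
  rw [lintegral_const_mul' _ _ ENNReal.ofReal_ne_top, planch_scale g hap.ne', ← mul_assoc,
    ← ENNReal.ofReal_mul (by positivity)]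
  have e2 : a ^ 2 * |a⁻¹| = a := by
    rw [abs_of_pos (inv_pos.mpr hap)]
    field_simp
  rw [e2, ENNReal.ofReal_mul hap.le]
  gcongr
  exact SqFull.lintegral_fourier_sq_le h1 h2

end Pool.Agent.SInt
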