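import Pool.Agent.SInt.KapRep
import Pool.Agent.SInt.Planch

open Finset Complex
open scoped ArithmeticFunction.Moebius ArithmeticFunction.vonMangoldt

namespace Pool.Agent.SInt

open Pool.Agent.ANT

/-- The (scaled) Fourier transform of `φ`. -/
private noncomputable def goodPG (φ : ℝ → ℂ) (y : ℝ) : ℂ :=
  (1 / (2 * Real.pi) : ℂ) * ∫ t : ℝ, φ t * cexp (I * ((t * y : ℝ) : ℂ))

private lemma goodP_nexp (x : ℝ) : ‖cexp (I * (x : ℂ))‖ = 1 := by
  rw [mul_comm]; exact Complex.norm_exp_ofReal_mul_I x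

open MeasureTheory in
private lemma goodP_G_bound {φ : ℝ → ℂ} (y : ℝ) :
    ‖goodPG φ y‖ ≤ ‖(1 / (2 * Real.pi) : ℂ)‖ * ∫ t : ℝ, ‖φ t‖ := by
  unfold goodPG
  rw [norm_mul]
  refine mul_le_mul_of_nonneg_left ?_ (norm_nonneg _)
  refine (norm_integral_le_integral_norm _).trans (le_of_eq ?_)
  congr 1
  funext t
  rw [norm_mul, goodP_nexp, mul_one]

open MeasureTheory in
private lemma goodP_G_cont {φ : ℝ → ℂ} (h1 : Integrable φ) : Continuous (goodPG φ) := by
  unfold goodPG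
  refine continuous_const.mul ?_
  refine continuous_of_dominated (bound := fun t => ‖φ t‖) ?_ ?_ h1.norm ?_
  · intro y
    refine h1.aestronglyMeasurable.mul ?_
    exact (Continuous.aestronglyMeasurable (by fun_prop))
  · intro y
    refine Filter.Eventually.of_forall (fun t => ?_)
    rw [norm_mul, goodP_nexp, mul_one]
  · refine Filter.Eventually.of_forall (fun t => ?_)
    fun_prop

/-- the inner function -/
private noncomputable def goodPh (φ : ℝ → ℂ) (v : ℤ) (w : ℝ) : ℂ :=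
  if w < v then goodPG φ (Real.log (v - w)) else 0

private lemma goodP_h_meas {φ : ℝ → ℂ} (h1 : MeasureTheory.Integrable φ) (v : ℤ) :
    Measurable (goodPh φ v) := by
  unfold goodPh
  refine Measurable.ite (measurableSet_Iio) ?_ measurable_const
  exact (goodP_G_cont h1).measurable.comp (Real.measurable_log.comp (measurable_const.sub measurable_id))

open MeasureTheory in
private lemma goodP_h_bound {φ : ℝ → ℂ} (v : ℤ) (w : ℝ) :
    ‖goodPh φ v w‖ ≤ ‖(1 / (2 * Real.pi) : ℂ)‖ * ∫ t : ℝ, ‖φ t‖ := by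
  unfold goodPh
  split_ifs with h
  · exact goodP_G_bound _
  · rw [norm_zero]; exact mul_nonneg (norm_nonneg _) (integral_nonneg (fun _ => norm_nonneg _))

open MeasureTheory in
private lemma goodP_GD_integrable {D : ℕ} (hD : 1 ≤ D) : Integrable (GD D) := by
  refine (continuous_GD D).integrable_of_hasCompactSupport ?_
  refine HasCompactSupport.of_support_subset_isCompact (isCompact_Icc (a := -(D : ℝ)) (b := D)) ?_
  intro x hx
  by_contra hc
  refine hx (GD_eq_zero hD ?_)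
  by_contra hlt
  push Not at hlt
  rw [abs_lt] at hlt
  exact hc ⟨hlt.1.le, hlt.2.le⟩

open MeasureTheory in
/-- Fubini. -/
private lemma goodP_fub {D : ℕ} (hD : 1 ≤ D) {φ : ℝ → ℂ} (h1 : Integrable φ) (v : ℤ) :
    (1 / (2 * Real.pi) : ℂ) * ∫ t : ℝ, φ t * kap D v t =
      ∫ w : ℝ, ((GD D w : ℝ) : ℂ) * goodPh φ v w := by
  have hk : ∀ t, kap D v t = ∫ w : ℝ, ((GD D w : ℝ) : ℂ) *
      (if w < v then cexp (I * ((t * Real.log (v - w) : ℝ) : ℂ)) else 0) := by
    intro t
    rw [kap_rep hD v t]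
    refine setIntegral_eq_integral_of_forall_compl_eq_zero ?_
    intro w hw
    rw [GD_eq_zero hD]
    · simp
    · by_contra hlt
      push Not at hlt
      rw [abs_lt] at hlt
      exact hw ⟨hlt.1, hlt.2⟩
  have hint : Integrable (Function.uncurry (fun (t w : ℝ) => φ t * (((GD D w : ℝ) : ℂ) *
      (if w < v then cexp (I * ((t * Real.log (v - w) : ℝ) : ℂ)) else 0))))
      ((volume : Measure ℝ).prod (volume : Measure ℝ)) := by
    have hb : Integrable (fun p : ℝ × ℝ => φ p.1 * ((GD D p.2 : ℝ) : ℂ))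
        ((volume : Measure ℝ).prod (volume : Measure ℝ)) :=
      h1.mul_prod ((goodP_GD_integrable hD).ofReal)
    have hm : AEStronglyMeasurable (fun p : ℝ × ℝ =>
        (if p.2 < v then cexp (I * ((p.1 * Real.log (v - p.2) : ℝ) : ℂ)) else 0 : ℂ))
        ((volume : Measure ℝ).prod (volume : Measure ℝ)) := by
      refine Measurable.aestronglyMeasurable ?_
      refine Measurable.ite (measurableSet_lt measurable_snd measurable_const) ?_ measurable_const
      have : Measurable (fun p : ℝ × ℝ => Real.log (v - p.2)) :=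
        Real.measurable_log.comp (measurable_const.sub measurable_snd)
      fun_prop
    have := hb.bdd_mul hm (c := 1) (Filter.Eventually.of_forall (fun p => by
      split_ifs
      · rw [goodP_nexp]
      · simp))
    refine this.congr (Filter.Eventually.of_forall (fun p => ?_))
    simp only [Function.uncurry]
    ring
  calc (1 / (2 * Real.pi) : ℂ) * ∫ t : ℝ, φ t * kap D v t
      = (1 / (2 * Real.pi) : ℂ) * ∫ t : ℝ, ∫ w : ℝ, φ t * (((GD D w : ℝ) : ℂ) *
        (if w < v then cexp (I * ((t * Real.log (v - w) : ℝ) : ℂ)) else 0)) := by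
        congr 2
        funext t
        rw [hk t, integral_const_mul]
    _ = (1 / (2 * Real.pi) : ℂ) * ∫ w : ℝ, ∫ t : ℝ, φ t * (((GD D w : ℝ) : ℂ) *
        (if w < v then cexp (I * ((t * Real.log (v - w) : ℝ) : ℂ)) else 0)) := by
        rw [integral_integral_swap hint]
    _ = ∫ w : ℝ, ((GD D w : ℝ) : ℂ) * goodPh φ v w := by
        rw [← integral_const_mul]
        congr 1
        funext w
        unfold goodPh goodPG
        split_ifs with h
        · have : (fun t : ℝ => φ t * (((GD D w : ℝ) : ℂ) *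
              cexp (I * ((t * Real.log (v - w) : ℝ) : ℂ)))) =
              fun t : ℝ => ((GD D w : ℝ) : ℂ) * (φ t * cexp (I * ((t * Real.log (v - w) : ℝ) : ℂ))) := by
            funext t; ring
          rw [this, integral_const_mul]
          ring
        · simp

open MeasureTheory in
/-- Jensen. -/
private lemma goodP_jensen {D : ℕ} (hD : 1 ≤ D) {h : ℝ → ℂ} (hm : Measurable h) {C : ℝ}
    (hb : ∀ w, ‖h w‖ ≤ C) :
    ‖∫ w : ℝ, ((GD D w : ℝ) : ℂ) * h w‖ ^ 2 ≤ ∫ w : ℝ, GD D w * ‖h w‖ ^ 2 := by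
  have hG := goodP_GD_integrable hD
  have hi1 : Integrable (fun w => GD D w * ‖h w‖) := by
    have := hG.bdd_mul (hm.norm.aestronglyMeasurable) (c := C)
      (Filter.Eventually.of_forall (fun w => by
        show ‖‖h w‖‖ ≤ C
        rw [norm_norm]; exact hb w))
    exact this.congr (Filter.Eventually.of_forall (fun w => mul_comm _ _))
  have hi2 : Integrable (fun w => GD D w * ‖h w‖ ^ 2) := by
    have := hi1.bdd_mul (hm.norm.aestronglyMeasurable) (c := C)
      (Filter.Eventually.of_forall (fun w => by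
        show ‖‖h w‖‖ ≤ C
        rw [norm_norm]; exact hb w))
    refine this.congr (Filter.Eventually.of_forall (fun w => ?_))
    show ‖h w‖ * (GD D w * ‖h w‖) = GD D w * ‖h w‖ ^ 2
    ring
  set m : ℝ := ∫ w : ℝ, GD D w * ‖h w‖ with hmdef
  have hle : ‖∫ w : ℝ, ((GD D w : ℝ) : ℂ) * h w‖ ≤ m := by
    refine (norm_integral_le_integral_norm _).trans (le_of_eq ?_)
    rw [hmdef]
    congr 1
    funext w
    rw [norm_mul, Complex.norm_real, Real.norm_of_nonneg (GD_nonneg D w)]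
  have hsq : 0 ≤ ∫ w : ℝ, GD D w * (‖h w‖ - m) ^ 2 :=
    integral_nonneg (fun w => mul_nonneg (GD_nonneg D w) (sq_nonneg _))
  have hexp : ∀ M : ℝ, ∫ w : ℝ, GD D w * (‖h w‖ - M) ^ 2 =
      (∫ w : ℝ, GD D w * ‖h w‖ ^ 2) - 2 * M * (∫ w : ℝ, GD D w * ‖h w‖) + M ^ 2 * ∫ w : ℝ, GD D w := by
    intro M
    rw [← integral_const_mul (2 * M), ← integral_const_mul (M ^ 2), ← integral_sub hi2 (hi1.const_mul _),
      ← integral_add (f := fun a => GD D a * ‖h a‖ ^ 2 - 2 * M * (GD D a * ‖h a‖))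
        (hi2.sub (hi1.const_mul _)) (hG.const_mul _)]
    congr 1
    funext w
    ring
  rw [hexp m, integral_GD hD, ← hmdef] at hsq
  have : ‖∫ w : ℝ, ((GD D w : ℝ) : ℂ) * h w‖ ^ 2 ≤ m ^ 2 :=
    pow_le_pow_left₀ (norm_nonneg _) hle 2
  nlinarith

open MeasureTheory in
/-- Mean square of a Mellin-type integral over the integers `v`. -/
theorem goodP {D Z : ℕ} (hD : 1 ≤ D) {φ : ℝ → ℂ} (h1 : Integrable φ) (h2 : Integrable (fun t => ‖φ t‖ ^ 2)) :
    ∑ v ∈ Icc (-(D : ℤ)) Z, ‖(1 / (2 * Real.pi) : ℂ) * ∫ t : ℝ, φ t * kap D v t‖ ^ 2 ≤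
      ((Z : ℝ) + D) * ∫ t : ℝ, ‖φ t‖ ^ 2 := by
  set C : ℝ := ‖(1 / (2 * Real.pi) : ℂ)‖ * ∫ t : ℝ, ‖φ t‖ with hC
  have hC0 : 0 ≤ C := (norm_nonneg _).trans (goodP_G_bound (φ := φ) 0)
  have hZD : (0 : ℝ) < (Z : ℝ) + D := by
    have : (1 : ℝ) ≤ D := by exact_mod_cast hD
    have : (0 : ℝ) ≤ Z := Nat.cast_nonneg Z
    linarith
  have hmG : Measurable (fun x : ℝ => ‖goodPG φ (Real.log x)‖ ^ 2) :=
    (((goodP_G_cont h1).measurable.comp Real.measurable_log).norm).pow_const 2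
  have hbG : ∀ x : ℝ, ‖‖goodPG φ (Real.log x)‖ ^ 2‖ ≤ C ^ 2 := by
    intro x
    rw [Real.norm_of_nonneg (sq_nonneg _)]
    exact pow_le_pow_left₀ (norm_nonneg _) (goodP_G_bound _) 2
  -- each v
  have hv : ∀ v ∈ Icc (-(D : ℤ)) (Z : ℤ), ‖(1 / (2 * Real.pi) : ℂ) * ∫ t : ℝ, φ t * kap D v t‖ ^ 2 ≤
      ∫ x in Set.Ioo (0 : ℝ) (Z + D), GD D ((v : ℝ) - x) * ‖goodPG φ (Real.log x)‖ ^ 2 := by
    intro v hv
    rw [goodP_fub hD h1 v]
    refine (goodP_jensen hD (goodP_h_meas h1 v) (goodP_h_bound v)).trans (le_of_eq ?_)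
    rw [← integral_sub_left_eq_self (fun w : ℝ => GD D w * ‖goodPh φ v w‖ ^ 2) volume (v : ℝ)]
    rw [← integral_indicator measurableSet_Ioo]
    congr 1
    funext x
    unfold Set.indicator
    simp only [Set.mem_Ioo]
    unfold goodPh
    by_cases hx : 0 < x
    · have h3 : (v : ℝ) - x < v := by linarith
      rw [if_pos h3]
      have h4 : (v : ℝ) - (v - x) = x := by ring
      rw [h4]
      by_cases hx2 : x < Z + D
      · rw [if_pos ⟨hx, hx2⟩]
      · rw [if_neg (fun h => hx2 h.2)]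
        push Not at hx2
        rw [GD_eq_zero hD, zero_mul]
        rw [Finset.mem_Icc] at hv
        have : (v : ℝ) ≤ Z := by exact_mod_cast hv.2
        rw [abs_sub_comm]
        refine le_trans ?_ (le_abs_self _)
        linarith
    · have h3 : ¬ ((v : ℝ) - x < v) := by linarith [not_lt.mp hx]
      rw [if_neg h3, if_neg (fun h => hx h.1)]
      simp
  have hintG : IntegrableOn (fun x : ℝ => ‖goodPG φ (Real.log x)‖ ^ 2) (Set.Ioo (0 : ℝ) (Z + D)) := by
    refine Measure.integrableOn_of_bounded (M := C ^ 2) ?_ hmG.aestronglyMeasurable ?_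
    · rw [Real.volume_Ioo]; exact ENNReal.ofReal_ne_top
    · exact Filter.Eventually.of_forall hbG
  have hintV : ∀ v : ℤ, IntegrableOn (fun x : ℝ => GD D ((v : ℝ) - x) * ‖goodPG φ (Real.log x)‖ ^ 2)
      (Set.Ioo (0 : ℝ) (Z + D)) := by
    intro v
    refine Integrable.bdd_mul hintG
      ((((continuous_GD D).comp (continuous_const.sub continuous_id)).aestronglyMeasurable)) (c := 1 / D) ?_
    refine Filter.Eventually.of_forall (fun x => ?_)
    show ‖GD D ((v : ℝ) - x)‖ ≤ _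
    rw [Real.norm_of_nonneg (GD_nonneg _ _)]
    exact GD_le _ _
  have hsum : ∑ v ∈ Icc (-(D : ℤ)) Z, ‖(1 / (2 * Real.pi) : ℂ) * ∫ t : ℝ, φ t * kap D v t‖ ^ 2 ≤
      ∫ x in Set.Ioo (0 : ℝ) (Z + D), ‖goodPG φ (Real.log x)‖ ^ 2 := by
    refine (Finset.sum_le_sum hv).trans ?_
    rw [← integral_finsetSum _ (fun v _ => hintV v)]
    refine setIntegral_mono (integrable_finsetSum _ (fun v _ => hintV v)) hintG ?_
    intro x
    show ∑ v ∈ Icc (-(D : ℤ)) Z, GD D ((v : ℝ) - x) * ‖goodPG φ (Real.log x)‖ ^ 2 ≤ _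
    rw [← Finset.sum_mul]
    calc _ ≤ 1 * ‖goodPG φ (Real.log x)‖ ^ 2 :=
          mul_le_mul_of_nonneg_right (sum_GD_le hD x _) (sq_nonneg _)
      _ = _ := one_mul _
  refine hsum.trans ?_
  -- substitution
  have hI0 : 0 ≤ ∫ t : ℝ, ‖φ t‖ ^ 2 := integral_nonneg (fun _ => sq_nonneg _)
  have key : ENNReal.ofReal (∫ x in Set.Ioo (0 : ℝ) (Z + D), ‖goodPG φ (Real.log x)‖ ^ 2) ≤
      ENNReal.ofReal (((Z : ℝ) + D) * ∫ t : ℝ, ‖φ t‖ ^ 2) := by
    rw [ofReal_integral_eq_lintegral_ofReal hintG (Filter.Eventually.of_forall (fun _ => sq_nonneg _))]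
    have himg : Set.Ioo (0 : ℝ) (Z + D) = Real.exp '' Set.Iio (Real.log (Z + D)) := by
      ext x
      simp only [Set.mem_Ioo, Set.mem_image, Set.mem_Iio]
      constructor
      · rintro ⟨h3, h4⟩
        exact ⟨Real.log x, Real.log_lt_log h3 h4, Real.exp_log h3⟩
      · rintro ⟨y, hy, rfl⟩
        exact ⟨Real.exp_pos y, by rwa [← Real.lt_log_iff_exp_lt hZD]⟩
    rw [himg, lintegral_image_eq_lintegral_abs_deriv_mul measurableSet_Iio
      (fun y _ => (Real.hasDerivAt_exp y).hasDerivWithinAt) (Real.exp_injective.injOn)]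
    calc ∫⁻ y in Set.Iio (Real.log (Z + D)), ENNReal.ofReal |Real.exp y| *
          ENNReal.ofReal (‖goodPG φ (Real.log (Real.exp y))‖ ^ 2)
        ≤ ∫⁻ y in Set.Iio (Real.log (Z + D)), ENNReal.ofReal ((Z : ℝ) + D) *
          ENNReal.ofReal (‖goodPG φ y‖ ^ 2) := by
          refine setLIntegral_mono' measurableSet_Iio (fun y hy => ?_)
          rw [Real.log_exp]
          refine mul_le_mul_left (ENNReal.ofReal_le_ofReal ?_) _
          rw [abs_of_pos (Real.exp_pos y)]
          have := (Real.lt_log_iff_exp_lt hZD).mp hy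
          exact this.le
      _ ≤ ∫⁻ y, ENNReal.ofReal ((Z : ℝ) + D) * ENNReal.ofReal (‖goodPG φ y‖ ^ 2) :=
          setLIntegral_le_lintegral _ _
      _ = ENNReal.ofReal ((Z : ℝ) + D) * ∫⁻ y, ENNReal.ofReal (‖goodPG φ y‖ ^ 2) := by
          rw [lintegral_const_mul]
          exact ((goodP_G_cont h1).measurable.norm.pow_const 2).ennreal_ofReal
      _ ≤ ENNReal.ofReal ((Z : ℝ) + D) * ENNReal.ofReal (1 / (2 * Real.pi) * ∫ t : ℝ, ‖φ t‖ ^ 2) :=
          mul_le_mul_right (planch h1 h2) _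
      _ = ENNReal.ofReal (((Z : ℝ) + D) * (1 / (2 * Real.pi) * ∫ t : ℝ, ‖φ t‖ ^ 2)) :=
          (ENNReal.ofReal_mul hZD.le).symm
      _ ≤ ENNReal.ofReal (((Z : ℝ) + D) * ∫ t : ℝ, ‖φ t‖ ^ 2) := by
          refine ENNReal.ofReal_le_ofReal (mul_le_mul_of_nonneg_left ?_ hZD.le)
          have hp : 1 / (2 * Real.pi) ≤ 1 := by
            rw [div_le_one (by positivity)]
            linarith [Real.pi_gt_three]
          calc 1 / (2 * Real.pi) * ∫ t : ℝ, ‖φ t‖ ^ 2 ≤ 1 * ∫ t : ℝ, ‖φ t‖ ^ 2 :=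
                mul_le_mul_of_nonneg_right hp hI0
            _ = _ := one_mul _
  exact (ENNReal.ofReal_le_ofReal_iff (mul_nonneg hZD.le hI0)).mp key

end Pool.Agent.SInt
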