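import Pool.Agent.SInt.Fou
import Pool.Agent.SInt.TTb

open Finset Complex
open scoped ArithmeticFunction.Moebius ArithmeticFunction.vonMangoldt

namespace Pool.Agent.SInt

open Pool.Agent.ANT

/-- the Fejer kernel -/
noncomputable def Ineq1F (W : ℕ) (θ : ℝ) : ℝ := ‖∑ i ∈ range W, ee (i * θ)‖ ^ 2 / W

lemma Ineq1F_nonneg (W : ℕ) (θ : ℝ) : 0 ≤ Ineq1F W θ := by unfold Ineq1F; positivity

lemma Ineq1F_neg (W : ℕ) (θ : ℝ) : Ineq1F W (-θ) = Ineq1F W θ := by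
  unfold Ineq1F
  have h : ∑ i ∈ range W, ee (i * -θ) = (starRingEnd ℂ) (∑ i ∈ range W, ee (i * θ)) := by
    rw [map_sum]
    refine sum_congr rfl fun i _ => ?_
    rw [conj_ee]
    congr 1
    ring
  rw [h, RCLike.norm_conj]

lemma Ineq1_hat {W : ℕ} (hW : 1 ≤ W) (θ : ℝ) :
    ∑ v ∈ Ioo (-(W : ℤ)) W, ((tri W v : ℝ) : ℂ) * ee (v * θ) = ((Ineq1F W θ : ℝ) : ℂ) :=
  tri_hat hW θ

lemma Ineq1_win {W X : ℕ} (hW : 1 ≤ W) (hWX : W ≤ X) (θ : ℝ) :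
    ∑ N ∈ Ioo (X - W) (X + W), ((tri W ((N : ℝ) - X) : ℝ) : ℂ) * ee (N * θ) =
      ee (X * θ) * ((Ineq1F W θ : ℝ) : ℂ) := by
  rw [← Ineq1_hat hW, mul_sum]
  refine sum_bij' (fun N _ => (N : ℤ) - X) (fun v _ => ((X : ℤ) + v).toNat) ?_ ?_ ?_ ?_ ?_
  · intro N hN
    rw [mem_Ioo] at hN ⊢
    omega
  · intro v hv
    rw [mem_Ioo] at hv ⊢
    omega
  · intro N hN
    rw [mem_Ioo] at hN
    omega
  · intro v hv
    rw [mem_Ioo] at hv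
    omega
  · intro N hN
    push_cast
    rw [← mul_assoc, mul_comm (ee (X * θ)), mul_assoc, ← ee_add]
    congr 2
    ring

/-- expansion of a square -/
lemma Ineq1_sq {ι : Type*} (s : Finset ι) (a : ι → ℂ) :
    ((‖∑ j ∈ s, a j‖ ^ 2 : ℝ) : ℂ) = ∑ j ∈ s, ∑ l ∈ s, a j * (starRingEnd ℂ) (a l) := by
  rw [ofReal_pow, ← Complex.mul_conj', map_sum, sum_mul_sum]

/-- the weighted mean square of an exponential sum over the window -/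
lemma Ineq1_ms {W X : ℕ} (hW : 1 ≤ W) (hWX : W ≤ X) (s : Finset ℕ) (a : ℕ → ℂ) (t : ℕ → ℝ) :
    ∑ N ∈ Ioo (X - W) (X + W), tri W ((N : ℝ) - X) * ‖∑ j ∈ s, a j * ee (-(N * t j))‖ ^ 2 ≤
      ∑ j ∈ s, ∑ l ∈ s, ‖a j‖ * ‖a l‖ * Ineq1F W (t l - t j) := by
  have h1 : ((∑ N ∈ Ioo (X - W) (X + W), tri W ((N : ℝ) - X) *
      ‖∑ j ∈ s, a j * ee (-(N * t j))‖ ^ 2 : ℝ) : ℂ) =
      ∑ j ∈ s, ∑ l ∈ s, a j * (starRingEnd ℂ) (a l) *
        (ee (X * (t l - t j)) * ((Ineq1F W (t l - t j) : ℝ) : ℂ)) := by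
    rw [ofReal_sum]
    have h2 : ∀ N ∈ Ioo (X - W) (X + W), ((tri W ((N : ℝ) - X) *
        ‖∑ j ∈ s, a j * ee (-(N * t j))‖ ^ 2 : ℝ) : ℂ) =
        ∑ j ∈ s, ∑ l ∈ s, a j * (starRingEnd ℂ) (a l) *
          (((tri W ((N : ℝ) - X) : ℝ) : ℂ) * ee (N * (t l - t j))) := by
      intro N _
      rw [ofReal_mul, Ineq1_sq, mul_sum]
      refine sum_congr rfl fun j _ => ?_
      rw [mul_sum]
      refine sum_congr rfl fun l _ => ?_
      rw [map_mul, conj_ee, neg_neg]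
      have h3 : ee (N * (t l - t j)) = ee (-(N * t j)) * ee (N * t l) := by
        rw [← ee_add]
        congr 1
        ring
      rw [h3]
      ring
    rw [sum_congr rfl h2, sum_comm]
    refine sum_congr rfl fun j _ => ?_
    rw [sum_comm]
    refine sum_congr rfl fun l _ => ?_
    rw [← mul_sum, Ineq1_win hW hWX]
  have h4 : 0 ≤ ∑ N ∈ Ioo (X - W) (X + W), tri W ((N : ℝ) - X) *
      ‖∑ j ∈ s, a j * ee (-(N * t j))‖ ^ 2 :=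
    sum_nonneg fun N _ => mul_nonneg (tri_nonneg _ _) (by positivity)
  have h5 := congrArg norm h1
  rw [Complex.norm_real, Real.norm_of_nonneg h4] at h5
  rw [h5]
  refine (norm_sum_le _ _).trans (sum_le_sum fun j _ => (norm_sum_le _ _).trans
    (sum_le_sum fun l _ => le_of_eq ?_))
  rw [norm_mul, norm_mul, RCLike.norm_conj, norm_mul, norm_ee, one_mul, Complex.norm_real,
    Real.norm_of_nonneg (Ineq1F_nonneg _ _)]

/-- arithmetic-geometric mean and symmetry -/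
lemma Ineq1_amgm {W : ℕ} (s : Finset ℕ) (G C : ℕ → ℂ) (t : ℕ → ℝ) :
    ∑ j ∈ s, ∑ l ∈ s, (‖G j‖ * ‖C j‖) * (‖G l‖ * ‖C l‖) * Ineq1F W (t l - t j) ≤
      ∑ j ∈ s, ∑ l ∈ s, ‖G j‖ ^ 2 * ‖C l‖ ^ 2 * Ineq1F W (t l - t j) := by
  have h1 : ∑ j ∈ s, ∑ l ∈ s, ‖G l‖ ^ 2 * ‖C j‖ ^ 2 * Ineq1F W (t l - t j) =
      ∑ j ∈ s, ∑ l ∈ s, ‖G j‖ ^ 2 * ‖C l‖ ^ 2 * Ineq1F W (t l - t j) := by
    rw [sum_comm]
    refine sum_congr rfl fun j _ => sum_congr rfl fun l _ => ?_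
    rw [← Ineq1F_neg, neg_sub]
  have h2 : ∑ j ∈ s, ∑ l ∈ s, ‖G j‖ ^ 2 * ‖C l‖ ^ 2 * Ineq1F W (t l - t j) =
      ∑ j ∈ s, ∑ l ∈ s, (‖G j‖ ^ 2 * ‖C l‖ ^ 2 + ‖G l‖ ^ 2 * ‖C j‖ ^ 2) / 2 *
        Ineq1F W (t l - t j) := by
    have h3 : ∑ j ∈ s, ∑ l ∈ s, (‖G j‖ ^ 2 * ‖C l‖ ^ 2 + ‖G l‖ ^ 2 * ‖C j‖ ^ 2) / 2 *
        Ineq1F W (t l - t j) =
        (∑ j ∈ s, ∑ l ∈ s, ‖G j‖ ^ 2 * ‖C l‖ ^ 2 * Ineq1F W (t l - t j) +
        ∑ j ∈ s, ∑ l ∈ s, ‖G l‖ ^ 2 * ‖C j‖ ^ 2 * Ineq1F W (t l - t j)) / 2 := by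
      rw [← sum_add_distrib, sum_div]
      refine sum_congr rfl fun j _ => ?_
      rw [← sum_add_distrib, sum_div]
      refine sum_congr rfl fun l _ => ?_
      ring
    rw [h3, h1]
    ring
  rw [h2]
  refine sum_le_sum fun j _ => sum_le_sum fun l _ => ?_
  refine mul_le_mul_of_nonneg_right ?_ (Ineq1F_nonneg _ _)
  nlinarith [sq_nonneg (‖G j‖ * ‖C l‖ - ‖G l‖ * ‖C j‖)]

/-- evaluation of the weight -/
lemma Ineq1_weight {W K Y M q : ℕ} (hW : 1 ≤ W) (hWY : W ≤ Y) (hM : 4 * Y < M) (hq : q * K ≤ Y)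
    (c : ℕ → ℂ) (θ : ℝ) :
    ∑ l ∈ range M, ((‖∑ k ∈ Icc 1 K, c k * ee (q * k * ((l : ℝ) / M))‖ ^ 2 *
        Ineq1F W ((l : ℝ) / M - θ) : ℝ) : ℂ) =
      (M : ℂ) * ∑ k₁ ∈ Icc 1 K, ∑ k₂ ∈ Icc 1 K, c k₁ * (starRingEnd ℂ) (c k₂) *
        ((tri W (q * ((k₁ : ℝ) - k₂)) : ℝ) : ℂ) * ee (q * ((k₁ : ℝ) - k₂) * θ) := by
  have hM0 : 0 < M := by omega
  -- expand
  have h1 : ∀ l ∈ range M, ((‖∑ k ∈ Icc 1 K, c k * ee (q * k * ((l : ℝ) / M))‖ ^ 2 *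
        Ineq1F W ((l : ℝ) / M - θ) : ℝ) : ℂ) =
      ∑ k₁ ∈ Icc 1 K, ∑ k₂ ∈ Icc 1 K, ∑ v ∈ Ioo (-(W : ℤ)) W,
        c k₁ * (starRingEnd ℂ) (c k₂) * (((tri W v : ℝ) : ℂ) * ee (v * θ)) *
          ee ((((q : ℤ) * ((k₁ : ℤ) - k₂) - v : ℤ) : ℝ) * ((l : ℝ) / M)) := by
    intro l _
    rw [ofReal_mul, Ineq1_sq, ← Ineq1F_neg, neg_sub, ← Ineq1_hat hW, sum_mul]
    refine sum_congr rfl fun k₁ _ => ?_
    rw [sum_mul]
    refine sum_congr rfl fun k₂ _ => ?_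
    rw [mul_sum]
    refine sum_congr rfl fun v _ => ?_
    rw [map_mul, conj_ee]
    have e1 : ee ((v : ℝ) * (θ - (l : ℝ) / M)) = ee (v * θ) * ee (-(v * ((l : ℝ) / M))) := by
      rw [← ee_add]
      congr 1
      ring
    have e2 : ee ((((q : ℤ) * ((k₁ : ℤ) - k₂) - v : ℤ) : ℝ) * ((l : ℝ) / M)) =
        ee (q * k₁ * ((l : ℝ) / M)) * ee (-(q * k₂ * ((l : ℝ) / M))) *
          ee (-(v * ((l : ℝ) / M))) := by
      rw [← ee_add, ← ee_add]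
      congr 1
      push_cast
      ring
    rw [e1, e2]
    ring
  rw [sum_congr rfl h1, sum_comm, mul_sum]
  refine sum_congr rfl fun k₁ hk₁ => ?_
  rw [sum_comm, mul_sum]
  refine sum_congr rfl fun k₂ hk₂ => ?_
  rw [sum_comm]
  simp_rw [← mul_sum, orth_int hM0]
  rw [mem_Icc] at hk₁ hk₂
  set D : ℤ := (q : ℤ) * ((k₁ : ℤ) - k₂) with hD
  have hDR : (D : ℝ) = q * ((k₁ : ℝ) - k₂) := by rw [hD]; push_cast; ring
  have hDY : |D| ≤ Y := by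
    rw [hD, abs_mul, Nat.abs_cast]
    have h2 : |(k₁ : ℤ) - k₂| ≤ K := by
      rw [abs_le]
      omega
    calc (q : ℤ) * |(k₁ : ℤ) - k₂| ≤ q * K := mul_le_mul_of_nonneg_left h2 (Nat.cast_nonneg _)
      _ ≤ Y := by exact_mod_cast hq
  have hdvd : ∀ v ∈ Ioo (-(W : ℤ)) W, (M : ℤ) ∣ D - v → v = D := by
    intro v hv hdv
    rw [mem_Ioo] at hv
    rw [abs_le] at hDY
    have h2 : |D - v| < M := by
      rw [abs_lt]
      omega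
    have := Int.eq_zero_of_abs_lt_dvd hdv h2
    omega
  rw [← hDR]
  by_cases hDW : D ∈ Ioo (-(W : ℤ)) W
  · rw [sum_eq_single D]
    · rw [if_pos (by rw [sub_self]; exact dvd_zero _)]
      ring
    · intro v hv hvD
      rw [if_neg fun h => hvD (hdvd v hv h), mul_zero]
    · exact fun h => absurd hDW h
  · have h2 : tri W (D : ℝ) = 0 := by
      refine tri_eq_zero hW ?_
      rw [mem_Ioo, not_and_or, not_lt, not_lt] at hDW
      have h3 : (W : ℤ) ≤ |D| := by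
        rcases hDW with h | h
        · exact (by omega : (W : ℤ) ≤ -D).trans (neg_le_abs D)
        · exact h.trans (le_abs_self D)
      exact_mod_cast h3
    rw [h2]
    rw [sum_eq_zero]
    · simp
    · intro v hv
      rw [if_neg, mul_zero]
      intro h
      rw [hdvd v hv h] at hv
      exact hDW hv

/-- one modulus -/
lemma Ineq1_q {W X K Y M q : ℕ} (hW : 1 ≤ W) (hWX : W ≤ X) (hXY : X + W ≤ Y) (hM : 4 * Y < M)
    (hq : q * K ≤ Y) (c : ℕ → ℕ → ℂ) (g : ℤ → ℂ) (hg : ∀ n : ℤ, (Y : ℤ) < |n| → g n = 0) :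
    ∑ N ∈ Ioo (X - W) (X + W), tri W ((N : ℝ) - X) * ‖EG c K g N q‖ ^ 2 ≤
      1 / (M : ℝ) * ∑ j ∈ range M, ‖gh Y g ((j : ℝ) / M)‖ ^ 2 *
        (∑ k₁ ∈ Icc 1 K, ∑ k₂ ∈ Icc 1 K, c q k₁ * (starRingEnd ℂ) (c q k₂) *
        ((tri W (q * ((k₁ : ℝ) - k₂)) : ℝ) : ℂ) * ee (q * ((k₁ : ℝ) - k₂) * ((j : ℝ) / M))).re := by
  have hM0 : 0 < M := by omega
  have hMR : (0 : ℝ) < M := by exact_mod_cast hM0
  set C : ℕ → ℂ := fun l => ∑ k ∈ Icc 1 K, c q k * ee (q * k * ((l : ℝ) / M)) with hC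
  set G : ℕ → ℂ := fun j => gh Y g ((j : ℝ) / M) with hG
  -- the inversion
  have hA : ∀ N ∈ Ioo (X - W) (X + W), EG c K g N q =
      ∑ j ∈ range M, (1 / (M : ℂ) * (G j * C j)) * ee (-(N * ((j : ℝ) / M))) := by
    intro N hN
    rw [mem_Ioo] at hN
    unfold EG
    have h1 : ∀ k ∈ Icc 1 K, c q k * g ((N : ℤ) - q * k) = ∑ j ∈ range M,
        1 / (M : ℂ) * (G j * (c q k * ee (q * k * ((j : ℝ) / M)))) * ee (-(N * ((j : ℝ) / M))) := by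
      intro k hk
      rw [mem_Icc] at hk
      have hqk : q * k ≤ Y := (Nat.mul_le_mul_left q hk.2).trans hq
      have h2 : |(N : ℤ) - q * k| ≤ 3 * Y := by
        rw [abs_le]
        have h3 : ((q * k : ℕ) : ℤ) ≤ Y := by exact_mod_cast hqk
        have h4 : (0 : ℤ) ≤ ((q * k : ℕ) : ℤ) := Nat.cast_nonneg _
        push_cast at h3 h4
        constructor
        · have : (0 : ℤ) ≤ N := Nat.cast_nonneg _
          linarith
        · have h5 : (N : ℤ) < X + W := by exact_mod_cast hN.2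
          have h6 : (X : ℤ) + W ≤ Y := by exact_mod_cast hXY
          have h7 : (0 : ℤ) ≤ Y := Nat.cast_nonneg _
          linarith
      rw [gh_inv hM g hg _ h2, mul_sum, mul_sum]
      refine sum_congr rfl fun j _ => ?_
      have h3 : ee (-((((N : ℤ) - q * k : ℤ) : ℝ) * ((j : ℝ) / M))) =
          ee (q * k * ((j : ℝ) / M)) * ee (-(N * ((j : ℝ) / M))) := by
        rw [← ee_add]
        congr 1
        push_cast
        ring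
      rw [h3, hG]
      ring
    rw [sum_congr rfl h1, sum_comm]
    refine sum_congr rfl fun j _ => ?_
    rw [hC, ← sum_mul, ← mul_sum, ← mul_sum]
  rw [sum_congr rfl fun N hN => by rw [hA N hN]]
  refine (Ineq1_ms hW hWX (range M) (fun j => 1 / (M : ℂ) * (G j * C j))
    (fun j => (j : ℝ) / M)).trans ?_
  have hnorm : ∀ j, ‖1 / (M : ℂ) * (G j * C j)‖ = 1 / (M : ℝ) * (‖G j‖ * ‖C j‖) := by
    intro j
    rw [norm_mul, norm_mul, norm_div, norm_one, Complex.norm_natCast]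
  simp_rw [hnorm]
  have h1 : ∑ j ∈ range M, ∑ l ∈ range M, 1 / (M : ℝ) * (‖G j‖ * ‖C j‖) *
      (1 / (M : ℝ) * (‖G l‖ * ‖C l‖)) * Ineq1F W ((l : ℝ) / M - (j : ℝ) / M) =
      1 / (M : ℝ) * (1 / (M : ℝ)) * ∑ j ∈ range M, ∑ l ∈ range M,
        (‖G j‖ * ‖C j‖) * (‖G l‖ * ‖C l‖) * Ineq1F W ((l : ℝ) / M - (j : ℝ) / M) := by
    rw [mul_sum]
    refine sum_congr rfl fun j _ => ?_
    rw [mul_sum]
    refine sum_congr rfl fun l _ => ?_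
    ring
  rw [h1]
  refine (mul_le_mul_of_nonneg_left (Ineq1_amgm (range M) G C (fun j => (j : ℝ) / M))
    (by positivity)).trans (le_of_eq ?_)
  rw [mul_assoc]
  congr 1
  rw [mul_sum]
  refine sum_congr rfl fun j _ => ?_
  have h2 := Ineq1_weight (θ := (j : ℝ) / M) hW (by omega) hM hq (c q)
  have h3 := congrArg Complex.re h2
  rw [← ofReal_sum, ofReal_re, ← ofReal_natCast, re_ofReal_mul] at h3
  have h4 : ∑ l ∈ range M, ‖G j‖ ^ 2 * ‖C l‖ ^ 2 * Ineq1F W ((l : ℝ) / M - (j : ℝ) / M) =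
      ‖G j‖ ^ 2 * ∑ l ∈ range M, ‖C l‖ ^ 2 * Ineq1F W ((l : ℝ) / M - (j : ℝ) / M) := by
    rw [mul_sum]
    refine sum_congr rfl fun l _ => ?_
    ring
  rw [h4, h3, hG]
  field_simp

/-- First large sieve type inequality. -/
theorem ineq1 {W X K Y M : ℕ} (hW : 1 ≤ W) (hWX : W ≤ X) (hXY : X + W ≤ Y) (hM : 4 * Y < M)
    (S : Finset ℕ) (hS : ∀ q ∈ S, q * K ≤ Y) (c : ℕ → ℕ → ℂ) (g : ℤ → ℂ)
    (hg : ∀ n : ℤ, (Y : ℤ) < |n| → g n = 0) :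
    TT W X S c K g ≤
      1 / (M : ℝ) * ∑ j ∈ range M, ‖gh Y g ((j : ℝ) / M)‖ ^ 2 * W1 W S c K ((j : ℝ) / M) := by
  unfold TT
  refine (sum_le_sum fun q hq => Ineq1_q hW hWX hXY hM (hS q hq) c g hg).trans ?_
  rw [← mul_sum, sum_comm]
  refine mul_le_mul_of_nonneg_left (sum_le_sum fun j _ => ?_) (by positivity)
  rw [← mul_sum, ← re_sum]
  refine mul_le_mul_of_nonneg_left ?_ (by positivity)
  exact re_le_norm _

end Pool.Agent.SInt
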