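import Pool.Agent.SInt.Fou
import Pool.Agent.SInt.TTb

open Finset Complex
open scoped ArithmeticFunction.Moebius ArithmeticFunction.vonMangoldt

namespace Pool.Agent.SInt

open Pool.Agent.ANT

/-- the Fejer kernel -/
noncomputable def Ineq2_F (W : ℕ) (θ : ℝ) : ℝ := ‖∑ i ∈ range W, ee (i * θ)‖ ^ 2 / W

lemma Ineq2_F_nonneg (W : ℕ) (θ : ℝ) : 0 ≤ Ineq2_F W θ := by
  unfold Ineq2_F
  positivity

lemma Ineq2_F_neg (W : ℕ) (θ : ℝ) : Ineq2_F W (-θ) = Ineq2_F W θ := by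
  unfold Ineq2_F
  have h : ∑ i ∈ range W, ee (i * (-θ)) = (starRingEnd ℂ) (∑ i ∈ range W, ee (i * θ)) := by
    rw [map_sum]
    refine sum_congr rfl fun i _ => ?_
    rw [conj_ee]
    congr 1
    ring
  rw [h, RCLike.norm_conj]

/-- quadratic forms with a nonnegative symmetric kernel -/
lemma Ineq2_quad {ι τ : Type*} (I : Finset ι) (T : Finset τ) (w : τ → ℝ) (φ : ι → τ → ℂ)
    (A : ι → ℂ) (Wk : ι → ι → ℝ) (h0 : ∀ p p', 0 ≤ Wk p p') (hs : ∀ p p', Wk p p' = Wk p' p)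
    (hW : ∀ p p', ∑ t ∈ T, (w t : ℂ) * (φ p t * (starRingEnd ℂ) (φ p' t)) = (Wk p p' : ℂ)) :
    ∑ t ∈ T, w t * ‖∑ p ∈ I, A p * φ p t‖ ^ 2 ≤ ∑ p ∈ I, ‖A p‖ ^ 2 * ∑ p' ∈ I, Wk p p' := by
  have e1 : ((∑ t ∈ T, w t * ‖∑ p ∈ I, A p * φ p t‖ ^ 2 : ℝ) : ℂ) =
      ∑ p ∈ I, ∑ p' ∈ I, A p * (starRingEnd ℂ) (A p') * (Wk p p' : ℂ) := by
    push_cast
    have e2 : ∀ t ∈ T, (w t : ℂ) * ((‖∑ p ∈ I, A p * φ p t‖ : ℝ) : ℂ) ^ 2 =
        ∑ p ∈ I, ∑ p' ∈ I, A p * (starRingEnd ℂ) (A p') *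
          ((w t : ℂ) * (φ p t * (starRingEnd ℂ) (φ p' t))) := by
      intro t _
      have e3 : ((‖∑ p ∈ I, A p * φ p t‖ : ℝ) : ℂ) ^ 2 =
          (∑ p ∈ I, A p * φ p t) * (starRingEnd ℂ) (∑ p ∈ I, A p * φ p t) := by
        rw [Complex.mul_conj, Complex.normSq_eq_norm_sq]
        push_cast
        rfl
      rw [e3, map_sum, sum_mul_sum, mul_sum]
      refine sum_congr rfl fun p _ => ?_
      rw [mul_sum]
      refine sum_congr rfl fun p' _ => ?_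
      rw [map_mul]
      ring
    rw [sum_congr rfl e2, sum_comm]
    refine sum_congr rfl fun p _ => ?_
    rw [sum_comm]
    refine sum_congr rfl fun p' _ => ?_
    rw [← mul_sum, hW]
  have e4 : ∑ t ∈ T, w t * ‖∑ p ∈ I, A p * φ p t‖ ^ 2 ≤
      ∑ p ∈ I, ∑ p' ∈ I, ‖A p‖ * ‖A p'‖ * Wk p p' := by
    refine (le_abs_self _).trans ?_
    rw [← Real.norm_eq_abs, ← Complex.norm_real, e1]
    refine (norm_sum_le _ _).trans (sum_le_sum fun p _ => ?_)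
    refine (norm_sum_le _ _).trans (sum_le_sum fun p' _ => ?_)
    rw [norm_mul, norm_mul, RCLike.norm_conj, Complex.norm_real, Real.norm_of_nonneg (h0 p p')]
  refine e4.trans ?_
  have e5 : ∑ p ∈ I, ∑ p' ∈ I, ‖A p‖ * ‖A p'‖ * Wk p p' ≤
      ∑ p ∈ I, ∑ p' ∈ I, (‖A p‖ ^ 2 / 2 * Wk p p' + ‖A p'‖ ^ 2 / 2 * Wk p p') := by
    refine sum_le_sum fun p _ => sum_le_sum fun p' _ => ?_
    rw [← add_mul]
    refine mul_le_mul_of_nonneg_right ?_ (h0 p p')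
    nlinarith [sq_nonneg (‖A p‖ - ‖A p'‖)]
  refine e5.trans (le_of_eq ?_)
  simp_rw [sum_add_distrib]
  have e6 : ∑ p ∈ I, ∑ p' ∈ I, ‖A p'‖ ^ 2 / 2 * Wk p p' =
      ∑ p ∈ I, ∑ p' ∈ I, ‖A p‖ ^ 2 / 2 * Wk p p' := by
    rw [sum_comm]
    refine sum_congr rfl fun p _ => sum_congr rfl fun p' _ => ?_
    rw [hs]
  rw [e6, ← sum_add_distrib]
  refine sum_congr rfl fun p _ => ?_
  rw [← mul_sum]
  ring

/-- reindexing -/
lemma Ineq2_reidx {s : Finset ℕ} {t : Finset ℤ} (a : ℤ) (f : ℤ → ℝ) (hf : ∀ z ∈ t, 0 ≤ f z)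
    (h : ∀ n ∈ s, (n : ℤ) - a ∈ t) : ∑ n ∈ s, f ((n : ℤ) - a) ≤ ∑ z ∈ t, f z := by
  have e1 : ∑ n ∈ s, f ((n : ℤ) - a) = ∑ z ∈ s.image (fun n : ℕ => (n : ℤ) - a), f z := by
    rw [sum_image]
    intro x _ y _ hxy
    have hxy' : (x : ℤ) - a = (y : ℤ) - a := hxy
    omega
  rw [e1]
  refine sum_le_sum_of_subset_of_nonneg ?_ fun z hz _ => hf z hz
  intro z hz
  obtain ⟨n, hn, rfl⟩ := mem_image.1 hz
  exact h n hn

/-- the set of the indices `k` -/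
def Ineq2_K (K V : ℕ) : Finset ℕ := Ioc (V - 1) (min K (2 * V - 1))

lemma Ineq2_mem_K {K V k : ℕ} (hV : 1 ≤ V) : k ∈ Ineq2_K K V ↔ k ∈ Icc 1 K ∧ k ∈ Ico V (2 * V) := by
  unfold Ineq2_K
  rw [mem_Ioc, mem_Icc, mem_Ico]
  omega

lemma Ineq2_card_K {K V : ℕ} : ((Ineq2_K K V).card : ℝ) ≤ V := by
  unfold Ineq2_K
  rw [Nat.card_Ioc]
  exact_mod_cast (by omega : min K (2 * V - 1) - (V - 1) ≤ V)

/-- majorant -/
lemma Ineq2_major {W X Q V K : ℕ} (hW : 1 ≤ W) (hWX : W ≤ X) (hQ : 1 ≤ Q) (hV : 1 ≤ V)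
    (c : ℕ → ℂ) (hsupp : ∀ k, k ∉ Ico V (2 * V) → c k = 0) (g : ℤ → ℂ) :
    TT W X (Ico Q (2 * Q)) (fun _ => c) K g ≤
      2 * ∑ t ∈ Ioo (-(W : ℤ)) W ×ˢ Ioo (-((2 * Q : ℕ) : ℤ)) ((2 * Q : ℕ) : ℤ),
        (tri W t.1 * tri (2 * Q) t.2) *
          ‖∑ k ∈ Ineq2_K K V, c k * g ((X + t.1) - (Q + t.2) * k)‖ ^ 2 := by
  have hEG : ∀ N q : ℕ, EG (fun _ => c) K g N q =
      ∑ k ∈ Ineq2_K K V, c k * g ((N : ℤ) - q * k) := by
    intro N q
    unfold EG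
    symm
    refine sum_subset (fun k hk => ((Ineq2_mem_K hV).1 hk).1) fun k hk hk' => ?_
    rw [hsupp k fun h => hk' ((Ineq2_mem_K hV).2 ⟨hk, h⟩), zero_mul]
  set f : ℤ → ℤ → ℝ := fun v m => ‖∑ k ∈ Ineq2_K K V, c k * g ((X + v) - (Q + m) * k)‖ ^ 2
    with hf
  have hf0 : ∀ v m, 0 ≤ f v m := fun v m => sq_nonneg _
  have hfe : ∀ N q : ℕ, ‖EG (fun _ => c) K g N q‖ ^ 2 = f ((N : ℤ) - X) ((q : ℤ) - Q) := by
    intro N q
    rw [hEG, hf]
    congr 2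
    refine sum_congr rfl fun k _ => ?_
    congr 2
    ring
  unfold TT
  rw [sum_product, sum_comm, mul_sum]
  have h1 : ∀ N ∈ Ioo (X - W) (X + W), ∑ q ∈ Ico Q (2 * Q),
      tri W ((N : ℝ) - X) * ‖EG (fun _ => c) K g N q‖ ^ 2 ≤
      2 * ∑ m ∈ Ioo (-((2 * Q : ℕ) : ℤ)) ((2 * Q : ℕ) : ℤ),
        (tri W (((N : ℤ) - X : ℤ) : ℝ) * tri (2 * Q) m) * f ((N : ℤ) - X) m := by
    intro N _
    have h2 : ∀ q ∈ Ico Q (2 * Q), tri W ((N : ℝ) - X) * ‖EG (fun _ => c) K g N q‖ ^ 2 ≤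
        2 * ((tri W (((N : ℤ) - X : ℤ) : ℝ) * tri (2 * Q) (((q : ℤ) - Q : ℤ) : ℝ)) *
          f ((N : ℤ) - X) ((q : ℤ) - Q)) := by
      intro q hq
      rw [mem_Ico] at hq
      rw [hfe]
      have h3 : 1 / 2 ≤ tri (2 * Q) (((q : ℤ) - Q : ℤ) : ℝ) := by
        apply tri_half
        push_cast
        have a1 : (Q : ℝ) ≤ q := by exact_mod_cast hq.1
        have a2 : (q : ℝ) < 2 * Q := by exact_mod_cast hq.2
        rw [abs_of_nonneg (by linarith)]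
        linarith
      have h4 : tri W (((N : ℤ) - X : ℤ) : ℝ) = tri W ((N : ℝ) - X) := by
        congr 1
        push_cast
        ring
      rw [h4]
      have h5 : 0 ≤ tri W ((N : ℝ) - X) * f ((N : ℤ) - X) ((q : ℤ) - Q) :=
        mul_nonneg (tri_nonneg _ _) (hf0 _ _)
      nlinarith
    refine (sum_le_sum h2).trans ?_
    rw [← mul_sum]
    refine mul_le_mul_of_nonneg_left ?_ (by norm_num)
    refine Ineq2_reidx (Q : ℤ) (fun m => (tri W (((N : ℤ) - X : ℤ) : ℝ) * tri (2 * Q) (m : ℝ)) *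
      f ((N : ℤ) - X) m) ?_ ?_
    · intro z _
      exact mul_nonneg (mul_nonneg (tri_nonneg _ _) (tri_nonneg _ _)) (hf0 _ _)
    · intro q hq
      rw [mem_Ico] at hq
      rw [mem_Ioo]
      omega
  refine (sum_le_sum h1).trans ?_
  have h6 := Ineq2_reidx (s := Ioo (X - W) (X + W)) (t := Ioo (-(W : ℤ)) W) (X : ℤ)
    (fun v => 2 * ∑ m ∈ Ioo (-((2 * Q : ℕ) : ℤ)) ((2 * Q : ℕ) : ℤ),
        (tri W (v : ℝ) * tri (2 * Q) (m : ℝ)) * f v m) (by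
      intro v _
      refine mul_nonneg (by norm_num) (sum_nonneg fun m _ => ?_)
      exact mul_nonneg (mul_nonneg (tri_nonneg _ _) (tri_nonneg _ _)) (hf0 _ _)) (by
      intro N hN
      rw [mem_Ioo] at hN ⊢
      omega)
  exact h6

/-- inversion -/
lemma Ineq2_inv {W X Y M Q V K : ℕ} (hXY : X + W ≤ Y) (hM : 4 * Y < M) (hV : 1 ≤ V)
    (hQV : 6 * Q * V ≤ Y) (c : ℕ → ℂ) (g : ℤ → ℂ) (hg : ∀ n : ℤ, (Y : ℤ) < |n| → g n = 0)
    (v m : ℤ) (hv : v ∈ Ioo (-(W : ℤ)) W)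
    (hm : m ∈ Ioo (-((2 * Q : ℕ) : ℤ)) ((2 * Q : ℕ) : ℤ)) :
    ∑ k ∈ Ineq2_K K V, c k * g ((X + v) - (Q + m) * k) =
      1 / (M : ℂ) * ∑ p ∈ range M ×ˢ Ineq2_K K V,
        (gh Y g ((p.1 : ℝ) / M) * c p.2 * ee (-(X * ((p.1 : ℝ) / M))) *
          ee (Q * p.2 * ((p.1 : ℝ) / M))) *
          (ee (-(v * ((p.1 : ℝ) / M))) * ee (m * (p.2 * ((p.1 : ℝ) / M)))) := by
  rw [sum_product_right, mul_sum]
  refine sum_congr rfl fun k hk => ?_
  rw [Ineq2_mem_K hV, mem_Icc, mem_Ico] at hk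
  rw [mem_Ioo] at hv hm
  have hb : |(X + v) - (Q + m) * (k : ℤ)| ≤ 3 * Y := by
    have h1 : |((Q : ℤ) + m)| ≤ 3 * Q := by
      rw [abs_le]
      push_cast at hm
      constructor <;> omega
    have h2 : |(k : ℤ)| ≤ 2 * V := by
      rw [abs_of_nonneg (by omega)]
      omega
    have h3 : |((Q : ℤ) + m) * (k : ℤ)| ≤ 3 * Q * (2 * V) := by
      rw [abs_mul]
      exact mul_le_mul h1 h2 (abs_nonneg _) (by positivity)
    have h4 : (3 * Q * (2 * V) : ℤ) ≤ Y := by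
      have : (3 * Q * (2 * V) : ℤ) = ((6 * Q * V : ℕ) : ℤ) := by push_cast; ring
      rw [this]
      exact_mod_cast hQV
    have h5 := abs_le.1 h3
    rw [abs_le]
    constructor
    · have := h5.2
      omega
    · have := h5.1
      omega
  rw [gh_inv hM g hg _ hb, mul_left_comm, mul_sum]
  congr 1
  refine sum_congr rfl fun j _ => ?_
  have e1 : ee (-((((X : ℤ) + v) - (Q + m) * (k : ℤ) : ℤ) * ((j : ℝ) / M))) =
      ee (-(X * ((j : ℝ) / M))) * ee (Q * k * ((j : ℝ) / M)) *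
        (ee (-(v * ((j : ℝ) / M))) * ee (m * (k * ((j : ℝ) / M)))) := by
    rw [← ee_add, ← ee_add, ← ee_add]
    congr 1
    push_cast
    ring
  rw [e1]
  ring

/-- the kernel -/
noncomputable def Ineq2_W (W M Q : ℕ) (p p' : ℕ × ℕ) : ℝ :=
  Ineq2_F W (((p'.1 : ℝ) - p.1) / M) * Ineq2_F (2 * Q) (((p.2 : ℝ) * p.1 - p'.2 * p'.1) / M)

lemma Ineq2_kernel {W M Q : ℕ} (hW : 1 ≤ W) (hQ : 1 ≤ Q) (p p' : ℕ × ℕ) :
    ∑ t ∈ Ioo (-(W : ℤ)) W ×ˢ Ioo (-((2 * Q : ℕ) : ℤ)) ((2 * Q : ℕ) : ℤ),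
      ((tri W t.1 * tri (2 * Q) t.2 : ℝ) : ℂ) *
        ((ee (-(t.1 * ((p.1 : ℝ) / M))) * ee (t.2 * (p.2 * ((p.1 : ℝ) / M)))) *
        (starRingEnd ℂ) (ee (-(t.1 * ((p'.1 : ℝ) / M))) * ee (t.2 * (p'.2 * ((p'.1 : ℝ) / M))))) =
      (Ineq2_W W M Q p p' : ℂ) := by
  unfold Ineq2_W Ineq2_F
  push_cast
  have h1 := tri_hat hW (((p'.1 : ℝ) - p.1) / M)
  have h2 := tri_hat (W := 2 * Q) (by omega) (((p.2 : ℝ) * p.1 - p'.2 * p'.1) / M)
  push_cast at h1 h2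
  rw [← h1, ← h2, sum_mul_sum, sum_product]
  refine sum_congr rfl fun v _ => sum_congr rfl fun m _ => ?_
  rw [map_mul, conj_ee, conj_ee]
  have e1 : ee ((v : ℝ) * (((p'.1 : ℝ) - p.1) / M)) =
      ee (-(v * ((p.1 : ℝ) / M))) * ee (-(-(v * ((p'.1 : ℝ) / M)))) := by
    rw [← ee_add]
    congr 1
    ring
  have e2 : ee ((m : ℝ) * (((p.2 : ℝ) * p.1 - p'.2 * p'.1) / M)) =
      ee (m * (p.2 * ((p.1 : ℝ) / M))) * ee (-(m * (p'.2 * ((p'.1 : ℝ) / M)))) := by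
    rw [← ee_add]
    congr 1
    ring
  rw [e1, e2]
  push_cast
  ring

/-- the sum of the kernel -/
lemma Ineq2_sum {W Y M Q V K : ℕ} (hW : 1 ≤ W) (hWY : W ≤ Y) (hM : 4 * Y < M)
    (hQ : 1 ≤ Q) (hV : 1 ≤ V) (hQV : 6 * Q * V ≤ Y) (j : ℕ) :
    ∑ k ∈ Ineq2_K K V, ∑ p' ∈ range M ×ˢ Ineq2_K K V, Ineq2_W W M Q (j, k) p' ≤
      M * (V * LS (W / V) V ((j : ℝ) / M)) := by
  have hVR : (0 : ℝ) < V := by exact_mod_cast hV
  have hM0 : 0 < M := by omega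
  -- complex form
  have e1 : ((∑ k ∈ Ineq2_K K V, ∑ p' ∈ range M ×ˢ Ineq2_K K V, Ineq2_W W M Q (j, k) p' : ℝ) : ℂ)
      = (M : ℂ) * ∑ k' ∈ Ineq2_K K V, ∑ m ∈ Ioo (-((2 * Q : ℕ) : ℤ)) ((2 * Q : ℕ) : ℤ),
        ((tri W ((m : ℝ) * k') * tri (2 * Q) m : ℝ) : ℂ) * ee (-(m * k' * ((j : ℝ) / M))) *
          ∑ k ∈ Ineq2_K K V, ee (k * (m * ((j : ℝ) / M))) := by
    push_cast
    have e2 : ∀ k ∈ Ineq2_K K V, ∀ k' ∈ Ineq2_K K V,
        ∑ j' ∈ range M, ((Ineq2_W W M Q (j, k) (j', k') : ℝ) : ℂ) =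
        (M : ℂ) * ∑ m ∈ Ioo (-((2 * Q : ℕ) : ℤ)) ((2 * Q : ℕ) : ℤ),
          ((tri W ((m : ℝ) * k') * tri (2 * Q) m : ℝ) : ℂ) * ee (-(m * k' * ((j : ℝ) / M))) *
            ee (k * (m * ((j : ℝ) / M))) := by
      intro k _ k' hk'
      rw [Ineq2_mem_K hV, mem_Icc, mem_Ico] at hk'
      have e3 : ∀ j' ∈ range M, ((Ineq2_W W M Q (j, k) (j', k') : ℝ) : ℂ) =
          ∑ m ∈ Ioo (-((2 * Q : ℕ) : ℤ)) ((2 * Q : ℕ) : ℤ), ∑ v ∈ Ioo (-(W : ℤ)) W,
            ((tri W v * tri (2 * Q) m : ℝ) : ℂ) * (ee (-(v * ((j : ℝ) / M))) *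
              ee (m * (k * ((j : ℝ) / M)))) * ee (((v - m * k' : ℤ) : ℝ) * ((j' : ℝ) / M)) := by
        intro j' _
        rw [← Ineq2_kernel hW hQ, sum_product_right]
        refine sum_congr rfl fun m _ => sum_congr rfl fun v _ => ?_
        rw [map_mul, conj_ee, conj_ee]
        have e4 : ee (((v - m * k' : ℤ) : ℝ) * ((j' : ℝ) / M)) =
            ee (-(-(v * ((j' : ℝ) / M)))) * ee (-(m * (k' * ((j' : ℝ) / M)))) := by
          rw [← ee_add]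
          congr 1
          push_cast
          ring
        rw [e4]
        ring
      rw [sum_congr rfl e3, sum_comm, mul_sum]
      refine sum_congr rfl fun m hm => ?_
      rw [mem_Ioo] at hm
      rw [sum_comm]
      have hmk : |m * (k' : ℤ)| ≤ 4 * Q * V := by
        rw [abs_mul]
        have h1 : |m| ≤ 2 * Q := by
          rw [abs_le]
          push_cast at hm
          constructor <;> omega
        have h2 : |(k' : ℤ)| ≤ 2 * V := by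
          rw [abs_of_nonneg (by omega)]
          omega
        have h3 := mul_le_mul h1 h2 (abs_nonneg _) (by positivity)
        have h4 : (2 * Q * (2 * V) : ℤ) = 4 * Q * V := by ring
        rw [h4] at h3
        exact h3
      have hQV' : (4 * Q * V : ℤ) ≤ Y := by
        have h1 : (6 * Q * V : ℤ) ≤ Y := by exact_mod_cast hQV
        have h2 : (0 : ℤ) ≤ Q * V := by positivity
        nlinarith
      have e5 : ∀ v ∈ Ioo (-(W : ℤ)) W, ∑ j' ∈ range M, ((tri W v * tri (2 * Q) m : ℝ) : ℂ) *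
          (ee (-(v * ((j : ℝ) / M))) * ee (m * (k * ((j : ℝ) / M)))) *
            ee (((v - m * k' : ℤ) : ℝ) * ((j' : ℝ) / M)) =
          if v = m * k' then (M : ℂ) * (((tri W ((m : ℝ) * k') * tri (2 * Q) m : ℝ) : ℂ) *
            ee (-(m * k' * ((j : ℝ) / M))) * ee (k * (m * ((j : ℝ) / M)))) else 0 := by
        intro v hv
        rw [mem_Ioo] at hv
        rw [← mul_sum, orth_int hM0]
        by_cases h : v = m * k'
        · subst h
          rw [if_pos (by simp), if_pos rfl]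
          push_cast
          have e6 : (m : ℝ) * (k * ((j : ℝ) / M)) = k * (m * ((j : ℝ) / M)) := by ring
          rw [e6]
          ring
        · rw [if_neg h, if_neg, mul_zero]
          intro hd
          apply h
          have h1 : |v - m * (k' : ℤ)| < M := by
            have h2 := abs_le.1 hmk
            rw [abs_lt]
            constructor
            · have := h2.2
              omega
            · have := h2.1
              omega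
          have h3 := Int.eq_zero_of_abs_lt_dvd hd h1
          omega
      rw [sum_congr rfl e5, sum_ite_eq']
      split_ifs with h
      · rfl
      · have h1 : tri W ((m : ℝ) * k') = 0 := by
          apply tri_eq_zero hW
          rw [mem_Ioo, not_and_or, not_lt, not_lt] at h
          have h2 : (W : ℤ) ≤ |m * (k' : ℤ)| := by
            rcases h with h | h
            · have := neg_le_abs (m * (k' : ℤ))
              omega
            · exact h.trans (le_abs_self _)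
          exact_mod_cast h2
        rw [h1]
        simp
    have e7 : ∑ k ∈ Ineq2_K K V, ∑ p' ∈ range M ×ˢ Ineq2_K K V,
        ((Ineq2_W W M Q (j, k) p' : ℝ) : ℂ) = ∑ k ∈ Ineq2_K K V, ∑ k' ∈ Ineq2_K K V,
        (M : ℂ) * ∑ m ∈ Ioo (-((2 * Q : ℕ) : ℤ)) ((2 * Q : ℕ) : ℤ),
          ((tri W ((m : ℝ) * k') * tri (2 * Q) m : ℝ) : ℂ) * ee (-(m * k' * ((j : ℝ) / M))) *
            ee (k * (m * ((j : ℝ) / M))) := by
      refine sum_congr rfl fun k hk => ?_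
      rw [sum_product_right]
      exact sum_congr rfl fun k' hk' => e2 k hk k' hk'
    push_cast at e7
    rw [e7, sum_comm, mul_sum]
    refine sum_congr rfl fun k' _ => ?_
    rw [← mul_sum]
    congr 1
    rw [sum_comm]
    refine sum_congr rfl fun m _ => ?_
    rw [mul_sum]
  -- estimates
  refine (le_abs_self _).trans ?_
  rw [← Real.norm_eq_abs, ← Complex.norm_real, e1, norm_mul, Complex.norm_natCast]
  refine mul_le_mul_of_nonneg_left ?_ (Nat.cast_nonneg _)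
  have hLS : 0 ≤ LS (W / V) V ((j : ℝ) / M) := by
    unfold LS
    exact sum_nonneg fun w _ => (Fy_pos hVR _).le
  refine le_trans ?_ (mul_le_mul_of_nonneg_right (Ineq2_card_K (K := K) (V := V)) hLS)
  rw [← nsmul_eq_mul, ← sum_const]
  refine (norm_sum_le _ _).trans (sum_le_sum fun k' hk' => ?_)
  rw [Ineq2_mem_K hV, mem_Icc, mem_Ico] at hk'
  refine (norm_sum_le _ _).trans ?_
  have h1 : ∀ m ∈ Ioo (-((2 * Q : ℕ) : ℤ)) ((2 * Q : ℕ) : ℤ),
      ‖((tri W ((m : ℝ) * k') * tri (2 * Q) m : ℝ) : ℂ) * ee (-(m * k' * ((j : ℝ) / M))) *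
          ∑ k ∈ Ineq2_K K V, ee (k * (m * ((j : ℝ) / M)))‖ ≤
      if m ∈ Icc (-((W / V : ℕ) : ℤ)) ((W / V : ℕ) : ℤ) then Fy V (m * ((j : ℝ) / M)) else 0 := by
    intro m _
    have h2 : ‖∑ k ∈ Ineq2_K K V, ee (k * (m * ((j : ℝ) / M)))‖ ≤ Fy V (m * ((j : ℝ) / M)) := by
      unfold Ineq2_K
      refine norm_geom_le hVR ?_
      exact_mod_cast (by omega : min K (2 * V - 1) - (V - 1) ≤ V)
    have h0 : 0 ≤ tri W ((m : ℝ) * k') * tri (2 * Q) m :=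
      mul_nonneg (tri_nonneg _ _) (tri_nonneg _ _)
    rw [norm_mul, norm_mul, norm_ee, mul_one, Complex.norm_real, Real.norm_of_nonneg h0]
    split_ifs with h
    · have h3 : tri W ((m : ℝ) * k') * tri (2 * Q) m ≤ 1 := by
        have a1 := tri_le_one W ((m : ℝ) * k')
        have a2 := tri_le_one (2 * Q) (m : ℝ)
        have a3 := tri_nonneg W ((m : ℝ) * k')
        have a4 := tri_nonneg (2 * Q) (m : ℝ)
        nlinarith
      calc _ ≤ 1 * Fy V (m * ((j : ℝ) / M)) :=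
            mul_le_mul h3 h2 (norm_nonneg _) (by norm_num)
        _ = _ := one_mul _
    · have h3 : tri W ((m : ℝ) * k') = 0 := by
        apply tri_eq_zero hW
        rw [mem_Icc, not_and_or, not_le, not_le] at h
        have h4 : ((W / V : ℕ) : ℤ) < |m| := by
          rcases h with h | h
          · have := neg_le_abs m
            omega
          · exact h.trans_le (le_abs_self _)
        have h5 : (W : ℤ) ≤ |m| * V := by
          have h6 : W < (W / V + 1) * V := by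
            have := Nat.lt_mul_div_succ W (Nat.lt_of_lt_of_le Nat.zero_lt_one hV)
            rw [mul_comm] at this
            exact this
          have h7 : ((W / V + 1 : ℕ) : ℤ) ≤ |m| := by
            push_cast at h4 ⊢
            omega
          have h8 : ((W / V + 1 : ℕ) : ℤ) * V ≤ |m| * V :=
            mul_le_mul_of_nonneg_right h7 (by positivity)
          have h9 : (W : ℤ) < ((W / V + 1 : ℕ) : ℤ) * V := by exact_mod_cast h6
          linarith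
        have h6 : (W : ℤ) ≤ |m * (k' : ℤ)| := by
          rw [abs_mul, abs_of_nonneg (by omega : (0 : ℤ) ≤ k')]
          refine h5.trans (mul_le_mul_of_nonneg_left ?_ (abs_nonneg _))
          exact_mod_cast hk'.2.1
        exact_mod_cast h6
      rw [h3]
      simp
  refine (sum_le_sum h1).trans ?_
  rw [← sum_filter]
  unfold LS
  refine sum_le_sum_of_subset_of_nonneg ?_ fun w _ _ => (Fy_pos hVR _).le
  intro m hm
  exact (mem_filter.1 hm).2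

/-- Second large sieve type inequality (using the sum over the moduli). -/
theorem ineq2 {W X Y M Q V K : ℕ} (hW : 1 ≤ W) (hWX : W ≤ X) (hXY : X + W ≤ Y) (hM : 4 * Y < M)
    (hQ : 1 ≤ Q) (hV : 1 ≤ V) (hQV : 6 * Q * V ≤ Y) (c : ℕ → ℂ) (hc : ∀ k, ‖c k‖ ≤ 1)
    (hsupp : ∀ k, k ∉ Ico V (2 * V) → c k = 0) (g : ℤ → ℂ) (hg : ∀ n : ℤ, (Y : ℤ) < |n| → g n = 0) :
    TT W X (Ico Q (2 * Q)) (fun _ => c) K g ≤
      1 / (M : ℝ) * ∑ j ∈ range M, ‖gh Y g ((j : ℝ) / M)‖ ^ 2 *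
        (2 * V * LS (W / V) V ((j : ℝ) / M)) := by
  have hM0 : (0 : ℝ) < M := by
    have : 0 < M := by omega
    exact_mod_cast this
  have h1 := Ineq2_major (K := K) hW hWX hQ hV c hsupp g
  set A : ℕ × ℕ → ℂ := fun p => gh Y g ((p.1 : ℝ) / M) * c p.2 * ee (-(X * ((p.1 : ℝ) / M))) *
          ee (Q * p.2 * ((p.1 : ℝ) / M)) with hA
  set φ : ℕ × ℕ → ℤ × ℤ → ℂ := fun p t =>
    ee (-(t.1 * ((p.1 : ℝ) / M))) * ee (t.2 * (p.2 * ((p.1 : ℝ) / M))) with hφ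
  have h2 : ∀ t ∈ Ioo (-(W : ℤ)) W ×ˢ Ioo (-((2 * Q : ℕ) : ℤ)) ((2 * Q : ℕ) : ℤ),
      (tri W t.1 * tri (2 * Q) t.2) *
          ‖∑ k ∈ Ineq2_K K V, c k * g ((X + t.1) - (Q + t.2) * k)‖ ^ 2 =
      1 / (M : ℝ) ^ 2 * ((tri W t.1 * tri (2 * Q) t.2) *
        ‖∑ p ∈ range M ×ˢ Ineq2_K K V, A p * φ p t‖ ^ 2) := by
    intro t ht
    rw [mem_product] at ht
    rw [Ineq2_inv hXY hM hV hQV c g hg t.1 t.2 ht.1 ht.2, norm_mul, mul_pow]
    have e1 : ‖(1 / (M : ℂ))‖ = 1 / (M : ℝ) := by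
      rw [norm_div, norm_one, Complex.norm_natCast]
    rw [e1, one_div_pow]
    ring
  rw [sum_congr rfl h2, ← mul_sum] at h1
  have h3 := Ineq2_quad (range M ×ˢ Ineq2_K K V)
    (Ioo (-(W : ℤ)) W ×ˢ Ioo (-((2 * Q : ℕ) : ℤ)) ((2 * Q : ℕ) : ℤ))
    (fun t => tri W t.1 * tri (2 * Q) t.2) φ A (Ineq2_W W M Q)
    (fun p p' => mul_nonneg (Ineq2_F_nonneg _ _) (Ineq2_F_nonneg _ _))
    (fun p p' => by
      unfold Ineq2_W
      rw [← Ineq2_F_neg W, ← Ineq2_F_neg (2 * Q)]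
      congr 2
      · ring
      · ring)
    (fun p p' => Ineq2_kernel hW hQ p p')
  have h4 : ∑ p ∈ range M ×ˢ Ineq2_K K V, ‖A p‖ ^ 2 *
      ∑ p' ∈ range M ×ˢ Ineq2_K K V, Ineq2_W W M Q p p' ≤
      ∑ j ∈ range M, ‖gh Y g ((j : ℝ) / M)‖ ^ 2 * (M * (V * LS (W / V) V ((j : ℝ) / M))) := by
    rw [sum_product]
    refine sum_le_sum fun j _ => ?_
    refine le_trans ?_ (mul_le_mul_of_nonneg_left
      (Ineq2_sum (K := K) hW (by omega) hM hQ hV hQV j) (sq_nonneg _))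
    rw [mul_sum]
    refine sum_le_sum fun k _ => ?_
    refine mul_le_mul_of_nonneg_right ?_ ?_
    · rw [hA]
      simp only
      rw [norm_mul, norm_mul, norm_mul, norm_ee, norm_ee, mul_one, mul_one, mul_pow]
      have h5 : ‖c k‖ ^ 2 ≤ 1 := pow_le_one₀ (norm_nonneg _) (hc k)
      calc _ ≤ ‖gh Y g ((j : ℝ) / M)‖ ^ 2 * 1 := mul_le_mul_of_nonneg_left h5 (sq_nonneg _)
        _ = _ := mul_one _
    · exact sum_nonneg fun p' _ => mul_nonneg (Ineq2_F_nonneg _ _) (Ineq2_F_nonneg _ _)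
  have h5 := h3.trans h4
  have h6 : 2 * (1 / (M : ℝ) ^ 2 * ∑ t ∈ Ioo (-(W : ℤ)) W ×ˢ
      Ioo (-((2 * Q : ℕ) : ℤ)) ((2 * Q : ℕ) : ℤ), (tri W t.1 * tri (2 * Q) t.2) *
        ‖∑ p ∈ range M ×ˢ Ineq2_K K V, A p * φ p t‖ ^ 2) ≤
      2 * (1 / (M : ℝ) ^ 2 * ∑ j ∈ range M, ‖gh Y g ((j : ℝ) / M)‖ ^ 2 *
        (M * (V * LS (W / V) V ((j : ℝ) / M)))) := by
    refine mul_le_mul_of_nonneg_left ?_ (by norm_num)
    exact mul_le_mul_of_nonneg_left h5 (by positivity)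
  refine h1.trans (h6.trans (le_of_eq ?_))
  rw [mul_sum, mul_sum, mul_sum]
  refine sum_congr rfl fun j _ => ?_
  field_simp

end Pool.Agent.SInt
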