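import Pool.Agent.SInt.Defs

open Finset Complex
open scoped ArithmeticFunction.Moebius ArithmeticFunction.vonMangoldt

namespace Pool.Agent.SInt

open Pool.Agent.ANT

/-- `cot (π x)` -/
noncomputable def KL_c (x : ℝ) : ℝ := Real.cos (Real.pi * x) / Real.sin (Real.pi * x)

/-- `1 / (1 - e(x))` -/
noncomputable def KL_z (x : ℝ) : ℂ := (1 + I * ((KL_c x : ℝ) : ℂ)) / 2

theorem KL_sin {δ g : ℝ} (hδ : 0 < δ) (h1 : δ ≤ g) (h2 : g ≤ 1 - δ) :
    2 * δ ≤ Real.sin (Real.pi * g) := by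
  have key : ∀ x : ℝ, 0 ≤ x → x ≤ 1 / 2 → 2 * x ≤ Real.sin (Real.pi * x) := by
    intro x hx0 hx1
    have h3 := Real.mul_le_sin (x := Real.pi * x) (by positivity) (by nlinarith [Real.pi_pos])
    have h4 : 2 / Real.pi * (Real.pi * x) = 2 * x := by
      field_simp
    rwa [h4] at h3
  rcases le_total g (1 / 2) with h | h
  · have := key g (by linarith) h
    linarith
  · have h3 := key (1 - g) (by linarith) (by linarith)
    have h4 : Real.sin (Real.pi * (1 - g)) = Real.sin (Real.pi * g) := by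
      rw [mul_sub, mul_one, Real.sin_pi_sub]
    rw [h4] at h3
    linarith

theorem KL_c_le {x y : ℝ} (hx : 0 < x) (hxy : x ≤ y) (hy : y < 1) : KL_c y ≤ KL_c x := by
  have hsx : 0 < Real.sin (Real.pi * x) :=
    Real.sin_pos_of_pos_of_lt_pi (by positivity) (by nlinarith [Real.pi_pos])
  have hsy : 0 < Real.sin (Real.pi * y) :=
    Real.sin_pos_of_pos_of_lt_pi (by nlinarith [Real.pi_pos]) (by nlinarith [Real.pi_pos])
  have h1 : 0 ≤ Real.sin (Real.pi * y - Real.pi * x) :=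
    Real.sin_nonneg_of_nonneg_of_le_pi (by nlinarith [Real.pi_pos]) (by nlinarith [Real.pi_pos])
  rw [Real.sin_sub] at h1
  unfold KL_c
  rw [div_le_div_iff₀ hsy hsx]
  linarith

theorem KL_abs_c {δ g : ℝ} (hδ : 0 < δ) (h1 : δ ≤ g) (h2 : g ≤ 1 - δ) : |KL_c g| ≤ 1 / (2 * δ) := by
  have h := KL_sin hδ h1 h2
  unfold KL_c
  rw [abs_div, abs_of_pos (by linarith : 0 < Real.sin (Real.pi * g))]
  exact div_le_div₀ zero_le_one (Real.abs_cos_le_one _) (by linarith) h

theorem KL_norm_z {δ g : ℝ} (hδ : 0 < δ) (h1 : δ ≤ g) (h2 : g ≤ 1 - δ) : ‖KL_z g‖ ≤ 1 / (4 * δ) := by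
  have h := KL_sin hδ h1 h2
  have hs : 0 < Real.sin (Real.pi * g) := by linarith
  have e : KL_z g = (((1 / (2 * Real.sin (Real.pi * g)) : ℝ)) : ℂ) *
      (I * cexp (((-(Real.pi * g) : ℝ) : ℂ) * I)) := by
    rw [Complex.exp_mul_I, ← Complex.ofReal_cos, ← Complex.ofReal_sin, Real.cos_neg, Real.sin_neg]
    unfold KL_z KL_c
    have hs' : ((Real.sin (Real.pi * g) : ℝ) : ℂ) ≠ 0 := by exact_mod_cast hs.ne'
    push_cast at hs' ⊢
    field_simp
    linear_combination (Complex.sin (Real.pi * g)) * Complex.I_sq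
  rw [e, norm_mul, norm_mul, Complex.norm_I, Complex.norm_exp_ofReal_mul_I, Complex.norm_real,
    Real.norm_of_nonneg (by positivity), one_mul, mul_one]
  exact div_le_div_of_nonneg_left zero_le_one (by linarith) (by linarith)

theorem KL_z_mul {g : ℝ} (hs : Real.sin (Real.pi * g) ≠ 0) : (1 - ee g) * KL_z g = 1 := by
  have h : ee g = (((Real.cos (Real.pi * g) : ℝ) : ℂ) + ((Real.sin (Real.pi * g) : ℝ) : ℂ) * I) ^ 2 := by
    unfold ee
    rw [Complex.ofReal_cos, Complex.ofReal_sin, ← Complex.exp_mul_I, ← Complex.exp_nat_mul]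
    congr 1
    push_cast
    ring
  have h1 : ((Real.cos (Real.pi * g) : ℝ) : ℂ) ^ 2 + ((Real.sin (Real.pi * g) : ℝ) : ℂ) ^ 2 = 1 := by
    exact_mod_cast Real.cos_sq_add_sin_sq (Real.pi * g)
  have hs' : ((Real.sin (Real.pi * g) : ℝ) : ℂ) ≠ 0 := by exact_mod_cast hs
  rw [h]
  unfold KL_z KL_c
  rw [Complex.ofReal_div]
  generalize ((Real.cos (Real.pi * g) : ℝ) : ℂ) = C at *
  generalize ((Real.sin (Real.pi * g) : ℝ) : ℂ) = S at *
  have h2 : 1 - (C + S * I) ^ 2 = 2 * S * (S - C * I) := by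
    linear_combination -h1 - S ^ 2 * Complex.I_sq
  have h3 : (1 + I * (C / S)) / 2 = (S + C * I) / (2 * S) := by
    field_simp
  rw [h2, h3]
  field_simp
  linear_combination h1 - C ^ 2 * Complex.I_sq

/-- partial sums -/
theorem KL_part (a : ℕ → ℂ) (g : ℕ → ℝ) (ha : ∀ j, ‖a j‖ = 1) (n : ℕ)
    (hc : ∀ j, j + 1 ≤ n → KL_c (g (j + 1)) ≤ KL_c (g j)) :
    ∀ k ≤ n, ‖∑ j ∈ range (k + 1), (a j - a (j + 1)) * KL_z (g j) + a (k + 1) * KL_z (g k)‖ ≤
      ‖KL_z (g 0)‖ + (KL_c (g 0) - KL_c (g k)) / 2 := by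
  intro k
  induction k with
  | zero =>
    intro _
    rw [Finset.sum_range_one]
    have h : (a 0 - a (0 + 1)) * KL_z (g 0) + a (0 + 1) * KL_z (g 0) = a 0 * KL_z (g 0) := by ring
    rw [h, norm_mul, ha, one_mul]
    simp
  | succ k ih =>
    intro hk
    have h1 := ih (by omega)
    have h2 := hc k hk
    rw [Finset.sum_range_succ]
    have e : ∑ j ∈ range (k + 1), (a j - a (j + 1)) * KL_z (g j) +
        (a (k + 1) - a (k + 1 + 1)) * KL_z (g (k + 1)) + a (k + 1 + 1) * KL_z (g (k + 1)) =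
        (∑ j ∈ range (k + 1), (a j - a (j + 1)) * KL_z (g j) + a (k + 1) * KL_z (g k)) +
          a (k + 1) * (KL_z (g (k + 1)) - KL_z (g k)) := by ring
    have e2 : ‖KL_z (g (k + 1)) - KL_z (g k)‖ = (KL_c (g k) - KL_c (g (k + 1))) / 2 := by
      have e3 : KL_z (g (k + 1)) - KL_z (g k) =
          -(I * (((KL_c (g k) - KL_c (g (k + 1))) / 2 : ℝ) : ℂ)) := by
        unfold KL_z
        push_cast
        ring
      rw [e3, norm_neg, norm_mul, Complex.norm_I, one_mul, Complex.norm_real,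
        Real.norm_of_nonneg (by linarith)]
    rw [e]
    refine (norm_add_le _ _).trans ?_
    rw [norm_mul, ha, one_mul, e2]
    linarith

/-- The Kusmin-Landau inequality (discrete form). -/
theorem kusmin_landau (f : ℕ → ℝ) (n : ℕ) {δ : ℝ} (hδ : 0 < δ) (hδ1 : δ ≤ 1 / 2) (m : ℤ)
    (hmono : ∀ j, j + 2 ≤ n → f (j + 1) - f j ≤ f (j + 2) - f (j + 1))
    (hlow : ∀ j, j + 1 ≤ n → (m : ℝ) + δ ≤ f (j + 1) - f j)
    (hhigh : ∀ j, j + 1 ≤ n → f (j + 1) - f j ≤ (m : ℝ) + 1 - δ) :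
    ‖∑ j ∈ range (n + 1), ee (f j)‖ ≤ 2 / δ := by
  rcases n with _ | n
  · rw [Finset.sum_range_one, norm_ee, le_div_iff₀ hδ]
    linarith
  set g : ℕ → ℝ := fun j => f (j + 1) - f j - m with hg
  have hg1 : ∀ j ≤ n, δ ≤ g j := fun j hj => by
    have := hlow j (by omega)
    simp only [hg]
    linarith
  have hg2 : ∀ j ≤ n, g j ≤ 1 - δ := fun j hj => by
    have := hhigh j (by omega)
    simp only [hg]
    linarith
  have hg3 : ∀ j, j + 1 ≤ n → g j ≤ g (j + 1) := fun j hj => by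
    have := hmono j (by omega)
    simp only [hg]
    linarith
  have hstep : ∀ j ≤ n, (ee (f j) - ee (f (j + 1))) * KL_z (g j) = ee (f j) := by
    intro j hj
    have h1 : ee (f (j + 1)) = ee (f j) * ee (g j) := by
      rw [← ee_add, ← ee_add_int (f j + g j) m]
      congr 1
      simp only [hg]
      ring
    have h2 := KL_sin hδ (hg1 j hj) (hg2 j hj)
    have h3 := KL_z_mul (g := g j) (by linarith)
    rw [h1]
    linear_combination ee (f j) * h3
  have hpart := KL_part (fun j => ee (f j)) g (fun j => norm_ee _) n (fun j hj =>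
    KL_c_le (lt_of_lt_of_le hδ (hg1 j (by omega))) (hg3 j hj)
      (by have := hg2 (j + 1) hj; linarith)) n le_rfl
  have hsum : ∑ j ∈ range (n + 1 + 1), ee (f j) =
      (∑ j ∈ range (n + 1), (ee (f j) - ee (f (j + 1))) * KL_z (g j) +
        ee (f (n + 1)) * KL_z (g n)) + ee (f (n + 1)) * (1 - KL_z (g n)) := by
    rw [Finset.sum_range_succ, Finset.sum_congr rfl fun j hj =>
      (hstep j (Nat.lt_succ_iff.mp (Finset.mem_range.mp hj))).symm]
    ring
  have h0 := KL_norm_z hδ (hg1 0 (Nat.zero_le _)) (hg2 0 (Nat.zero_le _))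
  have hn := KL_norm_z hδ (hg1 n le_rfl) (hg2 n le_rfl)
  have c0 := abs_le.mp (KL_abs_c hδ (hg1 0 (Nat.zero_le _)) (hg2 0 (Nat.zero_le _)))
  have cn := abs_le.mp (KL_abs_c hδ (hg1 n le_rfl) (hg2 n le_rfl))
  have hlast : ‖ee (f (n + 1)) * (1 - KL_z (g n))‖ ≤ 1 + ‖KL_z (g n)‖ := by
    rw [norm_mul, norm_ee, one_mul]
    refine (norm_sub_le _ _).trans ?_
    rw [norm_one]
  rw [hsum]
  refine (norm_add_le _ _).trans ?_
  have e1 : 1 / (4 * δ) = (1 / δ) / 4 := by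
    field_simp
  have e2 : 1 / (2 * δ) = (1 / δ) / 2 := by
    field_simp
  have e3 : 2 / δ = 2 * (1 / δ) := by ring
  have e4 : 1 ≤ 1 / δ := by
    rw [le_div_iff₀ hδ]
    linarith
  rw [e1] at h0 hn
  rw [e2] at c0 cn
  rw [e3]
  linarith [c0.1, c0.2, cn.1, cn.2]

end Pool.Agent.SInt
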