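import Pool.Agent.SInt.SumE
import Pool.Agent.DEH.Count

open Finset Complex
open scoped ArithmeticFunction.Moebius ArithmeticFunction.vonMangoldt

namespace Pool.Agent.SInt

open Pool.Agent.ANT

private lemma Mark_D_le (g : ℕ → ℝ) (N : ℕ) (L : ℝ) (Q : ℕ) (hQ : ⌊L⌋₊ ≤ Q) :
    Pool.Agent.DEH.D g N L ≤
      (1 + Hs Q ^ 2) * ∑ q ∈ Icc 1 Q, |Pool.Agent.DEH.E g N q| := by
  have hE0 : 0 ≤ ∑ q ∈ Icc 1 Q, |Pool.Agent.DEH.E g N q| := Finset.sum_nonneg fun _ _ => abs_nonneg _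
  rcases Nat.eq_zero_or_pos Q with h0 | h0
  · have : ⌊L⌋₊ = 0 := by omega
    unfold Pool.Agent.DEH.D
    rw [this, h0]
    simp
  have hS : |Pool.Agent.DEH.S g N| ≤ ∑ q ∈ Icc 1 Q, |Pool.Agent.DEH.E g N q| := by
    rw [← Pool.Agent.DEH.E_one]
    exact Finset.single_le_sum (f := fun q => |Pool.Agent.DEH.E g N q|)
      (fun _ _ => abs_nonneg _) (Finset.mem_Icc.mpr ⟨le_refl 1, h0⟩)
  have hphi : ∑ q ∈ Icc 1 Q, 1 / (q.totient : ℝ) ≤ Hs Q ^ 2 := by
    calc _ ≤ ∑ q ∈ Icc 1 Q, tauR q / q := by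
          refine Finset.sum_le_sum fun q hq => ?_
          have h1 := (Finset.mem_Icc.mp hq).1
          exact Pool.Agent.DEH.one_div_totient_le (by omega)
      _ = ∑ q ∈ Finset.Ioc 0 Q, tauR q / q := rfl
      _ ≤ Hs Q ^ 2 := sum_tau_div_le Q
  unfold Pool.Agent.DEH.D
  calc _ ≤ ∑ q ∈ (Icc 1 ⌊L⌋₊).filter (fun q => q.Coprime N),
        (|Pool.Agent.DEH.E g N q| + 1 / (q.totient : ℝ) * |Pool.Agent.DEH.S g N|) := by
        refine Finset.sum_le_sum fun q _ => ?_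
        refine (abs_sub _ _).trans ?_
        rw [abs_mul, abs_of_nonneg (by positivity : (0:ℝ) ≤ 1 / (q.totient : ℝ))]
    _ ≤ ∑ q ∈ Icc 1 Q,
        (|Pool.Agent.DEH.E g N q| + 1 / (q.totient : ℝ) * |Pool.Agent.DEH.S g N|) := by
        refine Finset.sum_le_sum_of_subset_of_nonneg ?_ fun _ _ _ => by positivity
        intro q hq
        obtain ⟨h1, h2⟩ := Finset.mem_filter.mp hq
        obtain ⟨h3, h4⟩ := Finset.mem_Icc.mp h1
        exact Finset.mem_Icc.mpr ⟨h3, h4.trans hQ⟩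
    _ = ∑ q ∈ Icc 1 Q, |Pool.Agent.DEH.E g N q| +
        (∑ q ∈ Icc 1 Q, 1 / (q.totient : ℝ)) * |Pool.Agent.DEH.S g N| := by
        rw [Finset.sum_add_distrib, Finset.sum_mul]
    _ ≤ ∑ q ∈ Icc 1 Q, |Pool.Agent.DEH.E g N q| +
        Hs Q ^ 2 * ∑ q ∈ Icc 1 Q, |Pool.Agent.DEH.E g N q| := by
        have : 0 ≤ Hs Q ^ 2 := sq_nonneg _
        gcongr
    _ = _ := by ring

open Classical in
/-- Exceptional set in short intervals. -/
theorem short_count {ε ε' : ℝ} (hε : 0 < ε) (hε1 : ε ≤ 1 / 4) (hε' : 0 < ε') (hε'1 : ε' ≤ 1) (A : ℕ) : ∃ X₀ : ℕ,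
    ∀ X : ℕ, X₀ ≤ X → ∀ H : ℕ, Win ε X (2 * H) → ∀ g : ℕ → ℝ, g = Pool.Agent.DEH.g1 ∨ g = Pool.Agent.DEH.g2 →
    (((Ioc X (X + H)).filter (fun N => N ∈ Pool.Agent.DEH.Bad g ε' A)).card : ℝ) ≤ H / Real.log X ^ A := by
  obtain ⟨X₁, hX₁⟩ := sumE hε hε1 hε' hε'1 (2 * A + 4)
  have hlogt : Filter.Tendsto (fun n : ℕ => Real.log (n:ℝ)) Filter.atTop Filter.atTop :=
    Real.tendsto_log_atTop.comp tendsto_natCast_atTop_atTop
  obtain ⟨X₂, hX₂⟩ := Filter.eventually_atTop.1 (hlogt.eventually_ge_atTop (17 * 2 ^ A))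
  refine ⟨max (max X₁ X₂) 3, fun X hX H hW g hg => ?_⟩
  have hX1 : X₁ ≤ X := le_trans (le_trans (le_max_left _ _) (le_max_left _ _)) hX
  have hX2 : X₂ ≤ X := le_trans (le_trans (le_max_right _ _) (le_max_left _ _)) hX
  have hX3 : 3 ≤ X := le_trans (le_max_right _ _) hX
  have hXR3 : (3:ℝ) ≤ X := by exact_mod_cast hX3
  have hX0 : (0:ℝ) < X := by linarith
  have hlX : 1 ≤ Real.log X := one_le_log hXR3
  have hlX0 : 0 < Real.log X := by linarith
  have hlbig : 17 * 2 ^ A ≤ Real.log X := hX₂ X hX2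
  -- H ≤ X
  have hHX : (H:ℝ) ≤ X := by
    have h1 : ((2 * H : ℕ) : ℝ) ≤ (X : ℝ) ^ (3 / 4 : ℝ) := hW.2
    have h2 : (X : ℝ) ^ (3 / 4 : ℝ) ≤ (X:ℝ) ^ (1:ℝ) :=
      Real.rpow_le_rpow_of_exponent_le (by linarith) (by norm_num)
    rw [Real.rpow_one] at h2
    push_cast at h1
    have : (0:ℝ) ≤ H := Nat.cast_nonneg H
    linarith
  have hHX' : H ≤ X := by exact_mod_cast hHX
  set Q : ℕ := ⌊2 * X * Real.exp (-(Real.log X) ^ ε')⌋₊ with hQdef
  have hQ1 : (Q:ℝ) ≤ 2 * X * Real.exp (-(Real.log X) ^ ε') := Nat.floor_le (by positivity)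
  have hsum := hX₁ X hX1 H hW Q hQ1 g hg
  have hQ2 : (Q:ℝ) ≤ 2 * X := by
    refine hQ1.trans ?_
    have : Real.exp (-(Real.log X) ^ ε') ≤ 1 := by
      rw [Real.exp_le_one_iff]
      have := Real.rpow_nonneg hlX0.le ε'
      linarith
    exact mul_le_of_le_one_right (by positivity) this
  -- Hs bound
  have hHs : 1 + Hs Q ^ 2 ≤ 17 * Real.log X ^ 2 := by
    have h0 := Hs_nonneg Q
    have h1 : Hs Q ≤ 1 + Real.log Q := Hs_le Q
    have h2 : Real.log Q ≤ 1 + Real.log X + Real.log X := by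
      rcases Nat.eq_zero_or_pos Q with hq | hq
      · rw [hq]; simp; linarith
      have hq' : (0:ℝ) < Q := by exact_mod_cast hq
      have h3 : Real.log Q ≤ Real.log (2 * X) := Real.log_le_log hq' hQ2
      rw [Real.log_mul (by norm_num) hX0.ne'] at h3
      have h4 : Real.log 2 ≤ 1 := by
        have := Real.log_two_lt_d9
        linarith
      linarith
    have h5 : Hs Q ≤ 4 * Real.log X := by linarith
    have h6 : Hs Q ^ 2 ≤ (4 * Real.log X) ^ 2 := by gcongr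
    have h7 : 1 ≤ Real.log X ^ 2 := one_le_pow₀ hlX
    nlinarith
  set Bd := (Ioc X (X + H)).filter (fun N => N ∈ Pool.Agent.DEH.Bad g ε' A) with hBd
  have hlow : ∀ N ∈ Bd, X / (2 ^ A * Real.log X ^ A) ≤
      17 * Real.log X ^ 2 * ∑ q ∈ Icc 1 Q, |Pool.Agent.DEH.E g N q| := by
    intro N hN
    obtain ⟨h2, h3⟩ := Finset.mem_filter.mp hN
    obtain ⟨h4, h5⟩ := Finset.mem_Ioc.mp h2
    have hN1 : (X:ℝ) ≤ N := by exact_mod_cast h4.le
    have hN0 : (0:ℝ) < N := by linarith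
    have hN2 : (N:ℝ) ≤ 2 * X := by
      have : N ≤ 2 * X := by omega
      exact_mod_cast this
    have hlN : Real.log X ≤ Real.log N := Real.log_le_log hX0 hN1
    have hlN2 : Real.log N ≤ 2 * Real.log X := by
      have h6 : Real.log N ≤ Real.log (2 * X) := Real.log_le_log hN0 hN2
      rw [Real.log_mul (by norm_num) hX0.ne'] at h6
      have h7 : Real.log 2 ≤ Real.log X := Real.log_le_log (by norm_num) (by linarith)
      linarith
    have hlN0 : 0 < Real.log N := by linarith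
    have hbad : (N:ℝ) / Real.log N ^ A < Pool.Agent.DEH.D g N (Pool.Agent.DEH.lev ε' N) := h3
    have hfl : ⌊Pool.Agent.DEH.lev ε' N⌋₊ ≤ Q := by
      refine Nat.floor_le_floor ?_
      unfold Pool.Agent.DEH.lev
      have h8 : Real.log X ^ ε' ≤ Real.log N ^ ε' := Real.rpow_le_rpow hlX0.le hlN hε'.le
      gcongr
    calc X / (2 ^ A * Real.log X ^ A) = X / (2 * Real.log X) ^ A := by rw [mul_pow]
      _ ≤ N / Real.log N ^ A := by gcongr
      _ ≤ Pool.Agent.DEH.D g N (Pool.Agent.DEH.lev ε' N) := hbad.le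
      _ ≤ (1 + Hs Q ^ 2) * ∑ q ∈ Icc 1 Q, |Pool.Agent.DEH.E g N q| := Mark_D_le g N _ Q hfl
      _ ≤ 17 * Real.log X ^ 2 * ∑ q ∈ Icc 1 Q, |Pool.Agent.DEH.E g N q| := by
          have : 0 ≤ ∑ q ∈ Icc 1 Q, |Pool.Agent.DEH.E g N q| :=
            Finset.sum_nonneg fun _ _ => abs_nonneg _
          gcongr
  have hcnt : (Bd.card : ℝ) * (X / (2 ^ A * Real.log X ^ A)) ≤
      17 * Real.log X ^ 2 * (H * X / Real.log X ^ (2 * A + 4)) := by
    calc (Bd.card : ℝ) * (X / (2 ^ A * Real.log X ^ A)) =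
        ∑ _N ∈ Bd, X / (2 ^ A * Real.log X ^ A) := by
          rw [Finset.sum_const, nsmul_eq_mul]
      _ ≤ ∑ N ∈ Bd, 17 * Real.log X ^ 2 * ∑ q ∈ Icc 1 Q, |Pool.Agent.DEH.E g N q| :=
          Finset.sum_le_sum hlow
      _ ≤ ∑ N ∈ Ioc X (X + H), 17 * Real.log X ^ 2 * ∑ q ∈ Icc 1 Q, |Pool.Agent.DEH.E g N q| := by
          refine Finset.sum_le_sum_of_subset_of_nonneg (Finset.filter_subset _ _) fun _ _ _ => ?_
          exact mul_nonneg (by positivity) (Finset.sum_nonneg fun _ _ => abs_nonneg _)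
      _ = 17 * Real.log X ^ 2 * ∑ N ∈ Ioc X (X + H), ∑ q ∈ Icc 1 Q, |Pool.Agent.DEH.E g N q| := by
          rw [Finset.mul_sum]
      _ ≤ _ := by gcongr
  have hden : 0 < X / (2 ^ A * Real.log X ^ A) := by positivity
  have h1 : (Bd.card : ℝ) ≤
      17 * Real.log X ^ 2 * (H * X / Real.log X ^ (2 * A + 4)) / (X / (2 ^ A * Real.log X ^ A)) := by
    rw [le_div_iff₀ hden]; exact hcnt
  have hH0 : (0:ℝ) ≤ H := Nat.cast_nonneg H
  refine h1.trans ?_
  have h2 : 17 * Real.log X ^ 2 * (H * X / Real.log X ^ (2 * A + 4)) / (X / (2 ^ A * Real.log X ^ A)) =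
      (17 * 2 ^ A) / Real.log X * (H / (Real.log X ^ A * Real.log X)) := by
    rw [show 2 * A + 4 = A + A + 1 + 1 + 1 + 1 by ring]
    simp only [pow_succ, pow_add]
    field_simp
  rw [h2]
  have h3 : (17 * 2 ^ A) / Real.log X ≤ 1 := by
    rw [div_le_one hlX0]; exact hlbig
  calc (17 * 2 ^ A) / Real.log X * (H / (Real.log X ^ A * Real.log X))
      ≤ 1 * (H / (Real.log X ^ A * Real.log X)) := by gcongr
    _ ≤ H / Real.log X ^ A := by
        rw [one_mul]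
        have : Real.log X ^ A ≤ Real.log X ^ A * Real.log X :=
          le_mul_of_one_le_right (by positivity) hlX
        gcongr

end Pool.Agent.SInt
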