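import Pool.Agent.SInt.KapRep
import Pool.Agent.SInt.Planch

open Finset Complex
open scoped ArithmeticFunction.Moebius ArithmeticFunction.vonMangoldt

namespace Pool.Agent.SInt

open Pool.Agent.ANT

open MeasureTheory

/-- Cauchy-Schwarz on a set. -/
theorem midT_cs {S : Set ℝ} {f : ℝ → ENNReal} (hf : AEMeasurable f (volume.restrict S)) :
    (∫⁻ x in S, f x) ^ 2 ≤ volume S * ∫⁻ x in S, f x ^ 2 := by
  have hpq : (2 : ℝ).HolderConjugate 2 := by
    rw [Real.holderConjugate_iff]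
    norm_num
  have h := ENNReal.lintegral_mul_le_Lp_mul_Lq (volume.restrict S) hpq hf
    (aemeasurable_const (b := (1 : ENNReal)))
  simp only [Pi.mul_apply, mul_one, ENNReal.one_rpow, lintegral_one, Measure.restrict_apply,
    MeasurableSet.univ, Set.univ_inter] at h
  have h2 : (∫⁻ x in S, f x) ^ 2 ≤
      ((∫⁻ x in S, f x ^ (2 : ℝ)) ^ (1 / (2 : ℝ)) * volume S ^ (1 / (2 : ℝ))) ^ 2 := by
    gcongr
  refine h2.trans (le_of_eq ?_)
  rw [mul_pow, ← ENNReal.rpow_natCast, ← ENNReal.rpow_natCast, ← ENNReal.rpow_mul,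
    ← ENNReal.rpow_mul]
  norm_num
  rw [mul_comm]

/-- The inner integral. -/
noncomputable def midT_G (ψ : ℝ → ℂ) (y : ℝ) : ℂ :=
  (1 / (2 * Real.pi) : ℂ) * ∫ t : ℝ, ψ t * cexp (I * ((t * y : ℝ) : ℂ))

/-- `x_+ G(log x)`. -/
noncomputable def midT_h (ψ : ℝ → ℂ) (x : ℝ) : ℂ :=
  if 0 < x then (x : ℂ) * midT_G ψ (Real.log x) else 0

/-- the first order power -/
noncomputable def midT_p (x t : ℝ) : ℂ :=
  if 0 < x then cexp ((1 + t * I) * (Real.log x : ℂ)) else 0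

theorem midT_p_eq {x t : ℝ} (hx : 0 < x) :
    midT_p x t = (x : ℂ) * cexp (I * ((t * Real.log x : ℝ) : ℂ)) := by
  rw [midT_p, if_pos hx]
  have : ((1 : ℂ) + t * I) * (Real.log x : ℂ) = (Real.log x : ℂ) + I * ((t * Real.log x : ℝ) : ℂ) := by
    push_cast; ring
  rw [this, Complex.exp_add, ← Complex.ofReal_exp, Real.exp_log hx]

theorem norm_midT_p (x t : ℝ) : ‖midT_p x t‖ ≤ |x| := by
  by_cases hx : 0 < x
  · rw [midT_p_eq hx, norm_mul, mul_comm I, Complex.norm_exp_ofReal_mul_I, mul_one,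
      Complex.norm_real, Real.norm_eq_abs]
  · rw [midT_p, if_neg hx, norm_zero]
    exact abs_nonneg x

theorem measurable_midT_p : Measurable (fun z : ℝ × ℝ => midT_p z.2 z.1) := by
  unfold midT_p
  refine Measurable.ite (measurableSet_lt measurable_const measurable_snd) ?_ measurable_const
  fun_prop

theorem continuous_midT_G {ψ : ℝ → ℂ} (h1 : Integrable ψ) : Continuous (midT_G ψ) := by
  unfold midT_G
  refine continuous_const.mul ?_
  refine continuous_of_dominated (bound := fun t => ‖ψ t‖) ?_ ?_ h1.norm ?_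
  · intro y
    exact h1.1.mul (by fun_prop : Continuous fun t : ℝ => cexp (I * ((t * y : ℝ) : ℂ))).aestronglyMeasurable
  · intro y
    filter_upwards with t
    rw [norm_mul, mul_comm I, Complex.norm_exp_ofReal_mul_I, mul_one]
  · filter_upwards with t
    fun_prop

theorem measurable_midT_h {ψ : ℝ → ℂ} (h1 : Integrable ψ) : Measurable (midT_h ψ) := by
  unfold midT_h
  refine Measurable.ite measurableSet_Ioi ?_ measurable_const
  exact (Complex.measurable_ofReal).mul ((continuous_midT_G h1).measurable.comp Real.measurable_log)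

theorem midT_h_eq (ψ : ℝ → ℂ) (x : ℝ) :
    midT_h ψ x = (1 / (2 * Real.pi) : ℂ) * ∫ t : ℝ, ψ t * midT_p x t := by
  by_cases hx : 0 < x
  · rw [midT_h, if_pos hx, midT_G]
    have : ∀ t : ℝ, ψ t * midT_p x t = (x : ℂ) * (ψ t * cexp (I * ((t * Real.log x : ℝ) : ℂ))) := by
      intro t
      rw [midT_p_eq hx]; ring
    simp_rw [this]
    rw [integral_const_mul]
    ring
  · rw [midT_h, if_neg hx]
    simp [midT_p, if_neg hx]

theorem midT_ne (t : ℝ) : (1 + t * I : ℂ) ≠ 0 := by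
  intro h
  have := congrArg Complex.re h
  simp at this

theorem midT_nsq (t : ℝ) : ‖(1 + t * I : ℂ)‖ ^ 2 = 1 + t ^ 2 := by
  rw [← Complex.normSq_eq_norm_sq, Complex.normSq_apply]
  simp
  ring

theorem midT_psi_int {φ : ℝ → ℂ} (h1 : Integrable φ) :
    Integrable (fun t : ℝ => φ t / (1 + t * I)) := by
  have hc : Continuous fun t : ℝ => (1 + t * I : ℂ)⁻¹ := by
    refine Continuous.inv₀ (by fun_prop) midT_ne
  refine h1.norm.mono' ?_ ?_
  · simp_rw [div_eq_mul_inv]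
    exact h1.1.mul hc.aestronglyMeasurable
  · filter_upwards with t
    rw [norm_div]
    refine div_le_self (norm_nonneg _) ?_
    have h := midT_nsq t
    nlinarith [norm_nonneg (1 + t * I : ℂ), sq_nonneg t]

theorem midT_int1 {ψ : ℝ → ℂ} (h1 : Integrable ψ) (a b : ℝ) :
    Integrable (Function.uncurry fun t x => ψ t * midT_p x t)
      ((volume : Measure ℝ).prod (volume.restrict (Set.Ioc a b))) := by
  have hb : Integrable (fun z : ℝ × ℝ => ‖ψ z.1‖ * (|a| + |b|))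
      ((volume : Measure ℝ).prod (volume.restrict (Set.Ioc a b))) :=
    h1.norm.mul_prod (integrable_const (|a| + |b|))
  refine hb.mono' ?_ ?_
  · exact (h1.1.comp_fst).mul measurable_midT_p.aestronglyMeasurable
  · have : ∀ᵐ z : ℝ × ℝ ∂((volume : Measure ℝ).prod (volume.restrict (Set.Ioc a b))),
        z.2 ∈ Set.Ioc a b := by
      have h : ∀ᵐ x : ℝ ∂(volume.restrict (Set.Ioc a b)), x ∈ Set.Ioc a b :=
        ae_restrict_mem measurableSet_Ioc
      exact (Measure.quasiMeasurePreserving_snd).ae h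
    filter_upwards [this] with z hz
    simp only [Function.uncurry]
    rw [norm_mul]
    refine mul_le_mul_of_nonneg_left ((norm_midT_p _ _).trans ?_) (norm_nonneg _)
    rw [abs_le]
    constructor
    · have := neg_abs_le a; have := abs_nonneg b; linarith [hz.1]
    · have := le_abs_self b; have := abs_nonneg a; linarith [hz.2]

theorem midT_int2 {ψ : ℝ → ℂ} (h1 : Integrable ψ) {a b : ℝ} (hab : a ≤ b) :
    Integrable (fun t : ℝ => ψ t * ∫ x in a..b, midT_p x t) := by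
  have h := (midT_int1 h1 a b).integral_prod_left
  refine h.congr ?_
  filter_upwards with t
  simp only [Function.uncurry]
  rw [intervalIntegral.integral_of_le hab, integral_const_mul]

/-- Fubini. -/
theorem midT_fub {ψ : ℝ → ℂ} (h1 : Integrable ψ) {a b : ℝ} (hab : a ≤ b) :
    (1 / (2 * Real.pi) : ℂ) * ∫ t : ℝ, ψ t * ∫ x in a..b, midT_p x t = ∫ x in a..b, midT_h ψ x := by
  have hint := midT_int1 h1 a b
  rw [intervalIntegral.integral_of_le hab]
  simp_rw [intervalIntegral.integral_of_le hab, midT_h_eq]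
  rw [integral_const_mul]
  congr 1
  rw [← integral_integral_swap hint]
  refine integral_congr_ae ?_
  filter_upwards with t
  rw [integral_const_mul]

/-- Counting the windows. -/
theorem midT_count (D : ℕ) (Z : ℕ) (x : ℝ) :
    ((Icc (-(D : ℤ)) Z).filter (fun v : ℤ => x ∈ Set.Ioc ((v : ℝ) - D) (v + D))).card ≤ 2 * D := by
  have hsub : (Icc (-(D : ℤ)) Z).filter (fun v : ℤ => x ∈ Set.Ioc ((v : ℝ) - D) (v + D)) ⊆
      Finset.Ico (⌈x⌉ - D) (⌈x⌉ + D) := by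
    intro v hv
    rw [Finset.mem_filter] at hv
    obtain ⟨-, hv1, hv2⟩ := hv
    rw [Finset.mem_Ico]
    constructor
    · have : ⌈x⌉ ≤ v + D := by
        rw [Int.ceil_le]; push_cast; exact hv2
      linarith
    · have : v - D < ⌈x⌉ := by
        rw [Int.lt_ceil]; push_cast; exact hv1
      linarith
  refine (Finset.card_le_card hsub).trans (le_of_eq ?_)
  rw [Int.card_Ico]
  have : (⌈x⌉ + D - (⌈x⌉ - D) : ℤ) = ((2 * D : ℕ) : ℤ) := by push_cast; ring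
  rw [this]
  rfl

/-- Sum over the windows. -/
theorem midT_sum (D Z : ℕ) {g : ℝ → ENNReal} (hg : Measurable g) :
    ∑ v ∈ Icc (-(D : ℤ)) Z, ∫⁻ x in Set.Ioc ((v : ℝ) - D) (v + D), g x ≤
      (2 * D : ℕ) * ∫⁻ x in Set.Iic ((Z : ℝ) + D), g x := by
  have h1 : ∀ v : ℤ, ∫⁻ x in Set.Ioc ((v : ℝ) - D) (v + D), g x =
      ∫⁻ x, (Set.Ioc ((v : ℝ) - D) (v + D)).indicator g x := fun v => by
    rw [lintegral_indicator measurableSet_Ioc]
  simp_rw [h1]
  rw [← lintegral_finset_sum _ (fun v _ => hg.indicator measurableSet_Ioc),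
    ← lintegral_const_mul _ (by exact hg), ← lintegral_indicator measurableSet_Iic]
  refine lintegral_mono fun x => ?_
  have h2 : ∑ v ∈ Icc (-(D : ℤ)) Z, (Set.Ioc ((v : ℝ) - D) (v + D)).indicator g x =
      ((Icc (-(D : ℤ)) Z).filter (fun v : ℤ => x ∈ Set.Ioc ((v : ℝ) - D) (v + D))).card * g x := by
    simp_rw [Set.indicator_apply]
    rw [← Finset.sum_filter, Finset.sum_const, nsmul_eq_mul]
  simp only [h2]
  by_cases hx : x ≤ (Z : ℝ) + D
  · rw [Set.indicator_of_mem (by exact hx)]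
    gcongr
    exact midT_count D Z x
  · have : (Icc (-(D : ℤ)) Z).filter (fun v : ℤ => x ∈ Set.Ioc ((v : ℝ) - D) (v + D)) = ∅ := by
      rw [Finset.filter_eq_empty_iff]
      intro v hv hx2
      rw [Finset.mem_Icc] at hv
      have h3 : (v : ℝ) ≤ Z := by exact_mod_cast hv.2
      exact hx (hx2.2.trans (by linarith))
    rw [this]
    simp

/-- The integral of `|h|^2`. -/
theorem midT_int {ψ : ℝ → ℂ} (h1 : Integrable ψ) (h2 : Integrable (fun t => ‖ψ t‖ ^ 2)) {Y : ℝ}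
    (hY : 0 < Y) :
    ∫⁻ x in Set.Iic Y, ENNReal.ofReal (‖midT_h ψ x‖ ^ 2) ≤
      ENNReal.ofReal (Y ^ 3 * (1 / (2 * Real.pi) * ∫ t : ℝ, ‖ψ t‖ ^ 2)) := by
  have hset : Set.Iic Y = Set.Iic 0 ∪ Set.Ioc 0 Y := (Set.Iic_union_Ioc_eq_Iic hY.le).symm
  have himg : Real.exp '' (Set.Iic (Real.log Y)) = Set.Ioc 0 Y := by
    ext x
    constructor
    · rintro ⟨y, hy, rfl⟩
      refine ⟨Real.exp_pos y, ?_⟩
      rw [← Real.exp_log hY]
      exact Real.exp_le_exp.2 hy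
    · rintro ⟨hx0, hxY⟩
      exact ⟨Real.log x, Real.log_le_log hx0 hxY, Real.exp_log hx0⟩
  calc ∫⁻ x in Set.Iic Y, ENNReal.ofReal (‖midT_h ψ x‖ ^ 2)
      ≤ (∫⁻ x in Set.Iic 0, ENNReal.ofReal (‖midT_h ψ x‖ ^ 2)) +
        ∫⁻ x in Set.Ioc 0 Y, ENNReal.ofReal (‖midT_h ψ x‖ ^ 2) := by
        rw [hset]
        exact lintegral_union_le _ _ _
    _ = ∫⁻ x in Set.Ioc 0 Y, ENNReal.ofReal (‖midT_h ψ x‖ ^ 2) := by
        have : ∫⁻ x in Set.Iic 0, ENNReal.ofReal (‖midT_h ψ x‖ ^ 2) = ∫⁻ x in Set.Iic (0 : ℝ), 0 := by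
          refine setLIntegral_congr_fun measurableSet_Iic ?_
          intro x hx
          simp only
          rw [midT_h, if_neg (not_lt.2 hx)]
          simp
        rw [this, lintegral_zero, zero_add]
    _ = ∫⁻ y in Set.Iic (Real.log Y), ENNReal.ofReal |Real.exp y| *
          ENNReal.ofReal (‖midT_h ψ (Real.exp y)‖ ^ 2) := by
        rw [← himg]
        exact lintegral_image_eq_lintegral_abs_deriv_mul measurableSet_Iic
          (fun x _ => (Real.hasDerivAt_exp x).hasDerivWithinAt) Real.exp_injective.injOn _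
    _ ≤ ∫⁻ y in Set.Iic (Real.log Y), ENNReal.ofReal (Y ^ 3) * ENNReal.ofReal (‖midT_G ψ y‖ ^ 2) := by
        refine setLIntegral_mono' measurableSet_Iic fun y hy => ?_
        rw [← ENNReal.ofReal_mul (abs_nonneg _), ← ENNReal.ofReal_mul (by positivity)]
        refine ENNReal.ofReal_le_ofReal ?_
        have he : Real.exp y ≤ Y := by
          rw [← Real.exp_log hY]
          exact Real.exp_le_exp.2 hy
        rw [midT_h, if_pos (Real.exp_pos y), Real.log_exp, norm_mul, Complex.norm_real,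
          Real.norm_eq_abs, abs_of_pos (Real.exp_pos y), mul_pow, ← mul_assoc]
        refine mul_le_mul_of_nonneg_right ?_ (by positivity)
        calc Real.exp y * Real.exp y ^ 2 = Real.exp y ^ 3 := by ring
          _ ≤ Y ^ 3 := by gcongr
    _ = ENNReal.ofReal (Y ^ 3) * ∫⁻ y in Set.Iic (Real.log Y), ENNReal.ofReal (‖midT_G ψ y‖ ^ 2) := by
        rw [lintegral_const_mul]
        exact ((continuous_midT_G h1).norm.pow 2).measurable.ennreal_ofReal
    _ ≤ ENNReal.ofReal (Y ^ 3) * ∫⁻ y, ENNReal.ofReal (‖midT_G ψ y‖ ^ 2) := by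
        gcongr
        exact Measure.restrict_le_self
    _ ≤ ENNReal.ofReal (Y ^ 3) * ENNReal.ofReal (1 / (2 * Real.pi) * ∫ t : ℝ, ‖ψ t‖ ^ 2) := by
        gcongr
        exact planch h1 h2
    _ = ENNReal.ofReal (Y ^ 3 * (1 / (2 * Real.pi) * ∫ t : ℝ, ‖ψ t‖ ^ 2)) := by
        rw [← ENNReal.ofReal_mul (by positivity)]

/-- One window. -/
theorem midT_one {D : ℕ} (hD : 1 ≤ D) {φ : ℝ → ℂ} (h1 : Integrable φ) (v : ℤ) :
    ENNReal.ofReal (‖(1 / (2 * Real.pi) : ℂ) * ∫ t : ℝ, φ t * kap D v t‖ ^ 2) ≤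
      ENNReal.ofReal (2 * D / (D : ℝ) ^ 4) * ∫⁻ x in Set.Ioc ((v : ℝ) - D) (v + D),
        ENNReal.ofReal (‖midT_h (fun t => φ t / (1 + t * I)) x‖ ^ 2) := by
  have hD0 : (0 : ℝ) < D := by exact_mod_cast hD
  have hDc : (D : ℂ) ≠ 0 := by
    exact_mod_cast (Nat.pos_iff_ne_zero.1 hD)
  set ψ : ℝ → ℂ := fun t => φ t / (1 + t * I) with hψ
  have hψ1 : Integrable ψ := midT_psi_int h1
  have hkey : (1 / (2 * Real.pi) : ℂ) * ∫ t : ℝ, φ t * kap D v t = 1 / (D : ℂ) ^ 2 *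
      ((∫ x in (v : ℝ)..(v + D), midT_h ψ x) - ∫ x in ((v : ℝ) - D)..v, midT_h ψ x) := by
    have hint : ∀ a b : ℝ, a ≤ b → Integrable (fun t : ℝ => ψ t * ∫ x in a..b, midT_p x t) := by
      intro a b hab
      exact midT_int2 hψ1 hab
    have e : ∀ t : ℝ, φ t * kap D v t = 1 / (D : ℂ) ^ 2 *
        ((ψ t * ∫ x in (v : ℝ)..(v + D), midT_p x t) - ψ t * ∫ x in ((v : ℝ) - D)..v, midT_p x t) := by
      intro t
      rw [kap_rep1 hD]
      have ht : (1 + t * I : ℂ) ≠ 0 := midT_ne t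
      simp only [hψ, midT_p]
      field_simp
    simp_rw [e]
    rw [integral_const_mul, integral_sub (hint _ _ (by linarith)) (hint _ _ (by linarith)),
      ← midT_fub hψ1 (by linarith), ← midT_fub hψ1 (by linarith)]
    ring
  have hnorm : ‖(1 / (2 * Real.pi) : ℂ) * ∫ t : ℝ, φ t * kap D v t‖ₑ ≤
      ENNReal.ofReal (1 / (D : ℝ) ^ 2) * ∫⁻ x in Set.Ioc ((v : ℝ) - D) (v + D), ‖midT_h ψ x‖ₑ := by
    rw [hkey, enorm_mul]
    have e1 : ‖(1 / (D : ℂ) ^ 2)‖ₑ = ENNReal.ofReal (1 / (D : ℝ) ^ 2) := by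
      rw [← ofReal_norm_eq_enorm]
      congr 1
      rw [norm_div, norm_one, norm_pow, Complex.norm_natCast]
    rw [e1]
    gcongr
    rw [intervalIntegral.integral_of_le (by linarith), intervalIntegral.integral_of_le (by linarith)]
    have hu : Set.Ioc ((v : ℝ) - D) (v + D) = Set.Ioc ((v : ℝ) - D) v ∪ Set.Ioc (v : ℝ) (v + D) :=
      (Set.Ioc_union_Ioc_eq_Ioc (by linarith) (by linarith)).symm
    rw [hu, lintegral_union measurableSet_Ioc]
    · calc _ ≤ ‖∫ x in Set.Ioc (v : ℝ) (v + D), midT_h ψ x‖ₑ +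
            ‖∫ x in Set.Ioc ((v : ℝ) - D) v, midT_h ψ x‖ₑ := enorm_sub_le
        _ ≤ (∫⁻ x in Set.Ioc (v : ℝ) (v + D), ‖midT_h ψ x‖ₑ) +
            ∫⁻ x in Set.Ioc ((v : ℝ) - D) v, ‖midT_h ψ x‖ₑ :=
          add_le_add (enorm_integral_le_lintegral_enorm _) (enorm_integral_le_lintegral_enorm _)
        _ = _ := add_comm _ _
    · rw [Set.disjoint_left]
      intro x hx hx2
      exact absurd hx.2 (not_le.2 hx2.1)
  have hcs := midT_cs (S := Set.Ioc ((v : ℝ) - D) (v + D)) (f := fun x => ‖midT_h ψ x‖ₑ)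
    ((measurable_midT_h hψ1).enorm.aemeasurable)
  rw [Real.volume_Ioc] at hcs
  have hsq : ∀ z : ℂ, ENNReal.ofReal (‖z‖ ^ 2) = ‖z‖ₑ ^ 2 := by
    intro z
    rw [← ofReal_norm_eq_enorm, ENNReal.ofReal_pow (norm_nonneg _)]
  simp_rw [hsq]
  calc ‖(1 / (2 * Real.pi) : ℂ) * ∫ t : ℝ, φ t * kap D v t‖ₑ ^ 2
      ≤ (ENNReal.ofReal (1 / (D : ℝ) ^ 2) *
          ∫⁻ x in Set.Ioc ((v : ℝ) - D) (v + D), ‖midT_h ψ x‖ₑ) ^ 2 := by gcongr
    _ = ENNReal.ofReal (1 / (D : ℝ) ^ 2) ^ 2 *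
          (∫⁻ x in Set.Ioc ((v : ℝ) - D) (v + D), ‖midT_h ψ x‖ₑ) ^ 2 := by rw [mul_pow]
    _ ≤ ENNReal.ofReal (1 / (D : ℝ) ^ 2) ^ 2 * (ENNReal.ofReal (v + D - (v - D)) *
          ∫⁻ x in Set.Ioc ((v : ℝ) - D) (v + D), ‖midT_h ψ x‖ₑ ^ 2) := by gcongr
    _ = _ := by
        rw [← mul_assoc, ← ENNReal.ofReal_pow (by positivity), ← ENNReal.ofReal_mul (by positivity)]
        congr 2
        field_simp
        ring

/-- Mean square with second order decay. -/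
theorem midT {D Z : ℕ} (hD : 1 ≤ D) {φ : ℝ → ℂ} (h1 : Integrable φ) (h2 : Integrable (fun t => ‖φ t‖ ^ 2)) :
    ∑ v ∈ Icc (-(D : ℤ)) Z, ‖(1 / (2 * Real.pi) : ℂ) * ∫ t : ℝ, φ t * kap D v t‖ ^ 2 ≤
      8 * ((Z : ℝ) + D) ^ 3 / (D : ℝ) ^ 2 * ∫ t : ℝ, ‖φ t‖ ^ 2 / (1 + t ^ 2) := by
  have hD0 : (0 : ℝ) < D := by exact_mod_cast hD
  have hZ0 : (0 : ℝ) ≤ Z := Nat.cast_nonneg Z
  have hY : (0 : ℝ) < (Z : ℝ) + D := by linarith
  set ψ : ℝ → ℂ := fun t => φ t / (1 + t * I) with hψ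
  have hψ1 : Integrable ψ := midT_psi_int h1
  have hn : ∀ t : ℝ, ‖ψ t‖ ^ 2 = ‖φ t‖ ^ 2 / (1 + t ^ 2) := by
    intro t
    simp only [hψ]
    rw [norm_div, div_pow, midT_nsq]
  have hψ2 : Integrable (fun t => ‖ψ t‖ ^ 2) := by
    refine h2.mono' (hψ1.1.norm.pow 2) ?_
    filter_upwards with t
    rw [Real.norm_eq_abs, abs_of_nonneg (by positivity), hn]
    exact div_le_self (by positivity) (by nlinarith [sq_nonneg t])
  have hI : ∫ t : ℝ, ‖ψ t‖ ^ 2 = ∫ t : ℝ, ‖φ t‖ ^ 2 / (1 + t ^ 2) := by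
    simp_rw [hn]
  have hI0 : 0 ≤ ∫ t : ℝ, ‖φ t‖ ^ 2 / (1 + t ^ 2) := integral_nonneg fun t => by positivity
  have hmain : ENNReal.ofReal (∑ v ∈ Icc (-(D : ℤ)) Z,
      ‖(1 / (2 * Real.pi) : ℂ) * ∫ t : ℝ, φ t * kap D v t‖ ^ 2) ≤
      ENNReal.ofReal (8 * ((Z : ℝ) + D) ^ 3 / (D : ℝ) ^ 2 * ∫ t : ℝ, ‖φ t‖ ^ 2 / (1 + t ^ 2)) := by
    rw [ENNReal.ofReal_sum_of_nonneg (fun _ _ => by positivity)]
    have hmeas : Measurable fun x => ENNReal.ofReal (‖midT_h ψ x‖ ^ 2) :=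
      ((measurable_midT_h hψ1).norm.pow_const 2).ennreal_ofReal
    calc ∑ v ∈ Icc (-(D : ℤ)) Z,
          ENNReal.ofReal (‖(1 / (2 * Real.pi) : ℂ) * ∫ t : ℝ, φ t * kap D v t‖ ^ 2)
        ≤ ∑ v ∈ Icc (-(D : ℤ)) Z, ENNReal.ofReal (2 * D / (D : ℝ) ^ 4) *
            ∫⁻ x in Set.Ioc ((v : ℝ) - D) (v + D), ENNReal.ofReal (‖midT_h ψ x‖ ^ 2) :=
          Finset.sum_le_sum fun v _ => midT_one hD h1 v
      _ = ENNReal.ofReal (2 * D / (D : ℝ) ^ 4) * ∑ v ∈ Icc (-(D : ℤ)) Z,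
            ∫⁻ x in Set.Ioc ((v : ℝ) - D) (v + D), ENNReal.ofReal (‖midT_h ψ x‖ ^ 2) := by
          rw [Finset.mul_sum]
      _ ≤ ENNReal.ofReal (2 * D / (D : ℝ) ^ 4) * ((2 * D : ℕ) *
            ENNReal.ofReal (((Z : ℝ) + D) ^ 3 * (1 / (2 * Real.pi) * ∫ t : ℝ, ‖ψ t‖ ^ 2))) := by
          gcongr
          refine (midT_sum D Z hmeas).trans ?_
          gcongr
          exact midT_int hψ1 hψ2 hY
      _ = ENNReal.ofReal (2 * D / (D : ℝ) ^ 4 * ((2 * D : ℕ) *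
            (((Z : ℝ) + D) ^ 3 * (1 / (2 * Real.pi) * ∫ t : ℝ, ‖ψ t‖ ^ 2)))) := by
          rw [ENNReal.ofReal_mul (p := 2 * (D : ℝ) / (D : ℝ) ^ 4) (by positivity),
            ENNReal.ofReal_mul (p := ((2 * D : ℕ) : ℝ)) (by positivity),
            ENNReal.ofReal_natCast]
      _ ≤ _ := by
          refine ENNReal.ofReal_le_ofReal ?_
          rw [hI]
          have hpi : 1 / (2 * Real.pi) ≤ 1 := by
            rw [div_le_one (by positivity)]
            linarith [Real.pi_gt_three]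
          have e : 2 * (D : ℝ) / (D : ℝ) ^ 4 * (((2 * D : ℕ) : ℝ) *
              (((Z : ℝ) + D) ^ 3 * (1 / (2 * Real.pi) * ∫ t : ℝ, ‖φ t‖ ^ 2 / (1 + t ^ 2)))) =
              (1 / (2 * Real.pi)) * (4 * ((Z : ℝ) + D) ^ 3 / (D : ℝ) ^ 2 *
                ∫ t : ℝ, ‖φ t‖ ^ 2 / (1 + t ^ 2)) := by
            push_cast
            field_simp
            ring
          rw [e]
          have h0 : 0 ≤ 4 * ((Z : ℝ) + D) ^ 3 / (D : ℝ) ^ 2 * ∫ t : ℝ, ‖φ t‖ ^ 2 / (1 + t ^ 2) := by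
            positivity
          calc (1 / (2 * Real.pi)) * (4 * ((Z : ℝ) + D) ^ 3 / (D : ℝ) ^ 2 *
                ∫ t : ℝ, ‖φ t‖ ^ 2 / (1 + t ^ 2))
              ≤ 1 * (4 * ((Z : ℝ) + D) ^ 3 / (D : ℝ) ^ 2 * ∫ t : ℝ, ‖φ t‖ ^ 2 / (1 + t ^ 2)) :=
                mul_le_mul_of_nonneg_right hpi h0
            _ ≤ 8 * ((Z : ℝ) + D) ^ 3 / (D : ℝ) ^ 2 * ∫ t : ℝ, ‖φ t‖ ^ 2 / (1 + t ^ 2) := by
                have : 8 * ((Z : ℝ) + D) ^ 3 / (D : ℝ) ^ 2 * ∫ t : ℝ, ‖φ t‖ ^ 2 / (1 + t ^ 2) =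
                    2 * (4 * ((Z : ℝ) + D) ^ 3 / (D : ℝ) ^ 2 * ∫ t : ℝ, ‖φ t‖ ^ 2 / (1 + t ^ 2)) := by
                  ring
                rw [this]
                linarith
  exact (ENNReal.ofReal_le_ofReal_iff (by positivity)).1 hmain

end Pool.Agent.SInt
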