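import Pool.Agent.SInt.VauD
import Pool.Agent.SInt.TypeIIMin
import Pool.Agent.SInt.TypeIMinLog
import Pool.Agent.SInt.Asy
import Pool.Agent.SInt.Norm

open Finset Complex
open scoped ArithmeticFunction.Moebius ArithmeticFunction.vonMangoldt

namespace Pool.Agent.SInt

open Pool.Agent.ANT

/-! ### Constants of the imported estimates -/

private noncomputable def mC2 : ℝ := Classical.choose typeII_min
private lemma mC2_pos : 0 < mC2 := (Classical.choose_spec typeII_min).1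
private noncomputable def mC1 : ℝ := Classical.choose typeI_min_log
private lemma mC1_pos : 0 < mC1 := (Classical.choose_spec typeI_min_log).1
private noncomputable def mC0 : ℝ := Classical.choose TT_norm
private lemma mC0_pos : 0 < mC0 := (Classical.choose_spec TT_norm).1

/-! ### Elementary facts -/

private lemma mr_TT_zero {W X K : ℕ} {S : Finset ℕ} {g : ℤ → ℂ} {c : ℕ → ℕ → ℂ}
    (hc : ∀ q ∈ S, ∀ k ∈ Icc 1 K, c q k = 0) : TT W X S c K g = 0 := by
  unfold TT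
  refine Finset.sum_eq_zero fun q hq => Finset.sum_eq_zero fun N _ => ?_
  have : EG c K g N q = 0 := by
    unfold EG
    refine Finset.sum_eq_zero fun k hk => ?_
    rw [hc q hq k hk, zero_mul]
  rw [this]; simp

private lemma mr_cv_comm (a b : ℕ → ℂ) (k : ℕ) : cv a b k = cv b a k := by
  unfold cv
  refine Finset.sum_equiv (Equiv.prodComm ℕ ℕ) ?_ ?_
  · intro p
    simp only [Nat.mem_divisorsAntidiagonal, Equiv.prodComm_apply, Prod.fst_swap, Prod.snd_swap,
      mul_comm]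
  · intro p _
    simp only [Equiv.prodComm_apply, Prod.fst_swap, Prod.snd_swap, mul_comm]

private noncomputable def mRB (X W K q P : ℕ) (T : ℝ) : ℝ :=
  ((Nat.log 2 K + 1 : ℕ) : ℝ) ^ 2 * (mC2 * (T ^ 4 * (2 * K) * Hs K ^ 6) * (W / q) * X *
    Real.log X ^ 2 / P)

/-- One region of the bilinear sum: the first variable is at most `√K`. -/
private lemma mr_region {X W R D q Q P : ℕ} {T : ℝ} {a b : ℕ → ℂ}
    (hX : 3 ≤ X) (hW : 1 ≤ W) (hWX : 4 * W ≤ X) (hR : 1 ≤ R) (hRD : R ^ 4 ≤ D)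
    (hDW : D * R ^ 2 ≤ W) (hQ : 1 ≤ Q) (hQq : Q ≤ q) (hP : 1 ≤ P) (hPq : 2 * P * q ≤ R)
    (hK4 : 4 ≤ KK X Q) (hRM : R * Nat.sqrt (KK X Q) ≤ W) (hqK : q * KK X Q ≤ 16 * X)
    (hD1 : 1 ≤ D) (hDX : D ≤ X)
    (ha : ∀ m, m ≤ KK X Q → ‖a m‖ ≤ T * tauR m) (hb : ∀ m, m ≤ KK X Q → ‖b m‖ ≤ T * tauR m)
    (ha0 : ∀ m, m ≤ 2 * P → a m = 0) (ha1 : ∀ m, Nat.sqrt (KK X Q) < m → a m = 0) :
    TT W X {q} (fun _ => cv a b) (KK X Q) (fmin X R D) ≤ mRB X W (KK X Q) q P T := by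
  set K := KK X Q with hKdef
  set M0 := Nat.sqrt K with hM0
  have hM0K : M0 * M0 ≤ K := Nat.sqrt_le K
  have hM02 : 2 ≤ M0 := by
    rw [hM0]
    exact Nat.le_sqrt.mpr (by omega)
  have h2M0 : 2 * M0 ≤ K := le_trans (Nat.mul_le_mul_right _ hM02) hM0K
  set J := Nat.log 2 K + 1 with hJ
  let aj : ℕ → ℕ → ℂ := fun j m => if m ∈ Ico (2 ^ j) (2 * 2 ^ j) then a m else 0
  let bj : ℕ → ℕ → ℂ := fun j n => if n ∈ Icc 1 (K / 2 ^ j) then b n else 0
  have hcongr : TT W X {q} (fun _ => cv a b) K (fmin X R D) =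
      TT W X {q} (fun _ k => ∑ j ∈ range J, cv (aj j) (bj j) k) K (fmin X R D) := by
    refine TT_congr_c fun _ _ k hk => ?_
    rw [mem_Icc] at hk
    unfold cv
    rw [Finset.sum_comm]
    refine Finset.sum_congr rfl fun p hp => ?_
    rw [Nat.mem_divisorsAntidiagonal] at hp
    have hp1 : p.1 ≠ 0 := by
      intro h; rw [h, zero_mul] at hp; omega
    have hp2 : p.2 ≠ 0 := by
      intro h; rw [h, mul_zero] at hp; omega
    have hle : p.1 * p.2 ≤ K := by rw [hp.1]; exact hk.2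
    have hp1K : p.1 ≤ K := le_trans (Nat.le_mul_of_pos_right _ (Nat.pos_of_ne_zero hp2)) hle
    have hlog1 : 2 ^ Nat.log 2 p.1 ≤ p.1 := Nat.pow_log_le_self 2 hp1
    have hlog2 : p.1 < 2 ^ (Nat.log 2 p.1 + 1) := Nat.lt_pow_succ_log_self (by norm_num) _
    rw [Finset.sum_eq_single (Nat.log 2 p.1)]
    · have h1 : aj (Nat.log 2 p.1) p.1 = a p.1 := by
        simp only [aj]
        rw [if_pos]
        rw [mem_Ico]
        refine ⟨hlog1, ?_⟩
        rw [pow_succ] at hlog2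
        omega
      have h2 : bj (Nat.log 2 p.1) p.2 = b p.2 := by
        simp only [bj]
        rw [if_pos]
        rw [mem_Icc]
        refine ⟨Nat.pos_of_ne_zero hp2, ?_⟩
        rw [Nat.le_div_iff_mul_le (by positivity)]
        calc p.2 * 2 ^ Nat.log 2 p.1 ≤ p.2 * p.1 := Nat.mul_le_mul_left _ hlog1
          _ ≤ K := by rw [mul_comm]; exact hle
      rw [h1, h2]
    · intro j _ hj
      have : aj j p.1 = 0 := by
        simp only [aj]
        rw [if_neg]
        intro hmem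
        rw [mem_Ico] at hmem
        apply hj
        symm
        refine (Nat.log_eq_iff (Or.inr ⟨by norm_num, hp1⟩)).mpr ⟨hmem.1, ?_⟩
        rw [pow_succ]
        omega
      rw [this, zero_mul]
    · intro h
      exfalso
      apply h
      rw [mem_range, hJ]
      exact Nat.lt_succ_of_le (Nat.log_mono_right hp1K)
  rw [hcongr]
  refine (TT_sum_c (range J) (fun j _ k => cv (aj j) (bj j) k)).trans ?_
  have hHs : 0 ≤ Hs K := Hs_nonneg K
  have hlogX : 0 ≤ Real.log X := Real.log_natCast_nonneg X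
  set Bk : ℝ := mC2 * (T ^ 4 * (2 * K) * Hs K ^ 6) * (W / q) * X * Real.log X ^ 2 / P with hBk
  have hBk0 : 0 ≤ Bk := by
    have := mC2_pos.le
    rw [hBk]; positivity
  have hblock : ∀ j ∈ range J, TT W X {q} (fun _ k => cv (aj j) (bj j) k) K (fmin X R D) ≤ Bk := by
    intro j _
    by_cases hz : ∀ m ∈ Ico (2 ^ j) (2 * 2 ^ j), a m = 0
    · have hzero : TT W X {q} (fun _ k => cv (aj j) (bj j) k) K (fmin X R D) = 0 := by
        refine mr_TT_zero fun _ _ k _ => ?_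
        unfold cv
        refine Finset.sum_eq_zero fun p _ => ?_
        have : aj j p.1 = 0 := by
          simp only [aj]
          split_ifs with h
          · exact hz _ h
          · rfl
        rw [this, zero_mul]
      rw [hzero]; exact hBk0
    · push Not at hz
      obtain ⟨m, hm, hm0⟩ := hz
      rw [mem_Ico] at hm
      have hmM : m ≤ M0 := by
        by_contra h
        exact hm0 (ha1 m (by omega))
      have hmP : 2 * P < m := by
        by_contra h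
        exact hm0 (ha0 m (by omega))
      have hPj : P ≤ 2 ^ j := by omega
      have hjM : 2 ^ j ≤ M0 := le_trans hm.1 hmM
      set U := 2 ^ j with hU
      have hU1 : 1 ≤ U := le_trans hP hPj
      have hN1 : U * (K / U) ≤ K := Nat.mul_div_le K U
      have hUN : 2 * U * (K / U) ≤ 2 * K := by
        rw [mul_assoc]; exact Nat.mul_le_mul_left _ hN1
      have hlen : TT W X {q} (fun _ k => cv (aj j) (bj j) k) K (fmin X R D) =
          TT W X {q} (fun _ => cv (aj j) (bj j)) (2 * K) (fmin X R D) := by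
        refine TT_len (Q := Q) (by omega) hQ ?_ le_rfl (by omega) ?_
        · intro q' hq'
          rw [mem_singleton] at hq'
          omega
        · intro v hv
          refine fmin_zero hD1 (Or.inl ?_)
          have : (D : ℤ) ≤ X := by exact_mod_cast hDX
          omega
      rw [hlen]
      have h2K : 2 * U ≤ K := le_trans (Nat.mul_le_mul_left _ hjM) h2M0
      have hmain := (Classical.choose_spec typeII_min).2 X W R D q U (K / U) P (2 * K) (aj j) (bj j)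
        hX hW hWX hR hRD hDW (le_trans hQ hQq) hP hPq hPj
        (by
          calc 2 * P * q * U ≤ R * M0 := Nat.mul_le_mul hPq hjM
            _ ≤ W := hRM)
        (by
          calc q * (2 * U * (K / U)) ≤ q * (2 * K) := Nat.mul_le_mul_left _ hUN
            _ = 2 * (q * K) := by ring
            _ ≤ 32 * X := by omega)
        hUN
        (by
          intro m' hm'
          simp only [aj]
          rw [if_neg hm'])
        (by
          intro n' hn'
          simp only [bj]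
          rw [if_neg hn'])
      refine hmain.trans ?_
      change mC2 * (∑ m ∈ Ico U (2 * U), ‖aj j m‖ ^ 2) * (∑ n ∈ Icc 1 (K / U), ‖bj j n‖ ^ 2) *
        (W / q) * X * Real.log X ^ 2 / P ≤ Bk
      have hsa : ∑ m ∈ Ico U (2 * U), ‖aj j m‖ ^ 2 ≤ T ^ 2 * (2 * U * Hs K ^ 3) := by
        calc ∑ m ∈ Ico U (2 * U), ‖aj j m‖ ^ 2 ≤ ∑ m ∈ Ico U (2 * U), T ^ 2 * tauR m ^ 2 := by
              refine Finset.sum_le_sum fun m' hm' => ?_
              have hm'2 := mem_Ico.mp hm'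
              have : ‖aj j m'‖ ≤ T * tauR m' := by
                simp only [aj]
                rw [if_pos hm']
                exact ha m' (by omega)
              calc ‖aj j m'‖ ^ 2 ≤ (T * tauR m') ^ 2 := pow_le_pow_left₀ (norm_nonneg _) this 2
                _ = T ^ 2 * tauR m' ^ 2 := by ring
          _ ≤ ∑ m ∈ Ioc 0 (2 * U), T ^ 2 * tauR m ^ 2 := by
              refine Finset.sum_le_sum_of_subset_of_nonneg ?_ fun _ _ _ => by positivity
              intro m' hm'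
              rw [mem_Ico] at hm'
              rw [mem_Ioc]
              omega
          _ = T ^ 2 * ∑ m ∈ Ioc 0 (2 * U), tauR m ^ 2 := by rw [Finset.mul_sum]
          _ ≤ T ^ 2 * ((2 * U : ℕ) * Hs (2 * U) ^ 3) :=
              mul_le_mul_of_nonneg_left (sum_tau_sq_le _) (by positivity)
          _ ≤ T ^ 2 * (2 * U * Hs K ^ 3) := by
              push_cast
              have := pow_le_pow_left₀ (Hs_nonneg _) (Hs_mono h2K) 3
              gcongr
      have hsb : ∑ n ∈ Icc 1 (K / U), ‖bj j n‖ ^ 2 ≤ T ^ 2 * ((K / U : ℕ) * Hs K ^ 3) := by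
        have hKU : K / U ≤ K := Nat.div_le_self _ _
        calc ∑ n ∈ Icc 1 (K / U), ‖bj j n‖ ^ 2 ≤ ∑ n ∈ Icc 1 (K / U), T ^ 2 * tauR n ^ 2 := by
              refine Finset.sum_le_sum fun m' hm' => ?_
              have hm'2 := mem_Icc.mp hm'
              have : ‖bj j m'‖ ≤ T * tauR m' := by
                simp only [bj]
                rw [if_pos hm']
                exact hb m' (by omega)
              calc ‖bj j m'‖ ^ 2 ≤ (T * tauR m') ^ 2 := pow_le_pow_left₀ (norm_nonneg _) this 2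
                _ = T ^ 2 * tauR m' ^ 2 := by ring
          _ ≤ ∑ n ∈ Ioc 0 (K / U), T ^ 2 * tauR n ^ 2 := by
              refine Finset.sum_le_sum_of_subset_of_nonneg ?_ fun _ _ _ => by positivity
              intro m' hm'
              rw [mem_Icc] at hm'
              rw [mem_Ioc]
              omega
          _ = T ^ 2 * ∑ n ∈ Ioc 0 (K / U), tauR n ^ 2 := by rw [Finset.mul_sum]
          _ ≤ T ^ 2 * ((K / U : ℕ) * Hs (K / U) ^ 3) :=
              mul_le_mul_of_nonneg_left (sum_tau_sq_le _) (by positivity)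
          _ ≤ T ^ 2 * ((K / U : ℕ) * Hs K ^ 3) := by
              have := pow_le_pow_left₀ (Hs_nonneg _) (Hs_mono hKU) 3
              gcongr
      have hprod : (∑ m ∈ Ico U (2 * U), ‖aj j m‖ ^ 2) * (∑ n ∈ Icc 1 (K / U), ‖bj j n‖ ^ 2) ≤
          T ^ 4 * (2 * K) * Hs K ^ 6 := by
        calc _ ≤ (T ^ 2 * (2 * U * Hs K ^ 3)) * (T ^ 2 * ((K / U : ℕ) * Hs K ^ 3)) :=
              mul_le_mul hsa hsb (Finset.sum_nonneg fun _ _ => by positivity) (by positivity)
          _ = T ^ 4 * Hs K ^ 6 * ((2 * U * (K / U) : ℕ) : ℝ) := by push_cast; ring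
          _ ≤ T ^ 4 * Hs K ^ 6 * ((2 * K : ℕ) : ℝ) := by
              refine mul_le_mul_of_nonneg_left ?_ (by positivity)
              exact_mod_cast hUN
          _ = T ^ 4 * (2 * K) * Hs K ^ 6 := by push_cast; ring
      have hC := mC2_pos.le
      rw [hBk, mul_assoc mC2]
      gcongr
  calc ((range J).card : ℝ) * ∑ j ∈ range J, TT W X {q} (fun _ k => cv (aj j) (bj j) k) K (fmin X R D)
      ≤ ((range J).card : ℝ) * ∑ j ∈ range J, Bk :=
        mul_le_mul_of_nonneg_left (Finset.sum_le_sum hblock) (Nat.cast_nonneg _)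
    _ = (J : ℝ) ^ 2 * Bk := by
        rw [Finset.sum_const, card_range, nsmul_eq_mul]; ring

/-- Both regions. -/
private lemma mr_two {X W R D q Q P : ℕ} {T : ℝ} {a b : ℕ → ℂ}
    (hX : 3 ≤ X) (hW : 1 ≤ W) (hWX : 4 * W ≤ X) (hR : 1 ≤ R) (hRD : R ^ 4 ≤ D)
    (hDW : D * R ^ 2 ≤ W) (hQ : 1 ≤ Q) (hQq : Q ≤ q) (hP : 1 ≤ P) (hPq : 2 * P * q ≤ R)
    (hK4 : 4 ≤ KK X Q) (hRM : R * Nat.sqrt (KK X Q) ≤ W) (hqK : q * KK X Q ≤ 16 * X)
    (hT : 0 ≤ T) (hD1 : 1 ≤ D) (hDX : D ≤ X)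
    (ha : ∀ m, m ≤ KK X Q → ‖a m‖ ≤ T * tauR m) (hb : ∀ m, m ≤ KK X Q → ‖b m‖ ≤ T * tauR m)
    (ha0 : ∀ m, m ≤ 2 * P → a m = 0) (hb0 : ∀ m, m ≤ 2 * P → b m = 0) :
    TT W X {q} (fun _ => cv a b) (KK X Q) (fmin X R D) ≤ 4 * mRB X W (KK X Q) q P T := by
  set K := KK X Q with hKdef
  set M0 := Nat.sqrt K with hM0
  let a1 : ℕ → ℂ := fun m => if m ≤ M0 then a m else 0
  let a2 : ℕ → ℂ := fun m => if m ≤ M0 then 0 else a m
  let b1 : ℕ → ℂ := fun m => if m ≤ M0 then b m else 0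
  have hTt : ∀ m, 0 ≤ T * tauR m := fun m => mul_nonneg hT (tauR_nonneg m)
  have hcongr : TT W X {q} (fun _ => cv a b) K (fmin X R D) =
      TT W X {q} (fun _ k => cv a1 b k + cv b1 a2 k) K (fmin X R D) := by
    refine TT_congr_c fun _ _ k hk => ?_
    rw [mem_Icc] at hk
    rw [mr_cv_comm b1 a2]
    unfold cv
    rw [← Finset.sum_add_distrib]
    refine Finset.sum_congr rfl fun p hp => ?_
    rw [Nat.mem_divisorsAntidiagonal] at hp
    simp only [a1, a2, b1]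
    by_cases h1 : p.1 ≤ M0
    · simp [h1]
    · have h2 : p.2 ≤ M0 := by
        by_contra h2
        have h3 : (M0 + 1) * (M0 + 1) ≤ p.1 * p.2 := Nat.mul_le_mul (by omega) (by omega)
        have h4 : K < (M0 + 1) * (M0 + 1) := Nat.lt_succ_sqrt K
        rw [hp.1] at h3
        omega
      simp [h1, h2]
  rw [hcongr]
  refine TT_add_c.trans ?_
  have r1 := mr_region (T := T) (a := a1) (b := b) hX hW hWX hR hRD hDW hQ hQq hP hPq hK4 hRM hqK
    hD1 hDX
    (fun m hm => by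
      simp only [a1]
      split_ifs
      · exact ha m hm
      · rw [norm_zero]; exact hTt m) hb
    (fun m hm => by
      simp only [a1]
      split_ifs
      · exact ha0 m hm
      · rfl)
    (fun m hm => if_neg (not_le.mpr hm))
  have r2 := mr_region (T := T) (a := b1) (b := a2) hX hW hWX hR hRD hDW hQ hQq hP hPq hK4 hRM hqK
    hD1 hDX
    (fun m hm => by
      simp only [b1]
      split_ifs
      · exact hb m hm
      · rw [norm_zero]; exact hTt m)
    (fun m hm => by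
      simp only [a2]
      split_ifs
      · rw [norm_zero]; exact hTt m
      · exact ha m hm)
    (fun m hm => by
      simp only [b1]
      split_ifs
      · exact hb0 m hm
      · rfl)
    (fun m hm => if_neg (not_le.mpr hm))
  calc 2 * TT W X {q} (fun _ => cv a1 b) K (fmin X R D) +
        2 * TT W X {q} (fun _ => cv b1 a2) K (fmin X R D)
      ≤ 2 * mRB X W K q P T + 2 * mRB X W K q P T := by gcongr
    _ = 4 * mRB X W K q P T := by ring

/-- The type II part. -/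
private lemma mr_typeII {X W R D q Q P d i : ℕ} {T : ℝ}
    (hX : 3 ≤ X) (hW : 1 ≤ W) (hWX : 4 * W ≤ X) (hR : 1 ≤ R) (hRD : R ^ 4 ≤ D)
    (hDW : D * R ^ 2 ≤ W) (hQ : 1 ≤ Q) (hQq : Q ≤ q) (hP : 1 ≤ P) (hPq : 2 * P * q ≤ R)
    (hK4 : 4 ≤ KK X Q) (hRM : R * Nat.sqrt (KK X Q) ≤ W) (hqK : q * KK X Q ≤ 16 * X)
    (hT : 1 ≤ T) (hTK : Real.log (KK X Q) ≤ T) (hD1 : 1 ≤ D) (hDX : D ≤ X) (hi : i ≤ 1) :
    TT W X {q} (fun _ k => cv (aII d (2 * P)) (bII d (2 * P)) k * ((Real.log k ^ i : ℝ) : ℂ))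
      (KK X Q) (fmin X R D) ≤ 16 * mRB X W (KK X Q) q P T := by
  set K := KK X Q with hKdef
  have hT0 : 0 ≤ T := by linarith
  have hlogK : ∀ m : ℕ, m ≤ K → Real.log m ≤ T := by
    intro m hm
    rcases Nat.eq_zero_or_pos m with h | h
    · subst h; simpa using hT0
    · refine (Real.log_le_log (by exact_mod_cast h) ?_).trans hTK
      exact_mod_cast hm
  have hRB : 0 ≤ mRB X W K q P T := by
    unfold mRB
    have := mC2_pos.le
    have hHs : 0 ≤ Hs K := Hs_nonneg K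
    positivity
  have hA0 : ∀ m, m ≤ 2 * P → aII d (2 * P) m = 0 := fun m hm => aII_zero hm
  have hB0 : ∀ m, m ≤ 2 * P → bII d (2 * P) m = 0 := fun m hm => bII_zero hm
  have hA : ∀ m, m ≤ K → ‖aII d (2 * P) m‖ ≤ T * tauR m := fun m _ =>
    (norm_aII_le d (2 * P) m).trans (le_mul_of_one_le_left (tauR_nonneg m) hT)
  have hB1 : ∀ m, ‖bII d (2 * P) m‖ ≤ tauR m := by
    intro m
    by_cases h : m = 0
    · rw [h, hB0 0 (Nat.zero_le _), norm_zero]; exact tauR_nonneg 0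
    · exact (norm_bII_le d (2 * P) m).trans (one_le_tauR h)
  have hB : ∀ m, m ≤ K → ‖bII d (2 * P) m‖ ≤ T * tauR m := fun m _ =>
    (hB1 m).trans (le_mul_of_one_le_left (tauR_nonneg m) hT)
  have hAl : ∀ m, m ≤ K → ‖aII d (2 * P) m * (Real.log m : ℂ)‖ ≤ T * tauR m := by
    intro m hm
    rw [norm_mul, Complex.norm_real, Real.norm_of_nonneg (Real.log_natCast_nonneg m), mul_comm]
    exact mul_le_mul (hlogK m hm) (norm_aII_le d (2 * P) m) (norm_nonneg _) hT0
  have hBl : ∀ m, m ≤ K → ‖bII d (2 * P) m * (Real.log m : ℂ)‖ ≤ T * tauR m := by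
    intro m hm
    rw [norm_mul, Complex.norm_real, Real.norm_of_nonneg (Real.log_natCast_nonneg m), mul_comm]
    exact mul_le_mul (hlogK m hm) (hB1 m) (norm_nonneg _) hT0
  interval_cases i
  · have h0 := mr_two (T := T) (a := aII d (2 * P)) (b := bII d (2 * P)) hX hW hWX hR hRD hDW hQ
      hQq hP hPq hK4 hRM hqK hT0 hD1 hDX hA hB hA0 hB0
    simp only [pow_zero, ofReal_one, mul_one]
    refine h0.trans ?_
    linarith
  · have hcongr : TT W X {q} (fun _ k => cv (aII d (2 * P)) (bII d (2 * P)) k *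
        ((Real.log k ^ 1 : ℝ) : ℂ)) K (fmin X R D) =
        TT W X {q} (fun _ k => cv (fun m => aII d (2 * P) m * (Real.log m : ℂ)) (bII d (2 * P)) k +
          cv (aII d (2 * P)) (fun m => bII d (2 * P) m * (Real.log m : ℂ)) k) K (fmin X R D) := by
      refine TT_congr_c fun _ _ k hk => ?_
      rw [mem_Icc] at hk
      unfold cv
      rw [← Finset.sum_add_distrib, Finset.sum_mul]
      refine Finset.sum_congr rfl fun p hp => ?_
      rw [Nat.mem_divisorsAntidiagonal] at hp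
      have hp1 : p.1 ≠ 0 := by
        intro h; rw [h, zero_mul] at hp; omega
      have hp2 : p.2 ≠ 0 := by
        intro h; rw [h, mul_zero] at hp; omega
      have hlog : Real.log k = Real.log p.1 + Real.log p.2 := by
        rw [← hp.1, Nat.cast_mul, Real.log_mul (by exact_mod_cast hp1) (by exact_mod_cast hp2)]
      rw [pow_one, hlog]
      push_cast
      ring
    rw [hcongr]
    refine TT_add_c.trans ?_
    have h1 := mr_two (T := T) (a := fun m => aII d (2 * P) m * (Real.log m : ℂ))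
      (b := bII d (2 * P)) hX hW hWX hR hRD hDW hQ
      hQq hP hPq hK4 hRM hqK hT0 hD1 hDX hAl hB
      (fun m hm => by simp only [hA0 m hm, zero_mul]) hB0
    have h2 := mr_two (T := T) (a := aII d (2 * P))
      (b := fun m => bII d (2 * P) m * (Real.log m : ℂ)) hX hW hWX hR hRD hDW hQ
      hQq hP hPq hK4 hRM hqK hT0 hD1 hDX hA hBl hA0
      (fun m hm => by simp only [hB0 m hm, zero_mul])
    calc _ ≤ 2 * (4 * mRB X W K q P T) + 2 * (4 * mRB X W K q P T) := by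
          refine add_le_add ?_ ?_
          · exact mul_le_mul_of_nonneg_left h1 (by norm_num)
          · exact mul_le_mul_of_nonneg_left h2 (by norm_num)
      _ = 16 * mRB X W K q P T := by ring

/-- The type I part. -/
private lemma mr_typeI {X W R D q K U d i : ℕ}
    (hX : 3 ≤ X) (hW : 1 ≤ W) (hWX : 4 * W ≤ X) (hR : 1 ≤ R) (hRD : R ^ 4 ≤ D)
    (hDW : D * R ^ 2 ≤ W) (hq : 1 ≤ q) (hd : 1 ≤ d) (hqK : q * K ≤ 16 * X) (hqK' : 4 * X ≤ q * K)
    (hUR : q * (U * U * d) ≤ R) (hi : i ≤ 1) :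
    TT W X {q} (fun _ k => cv (aI d U) (zd d) k * ((Real.log k ^ i : ℝ) : ℂ)) K (fmin X R D) ≤
      (U : ℝ) ^ 8 * d ^ 2 * (mC1 * (K * W) * X * Real.log X ^ 3 / (R : ℝ) ^ 2) := by
  have hlogX : 0 ≤ Real.log X := Real.log_natCast_nonneg X
  set JJ := Icc 1 (U * U) ×ˢ d.divisors with hJJ
  have hRW : R ≤ W := by
    have h1 : R ≤ R ^ 4 := Nat.le_self_pow (by norm_num) R
    have h2 : D ≤ D * R ^ 2 := Nat.le_mul_of_pos_right _ (by positivity)
    omega
  have hcongr : TT W X {q} (fun _ k => cv (aI d U) (zd d) k * ((Real.log k ^ i : ℝ) : ℂ)) K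
      (fmin X R D) =
      TT W X {q} (fun _ k => ∑ p ∈ JJ, (aI d U p.1 * muC p.2) *
        (if p.1 * p.2 ∣ k then ((Real.log k ^ i : ℝ) : ℂ) else 0)) K (fmin X R D) := by
    refine TT_congr_c fun _ _ k hk => ?_
    rw [mem_Icc] at hk
    rw [typeI_expand d U k hd hk.1, hJJ, Finset.sum_product, Finset.sum_mul]
    refine Finset.sum_congr rfl fun m _ => ?_
    rw [Finset.sum_mul]
    refine Finset.sum_congr rfl fun e _ => ?_
    simp only
    split_ifs <;> simp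
  rw [hcongr]
  refine (TT_sum_c JJ (fun p _ k => (aI d U p.1 * muC p.2) *
        (if p.1 * p.2 ∣ k then ((Real.log k ^ i : ℝ) : ℂ) else 0))).trans ?_
  have hC := mC1_pos.le
  have hterm : ∀ p ∈ JJ, TT W X {q} (fun _ k => (aI d U p.1 * muC p.2) *
        (if p.1 * p.2 ∣ k then ((Real.log k ^ i : ℝ) : ℂ) else 0)) K (fmin X R D) ≤
      (U : ℝ) ^ 4 * (mC1 * (K * W) * X * Real.log X ^ 3 / (R : ℝ) ^ 2) := by
    intro p hp
    rw [hJJ, mem_product, mem_Icc, Nat.mem_divisors] at hp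
    obtain ⟨⟨hm1, hm2⟩, hp2, -⟩ := hp
    have he1 : 1 ≤ p.2 := Nat.pos_of_dvd_of_pos hp2 hd
    have hed : p.2 ≤ d := Nat.le_of_dvd hd hp2
    set t := p.1 * p.2 with ht
    have ht1 : 1 ≤ t := Nat.mul_pos hm1 he1
    have htU : t ≤ U * U * d := Nat.mul_le_mul hm2 hed
    have hsR : q * t ≤ R := le_trans (Nat.mul_le_mul_left _ htU) hUR
    have htR : t ≤ R := le_trans (Nat.le_mul_of_pos_left _ hq) hsR
    rw [TT_smul_c (c := fun _ k => if t ∣ k then ((Real.log k ^ i : ℝ) : ℂ) else 0)]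
    have hnorm : ‖aI d U p.1 * muC p.2‖ ^ 2 ≤ (U : ℝ) ^ 4 := by
      have h1 : ‖aI d U p.1 * muC p.2‖ ≤ (U : ℝ) ^ 2 := by
        rw [norm_mul]
        calc ‖aI d U p.1‖ * ‖muC p.2‖ ≤ tauR p.1 * 1 :=
              mul_le_mul (norm_aI_le _ _ _) (norm_muC_le _) (norm_nonneg _) (tauR_nonneg _)
          _ = tauR p.1 := mul_one _
          _ ≤ (p.1 : ℝ) := by
              unfold tauR
              exact_mod_cast Nat.card_divisors_le_self p.1
          _ ≤ (U : ℝ) ^ 2 := by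
              rw [sq]; exact_mod_cast hm2
      calc ‖aI d U p.1 * muC p.2‖ ^ 2 ≤ ((U : ℝ) ^ 2) ^ 2 :=
            pow_le_pow_left₀ (norm_nonneg _) h1 2
        _ = (U : ℝ) ^ 4 := by ring
    have hTTt : TT W X {q} (fun _ k => if t ∣ k then ((Real.log k ^ i : ℝ) : ℂ) else 0) K
        (fmin X R D) ≤ mC1 * (K * W) * X * Real.log X ^ 3 / (R : ℝ) ^ 2 := by
      rw [TT_mult ht1 (fun k => ((Real.log k ^ i : ℝ) : ℂ))]
      have hKt : K < t * (K / t) + t := by
        have := Nat.lt_mul_div_succ K (show 0 < t by omega)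
        rwa [Nat.mul_add, Nat.mul_one] at this
      have hmain := (Classical.choose_spec typeI_min_log).2 X W R D (q * t) t i (K / t)
        hX hW hWX hR hRD hDW (Nat.mul_pos hq ht1) hsR
        (by
          have h1 : q * K ≤ q * (t * (K / t)) + q * t := by
            rw [← Nat.mul_add]; exact Nat.mul_le_mul_left _ hKt.le
          have h2 : q * t * (K / t) = q * (t * (K / t)) := by ring
          rw [h2]
          omega)
        (by
          calc q * t * (K / t) = q * (t * (K / t)) := by ring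
            _ ≤ q * K := Nat.mul_le_mul_left _ (Nat.mul_div_le K t)
            _ ≤ 32 * X := by omega)
        ht1 (by omega) hi
      refine hmain.trans ?_
      change mC1 * ((K / t : ℕ) * W / (q * t : ℕ)) * X * Real.log X ^ 3 / (R : ℝ) ^ 2 ≤ _
      have h3 : ((K / t : ℕ) : ℝ) * W / (q * t : ℕ) ≤ K * W := by
        have h4 : (1 : ℝ) ≤ (q * t : ℕ) := by exact_mod_cast Nat.mul_pos hq ht1
        calc ((K / t : ℕ) : ℝ) * W / (q * t : ℕ) ≤ ((K / t : ℕ) : ℝ) * W :=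
              div_le_self (by positivity) h4
          _ ≤ K * W := by
              have : ((K / t : ℕ) : ℝ) ≤ K := by exact_mod_cast Nat.div_le_self K t
              gcongr
      gcongr
    calc _ ≤ (U : ℝ) ^ 4 * (mC1 * (K * W) * X * Real.log X ^ 3 / (R : ℝ) ^ 2) :=
          mul_le_mul hnorm hTTt TT_nonneg (by positivity)
      _ = _ := rfl
  have hcard : ((JJ.card : ℕ) : ℝ) ≤ (U : ℝ) ^ 2 * d := by
    have h1 : JJ.card ≤ U * U * d := by
      rw [hJJ, card_product, Nat.card_Icc, Nat.add_sub_cancel]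
      exact Nat.mul_le_mul_left _ (Nat.card_divisors_le_self d)
    calc ((JJ.card : ℕ) : ℝ) ≤ ((U * U * d : ℕ) : ℝ) := by exact_mod_cast h1
      _ = (U : ℝ) ^ 2 * d := by push_cast; ring
  set BB : ℝ := mC1 * (K * W) * X * Real.log X ^ 3 / (R : ℝ) ^ 2 with hBB
  have hBB0 : 0 ≤ BB := by rw [hBB]; positivity
  calc (JJ.card : ℝ) * ∑ p ∈ JJ, TT W X {q} (fun _ k => (aI d U p.1 * muC p.2) *
        (if p.1 * p.2 ∣ k then ((Real.log k ^ i : ℝ) : ℂ) else 0)) K (fmin X R D)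
      ≤ (JJ.card : ℝ) * ∑ p ∈ JJ, (U : ℝ) ^ 4 * BB :=
        mul_le_mul_of_nonneg_left (Finset.sum_le_sum hterm) (Nat.cast_nonneg _)
    _ = (JJ.card : ℝ) ^ 2 * ((U : ℝ) ^ 4 * BB) := by
        rw [Finset.sum_const, nsmul_eq_mul]; ring
    _ ≤ ((U : ℝ) ^ 2 * d) ^ 2 * ((U : ℝ) ^ 4 * BB) := by gcongr
    _ = (U : ℝ) ^ 8 * d ^ 2 * BB := by ring

/-- The part of `μ` below `U`. -/
private lemma mr_low {X W R D q K U d i : ℕ}
    (hX : 3 ≤ X) (hW : 1 ≤ W) (hWX : W ≤ X) (hXW : X ≤ W ^ 2) (hR : 1 ≤ R) (hRD : R ^ 4 ≤ D)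
    (hD1 : 1 ≤ D) (hD32 : 2 * X + D ≤ 32 * X)
    (hq : 1 ≤ q) (hUK : U ≤ K) (hUX : U ≤ X) (hi : i ≤ 1) (hL : 1 ≤ Real.log X) :
    TT W X {q} (fun _ k => Mdd d U k * ((Real.log k ^ i : ℝ) : ℂ)) K (fmin X R D) ≤
      mC0 * Real.log X ^ 2 * U * W * Real.log X * (12 * X * (1 + Real.log (2 * X))) := by
  have hzero : ∀ q' ∈ ({q} : Finset ℕ), ∀ k, U < k →
      (fun (_ : ℕ) (k : ℕ) => Mdd d U k * ((Real.log k ^ i : ℝ) : ℂ)) q' k = 0 := by
    intro _ _ k hk
    have : Mdd d U k = 0 := by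
      simp only [Mdd, ArithmeticFunction.coe_mk]
      rw [if_neg]
      intro h
      omega
    simp only [this, zero_mul]
  rw [TT_shrink hUK hzero]
  have hfz : ∀ n : ℤ, ((32 * X : ℕ) : ℤ) < |n| → fmin X R D n = 0 := by
    intro n hn
    refine fmin_zero hD1 ?_
    have h1 : (2 * (X : ℤ) + D) ≤ 32 * X := by exact_mod_cast hD32
    push_cast at hn
    rcases abs_cases n with h | h
    · right; omega
    · left; omega
  have hmain := (Classical.choose_spec TT_norm).2 W X U (32 * X) {q}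
    (fun _ k => Mdd d U k * ((Real.log k ^ i : ℝ) : ℂ)) (Real.log X) (fmin X R D)
    hX hW hWX hXW le_rfl (by linarith)
    (by
      intro q' hq'
      rw [mem_singleton] at hq'
      omega)
    (by
      intro _ _ k hk
      rw [mem_Icc] at hk
      rw [norm_mul]
      have h1 := norm_Mdd_le d U k
      have hk0 : 0 ≤ Real.log k := Real.log_natCast_nonneg k
      have hk1 : Real.log k ≤ Real.log X := by
        refine Real.log_le_log (by exact_mod_cast hk.1) ?_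
        exact_mod_cast le_trans hk.2 hUX
      have h2 : ‖((Real.log k ^ i : ℝ) : ℂ)‖ ≤ Real.log X := by
        rw [Complex.norm_real, Real.norm_of_nonneg (by positivity)]
        interval_cases i
        · simpa using hL
        · simpa using hk1
      calc ‖Mdd d U k‖ * ‖((Real.log k ^ i : ℝ) : ℂ)‖ ≤ 1 * Real.log X :=
            mul_le_mul h1 h2 (norm_nonneg _) zero_le_one
        _ = Real.log X := one_mul _)
    hfz
  refine hmain.trans ?_
  have hf := fmin_norm (X := X) (R := R) (D := D) (Y := 32 * X) (by omega) hR hRD hD32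
  have hC := mC0_pos.le
  change mC0 * Real.log X ^ 2 * U * W * Real.log X * _ ≤ _
  exact mul_le_mul_of_nonneg_left hf (by positivity)

/-- The decomposition of the coefficients. -/
private lemma mr_split {W X d i K q U : ℕ} {g : ℤ → ℂ} (hd : 1 ≤ d) :
    TT W X {q} (fun _ => cc d i) K g ≤
      8 * TT W X {q} (fun _ k => Mdd d U k * ((Real.log k ^ i : ℝ) : ℂ)) K g +
      4 * TT W X {q} (fun _ k => cv (aI d U) (zd d) k * ((Real.log k ^ i : ℝ) : ℂ)) K g +
      4 * TT W X {q} (fun _ k => cv (aII d U) (bII d U) k * ((Real.log k ^ i : ℝ) : ℂ)) K g := by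
  set c1 : ℕ → ℕ → ℂ := fun _ k => Mdd d U k * ((Real.log k ^ i : ℝ) : ℂ) with hc1
  set c2 : ℕ → ℕ → ℂ := fun _ k => cv (aI d U) (zd d) k * ((Real.log k ^ i : ℝ) : ℂ) with hc2
  set c3 : ℕ → ℕ → ℂ := fun _ k => cv (aII d U) (bII d U) k * ((Real.log k ^ i : ℝ) : ℂ) with hc3
  have h0 : TT W X {q} (fun _ => cc d i) K g =
      TT W X {q} (fun q k => muC d * (2 * c1 q k + ((-1) * c2 q k + c3 q k))) K g := by
    refine TT_congr_c fun _ _ k hk => ?_
    rw [mem_Icc] at hk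
    simp only [cc, hc1, hc2, hc3]
    rw [vaughan_d d U k hd hk.1]
    ring
  have h1 : TT W X {q} (fun q k => muC d * (2 * c1 q k + ((-1) * c2 q k + c3 q k))) K g ≤
      TT W X {q} (fun q k => 2 * c1 q k + ((-1) * c2 q k + c3 q k)) K g := by
    rw [TT_smul_c (c := fun q k => 2 * c1 q k + ((-1) * c2 q k + c3 q k))]
    refine mul_le_of_le_one_left TT_nonneg ?_
    exact pow_le_one₀ (norm_nonneg _) (norm_muC_le d)
  have h2 : TT W X {q} (fun q k => 2 * c1 q k + ((-1) * c2 q k + c3 q k)) K g ≤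
      2 * TT W X {q} (fun q k => 2 * c1 q k) K g +
        2 * TT W X {q} (fun q k => (-1) * c2 q k + c3 q k) K g :=
    TT_add_c (c := fun q k => 2 * c1 q k) (c' := fun q k => (-1) * c2 q k + c3 q k)
  have h3 : TT W X {q} (fun q k => (-1) * c2 q k + c3 q k) K g ≤
      2 * TT W X {q} (fun q k => (-1) * c2 q k) K g + 2 * TT W X {q} c3 K g :=
    TT_add_c (c := fun q k => (-1) * c2 q k) (c' := c3)
  have h4 : TT W X {q} (fun q k => 2 * c1 q k) K g = 4 * TT W X {q} c1 K g := by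
    rw [TT_smul_c (c := c1)]
    norm_num
  have h5 : TT W X {q} (fun q k => (-1) * c2 q k) K g = TT W X {q} c2 K g := by
    rw [TT_smul_c (c := c2)]
    norm_num
  rw [h0]
  linarith

private lemma mr_real1 {A b B₁ : ℕ} {L C Q U W X l : ℝ} (hL : 1 ≤ L) (hC : 0 ≤ C) (hQ : 0 < Q)
    (hQL : Q ≤ L ^ B₁) (hU0 : 0 ≤ U) (hU : U ≤ 4 * L ^ b) (hW : 0 ≤ W) (hX : 0 ≤ X)
    (hl0 : 0 ≤ l) (hl : l ≤ 3 * L) (h : 3456 * C * L ^ (b + 4 + 2 * B₁ + A) ≤ X) :
    8 * (C * L ^ 2 * U * W * L * (12 * X * l)) ≤ W * X ^ 2 / Q ^ 2 / L ^ A / 3 := by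
  have hL0 : 0 < L := by linarith
  rw [le_div_iff₀ (by norm_num), le_div_iff₀ (by positivity), le_div_iff₀ (by positivity)]
  have h1 : 8 * (C * L ^ 2 * U * W * L * (12 * X * l)) ≤
      8 * (C * L ^ 2 * (4 * L ^ b) * W * L * (12 * X * (3 * L))) := by
    gcongr
  have h2 : Q ^ 2 ≤ (L ^ B₁) ^ 2 := pow_le_pow_left₀ hQ.le hQL 2
  calc 8 * (C * L ^ 2 * U * W * L * (12 * X * l)) * 3 * L ^ A * Q ^ 2
      ≤ 8 * (C * L ^ 2 * (4 * L ^ b) * W * L * (12 * X * (3 * L))) * 3 * L ^ A * (L ^ B₁) ^ 2 := by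
        refine mul_le_mul ?_ h2 (by positivity) (by positivity)
        gcongr
    _ = W * X * (3456 * C * L ^ (b + 4 + 2 * B₁ + A)) := by
        rw [show b + 4 + 2 * B₁ + A = b + 4 + B₁ + B₁ + A by ring]
        simp only [pow_add]
        ring
    _ ≤ W * X * X := by gcongr
    _ = W * X ^ 2 := by ring

private lemma mr_real2 {A b B₁ C₀ B : ℕ} {L C Q U W X K R d : ℝ} (hL : 1 ≤ L) (hC : 0 ≤ C)
    (hQ : 0 < Q) (hQL : Q ≤ L ^ B₁) (hU0 : 0 ≤ U) (hU : U ≤ 4 * L ^ b) (hd0 : 0 ≤ d)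
    (hd : d ≤ L ^ C₀) (hK0 : 0 ≤ K) (hK : K ≤ 5 * X / Q) (hR : L ^ B ≤ R)
    (hW : 0 ≤ W) (hX : 0 ≤ X)
    (hB : 8 * b + 2 * C₀ + 3 + B₁ + A + 1 ≤ 2 * B) (h : 12 * 4 ^ 8 * 5 * C ≤ L) :
    4 * (U ^ 8 * d ^ 2 * (C * (K * W) * X * L ^ 3 / R ^ 2)) ≤ W * X ^ 2 / Q ^ 2 / L ^ A / 3 := by
  have hL0 : 0 < L := by linarith
  have hR0 : 0 < R := lt_of_lt_of_le (by positivity) hR
  have h1 : 4 * (U ^ 8 * d ^ 2 * (C * (K * W) * X * L ^ 3 / R ^ 2)) ≤
      4 * ((4 * L ^ b) ^ 8 * (L ^ C₀) ^ 2 * (C * ((5 * X / Q) * W) * X * L ^ 3 / (L ^ B) ^ 2)) := by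
    gcongr
  refine h1.trans ?_
  have h2 : 4 * ((4 * L ^ b) ^ 8 * (L ^ C₀) ^ 2 * (C * ((5 * X / Q) * W) * X * L ^ 3 / (L ^ B) ^ 2)) =
      W * X ^ 2 / Q ^ 2 * ((4 * 4 ^ 8 * 5 * C * L ^ (8 * b + 2 * C₀ + 3) * Q) / L ^ (2 * B)) := by
    rw [show L ^ (2 * B) = (L ^ B) ^ 2 by rw [← pow_mul, mul_comm]]
    rw [show 8 * b + 2 * C₀ + 3 = b * 8 + C₀ * 2 + 3 by ring, pow_add, pow_add, pow_mul L b 8,
      pow_mul L C₀ 2]
    field_simp
  have h3 : (4 * 4 ^ 8 * 5 * C * L ^ (8 * b + 2 * C₀ + 3) * Q) / L ^ (2 * B) ≤ 1 / L ^ A / 3 := by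
    rw [div_le_iff₀ (by positivity), div_div, div_mul_eq_mul_div, le_div_iff₀ (by positivity)]
    calc 4 * 4 ^ 8 * 5 * C * L ^ (8 * b + 2 * C₀ + 3) * Q * (L ^ A * 3)
        ≤ 4 * 4 ^ 8 * 5 * C * L ^ (8 * b + 2 * C₀ + 3) * L ^ B₁ * (L ^ A * 3) := by gcongr
      _ = (12 * 4 ^ 8 * 5 * C) * L ^ (8 * b + 2 * C₀ + 3 + B₁ + A) := by
          simp only [pow_add]; ring
      _ ≤ L * L ^ (8 * b + 2 * C₀ + 3 + B₁ + A) := by gcongr
      _ = L ^ (8 * b + 2 * C₀ + 3 + B₁ + A + 1) := by rw [pow_succ]; ring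
      _ ≤ L ^ (2 * B) := pow_le_pow_right₀ hL hB
      _ = 1 * L ^ (2 * B) := (one_mul _).symm
  rw [h2]
  calc W * X ^ 2 / Q ^ 2 * ((4 * 4 ^ 8 * 5 * C * L ^ (8 * b + 2 * C₀ + 3) * Q) / L ^ (2 * B))
      ≤ W * X ^ 2 / Q ^ 2 * (1 / L ^ A / 3) := by gcongr
    _ = W * X ^ 2 / Q ^ 2 / L ^ A / 3 := by ring

private lemma mr_real3 {A : ℕ} {L C Q q W X K P J H : ℝ} (hL : 1 ≤ L) (hC : 0 ≤ C)
    (hQ : 0 < Q) (hq : Q ≤ q) (hK0 : 0 ≤ K) (hK : K ≤ 5 * X / Q) (hP : L ^ (A + 15) ≤ P)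
    (hJ0 : 0 ≤ J) (hJ : J ≤ 4 * L) (hH0 : 0 ≤ H) (hH : H ≤ 3 * L)
    (hW : 0 ≤ W) (hX : 0 ≤ X) (h : 3 * 4 * 16 * (16 * 16 * 10 * 729) * C ≤ L) :
    4 * (16 * (J ^ 2 * (C * ((2 * L) ^ 4 * (2 * K) * H ^ 6) * (W / q) * X * L ^ 2 / P))) ≤
      W * X ^ 2 / Q ^ 2 / L ^ A / 3 := by
  have hL0 : 0 < L := by linarith
  have hP0 : 0 < P := lt_of_lt_of_le (by positivity) hP
  have hq0 : 0 < q := by linarith
  have h1 : 4 * (16 * (J ^ 2 * (C * ((2 * L) ^ 4 * (2 * K) * H ^ 6) * (W / q) * X * L ^ 2 / P))) ≤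
      4 * (16 * ((4 * L) ^ 2 * (C * ((2 * L) ^ 4 * (2 * (5 * X / Q)) * (3 * L) ^ 6) * (W / Q) * X *
        L ^ 2 / L ^ (A + 15)))) := by
    gcongr
  refine h1.trans ?_
  have h2 : 4 * (16 * ((4 * L) ^ 2 * (C * ((2 * L) ^ 4 * (2 * (5 * X / Q)) * (3 * L) ^ 6) * (W / Q) *
        X * L ^ 2 / L ^ (A + 15)))) =
      W * X ^ 2 / Q ^ 2 * (4 * 16 * (16 * 16 * 10 * 729) * C / (L ^ A * L)) := by
    rw [pow_add L A 15]
    field_simp
    ring
  rw [h2]
  have h3 : 4 * 16 * (16 * 16 * 10 * 729) * C / (L ^ A * L) ≤ 1 / L ^ A / 3 := by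
    rw [div_div, div_le_div_iff₀ (by positivity) (by positivity)]
    calc 4 * 16 * (16 * 16 * 10 * 729) * C * (L ^ A * 3)
        = L ^ A * (3 * 4 * 16 * (16 * 16 * 10 * 729) * C) := by ring
      _ ≤ L ^ A * L := by gcongr
      _ = 1 * (L ^ A * L) := (one_mul _).symm
  calc W * X ^ 2 / Q ^ 2 * (4 * 16 * (16 * 16 * 10 * 729) * C / (L ^ A * L))
      ≤ W * X ^ 2 / Q ^ 2 * (1 / L ^ A / 3) := by gcongr
    _ = W * X ^ 2 / Q ^ 2 / L ^ A / 3 := by ring

/-- Minor arcs, small moduli. -/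
theorem minR1 {ε : ℝ} (hε : 0 < ε) (A C₀ B₁ : ℕ) : ∃ B₂ : ℕ, ∀ B : ℕ, B₂ ≤ B → ∃ X₀ : ℕ, ∀ X : ℕ, X₀ ≤ X →
    ∀ W : ℕ, Win ε X W → ∀ Q : ℕ, 1 ≤ Q → (Q : ℝ) ≤ Real.log X ^ B₁ → ∀ d : ℕ, 1 ≤ d →
    (d : ℝ) ≤ Real.log X ^ C₀ → ∀ i : ℕ, i ≤ 1 →
    TT W X (Ico Q (2 * Q)) (fun _ => cc d i) (KK X Q) (fmin X (RR B X) (DD B X W)) ≤ Bd A X W Q := by
  set b := A + 15 with hb
  refine ⟨8 * b + 2 * C₀ + 2 * B₁ + A + 10, fun B hB => ?_⟩
  obtain ⟨X1, hX1⟩ := win_facts ε hε B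
  obtain ⟨X2, hX2⟩ := const_log_pow_le 20 (2 * B) (δ := 2 * ε) (by positivity)
  obtain ⟨X3, hX3⟩ := const_log_pow_le (3456 * mC0 + 4) (b + 4 + 2 * B₁ + A) (δ := 1) one_pos
  set cst : ℝ := max 64 (max (12 * 4 ^ 8 * 5 * mC1) (3 * 4 * 16 * (16 * 16 * 10 * 729) * mC2))
    with hcst
  have htend : Filter.Tendsto (fun n : ℕ => Real.log n) Filter.atTop Filter.atTop :=
    Real.tendsto_log_atTop.comp tendsto_natCast_atTop_atTop
  obtain ⟨X4, hX4⟩ := Filter.eventually_atTop.mp (htend.eventually_ge_atTop cst)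
  refine ⟨max (max X1 X2) (max (max X3 X4) 10), fun X hX W hWin Q hQ1 hQL d hd1 hdL i hi => ?_⟩
  have hXa : X1 ≤ X := le_trans (le_trans (le_max_left _ _) (le_max_left _ _)) hX
  have hXb : X2 ≤ X := le_trans (le_trans (le_max_right _ _) (le_max_left _ _)) hX
  have hXc : X3 ≤ X :=
    le_trans (le_trans (le_trans (le_max_left _ _) (le_max_left _ _)) (le_max_right _ _)) hX
  have hXd : X4 ≤ X :=
    le_trans (le_trans (le_trans (le_max_right _ _) (le_max_left _ _)) (le_max_right _ _)) hX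
  have hX10 : 10 ≤ X := le_trans (le_trans (le_max_right _ _) (le_max_right _ _)) hX
  obtain ⟨hW1, hWX4, hXW2, hR1, hRL, hRL2, hRD, hDW, hD1, hDleW, -, hD32⟩ := hX1 X hXa W hWin
  have h20 := hX2 X hXb
  have h34 := hX3 X hXc
  rw [Real.rpow_one] at h34
  have hLc : cst ≤ Real.log X := hX4 X hXd
  set L := Real.log X with hLdef
  have hL64 : 64 ≤ L := le_trans (le_max_left _ _) hLc
  have hLc1 : 12 * 4 ^ 8 * 5 * mC1 ≤ L :=
    le_trans (le_trans (le_max_left _ _) (le_max_right _ _)) hLc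
  have hLc2 : 3 * 4 * 16 * (16 * 16 * 10 * 729) * mC2 ≤ L :=
    le_trans (le_trans (le_max_right _ _) (le_max_right _ _)) hLc
  have hL1 : 1 ≤ L := by linarith
  have hL0 : 0 < L := by linarith
  set R := RR B X with hRdef
  set D := DD B X W with hDdef
  set K := KK X Q with hKdef
  have hX0 : (0 : ℝ) < X := by exact_mod_cast (by omega : 0 < X)
  have hQ0 : (0 : ℝ) < Q := by exact_mod_cast hQ1
  have hmC0 := mC0_pos
  -- consequences of the growth condition
  have hpow1 : ∀ n, n ≤ b + 4 + 2 * B₁ + A → 4 * L ^ n ≤ X := by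
    intro n hn
    calc 4 * L ^ n ≤ (3456 * mC0 + 4) * L ^ (b + 4 + 2 * B₁ + A) := by
          have := pow_le_pow_right₀ hL1 hn
          have h0 : 0 ≤ L ^ (b + 4 + 2 * B₁ + A) := by positivity
          nlinarith
      _ ≤ X := h34
  have hQX : Q ≤ X := by
    have h1 := hpow1 B₁ (by omega)
    have h2 : (Q : ℝ) ≤ X := by
      have : 0 ≤ L ^ B₁ := by positivity
      linarith
    exact_mod_cast h2
  -- the length K
  have hQK : 4 * X < Q * K := by
    rw [hKdef]; exact Nat.lt_mul_div_succ (4 * X) (by omega)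
  have hK4 : 4 ≤ K := by
    by_contra h
    have h1 : Q * K ≤ X * 4 := Nat.mul_le_mul hQX (by omega)
    omega
  have hKQ : (Q : ℝ) * K ≤ 5 * X := by
    have h1 : Q * K ≤ 5 * X := by
      rw [hKdef]
      unfold KK
      have h2 := Nat.mul_div_le (4 * X) Q
      rw [Nat.mul_add, Nat.mul_one]
      omega
    exact_mod_cast h1
  have hK5 : (K : ℝ) ≤ 5 * X / Q := by
    rw [le_div_iff₀ hQ0]; linarith
  have hK5X : (K : ℝ) ≤ 5 * X := by
    refine hK5.trans (div_le_self (by positivity) (by exact_mod_cast hQ1))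
  have hK0 : (0 : ℝ) < K := by exact_mod_cast (by omega : 0 < K)
  have hlogK : Real.log K ≤ 2 * L := by
    calc Real.log K ≤ Real.log (5 * X) := Real.log_le_log hK0 hK5X
      _ = Real.log 5 + L := Real.log_mul (by norm_num) hX0.ne'
      _ ≤ 2 * L := by
          have : Real.log 5 ≤ 5 - 1 := Real.log_le_sub_one_of_pos (by norm_num)
          linarith
  have hHs : Hs K ≤ 3 * L := (Hs_le K).trans (by linarith)
  have hJ : ((Nat.log 2 K + 1 : ℕ) : ℝ) ≤ 4 * L := by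
    have h1 : 2 ^ Nat.log 2 K ≤ K := Nat.pow_log_le_self 2 (by omega)
    have h2 : (Nat.log 2 K : ℝ) * Real.log 2 ≤ Real.log K := by
      rw [← Real.log_pow]
      refine Real.log_le_log (by positivity) ?_
      exact_mod_cast h1
    have h3 := Real.log_two_gt_d9
    have h4 : (Nat.log 2 K : ℝ) * 0.69 ≤ 2 * L := by
      have : (0 : ℝ) ≤ (Nat.log 2 K : ℝ) := Nat.cast_nonneg _
      nlinarith
    push_cast
    linarith
  -- the parameter P
  obtain ⟨P, hPlow, hPup⟩ : ∃ P : ℕ, L ^ b ≤ P ∧ (P : ℝ) ≤ 2 * L ^ b := by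
    refine ⟨⌈L ^ b⌉₊, Nat.le_ceil _, ?_⟩
    have h1 := Nat.ceil_lt_add_one (show 0 ≤ L ^ b by positivity)
    have h2 : 1 ≤ L ^ b := one_le_pow₀ hL1
    linarith
  have hP1 : 1 ≤ P := by
    have h2 : 1 ≤ L ^ b := one_le_pow₀ hL1
    have : (1 : ℝ) ≤ P := le_trans h2 hPlow
    exact_mod_cast this
  have hU4 : ((2 * P : ℕ) : ℝ) ≤ 4 * L ^ b := by push_cast; linarith
  have hUX : 2 * P ≤ X := by
    have h1 := hpow1 b (by omega)
    have h2 : ((2 * P : ℕ) : ℝ) ≤ X := by linarith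
    exact_mod_cast h2
  have hUK : 2 * P ≤ K := by
    have h1 : 4 * L ^ (b + B₁) ≤ X := hpow1 (b + B₁) (by omega)
    have h2 : (4 * X : ℝ) ≤ Q * K := by exact_mod_cast hQK.le
    have h3 : (Q : ℝ) * (2 * P : ℕ) ≤ Q * K := by
      calc (Q : ℝ) * (2 * P : ℕ) ≤ L ^ B₁ * (4 * L ^ b) :=
            mul_le_mul hQL hU4 (Nat.cast_nonneg _) (by positivity)
        _ = 4 * L ^ (b + B₁) := by rw [pow_add]; ring
        _ ≤ X := h1
        _ ≤ 4 * X := by linarith
        _ ≤ Q * K := h2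
    have h4 : ((2 * P : ℕ) : ℝ) ≤ K := le_of_mul_le_mul_left h3 hQ0
    exact_mod_cast h4
  -- R * sqrt K ≤ W
  have hRM : R * Nat.sqrt K ≤ W := by
    have h1 : (Nat.sqrt K : ℝ) ^ 2 ≤ K := by
      rw [sq]; exact_mod_cast Nat.sqrt_le K
    have h2 : ((R : ℝ) * Nat.sqrt K) ^ 2 ≤ (W : ℝ) ^ 2 := by
      calc ((R : ℝ) * Nat.sqrt K) ^ 2 = (R : ℝ) ^ 2 * (Nat.sqrt K : ℝ) ^ 2 := by ring
        _ ≤ (2 * L ^ B) ^ 2 * (5 * X) := by
            refine mul_le_mul ?_ (h1.trans hK5X) (by positivity) (by positivity)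
            exact pow_le_pow_left₀ (Nat.cast_nonneg _) hRL2 2
        _ = (20 * L ^ (2 * B)) * X := by
            rw [show L ^ (2 * B) = (L ^ B) ^ 2 by rw [← pow_mul, mul_comm]]; ring
        _ ≤ (X : ℝ) ^ (2 * ε) * X := by gcongr
        _ = ((X : ℝ) ^ (1 / 2 + ε)) ^ 2 := by
            rw [← Real.rpow_natCast, ← Real.rpow_mul hX0.le]
            nth_rewrite 2 [← Real.rpow_one (X : ℝ)]
            rw [← Real.rpow_add hX0]
            congr 1
            push_cast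
            ring
        _ ≤ (W : ℝ) ^ 2 := pow_le_pow_left₀ (by positivity) hWin.1 2
    have h3 : (R : ℝ) * Nat.sqrt K ≤ W := le_of_sq_le_sq h2 (Nat.cast_nonneg _)
    exact_mod_cast h3
  have hDX : D ≤ X := by omega
  -- one modulus
  have hone : ∀ q ∈ Ico Q (2 * Q), TT W X {q} (fun _ => cc d i) K (fmin X R D) ≤
      W * (X : ℝ) ^ 2 / (Q : ℝ) ^ 2 / L ^ A := by
    intro q hq
    rw [mem_Ico] at hq
    have hq1 : 1 ≤ q := le_trans hQ1 hq.1
    have hq2Q : (q : ℝ) ≤ 2 * L ^ B₁ := by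
      have h1 : (q : ℝ) ≤ (2 * Q : ℕ) := by exact_mod_cast hq.2.le
      push_cast at h1
      linarith
    have hqK : q * K ≤ 16 * X := by
      have h1 : q * K ≤ 2 * Q * K := Nat.mul_le_mul_right _ hq.2.le
      have h2 : Q * K ≤ 5 * X := by exact_mod_cast hKQ
      have h3 : 2 * Q * K = 2 * (Q * K) := by ring
      omega
    have hqK' : 4 * X ≤ q * K := le_trans hQK.le (Nat.mul_le_mul_right _ hq.1)
    have hPq : 2 * P * q ≤ R := by
      have h1 : ((2 * P * q : ℕ) : ℝ) ≤ R := by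
        push_cast
        calc 2 * (P : ℝ) * q ≤ 2 * (2 * L ^ b) * (2 * L ^ B₁) := by gcongr
          _ = 8 * L ^ (b + B₁) := by rw [pow_add]; ring
          _ ≤ L * L ^ (b + B₁) := by gcongr; linarith
          _ = L ^ (b + B₁ + 1) := by rw [pow_succ]; ring
          _ ≤ L ^ B := pow_le_pow_right₀ hL1 (by omega)
          _ ≤ R := hRL
      exact_mod_cast h1
    have hUR : q * (2 * P * (2 * P) * d) ≤ R := by
      have h1 : ((q * (2 * P * (2 * P) * d) : ℕ) : ℝ) ≤ R := by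
        push_cast
        calc (q : ℝ) * (2 * P * (2 * P) * d)
            ≤ (2 * L ^ B₁) * (2 * (2 * L ^ b) * (2 * (2 * L ^ b)) * L ^ C₀) := by gcongr
          _ = 32 * L ^ (B₁ + b + b + C₀) := by simp only [pow_add]; ring
          _ ≤ L * L ^ (B₁ + b + b + C₀) := by gcongr; linarith
          _ = L ^ (B₁ + b + b + C₀ + 1) := by rw [pow_succ]; ring
          _ ≤ L ^ B := pow_le_pow_right₀ hL1 (by omega)
          _ ≤ R := hRL
      exact_mod_cast h1
    have hsplit := mr_split (W := W) (X := X) (d := d) (i := i) (K := K) (q := q) (U := 2 * P)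
      (g := fmin X R D) hd1
    have hI := mr_low (X := X) (W := W) (R := R) (D := D) (q := q) (K := K) (U := 2 * P) (d := d)
      (i := i) (by omega) hW1 (by omega) hXW2 hR1 hRD hD1 hD32 hq1 hUK hUX hi hL1
    have hII := mr_typeI (X := X) (W := W) (R := R) (D := D) (q := q) (K := K) (U := 2 * P)
      (d := d) (i := i) (by omega) hW1 hWX4 hR1 hRD hDW hq1 hd1 hqK hqK' hUR hi
    have hIII := mr_typeII (X := X) (W := W) (R := R) (D := D) (q := q) (Q := Q) (P := P)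
      (d := d) (i := i) (T := 2 * L) (by omega) hW1 hWX4 hR1 hRD hDW hQ1 hq.1 hP1 hPq hK4 hRM hqK
      (by linarith) hlogK hD1 hDX hi
    have hlog2X : 1 + Real.log (2 * X) ≤ 3 * L := by
      rw [Real.log_mul (by norm_num) hX0.ne']
      have : Real.log 2 ≤ 2 - 1 := Real.log_le_sub_one_of_pos (by norm_num)
      linarith
    have hr1 := mr_real1 (A := A) (b := b) (B₁ := B₁) (L := L) (C := mC0) (Q := Q)
      (U := ((2 * P : ℕ) : ℝ)) (W := W) (X := X) (l := 1 + Real.log (2 * X)) hL1 mC0_pos.le hQ0 hQL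
      (Nat.cast_nonneg _) hU4 (Nat.cast_nonneg _) hX0.le
      (by
        have h2X : (1 : ℝ) ≤ 2 * X := by
          have : (10 : ℝ) ≤ X := by exact_mod_cast hX10
          linarith
        have := Real.log_nonneg h2X
        linarith) hlog2X
      (le_trans (by
        have h0 : 0 ≤ L ^ (b + 4 + 2 * B₁ + A) := by positivity
        nlinarith) h34)
    have hr2 := mr_real2 (A := A) (b := b) (B₁ := B₁) (C₀ := C₀) (B := B) (L := L) (C := mC1)
      (Q := Q) (U := ((2 * P : ℕ) : ℝ)) (W := W) (X := X) (K := K) (R := R) (d := d) hL1 mC1_pos.le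
      hQ0 hQL (Nat.cast_nonneg _) hU4 (Nat.cast_nonneg _) hdL hK0.le hK5 hRL (Nat.cast_nonneg _)
      hX0.le (by omega) hLc1
    have hr3 := mr_real3 (A := A) (L := L) (C := mC2) (Q := Q) (q := q) (W := W) (X := X) (K := K)
      (P := P) (J := ((Nat.log 2 K + 1 : ℕ) : ℝ)) (H := Hs K) hL1 mC2_pos.le hQ0
      (by exact_mod_cast hq.1) hK0.le hK5 hPlow (Nat.cast_nonneg _) hJ (Hs_nonneg K) hHs
      (Nat.cast_nonneg _) hX0.le hLc2
    have hIII' : 4 * TT W X {q} (fun _ k => cv (aII d (2 * P)) (bII d (2 * P)) k *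
        ((Real.log k ^ i : ℝ) : ℂ)) K (fmin X R D) ≤ W * (X : ℝ) ^ 2 / (Q : ℝ) ^ 2 / L ^ A / 3 :=
      le_trans (mul_le_mul_of_nonneg_left hIII (by norm_num)) hr3
    have hII' := le_trans (mul_le_mul_of_nonneg_left hII (by norm_num : (0 : ℝ) ≤ 4)) hr2
    have hI' := le_trans (mul_le_mul_of_nonneg_left hI (by norm_num : (0 : ℝ) ≤ 8)) hr1
    linarith
  rw [TT_eq_sum]
  calc ∑ q ∈ Ico Q (2 * Q), TT W X {q} (fun _ => cc d i) K (fmin X R D)
      ≤ ∑ q ∈ Ico Q (2 * Q), W * (X : ℝ) ^ 2 / (Q : ℝ) ^ 2 / L ^ A := Finset.sum_le_sum hone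
    _ = Bd A X W Q := by
        rw [Finset.sum_const, Nat.card_Ico, nsmul_eq_mul, show 2 * Q - Q = Q by omega]
        unfold Bd
        rw [← hLdef]
        field_simp

end Pool.Agent.SInt
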