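import Pool.Agent.SInt.Ineq1
import Pool.Agent.SInt.W1b
import Pool.Agent.SInt.MinGen
import Pool.Agent.SInt.Asy

open Finset Complex
open scoped ArithmeticFunction.Moebius ArithmeticFunction.vonMangoldt

namespace Pool.Agent.SInt

open Pool.Agent.ANT

/-- the final numerical comparison -/
private theorem MinR2_num {L X W Q K P R l₁ l₂ : ℝ} {A B : ℕ} (hL : 1000 ≤ L) (hX : 1 ≤ X)
    (hW : 1 ≤ W) (hQ : 1 ≤ Q) (hK : K ≤ 5 * X / Q) (hP : L ^ (A + 6) / 2 ≤ P)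
    (hR : L ^ B ≤ R) (hB : A + 6 ≤ B) (hl₁ : l₁ ≤ L) (hl₁' : 0 ≤ l₁) (hl₂' : 0 ≤ l₂)
    (hl₂ : l₂ ≤ 1 + L) :
    (40 * (1 + l₁) / P + 400 / R ^ 2) * (12 * L ^ 2 * K * W) * (12 * X * (1 + l₂)) ≤
      W * X ^ 2 / Q / L ^ A := by
  have hL0 : (0 : ℝ) < L := by linarith
  have hX0 : (0 : ℝ) < X := by linarith
  have hW0 : (0 : ℝ) < W := by linarith
  have hQ0 : (0 : ℝ) < Q := by linarith
  have hLp : 0 < L ^ (A + 6) := by positivity
  have hP0 : 0 < P := by linarith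
  have hLB : L ^ (A + 6) ≤ R := (pow_le_pow_right₀ (by linarith) hB).trans hR
  have hL1 : 1 ≤ L ^ (A + 6) := one_le_pow₀ (by linarith)
  have hR0 : 1 ≤ R := hL1.trans hLB
  have e1 : 40 * (1 + l₁) / P ≤ 160 * L / L ^ (A + 6) := by
    rw [div_le_div_iff₀ hP0 hLp]
    have h1 : 40 * (1 + l₁) ≤ 80 * L := by linarith
    calc 40 * (1 + l₁) * L ^ (A + 6) ≤ 80 * L * L ^ (A + 6) :=
          mul_le_mul_of_nonneg_right h1 hLp.le
      _ = 160 * L * (L ^ (A + 6) / 2) := by ring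
      _ ≤ 160 * L * P := mul_le_mul_of_nonneg_left hP (by positivity)
  have e2 : 400 / R ^ 2 ≤ 400 * L / L ^ (A + 6) := by
    rw [div_le_div_iff₀ (by positivity) hLp]
    have h1 : L ^ (A + 6) ≤ R ^ 2 := by nlinarith
    have h2 : 1 * R ^ 2 ≤ L * R ^ 2 := mul_le_mul_of_nonneg_right (by linarith) (by positivity)
    nlinarith
  have e3 : 40 * (1 + l₁) / P + 400 / R ^ 2 ≤ 560 * L / L ^ (A + 6) := by
    have : 160 * L / L ^ (A + 6) + 400 * L / L ^ (A + 6) = 560 * L / L ^ (A + 6) := by ring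
    linarith
  have e4 : 12 * L ^ 2 * K * W ≤ 60 * L ^ 2 * X * W / Q := by
    calc 12 * L ^ 2 * K * W = 12 * L ^ 2 * W * K := by ring
      _ ≤ 12 * L ^ 2 * W * (5 * X / Q) := mul_le_mul_of_nonneg_left hK (by positivity)
      _ = 60 * L ^ 2 * X * W / Q := by ring
  have e5 : 12 * X * (1 + l₂) ≤ 24 * X * L := by
    nlinarith
  have n1 : 0 ≤ 40 * (1 + l₁) / P + 400 / R ^ 2 := by positivity
  have n3 : 0 ≤ 12 * X * (1 + l₂) := by positivity
  calc (40 * (1 + l₁) / P + 400 / R ^ 2) * (12 * L ^ 2 * K * W) * (12 * X * (1 + l₂))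
      ≤ (40 * (1 + l₁) / P + 400 / R ^ 2) * (60 * L ^ 2 * X * W / Q) * (12 * X * (1 + l₂)) :=
        mul_le_mul_of_nonneg_right (mul_le_mul_of_nonneg_left e4 n1) n3
    _ ≤ (560 * L / L ^ (A + 6)) * (60 * L ^ 2 * X * W / Q) * (24 * X * L) := by
        apply mul_le_mul (mul_le_mul_of_nonneg_right e3 (by positivity)) e5 n3 (by positivity)
    _ = 806400 / L ^ 2 * (W * X ^ 2 / Q / L ^ A) := by
        have : L ^ (A + 6) = L ^ A * L ^ 6 := pow_add _ _ _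
        rw [this]
        field_simp
        ring
    _ ≤ 1 * (W * X ^ 2 / Q / L ^ A) := by
        apply mul_le_mul_of_nonneg_right _ (by positivity)
        rw [div_le_one (by positivity)]
        nlinarith
    _ = W * X ^ 2 / Q / L ^ A := one_mul _

/-- Minor arcs, medium moduli: arbitrary coefficients. -/
theorem minR2 {ε : ℝ} (hε : 0 < ε) (A : ℕ) : ∃ B₁ : ℕ, ∀ B : ℕ, B₁ ≤ B → ∃ X₀ : ℕ, ∀ X : ℕ, X₀ ≤ X →
    ∀ W : ℕ, Win ε X W → ∀ Q : ℕ, Real.log X ^ B₁ ≤ Q → (Q : ℝ) * Real.log X ^ B₁ ≤ W →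
    ∀ c : ℕ → ℂ, (∀ k ∈ Icc 1 (KK X Q), ‖c k‖ ≤ 2 * Real.log X) →
    TT W X (Ico Q (2 * Q)) (fun _ => c) (KK X Q) (fmin X (RR B X) (DD B X W)) ≤ Bd A X W Q := by
  refine ⟨A + 6, fun B hB => ?_⟩
  obtain ⟨X₁, hX₁⟩ := win_facts ε hε B
  obtain ⟨X₂, hX₂⟩ : ∃ X₂ : ℕ, ∀ X : ℕ, X₂ ≤ X → 1000 ≤ Real.log X := by
    have h := (Real.tendsto_log_atTop.comp
      (tendsto_natCast_atTop_atTop (R := ℝ))).eventually_ge_atTop 1000
    exact Filter.eventually_atTop.1 h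
  refine ⟨max (max X₁ X₂) 1, fun X hX W hWin Q hQ1 hQ2 c hc => ?_⟩
  have hXa : X₁ ≤ X := le_trans (le_trans (le_max_left _ _) (le_max_left _ _)) hX
  have hXb : X₂ ≤ X := le_trans (le_trans (le_max_right _ _) (le_max_left _ _)) hX
  have hX1 : 1 ≤ X := le_trans (le_max_right _ _) hX
  obtain ⟨hW1, hWX, -, hR1, hR2, -, hR4, hD1, hD2, -, -, hD5⟩ := hX₁ X hXa W hWin
  have hL : 1000 ≤ Real.log X := hX₂ X hXb
  set L := Real.log X with hLdef
  set R := RR B X with hRdef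
  set D := DD B X W with hDdef
  have hL0 : (0 : ℝ) < L := by linarith
  have hLB₁ : (2 : ℝ) ≤ L ^ (A + 6) := by
    calc (2 : ℝ) ≤ L := by linarith
      _ = L ^ 1 := (pow_one _).symm
      _ ≤ L ^ (A + 6) := pow_le_pow_right₀ (by linarith) (by omega)
  -- the modulus
  have hQpos : 1 ≤ Q := by
    have : (1 : ℝ) ≤ Q := by linarith
    exact_mod_cast this
  have hQW : Q ≤ W := by
    have h1 : (Q : ℝ) * 1 ≤ Q * L ^ (A + 6) :=
      mul_le_mul_of_nonneg_left (by linarith) (Nat.cast_nonneg _)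
    have h2 : (Q : ℝ) ≤ W := by linarith
    exact_mod_cast h2
  have hQr : (1 : ℝ) ≤ Q := by exact_mod_cast hQpos
  have hWr : (1 : ℝ) ≤ W := by exact_mod_cast hW1
  have hXr : (1 : ℝ) ≤ X := by exact_mod_cast hX1
  have hWXr : (4 : ℝ) * W ≤ X := by exact_mod_cast hWX
  have hQWr : (Q : ℝ) ≤ W := by exact_mod_cast hQW
  -- the parameter P
  set P := ⌊L ^ (A + 6)⌋₊ with hPdef
  have hP1 : (P : ℝ) ≤ L ^ (A + 6) := Nat.floor_le (by positivity)
  have hP2 : L ^ (A + 6) / 2 ≤ P := by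
    have := Nat.lt_floor_add_one (L ^ (A + 6))
    rw [← hPdef] at this
    linarith
  have hPpos : 1 ≤ P := by
    have : (1 : ℝ) ≤ P := by linarith
    exact_mod_cast this
  have hPQ : P ≤ Q := by
    have : (P : ℝ) ≤ Q := hP1.trans hQ1
    exact_mod_cast this
  have hPQW : P * Q ≤ W := by
    have : (P : ℝ) * Q ≤ W := by
      calc (P : ℝ) * Q ≤ L ^ (A + 6) * Q := mul_le_mul_of_nonneg_right hP1 (Nat.cast_nonneg _)
        _ = Q * L ^ (A + 6) := mul_comm _ _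
        _ ≤ W := hQ2
    exact_mod_cast this
  have hPR : P ≤ R := by
    have : (P : ℝ) ≤ R := hP1.trans ((pow_le_pow_right₀ (by linarith) hB).trans hR2)
    exact_mod_cast this
  have hPr : (1 : ℝ) ≤ P := by exact_mod_cast hPpos
  -- K
  have hKn : KK X Q * Q ≤ 4 * X + Q := by
    unfold KK
    rw [add_mul, one_mul]
    have := Nat.div_mul_le_self (4 * X) Q
    omega
  have hKr : (KK X Q : ℝ) ≤ 5 * X / Q := by
    rw [le_div_iff₀ (by linarith)]
    have h1 : (KK X Q : ℝ) * Q ≤ 4 * X + Q := by exact_mod_cast hKn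
    linarith
  -- step 1
  have hY : X + W ≤ 32 * X := by omega
  have hS : ∀ q ∈ Ico Q (2 * Q), q * KK X Q ≤ 32 * X := by
    intro q hq
    rw [Finset.mem_Ico] at hq
    calc q * KK X Q ≤ (2 * Q) * KK X Q := Nat.mul_le_mul_right _ hq.2.le
      _ = 2 * (KK X Q * Q) := by ring
      _ ≤ 2 * (4 * X + Q) := Nat.mul_le_mul_left _ hKn
      _ ≤ 32 * X := by omega
  have hg : ∀ n : ℤ, ((32 * X : ℕ) : ℤ) < |n| → fmin X R D n = 0 := by
    intro n hn
    apply fmin_zero hD2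
    push_cast at hn
    have hD5' : (2 : ℤ) * X + D ≤ 32 * X := by exact_mod_cast hD5
    have hX0 : (0 : ℤ) ≤ X := Int.natCast_nonneg _
    rcases lt_abs.1 hn with h | h
    · right; linarith
    · left; linarith
  have s1 := ineq1 (W := W) (X := X) (K := KK X Q) (Y := 32 * X) (M := 4 * (32 * X) + 1) hW1
    (by omega) hY (by omega) (Ico Q (2 * Q)) hS (fun _ => c) (fmin X R D) hg
  refine s1.trans ?_
  -- step 2: the weight
  have hc2 : ∑ k ∈ Icc 1 (KK X Q), ‖c k‖ ^ 2 ≤ 4 * L ^ 2 * (KK X Q : ℝ) := by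
    calc ∑ k ∈ Icc 1 (KK X Q), ‖c k‖ ^ 2 ≤ ∑ k ∈ Icc 1 (KK X Q), (2 * L) ^ 2 :=
          Finset.sum_le_sum fun k hk => pow_le_pow_left₀ (norm_nonneg _) (hc k hk) 2
      _ = 4 * L ^ 2 * (KK X Q : ℝ) := by
          rw [Finset.sum_const, Nat.card_Icc, nsmul_eq_mul]
          simp only [Nat.add_sub_cancel]
          ring
  have hImg : (Ico Q (2 * Q)).image (fun m => 1 * m) = Ico Q (2 * Q) := by
    simp
  have hwt : ∀ α : ℝ, W1 W (Ico Q (2 * Q)) (fun _ => c) (KK X Q) α ≤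
      4 * L ^ 2 * (KK X Q : ℝ) * LS (W / Q) Q α := by
    intro α
    have h := W1_le (W := W) (U := Q) (q := 1) hW1 hQpos le_rfl c (KK X Q) α
    rw [hImg] at h
    simp only [one_mul, Nat.cast_one] at h
    exact h.trans (mul_le_mul_of_nonneg_right hc2 (Fy_nonneg' (by linarith) α _))
  have s2 : 1 / ((4 * (32 * X) + 1 : ℕ) : ℝ) * ∑ j ∈ range (4 * (32 * X) + 1),
      ‖gh (32 * X) (fmin X R D) ((j : ℝ) / ((4 * (32 * X) + 1 : ℕ) : ℝ))‖ ^ 2 *
        W1 W (Ico Q (2 * Q)) (fun _ => c) (KK X Q) ((j : ℝ) / ((4 * (32 * X) + 1 : ℕ) : ℝ)) ≤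
      1 / ((4 * (32 * X) + 1 : ℕ) : ℝ) * ∑ j ∈ range (4 * (32 * X) + 1),
      ‖gh (32 * X) (fmin X R D) ((j : ℝ) / ((4 * (32 * X) + 1 : ℕ) : ℝ))‖ ^ 2 *
        (4 * L ^ 2 * (KK X Q : ℝ) * LS (W / Q) Q ((j : ℝ) / ((4 * (32 * X) + 1 : ℕ) : ℝ))) := by
    apply mul_le_mul_of_nonneg_left _ (by positivity)
    exact Finset.sum_le_sum fun j _ => mul_le_mul_of_nonneg_left (hwt _) (by positivity)
  refine s2.trans ?_
  -- step 3, 4: the bounds for the weight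
  have hC0 : 0 ≤ 4 * L ^ 2 * (KK X Q : ℝ) := by positivity
  have hZ : W / Q * Q ≤ W := Nat.div_mul_le_self W Q
  have hZr : ((W / Q : ℕ) : ℝ) * Q ≤ W := by exact_mod_cast hZ
  have hT : ∀ α : ℝ, 4 * L ^ 2 * (KK X Q : ℝ) * LS (W / Q) Q α ≤ 12 * L ^ 2 * (KK X Q : ℝ) * W := by
    intro α
    have h1 := LS_triv (W / Q) (V := (Q : ℝ)) (by linarith) α
    have h2 : (2 * ((W / Q : ℕ) : ℝ) + 1) * Q ≤ 3 * W := by nlinarith
    calc 4 * L ^ 2 * (KK X Q : ℝ) * LS (W / Q) Q α ≤ 4 * L ^ 2 * (KK X Q : ℝ) * (3 * W) :=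
          mul_le_mul_of_nonneg_left (h1.trans h2) hC0
      _ = 12 * L ^ 2 * (KK X Q : ℝ) * W := by ring
  have hlogW0 : 0 ≤ Real.log W := Real.log_nonneg hWr
  have hlogW : Real.log W ≤ L := Real.log_le_log (by linarith) (by linarith)
  have halt : ∀ α : ℝ, 4 * L ^ 2 * (KK X Q : ℝ) * LS (W / Q) Q α ≤
        (40 * (1 + Real.log W) / P) * (12 * L ^ 2 * (KK X Q : ℝ) * W) ∨
      ∃ (r : ℕ) (a : ℤ), 1 ≤ r ∧ r ≤ R ∧ IsCoprime a (r : ℤ) ∧ |α - a / r| ≤ (R : ℝ) / W := by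
    intro α
    rcases LS_alt α (P := P) (V := Q) (Z := W / Q) (T := W) hPpos hPQ hPQW hZ with h | h
    · left
      calc 4 * L ^ 2 * (KK X Q : ℝ) * LS (W / Q) Q α
          ≤ 4 * L ^ 2 * (KK X Q : ℝ) * (100 * (1 + Real.log W) * W / P) :=
            mul_le_mul_of_nonneg_left h hC0
        _ = (100 / 3 * (1 + Real.log W) / P) * (12 * L ^ 2 * (KK X Q : ℝ) * W) := by ring
        _ ≤ (40 * (1 + Real.log W) / P) * (12 * L ^ 2 * (KK X Q : ℝ) * W) := by
            apply mul_le_mul_of_nonneg_right _ (by positivity)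
            apply div_le_div_of_nonneg_right _ (by linarith)
            apply mul_le_mul_of_nonneg_right (by norm_num) (by linarith)
    · right
      obtain ⟨r, a, h1, h2, h3, h4⟩ := h
      refine ⟨r, a, h1, by omega, h3, h4.trans ?_⟩
      have hr : (1 : ℝ) ≤ r := by exact_mod_cast h1
      have hPR' : (P : ℝ) ≤ R := by exact_mod_cast hPR
      rw [div_le_div_iff₀ (by positivity) (by linarith)]
      have hR0 : (0 : ℝ) ≤ R := Nat.cast_nonneg _
      calc (P : ℝ) * W ≤ R * W := mul_le_mul_of_nonneg_right hPR' (by linarith)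
        _ = R * (1 * W) := by ring
        _ ≤ R * (r * W) := by
            apply mul_le_mul_of_nonneg_left _ hR0
            exact mul_le_mul_of_nonneg_right hr (by linarith)
  -- step 5
  have s3 := min_gen (X := X) (R := R) (D := D) (Y := 32 * X) (M := 4 * (32 * X) + 1) (W := W) hX1 hR1
    hR4 hD1 hD5 (by omega) (fun α => 4 * L ^ 2 * (KK X Q : ℝ) * LS (W / Q) Q α)
    (T := 12 * L ^ 2 * (KK X Q : ℝ) * W) (δ := 40 * (1 + Real.log W) / P)
    (by positivity) (div_nonneg (by linarith) (by linarith))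
    (fun α => mul_nonneg hC0 (Fy_nonneg' (by linarith) α _)) hT halt
  refine s3.trans ?_
  unfold Bd
  have hl2 : Real.log (2 * X) = Real.log 2 + L := Real.log_mul (by norm_num) (by linarith)
  have hlog2 : Real.log 2 ≤ 1 := by
    have := Real.log_two_lt_d9
    linarith
  have hlog2' : 0 ≤ Real.log 2 := Real.log_nonneg (by norm_num)
  exact MinR2_num hL hXr hWr hQr hKr hP2 hR2 hB hlogW hlogW0 (by rw [hl2]; linarith)
    (by rw [hl2]; linarith)

end Pool.Agent.SInt
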