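import Pool.Agent.SInt.Ineq2
import Pool.Agent.SInt.W1b
import Pool.Agent.SInt.MinGen
import Pool.Agent.SInt.Asy
import Pool.Agent.SInt.Norm

open Finset Complex
open scoped ArithmeticFunction.Moebius ArithmeticFunction.vonMangoldt

namespace Pool.Agent.SInt

open Pool.Agent.ANT

private noncomputable def MinR3_blk (K : ℕ) (c : ℕ → ℂ) (j k : ℕ) : ℂ :=
  if k ∈ Icc 1 K ∧ 2 ^ j ≤ k ∧ k < 2 ^ (j + 1) then c k else 0

private lemma MinR3_sum {K : ℕ} (c : ℕ → ℂ) {k : ℕ} (hk : k ∈ Icc 1 K) :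
    c k = ∑ j ∈ range (Nat.log 2 K + 1), MinR3_blk K c j k := by
  have hk' := Finset.mem_Icc.1 hk
  have hk0 : k ≠ 0 := by omega
  rw [Finset.sum_eq_single (Nat.log 2 k)]
  · unfold MinR3_blk
    rw [if_pos ⟨hk, Nat.pow_log_le_self 2 hk0, Nat.lt_pow_succ_log_self (by norm_num) k⟩]
  · intro j _ hj
    unfold MinR3_blk
    rw [if_neg]
    rintro ⟨_, h1, h2⟩
    exact hj (Nat.log_eq_of_pow_le_of_lt_pow h1 h2).symm
  · intro h
    exact absurd (Finset.mem_range.2 (Nat.lt_succ_of_le (Nat.log_mono_right hk'.2))) h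

private lemma MinR3_supp (K : ℕ) (c : ℕ → ℂ) (j : ℕ) : ∀ k, k ∉ Ico (2 ^ j) (2 * 2 ^ j) →
    MinR3_blk K c j k = 0 := by
  intro k hk
  unfold MinR3_blk
  rw [if_neg]
  rintro ⟨_, h1, h2⟩
  rw [pow_succ, mul_comm] at h2
  exact hk (Finset.mem_Ico.2 ⟨h1, h2⟩)

private lemma MinR3_bd {K : ℕ} {c : ℕ → ℂ} {b : ℝ} (hb : 0 ≤ b) (hc : ∀ k ∈ Icc 1 K, ‖c k‖ ≤ b) (j k : ℕ) :
    ‖MinR3_blk K c j k‖ ≤ b := by
  unfold MinR3_blk
  split_ifs with h
  · exact hc k h.1
  · simpa using hb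

private lemma MinR3_log {X : ℕ} (hL : 2 ≤ Real.log X) : 1 + Real.log (2 * X) ≤ 2 * Real.log X := by
  have hX : (0 : ℝ) < X := by
    by_contra h
    have h0 : (X : ℝ) = 0 := le_antisymm (not_lt.1 h) (Nat.cast_nonneg _)
    rw [h0, Real.log_zero] at hL
    linarith
  rw [Real.log_mul (by norm_num) hX.ne']
  have h2 : Real.log 2 ≤ 2 - 1 := Real.log_le_sub_one_of_pos (by norm_num)
  linarith

private lemma MinR3_three {X : ℕ} (hL : 2 ≤ Real.log X) : 3 ≤ X := by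
  by_contra h
  have h1 : X ≤ 2 := by omega
  have h2 : (X : ℝ) ≤ 2 := by exact_mod_cast h1
  rcases Nat.eq_zero_or_pos X with h0 | h0
  · rw [h0, Nat.cast_zero, Real.log_zero] at hL
    linarith
  · have h3 : (0 : ℝ) < X := by exact_mod_cast h0
    have := Real.log_le_sub_one_of_pos h3
    linarith

private lemma MinR3_fz {X R D : ℕ} (hD1 : 1 ≤ D) (hDX : D ≤ X) {n : ℤ} (hn : ((32 * X : ℕ) : ℤ) < |n|) :
    fmin X R D n = 0 := by
  refine fmin_zero hD1 ?_
  push_cast at hn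
  have h1 : (D : ℤ) ≤ X := by exact_mod_cast hDX
  have h2 : (0 : ℤ) ≤ X := Int.natCast_nonneg X
  rcases lt_abs.1 hn with h | h
  · right
    linarith
  · left
    linarith

/-- small blocks -/
private theorem MinR3_small {C0 : ℝ} (hC0 : 0 < C0)
    (H : ∀ (W X K Y : ℕ) (S : Finset ℕ) (c : ℕ → ℕ → ℂ) (B : ℝ) (g : ℤ → ℂ),
      3 ≤ X → 1 ≤ W → W ≤ X → X ≤ W ^ 2 → Y ≤ 32 * X → 0 ≤ B → (∀ q ∈ S, 1 ≤ q) →
      (∀ q ∈ S, ∀ k ∈ Icc 1 K, ‖c q k‖ ≤ B) → (∀ n : ℤ, (Y : ℤ) < |n| → g n = 0) →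
      TT W X S c K g ≤ C0 * B ^ 2 * K * W * Real.log X * ∑ n ∈ Icc (-(Y : ℤ)) Y, ‖g n‖ ^ 2)
    {A X W Q R D K V : ℕ} {c : ℕ → ℂ} (hL : 2 ≤ Real.log X) (hLC : 960 * C0 ≤ Real.log X)
    (hW1 : 1 ≤ W) (hWX : 4 * W ≤ X) (hXW : X ≤ W ^ 2) (hR : 1 ≤ R) (hRD : R ^ 4 ≤ D) (hD1 : 1 ≤ D)
    (hDW : D ≤ W) (hQ : 1 ≤ Q) (hK : (K : ℝ) ≤ 5 * X / Q)
    (hV : (V : ℝ) * Real.log X ^ (A + 8) ≤ K) (hc : ∀ k, ‖c k‖ ≤ 2 * Real.log X)
    (hc0 : ∀ k, 2 * V < k → c k = 0) :
    TT W X (Ico Q (2 * Q)) (fun _ => c) K (fmin X R D) ≤ W * (X : ℝ) ^ 2 / Q / Real.log X ^ (A + 3) := by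
  have hX3 := MinR3_three hL
  have hlog := MinR3_log hL
  set L := Real.log X with hLdef
  have hL0 : 0 < L := by linarith
  have hL1 : 1 ≤ L := by linarith
  have hQ0 : (0 : ℝ) < Q := by exact_mod_cast hQ
  have hX0 : (0 : ℝ) < X := by
    have : 0 < X := by omega
    exact_mod_cast this
  have hV0 : (0 : ℝ) ≤ V := Nat.cast_nonneg _
  have hW0 : (0 : ℝ) ≤ W := Nat.cast_nonneg _
  have hpow2 : 2 ≤ L ^ (A + 8) := by
    calc (2 : ℝ) ≤ L := hL
      _ = L ^ 1 := (pow_one _).symm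
      _ ≤ L ^ (A + 8) := pow_le_pow_right₀ hL1 (by omega)
  have h2V : 2 * V ≤ K := by
    have : (2 : ℝ) * V ≤ K := by
      calc (2 : ℝ) * V = V * 2 := mul_comm _ _
        _ ≤ V * L ^ (A + 8) := mul_le_mul_of_nonneg_left hpow2 hV0
        _ ≤ K := hV
    exact_mod_cast this
  rw [TT_shrink h2V (fun q _ k hk => hc0 k hk)]
  have h1 := H W X (2 * V) (32 * X) (Ico Q (2 * Q)) (fun _ => c) (2 * L) (fmin X R D) hX3 hW1
    (by omega) hXW le_rfl (by linarith) (fun q hq => le_trans hQ (Finset.mem_Ico.1 hq).1)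
    (fun q _ k _ => hc k) (fun n hn => MinR3_fz hD1 (by omega) hn)
  have h2 := fmin_norm (X := X) (R := R) (D := D) (Y := 32 * X) (by omega) hR hRD (by omega)
  have h3 : (12 : ℝ) * X * (1 + Real.log (2 * X)) ≤ 24 * X * L := by
    have : (12 : ℝ) * X * (1 + Real.log (2 * X)) ≤ 12 * X * (2 * L) :=
      mul_le_mul_of_nonneg_left hlog (by positivity)
    linarith
  have h4 : (V : ℝ) ≤ 5 * X / Q / L ^ (A + 8) := by
    rw [le_div_iff₀ (by positivity)]
    exact hV.trans hK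
  refine h1.trans ?_
  push_cast
  calc C0 * (2 * L) ^ 2 * (2 * V) * W * L * ∑ n ∈ Icc (-((32 : ℤ) * X)) (32 * X), ‖fmin X R D n‖ ^ 2
      ≤ C0 * (2 * L) ^ 2 * (2 * V) * W * L * (24 * X * L) := by
        refine mul_le_mul_of_nonneg_left ?_ (by positivity)
        have h5 := h2.trans h3
        push_cast at h5
        exact h5
    _ = (192 * C0 * W * X * L ^ 4) * V := by ring
    _ ≤ (192 * C0 * W * X * L ^ 4) * (5 * X / Q / L ^ (A + 8)) :=
        mul_le_mul_of_nonneg_left h4 (by positivity)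
    _ = (960 * C0) * (W * (X : ℝ) ^ 2 / Q / L ^ (A + 4)) := by
        rw [show A + 8 = (A + 4) + 4 by ring, pow_add]
        field_simp
        ring
    _ ≤ L * (W * (X : ℝ) ^ 2 / Q / L ^ (A + 4)) := mul_le_mul_of_nonneg_right hLC (by positivity)
    _ = W * (X : ℝ) ^ 2 / Q / L ^ (A + 3) := by
        rw [show A + 4 = (A + 3) + 1 by ring, pow_succ]
        field_simp
        ring

/-- large blocks -/
private theorem MinR3_big {A X W Q R D K V : ℕ} {c : ℕ → ℂ} (hL : 2304000 ≤ Real.log X)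
    (hW1 : 1 ≤ W) (hWX : 4 * W ≤ X) (hR : 1 ≤ R) (hRL : Real.log X ^ (A + 9) ≤ R)
    (hRD : R ^ 4 ≤ D) (hDR : D * R ^ 2 ≤ W) (hD1 : 1 ≤ D)
    (hDW : D ≤ W) (hQ : 1 ≤ Q) (hQX : Q ≤ X) (hQK : Q * K ≤ 5 * X) (hK : (K : ℝ) ≤ 5 * X / Q)
    (hK4 : 4 * (X : ℝ) / Q ≤ K) (hXQ : Real.log X ^ (2 * A + 16) ≤ (X : ℝ) / Q)
    (hQW : (X : ℝ) * Real.log X ^ (A + 9) ≤ (Q : ℝ) * W)
    (hVK : V ≤ K) (hV : (K : ℝ) < V * Real.log X ^ (A + 8)) (hc : ∀ k, ‖c k‖ ≤ 2 * Real.log X)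
    (hc0 : ∀ k, k ∉ Ico V (2 * V) → c k = 0) :
    TT W X (Ico Q (2 * Q)) (fun _ => c) K (fmin X R D) ≤ W * (X : ℝ) ^ 2 / Q / Real.log X ^ (A + 3) := by
  have hX3 := MinR3_three (X := X) (by linarith)
  have hlog := MinR3_log (X := X) (by linarith)
  set L := Real.log X with hLdef
  have hL0 : 0 < L := by linarith
  have hL1 : 1 ≤ L := by linarith
  have hQ0 : (0 : ℝ) < Q := by exact_mod_cast hQ
  have hX0 : (0 : ℝ) < X := by
    have : 0 < X := by omega
    exact_mod_cast this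
  have hW0 : (0 : ℝ) < W := by exact_mod_cast hW1
  have hR0 : (0 : ℝ) < R := by exact_mod_cast hR
  have hLp : (0 : ℝ) < L ^ (A + 8) := by positivity
  have hLp1 : 1 ≤ L ^ (A + 8) := one_le_pow₀ hL1
  -- the parameter `P`
  obtain ⟨P, hPdef⟩ : ∃ P : ℕ, P = ⌊L ^ (A + 8)⌋₊ := ⟨_, rfl⟩
  have hP1 : 1 ≤ P := by
    rw [hPdef]
    exact Nat.one_le_floor_iff _ |>.2 hLp1
  have hPle : (P : ℝ) ≤ L ^ (A + 8) := by
    rw [hPdef]
    exact Nat.floor_le hLp.le
  have hPge : L ^ (A + 8) ≤ 2 * P := by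
    have h1 : L ^ (A + 8) < P + 1 := by
      rw [hPdef]
      exact Nat.lt_floor_add_one _
    have h2 : (1 : ℝ) ≤ P := by exact_mod_cast hP1
    linarith
  have hP0 : (0 : ℝ) < P := by exact_mod_cast hP1
  have hVgt : 4 * L ^ (A + 8) < V := by
    have h1 : 4 * (L ^ (A + 8) * L ^ (A + 8)) < V * L ^ (A + 8) := by
      calc 4 * (L ^ (A + 8) * L ^ (A + 8)) = 4 * L ^ (2 * A + 16) := by
            rw [← pow_add]
            congr 2
            ring
        _ ≤ 4 * ((X : ℝ) / Q) := by linarith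
        _ = 4 * (X : ℝ) / Q := by ring
        _ ≤ K := hK4
        _ < _ := hV
    have h2 : (4 * L ^ (A + 8)) * L ^ (A + 8) < V * L ^ (A + 8) := by linarith
    exact lt_of_mul_lt_mul_right h2 hLp.le
  have hV0 : (0 : ℝ) < V := by linarith
  have hV1 : 1 ≤ V := by exact_mod_cast (by exact_mod_cast hV0 : 0 < V)
  have hPV : P ≤ V := by
    have : (P : ℝ) ≤ V := by linarith
    exact_mod_cast this
  have hXQW : (X : ℝ) / Q ≤ W / L ^ (A + 9) := by
    rw [div_le_div_iff₀ hQ0 (by positivity)]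
    linarith
  have hPVW : P * V ≤ W := by
    have h1 : (P : ℝ) * V ≤ W := by
      calc (P : ℝ) * V ≤ L ^ (A + 8) * (5 * X / Q) := by
            refine mul_le_mul hPle ?_ hV0.le hLp.le
            exact (by exact_mod_cast hVK : (V : ℝ) ≤ K).trans hK
        _ = 5 * L ^ (A + 8) * ((X : ℝ) / Q) := by ring
        _ ≤ 5 * L ^ (A + 8) * (W / L ^ (A + 9)) := mul_le_mul_of_nonneg_left hXQW (by positivity)
        _ = 5 * W / L := by
            rw [show A + 9 = (A + 8) + 1 by ring, pow_succ]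
            field_simp
            ring
        _ ≤ W := by
            rw [div_le_iff₀ hL0]
            nlinarith
    exact_mod_cast h1
  have hVW : V ≤ W := le_trans (Nat.le_mul_of_pos_left V hP1) hPVW
  have hVWr : (V : ℝ) ≤ W := by exact_mod_cast hVW
  have hlogW : 1 + Real.log W ≤ 2 * L := by
    have h1 : Real.log W ≤ L := by
      refine Real.log_le_log hW0 ?_
      have : W ≤ X := by omega
      exact_mod_cast this
    linarith
  have hlogW0 : 0 ≤ 1 + Real.log W := by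
    have := Real.log_nonneg (by exact_mod_cast hW1 : (1 : ℝ) ≤ W)
    linarith
  -- normalise
  have h2L : (0 : ℝ) < 2 * L := by linarith
  have hcc : (fun _ : ℕ => c) = fun _ k => ((2 * L : ℝ) : ℂ) * ((fun _ : ℕ => fun k => c k / ((2 * L : ℝ) : ℂ)) 0 k) := by
    funext _ k
    have : ((2 * L : ℝ) : ℂ) ≠ 0 := by exact_mod_cast h2L.ne'
    simp only
    field_simp
  have hsm : TT W X (Ico Q (2 * Q)) (fun _ => c) K (fmin X R D) =
      (2 * L) ^ 2 * TT W X (Ico Q (2 * Q)) (fun _ k => c k / ((2 * L : ℝ) : ℂ)) K (fmin X R D) := by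
    have h1 := TT_smul_c (W := W) (X := X) (K := K) (S := Ico Q (2 * Q)) (g := fmin X R D)
      (c := fun _ k => c k / ((2 * L : ℝ) : ℂ)) ((2 * L : ℝ) : ℂ)
    rw [Complex.norm_real, Real.norm_eq_abs, abs_of_pos h2L] at h1
    rw [← h1]
    congr 1
  have hi := ineq2 (W := W) (X := X) (Y := 32 * X) (M := 4 * (32 * X) + 1) (Q := Q) (V := V) (K := K)
    hW1 (by omega) (by omega) (by omega) hQ hV1
    (by
      have h1 : Q * V ≤ Q * K := Nat.mul_le_mul_left _ hVK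
      calc 6 * Q * V = 6 * (Q * V) := by ring
        _ ≤ 6 * (5 * X) := Nat.mul_le_mul_left _ (h1.trans hQK)
        _ ≤ 32 * X := by omega)
    (fun k => c k / ((2 * L : ℝ) : ℂ))
    (fun k => by
      rw [norm_div, Complex.norm_real, Real.norm_eq_abs, abs_of_pos h2L]
      exact (div_le_one h2L).2 (hc k))
    (fun k hk => by rw [hc0 k hk, zero_div])
    (fmin X R D) (fun n hn => MinR3_fz hD1 (by omega) hn)
  have hLS0 : ∀ α, 0 ≤ LS (W / V) V α := fun α => Fy_nonneg' hV0 α _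
  have hgen := min_gen (X := X) (R := R) (D := D) (Y := 32 * X) (M := 4 * (32 * X) + 1) (W := W)
    (by omega) hR hRD hDR (by omega) (by omega) (fun α => 2 * V * LS (W / V) V α)
    (T := 6 * V * W) (δ := 100 * (1 + Real.log W) / P) (by positivity)
    (div_nonneg (mul_nonneg (by norm_num) hlogW0) hP0.le)
    (fun α => mul_nonneg (by positivity) (hLS0 α))
    (fun α => by
      have h1 := LS_triv (W / V) hV0 α
      have h2 : ((W / V : ℕ) : ℝ) * V ≤ W := by exact_mod_cast Nat.div_mul_le_self W V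
      have h3 : LS (W / V) V α ≤ 3 * W := by
        calc LS (W / V) V α ≤ (2 * ((W / V : ℕ) : ℝ) + 1) * V := h1
          _ = 2 * (((W / V : ℕ) : ℝ) * V) + V := by ring
          _ ≤ 3 * W := by linarith
      calc 2 * V * LS (W / V) V α ≤ 2 * V * (3 * W) := mul_le_mul_of_nonneg_left h3 (by positivity)
        _ = 6 * V * W := by ring)
    (fun α => by
      rcases LS_alt α (P := P) (V := V) (Z := W / V) (T := W) hP1 hPV hPVW (Nat.div_mul_le_self W V) with h | h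
      · left
        calc 2 * V * LS (W / V) V α ≤ 2 * V * (100 * (1 + Real.log W) * W / P) :=
              mul_le_mul_of_nonneg_left h (by positivity)
          _ = (1 / 3) * (100 * (1 + Real.log W) / P * (6 * V * W)) := by ring
          _ ≤ 1 * (100 * (1 + Real.log W) / P * (6 * V * W)) := by
              refine mul_le_mul_of_nonneg_right (by norm_num) ?_
              exact mul_nonneg (div_nonneg (mul_nonneg (by norm_num) hlogW0) hP0.le) (by positivity)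
          _ = _ := one_mul _
      · right
        obtain ⟨r, a, hr1, hrP, hra, hα⟩ := h
        have hPR : (P : ℝ) ≤ R := by
          refine hPle.trans (le_trans ?_ hRL)
          exact pow_le_pow_right₀ hL1 (by omega)
        have hPR' : P ≤ R := by exact_mod_cast hPR
        have hr0 : (1 : ℝ) ≤ r := by exact_mod_cast hr1
        refine ⟨r, a, hr1, by omega, hra, hα.trans ?_⟩
        rw [div_le_div_iff₀ (by positivity) hW0]
        have h1 : (P : ℝ) * W ≤ R * W := mul_le_mul_of_nonneg_right hPR hW0.le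
        have h2 : (R : ℝ) * W ≤ R * (r * W) := by
          refine mul_le_mul_of_nonneg_left ?_ hR0.le
          nlinarith
        exact h1.trans h2)
  rw [hsm]
  have hVle : (V : ℝ) ≤ 5 * X / Q := (by exact_mod_cast hVK : (V : ℝ) ≤ K).trans hK
  have hδ : 100 * (1 + Real.log W) / P ≤ 400 * L / L ^ (A + 8) := by
    rw [div_le_div_iff₀ hP0 hLp]
    have h1 : 100 * (1 + Real.log W) * L ^ (A + 8) ≤ 100 * (2 * L) * (2 * P) :=
      mul_le_mul (by linarith) hPge hLp.le (by positivity)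
    linarith
  have hR2 : 400 / (R : ℝ) ^ 2 ≤ 400 * L / L ^ (A + 8) := by
    have h1 : L ^ (A + 8) ≤ (R : ℝ) ^ 2 := by
      calc L ^ (A + 8) ≤ L ^ (A + 9) := pow_le_pow_right₀ hL1 (by omega)
        _ ≤ R := hRL
        _ = R * 1 := (mul_one _).symm
        _ ≤ R * R := mul_le_mul_of_nonneg_left (by exact_mod_cast hR) hR0.le
        _ = (R : ℝ) ^ 2 := by ring
    rw [div_le_div_iff₀ (by positivity) hLp]
    have h2 : 400 * L ^ (A + 8) ≤ 400 * (R : ℝ) ^ 2 := by linarith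
    have h3 : 400 * (R : ℝ) ^ 2 ≤ 400 * L * (R : ℝ) ^ 2 := by
      have : (0 : ℝ) ≤ 400 * (R : ℝ) ^ 2 := by positivity
      nlinarith
    linarith
  have hlog0 : 0 ≤ 1 + Real.log (2 * X) := by
    have : (1 : ℝ) ≤ 2 * X := by
      have : (3 : ℝ) ≤ X := by exact_mod_cast hX3
      linarith
    have := Real.log_nonneg this
    linarith
  have hδ0 : 0 ≤ 100 * (1 + Real.log W) / P + 400 / (R : ℝ) ^ 2 :=
    add_nonneg (div_nonneg (mul_nonneg (by norm_num) hlogW0) hP0.le) (by positivity)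
  calc (2 * L) ^ 2 * TT W X (Ico Q (2 * Q)) (fun _ k => c k / ((2 * L : ℝ) : ℂ)) K (fmin X R D)
      ≤ (2 * L) ^ 2 * ((100 * (1 + Real.log W) / P + 400 / (R : ℝ) ^ 2) * (6 * V * W) *
          (12 * X * (1 + Real.log (2 * X)))) :=
        mul_le_mul_of_nonneg_left (hi.trans hgen) (by positivity)
    _ ≤ (2 * L) ^ 2 * ((800 * L / L ^ (A + 8)) * (6 * (5 * X / Q) * W) * (12 * X * (2 * L))) := by
        refine mul_le_mul_of_nonneg_left ?_ (by positivity)
        refine mul_le_mul ?_ ?_ (mul_nonneg (by positivity) hlog0) (by positivity)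
        · refine mul_le_mul ?_ ?_ (by positivity) (by positivity)
          · have h5 : 400 * L / L ^ (A + 8) + 400 * L / L ^ (A + 8) = 800 * L / L ^ (A + 8) := by ring
            linarith
          · exact mul_le_mul_of_nonneg_right (by linarith) hW0.le
        · exact mul_le_mul_of_nonneg_left hlog (by positivity)
    _ = 2304000 * (W * (X : ℝ) ^ 2 / Q / L ^ (A + 4)) := by
        rw [show A + 8 = (A + 4) + 4 by ring, pow_add]
        field_simp
        ring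
    _ ≤ L * (W * (X : ℝ) ^ 2 / Q / L ^ (A + 4)) := mul_le_mul_of_nonneg_right hL (by positivity)
    _ = W * (X : ℝ) ^ 2 / Q / L ^ (A + 3) := by
        rw [show A + 4 = (A + 3) + 1 by ring, pow_succ]
        field_simp
        ring

/-- Minor arcs, large moduli: arbitrary coefficients. -/
theorem minR3 {ε ε' : ℝ} (hε : 0 < ε) (hε' : 0 < ε') (A : ℕ) : ∃ B₁ : ℕ, ∀ B : ℕ, B₁ ≤ B →
    ∃ X₀ : ℕ, ∀ X : ℕ, X₀ ≤ X → ∀ W : ℕ, Win ε X W → ∀ Q : ℕ, Md ε' X Q →
    (X : ℝ) * Real.log X ^ B₁ ≤ (Q : ℝ) * W →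
    ∀ c : ℕ → ℂ, (∀ k ∈ Icc 1 (KK X Q), ‖c k‖ ≤ 2 * Real.log X) →
    TT W X (Ico Q (2 * Q)) (fun _ => c) (KK X Q) (fmin X (RR B X) (DD B X W)) ≤ Bd A X W Q := by
  obtain ⟨C0, hC0, H⟩ := TT_norm
  refine ⟨A + 9, fun B hB => ?_⟩
  obtain ⟨X1, h1⟩ := win_facts ε hε B
  obtain ⟨X2, h2⟩ := md_facts ε' hε' (2 * A + 16)
  refine ⟨max (max X1 X2) ⌈Real.exp (max 2304000 (960 * C0))⌉₊,
    fun X hX W hW Q hQ hQW c hc => ?_⟩
  have hX1 : X1 ≤ X := ((le_max_left _ _).trans (le_max_left _ _)).trans hX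
  have hX2 : X2 ≤ X := ((le_max_right _ _).trans (le_max_left _ _)).trans hX
  have hX3 : ⌈Real.exp (max 2304000 (960 * C0))⌉₊ ≤ X := (le_max_right _ _).trans hX
  have hXe : Real.exp (max 2304000 (960 * C0)) ≤ X := (Nat.le_ceil _).trans (by exact_mod_cast hX3)
  have hXpos : (0 : ℝ) < X := (Real.exp_pos _).trans_le hXe
  have hLL : max 2304000 (960 * C0) ≤ Real.log X := (Real.le_log_iff_exp_le hXpos).2 hXe
  have hL : 2304000 ≤ Real.log X := (le_max_left _ _).trans hLL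
  have hLC : 960 * C0 ≤ Real.log X := (le_max_right _ _).trans hLL
  obtain ⟨hW1, hWX, hXW, hR, hRL, _, hRD, hDR, hD1, hDW, _, _⟩ := h1 X hX1 W hW
  obtain ⟨hQX, hXQ, hK4, hK5, _, hlogK⟩ := h2 X hX2 Q hQ
  set L := Real.log X with hLdef
  have hL1 : 1 ≤ L := by linarith
  have hL0 : 0 < L := by linarith
  have hQ1 : 1 ≤ Q := hQ.1
  have hK1 : 1 ≤ KK X Q := Nat.le_add_left 1 _
  have hQK : Q * KK X Q ≤ 5 * X := by
    unfold KK
    have h3 : Q * (4 * X / Q) ≤ 4 * X := Nat.mul_div_le _ _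
    have h4 : Q * (4 * X / Q + 1) = Q * (4 * X / Q) + Q := by ring
    omega
  set K := KK X Q with hKdef
  set R := RR B X with hRdef
  set D := DD B X W with hDdef
  have hRL' : L ^ (A + 9) ≤ R := (pow_le_pow_right₀ hL1 hB).trans hRL
  have key : ∀ j ∈ range (Nat.log 2 K + 1),
      TT W X (Ico Q (2 * Q)) (fun _ => MinR3_blk K c j) K (fmin X R D) ≤
        W * (X : ℝ) ^ 2 / Q / L ^ (A + 3) := by
    intro j hj
    have hbd := MinR3_bd (K := K) (c := c) (b := 2 * L) (by linarith) hc j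
    by_cases hcase : ((2 ^ j : ℕ) : ℝ) * L ^ (A + 8) ≤ K
    · refine MinR3_small hC0 H (V := 2 ^ j) (by linarith) hLC hW1 hWX hXW hR hRD hD1 hDW hQ1 hK5 hcase hbd ?_
      intro k hk
      refine MinR3_supp K c j k ?_
      rw [Finset.mem_Ico]
      omega
    · push Not at hcase
      have hVK : 2 ^ j ≤ K := by
        have h5 : j ≤ Nat.log 2 K := Nat.lt_succ_iff.1 (Finset.mem_range.1 hj)
        exact Nat.pow_le_of_le_log (by omega) h5
      exact MinR3_big (V := 2 ^ j) hL hW1 hWX hR hRL' hRD hDR hD1 hDW hQ1 hQX hQK hK5 hK4 hXQ hQW hVK hcase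
        hbd (MinR3_supp K c j)
  have hsum : TT W X (Ico Q (2 * Q)) (fun _ => c) K (fmin X R D) =
      TT W X (Ico Q (2 * Q)) (fun _ k => ∑ j ∈ range (Nat.log 2 K + 1), MinR3_blk K c j k) K
        (fmin X R D) := TT_congr_c fun q _ k hk => MinR3_sum c hk
  rw [hsum]
  have hJ : ((Nat.log 2 K + 1 : ℕ) : ℝ) ≤ 4 * L := by
    have h6 : ((Nat.log 2 K : ℕ) : ℝ) ≤ Real.log K / Real.log 2 := by
      have := Real.natLog_le_logb K 2
      rwa [Real.logb] at this
    have h7 : (1 : ℝ) / 2 < Real.log 2 := by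
      have := Real.log_two_gt_d9
      linarith
    have h7' : (0.69 : ℝ) < Real.log 2 := by
      have := Real.log_two_gt_d9
      linarith
    have h8 : Real.log K / Real.log 2 ≤ 3 * L := by
      rw [div_le_iff₀ (by linarith)]
      nlinarith
    push_cast
    linarith
  have h9 : (0 : ℝ) ≤ W * (X : ℝ) ^ 2 / Q / L ^ (A + 3) := by positivity
  calc TT W X (Ico Q (2 * Q)) (fun _ k => ∑ j ∈ range (Nat.log 2 K + 1), MinR3_blk K c j k) K (fmin X R D)
      ≤ ((range (Nat.log 2 K + 1)).card : ℝ) * ∑ j ∈ range (Nat.log 2 K + 1),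
          TT W X (Ico Q (2 * Q)) (fun _ => MinR3_blk K c j) K (fmin X R D) :=
        TT_sum_c (range (Nat.log 2 K + 1)) (fun j _ => MinR3_blk K c j)
    _ ≤ ((range (Nat.log 2 K + 1)).card : ℝ) * ∑ _j ∈ range (Nat.log 2 K + 1),
          W * (X : ℝ) ^ 2 / Q / L ^ (A + 3) :=
        mul_le_mul_of_nonneg_left (Finset.sum_le_sum key) (Nat.cast_nonneg _)
    _ = ((Nat.log 2 K + 1 : ℕ) : ℝ) * ((Nat.log 2 K + 1 : ℕ) : ℝ) * (W * (X : ℝ) ^ 2 / Q / L ^ (A + 3)) := by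
        rw [Finset.sum_const, Finset.card_range, nsmul_eq_mul]
        ring
    _ ≤ (4 * L) * (4 * L) * (W * (X : ℝ) ^ 2 / Q / L ^ (A + 3)) :=
        mul_le_mul_of_nonneg_right (mul_le_mul hJ hJ (Nat.cast_nonneg _) (by positivity)) h9
    _ = (16 / L) * (W * (X : ℝ) ^ 2 / Q / L ^ A) := by
        rw [pow_add]
        field_simp
        ring
    _ ≤ 1 * (W * (X : ℝ) ^ 2 / Q / L ^ A) := by
        refine mul_le_mul_of_nonneg_right ?_ (by positivity)
        rw [div_le_one hL0]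
        linarith
    _ = Bd A X W Q := by
        rw [one_mul]
        rfl

end Pool.Agent.SInt
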