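import Pool.Agent.SInt.MinR1
import Pool.Agent.SInt.MinR2
import Pool.Agent.SInt.MinR3

open Finset Complex
open scoped ArithmeticFunction.Moebius ArithmeticFunction.vonMangoldt

namespace Pool.Agent.SInt

open Pool.Agent.ANT

/-- The minor arc estimate. -/
theorem minor {ε ε' : ℝ} (hε : 0 < ε) (hε' : 0 < ε') (A C₀ : ℕ) : ∃ B₀ : ℕ, ∀ B : ℕ, B₀ ≤ B →
    ∃ X₀ : ℕ, ∀ X : ℕ, X₀ ≤ X → ∀ W : ℕ, Win ε X W → ∀ Q : ℕ, Md ε' X Q → ∀ d : ℕ, 1 ≤ d →
    (d : ℝ) ≤ Real.log X ^ C₀ → ∀ i : ℕ, i ≤ 1 →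
    TT W X (Ico Q (2 * Q)) (fun _ => cc d i) (KK X Q) (fmin X (RR B X) (DD B X W)) ≤ Bd A X W Q := by
  obtain ⟨b2, H2⟩ := minR2 hε A
  obtain ⟨b3, H3⟩ := minR3 hε hε' A
  obtain ⟨B₂, H1⟩ := minR1 hε A C₀ (max b2 b3)
  refine ⟨max B₂ (max b2 b3), fun B hB => ?_⟩
  obtain ⟨X1, h1⟩ := H1 B ((le_max_left _ _).trans hB)
  obtain ⟨X2, h2⟩ := H2 B ((le_max_left _ _).trans ((le_max_right _ _).trans hB))
  obtain ⟨X3, h3⟩ := H3 B ((le_max_right _ _).trans ((le_max_right _ _).trans hB))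
  obtain ⟨X4, h4⟩ := const_log_pow_le 1 (max b2 b3 + b3) (δ := 2 * ε) (by linarith)
  obtain ⟨X5, h5⟩ := md_facts ε' hε' 0
  refine ⟨max (max (max X1 X2) (max X3 X4)) (max X5 (⌈Real.exp 5⌉₊)), fun X hX W hW Q hQ d hd hd' i hi => ?_⟩
  have hX1 : X1 ≤ X := ((le_max_left _ _).trans ((le_max_left _ _).trans (le_max_left _ _))).trans hX
  have hX2 : X2 ≤ X := ((le_max_right _ _).trans ((le_max_left _ _).trans (le_max_left _ _))).trans hX
  have hX3 : X3 ≤ X := ((le_max_left _ _).trans ((le_max_right _ _).trans (le_max_left _ _))).trans hX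
  have hX4 : X4 ≤ X := ((le_max_right _ _).trans ((le_max_right _ _).trans (le_max_left _ _))).trans hX
  have hX5 : X5 ≤ X := ((le_max_left _ _).trans (le_max_right _ _)).trans hX
  have hX6 : ⌈Real.exp 5⌉₊ ≤ X := ((le_max_right _ _).trans (le_max_right _ _)).trans hX
  have hXe : Real.exp 5 ≤ X := (Nat.le_ceil _).trans (by exact_mod_cast hX6)
  have hXpos : (0 : ℝ) < X := (Real.exp_pos 5).trans_le hXe
  have hL : 5 ≤ Real.log X := (Real.le_log_iff_exp_le hXpos).2 hXe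
  have hL1 : 1 ≤ Real.log X := by linarith
  have hQ1 : (1 : ℝ) ≤ Q := by exact_mod_cast hQ.1
  obtain ⟨_, _, _, hKK, _, _⟩ := h5 X hX5 Q hQ
  have hcoef : ∀ k ∈ Icc 1 (KK X Q), ‖cc d i k‖ ≤ 2 * Real.log X := by
    intro k hk
    rw [Finset.mem_Icc] at hk
    have hk1 : (0 : ℝ) < k := by exact_mod_cast hk.1
    have hk2 : (k : ℝ) ≤ 5 * X := by
      calc (k : ℝ) ≤ (KK X Q : ℝ) := by exact_mod_cast hk.2
        _ ≤ 5 * X / Q := hKK
        _ ≤ 5 * X := div_le_self (by positivity) hQ1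
    have h6 : Real.log k ≤ Real.log 5 + Real.log X := by
      rw [← Real.log_mul (by norm_num) hXpos.ne']
      exact Real.log_le_log hk1 hk2
    have h7 : Real.log 5 ≤ 5 - 1 := Real.log_le_sub_one_of_pos (by norm_num)
    have h8 := norm_cc_le (d := d) (i := i) (k := k) hi
    linarith
  by_cases hc1 : (Q : ℝ) ≤ Real.log X ^ (max b2 b3)
  · exact h1 X hX1 W hW Q hQ.1 hc1 d hd hd' i hi
  push Not at hc1
  by_cases hc2 : (Q : ℝ) * Real.log X ^ (max b2 b3) ≤ W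
  · have h9 : Real.log X ^ b2 ≤ Real.log X ^ (max b2 b3) := pow_le_pow_right₀ hL1 (le_max_left _ _)
    exact h2 X hX2 W hW Q (h9.trans hc1.le)
      ((mul_le_mul_of_nonneg_left h9 (by linarith)).trans hc2) (cc d i) hcoef
  push Not at hc2
  refine h3 X hX3 W hW Q hQ ?_ (cc d i) hcoef
  have hb : 0 < Real.log X ^ (max b2 b3) := by positivity
  have hW0 : (0 : ℝ) < W := lt_of_lt_of_le (Real.rpow_pos_of_pos hXpos _) hW.1
  have h10 := h4 X hX4
  rw [one_mul, pow_add] at h10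
  have h11 : (X : ℝ) * (X : ℝ) ^ (2 * ε) = (X : ℝ) ^ (1 / 2 + ε) * (X : ℝ) ^ (1 / 2 + ε) := by
    rw [← Real.rpow_add hXpos]
    nth_rewrite 1 [← Real.rpow_one (X : ℝ)]
    rw [← Real.rpow_add hXpos]
    congr 1
    ring
  have h12 : (X : ℝ) ^ (1 / 2 + ε) * (X : ℝ) ^ (1 / 2 + ε) ≤ W * W :=
    mul_le_mul hW.1 hW.1 (Real.rpow_nonneg hXpos.le _) hW0.le
  have h13 : (W : ℝ) * W ≤ (Q * Real.log X ^ (max b2 b3)) * W := mul_le_mul_of_nonneg_right hc2.le hW0.le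
  have h14 : (X : ℝ) * (Real.log X ^ (max b2 b3) * Real.log X ^ b3) ≤ X * (X : ℝ) ^ (2 * ε) :=
    mul_le_mul_of_nonneg_left h10 hXpos.le
  have h15 : (X * Real.log X ^ b3) * Real.log X ^ (max b2 b3) ≤ (Q * W) * Real.log X ^ (max b2 b3) := by
    calc (X * Real.log X ^ b3) * Real.log X ^ (max b2 b3)
        = (X : ℝ) * (Real.log X ^ (max b2 b3) * Real.log X ^ b3) := by ring
      _ ≤ (Q * Real.log X ^ (max b2 b3)) * W := by
          rw [h11] at h14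
          exact (h14.trans h12).trans h13
      _ = _ := by ring
  exact le_of_mul_le_mul_right h15 hb

end Pool.Agent.SInt
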