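import Pool.Agent.SInt.KL

open Finset Complex
open scoped ArithmeticFunction.Moebius ArithmeticFunction.vonMangoldt

namespace Pool.Agent.SInt

open Pool.Agent.ANT

lemma SecD_mono (f : ℕ → ℝ) (n : ℕ) {lam : ℝ}
    (hlow : ∀ j, j + 2 ≤ n → lam ≤ f (j + 2) - 2 * f (j + 1) + f j) (i j : ℕ) (hij : i ≤ j)
    (hj : j + 1 ≤ n) : lam * ((j : ℝ) - i) ≤ (f (j + 1) - f j) - (f (i + 1) - f i) := by
  induction j, hij using Nat.le_induction with
  | base => simp
  | succ k hk ih =>
    have h1 := ih (by omega)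
    have h2 := hlow k (by omega)
    push_cast
    have h3 : f (k + 1 + 1) = f (k + 2) := rfl
    rw [h3]
    nlinarith

lemma SecD_mono' (f : ℕ → ℝ) (n : ℕ) {c : ℝ}
    (hhigh : ∀ j, j + 2 ≤ n → f (j + 2) - 2 * f (j + 1) + f j ≤ c) (i j : ℕ) (hij : i ≤ j)
    (hj : j + 1 ≤ n) : (f (j + 1) - f j) - (f (i + 1) - f i) ≤ c * ((j : ℝ) - i) := by
  induction j, hij using Nat.le_induction with
  | base => simp
  | succ k hk ih =>
    have h1 := ih (by omega)
    have h2 := hhigh k (by omega)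
    push_cast
    have h3 : f (k + 1 + 1) = f (k + 2) := rfl
    rw [h3]
    nlinarith

/-- few indices with a difference in a short interval -/
lemma SecD_card (f : ℕ → ℝ) (n : ℕ) {lam δ : ℝ} (hlam : 0 < lam)
    (hlow : ∀ j, j + 2 ≤ n → lam ≤ f (j + 2) - 2 * f (j + 1) + f j) (s : Finset ℕ)
    (hs : s ⊆ range n) (hδ : 0 ≤ δ)
    (h : ∀ i ∈ s, ∀ j ∈ s, (f (j + 1) - f j) - (f (i + 1) - f i) ≤ δ) :
    (s.card : ℝ) ≤ δ / lam + 1 := by
  rcases s.eq_empty_or_nonempty with rfl | hne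
  · simp only [card_empty, Nat.cast_zero]
    positivity
  · have hsub : s ⊆ Icc (s.min' hne) (s.max' hne) := fun x hx =>
      mem_Icc.2 ⟨s.min'_le x hx, s.le_max' x hx⟩
    have hle : s.min' hne ≤ s.max' hne := s.min'_le _ (s.max'_mem hne)
    have hmax := mem_range.1 (hs (s.max'_mem hne))
    have h1 := SecD_mono f n hlow _ _ hle (by omega)
    have h2 := h _ (s.min'_mem hne) _ (s.max'_mem hne)
    have h3 : s.card ≤ s.max' hne + 1 - s.min' hne := by
      have := card_le_card hsub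
      rwa [Nat.card_Icc] at this
    have h4 : (s.card : ℝ) ≤ (s.max' hne : ℝ) - (s.min' hne : ℝ) + 1 := by
      have h5 : (s.card : ℝ) ≤ ((s.max' hne + 1 - s.min' hne : ℕ) : ℝ) := by exact_mod_cast h3
      rw [Nat.cast_sub (by omega)] at h5
      push_cast at h5
      linarith
    have h6 : (s.max' hne : ℝ) - (s.min' hne : ℝ) ≤ δ / lam := by
      rw [le_div_iff₀ hlam]
      nlinarith
    linarith

lemma SecD_norm_sum_le (f : ℕ → ℝ) (s : Finset ℕ) : ‖∑ j ∈ s, ee (f j)‖ ≤ s.card := by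
  refine (norm_sum_le _ _).trans ?_
  simp [norm_ee]

/-- the indices with a difference in `[m + δ, m + 1 - δ]` -/
lemma SecD_mid (f : ℕ → ℝ) (n : ℕ) {lam δ : ℝ} (hlam : 0 < lam) (hδ : 0 < δ) (hδ1 : δ ≤ 1 / 2)
    (hlow : ∀ j, j + 2 ≤ n → lam ≤ f (j + 2) - 2 * f (j + 1) + f j) (m : ℤ) (s : Finset ℕ)
    (hs : ∀ j, j ∈ s ↔ j < n ∧ (m : ℝ) + δ ≤ f (j + 1) - f j ∧ f (j + 1) - f j ≤ (m : ℝ) + 1 - δ) :
    ‖∑ j ∈ s, ee (f j)‖ ≤ 2 / δ := by
  rcases s.eq_empty_or_nonempty with rfl | hne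
  · simp only [sum_empty, norm_zero]
    positivity
  · set a := s.min' hne with ha
    set b := s.max' hne with hb
    have hab : a ≤ b := s.min'_le _ (s.max'_mem hne)
    have haS := (hs a).1 (s.min'_mem hne)
    have hbS := (hs b).1 (s.max'_mem hne)
    have hmem : ∀ j, a ≤ j → j ≤ b → j ∈ s := by
      intro j h1 h2
      refine (hs j).2 ⟨by omega, ?_, ?_⟩
      · have h3 := SecD_mono f n hlow a j h1 (by omega)
        have h4 : (0 : ℝ) ≤ (j : ℝ) - a := by
          have : (a : ℝ) ≤ j := by exact_mod_cast h1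
          linarith
        nlinarith [mul_nonneg hlam.le h4]
      · have h3 := SecD_mono f n hlow j b h2 (by omega)
        have h4 : (0 : ℝ) ≤ (b : ℝ) - j := by
          have : (j : ℝ) ≤ b := by exact_mod_cast h2
          linarith
        nlinarith [mul_nonneg hlam.le h4]
    have hsE : s = Ico a (b + 1) := by
      ext j
      rw [mem_Ico]
      constructor
      · intro h
        exact ⟨s.min'_le _ h, Nat.lt_succ_of_le (s.le_max' _ h)⟩
      · rintro ⟨h1, h2⟩
        exact hmem j h1 (by omega)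
    rw [hsE, sum_Ico_eq_sum_range]
    rw [show b + 1 - a = (b - a) + 1 by omega]
    refine kusmin_landau (fun i => f (a + i)) (b - a) hδ hδ1 m ?_ ?_ ?_
    · intro j hj
      have h1 := hlow (a + j) (by omega)
      show f (a + (j + 1)) - f (a + j) ≤ f (a + (j + 2)) - f (a + (j + 1))
      have e1 : a + (j + 1) = a + j + 1 := rfl
      have e2 : a + (j + 2) = a + j + 2 := rfl
      rw [e1, e2]
      linarith
    · intro j hj
      exact ((hs (a + j)).1 (hmem (a + j) (by omega) (by omega))).2.1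
    · intro j hj
      exact ((hs (a + j)).1 (hmem (a + j) (by omega) (by omega))).2.2

/-- the indices with a difference in `[m, m + 1)` -/
lemma SecD_unit (f : ℕ → ℝ) (n : ℕ) {lam δ : ℝ} (hlam : 0 < lam) (hδ : 0 < δ) (hδ1 : δ < 1 / 2)
    (hlow : ∀ j, j + 2 ≤ n → lam ≤ f (j + 2) - 2 * f (j + 1) + f j) (m : ℤ) :
    ‖∑ j ∈ (range n).filter (fun j => ⌊f (j + 1) - f j⌋ = m), ee (f j)‖ ≤
      2 / δ + 2 * (δ / lam + 1) := by
  set S := (range n).filter (fun j => ⌊f (j + 1) - f j⌋ = m) with hS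
  have hSm : ∀ j, j ∈ S ↔ j < n ∧ (m : ℝ) ≤ f (j + 1) - f j ∧ f (j + 1) - f j < (m : ℝ) + 1 := by
    intro j
    rw [hS, mem_filter, mem_range, Int.floor_eq_iff]
  have e1 : S = (S.filter (fun j => f (j + 1) - f j < (m : ℝ) + δ) ∪
      S.filter (fun j => (m : ℝ) + 1 - δ < f (j + 1) - f j)) ∪
      S.filter (fun j => (m : ℝ) + δ ≤ f (j + 1) - f j ∧ f (j + 1) - f j ≤ (m : ℝ) + 1 - δ) := by
    ext j
    simp only [mem_union, mem_filter]
    constructor
    · intro h
      by_cases h1 : f (j + 1) - f j < (m : ℝ) + δ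
      · exact Or.inl (Or.inl ⟨h, h1⟩)
      · by_cases h2 : (m : ℝ) + 1 - δ < f (j + 1) - f j
        · exact Or.inl (Or.inr ⟨h, h2⟩)
        · exact Or.inr ⟨h, by linarith, by linarith⟩
    · rintro ((h | h) | h) <;> exact h.1
  have d1 : Disjoint (S.filter (fun j => f (j + 1) - f j < (m : ℝ) + δ))
      (S.filter (fun j => (m : ℝ) + 1 - δ < f (j + 1) - f j)) := by
    rw [disjoint_left]
    intro j h1 h2
    rw [mem_filter] at h1 h2
    linarith [h1.2, h2.2]
  have d2 : Disjoint (S.filter (fun j => f (j + 1) - f j < (m : ℝ) + δ) ∪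
      S.filter (fun j => (m : ℝ) + 1 - δ < f (j + 1) - f j))
      (S.filter (fun j => (m : ℝ) + δ ≤ f (j + 1) - f j ∧ f (j + 1) - f j ≤ (m : ℝ) + 1 - δ)) := by
    rw [disjoint_left]
    intro j h1 h2
    simp only [mem_union, mem_filter] at h1 h2
    rcases h1 with h1 | h1
    · linarith [h1.2, h2.2.1]
    · linarith [h1.2, h2.2.2]
  rw [e1, sum_union d2, sum_union d1]
  have b1 : ((S.filter (fun j => f (j + 1) - f j < (m : ℝ) + δ)).card : ℝ) ≤ δ / lam + 1 := by
    refine SecD_card f n hlam hlow _ ?_ hδ.le ?_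
    · intro j hj
      exact mem_range.2 ((hSm j).1 (mem_filter.1 hj).1).1
    · intro i hi j hj
      have h1 := (hSm i).1 (mem_filter.1 hi).1
      have h2 := (mem_filter.1 hj).2
      linarith [h1.2.1]
  have b2 : ((S.filter (fun j => (m : ℝ) + 1 - δ < f (j + 1) - f j)).card : ℝ) ≤
      δ / lam + 1 := by
    refine SecD_card f n hlam hlow _ ?_ hδ.le ?_
    · intro j hj
      exact mem_range.2 ((hSm j).1 (mem_filter.1 hj).1).1
    · intro i hi j hj
      have h1 := (mem_filter.1 hi).2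
      have h2 := (hSm j).1 (mem_filter.1 hj).1
      linarith [h2.2.2]
  have b3 : ‖∑ j ∈ S.filter (fun j => (m : ℝ) + δ ≤ f (j + 1) - f j ∧
      f (j + 1) - f j ≤ (m : ℝ) + 1 - δ), ee (f j)‖ ≤ 2 / δ := by
    refine SecD_mid f n hlam hδ hδ1.le hlow m _ ?_
    intro j
    rw [mem_filter, hSm]
    constructor
    · rintro ⟨⟨h1, _, _⟩, h2, h3⟩
      exact ⟨h1, h2, h3⟩
    · rintro ⟨h1, h2, h3⟩
      exact ⟨⟨h1, by linarith, by linarith⟩, h2, h3⟩
  have n1 := norm_add_le (∑ j ∈ S.filter (fun j => f (j + 1) - f j < (m : ℝ) + δ), ee (f j) +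
    ∑ j ∈ S.filter (fun j => (m : ℝ) + 1 - δ < f (j + 1) - f j), ee (f j))
    (∑ j ∈ S.filter (fun j => (m : ℝ) + δ ≤ f (j + 1) - f j ∧
      f (j + 1) - f j ≤ (m : ℝ) + 1 - δ), ee (f j))
  have n2 := norm_add_le (∑ j ∈ S.filter (fun j => f (j + 1) - f j < (m : ℝ) + δ), ee (f j))
    (∑ j ∈ S.filter (fun j => (m : ℝ) + 1 - δ < f (j + 1) - f j), ee (f j))
  have n3 := SecD_norm_sum_le f (S.filter (fun j => f (j + 1) - f j < (m : ℝ) + δ))
  have n4 := SecD_norm_sum_le f (S.filter (fun j => (m : ℝ) + 1 - δ < f (j + 1) - f j))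
  linarith

/-- Second derivative test (discrete form). -/
theorem second_diff (f : ℕ → ℝ) (n : ℕ) {lam α : ℝ} (hlam : 0 < lam) (hα : 1 ≤ α)
    (hlow : ∀ j, j + 2 ≤ n → lam ≤ f (j + 2) - 2 * f (j + 1) + f j)
    (hhigh : ∀ j, j + 2 ≤ n → f (j + 2) - 2 * f (j + 1) + f j ≤ α * lam) :
    ‖∑ j ∈ range (n + 1), ee (f j)‖ ≤ 20 * (α * n * lam + 1) * (1 / √lam + 1) := by
  have hn0 : (0 : ℝ) ≤ n := Nat.cast_nonneg n
  have hsq : 0 < √lam := Real.sqrt_pos.2 hlam
  have hy : 0 < 1 / √lam := by positivity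
  have hx : 0 ≤ α * n * lam := by positivity
  have hx1 : (n : ℝ) * lam ≤ α * n * lam := by
    have : (n : ℝ) * lam ≤ α * (n * lam) := by
      have h0 : 0 ≤ (n : ℝ) * lam := by positivity
      nlinarith
    linarith
  rcases le_or_gt (1 / 4) lam with h4 | h4
  · have h1 := SecD_norm_sum_le f (range (n + 1))
    rw [card_range] at h1
    push_cast at h1
    have h2 : (n : ℝ) / 4 ≤ n * lam := by nlinarith
    have h3 : 20 * (α * n * lam + 1) * 1 ≤ 20 * (α * n * lam + 1) * (1 / √lam + 1) :=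
      mul_le_mul_of_nonneg_left (by linarith) (by linarith)
    nlinarith
  · set δ := √lam with hδdef
    have hδ2 : δ * δ = lam := Real.mul_self_sqrt hlam.le
    have hδ1 : δ < 1 / 2 := by nlinarith
    have hdl : δ / lam = 1 / δ := by
      rw [← hδ2]
      field_simp
    rcases Nat.eq_zero_or_pos n with hn | hn
    · subst hn
      have h1 := SecD_norm_sum_le f (range (0 + 1))
      rw [card_range] at h1
      push_cast at h1
      have h3 : 20 * (α * ((0 : ℕ) : ℝ) * lam + 1) * 1 ≤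
          20 * (α * ((0 : ℕ) : ℝ) * lam + 1) * (1 / δ + 1) :=
        mul_le_mul_of_nonneg_left (by linarith) (by linarith)
      push_cast at h3 ⊢
      linarith
    · set g : ℕ → ℝ := fun j => f (j + 1) - f j with hg
      have hmaps : ∀ j ∈ range n, ⌊g j⌋ ∈ Icc ⌊g 0⌋ ⌊g (n - 1)⌋ := by
        intro j hj
        rw [mem_range] at hj
        rw [mem_Icc]
        constructor
        · apply Int.floor_le_floor
          have h1 := SecD_mono f n hlow 0 j (Nat.zero_le _) (by omega)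
          have h2 : (0 : ℝ) ≤ lam * ((j : ℝ) - (0 : ℕ)) := by
            push_cast
            have : (0 : ℝ) ≤ j := Nat.cast_nonneg j
            nlinarith
          show f (0 + 1) - f 0 ≤ f (j + 1) - f j
          linarith
        · apply Int.floor_le_floor
          have h1 := SecD_mono f n hlow j (n - 1) (by omega) (by omega)
          have h2 : (0 : ℝ) ≤ lam * (((n - 1 : ℕ) : ℝ) - j) := by
            have : (j : ℝ) ≤ ((n - 1 : ℕ) : ℝ) := by exact_mod_cast (by omega : j ≤ n - 1)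
            have h3 : 0 ≤ ((n - 1 : ℕ) : ℝ) - j := by linarith
            positivity
          show f (j + 1) - f j ≤ f (n - 1 + 1) - f (n - 1)
          linarith
      have hsum : ∑ j ∈ range n, ee (f j) = ∑ m ∈ Icc ⌊g 0⌋ ⌊g (n - 1)⌋,
          ∑ j ∈ (range n).filter (fun j => ⌊g j⌋ = m), ee (f j) :=
        (sum_fiberwise_of_maps_to hmaps _).symm
      have hK : ((Icc ⌊g 0⌋ ⌊g (n - 1)⌋).card : ℝ) ≤ α * n * lam + 2 := by
        rw [Int.card_Icc]
        have h1 := SecD_mono' f n hhigh 0 (n - 1) (Nat.zero_le _) (by omega)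
        have h2 : g (n - 1) - g 0 ≤ α * n * lam := by
          show (f (n - 1 + 1) - f (n - 1)) - (f (0 + 1) - f 0) ≤ α * n * lam
          refine h1.trans ?_
          have h3 : ((n - 1 : ℕ) : ℝ) - ((0 : ℕ) : ℝ) ≤ n := by
            push_cast [Nat.cast_sub hn]
            linarith
          have h4 : 0 ≤ α * lam := by positivity
          nlinarith [mul_le_mul_of_nonneg_left h3 h4]
        have h5 : ⌊g 0⌋ ≤ ⌊g (n - 1)⌋ := by
          have := hmaps 0 (mem_range.2 hn)
          rw [mem_Icc] at this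
          exact this.2
        have h6 : (((⌊g (n - 1)⌋ + 1 - ⌊g 0⌋).toNat : ℕ) : ℤ) = ⌊g (n - 1)⌋ + 1 - ⌊g 0⌋ :=
          Int.toNat_of_nonneg (by omega)
        have h7 : (((⌊g (n - 1)⌋ + 1 - ⌊g 0⌋).toNat : ℕ) : ℝ) =
            (⌊g (n - 1)⌋ : ℝ) + 1 - (⌊g 0⌋ : ℝ) := by
          have : ((((⌊g (n - 1)⌋ + 1 - ⌊g 0⌋).toNat : ℕ) : ℤ) : ℝ) =
            ((⌊g (n - 1)⌋ + 1 - ⌊g 0⌋ : ℤ) : ℝ) := by rw [h6]
          push_cast at this
          exact_mod_cast this
        rw [h7]
        have h8 := Int.floor_le (g (n - 1))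
        have h9 := Int.lt_floor_add_one (g 0)
        linarith
      have hunit : ∀ m : ℤ, ‖∑ j ∈ (range n).filter (fun j => ⌊g j⌋ = m), ee (f j)‖ ≤
          4 * (1 / δ) + 2 := by
        intro m
        have h1 := SecD_unit f n hlam hsq hδ1 hlow m
        rw [hdl] at h1
        refine h1.trans (le_of_eq ?_)
        ring
      have hmain : ‖∑ j ∈ range n, ee (f j)‖ ≤ (α * n * lam + 2) * (4 * (1 / δ) + 2) := by
        rw [hsum]
        refine (norm_sum_le _ _).trans ((sum_le_card_nsmul _ _ _ fun m _ => hunit m).trans ?_)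
        rw [nsmul_eq_mul]
        exact mul_le_mul_of_nonneg_right hK (by linarith)
      rw [sum_range_succ]
      have hlast : ‖ee (f n)‖ = 1 := norm_ee _
      have htri := norm_add_le (∑ j ∈ range n, ee (f j)) (ee (f n))
      rw [hlast] at htri
      have hfin : (α * n * lam + 2) * (4 * (1 / δ) + 2) + 1 ≤
          20 * (α * n * lam + 1) * (1 / δ + 1) := by
        generalize α * n * lam = x at hx
        generalize 1 / δ = y at hy
        nlinarith [mul_nonneg hx hy.le]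
      linarith

/-- Same with the opposite sign. -/
theorem second_diff' (f : ℕ → ℝ) (n : ℕ) {lam α : ℝ} (hlam : 0 < lam) (hα : 1 ≤ α)
    (hlow : ∀ j, j + 2 ≤ n → lam ≤ -(f (j + 2) - 2 * f (j + 1) + f j))
    (hhigh : ∀ j, j + 2 ≤ n → -(f (j + 2) - 2 * f (j + 1) + f j) ≤ α * lam) :
    ‖∑ j ∈ range (n + 1), ee (f j)‖ ≤ 20 * (α * n * lam + 1) * (1 / √lam + 1) := by
  have h := second_diff (fun j => -f j) n hlam hα
    (fun j hj => by have := hlow j hj; linarith) (fun j hj => by have := hhigh j hj; linarith)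
  have h1 : ‖∑ j ∈ range (n + 1), ee (-f j)‖ = ‖∑ j ∈ range (n + 1), ee (f j)‖ := by
    rw [← Complex.norm_conj, map_sum]
    congr 1
    refine sum_congr rfl fun j _ => ?_
    rw [conj_ee, neg_neg]
  rw [← h1]
  exact h

end Pool.Agent.SInt
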