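import Pool.Agent.SInt.Core
import Pool.Agent.SInt.Expand

open Finset Complex
open scoped ArithmeticFunction.Moebius ArithmeticFunction.vonMangoldt

namespace Pool.Agent.SInt

open Pool.Agent.ANT

private noncomputable def FF (X i e N m : ℕ) : ℝ := ‖EG (fun _ => cc e i) N (Lam (2 * X)) N m‖

private lemma FF_nonneg (X i e N m : ℕ) : 0 ≤ FF X i e N m := norm_nonneg _

private lemma Lam_zero' {Z : ℕ} {v : ℤ} (hv : v ≤ 0) : Lam Z v = 0 := by
  unfold Lam
  rw [if_neg]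
  omega

private lemma EG_len_aux (c : ℕ → ℕ → ℂ) {K N q Z : ℕ} (hq : 1 ≤ q) (h : N ≤ q * K) :
    EG c K (Lam Z) N q =
      ∑ k ∈ (Icc 1 N).filter (fun k => q * k < N), c q k * Lam Z ((N : ℤ) - q * k) := by
  unfold EG
  have h1 : ∑ k ∈ Icc 1 K, c q k * Lam Z ((N : ℤ) - q * k) =
      ∑ k ∈ (Icc 1 K).filter (fun k => q * k < N), c q k * Lam Z ((N : ℤ) - q * k) := by
    symm
    apply Finset.sum_filter_of_ne
    intro k hk hne
    by_contra hcon
    apply hne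
    rw [Lam_zero', mul_zero]
    have : (N : ℤ) ≤ q * k := by exact_mod_cast not_lt.mp hcon
    linarith
  rw [h1]
  congr 1
  ext k
  simp only [Finset.mem_filter, Finset.mem_Icc]
  constructor
  · rintro ⟨⟨a, b⟩, c⟩
    refine ⟨⟨a, ?_⟩, c⟩
    nlinarith
  · rintro ⟨⟨a, b⟩, c⟩
    refine ⟨⟨a, ?_⟩, c⟩
    have : q * k < q * K := lt_of_lt_of_le c h
    exact (Nat.lt_of_mul_lt_mul_left this).le

private lemma block_le {X W H P e i : ℕ} {B : ℝ} (hW : W = 2 * H) (hH : 1 ≤ H) (hHX : H ≤ X)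
    (hP : 1 ≤ P)
    (hTT : TT W X (Ico P (2 * P)) (fun _ => cc e i) (KK X P) (Lam (2 * X)) ≤ B) :
    (∑ N ∈ Ioc X (X + H), ∑ m ∈ Ico P (2 * P), FF X i e N m) ^ 2 ≤ H * P * (2 * B) := by
  have h1 : (∑ N ∈ Ioc X (X + H), ∑ m ∈ Ico P (2 * P), FF X i e N m) ^ 2 ≤
      ((H * P : ℕ) : ℝ) * ∑ N ∈ Ioc X (X + H), ∑ m ∈ Ico P (2 * P), FF X i e N m ^ 2 := by
    rw [← Finset.sum_product', ← Finset.sum_product']
    refine (sq_sum_le_card_mul_sum_sq).trans (le_of_eq ?_)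
    congr 2
    rw [Finset.card_product, Nat.card_Ioc, Nat.card_Ico]
    congr 1 <;> omega
  have h2 : ∑ N ∈ Ioc X (X + H), ∑ m ∈ Ico P (2 * P), FF X i e N m ^ 2 ≤
      2 * TT W X (Ico P (2 * P)) (fun _ => cc e i) (KK X P) (Lam (2 * X)) := by
    rw [Finset.sum_comm]
    unfold TT
    rw [Finset.mul_sum]
    refine Finset.sum_le_sum fun m hm => ?_
    obtain ⟨hm1, hm2⟩ := Finset.mem_Ico.mp hm
    rw [Finset.mul_sum]
    have hsub : Ioc X (X + H) ⊆ Ioo (X - W) (X + W) := by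
      intro N hN
      rw [Finset.mem_Ioc] at hN
      rw [Finset.mem_Ioo]
      omega
    refine le_trans ?_ (Finset.sum_le_sum_of_subset_of_nonneg hsub ?_)
    · refine Finset.sum_le_sum fun N hN => ?_
      obtain ⟨hN1, hN2⟩ := Finset.mem_Ioc.mp hN
      have hm0 : 1 ≤ m := le_trans hP hm1
      have e1 : EG (fun _ => cc e i) N (Lam (2 * X)) N m =
          EG (fun _ => cc e i) (KK X P) (Lam (2 * X)) N m := by
        rw [EG_len_aux _ hm0 (K := N) (Nat.le_mul_of_pos_left N hm0),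
          EG_len_aux _ hm0 (K := KK X P)]
        have h3 : 4 * X < P * (4 * X / P + 1) := Nat.lt_mul_div_succ _ hP
        have h4 : P * (4 * X / P + 1) ≤ m * (4 * X / P + 1) := Nat.mul_le_mul_right _ hm1
        unfold KK
        omega
      have e2 : (1 : ℝ) / 2 ≤ tri W ((N : ℝ) - X) := by
        apply tri_half
        rw [hW, abs_of_nonneg]
        · have : (N : ℝ) ≤ X + H := by exact_mod_cast hN2
          push_cast
          linarith
        · have : (X : ℝ) < N := by exact_mod_cast hN1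
          linarith
      unfold FF
      rw [e1]
      nlinarith [sq_nonneg ‖EG (fun _ => cc e i) (KK X P) (Lam (2 * X)) N m‖]
    · intro N _ _
      have := tri_nonneg W ((N : ℝ) - X)
      positivity
  calc _ ≤ _ := h1
    _ ≤ ((H * P : ℕ) : ℝ) * (2 * B) := by
        apply mul_le_mul_of_nonneg_left _ (Nat.cast_nonneg _)
        linarith
    _ = _ := by push_cast; ring

private lemma dyadic_le (f : ℕ → ℝ) (hf : ∀ n, 0 ≤ f n) (M : ℕ) :
    ∑ m ∈ Icc 1 M, f m ≤ ∑ j ∈ range (Nat.log 2 M + 1), ∑ m ∈ Ico (2 ^ j) (2 * 2 ^ j), f m := by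
  have h1 : ∀ m ∈ Icc 1 M, Nat.log 2 m ∈ range (Nat.log 2 M + 1) := by
    intro m hm
    rw [Finset.mem_range]
    have := Nat.log_mono_right (b := 2) (Finset.mem_Icc.mp hm).2
    omega
  rw [← Finset.sum_fiberwise_of_maps_to h1]
  refine Finset.sum_le_sum fun j hj => ?_
  refine Finset.sum_le_sum_of_subset_of_nonneg ?_ fun m _ _ => hf m
  intro m hm
  obtain ⟨hm1, hm2⟩ := Finset.mem_filter.mp hm
  obtain ⟨hm3, hm4⟩ := Finset.mem_Icc.mp hm1
  rw [Finset.mem_Ico, ← hm2]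
  refine ⟨Nat.pow_log_le_self 2 (by omega), ?_⟩
  have := Nat.lt_pow_succ_log_self (b := 2) (by norm_num) m
  rw [pow_succ] at this
  omega

private lemma small_le {X Q N i E0 : ℕ} :
    ∑ q ∈ Icc 1 Q, ∑ e ∈ q.divisors.filter (fun e => e ≤ E0), FF X i e N (q * e) ≤
      ∑ e ∈ Icc 1 E0, ∑ j ∈ range (Nat.log 2 (Q * E0) + 1),
        ∑ m ∈ Ico (2 ^ j) (2 * 2 ^ j), FF X i e N m := by
  have h1 : ∑ q ∈ Icc 1 Q, ∑ e ∈ q.divisors.filter (fun e => e ≤ E0), FF X i e N (q * e) ≤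
      ∑ q ∈ Icc 1 Q, ∑ e ∈ Icc 1 E0, FF X i e N (q * e) := by
    refine Finset.sum_le_sum fun q _ => ?_
    refine Finset.sum_le_sum_of_subset_of_nonneg ?_ fun m _ _ => FF_nonneg _ _ _ _ _
    intro e he
    obtain ⟨he1, he2⟩ := Finset.mem_filter.mp he
    exact Finset.mem_Icc.mpr ⟨Nat.pos_of_mem_divisors he1, he2⟩
  refine h1.trans ?_
  rw [Finset.sum_comm]
  refine Finset.sum_le_sum fun e he => ?_
  obtain ⟨he1, he2⟩ := Finset.mem_Icc.mp he
  refine le_trans ?_ (dyadic_le (fun m => FF X i e N m) (fun m => FF_nonneg _ _ _ _ _) (Q * E0))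
  have h2 : ∑ q ∈ Icc 1 Q, FF X i e N (q * e) =
      ∑ m ∈ (Icc 1 Q).image (fun q => q * e), FF X i e N m := by
    rw [Finset.sum_image]
    intro a _ b _ hab
    exact Nat.eq_of_mul_eq_mul_right he1 hab
  rw [h2]
  refine Finset.sum_le_sum_of_subset_of_nonneg ?_ fun m _ _ => FF_nonneg _ _ _ _ _
  intro m hm
  obtain ⟨q, hq, rfl⟩ := Finset.mem_image.mp hm
  obtain ⟨hq1, hq2⟩ := Finset.mem_Icc.mp hq
  exact Finset.mem_Icc.mpr ⟨Nat.mul_pos hq1 he1, Nat.mul_le_mul hq2 he2⟩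

private lemma tail_le {X Q N i E0 : ℕ} {L0 : ℝ} (hX : 3 ≤ X) (hN : N ≤ 2 * X) (hi : i ≤ 1)
    (hL0 : 0 < L0) (hE0 : L0 < E0 + 1) :
    ∑ q ∈ Icc 1 Q, ∑ e ∈ q.divisors.filter (fun e => ¬ e ≤ E0), FF X i e N (q * e) ≤
      2 * X * (4 * Real.log X ^ 2 + 4) / L0 * Hs Q ^ 2 := by
  have h1 : ∀ q ∈ Icc 1 Q, ∑ e ∈ q.divisors.filter (fun e => ¬ e ≤ E0), FF X i e N (q * e) ≤
      2 * X * (4 * Real.log X ^ 2 + 4) / L0 * (tauR q / q) := by
    intro q hq
    obtain ⟨hq1, hq2⟩ := Finset.mem_Icc.mp hq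
    have hq0 : (0 : ℝ) < q := by exact_mod_cast hq1
    have h2 : ∀ e ∈ q.divisors.filter (fun e => ¬ e ≤ E0), FF X i e N (q * e) ≤
        2 * X * (4 * Real.log X ^ 2 + 4) / L0 * (1 / q) := by
      intro e he
      obtain ⟨he1, he2⟩ := Finset.mem_filter.mp he
      have he3 : 1 ≤ e := Nat.pos_of_mem_divisors he1
      refine (EG_triv hX hN hq1 he3 hi).trans ?_
      have he4 : L0 ≤ e := by
        have : (E0 : ℝ) + 1 ≤ e := by exact_mod_cast not_le.mp he2
        linarith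
      have e1 : 2 * (X : ℝ) * (4 * Real.log X ^ 2 + 4) / L0 * (1 / q) =
          2 * X / (q * L0) * (4 * Real.log X ^ 2 + 4) := by
        field_simp
      rw [e1]
      gcongr
    calc _ ≤ ∑ e ∈ q.divisors.filter (fun e => ¬ e ≤ E0),
          2 * X * (4 * Real.log X ^ 2 + 4) / L0 * (1 / q) := Finset.sum_le_sum h2
      _ = (q.divisors.filter (fun e => ¬ e ≤ E0)).card *
          (2 * X * (4 * Real.log X ^ 2 + 4) / L0 * (1 / q)) := by
          rw [Finset.sum_const, nsmul_eq_mul]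
      _ ≤ tauR q * (2 * X * (4 * Real.log X ^ 2 + 4) / L0 * (1 / q)) := by
          apply mul_le_mul_of_nonneg_right _ (by positivity)
          unfold tauR
          exact_mod_cast Finset.card_filter_le _ _
      _ = _ := by ring
  refine (Finset.sum_le_sum h1).trans ?_
  rw [← Finset.mul_sum]
  apply mul_le_mul_of_nonneg_left _ (by positivity)
  exact sum_tau_div_le Q

private lemma E_le {X N q : ℕ} (hX : 3 ≤ X) (hlog : 1 ≤ Real.log X) (hN : N ≤ 2 * X) (hN1 : 1 ≤ N)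
    (hq : 1 ≤ q) (hqX : q ≤ 2 * X)
    {g : ℕ → ℝ} (hg : g = Pool.Agent.DEH.g1 ∨ g = Pool.Agent.DEH.g2) :
    |Pool.Agent.DEH.E g N q| ≤ 4 * Real.log X * ∑ i ∈ range 2, ∑ e ∈ q.divisors, FF X i e N (q * e) := by
  have hnorm : |Pool.Agent.DEH.E g N q| = ‖((Pool.Agent.DEH.E g N q : ℝ) : ℂ)‖ := by
    rw [Complex.norm_real, Real.norm_eq_abs]
  rw [hnorm, Finset.sum_comm, Finset.mul_sum]
  rcases hg with rfl | rfl
  · rw [E_g1_expand hN hN1 hq, norm_mul]
    have h1 : ‖∑ e ∈ q.divisors, muC e * EG (fun _ => cc e 0) N (Lam (2 * X)) N (q * e)‖ ≤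
        ∑ e ∈ q.divisors, 4 * Real.log X * ∑ i ∈ range 2, FF X i e N (q * e) := by
      refine (norm_sum_le _ _).trans (Finset.sum_le_sum fun e _ => ?_)
      rw [norm_mul, Finset.sum_range_succ, Finset.sum_range_one]
      have h0 := FF_nonneg X 0 e N (q * e)
      have h1 := FF_nonneg X 1 e N (q * e)
      have h2 : ‖muC e‖ * FF X 0 e N (q * e) ≤ 1 * FF X 0 e N (q * e) :=
        mul_le_mul_of_nonneg_right (norm_muC_le e) h0
      change ‖muC e‖ * FF X 0 e N (q * e) ≤ _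
      nlinarith
    calc _ ≤ 1 * _ := mul_le_mul (norm_muC_le q) h1 (norm_nonneg _) zero_le_one
      _ = _ := one_mul _
  · rw [E_g2_expand hN hN1 hq, norm_mul]
    have h1 : ‖∑ e ∈ q.divisors, muC e * (((Real.log ((q * e : ℕ) : ℝ) : ℝ) : ℂ) *
        EG (fun _ => cc e 0) N (Lam (2 * X)) N (q * e) +
          EG (fun _ => cc e 1) N (Lam (2 * X)) N (q * e))‖ ≤
        ∑ e ∈ q.divisors, 4 * Real.log X * ∑ i ∈ range 2, FF X i e N (q * e) := by
      refine (norm_sum_le _ _).trans (Finset.sum_le_sum fun e he => ?_)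
      have he1 : 1 ≤ e := Nat.pos_of_mem_divisors he
      have he2 : e ≤ q := Nat.divisor_le he
      rw [norm_mul, Finset.sum_range_succ, Finset.sum_range_one]
      have h0 := FF_nonneg X 0 e N (q * e)
      have h1 := FF_nonneg X 1 e N (q * e)
      have hlq : 0 ≤ Real.log ((q * e : ℕ) : ℝ) := Real.log_natCast_nonneg _
      have hlq2 : Real.log ((q * e : ℕ) : ℝ) ≤ 4 * Real.log X := by
        have hX3 : (3 : ℝ) ≤ X := by exact_mod_cast hX
        have h3 : ((q * e : ℕ) : ℝ) ≤ (X : ℝ) ^ 4 := by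
          have h4 : (q : ℝ) ≤ 2 * X := by exact_mod_cast hqX
          have h5 : (e : ℝ) ≤ 2 * X := by exact_mod_cast he2.trans hqX
          push_cast
          have h6 : (q : ℝ) * e ≤ (2 * X) * (2 * X) :=
            mul_le_mul h4 h5 (Nat.cast_nonneg _) (by positivity)
          nlinarith [mul_le_mul hX3 hX3 (by norm_num) (by positivity : (0:ℝ) ≤ X),
            sq_nonneg (X : ℝ)]
        have h7 := Real.log_le_log (by exact_mod_cast Nat.mul_pos hq he1) h3
        rw [Real.log_pow] at h7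
        exact_mod_cast h7
      have h8 : ‖((Real.log ((q * e : ℕ) : ℝ) : ℝ) : ℂ) *
          EG (fun _ => cc e 0) N (Lam (2 * X)) N (q * e) +
          EG (fun _ => cc e 1) N (Lam (2 * X)) N (q * e)‖ ≤
          Real.log ((q * e : ℕ) : ℝ) * FF X 0 e N (q * e) + FF X 1 e N (q * e) := by
        refine (norm_add_le _ _).trans ?_
        rw [norm_mul, Complex.norm_real, Real.norm_of_nonneg hlq]
        rfl
      calc _ ≤ 1 * (Real.log ((q * e : ℕ) : ℝ) * FF X 0 e N (q * e) + FF X 1 e N (q * e)) :=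
            mul_le_mul (norm_muC_le e) h8 (norm_nonneg _) zero_le_one
        _ ≤ _ := by nlinarith
    calc _ ≤ 1 * _ := mul_le_mul (norm_muC_le q) h1 (norm_nonneg _) zero_le_one
      _ = _ := one_mul _

/-- First moment of the errors over short intervals. -/
theorem sumE {ε ε' : ℝ} (hε : 0 < ε) (hε1 : ε ≤ 1 / 4) (hε' : 0 < ε') (hε'1 : ε' ≤ 1) (A : ℕ) : ∃ X₀ : ℕ, ∀ X : ℕ, X₀ ≤ X →
    ∀ H : ℕ, Win ε X (2 * H) → ∀ Q : ℕ, (Q : ℝ) ≤ 2 * X * Real.exp (-(Real.log X) ^ ε') →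
    ∀ g : ℕ → ℝ, g = Pool.Agent.DEH.g1 ∨ g = Pool.Agent.DEH.g2 →
    ∑ N ∈ Ioc X (X + H), ∑ q ∈ Icc 1 Q, |Pool.Agent.DEH.E g N q| ≤ H * X / Real.log X ^ A := by
  have hε2 : 0 < ε' / 2 := by linarith
  obtain ⟨X₁, h₁⟩ := core hε hε1 hε2 (2 * (A + (A + 6) + 3)) (A + 6)
  obtain ⟨X₂, h₂⟩ := log_pow_le_exp (A + 6 + 1) hε2
  set K : ℝ := max 2304 (2 ^ (2 / ε')) with hK
  refine ⟨max (max X₁ X₂) (max 3 ⌈Real.exp K⌉₊), ?_⟩
  intro X hX H hWin Q hQ g hg
  have hX1 : X₁ ≤ X := le_trans (le_trans (le_max_left _ _) (le_max_left _ _)) hX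
  have hX2 : X₂ ≤ X := le_trans (le_trans (le_max_right _ _) (le_max_left _ _)) hX
  have hX3 : 3 ≤ X := le_trans (le_trans (le_max_left _ _) (le_max_right _ _)) hX
  have hX4 : Real.exp K ≤ X := by
    have : ⌈Real.exp K⌉₊ ≤ X := le_trans (le_trans (le_max_right _ _) (le_max_right _ _)) hX
    exact (Nat.le_ceil _).trans (by exact_mod_cast this)
  have hXpos : (0 : ℝ) < X := by positivity
  have hKL : K ≤ Real.log X := (Real.le_log_iff_exp_le hXpos).mpr hX4
  set L : ℝ := Real.log X with hL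
  have hL1 : 2304 ≤ L := le_trans (le_max_left _ _) hKL
  have hL0 : 0 < L := by linarith
  have hL2 : (2 : ℝ) ≤ L ^ (ε' / 2) := by
    have h1 : (2 : ℝ) ^ (2 / ε') ≤ L := le_trans (le_max_right _ _) hKL
    calc (2 : ℝ) = ((2 : ℝ) ^ (2 / ε')) ^ (ε' / 2) := by
          rw [← Real.rpow_mul (by norm_num)]
          rw [show 2 / ε' * (ε' / 2) = 1 by field_simp, Real.rpow_one]
      _ ≤ L ^ (ε' / 2) := Real.rpow_le_rpow (by positivity) h1 (by linarith)
  obtain ⟨hWin1, hWin2⟩ := hWin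
  have hX1r : (1 : ℝ) ≤ X := by
    have : (3 : ℝ) ≤ X := by exact_mod_cast hX3
    linarith
  have hH1 : 1 ≤ H := by
    rcases Nat.eq_zero_or_pos H with h | h
    · subst h
      have : (0 : ℝ) < (X : ℝ) ^ (1 / 2 + ε) := Real.rpow_pos_of_pos hXpos _
      simp at hWin1
      linarith
    · exact h
  have hHX : H ≤ X := by
    have h1 : ((2 * H : ℕ) : ℝ) ≤ X := hWin2.trans (by
      calc (X : ℝ) ^ (3 / 4 : ℝ) ≤ (X : ℝ) ^ (1 : ℝ) :=
            Real.rpow_le_rpow_of_exponent_le hX1r (by norm_num)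
        _ = X := Real.rpow_one _)
    have : 2 * H ≤ X := by exact_mod_cast h1
    omega
  rcases Nat.eq_zero_or_pos Q with hQ0 | hQpos
  · subst hQ0
    simp
    positivity
  have hexp : Real.exp (-L ^ ε') ≤ Real.exp (-(2 * L ^ (ε' / 2))) := by
    apply Real.exp_le_exp.mpr
    have : L ^ ε' = L ^ (ε' / 2) * L ^ (ε' / 2) := by
      rw [← Real.rpow_add hL0]; congr 1; ring
    rw [this]
    nlinarith
  have hexp1 : Real.exp (-L ^ ε') ≤ 1 := by
    rw [Real.exp_le_one_iff]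
    have := Real.rpow_nonneg hL0.le ε'
    linarith
  have hQX : Q ≤ 2 * X := by
    have : (Q : ℝ) ≤ 2 * X := hQ.trans (by nlinarith)
    exact_mod_cast this
  -- cutoff
  set E0 : ℕ := ⌊L ^ (A + 6)⌋₊ with hE0
  have hE0le : (E0 : ℝ) ≤ L ^ (A + 6) := Nat.floor_le (by positivity)
  have hE0lt : L ^ (A + 6) < E0 + 1 := Nat.lt_floor_add_one _
  have hE0pos : 1 ≤ E0 := by
    rw [hE0]
    apply Nat.le_floor
    push_cast
    exact one_le_pow₀ (by linarith)
  set M : ℕ := Q * E0 with hM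
  have hMpos : 1 ≤ M := Nat.mul_pos hQpos hE0pos
  have hMle : (M : ℝ) ≤ X * Real.exp (-L ^ (ε' / 2)) := by
    rw [hM]
    push_cast
    have h2L := h₂ X hX2
    rw [← hL] at h2L
    calc (Q : ℝ) * E0 ≤ (2 * X * Real.exp (-L ^ ε')) * L ^ (A + 6) :=
          mul_le_mul hQ hE0le (Nat.cast_nonneg _) (by positivity)
      _ ≤ (2 * X * Real.exp (-(2 * L ^ (ε' / 2)))) * L ^ (A + 6) := by gcongr
      _ = X * Real.exp (-(2 * L ^ (ε' / 2))) * (2 * L ^ (A + 6)) := by ring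
      _ ≤ X * Real.exp (-(2 * L ^ (ε' / 2))) * Real.exp (L ^ (ε' / 2)) := by
          apply mul_le_mul_of_nonneg_left _ (by positivity)
          refine le_trans ?_ h2L
          rw [pow_succ L (A + 6)]
          nlinarith [pow_pos hL0 (A + 6)]
      _ = X * Real.exp (-L ^ (ε' / 2)) := by
          rw [mul_assoc, ← Real.exp_add]
          congr 2
          ring
  have hMX : (M : ℝ) ≤ X := hMle.trans (by
    have : Real.exp (-L ^ (ε' / 2)) ≤ 1 := by
      rw [Real.exp_le_one_iff]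
      linarith
    nlinarith)
  -- number of blocks
  have hJ : ((Nat.log 2 M + 1 : ℕ) : ℝ) ≤ 3 * L := by
    have h1 : (2 : ℝ) ^ (Nat.log 2 M) ≤ X := by
      refine le_trans ?_ hMX
      exact_mod_cast Nat.pow_log_le_self 2 (by omega)
    have h2 := Real.log_le_log (by positivity) h1
    rw [Real.log_pow, ← hL] at h2
    have h3 := Real.log_two_gt_d9
    push_cast
    nlinarith [Nat.cast_nonneg (α := ℝ) (Nat.log 2 M)]
  -- the block bound
  have hblock : ∀ i, i ≤ 1 → ∀ e ∈ Icc 1 E0, ∀ j ∈ range (Nat.log 2 M + 1),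
      ∑ N ∈ Ioc X (X + H), ∑ m ∈ Ico (2 ^ j) (2 * 2 ^ j), FF X i e N m ≤
        2 * H * X / L ^ (A + (A + 6) + 3) := by
    intro i hi e he j hj
    obtain ⟨he1, he2⟩ := Finset.mem_Icc.mp he
    rw [Finset.mem_range] at hj
    have hP : (2 : ℕ) ^ j ≤ M := by
      calc (2 : ℕ) ^ j ≤ 2 ^ (Nat.log 2 M) := Nat.pow_le_pow_right (by norm_num) (by omega)
        _ ≤ M := Nat.pow_log_le_self 2 (by omega)
    have hP1 : 1 ≤ (2 : ℕ) ^ j := Nat.one_le_two_pow
    have hMd : Md (ε' / 2) X (2 ^ j) := by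
      refine ⟨hP1, ?_⟩
      have : (((2 : ℕ) ^ j : ℕ) : ℝ) ≤ M := by exact_mod_cast hP
      exact this.trans hMle
    have hed : (e : ℝ) ≤ Real.log X ^ (A + 6) := by
      rw [← hL]
      exact le_trans (by exact_mod_cast he2) hE0le
    have hcore := h₁ X hX1 (2 * H) ⟨hWin1, hWin2⟩ (2 ^ j) hMd e he1 hed i hi
    have h3 := block_le rfl hH1 hHX hP1 hcore
    have hP0 : (0 : ℝ) < ((2 ^ j : ℕ) : ℝ) := by positivity
    have h4 : (H : ℝ) * ((2 ^ j : ℕ) : ℝ) * (2 * Bd (2 * (A + (A + 6) + 3)) X (2 * H) (2 ^ j)) =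
        (2 * H * X / L ^ (A + (A + 6) + 3)) ^ 2 := by
      unfold Bd
      rw [← hL, mul_comm 2 (A + (A + 6) + 3), pow_mul]
      push_cast
      push_cast at hP0
      have hLp : L ^ (A + (A + 6) + 3) ≠ 0 := by positivity
      field_simp
    rw [h4] at h3
    exact le_of_sq_le_sq h3 (by positivity)
  -- assemble
  have hmain : ∀ i, i ≤ 1 → ∑ N ∈ Ioc X (X + H), ∑ q ∈ Icc 1 Q, ∑ e ∈ q.divisors, FF X i e N (q * e)
      ≤ L ^ (A + 6) * (3 * L) * (2 * H * X / L ^ (A + (A + 6) + 3)) +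
        H * (2 * X * (4 * L ^ 2 + 4) / L ^ (A + 6) * (3 * L) ^ 2) := by
    intro i hi
    have hsplit : ∀ N ∈ Ioc X (X + H), ∑ q ∈ Icc 1 Q, ∑ e ∈ q.divisors, FF X i e N (q * e) ≤
        ∑ e ∈ Icc 1 E0, ∑ j ∈ range (Nat.log 2 M + 1),
          ∑ m ∈ Ico (2 ^ j) (2 * 2 ^ j), FF X i e N m +
        2 * X * (4 * L ^ 2 + 4) / L ^ (A + 6) * (3 * L) ^ 2 := by
      intro N hN
      obtain ⟨hN1, hN2⟩ := Finset.mem_Ioc.mp hN
      have e1 : ∑ q ∈ Icc 1 Q, ∑ e ∈ q.divisors, FF X i e N (q * e) =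
          ∑ q ∈ Icc 1 Q, ∑ e ∈ q.divisors.filter (fun e => e ≤ E0), FF X i e N (q * e) +
          ∑ q ∈ Icc 1 Q, ∑ e ∈ q.divisors.filter (fun e => ¬ e ≤ E0), FF X i e N (q * e) := by
        rw [← Finset.sum_add_distrib]
        refine Finset.sum_congr rfl fun q _ => ?_
        rw [Finset.sum_filter_add_sum_filter_not]
      rw [e1]
      refine add_le_add small_le ?_
      have hNX : N ≤ 2 * X := by omega
      refine (tail_le hX3 hNX hi (by positivity) hE0lt).trans ?_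
      apply mul_le_mul_of_nonneg_left _ (by positivity)
      apply pow_le_pow_left₀ (Hs_nonneg Q)
      refine (Hs_le Q).trans ?_
      have h5 : Real.log Q ≤ Real.log (2 * X) := by
        apply Real.log_le_log (by exact_mod_cast hQpos)
        exact_mod_cast hQX
      rw [Real.log_mul (by norm_num) hXpos.ne', ← hL] at h5
      have h6 := Real.log_two_lt_d9
      linarith
    refine (Finset.sum_le_sum hsplit).trans ?_
    rw [Finset.sum_add_distrib]
    refine add_le_add ?_ ?_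
    · rw [Finset.sum_comm]
      have h7 : ∀ e ∈ Icc 1 E0, ∑ N ∈ Ioc X (X + H), ∑ j ∈ range (Nat.log 2 M + 1),
          ∑ m ∈ Ico (2 ^ j) (2 * 2 ^ j), FF X i e N m ≤
          (3 * L) * (2 * H * X / L ^ (A + (A + 6) + 3)) := by
        intro e he
        rw [Finset.sum_comm]
        refine (Finset.sum_le_sum fun j hj => hblock i hi e he j hj).trans ?_
        rw [Finset.sum_const, Finset.card_range, nsmul_eq_mul]
        exact mul_le_mul_of_nonneg_right hJ (by positivity)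
      refine (Finset.sum_le_sum h7).trans ?_
      rw [Finset.sum_const, Nat.card_Icc, nsmul_eq_mul, Nat.add_sub_cancel, mul_assoc (L ^ (A + 6))]
      exact mul_le_mul_of_nonneg_right hE0le (by positivity)
    · rw [Finset.sum_const, Nat.card_Ioc, nsmul_eq_mul]
      simp
  have hfin : ∑ N ∈ Ioc X (X + H), ∑ q ∈ Icc 1 Q, |Pool.Agent.DEH.E g N q| ≤
      4 * L * ∑ i ∈ range 2, ∑ N ∈ Ioc X (X + H), ∑ q ∈ Icc 1 Q, ∑ e ∈ q.divisors,
        FF X i e N (q * e) := by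
    have h8 : ∀ N ∈ Ioc X (X + H), ∑ q ∈ Icc 1 Q, |Pool.Agent.DEH.E g N q| ≤
        ∑ q ∈ Icc 1 Q, 4 * L * ∑ i ∈ range 2, ∑ e ∈ q.divisors, FF X i e N (q * e) := by
      intro N hN
      obtain ⟨hN1, hN2⟩ := Finset.mem_Ioc.mp hN
      refine Finset.sum_le_sum fun q hq => ?_
      obtain ⟨hq1, hq2⟩ := Finset.mem_Icc.mp hq
      exact E_le hX3 (by linarith) (by omega) (by omega) hq1 (hq2.trans hQX) hg
    refine (Finset.sum_le_sum h8).trans (le_of_eq ?_)
    simp_rw [← Finset.mul_sum]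
    congr 1
    symm
    rw [Finset.sum_comm]
    refine Finset.sum_congr rfl fun N _ => ?_
    rw [Finset.sum_comm]
  refine hfin.trans ?_
  have h9 : ∑ i ∈ range 2, ∑ N ∈ Ioc X (X + H), ∑ q ∈ Icc 1 Q, ∑ e ∈ q.divisors,
        FF X i e N (q * e) ≤ 2 * (L ^ (A + 6) * (3 * L) * (2 * H * X / L ^ (A + (A + 6) + 3)) +
        H * (2 * X * (4 * L ^ 2 + 4) / L ^ (A + 6) * (3 * L) ^ 2)) := by
    rw [Finset.sum_range_succ, Finset.sum_range_one]
    linarith [hmain 0 (by norm_num), hmain 1 le_rfl]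
  calc 4 * L * _ ≤ 4 * L * (2 * (L ^ (A + 6) * (3 * L) * (2 * H * X / L ^ (A + (A + 6) + 3)) +
        H * (2 * X * (4 * L ^ 2 + 4) / L ^ (A + 6) * (3 * L) ^ 2))) :=
        mul_le_mul_of_nonneg_left h9 (by positivity)
    _ = (H * X / L ^ A) * (48 / L + 144 * (4 * L ^ 2 + 4) / L ^ 3) := by
        have hLA : L ^ A ≠ 0 := by positivity
        have hLne : L ≠ 0 := hL0.ne'
        rw [show A + (A + 6) + 3 = A + A + 9 by ring, pow_add L (A + A) 9, pow_add L A A,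
          pow_add L A 6]
        field_simp
        ring
    _ ≤ (H * X / L ^ A) * 1 := by
        apply mul_le_mul_of_nonneg_left _ (by positivity)
        have h10 : 48 / L ≤ 1 / 48 := by
          rw [div_le_div_iff₀ hL0 (by norm_num)]
          linarith
        have h11 : 144 * (4 * L ^ 2 + 4) / L ^ 3 ≤ 1 / 2 := by
          rw [div_le_div_iff₀ (by positivity) (by norm_num)]
          nlinarith [mul_le_mul hL1 hL1 (by norm_num) hL0.le, sq_nonneg L, pow_pos hL0 2]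
        linarith
    _ = _ := mul_one _

end Pool.Agent.SInt
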