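import Pool.Agent.SInt.ExpKap
import Pool.Agent.SInt.GoodP
import Pool.Agent.SInt.MidT
import Pool.Agent.SInt.BadT
import Pool.Agent.SInt.FhSq
import Pool.Agent.SInt.Decomp
import Pool.Agent.SInt.Norm
import Pool.Agent.SInt.Asy

open Finset Complex
open scoped ArithmeticFunction.Moebius ArithmeticFunction.vonMangoldt

namespace Pool.Agent.SInt

open Pool.Agent.ANT

private lemma tm_norm_ct (c : ℕ → ℂ) (θ : ℝ) (q k : ℕ) : ‖ct c θ q k‖ = ‖c k‖ := by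
  unfold ct
  rw [norm_mul, norm_ee, mul_one]

/-- `‖∫_E f‖² ≤ vol(E) ∫_E ‖f‖²` for a bounded measurable set and a continuous function. -/
private lemma tm_cs {E : Set ℝ} {T : ℝ} (hET : E ⊆ Set.Icc (-T) T) {f : ℝ → ℂ}
    (hf : Continuous f) :
    ‖∫ t in E, f t‖ ^ 2 ≤ (MeasureTheory.volume E).toReal * ∫ t in E, ‖f t‖ ^ 2 := by
  have hEfin : MeasureTheory.volume E ≠ ⊤ := by
    refine ne_top_of_le_ne_top ?_ (MeasureTheory.measure_mono hET)
    simp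
  have hi1 : MeasureTheory.IntegrableOn (fun t => ‖f t‖) E :=
    (hf.norm.continuousOn.integrableOn_compact isCompact_Icc).mono_set hET
  have hi2 : MeasureTheory.IntegrableOn (fun t => ‖f t‖ ^ 2) E :=
    ((hf.norm.pow 2).continuousOn.integrableOn_compact isCompact_Icc).mono_set hET
  have hic : ∀ c : ℝ, MeasureTheory.IntegrableOn (fun _ : ℝ => c) E := fun c =>
    MeasureTheory.integrableOn_const hEfin
  set m := (MeasureTheory.volume E).toReal with hm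
  set A := ∫ t in E, ‖f t‖ with hA
  set B := ∫ t in E, ‖f t‖ ^ 2 with hB
  have hm0 : 0 ≤ m := ENNReal.toReal_nonneg
  have hA0 : 0 ≤ A := MeasureTheory.integral_nonneg (fun t => norm_nonneg _)
  have hB0 : 0 ≤ B := MeasureTheory.integral_nonneg (fun t => sq_nonneg _)
  have hAf : ‖∫ t in E, f t‖ ≤ A := MeasureTheory.norm_integral_le_integral_norm _
  have key : ∀ c : ℝ, 0 ≤ B - 2 * c * A + c ^ 2 * m := by
    intro c
    have h0 : 0 ≤ ∫ t in E, (‖f t‖ - c) ^ 2 := MeasureTheory.integral_nonneg (fun t => sq_nonneg _)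
    have h1 : ∫ t in E, (‖f t‖ - c) ^ 2 = B - 2 * c * A + c ^ 2 * m := by
      have e1 : (fun t => (‖f t‖ - c) ^ 2) = fun t => (‖f t‖ ^ 2 - 2 * c * ‖f t‖) + c ^ 2 := by
        funext t
        ring
      have e2 : ∫ t in E, ((‖f t‖ ^ 2 - 2 * c * ‖f t‖) + c ^ 2) =
          (∫ t in E, (‖f t‖ ^ 2 - 2 * c * ‖f t‖)) + ∫ t in E, c ^ 2 :=
        MeasureTheory.integral_add (hi2.sub (hi1.const_mul (2 * c))) (hic _)
      have e3 : ∫ t in E, (‖f t‖ ^ 2 - 2 * c * ‖f t‖) = B - ∫ t in E, 2 * c * ‖f t‖ :=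
        MeasureTheory.integral_sub hi2 (hi1.const_mul (2 * c))
      rw [e1, e2, e3, MeasureTheory.integral_const_mul, MeasureTheory.setIntegral_const]
      simp only [smul_eq_mul, MeasureTheory.Measure.real]
      rw [← hm, ← hA]
      ring
    linarith
  have hAB : A ^ 2 ≤ m * B := by
    rcases eq_or_lt_of_le hm0 with h0 | hpos
    · have hA0' : A = 0 := by
        have : MeasureTheory.volume E = 0 := by
          rcases (ENNReal.toReal_eq_zero_iff _).1 h0.symm with h | h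
          · exact h
          · exact absurd h hEfin
        rw [hA, MeasureTheory.setIntegral_measure_zero _ this]
      rw [hA0', ← h0]
      simp
    · have h2 := key (A / m)
      have h3 : B - 2 * (A / m) * A + (A / m) ^ 2 * m = B - A ^ 2 / m := by
        field_simp
        ring
      rw [h3] at h2
      have h4 : A ^ 2 / m ≤ B := by linarith
      rw [div_le_iff₀ hpos] at h4
      linarith
  calc ‖∫ t in E, f t‖ ^ 2 ≤ A ^ 2 := pow_le_pow_left₀ (norm_nonneg _) hAf 2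
    _ ≤ _ := hAB


private lemma tm_EG_cont (D K : ℕ) (c : ℕ → ℕ → ℂ) (N q : ℕ) :
    Continuous (fun t : ℝ => EG c K (fun v => kap D v t) N q) := by
  unfold EG
  exact continuous_finsetSum _ (fun k _ => continuous_const.mul (continuous_kap D _))

private lemma tm_EG_int {E : Set ℝ} (hE : MeasurableSet E) {T : ℝ} (hET : E ⊆ Set.Icc (-T) T) {F : ℝ → ℂ}
    (hF : Continuous F) (D K : ℕ) (c : ℕ → ℕ → ℂ) (N q : ℕ) :
    EG c K (fun v => (1 / (2 * Real.pi) : ℂ) * ∫ t : ℝ, E.indicator F t * kap D v t) N q =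
      (1 / (2 * Real.pi) : ℂ) * ∫ t in E, F t * EG c K (fun v => kap D v t) N q := by
  have h1 : ∀ v : ℤ, ∫ t : ℝ, E.indicator F t * kap D v t = ∫ t in E, F t * kap D v t := by
    intro v
    rw [← MeasureTheory.integral_indicator hE]
    refine MeasureTheory.integral_congr_ae (Filter.Eventually.of_forall (fun t => ?_))
    simp only [Set.indicator]
    split_ifs <;> simp
  have hi : ∀ v : ℤ, MeasureTheory.IntegrableOn (fun t => F t * kap D v t) E := fun v =>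
    ((hF.mul (continuous_kap D v)).continuousOn.integrableOn_compact isCompact_Icc).mono_set hET
  unfold EG
  simp only [h1]
  have h2 : ∀ t : ℝ, F t * ∑ k ∈ Icc 1 K, c q k * kap D ((N : ℤ) - q * k) t =
      ∑ k ∈ Icc 1 K, c q k * (F t * kap D ((N : ℤ) - q * k) t) := by
    intro t
    rw [Finset.mul_sum]
    refine Finset.sum_congr rfl (fun k _ => by ring)
  simp only [h2]
  rw [MeasureTheory.integral_finsetSum _ (fun k _ => (hi _).const_mul _), Finset.mul_sum]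
  refine Finset.sum_congr rfl (fun k _ => ?_)
  rw [MeasureTheory.integral_const_mul]
  ring

/-- The bad set. -/
private lemma tm_bad {W X K D : ℕ} {S : Finset ℕ} {c : ℕ → ℕ → ℂ} {F : ℝ → ℂ} (hF : Continuous F) {E : Set ℝ}
    (hE : MeasurableSet E) {T : ℝ} (hET : E ⊆ Set.Icc (-T) T) {B τ : ℝ} (hB : ∀ t, ‖F t‖ ≤ B)
    (hτ : ∀ t ∈ E, TT W X S c K (fun v => kap D v t) ≤ τ) :
    TT W X S c K (fun v => (1 / (2 * Real.pi) : ℂ) * ∫ t : ℝ, E.indicator F t * kap D v t) ≤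
      (MeasureTheory.volume E).toReal ^ 2 * B ^ 2 * τ := by
  set m := (MeasureTheory.volume E).toReal with hm
  have hm0 : 0 ≤ m := ENNReal.toReal_nonneg
  have hEfin : MeasureTheory.volume E ≠ ⊤ := by
    refine ne_top_of_le_ne_top ?_ (MeasureTheory.measure_mono hET)
    simp
  have hpi : ‖(1 / (2 * Real.pi) : ℂ)‖ ^ 2 ≤ 1 := by
    have : ‖(1 / (2 * Real.pi) : ℂ)‖ ≤ 1 := by
      rw [norm_div, norm_one, norm_mul]
      simp only [Complex.norm_ofNat, Complex.norm_real, Real.norm_eq_abs, abs_of_pos Real.pi_pos]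
      rw [div_le_one (by positivity)]
      linarith [Real.pi_gt_three]
    exact pow_le_one₀ (norm_nonneg _) this
  have hfc : ∀ N q : ℕ, Continuous (fun t : ℝ => F t * EG c K (fun v => kap D v t) N q) := fun N q =>
    hF.mul (tm_EG_cont D K c N q)
  have hfi : ∀ N q : ℕ, MeasureTheory.IntegrableOn
      (fun t : ℝ => ‖F t * EG c K (fun v => kap D v t) N q‖ ^ 2) E := fun N q =>
    (((hfc N q).norm.pow 2).continuousOn.integrableOn_compact isCompact_Icc).mono_set hET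
  have hstep : ∀ N q : ℕ,
      ‖EG c K (fun v => (1 / (2 * Real.pi) : ℂ) * ∫ t : ℝ, E.indicator F t * kap D v t) N q‖ ^ 2 ≤
        m * ∫ t in E, ‖F t * EG c K (fun v => kap D v t) N q‖ ^ 2 := by
    intro N q
    rw [tm_EG_int hE hET hF, norm_mul, mul_pow]
    calc ‖(1 / (2 * Real.pi) : ℂ)‖ ^ 2 * ‖∫ t in E, F t * EG c K (fun v => kap D v t) N q‖ ^ 2
        ≤ 1 * ‖∫ t in E, F t * EG c K (fun v => kap D v t) N q‖ ^ 2 :=
          mul_le_mul_of_nonneg_right hpi (sq_nonneg _)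
      _ = ‖∫ t in E, F t * EG c K (fun v => kap D v t) N q‖ ^ 2 := one_mul _
      _ ≤ _ := tm_cs hET (hfc N q)
  have hsum : ∑ q ∈ S, ∑ N ∈ Ioo (X - W) (X + W), tri W ((N : ℝ) - X) *
      (m * ∫ t in E, ‖F t * EG c K (fun v => kap D v t) N q‖ ^ 2) =
      m * ∫ t in E, ‖F t‖ ^ 2 * TT W X S c K (fun v => kap D v t) := by
    have e1 : ∀ t : ℝ, ‖F t‖ ^ 2 * TT W X S c K (fun v => kap D v t) =
        ∑ q ∈ S, ∑ N ∈ Ioo (X - W) (X + W), tri W ((N : ℝ) - X) *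
          ‖F t * EG c K (fun v => kap D v t) N q‖ ^ 2 := by
      intro t
      unfold TT
      rw [Finset.mul_sum]
      refine Finset.sum_congr rfl (fun q _ => ?_)
      rw [Finset.mul_sum]
      refine Finset.sum_congr rfl (fun N _ => ?_)
      rw [norm_mul]
      ring
    simp only [e1]
    rw [MeasureTheory.integral_finsetSum _ (fun q _ => MeasureTheory.integrable_finsetSum _
      (fun N _ => (hfi N q).const_mul _)), Finset.mul_sum]
    refine Finset.sum_congr rfl (fun q _ => ?_)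
    rw [MeasureTheory.integral_finsetSum _ (fun N _ => (hfi N q).const_mul _), Finset.mul_sum]
    refine Finset.sum_congr rfl (fun N _ => ?_)
    rw [MeasureTheory.integral_const_mul]
    ring
  have hTTc : Continuous (fun t : ℝ => ‖F t‖ ^ 2 * TT W X S c K (fun v => kap D v t)) := by
    refine (hF.norm.pow 2).mul ?_
    unfold TT
    exact continuous_finsetSum _ (fun q _ => continuous_finsetSum _ (fun N _ =>
      continuous_const.mul ((tm_EG_cont D K c N q).norm.pow 2)))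
  calc TT W X S c K (fun v => (1 / (2 * Real.pi) : ℂ) * ∫ t : ℝ, E.indicator F t * kap D v t)
      ≤ ∑ q ∈ S, ∑ N ∈ Ioo (X - W) (X + W), tri W ((N : ℝ) - X) *
          (m * ∫ t in E, ‖F t * EG c K (fun v => kap D v t) N q‖ ^ 2) := by
        unfold TT
        exact Finset.sum_le_sum (fun q _ => Finset.sum_le_sum (fun N _ =>
          mul_le_mul_of_nonneg_left (hstep N q) (tri_nonneg _ _)))
    _ = m * ∫ t in E, ‖F t‖ ^ 2 * TT W X S c K (fun v => kap D v t) := hsum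
    _ ≤ m * (B ^ 2 * τ * m) := by
        refine mul_le_mul_of_nonneg_left ?_ hm0
        have e2 : ∫ t in E, (B ^ 2 * τ : ℝ) = B ^ 2 * τ * m := by
          rw [MeasureTheory.setIntegral_const]
          simp only [smul_eq_mul, MeasureTheory.Measure.real]
          rw [← hm]
          ring
        rw [← e2]
        refine MeasureTheory.setIntegral_mono_on
          ((hTTc.continuousOn.integrableOn_compact isCompact_Icc).mono_set hET)
          (MeasureTheory.integrableOn_const hEfin) hE (fun t ht => ?_)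
        have h1 : ‖F t‖ ^ 2 ≤ B ^ 2 := pow_le_pow_left₀ (norm_nonneg _) (hB t) 2
        exact mul_le_mul h1 (hτ t ht) TT_nonneg (sq_nonneg _)
    _ = m ^ 2 * B ^ 2 * τ := by ring


/-- `TT` for functions of small `ℓ²` norm. -/
private lemma tm_small : ∃ C : ℝ, 0 < C ∧ ∀ (X W Q K D : ℕ) (c : ℕ → ℕ → ℂ) (g : ℤ → ℂ) (s : ℝ),
    3 ≤ X → 1 ≤ W → W ≤ X → X ≤ W ^ 2 → D ≤ X → 1 ≤ Q → (K : ℝ) ≤ 5 * X / Q → 1 ≤ Real.log X →
    (∀ q ∈ Ico Q (2 * Q), ∀ k ∈ Icc 1 K, ‖c q k‖ ≤ 3 * Real.log X) →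
    (∀ v : ℤ, v < -(D : ℤ) → g v = 0) →
    (∑ v ∈ Icc (-(D : ℤ)) ((2 * X : ℕ) : ℤ), ‖g v‖ ^ 2 ≤ s) →
    TT W X (Ico Q (2 * Q)) c K g ≤ C * Real.log X ^ 3 * (X / Q) * W * s := by
  obtain ⟨C, hC, h⟩ := TT_norm
  refine ⟨45 * C, by positivity, ?_⟩
  intro X W Q K D c g s hX hW hWX hXW hDX hQ hK hL hc hg hs
  have hcong : TT W X (Ico Q (2 * Q)) c K g =
      TT W X (Ico Q (2 * Q)) c K (fun v => if v ≤ ((2 * X : ℕ) : ℤ) then g v else 0) := by
    refine TT_congr_g (fun v hv => ?_)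
    rw [if_pos]
    push_cast
    omega
  rw [hcong]
  have h1 := h W X K (2 * X) (Ico Q (2 * Q)) c (3 * Real.log X)
    (fun v => if v ≤ ((2 * X : ℕ) : ℤ) then g v else 0) hX hW hWX hXW (by omega) (by linarith)
    (fun q hq => le_trans hQ (Finset.mem_Ico.1 hq).1) hc (by
      intro n hn
      by_cases hn2 : n ≤ ((2 * X : ℕ) : ℤ)
      · have : n < -(D : ℤ) := by
          have h3 : ((2 * X : ℕ) : ℤ) < |n| := hn
          rcases abs_cases n with ⟨h4, h5⟩ | ⟨h4, h5⟩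
          · rw [h4] at h3
            omega
          · rw [h4] at h3
            push_cast at h3
            omega
        simp only [if_pos hn2]
        exact hg n this
      · simp only [if_neg hn2])
  have h2 : ∑ n ∈ Icc (-((2 * X : ℕ) : ℤ)) ((2 * X : ℕ) : ℤ),
      ‖(fun v => if v ≤ ((2 * X : ℕ) : ℤ) then g v else 0) n‖ ^ 2 ≤ s := by
    refine le_trans (le_of_eq ?_) hs
    symm
    have hsub : Icc (-(D : ℤ)) ((2 * X : ℕ) : ℤ) ⊆ Icc (-((2 * X : ℕ) : ℤ)) ((2 * X : ℕ) : ℤ) := by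
      refine Finset.Icc_subset_Icc_left ?_
      push_cast
      omega
    rw [← Finset.sum_subset hsub]
    · refine Finset.sum_congr rfl (fun n hn => ?_)
      simp only [if_pos (Finset.mem_Icc.1 hn).2]
    · intro n hn hn'
      have h5 := Finset.mem_Icc.1 hn
      have h6 : n < -(D : ℤ) := by
        by_contra hcon
        exact hn' (Finset.mem_Icc.2 ⟨by omega, h5.2⟩)
      simp only [if_pos h5.2, hg n h6, norm_zero]
      norm_num
  have hs0 : 0 ≤ s := le_trans (Finset.sum_nonneg (fun _ _ => sq_nonneg _)) hs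
  have hL0 : 0 ≤ Real.log X := by linarith
  calc _ ≤ _ := h1
    _ ≤ C * (3 * Real.log X) ^ 2 * K * W * Real.log X * s :=
        mul_le_mul_of_nonneg_left h2 (by positivity)
    _ = (9 * C * Real.log X ^ 3 * W * s) * K := by ring
    _ ≤ (9 * C * Real.log X ^ 3 * W * s) * (5 * X / Q) :=
        mul_le_mul_of_nonneg_left hK (by positivity)
    _ = _ := by ring

open MeasureTheory in
private lemma tm_ind {E : Set ℝ} (hE : MeasurableSet E) {T : ℝ} (hET : E ⊆ Set.Icc (-T) T) {F : ℝ → ℂ}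
    (hF : Continuous F) : Integrable (fun t => E.indicator F t) ∧
      Integrable (fun t => ‖E.indicator F t‖ ^ 2) := by
  have e1 : (fun t => ‖E.indicator F t‖ ^ 2) = E.indicator (fun t => ‖F t‖ ^ 2) := by
    funext t
    simp only [Set.indicator]
    split_ifs <;> simp
  constructor
  · exact (integrable_indicator_iff hE).2
      ((hF.continuousOn.integrableOn_compact isCompact_Icc).mono_set hET)
  · rw [e1]
    exact (integrable_indicator_iff hE).2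
      (((hF.norm.pow 2).continuousOn.integrableOn_compact isCompact_Icc).mono_set hET)

open MeasureTheory in
/-- `∫ ‖1_E P R‖² ≤ V² ∫_{[-T,T]} ‖R‖²` -/
private lemma tm_ind_le {E : Set ℝ} (hE : MeasurableSet E) {T : ℝ} (hET : E ⊆ Set.Icc (-T) T) {P R : ℝ → ℂ}
    (hP : Continuous P) (hR : Continuous R) {V : ℝ} (hV : ∀ t ∈ E, ‖P t‖ ≤ V) :
    ∫ t, ‖E.indicator (fun t => P t * R t) t‖ ^ 2 ≤ V ^ 2 * ∫ t in Set.Icc (-T) T, ‖R t‖ ^ 2 := by
  have e1 : (fun t => ‖E.indicator (fun t => P t * R t) t‖ ^ 2) = E.indicator (fun t => ‖P t * R t‖ ^ 2) := by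
    funext t
    simp only [Set.indicator]
    split_ifs <;> simp
  rw [e1, integral_indicator hE, ← integral_const_mul]
  have hi1 : IntegrableOn (fun t => ‖P t * R t‖ ^ 2) (Set.Icc (-T) T) :=
    (((hP.mul hR).norm.pow 2).continuousOn.integrableOn_compact isCompact_Icc)
  have hi2 : IntegrableOn (fun t => V ^ 2 * ‖R t‖ ^ 2) (Set.Icc (-T) T) :=
    ((continuous_const.mul (hR.norm.pow 2)).continuousOn.integrableOn_compact isCompact_Icc)
  calc ∫ t in E, ‖P t * R t‖ ^ 2 ≤ ∫ t in E, V ^ 2 * ‖R t‖ ^ 2 := by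
        refine setIntegral_mono_on (hi1.mono_set hET) (hi2.mono_set hET) hE (fun t ht => ?_)
        rw [norm_mul, mul_pow]
        exact mul_le_mul_of_nonneg_right (pow_le_pow_left₀ (norm_nonneg _) (hV t ht) 2) (sq_nonneg _)
    _ ≤ ∫ t in Set.Icc (-T) T, V ^ 2 * ‖R t‖ ^ 2 :=
        setIntegral_mono_set hi2 (Filter.Eventually.of_forall (fun t => by positivity))
          (Filter.Eventually.of_forall hET)

open MeasureTheory in
/-- the middle range -/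
private lemma tm_mid {T T' : ℝ} (hT : 0 < T) {F : ℝ → ℂ} (hF : Continuous F) :
    ∫ t, ‖(Set.Icc (-T') T' \ Set.Icc (-T) T).indicator F t‖ ^ 2 / (1 + t ^ 2) ≤
      1 / T ^ 2 * ∫ t in Set.Icc (-T') T', ‖F t‖ ^ 2 := by
  set E := Set.Icc (-T') T' \ Set.Icc (-T) T with hE
  have hEm : MeasurableSet E := measurableSet_Icc.diff measurableSet_Icc
  have hET : E ⊆ Set.Icc (-T') T' := Set.sdiff_subset
  have e1 : (fun t => ‖E.indicator F t‖ ^ 2 / (1 + t ^ 2)) =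
      E.indicator (fun t => ‖F t‖ ^ 2 / (1 + t ^ 2)) := by
    funext t
    simp only [Set.indicator]
    split_ifs <;> simp
  rw [e1, integral_indicator hEm, ← integral_const_mul]
  have hc : Continuous (fun t : ℝ => ‖F t‖ ^ 2 / (1 + t ^ 2)) := by
    refine (hF.norm.pow 2).div (by fun_prop) (fun t => ?_)
    positivity
  have hi1 : IntegrableOn (fun t => ‖F t‖ ^ 2 / (1 + t ^ 2)) (Set.Icc (-T') T') :=
    (hc.continuousOn.integrableOn_compact isCompact_Icc)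
  have hi2 : IntegrableOn (fun t => 1 / T ^ 2 * ‖F t‖ ^ 2) (Set.Icc (-T') T') :=
    ((continuous_const.mul (hF.norm.pow 2)).continuousOn.integrableOn_compact isCompact_Icc)
  calc ∫ t in E, ‖F t‖ ^ 2 / (1 + t ^ 2) ≤ ∫ t in E, 1 / T ^ 2 * ‖F t‖ ^ 2 := by
        refine setIntegral_mono_on (hi1.mono_set hET) (hi2.mono_set hET) hEm (fun t ht => ?_)
        have ht1 : T < |t| := by
          by_contra hcon
          push Not at hcon
          exact ht.2 (Set.mem_Icc.2 (abs_le.1 hcon))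
        have ht2 : T ^ 2 ≤ 1 + t ^ 2 := by
          have : T ^ 2 ≤ |t| ^ 2 := pow_le_pow_left₀ hT.le ht1.le 2
          rw [sq_abs] at this
          linarith
        rw [div_eq_mul_one_div, mul_comm]
        exact mul_le_mul_of_nonneg_right (one_div_le_one_div_of_le (by positivity) ht2) (sq_nonneg _)
    _ ≤ ∫ t in Set.Icc (-T') T', 1 / T ^ 2 * ‖F t‖ ^ 2 :=
        setIntegral_mono_set hi2 (Filter.Eventually.of_forall (fun t => by positivity))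
          (Filter.Eventually.of_forall hET)


private lemma tm_log_ge (M : ℝ) : ∃ X₀ : ℕ, ∀ X : ℕ, X₀ ≤ X → M ≤ Real.log X ∧ 3 ≤ X := by
  have h := (Real.tendsto_log_atTop.comp tendsto_natCast_atTop_atTop).eventually_ge_atTop M
  obtain ⟨X₀, h0⟩ := Filter.eventually_atTop.1 h
  exact ⟨max X₀ 3, fun X hX => ⟨h0 X (le_trans (le_max_left _ _) hX), le_trans (le_max_right _ _) hX⟩⟩

private lemma tm_zero_int {D : ℕ} {v : ℤ} (hv : v ≤ -(D : ℤ)) (φ : ℝ → ℂ) :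
    (1 / (2 * Real.pi) : ℂ) * ∫ t : ℝ, φ t * kap D v t = 0 := by
  have : ∀ t, φ t * kap D v t = 0 := fun t => by rw [kap_zero hv, mul_zero]
  simp only [this, MeasureTheory.integral_zero, mul_zero]

/-- four pieces -/
private lemma tm_four {W X K : ℕ} {S : Finset ℕ} {c : ℕ → ℕ → ℂ} (g g1 g2 g3 g4 : ℤ → ℂ)
    (hg : ∀ v, g v = (g1 v + g2 v) + (g3 v + g4 v)) {T : ℝ} (h1 : TT W X S c K g1 ≤ T)
    (h2 : TT W X S c K g2 ≤ T) (h3 : TT W X S c K g3 ≤ T) (h4 : TT W X S c K g4 ≤ T) :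
    TT W X S c K g ≤ 16 * T := by
  have e : g = fun v => (fun v => g1 v + g2 v) v + (fun v => g3 v + g4 v) v := funext hg
  rw [e]
  have k1 := TT_add_g (W := W) (X := X) (S := S) (c := c) (K := K) (g := fun v => g1 v + g2 v)
    (g' := fun v => g3 v + g4 v)
  have k2 := TT_add_g (W := W) (X := X) (S := S) (c := c) (K := K) (g := g1) (g' := g2)
  have k3 := TT_add_g (W := W) (X := X) (S := S) (c := c) (K := K) (g := g3) (g' := g4)
  linarith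

/-- common facts -/
private lemma tm_common {ε ε' : ℝ} (hε : 0 < ε) (hε' : 0 < ε') (B : ℕ) (M : ℝ) : ∃ X₀ : ℕ, ∀ X : ℕ, X₀ ≤ X →
    ∀ W : ℕ, Win ε X W → ∀ Q : ℕ, Md ε' X Q → 3 ≤ X ∧ M ≤ Real.log X ∧ 16 ≤ Real.log X ∧ 1 ≤ W ∧ 4 * W ≤ X ∧
      X ≤ W ^ 2 ∧ 1 ≤ DD B X W ∧ DD B X W ≤ W ∧ (X : ℝ) ^ (1 / 2 + ε / 2) ≤ DD B X W ∧ 1 ≤ Q ∧
      (KK X Q : ℝ) ≤ 5 * X / Q ∧ (RR B X : ℝ) ≤ 2 * Real.log X ^ B ∧
      1 + Real.log (8 * X) ≤ 3 * Real.log X ∧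
      ∀ d i : ℕ, i ≤ 1 → ∀ θ : ℝ, ∀ q : ℕ, ∀ k ∈ Icc 1 (KK X Q), ‖ct (cc d i) θ q k‖ ≤ 3 * Real.log X := by
  obtain ⟨X₁, h1⟩ := win_facts ε hε B
  obtain ⟨X₂, h2⟩ := md_facts ε' hε' 0
  obtain ⟨X₃, h3⟩ := tm_log_ge (max M 16)
  refine ⟨X₁ + X₂ + X₃, fun X hX W hW Q hQ => ?_⟩
  obtain ⟨a1, a2, a3, a4, a5, a6, a7, a8, a9, a10, a11, a12⟩ := h1 X (by omega) W hW
  obtain ⟨b1, b2, b3, b4, b5, b6⟩ := h2 X (by omega) Q hQ
  obtain ⟨c1, c2⟩ := h3 X (by omega)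
  have cM : M ≤ Real.log X := le_trans (le_max_left _ _) c1
  have c16 : 16 ≤ Real.log X := le_trans (le_max_right _ _) c1
  have hX0 : (0 : ℝ) < X := by exact_mod_cast (by omega : 0 < X)
  refine ⟨c2, cM, c16, a1, a2, a3, a9, a10, a11, hQ.1, b4, a6, ?_, ?_⟩
  · rw [Real.log_mul (by norm_num) hX0.ne']
    have : Real.log 8 ≤ 8 := by
      have := Real.log_le_sub_one_of_pos (show (0 : ℝ) < 8 by norm_num)
      linarith
    linarith
  · intro d i hi θ q k hk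
    rw [tm_norm_ct]
    refine (norm_cc_le hi).trans ?_
    have hk' := Finset.mem_Icc.1 hk
    have hk1 : (0 : ℝ) < k := by exact_mod_cast hk'.1
    have : Real.log k ≤ Real.log (KK X Q) := Real.log_le_log hk1 (by exact_mod_cast hk'.2)
    linarith

private lemma tm_kappa {A X W Q : ℕ} {κ : ℝ} (hL : 0 < Real.log X)
    (h : κ * Real.log X ^ A ≤ 1) : κ * (W * (X : ℝ) ^ 2 / Q) ≤ Bd A X W Q := by
  unfold Bd
  rw [le_div_iff₀ (pow_pos hL _)]
  have hU : 0 ≤ (W : ℝ) * (X : ℝ) ^ 2 / Q := by positivity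
  calc κ * (W * (X : ℝ) ^ 2 / Q) * Real.log X ^ A = (κ * Real.log X ^ A) * (W * (X : ℝ) ^ 2 / Q) := by ring
    _ ≤ 1 * (W * (X : ℝ) ^ 2 / Q) := mul_le_mul_of_nonneg_right h hU
    _ = _ := one_mul _

private lemma tm_numG {A : ℕ} {L C : ℝ} (hL : 1 ≤ L) (hC : 12 * C ≤ L) :
    12 * C * L ^ 5 * (1 / L ^ (A + 7)) ^ 2 * L ^ (A + 1) ≤ 1 := by
  have hL0 : 0 < L := by linarith
  have e : 12 * C * L ^ 5 * (1 / L ^ (A + 7)) ^ 2 * L ^ (A + 1) =
      12 * C * L ^ (A + 6) / L ^ (2 * A + 14) := by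
    have : (L ^ (A + 7)) ^ 2 = L ^ (2 * A + 14) := by ring
    rw [div_pow, one_pow, this, pow_add L A 6, pow_add L A 1]
    field_simp
  rw [e, div_le_one (by positivity)]
  calc 12 * C * L ^ (A + 6) ≤ L * L ^ (A + 6) := mul_le_mul_of_nonneg_right hC (by positivity)
    _ = L ^ (A + 7) := by ring
    _ ≤ L ^ (2 * A + 14) := pow_le_pow_right₀ hL (by omega)

private lemma tm_numB {A A₁ E : ℕ} {L C m v : ℝ} (hL : 1 ≤ L) (hC : 16 * C ^ 2 * 2 ^ 36 * 9 ^ E ≤ L)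
    (hv : v ≤ 3 * L) (hv0 : 0 ≤ v) (hm0 : 0 ≤ m) (hC0 : 0 < C)
    (hm : m ≤ C * (2 * L / (1 / L ^ A₁)) ^ (2 * 9) * v ^ E) :
    m ^ 2 * (4 * L ^ 2) ^ 2 / L ^ (A + 36 * (A₁ + 1) + 2 * E + 6) * L ^ (A + 1) ≤ 1 := by
  have hL0 : 0 < L := by linarith
  have h1 : m ≤ C * 2 ^ 18 * 3 ^ E * L ^ (18 * (A₁ + 1) + E) := by
    refine hm.trans ?_
    have h2 : v ^ E ≤ (3 * L) ^ E := pow_le_pow_left₀ hv0 hv E
    have h3 : 0 ≤ C * (2 * L / (1 / L ^ A₁)) ^ (2 * 9) := by positivity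
    refine (mul_le_mul_of_nonneg_left h2 h3).trans (le_of_eq ?_)
    have e1 : 2 * L / (1 / L ^ A₁) = 2 * L ^ (A₁ + 1) := by
      rw [div_div_eq_mul_div, div_one, pow_succ]
      ring
    rw [e1, mul_pow 3 L E, mul_pow, ← pow_mul, pow_add L _ E, show (A₁ + 1) * (2 * 9) = 18 * (A₁ + 1) by ring]
    ring
  have h4 : m ^ 2 ≤ (C * 2 ^ 18 * 3 ^ E * L ^ (18 * (A₁ + 1) + E)) ^ 2 := pow_le_pow_left₀ hm0 h1 2
  rw [div_mul_eq_mul_div, div_le_one (by positivity)]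
  calc m ^ 2 * (4 * L ^ 2) ^ 2 * L ^ (A + 1)
      ≤ (C * 2 ^ 18 * 3 ^ E * L ^ (18 * (A₁ + 1) + E)) ^ 2 * (4 * L ^ 2) ^ 2 * L ^ (A + 1) := by
        gcongr
    _ = (16 * C ^ 2 * 2 ^ 36 * 9 ^ E) * L ^ (36 * (A₁ + 1) + 2 * E + 4 + (A + 1)) := by
        have e9 : (9 : ℝ) ^ E = (3 ^ E) ^ 2 := by rw [← pow_mul, mul_comm E 2, pow_mul]; norm_num
        rw [e9]
        ring
    _ ≤ L * L ^ (36 * (A₁ + 1) + 2 * E + 4 + (A + 1)) := mul_le_mul_of_nonneg_right hC (by positivity)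
    _ = L ^ (A + 36 * (A₁ + 1) + 2 * E + 6) := by
        rw [← pow_succ']
        congr 1
        omega


/-- powers of `X` in the middle part -/
private lemma tm_numM {A : ℕ} {ε x L C D y T1 : ℝ} (hx : 0 < x) (hL : 1 ≤ L) (hy0 : 0 < y)
    (hC : C * L ^ (A + 12) ≤ x ^ (ε / 4)) (hD : x ^ (1 / 2 + ε / 2) ≤ D) (hT : T1 = x ^ (1 / 2 - ε / 4))
    (hy : x ^ (1 - ε / 4) ≤ y) :
    C * (L ^ 11 * (x ^ 3 / (D ^ 2 * T1 ^ 2 * y))) * L ^ (A + 1) ≤ 1 := by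
  have hL0 : 0 < L := by linarith
  have hD0 : 0 < D := lt_of_lt_of_le (Real.rpow_pos_of_pos hx _) hD
  have hT0 : 0 < T1 := by rw [hT]; exact Real.rpow_pos_of_pos hx _
  have h1 : x ^ (1 + ε) ≤ D ^ 2 := by
    calc x ^ (1 + ε) = (x ^ (1 / 2 + ε / 2)) ^ 2 := by
          rw [← Real.rpow_natCast, ← Real.rpow_mul hx.le]
          congr 1
          push_cast
          ring
      _ ≤ D ^ 2 := pow_le_pow_left₀ (Real.rpow_nonneg hx.le _) hD 2
  have h2 : T1 ^ 2 = x ^ (1 - ε / 2) := by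
    rw [hT, ← Real.rpow_natCast, ← Real.rpow_mul hx.le]
    congr 1
    push_cast
    ring
  have h3 : x ^ (3 + ε / 4) ≤ D ^ 2 * T1 ^ 2 * y := by
    calc x ^ (3 + ε / 4) = x ^ (1 + ε) * x ^ (1 - ε / 2) * x ^ (1 - ε / 4) := by
          rw [← Real.rpow_add hx, ← Real.rpow_add hx]
          congr 1
          ring
      _ ≤ D ^ 2 * T1 ^ 2 * y := by
          rw [h2]
          exact mul_le_mul (mul_le_mul_of_nonneg_right h1 (Real.rpow_nonneg hx.le _)) hy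
            (Real.rpow_nonneg hx.le _) (by positivity)
  have h4 : x ^ (3 + ε / 4) = x ^ 3 * x ^ (ε / 4) := by
    rw [Real.rpow_add hx]
    norm_cast
  rw [h4] at h3
  have hpos : 0 < D ^ 2 * T1 ^ 2 * y := by positivity
  have e : C * (L ^ 11 * (x ^ 3 / (D ^ 2 * T1 ^ 2 * y))) * L ^ (A + 1) =
      (x ^ 3 * (C * L ^ (A + 12))) / (D ^ 2 * T1 ^ 2 * y) := by
    rw [show A + 12 = 11 + (A + 1) by ring, pow_add L 11 (A + 1)]
    ring
  rw [e, div_le_one hpos]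
  exact (mul_le_mul_of_nonneg_left hC (by positivity)).trans h3

/-- powers of `X` in the far part -/
private lemma tm_numF {A : ℕ} {ε x L C D : ℝ} (hx : 0 < x) (hL : 1 ≤ L)
    (hC : C * L ^ (A + 8) ≤ x ^ (2 * ε)) (hD : x ^ (1 / 2 + ε / 2) ≤ D) :
    C * (L ^ 7 * (x / D ^ 2) ^ 2) * L ^ (A + 1) ≤ 1 := by
  have hL0 : 0 < L := by linarith
  have hD0 : 0 < D := lt_of_lt_of_le (Real.rpow_pos_of_pos hx _) hD
  have h1 : x ^ (1 + ε) ≤ D ^ 2 := by
    calc x ^ (1 + ε) = (x ^ (1 / 2 + ε / 2)) ^ 2 := by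
          rw [← Real.rpow_natCast, ← Real.rpow_mul hx.le]
          congr 1
          push_cast
          ring
      _ ≤ D ^ 2 := pow_le_pow_left₀ (Real.rpow_nonneg hx.le _) hD 2
  have h2 : x ^ 2 * x ^ (2 * ε) ≤ (D ^ 2) ^ 2 := by
    calc x ^ 2 * x ^ (2 * ε) = (x ^ (1 + ε)) ^ 2 := by
          rw [← Real.rpow_natCast (x ^ (1 + ε)), ← Real.rpow_mul hx.le, ← Real.rpow_natCast x,
            ← Real.rpow_add hx]
          congr 1
          push_cast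
          ring
      _ ≤ (D ^ 2) ^ 2 := pow_le_pow_left₀ (Real.rpow_nonneg hx.le _) h1 2
  have e : C * (L ^ 7 * (x / D ^ 2) ^ 2) * L ^ (A + 1) = (x ^ 2 * (C * L ^ (A + 8))) / (D ^ 2) ^ 2 := by
    rw [show A + 8 = 7 + (A + 1) by ring, pow_add L 7 (A + 1)]
    ring
  rw [e, div_le_one (by positivity)]
  exact (mul_le_mul_of_nonneg_left hC (by positivity)).trans h2

/-- `T₁ ≤ ℓ⁹` -/
private lemma tm_numT {ε x l : ℝ} (hx : 1 ≤ x) (hε : 0 < ε) (h512 : 512 ≤ x ^ (1 / 16 : ℝ))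
    (hl : x ^ (1 / 16 : ℝ) ≤ 2 * l) : x ^ (1 / 2 - ε / 4) ≤ l ^ 9 := by
  have hx0 : 0 < x := by linarith
  have hp : 0 < x ^ (1 / 16 : ℝ) := Real.rpow_pos_of_pos hx0 _
  have h1 : (x ^ (1 / 16 : ℝ)) ^ 9 ≤ (2 * l) ^ 9 := pow_le_pow_left₀ hp.le hl 9
  have h2 : x ^ (1 / 2 : ℝ) = (x ^ (1 / 16 : ℝ)) ^ 8 := by
    rw [← Real.rpow_natCast, ← Real.rpow_mul hx0.le]
    norm_num
  have h3 : x ^ (1 / 2 - ε / 4) ≤ x ^ (1 / 2 : ℝ) := Real.rpow_le_rpow_of_exponent_le hx (by linarith)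
  have h4 : (2 * l) ^ 9 = 512 * l ^ 9 := by ring
  rw [h4] at h1
  have h5 : 512 * (x ^ (1 / 16 : ℝ)) ^ 8 ≤ (x ^ (1 / 16 : ℝ)) ^ 9 := by
    calc 512 * (x ^ (1 / 16 : ℝ)) ^ 8 ≤ x ^ (1 / 16 : ℝ) * (x ^ (1 / 16 : ℝ)) ^ 8 :=
          mul_le_mul_of_nonneg_right h512 (by positivity)
      _ = _ := by ring
  rw [h2] at h3
  linarith

/-- `T₁ ≤ 2 ℓ'` -/
private lemma tm_numL {ε x l l' : ℝ} (hx : 1 ≤ x) (hε : 0 < ε) (hl0 : 0 ≤ l) (hll : l ≤ l')
    (hlow : x ^ (1 - ε / 4) ≤ l * l') : x ^ (1 / 2 - ε / 4) ≤ 2 * l' := by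
  have hx0 : 0 < x := by linarith
  have hl'0 : 0 ≤ l' := hl0.trans hll
  have h1 : x ^ (1 / 2 - ε / 4) ≤ x ^ (1 / 2 - ε / 8) := Real.rpow_le_rpow_of_exponent_le hx (by linarith)
  have h2 : (x ^ (1 / 2 - ε / 8)) ^ 2 = x ^ (1 - ε / 4) := by
    rw [← Real.rpow_natCast, ← Real.rpow_mul hx0.le]
    congr 1
    push_cast
    ring
  have h3 : (x ^ (1 / 2 - ε / 8)) ^ 2 ≤ l' ^ 2 := by
    rw [h2]
    refine hlow.trans ?_
    nlinarith
  have h4 : x ^ (1 / 2 - ε / 8) ≤ l' := (pow_le_pow_iff_left₀ (Real.rpow_nonneg hx0.le _) hl'0 two_ne_zero).1 h3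
  linarith

/-- The good part. -/
private lemma tm_good {X D l l' : ℕ} {T1 V Cs M : ℝ} {p s : ℕ → ℂ} (hX : 1 ≤ X) (hDX : D ≤ X) (hD : 1 ≤ D)
    (hT0 : 0 < T1) (hT : T1 ≤ 2 * l')
    (hFs : ∀ (M₁ : ℕ) (a : ℕ → ℂ) (B T : ℝ), 1 ≤ M₁ → 0 < T → T ≤ 2 * M₁ →
      (∀ m, m ∉ Ico M₁ (2 * M₁) → a m = 0) → (∀ m, ‖a m‖ ≤ B) →
      ∫ t in Set.Icc (-T) T, ‖Fh a (2 * M₁) t‖ ^ 2 ≤ Cs * B ^ 2) (hl' : 1 ≤ l')
    (hs : ∀ n, n ∉ Ico l' (2 * l') → s n = 0) (hsB : ∀ n, ‖s n‖ ≤ M) {E : Set ℝ} (hE : MeasurableSet E)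
    (hET : E ⊆ Set.Icc (-T1) T1) (hV : ∀ t ∈ E, ‖Fh p (2 * l) t‖ ≤ V) :
    ∑ v ∈ Icc (-(D : ℤ)) ((2 * X : ℕ) : ℤ), ‖(1 / (2 * Real.pi) : ℂ) *
      ∫ t : ℝ, E.indicator (fun t => Fh p (2 * l) t * Fh s (2 * l') t) t * kap D v t‖ ^ 2 ≤
      3 * X * (V ^ 2 * (Cs * M ^ 2)) := by
  obtain ⟨i1, i2⟩ := tm_ind hE hET ((continuous_Fh p (2 * l)).mul (continuous_Fh s (2 * l')))
  have h1 := goodP (D := D) (Z := 2 * X) hD i1 i2
  have h2 := tm_ind_le hE hET (continuous_Fh p (2 * l)) (continuous_Fh s (2 * l')) hV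
  have h3 := hFs l' s M T1 hl' hT0 hT hs hsB
  have h4 : ((2 * X : ℕ) : ℝ) + D ≤ 3 * X := by
    push_cast
    have : (D : ℝ) ≤ X := by exact_mod_cast hDX
    linarith
  refine h1.trans ?_
  have h5 : V ^ 2 * ∫ t in Set.Icc (-T1) T1, ‖Fh s (2 * l') t‖ ^ 2 ≤ V ^ 2 * (Cs * M ^ 2) :=
    mul_le_mul_of_nonneg_left h3 (sq_nonneg _)
  exact mul_le_mul h4 (h2.trans h5) (MeasureTheory.integral_nonneg (fun t => sq_nonneg _)) (by positivity)

/-- The middle part. -/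
private lemma tm_midS {X D l l' : ℕ} {T1 Cc M w : ℝ} {p s : ℕ → ℂ} (hX : 1 ≤ X) (hDX : D ≤ X) (hD : 1 ≤ D)
    (hT0 : 0 < T1) (hCc : 0 < Cc)
    (hFc : ∀ (M₁ N₁ : ℕ) (a b : ℕ → ℂ) (B₁ B₂ T : ℝ), 1 ≤ M₁ → 1 ≤ N₁ → 0 < T →
      (4 * M₁ * N₁ : ℝ) ≤ T → (∀ m, m ∉ Ico M₁ (2 * M₁) → a m = 0) → (∀ n, n ∉ Ico N₁ (2 * N₁) → b n = 0) →
      (∀ m, ‖a m‖ ≤ B₁) → (∀ n, ‖b n‖ ≤ B₂) →
      ∫ t in Set.Icc (-T) T, ‖Fh a (2 * M₁) t * Fh b (2 * N₁) t‖ ^ 2 ≤
        Cc * T / (M₁ * N₁) * (B₁ * B₂) ^ 2 * (1 + Real.log (4 * M₁ * N₁)) ^ 4)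
    (hl : 1 ≤ l) (hl' : 1 ≤ l') (hll : l * l' ≤ 2 * X)
    (hp : ∀ m, m ∉ Ico l (2 * l) → p m = 0) (hs : ∀ n, n ∉ Ico l' (2 * l') → s n = 0)
    (hpB : ∀ m, ‖p m‖ ≤ M) (hsB : ∀ n, ‖s n‖ ≤ M) (hw : 1 + Real.log (8 * X) ≤ w) :
    ∑ v ∈ Icc (-(D : ℤ)) ((2 * X : ℕ) : ℤ), ‖(1 / (2 * Real.pi) : ℂ) *
      ∫ t : ℝ, (Set.Icc (-(8 * (X : ℝ))) (8 * (X : ℝ)) \ Set.Icc (-T1) T1).indicator
        (fun t => Fh p (2 * l) t * Fh s (2 * l') t) t * kap D v t‖ ^ 2 ≤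
      8 * (3 * X) ^ 3 / D ^ 2 * (1 / T1 ^ 2 * (Cc * (8 * X) / (l * l') * (M * M) ^ 2 * w ^ 4)) := by
  have hX0 : (1 : ℝ) ≤ X := by exact_mod_cast hX
  have hl0 : (1 : ℝ) ≤ l := by exact_mod_cast hl
  have hl0' : (1 : ℝ) ≤ l' := by exact_mod_cast hl'
  have hllr : (l : ℝ) * l' ≤ 2 * X := by exact_mod_cast hll
  have hcont := (continuous_Fh p (2 * l)).mul (continuous_Fh s (2 * l'))
  obtain ⟨i1, i2⟩ := tm_ind (measurableSet_Icc.diff measurableSet_Icc)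
    (Set.sdiff_subset (s := Set.Icc (-(8 * (X : ℝ))) (8 * (X : ℝ))) (t := Set.Icc (-T1) T1)) hcont
  have h1 := midT (D := D) (Z := 2 * X) hD i1 i2
  have h2 := tm_mid (T := T1) (T' := 8 * (X : ℝ)) hT0 hcont
  have h3 := hFc l l' p s M M (8 * (X : ℝ)) hl hl' (by positivity) (by nlinarith) hp hs hpB hsB
  have h4 : ((2 * X : ℕ) : ℝ) + D ≤ 3 * X := by
    push_cast
    have : (D : ℝ) ≤ X := by exact_mod_cast hDX
    linarith
  have h5 : Real.log (4 * l * l') ≤ Real.log (8 * X) := Real.log_le_log (by positivity) (by nlinarith)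
  have h6 : 0 ≤ Real.log (4 * l * l') := Real.log_nonneg (by nlinarith [mul_le_mul hl0 hl0' (by norm_num) (by linarith)])
  have h7 : (1 + Real.log (4 * l * l')) ^ 4 ≤ w ^ 4 := pow_le_pow_left₀ (by linarith) (by linarith) 4
  have h8 : (((2 * X : ℕ) : ℝ) + D) ^ 3 ≤ (3 * X) ^ 3 := pow_le_pow_left₀ (by positivity) h4 3
  refine h1.trans ?_
  refine mul_le_mul ?_ (h2.trans (mul_le_mul_of_nonneg_left (h3.trans ?_) (by positivity)))
    (MeasureTheory.integral_nonneg (fun t => by positivity)) (by positivity)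
  · exact div_le_div_of_nonneg_right (mul_le_mul_of_nonneg_left h8 (by norm_num)) (by positivity)
  · exact mul_le_mul_of_nonneg_left h7 (by positivity)

/-- The far part. -/
private lemma tm_farS {X D : ℕ} {B : ℝ} {R : ℤ → ℂ} (hX : 1 ≤ X) (hDX : D ≤ X) (hD : 1 ≤ D) (hB : 0 ≤ B)
    (hR : ∀ v : ℤ, ‖R v‖ ≤ 8 * B * ((|v| : ℤ) + D) ^ 2 / (D ^ 2 * (8 * X))) :
    ∑ v ∈ Icc (-(D : ℤ)) ((2 * X : ℕ) : ℤ), ‖R v‖ ^ 2 ≤ 4 * X * (9 * B * (X / D ^ 2)) ^ 2 := by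
  have hX0 : (1 : ℝ) ≤ X := by exact_mod_cast hX
  have hD0 : (1 : ℝ) ≤ D := by exact_mod_cast hD
  have hDX' : (D : ℝ) ≤ X := by exact_mod_cast hDX
  have h1 : ∀ v ∈ Icc (-(D : ℤ)) ((2 * X : ℕ) : ℤ), ‖R v‖ ^ 2 ≤ (9 * B * (X / D ^ 2)) ^ 2 := by
    intro v hv
    have hv' := Finset.mem_Icc.1 hv
    have h2 : |v| ≤ 2 * (X : ℤ) := by
      rw [abs_le]
      push_cast at hv'
      omega
    have h3 : ((|v| : ℤ) : ℝ) + D ≤ 3 * X := by
      have : ((|v| : ℤ) : ℝ) ≤ 2 * X := by exact_mod_cast h2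
      linarith
    have h3' : 0 ≤ ((|v| : ℤ) : ℝ) + D := by
      have : (0 : ℝ) ≤ ((|v| : ℤ) : ℝ) := by exact_mod_cast abs_nonneg v
      linarith
    refine pow_le_pow_left₀ (norm_nonneg _) ((hR v).trans ?_) 2
    calc 8 * B * (((|v| : ℤ) : ℝ) + D) ^ 2 / (D ^ 2 * (8 * X))
        ≤ 8 * B * (3 * X) ^ 2 / (D ^ 2 * (8 * X)) :=
          div_le_div_of_nonneg_right (mul_le_mul_of_nonneg_left (pow_le_pow_left₀ h3' h3 2) (by positivity))
            (by positivity)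
      _ = 9 * B * (X / D ^ 2) := by
          field_simp
          ring
  refine (Finset.sum_le_card_nsmul _ _ _ h1).trans ?_
  rw [nsmul_eq_mul]
  refine mul_le_mul_of_nonneg_right ?_ (sq_nonneg _)
  rw [Int.card_Icc]
  have h9 : (((2 * X : ℕ) : ℤ) + 1 - -(D : ℤ)).toNat = 2 * X + 1 + D := by
    push_cast
    omega
  rw [h9]
  push_cast
  linarith

private lemma tm_long {ε ε' : ℝ} (hε : 0 < ε) (hε1 : ε ≤ 1 / 4) (hε' : 0 < ε') (A C₀ B : ℕ) : ∃ X₀ : ℕ,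
    ∀ X : ℕ, X₀ ≤ X →
    ∀ W : ℕ, Win ε X W → ∀ Q : ℕ, Md ε' X Q → ∀ d : ℕ, 1 ≤ d → (d : ℝ) ≤ Real.log X ^ C₀ →
    ∀ i : ℕ, i ≤ 1 → ∀ r a₀ : ℕ, 1 ≤ r → r ≤ RR B X → ∀ l l' : ℕ, (X : ℝ) ^ (1 / 16 : ℝ) ≤ 2 * l →
    l ≤ l' → l * l' ≤ 2 * X → (X : ℝ) ^ (1 - ε / 4) ≤ l * l' → ∀ h p s : ℕ → ℂ,
    (∀ t, Fh h (8 * X) t = Fh p (2 * l) t * Fh s (2 * l') t) →
    (∀ m, m ∉ Ico l (2 * l) → p m = 0) → (∀ n, n ∉ Ico l' (2 * l') → s n = 0) →
    (∀ m, ‖p m‖ ≤ 2 * Real.log X) → (∀ n, ‖s n‖ ≤ 2 * Real.log X) →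
    TT W X (Ico Q (2 * Q)) (ct (cc d i) ((a₀ : ℝ) / r)) (KK X Q) (LAh h (8 * X) (DD B X W)) ≤
      Bd A X W Q := by
  obtain ⟨C₂, hC₂, hsmall⟩ := tm_small
  obtain ⟨Cs, hCs, hFs⟩ := Fh_sq_dyadic
  obtain ⟨Cc, hCc, hFc⟩ := Fh_sq_cv
  obtain ⟨C₃, E, hC₃, hbad⟩ := badT 9 (by norm_num)
  obtain ⟨X₁, h1⟩ := tm_common hε hε' B (max (12 * (C₂ * Cs)) (16 * C₃ ^ 2 * 2 ^ 36 * 9 ^ E))
  obtain ⟨X₂, h2⟩ := expKap (ε := ε / 4) (by linarith) hε' (A + 36 * (A + 7 + 1) + 2 * E + 6) C₀ B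
  obtain ⟨X₃, h3⟩ := const_log_pow_le (C₂ * 2239488 * Cc) (A + 12) (δ := ε / 4) (by linarith)
  obtain ⟨X₄, h4⟩ := const_log_pow_le (C₂ * 5184) (A + 8) (δ := 2 * ε) (by linarith)
  obtain ⟨X₅, h5⟩ := const_log_pow_le 512 0 (δ := 1 / 16) (by norm_num)
  refine ⟨X₁ + X₂ + X₃ + X₄ + X₅, ?_⟩
  intro X hX W hW Q hQ d hd hd' i hi r a₀ hr hr' l l' hl hll' hlX hlow h p s hF hp hs hpB hsB
  obtain ⟨hX3, hM, hL16, hW1, hW4, hXW, hD1, hDW, hDx, hQ1, hK, hRR, hlog, hcoef⟩ :=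
    h1 X (by omega) W hW Q hQ
  have hexp := h2 X (by omega) W hW1 hW4 (DD B X W) hD1 hDW Q hQ d hd hd' i hi r hr
    (le_trans (by exact_mod_cast hr') hRR) a₀
  have hnM := h3 X (by omega)
  have hnF := h4 X (by omega)
  have hn5 := h5 X (by omega)
  rw [pow_zero, mul_one] at hn5
  have hx1 : (1 : ℝ) ≤ X := by exact_mod_cast (by omega : 1 ≤ X)
  have hx0 : (0 : ℝ) < X := by linarith
  have hl1 : 1 ≤ l := by
    by_contra hcon
    have h0 : l = 0 := by omega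
    rw [h0] at hl
    have := Real.rpow_pos_of_pos hx0 (1 / 16 : ℝ)
    norm_num at hl
    linarith
  have hl'1 : 1 ≤ l' := le_trans hl1 hll'
  have hDX : DD B X W ≤ X := by omega
  have hL1 : 1 ≤ Real.log X := by linarith
  have hL0 : 0 < Real.log X := by linarith
  have hlp : (1 : ℝ) ≤ l := by exact_mod_cast hl1
  have hl'p : (1 : ℝ) ≤ l' := by exact_mod_cast hl'1
  have hllr : (l : ℝ) * l' ≤ 2 * X := by exact_mod_cast hlX
  set D := DD B X W with hDdef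
  set K := KK X Q with hKdef
  set L := Real.log X with hLdef
  set c : ℕ → ℕ → ℂ := ct (cc d i) ((a₀ : ℝ) / r) with hcdef
  set T1 : ℝ := (X : ℝ) ^ (1 / 2 - ε / 4) with hT1
  set V : ℝ := 1 / L ^ (A + 7) with hV
  have hV0 : 0 < V := by positivity
  have hT0 : 0 < T1 := Real.rpow_pos_of_pos hx0 _
  have hTx : T1 ≤ X := by
    calc T1 ≤ (X : ℝ) ^ (1 : ℝ) := Real.rpow_le_rpow_of_exponent_le hx1 (by linarith)
      _ = X := Real.rpow_one _
  have hcB : ∀ q ∈ Ico Q (2 * Q), ∀ k ∈ Icc 1 K, ‖c q k‖ ≤ 3 * L := fun q _ k hk =>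
    hcoef d i hi _ q k hk
  have hFeq : (fun t => Fh h (8 * X) t) = fun t => Fh p (2 * l) t * Fh s (2 * l') t := funext hF
  have hcont : Continuous (fun t => Fh p (2 * l) t * Fh s (2 * l') t) :=
    (continuous_Fh p (2 * l)).mul (continuous_Fh s (2 * l'))
  have hB : ∀ t, ‖Fh p (2 * l) t * Fh s (2 * l') t‖ ≤ 4 * L ^ 2 := by
    intro t
    rw [norm_mul]
    calc ‖Fh p (2 * l) t‖ * ‖Fh s (2 * l') t‖ ≤ (2 * L) * (2 * L) :=
          mul_le_mul (norm_Fh_dyadic hl1 hp hpB t) (norm_Fh_dyadic hl'1 hs hsB t) (norm_nonneg _)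
            (by linarith)
      _ = 4 * L ^ 2 := by ring
  set G : Set ℝ := Set.Icc (-T1) T1 ∩ {t | ‖Fh p (2 * l) t‖ < V} with hG
  have hGm : MeasurableSet G :=
    measurableSet_Icc.inter (isOpen_lt (continuous_Fh p (2 * l)).norm continuous_const).measurableSet
  have hGT : G ⊆ Set.Icc (-T1) T1 := Set.inter_subset_left
  have hEm : MeasurableSet (Set.Icc (-T1) T1 \ G) := measurableSet_Icc.diff hGm
  have hET : Set.Icc (-T1) T1 \ G ⊆ Set.Icc (-T1) T1 := Set.sdiff_subset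
  -- the four functions
  set IG : ℤ → ℂ := fun v => (1 / (2 * Real.pi) : ℂ) *
    ∫ t : ℝ, G.indicator (fun t => Fh p (2 * l) t * Fh s (2 * l') t) t * kap D v t with hIG
  set IB : ℤ → ℂ := fun v => (1 / (2 * Real.pi) : ℂ) *
    ∫ t : ℝ, (Set.Icc (-T1) T1 \ G).indicator (fun t => Fh p (2 * l) t * Fh s (2 * l') t) t *
      kap D v t with hIB
  set IM : ℤ → ℂ := fun v => (1 / (2 * Real.pi) : ℂ) *
    ∫ t : ℝ, (Set.Icc (-(8 * (X : ℝ))) (8 * (X : ℝ)) \ Set.Icc (-T1) T1).indicator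
      (fun t => Fh p (2 * l) t * Fh s (2 * l') t) t * kap D v t with hIM
  set R : ℤ → ℂ := fun v => LAh h (8 * X) D v - (IG v + IB v + IM v) with hR
  have hU : (0 : ℝ) ≤ W * (X : ℝ) ^ 2 / Q := by positivity
  -- good part
  have hTG : TT W X (Ico Q (2 * Q)) c K IG ≤ Bd (A + 1) X W Q := by
    have g1 := tm_good (D := D) (p := p) (X := X) (by omega) hDX hD1 hT0
      (tm_numL hx1 hε (by linarith) (by exact_mod_cast hll') hlow) hFs hl'1 hs hsB hGm hGT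
      (fun t ht => le_of_lt ht.2)
    have g2 := hsmall X W Q K D c IG _ hX3 hW1 (by omega) hXW hDX hQ1 hK hL1 hcB
      (fun v hv => tm_zero_int (by omega) _) g1
    refine g2.trans ?_
    have e : C₂ * Real.log X ^ 3 * (X / Q) * W * (3 * X * (V ^ 2 * (Cs * (2 * L) ^ 2))) =
        (12 * (C₂ * Cs) * L ^ 5 * (1 / L ^ (A + 7)) ^ 2) * (W * (X : ℝ) ^ 2 / Q) := by
      rw [hV]
      ring
    rw [e]
    exact tm_kappa hL0 (tm_numG hL1 (le_trans (le_max_left _ _) hM))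
  -- bad part
  have hTB : TT W X (Ico Q (2 * Q)) c K IB ≤ Bd (A + 1) X W Q := by
    have b1 := tm_bad (W := W) (X := X) (K := K) (D := D) (S := Ico Q (2 * Q)) (c := c) hcont hEm hET hB
      (fun t ht => hexp t (abs_le.2 (hET ht)))
    refine b1.trans ?_
    have b2 := hbad l T1 (2 * L) V p hl1 hT0 (tm_numT hx1 hε hn5 hl) (by linarith) hV0 hpB hp
    have b3 : (MeasureTheory.volume (Set.Icc (-T1) T1 \ G)).toReal ≤
        (MeasureTheory.volume {t : ℝ | |t| ≤ T1 ∧ V ≤ ‖Fh p (2 * l) t‖}).toReal := by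
      refine ENNReal.toReal_mono ?_ (MeasureTheory.measure_mono ?_)
      · refine ne_top_of_le_ne_top ?_ (MeasureTheory.measure_mono
          (show {t : ℝ | |t| ≤ T1 ∧ V ≤ ‖Fh p (2 * l) t‖} ⊆ Set.Icc (-T1) T1 from
            fun t ht => Set.mem_Icc.2 (abs_le.1 ht.1)))
        simp
      · intro t ht
        refine ⟨abs_le.2 ht.1, ?_⟩
        by_contra hcon
        push Not at hcon
        exact ht.2 ⟨ht.1, hcon⟩
    have b4 : 1 + Real.log (2 * l) ≤ 3 * L := by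
      have : Real.log (2 * l) ≤ Real.log (8 * X) := Real.log_le_log (by positivity) (by nlinarith)
      linarith
    have b5 : 0 ≤ 1 + Real.log (2 * l) := by
      have := Real.log_nonneg (show (1 : ℝ) ≤ 2 * l by linarith)
      linarith
    have b6 := tm_numB (A := A) (A₁ := A + 7) hL1 (le_trans (le_max_right _ _) hM) b4 b5
      ENNReal.toReal_nonneg hC₃ (b3.trans b2)
    have b7 := tm_kappa (X := X) (W := W) (Q := Q) hL0 b6
    refine le_trans (le_of_eq ?_) b7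
    unfold Bd
    ring
  -- middle part
  have hTM : TT W X (Ico Q (2 * Q)) c K IM ≤ Bd (A + 1) X W Q := by
    have g1 := tm_midS (X := X) (D := D) (T1 := T1) (by omega) hDX hD1 hT0 hCc hFc hl1 hl'1 hlX hp hs
      hpB hsB hlog
    have g2 := hsmall X W Q K D c IM _ hX3 hW1 (by omega) hXW hDX hQ1 hK hL1 hcB
      (fun v hv => tm_zero_int (by omega) _) g1
    refine g2.trans ?_
    have hy0 : (0 : ℝ) < (l : ℝ) * l' := by positivity
    have n1 := tm_numM (A := A) (C := C₂ * 2239488 * Cc) hx0 hL1 hy0 hnM hDx hT1 hlow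
    have n2 := tm_kappa (X := X) (W := W) (Q := Q) hL0 n1
    refine le_trans (le_of_eq ?_) n2
    ring
  -- far part
  have hTR : TT W X (Ico Q (2 * Q)) c K R ≤ Bd (A + 1) X W Q := by
    have r1 : ∀ v : ℤ, ‖R v‖ ≤ 8 * (4 * L ^ 2) * ((|v| : ℤ) + D) ^ 2 / (D ^ 2 * (8 * X)) := by
      intro v
      have := LAh_split (D := D) hD1 h (8 * X) (T := T1) (T' := 8 * (X : ℝ)) (B := 4 * L ^ 2) hT0
        (by linarith) (fun t => by rw [hF t]; exact hB t) hGm hGT v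
      rw [hFeq] at this
      exact this
    have g1 := tm_farS (X := X) (D := D) (by omega) hDX hD1 (by positivity) r1
    have g2 := hsmall X W Q K D c R _ hX3 hW1 (by omega) hXW hDX hQ1 hK hL1 hcB (by
      intro v hv
      rw [hR]
      simp only
      rw [LAh_zero hD1 h (8 * X) (Or.inl (by omega)), hIG, hIB, hIM]
      simp only
      rw [tm_zero_int (by omega) _, tm_zero_int (by omega) _, tm_zero_int (by omega) _]
      ring) g1
    refine g2.trans ?_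
    have n1 := tm_numF (A := A) (C := C₂ * 5184) hx0 hL1 hnF hDx
    have n2 := tm_kappa (X := X) (W := W) (Q := Q) hL0 n1
    refine le_trans (le_of_eq ?_) n2
    ring
  have hfin := tm_four (LAh h (8 * X) D) IG IB IM R (fun v => by
    show LAh h (8 * X) D v = (IG v + IB v) + (IM v + (LAh h (8 * X) D v - (IG v + IB v + IM v)))
    ring) hTG hTB hTM hTR
  refine hfin.trans ?_
  have : 16 * Bd (A + 1) X W Q = (16 / L) * (W * (X : ℝ) ^ 2 / Q / L ^ A) := by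
    have e0 : Bd (A + 1) X W Q = W * (X : ℝ) ^ 2 / Q / (L ^ A * L) := by
      rw [← pow_succ]
      rfl
    rw [e0]
    field_simp
  rw [this]
  have h16 : 16 / L ≤ 1 := by rw [div_le_one hL0]; exact hL16
  calc (16 / L) * (W * (X : ℝ) ^ 2 / Q / L ^ A) ≤ 1 * (W * (X : ℝ) ^ 2 / Q / L ^ A) :=
        mul_le_mul_of_nonneg_right h16 (by positivity)
    _ = Bd A X W Q := by rw [one_mul]; rfl

/-- powers of `X` for short products -/
private lemma tm_numS {A : ℕ} {ε x L C y : ℝ} (hx : 0 < x) (hL : 1 ≤ L) (hC0 : 0 ≤ C)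
    (hC : C * L ^ (A + 8) ≤ x ^ (ε / 4)) (hy : y ≤ x ^ (1 - ε / 4)) :
    C * (L ^ 8 * (y / x)) * L ^ A ≤ 1 := by
  have hL0 : 0 < L := by linarith
  have h1 : x ^ (1 - ε / 4) * x ^ (ε / 4) = x := by
    rw [← Real.rpow_add hx]
    have : 1 - ε / 4 + ε / 4 = 1 := by ring
    rw [this, Real.rpow_one]
  have e : C * (L ^ 8 * (y / x)) * L ^ A = ((C * L ^ (A + 8)) * y) / x := by
    rw [pow_add L A 8]
    ring
  rw [e, div_le_one hx]
  calc (C * L ^ (A + 8)) * y ≤ (C * L ^ (A + 8)) * x ^ (1 - ε / 4) :=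
        mul_le_mul_of_nonneg_left hy (by positivity)
    _ ≤ x ^ (ε / 4) * x ^ (1 - ε / 4) := mul_le_mul_of_nonneg_right hC (Real.rpow_nonneg hx.le _)
    _ = x := by rw [mul_comm, h1]

/-- Major arcs, type II part, one dyadic box. -/
theorem typeII_major {ε ε' : ℝ} (hε : 0 < ε) (hε1 : ε ≤ 1 / 4) (hε' : 0 < ε') (A C₀ B : ℕ) : ∃ X₀ : ℕ, ∀ X : ℕ, X₀ ≤ X →
    ∀ W : ℕ, Win ε X W → ∀ Q : ℕ, Md ε' X Q → ∀ d : ℕ, 1 ≤ d → (d : ℝ) ≤ Real.log X ^ C₀ →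
    ∀ i : ℕ, i ≤ 1 → ∀ r a₀ : ℕ, 1 ≤ r → r ≤ RR B X → ∀ M₁ N₁ : ℕ, (X : ℝ) ^ (1 / 16 : ℝ) ≤ 2 * M₁ →
    (X : ℝ) ^ (1 / 16 : ℝ) ≤ 2 * N₁ → M₁ * N₁ ≤ 2 * X → ∀ a b : ℕ → ℂ,
    (∀ m, m ∉ Ico M₁ (2 * M₁) → a m = 0) → (∀ n, n ∉ Ico N₁ (2 * N₁) → b n = 0) →
    (∀ m, ‖a m‖ ≤ 1) → (∀ n, ‖b n‖ ≤ 2 * Real.log X) →
    TT W X (Ico Q (2 * Q)) (ct (cc d i) ((a₀ : ℝ) / r)) (KK X Q) (LAh (cv a b) (8 * X) (DD B X W)) ≤
      Bd A X W Q := by
  obtain ⟨C₂, hC₂, hsmall⟩ := tm_small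
  obtain ⟨X₁, h1⟩ := tm_long hε hε1 hε' A C₀ B
  obtain ⟨X₂, h2⟩ := tm_common hε hε' B 0
  obtain ⟨X₃, h3⟩ := const_log_pow_le (C₂ * 432) (A + 8) (δ := ε / 4) (by linarith)
  refine ⟨X₁ + X₂ + X₃, ?_⟩
  intro X hX W hW Q hQ d hd hd' i hi r a₀ hr hr' M₁ N₁ hM hN hMN a b ha hb haB hbB
  obtain ⟨hX3, -, hL16, hW1, hW4, hXW, hD1, hDW, hDx, hQ1, hK, hRR, hlog, hcoef⟩ :=
    h2 X (by omega) W hW Q hQ
  have hn := h3 X (by omega)
  have hx1 : (1 : ℝ) ≤ X := by exact_mod_cast (by omega : 1 ≤ X)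
  have hx0 : (0 : ℝ) < X := by linarith
  have hpos : ∀ m : ℕ, (X : ℝ) ^ (1 / 16 : ℝ) ≤ 2 * m → 1 ≤ m := by
    intro m hm
    by_contra hcon
    have h0 : m = 0 := by omega
    rw [h0] at hm
    have := Real.rpow_pos_of_pos hx0 (1 / 16 : ℝ)
    norm_num at hm
    linarith
  have hM1 := hpos M₁ hM
  have hN1 := hpos N₁ hN
  have hL1 : 1 ≤ Real.log X := by linarith
  have hF : ∀ t, Fh (cv a b) (8 * X) t = Fh a (2 * M₁) t * Fh b (2 * N₁) t := fun t =>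
    Fh_cv ha hb hM1 hN1 (by nlinarith) t
  have haB' : ∀ m, ‖a m‖ ≤ 2 * Real.log X := fun m => (haB m).trans (by linarith)
  by_cases hcase : (X : ℝ) ^ (1 - ε / 4) ≤ (M₁ : ℝ) * N₁
  · rcases le_total M₁ N₁ with hle | hle
    · exact h1 X (by omega) W hW Q hQ d hd hd' i hi r a₀ hr hr' M₁ N₁ hM hle hMN hcase (cv a b) a b hF
        ha hb haB' hbB
    · refine h1 X (by omega) W hW Q hQ d hd hd' i hi r a₀ hr hr' N₁ M₁ hN hle (by rw [mul_comm]; exact hMN)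
        (by rw [mul_comm]; exact hcase) (cv a b) b a (fun t => by rw [hF t, mul_comm]) hb ha hbB haB'
  · push Not at hcase
    have hMp : (1 : ℝ) ≤ M₁ := by exact_mod_cast hM1
    have hNp : (1 : ℝ) ≤ N₁ := by exact_mod_cast hN1
    have hMNr : (M₁ : ℝ) * N₁ ≤ 2 * X := by exact_mod_cast hMN
    have s1 := LAh_l2 (D := DD B X W) hD1 (cv a b) (8 * X) (Icc (-((DD B X W : ℕ) : ℤ)) ((2 * X : ℕ) : ℤ))
    have s2 := cv_sq ha hb hM1 hN1 haB hbB (8 * X)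
    have s3 : 1 + Real.log (4 * M₁ * N₁) ≤ 3 * Real.log X := by
      have : Real.log (4 * M₁ * N₁) ≤ Real.log (8 * X) := Real.log_le_log (by positivity) (by nlinarith)
      linarith
    have s4 : 0 ≤ 1 + Real.log (4 * M₁ * N₁) := by
      have := Real.log_nonneg (show (1 : ℝ) ≤ 4 * M₁ * N₁ by
        nlinarith [mul_le_mul hMp hNp (by norm_num) (by linarith)])
      linarith
    have s5 : (1 * (2 * Real.log X)) ^ 2 * (4 * M₁ * N₁) * (1 + Real.log (4 * M₁ * N₁)) ^ 3 ≤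
        (1 * (2 * Real.log X)) ^ 2 * (4 * M₁ * N₁) * (3 * Real.log X) ^ 3 :=
      mul_le_mul_of_nonneg_left (pow_le_pow_left₀ s4 s3 3) (by positivity)
    have s6 := hsmall X W Q (KK X Q) (DD B X W) (ct (cc d i) ((a₀ : ℝ) / r)) (LAh (cv a b) (8 * X) (DD B X W))
      _ hX3 hW1 (by omega) hXW (by omega) hQ1 hK hL1 (fun q _ k hk => hcoef d i hi _ q k hk)
      (fun v hv => LAh_zero hD1 _ _ (Or.inl (by omega))) (s1.trans (s2.trans s5))
    refine s6.trans ?_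
    have n1 := tm_numS (A := A) (C := C₂ * 432) hx0 hL1 (by positivity) hn hcase.le
    have n2 := tm_kappa (X := X) (W := W) (Q := Q) (by linarith) n1
    refine le_trans (le_of_eq ?_) n2
    field_simp
    ring

end Pool.Agent.SInt
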