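import Pool.Agent.SInt.Ineq1
import Pool.Agent.SInt.W1b
import Pool.Agent.SInt.MinGen

open Finset Complex
open scoped ArithmeticFunction.Moebius ArithmeticFunction.vonMangoldt

namespace Pool.Agent.SInt

open Pool.Agent.ANT

/-- reduction of a fraction `a / s` -/
private lemma TypeIMin_red (a : ℤ) {s : ℕ} (hs : 1 ≤ s) :
    ∃ (r : ℕ) (b : ℤ), 1 ≤ r ∧ r ≤ s ∧ IsCoprime b (r : ℤ) ∧ (b : ℝ) / r = (a : ℝ) / s := by
  have hs' : (s : ℤ) ≠ 0 := by exact_mod_cast (by omega : s ≠ 0)
  set q : ℚ := (a : ℚ) / (s : ℚ) with hq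
  refine ⟨q.den, q.num, q.pos, ?_, ?_, ?_⟩
  · have h1 : (q.den : ℤ) ∣ (s : ℤ) := by
      have := Rat.den_dvd a (s : ℤ)
      have h2 : (Rat.divInt a (s : ℤ)) = q := by
        rw [hq, Rat.divInt_eq_div]
        push_cast
        rfl
      rwa [h2] at this
    exact Nat.le_of_dvd (by omega) (by exact_mod_cast h1)
  · rw [Int.isCoprime_iff_gcd_eq_one]
    exact q.reduced
  · have : ((q.num : ℝ) / (q.den : ℝ)) = ((q : ℚ) : ℝ) := by
      rw [Rat.cast_def]
    rw [this, hq]
    push_cast
    rfl

private lemma TypeIMin_log {X : ℕ} (hX : 3 ≤ X) : 1 + Real.log (2 * X) ≤ 3 * Real.log X := by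
  have hX' : (3 : ℝ) ≤ X := by exact_mod_cast hX
  have h1 : 1 ≤ Real.log X := by
    rw [Real.le_log_iff_exp_le (by linarith)]
    have := Real.exp_one_lt_d9
    linarith
  have h2 : Real.log (2 * X) = Real.log 2 + Real.log X := Real.log_mul (by norm_num) (by linarith)
  have h3 : Real.log 2 ≤ 1 := by
    have := Real.log_two_lt_d9
    linarith
  rw [h2]
  linarith

/-- Minor arcs: smooth coefficients, one modulus. -/
theorem typeI_min : ∃ C : ℝ, 0 < C ∧ ∀ (X W R D s u K' : ℕ),
    3 ≤ X → 1 ≤ W → 4 * W ≤ X → 1 ≤ R → R ^ 4 ≤ D → D * R ^ 2 ≤ W → 1 ≤ s → s ≤ R → W ≤ s * K' →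
    s * K' ≤ 32 * X → u ≤ K' →
    TT W X {s} (fun _ n => if n ≤ u then 1 else 0) K' (fmin X R D) ≤
      C * (K' * W / s) * X * Real.log X / (R : ℝ) ^ 2 := by
  refine ⟨57744, by norm_num, ?_⟩
  intro X W R D s u K' hX hW hWX hR hRD hDW hs hsR hWs hsX hu
  have hD1 : 1 ≤ D := le_trans (Nat.one_le_pow _ _ hR) hRD
  have hDW' : D ≤ W := le_trans (Nat.le_mul_of_pos_right D (by positivity)) hDW
  have hRD' : R ≤ D := le_trans (Nat.le_self_pow (by norm_num) R) hRD
  have hsW : s ≤ W := by omega
  -- reduce to the constant coefficient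
  have e1 : TT W X {s} (fun _ n => if n ≤ u then 1 else 0) K' (fmin X R D) =
      TT W X {s} (fun _ _ => 1) u (fmin X R D) := by
    rw [TT_shrink (K' := u) hu]
    · apply TT_congr_c
      intro q _ k hk
      rw [if_pos (Finset.mem_Icc.mp hk).2]
    · intro q _ k hk
      rw [if_neg (not_le.mpr hk)]
  rw [e1]
  have hsu : s * u ≤ 32 * X := le_trans (Nat.mul_le_mul_left s hu) hsX
  have h1 := ineq1 (W := W) (X := X) (K := u) (Y := 32 * X) (M := 128 * X + 1) hW (by omega)
    (by omega) (by omega) {s} (by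
      intro q hq
      rw [Finset.mem_singleton] at hq
      rw [hq]
      exact hsu) (fun _ _ => 1) (fmin X R D) (by
      intro n hn
      apply fmin_zero hD1
      rcases le_total 0 n with h | h
      · rw [abs_of_nonneg h] at hn
        right
        push_cast at hn
        omega
      · rw [abs_of_nonpos h] at hn
        left
        push_cast at hn
        omega)
  refine h1.trans ?_
  -- real quantities
  have hW' : (0 : ℝ) < W := by exact_mod_cast hW
  have hs' : (0 : ℝ) < s := by exact_mod_cast hs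
  have hR' : (1 : ℝ) ≤ R := by exact_mod_cast hR
  have hR0 : (0 : ℝ) < R := by linarith
  have hK0 : (0 : ℝ) ≤ K' := Nat.cast_nonneg _
  have hsW' : (s : ℝ) ≤ W := by exact_mod_cast hsW
  have hsR' : (s : ℝ) ≤ R := by exact_mod_cast hsR
  have hu' : (u : ℝ) ≤ K' := by exact_mod_cast hu
  have hu0 : (0 : ℝ) ≤ u := Nat.cast_nonneg _
  have hWs' : (W : ℝ) ≤ s * K' := by exact_mod_cast hWs
  have hWs1 : 1 ≤ (W : ℝ) / s := by rwa [le_div_iff₀ hs', one_mul]
  set T : ℝ := 4 * (K' * W / s) with hT
  have hTnn : 0 ≤ T := by positivity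
  have hX1 : 1 ≤ X := by omega
  have h2 := min_gen (X := X) (R := R) (D := D) (Y := 32 * X) (M := 128 * X + 1) (W := W) hX1 hR
    hRD hDW (by omega) (by omega) (W1 W {s} (fun _ _ => 1) u) (T := T) (δ := 1 / (R : ℝ) ^ 2) hTnn
    (by positivity) (fun α => W1_nonneg _ _ _ _ α)
    (by
      intro α
      have h3 := W1_triv (W := W) (s := s) (K := u) hW hs (fun _ => (1 : ℂ)) α
      refine h3.trans ?_
      simp only [norm_one, one_pow, Finset.sum_const, Nat.card_Icc, add_tsub_cancel_right,
        nsmul_eq_mul, mul_one]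
      calc (u : ℝ) * (2 * W / s + 1) ≤ K' * (2 * W / s + 1) := by
            apply mul_le_mul_of_nonneg_right hu'
            positivity
        _ ≤ K' * (4 * (W / s)) := by
            apply mul_le_mul_of_nonneg_left _ hK0
            have : (2 : ℝ) * W / s = 2 * (W / s) := by ring
            rw [this]
            linarith
        _ = T := by rw [hT]; ring)
    (by
      intro α
      by_cases hα : (R : ℝ) * s / W ≤ nn (s * α)
      · left
        have hα0 : 0 < nn (s * α) := lt_of_lt_of_le (by positivity) hα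
        have h3 := W1_one (W := W) (s := s) (u := u) hW hs hsW hα0
        refine h3.trans ?_
        have h4 : (2 : ℝ) + u * s / W ≤ 3 * (s * K' / W) := by
          have h5 : (u : ℝ) * s / W ≤ s * K' / W := by
            apply div_le_div_of_nonneg_right _ hW'.le
            rw [mul_comm]
            exact mul_le_mul_of_nonneg_left hu' hs'.le
          have h6 : 1 ≤ (s : ℝ) * K' / W := by rwa [le_div_iff₀ hW', one_mul]
          linarith
        calc (2 + (u : ℝ) * s / W) / nn (s * α) ^ 2 ≤
              (3 * (s * K' / W)) / ((R : ℝ) * s / W) ^ 2 := by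
                apply div_le_div₀ (by positivity) h4 (by positivity)
                exact pow_le_pow_left₀ (by positivity) hα 2
          _ = 3 * (K' * W / s) / (R : ℝ) ^ 2 := by
                field_simp
          _ ≤ 1 / (R : ℝ) ^ 2 * T := by
                rw [hT, div_mul_eq_mul_div, one_mul]
                apply div_le_div_of_nonneg_right _ (by positivity)
                have : 0 ≤ (K' : ℝ) * W / s := by positivity
                linarith
      · right
        rw [not_le] at hα
        obtain ⟨r, b, hr1, hrs, hcop, hrb⟩ := TypeIMin_red (round ((s : ℝ) * α)) hs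
        refine ⟨r, b, hr1, hrs.trans hsR, hcop, ?_⟩
        rw [hrb]
        unfold nn at hα
        have h3 : α - (round ((s : ℝ) * α) : ℝ) / s = ((s : ℝ) * α - round ((s : ℝ) * α)) / s := by
          field_simp
        rw [h3, abs_div, abs_of_pos hs', div_le_iff₀ hs']
        refine hα.le.trans (le_of_eq ?_)
        ring)
  refine h2.trans ?_
  have hlog := TypeIMin_log hX
  have hXp : (0 : ℝ) ≤ X := Nat.cast_nonneg _
  have hf : (1 / (R : ℝ) ^ 2 + 400 / (R : ℝ) ^ 2) = 401 / (R : ℝ) ^ 2 := by ring
  rw [hf]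
  calc 401 / (R : ℝ) ^ 2 * T * (12 * X * (1 + Real.log (2 * X))) ≤
        401 / (R : ℝ) ^ 2 * T * (12 * X * (3 * Real.log X)) := by
          apply mul_le_mul_of_nonneg_left _ (by positivity)
          apply mul_le_mul_of_nonneg_left hlog (by positivity)
    _ = 57744 * (K' * W / s) * X * Real.log X / (R : ℝ) ^ 2 := by
          rw [hT]; ring

end Pool.Agent.SInt
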